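import Pool.Agent.NH28.UR.Def

set_option autoImplicit false

/-!
# Project UR: statements of the jobs
-/

namespace Pool.Agent.NH28.UR

open Finset

/-! ## Part 1: from subring counts to `Xct` -/

/-- interpolation in `n`: the functions `C(n,r) p^(kn)` are linearly independent -/
def S_INTERP : Prop :=
  ∀ (n₀ K R : ℕ) (F : ℕ → ∀ p : ℕ, [Fact p.Prime] → ℚ)
    (a : ℕ → ℕ → ∀ p : ℕ, [Fact p.Prime] → ℚ),
    (∀ n, n₀ ≤ n → RatF (F n)) →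
    (∀ (p : ℕ) [Fact p.Prime], 5 ≤ p → ∀ n, n₀ ≤ n →
      F n p = ∑ k ∈ range (K + 1), ∑ r ∈ range (R + 1),
        (n.choose r : ℚ) * (p : ℚ) ^ (k * n) * a k r p) →
    ∀ k, k ≤ K → ∀ r, r ≤ R → RatF (a k r)

/-- finitely many subgroups of given positive index -/
def S_FIN : Prop :=
  ∀ (ι : Type) [Fintype ι] (k : ℕ), k ≠ 0 → Finite {M : AddSubgroup (ι → ℤ) // M.index = k}

/-- few coordinate vectors lie outside a lattice containing all products of elements of `N` -/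
def S_BAD : Prop :=
  ∀ (p : ℕ), p.Prime → ∀ (ι : Type) [Fintype ι] [DecidableEq ι] (N K : AddSubgroup (ι → ℤ)),
    (1 : ι → ℤ) ∈ N → (∀ x ∈ N, ∀ y ∈ N, x * y ∈ K) → ∀ s : ℕ, N.index = p ^ s →
    Nat.card {i : ι // (Pi.single i 1 : ι → ℤ) ∉ K} ≤ s * s + s

/-- splitting off the coordinates with `e_i ∈ Λ` -/
def S_PHI : Prop :=
  ∀ n k : ℕ, k ≠ 0 → fct n k = ∑ r ∈ range (n + 1), n.choose r * phi r k

/-- irreducibility in terms of idempotents -/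
def S_LIUK : Prop :=
  ∀ (p : ℕ), p.Prime → ∀ (ι : Type) [Fintype ι] [DecidableEq ι] (i₀ : ι) (Λ : Subring (ι → ℤ))
    (e : ℕ), Λ.toAddSubgroup.index = p ^ e →
    ((∀ x ∈ Λ, ∀ i j, (p : ℤ) ∣ x i - x j) ↔
      ∀ S : Finset ι, i₀ ∈ S → (fun i => if i ∈ S then (1 : ℤ) else 0) ∈ Λ → S = univ)

/-- Liu's recurrence -/
def S_LIU : Prop :=
  ∀ n p e : ℕ, p.Prime → fct (n + 1) (p ^ e) =
    ∑ m ∈ range (n + 1), n.choose m *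
      ∑ i ∈ range (e + 1), gct (m + 1) p i * fct (n - m) (p ^ (e - i))

/-- irreducible subrings are `ℤ + pM` -/
def S_GM : Prop :=
  ∀ n p s : ℕ, p.Prime → gct (n + 1) p (n + s) = Gct (n + 1) p s

/-- sorting admissible lattices by the set of `i` with `p e_i ∈ M` -/
def S_GD : Prop :=
  ∀ n p s : ℕ, p.Prime → Gct n p s = ∑ r ∈ range (n + 1), n.choose r * Dct r (n - r) p s

def S_BD : Prop :=
  ∀ r j p s : ℕ, p.Prime → Bct r j p s = ∑ t ∈ range (r + 1), r.choose t * Dct (r - t) (j + t) p s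

/-- admissible lattices containing `pℤ^j`, no other coordinates -/
def S_B0 : Prop :=
  ∀ j p s : ℕ, p.Prime → (Bct 0 (j + 1) p s : ℚ) = gauss p j s

/-- `M/pM²` has order between `p` and `p^r` -/
def S_KAP : Prop :=
  ∀ r p s : ℕ, p.Prime → 1 ≤ r → ∀ M : AddSubgroup (Fin r → ℤ), Adm p M → M.index = p ^ s →
    ∃ k, k < r ∧ (M2 p M).relIndex M = p ^ (k + 1)

/-- admissible lattices with given projection to the first `r` coordinates -/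
def S_B1A : Prop :=
  ∀ r j p s b k : ℕ, p.Prime → 1 ≤ r → ∀ M' : AddSubgroup (Fin r → ℤ), Adm p M' →
    M'.index = p ^ s → (M2 p M').relIndex M' = p ^ (k + 1) →
    (Nat.card {M : AddSubgroup (Fin r ⊕ Fin j → ℤ) // Adm p M ∧ M.index = p ^ (s + b) ∧
      (∀ i : Fin j, (Pi.single (Sum.inr i) (p : ℤ) : Fin r ⊕ Fin j → ℤ) ∈ M) ∧
      (∀ x : Fin r → ℤ, x ∈ M' ↔ ∃ m ∈ M, ∀ i, m (Sum.inl i) = x i)} : ℚ) =
    gauss p j b * (p : ℚ) ^ (b * k)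

/-- Goursat count of the admissible lattices containing `p e_i` for the last `j` coordinates -/
def S_B1 : Prop :=
  ∀ r j p s : ℕ, p.Prime → 1 ≤ r → (Bct r j p s : ℚ) =
    ∑ b ∈ range (s + 1), gauss p j b *
      ∑ k ∈ range r, (p : ℚ) ^ (b * k) * (Nct r (s - b) (k + 1) p : ℚ)

/-- the number of subspaces containing `1` -/
def S_GAUSS : Prop :=
  ∀ (p : ℕ) [Fact p.Prime] (j b : ℕ),
    (Nat.card {U : Submodule (ZMod p) (Fin j → ZMod p) //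
      Nat.card ((Fin j → ZMod p) ⧸ U) = p ^ b} : ℚ) = gauss p j b

/-- products of two (three) elements of `V` -/
def sq {p : ℕ} (V : Submodule (ZMod p) (Fin 10 → ZMod p)) : Submodule (ZMod p) (Fin 10 → ZMod p) :=
  Submodule.span (ZMod p) {t | ∃ x ∈ V, ∃ y ∈ V, t = x * y}

/-- the subspaces counted by `Vct` -/
def Vgood {p : ℕ} (V : Submodule (ZMod p) (Fin 10 → ZMod p)) : Prop :=
  (1 : Fin 10 → ZMod p) ∈ V ∧ Nat.card V = p ^ 3 ∧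
    Submodule.span (ZMod p) {t | ∃ x ∈ V, ∃ y ∈ V, ∃ z ∈ V, t = x * y * z} = ⊤

/-- lattices `M ∋ 1` with reduction `V` and `M ∩ pℤ^10 = p (V² + pℤ^10)` -/
def NV (p : ℕ) (V : Submodule (ZMod p) (Fin 10 → ZMod p)) (M : AddSubgroup (Fin 10 → ℤ)) : Prop :=
  (1 : Fin 10 → ℤ) ∈ M ∧ (∀ x ∈ M, (fun i => (x i : ZMod p)) ∈ V) ∧
    (∀ v ∈ V, ∃ x ∈ M, (fun i => (x i : ZMod p)) = v) ∧
    ∀ z : Fin 10 → ℤ, (p : ℤ) • z ∈ M ↔ (fun i => (z i : ZMod p)) ∈ sq V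

def S_NA : Prop :=
  ∀ (p : ℕ) [Fact p.Prime] (M : AddSubgroup (Fin 10 → ℤ)),
    (Adm p M ∧ M.index = p ^ 11 ∧ (M2 p M).relIndex M = p ^ 3) ↔
      ∃ V : Submodule (ZMod p) (Fin 10 → ZMod p), Vgood V ∧ NV p V M

def S_NB : Prop :=
  ∀ (p : ℕ) [Fact p.Prime] (V : Submodule (ZMod p) (Fin 10 → ZMod p)), Vgood V →
    Nat.card {M : AddSubgroup (Fin 10 → ℤ) // NV p V M} = p ^ 8

/-- structure of the minimal lattices of embedding dimension 3 in `ℤ^10` -/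
def S_N : Prop := ∀ p : ℕ, p.Prime → Nct 10 11 3 p = p ^ 8 * Vct p

def S_V : Prop := ∀ (p : ℕ) [Fact p.Prime], (p ^ 3 - p) * (p ^ 3 - p ^ 2) * Vct p = Xct p

/-! ## Part 2: double counting -/

def S_DC : Prop :=
  ∀ (p : ℕ) [Fact p.Prime], 
    (Yct p = ∑ i ∈ range 11, (act i p : ℚ) * (p : ℚ) ^ i) ∧
    (ff ((p : ℚ) ^ 2) 10 = ∑ i ∈ range 11, (act i p : ℚ)) ∧
    act 0 p = Xct p

/-! ## Part 2: configurations with at least two cubics -/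

/-- number of points of `Γ` on the line `L` -/
noncomputable def nL {p : ℕ} (L : Lin p) (Γ : Set (ZMod p × ZMod p)) : ℕ :=
  Nat.card {v : ZMod p × ZMod p // v ∈ Γ ∧ onL L v}

/-- points of `Γ` off the line `L` -/
def offL {p : ℕ} (L : Lin p) (Γ : Set (ZMod p × ZMod p)) : Set (ZMod p × ZMod p) :=
  {v | v ∈ Γ ∧ ¬ onL L v}

/-- number of points of `Γ` on the conic `q` -/
noncomputable def nQ {p : ℕ} (q : Fin 6 → ZMod p) (Γ : Set (ZMod p × ZMod p)) : ℕ :=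
  Nat.card {v : ZMod p × ZMod p // v ∈ Γ ∧ Q2 q v = 0}

/-- line with at least four (three) points of `Γ` splits off -/
def S_RED : Prop :=
  ∀ (p : ℕ) [Fact p.Prime], 5 ≤ p → ∀ (L : Lin p) (Γ : Set (ZMod p × ZMod p)),
    (4 ≤ nL L Γ → w3 Γ = w2 (offL L Γ)) ∧ (3 ≤ nL L Γ → w2 Γ = w1 (offL L Γ))

/-- affine functions vanishing on a set -/
def S_W1 : Prop :=
  ∀ (p : ℕ) [Fact p.Prime], 5 ≤ p →
    (w1 (∅ : Set (ZMod p × ZMod p)) = p ^ 3) ∧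
    (∀ v : ZMod p × ZMod p, w1 {v} = p ^ 2) ∧
    (∀ Γ : Set (ZMod p × ZMod p), 2 ≤ Nat.card Γ → (∃ L : Lin p, ∀ v ∈ Γ, onL L v) → w1 Γ = p) ∧
    (∀ Γ : Set (ZMod p × ZMod p), (¬ ∃ L : Lin p, ∀ v ∈ Γ, onL L v) → w1 Γ = 1)

/-- conics vanishing on at most six points -/
def S_C2 : Prop :=
  ∀ (p : ℕ) [Fact p.Prime], 5 ≤ p → ∀ Δ : Set (ZMod p × ZMod p),
    (Nat.card Δ ≤ 3 → w2 Δ = p ^ (6 - Nat.card Δ)) ∧
    (Nat.card Δ = 4 → ((∃ L, nL L Δ = 4) → w2 Δ = p ^ 3) ∧ ((∀ L, nL L Δ ≤ 3) → w2 Δ = p ^ 2)) ∧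
    (Nat.card Δ = 5 → ((∃ L, nL L Δ = 5) → w2 Δ = p ^ 3) ∧ ((∃ L, nL L Δ = 4) → w2 Δ = p ^ 2) ∧
      ((∀ L, nL L Δ ≤ 3) → w2 Δ = p)) ∧
    (Nat.card Δ = 6 → (∀ L, nL L Δ ≤ 4) → w2 Δ ≤ p)

/-- seven points, no four collinear, impose independent conditions on cubics -/
def S_GEN3 : Prop :=
  ∀ (p : ℕ) [Fact p.Prime], 5 ≤ p → ∀ Γ : Set (ZMod p × ZMod p), Nat.card Γ = 7 →
    (∀ L, nL L Γ ≤ 3) → w3 Γ = p ^ 3

/-- ten points in general position with respect to lines on two cubics: nine on a conic -/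
def S_ARC : Prop :=
  ∀ (p : ℕ) [Fact p.Prime], 5 ≤ p → ∀ Γ : Set (ZMod p × ZMod p), Nat.card Γ = 10 →
    (∀ L, nL L Γ ≤ 2) → p ^ 2 ≤ w3 Γ → ∃ q : Fin 6 → ZMod p, q ≠ 0 ∧ 9 ≤ nQ q Γ

/-- the classification when every line has at most three points -/
def S_CONE : Prop :=
  ∀ (p : ℕ) [Fact p.Prime], 5 ≤ p → ∀ Γ : Set (ZMod p × ZMod p), Nat.card Γ = 10 →
    ((∀ L, nL L Γ ≤ 3) → p ^ 2 ≤ w3 Γ → ∃ q : Fin 6 → ZMod p, NLC q ∧ 9 ≤ nQ q Γ) ∧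
    (∀ q : Fin 6 → ZMod p, NLC q → 9 ≤ nQ q Γ →
      (∀ L, nL L Γ ≤ 3) ∧ (nQ q Γ = 9 → w3 Γ = p ^ 2) ∧ (nQ q Γ = 10 → w3 Γ = p ^ 3))

/-- number of indices `k` with `P k` on the line `L` -/
noncomputable def nI {p : ℕ} (L : Lin p) (P : Fin 10 → ZMod p × ZMod p) : ℕ :=
  Nat.card {k : Fin 10 // onL L (P k)}

/-- configurations with a line through at least six points -/
def S_CNT6 : Prop :=
  ∀ i : ℕ, RatF (fun p => Nat.cast (Nat.card {P : Fin 10 → ZMod p × ZMod p //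
    Function.Injective P ∧ (∃ L, 6 ≤ nI L P) ∧ w3 (Set.range P) = p ^ i}))

/-- maximal line with exactly five points -/
def S_CNT5 : Prop :=
  ∀ i : ℕ, 2 ≤ i → RatF (fun p => Nat.cast (Nat.card {P : Fin 10 → ZMod p × ZMod p //
    Function.Injective P ∧ (∀ L, nI L P ≤ 5) ∧ (∃ L, nI L P = 5) ∧
    w3 (Set.range P) = p ^ i}))

/-- every line has at most four points -/
def S_CNT4 : Prop :=
  ∀ i : ℕ, 2 ≤ i → RatF (fun p => Nat.cast (Nat.card {P : Fin 10 → ZMod p × ZMod p //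
    Function.Injective P ∧ (∀ L, nI L P ≤ 4) ∧ w3 (Set.range P) = p ^ i}))

open Classical in
/-- sums over conics without line component -/
def S_CONIC : Prop :=
  ∀ Φ : Polynomial ℚ, RatF (fun p => ∑ q : Fin 6 → ZMod p, if NLC q then
    (Nat.card {v : ZMod p × ZMod p // Q2 q v = 0} : ℚ) *
      Φ.eval (Nat.card {v : ZMod p × ZMod p // Q2 q v = 0} : ℚ) else 0)

/-! ## Part 2: sums over cubic forms -/

/-- linear substitutions act on cubic forms -/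
def S_TRANS : Prop :=
  ∀ (p : ℕ) [Fact p.Prime], 5 ≤ p → ∀ A : Matrix (Fin 3) (Fin 3) (ZMod p), IsUnit A.det →
    ∃ σ : Equiv.Perm (Fin 10 → ZMod p), ∀ (c : Fin 10 → ZMod p) (v : Fin 3 → ZMod p),
      T (σ c) (v 0) (v 1) (v 2) = T c (A.mulVec v 0) (A.mulVec v 1) (A.mulVec v 2)

def S_AFF : Prop :=
  ∀ (p : ℕ) [Fact p.Prime], 5 ≤ p → ∀ c : Fin 10 → ZMod p, (Naff c : ℚ) = nP c - zP c

def S_SYM1 : Prop :=
  ∀ (p : ℕ) [Fact p.Prime], 5 ≤ p → ∀ Φ : ℚ → ℚ,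
    ∑ c : Fin 10 → ZMod p, nP c * Φ (nP c) =
      ((p : ℚ) ^ 2 + p + 1) * ∑ c : Fin 10 → ZMod p, if c 0 = 0 then Φ (nP c) else 0

def S_SYM2 : Prop :=
  ∀ (p : ℕ) [Fact p.Prime], 5 ≤ p → ∀ Φ : ℚ → ℚ,
    ∑ c : Fin 10 → ZMod p, zP c * Φ (nP c) =
      ((p : ℚ) + 1) * ∑ c : Fin 10 → ZMod p, if c 0 = 0 then Φ (nP c) else 0

def S_SYM3 : Prop :=
  ∀ (p : ℕ) [Fact p.Prime], 5 ≤ p → ∀ Φ : ℚ → ℚ,
    ((p : ℚ) ^ 2 + p + 1) * ∑ c : Fin 10 → ZMod p, zP c * (zP c - 1) * Φ (nP c) =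
      ∑ c : Fin 10 → ZMod p, nP c * (nP c - 1) * Φ (nP c)

/-- the binary cubic `C(x,y,0)` has an exactly double root at `(x,y)` -/
def Dbl {p : ℕ} (c : Fin 10 → ZMod p) (v : ZMod p × ZMod p) : Prop :=
  v ≠ 0 ∧ 3 * c 0 * v.1 ^ 2 + 2 * c 1 * v.1 * v.2 + c 3 * v.2 ^ 2 = 0 ∧
    c 1 * v.1 ^ 2 + 2 * c 3 * v.1 * v.2 + 3 * c 6 * v.2 ^ 2 = 0 ∧
    ¬ (6 * c 0 * v.1 + 2 * c 1 * v.2 = 0 ∧ 2 * c 1 * v.1 + 2 * c 3 * v.2 = 0 ∧
      2 * c 3 * v.1 + 6 * c 6 * v.2 = 0)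

/-- zeros of a nonzero binary cubic -/
def S_BIN : Prop :=
  ∀ (p : ℕ) [Fact p.Prime], 5 ≤ p → ∀ c : Fin 10 → ZMod p,
    ¬ (c 0 = 0 ∧ c 1 = 0 ∧ c 3 = 0 ∧ c 6 = 0) →
    (zP c = 0 ∨ zP c = 1 ∨ zP c = 2 ∨ zP c = 3) ∧
    (((p : ℚ) - 1) * (ff (zP c) 3 - ff (zP c) 2) =
      -2 * (Nat.card {v : ZMod p × ZMod p // Dbl c v} : ℚ))

def S_SYM4 : Prop :=
  ∀ (p : ℕ) [Fact p.Prime], 5 ≤ p → ∀ Φ : ℚ → ℚ,
    ∑ c : Fin 10 → ZMod p, (Nat.card {v : ZMod p × ZMod p // Dbl c v} : ℚ) * Φ (nP c) =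
      ((p : ℚ) ^ 2 - 1) * ∑ c : Fin 10 → ZMod p,
        if c 0 = 0 ∧ c 1 = 0 ∧ c 3 ≠ 0 then Φ (nP c) else 0

def S_SYM5 : Prop :=
  ∀ (p : ℕ) [Fact p.Prime], 5 ≤ p → ∀ Φ : ℚ → ℚ,
    (∑ c : Fin 10 → ZMod p, if c 0 = 0 ∧ ¬ (c 1 = 0 ∧ c 2 = 0) then Φ (nP c) else 0) =
      ((p : ℚ) + 1) * ∑ c : Fin 10 → ZMod p,
        if c 0 = 0 ∧ c 1 = 0 ∧ c 2 ≠ 0 then Φ (nP c) else 0

/-- projective points of a cubic with base point `(1:0:0)` and tangent line `z = 0` there -/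
def S_CNT : Prop :=
  ∀ (p : ℕ) [Fact p.Prime], 5 ≤ p → ∀ c : Fin 10 → ZMod p, c 0 = 0 → c 1 = 0 → c 2 ≠ 0 →
    nP c = (p : ℚ) + 1 + ((∑ y : ZMod p, quadraticChar (ZMod p)
      ((c 3 * y ^ 2 + c 4 * y + c 5) ^ 2 -
        4 * c 2 * (c 6 * y ^ 3 + c 7 * y ^ 2 + c 8 * y + c 9)) : ℤ) : ℚ) +
      (if c 3 ≠ 0 then 1 else if c 6 = 0 then (p : ℚ) else 0)

/-- the cubic resolvent of a quartic `(a y² + b y + e)² + α y + β` -/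
def S_RES : Prop :=
  ∀ (p : ℕ) [Fact p.Prime], 5 ≤ p → ∀ a b e α β : ZMod p, a ≠ 0 → ¬ (α = 0 ∧ β = 0) →
    (∑ y : ZMod p, quadraticChar (ZMod p) ((a * y ^ 2 + b * y + e) ^ 2 + α * y + β)) + 1 =
      sE ![-8 * a, 4 * b ^ 2 - 16 * a * e, 8 * a * β - 4 * b * α, α ^ 2]

/-- smooth base point, tangent line not inflectional -/
def S_SUMQ : Prop :=
  ∀ Φ : Polynomial ℚ, RatF (fun p =>
    (∑ c : Fin 10 → ZMod p, if c 0 = 0 ∧ c 1 = 0 ∧ c 2 ≠ 0 ∧ c 3 ≠ 0 then Φ.eval (nP c) else 0) -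
    ((p : ℚ) - 1) * (p : ℚ) ^ 2 * ∑ E : Fin 4 → ZMod p,
      if E 0 ≠ 0 then ((p : ℚ) + sE E) * Φ.eval ((p : ℚ) + 1 + sE E) else 0)

/-- base point a flex with tangent line `z = 0` -/
def S_SUMC : Prop :=
  ∀ (p : ℕ) [Fact p.Prime], 5 ≤ p → ∀ Φ : ℚ → ℚ,
    (∑ c : Fin 10 → ZMod p, if c 0 = 0 ∧ c 1 = 0 ∧ c 2 ≠ 0 ∧ c 3 = 0 ∧ c 6 ≠ 0
      then Φ (nP c) else 0) =
    ((p : ℚ) - 1) * (p : ℚ) ^ 2 * ∑ E : Fin 4 → ZMod p,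
      if E 0 ≠ 0 then Φ ((p : ℚ) + 1 + sE E) else 0

/-- cubics containing the line `z = 0`, smooth at the base point -/
def S_SUM0 : Prop :=
  ∀ Φ : Polynomial ℚ, RatF (fun p =>
    ∑ c : Fin 10 → ZMod p, if c 0 = 0 ∧ c 1 = 0 ∧ c 2 ≠ 0 ∧ c 3 = 0 ∧ c 6 = 0
      then Φ.eval (nP c) else 0)

/-- cubics singular at the base point -/
def S_SING : Prop :=
  ∀ Φ : Polynomial ℚ,
    RatF (fun p => ∑ c : Fin 10 → ZMod p, if c 0 = 0 ∧ c 1 = 0 ∧ c 2 = 0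
      then Φ.eval (nP c) else 0) ∧
    RatF (fun p => ∑ c : Fin 10 → ZMod p, if c 0 = 0 ∧ c 1 = 0 ∧ c 2 = 0 ∧ c 3 ≠ 0
      then Φ.eval (nP c) else 0)

/-- cubics containing the line at infinity -/
def S_CON : Prop :=
  ∀ k : ℕ, RatF (fun p => ∑ c : Fin 10 → ZMod p,
    if c 0 = 0 ∧ c 1 = 0 ∧ c 3 = 0 ∧ c 6 = 0 then (Naff c : ℚ) ^ k else 0)

/-- reduction of cubics `E` to `x³ + A x + B` -/
def S_OM : Prop :=
  ∀ (p : ℕ) [Fact p.Prime], 5 ≤ p → ∀ Φ : ℚ → ℚ,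
    (∑ E : Fin 4 → ZMod p, if E 0 ≠ 0 then Φ (sE E) else 0) =
      ((p : ℚ) - 1) * p * ∑ A : ZMod p, ∑ B : ZMod p, Φ (sAB A B)

/-- `Σ_E χ(E(0)) ... ` averages; used in `S_SUMQ` -/
def S_SHIFT : Prop :=
  ∀ (p : ℕ) [Fact p.Prime], 5 ≤ p → ∀ Φ : ℚ → ℚ,
    (p : ℚ) * (∑ E : Fin 4 → ZMod p, if E 0 ≠ 0 then
      (1 + (quadraticChar (ZMod p) (E 3) : ℚ)) * Φ (sE E) else 0) =
      ∑ E : Fin 4 → ZMod p, if E 0 ≠ 0 then ((p : ℚ) + sE E) * Φ (sE E) else 0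

/-! ## Part 3: the elliptic curve sum is not a rational function -/

/-- an integer valued rational function of polynomial growth is a polynomial -/
def S_POLY : Prop :=
  ∀ (F : ∀ p : ℕ, [Fact p.Prime] → ℚ) (d : ℕ) (C : ℚ), RatF F →
    (∀ (p : ℕ) [Fact p.Prime], 5 ≤ p → ∃ m : ℤ, F p = m) →
    (∀ (p : ℕ) [Fact p.Prime], 5 ≤ p → |F p| ≤ C * (p : ℚ) ^ d) →
    ∃ P : Polynomial ℚ, P.natDegree ≤ d ∧ ∀ (p : ℕ) [Fact p.Prime], 5 ≤ p → F p = P.eval (p : ℚ)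

/-- the sum is not a rational function of `p` -/
def S_R : Prop := ¬ RatF (fun p => Rct p)

end Pool.Agent.NH28.UR
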