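import Mathlib
import Pool.Agent.NH28.UR.Stm

/-! Ten points, no three collinear, on two independent cubics: nine of them are on a conic. -/

set_option autoImplicit false

namespace Pool.Agent.NH28.UR.Arc

open Pool.Agent.NH28.UR MvPolynomial Module

section poly

variable {F : Type} [Field F]

/-- exponent vector -/
noncomputable def ex (i j : ℕ) : Fin 2 →₀ ℕ := Finsupp.single 0 i + Finsupp.single 1 j

theorem ex_zero (i j : ℕ) : ex i j 0 = i := by simp [ex]
theorem ex_one (i j : ℕ) : ex i j 1 = j := by simp [ex]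

theorem ex_inj {i j i' j' : ℕ} : ex i j = ex i' j' ↔ i = i' ∧ j = j' := by
  constructor
  · intro h
    exact ⟨by rw [← ex_zero i j, h, ex_zero], by rw [← ex_one i j, h, ex_one]⟩
  · rintro ⟨rfl, rfl⟩
    rfl

theorem eq_ex (m : Fin 2 →₀ ℕ) : m = ex (m 0) (m 1) := by
  ext k
  fin_cases k
  · exact (ex_zero _ _).symm
  · exact (ex_one _ _).symm

/-- monomial -/
noncomputable def mo (i j : ℕ) : MvPolynomial (Fin 2) F := monomial (ex i j) 1

theorem coeff_mo (i j i' j' : ℕ) : coeff (ex i j) (mo i' j' : MvPolynomial (Fin 2) F) =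
    if i' = i ∧ j' = j then 1 else 0 := by
  classical
  rw [mo, coeff_monomial]
  simp only [ex_inj]

theorem eval_mo (v : F × F) (i j : ℕ) : eval ![v.1, v.2] (mo i j) = v.1 ^ i * v.2 ^ j := by
  rw [mo, eval_monomial, one_mul, Finsupp.prod_fintype]
  · simp [Fin.prod_univ_two, ex_zero, ex_one]
  · intro i
    exact pow_zero _

theorem sum_ex (i j : ℕ) : ∑ k ∈ (ex i j).support, ex i j k = i + j := by
  rw [Finset.sum_subset (Finset.subset_univ _)]
  · rw [Fin.sum_univ_two, ex_zero, ex_one]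
  · intro k _ hk
    exact Finsupp.notMem_support_iff.mp hk

theorem coeff_big {g : MvPolynomial (Fin 2) F} {n i j : ℕ} (hg : g.totalDegree ≤ n)
    (h : n < i + j) : coeff (ex i j) g = 0 := by
  apply coeff_eq_zero_of_totalDegree_lt
  rw [sum_ex]
  omega

theorem eq_of_coeff {g h : MvPolynomial (Fin 2) F} {n : ℕ} (hg : g.totalDegree ≤ n)
    (hh : h.totalDegree ≤ n) (H : ∀ i j, i + j ≤ n → coeff (ex i j) g = coeff (ex i j) h) :
    g = h := by
  ext m
  rw [eq_ex m]
  rcases le_or_gt (m 0 + m 1) n with hm | hm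
  · exact H _ _ hm
  · rw [coeff_big hg hm, coeff_big hh hm]

theorem deg_mo (i j : ℕ) : (mo i j : MvPolynomial (Fin 2) F).totalDegree ≤ i + j := by
  rw [mo, totalDegree_monomial _ one_ne_zero, Finsupp.sum, sum_ex]

theorem deg_smul_mo (a : F) {n i j : ℕ} (h : i + j ≤ n) :
    (a • (mo i j : MvPolynomial (Fin 2) F)).totalDegree ≤ n :=
  (totalDegree_smul_le _ _).trans ((deg_mo i j).trans h)

theorem deg_add {n : ℕ} {g h : MvPolynomial (Fin 2) F} (hg : g.totalDegree ≤ n)
    (hh : h.totalDegree ≤ n) : (g + h).totalDegree ≤ n :=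
  (totalDegree_add _ _).trans (max_le hg hh)

/-- the conic with given coefficients -/
noncomputable def P2 (q : Fin 6 → F) : MvPolynomial (Fin 2) F :=
  q 0 • mo 2 0 + q 1 • mo 1 1 + q 2 • mo 1 0 + q 3 • mo 0 2 + q 4 • mo 0 1 + q 5 • mo 0 0

/-- the cubic with given coefficients -/
noncomputable def P3 (c : Fin 10 → F) : MvPolynomial (Fin 2) F :=
  c 0 • mo 3 0 + c 1 • mo 2 1 + c 2 • mo 2 0 + c 3 • mo 1 2 + c 4 • mo 1 1 + c 5 • mo 1 0 +
    c 6 • mo 0 3 + c 7 • mo 0 2 + c 8 • mo 0 1 + c 9 • mo 0 0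

theorem P2_deg (q : Fin 6 → F) : (P2 q).totalDegree ≤ 2 := by
  unfold P2
  refine deg_add (deg_add (deg_add (deg_add (deg_add ?_ ?_) ?_) ?_) ?_) ?_ <;>
    exact deg_smul_mo _ (by norm_num)

theorem P3_deg (c : Fin 10 → F) : (P3 c).totalDegree ≤ 3 := by
  unfold P3
  refine deg_add (deg_add (deg_add (deg_add (deg_add (deg_add (deg_add (deg_add (deg_add
    ?_ ?_) ?_) ?_) ?_) ?_) ?_) ?_) ?_) ?_ <;>
    exact deg_smul_mo _ (by norm_num)

theorem P2_add (q q' : Fin 6 → F) : P2 (q + q') = P2 q + P2 q' := by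
  simp only [P2, Pi.add_apply, add_smul]
  abel

theorem P2_smul (a : F) (q : Fin 6 → F) : P2 (a • q) = a • P2 q := by
  simp only [P2, Pi.smul_apply, smul_eq_mul, mul_smul, smul_add]

theorem P3_add (q q' : Fin 10 → F) : P3 (q + q') = P3 q + P3 q' := by
  simp only [P3, Pi.add_apply, add_smul]
  abel

theorem P3_smul (a : F) (q : Fin 10 → F) : P3 (a • q) = a • P3 q := by
  simp only [P3, Pi.smul_apply, smul_eq_mul, mul_smul, smul_add]

theorem eval_P2 (q : Fin 6 → F) (v : F × F) : eval ![v.1, v.2] (P2 q) = Q2 q v := by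
  simp only [P2, Q2, map_add, smul_eval, eval_mo]
  ring

theorem eval_P3 (c : Fin 10 → F) (v : F × F) : eval ![v.1, v.2] (P3 c) = T c v.1 v.2 1 := by
  simp only [P3, T, map_add, smul_eval, eval_mo]
  ring

theorem P2_inj {q : Fin 6 → F} (h : P2 q = 0) : q = 0 := by
  have key : ∀ i j, coeff (ex i j) (P2 q) = 0 := by
    intro i j
    rw [h, coeff_zero]
  have h0 := key 2 0
  have h1 := key 1 1
  have h2 := key 1 0
  have h3 := key 0 2
  have h4 := key 0 1
  have h5 := key 0 0
  simp [P2, coeff_mo] at h0 h1 h2 h3 h4 h5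
  ext k
  fin_cases k <;> simp [h0, h1, h2, h3, h4, h5]

theorem P3_inj {q : Fin 10 → F} (h : P3 q = 0) : q = 0 := by
  have key : ∀ i j, coeff (ex i j) (P3 q) = 0 := by
    intro i j
    rw [h, coeff_zero]
  have h0 := key 3 0
  have h1 := key 2 1
  have h2 := key 2 0
  have h3 := key 1 2
  have h4 := key 1 1
  have h5 := key 1 0
  have h6 := key 0 3
  have h7 := key 0 2
  have h8 := key 0 1
  have h9 := key 0 0
  simp [P3, coeff_mo] at h0 h1 h2 h3 h4 h5 h6 h7 h8 h9
  ext k
  fin_cases k <;> simp [h0, h1, h2, h3, h4, h5, h6, h7, h8, h9]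

theorem rep2 {g : MvPolynomial (Fin 2) F} (hg : g.totalDegree ≤ 2) : ∃ q : Fin 6 → F,
    P2 q = g := by
  refine ⟨![coeff (ex 2 0) g, coeff (ex 1 1) g, coeff (ex 1 0) g, coeff (ex 0 2) g,
    coeff (ex 0 1) g, coeff (ex 0 0) g], eq_of_coeff (P2_deg _) hg ?_⟩
  intro i j hij
  have hi : i ≤ 2 := by omega
  have hj : j ≤ 2 := by omega
  interval_cases i <;> interval_cases j <;> first | omega | simp [P2, coeff_mo]

/-- polynomials of degree at most one -/
theorem rep1 {g : MvPolynomial (Fin 2) F} (hg : g.totalDegree ≤ 1) : ∃ l : Fin 3 → F,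
    g = l 0 • mo 1 0 + l 1 • mo 0 1 + l 2 • mo 0 0 := by
  refine ⟨![coeff (ex 1 0) g, coeff (ex 0 1) g, coeff (ex 0 0) g], eq_of_coeff (n := 1) hg ?_ ?_⟩
  · refine deg_add (deg_add ?_ ?_) ?_ <;> exact deg_smul_mo _ (by norm_num)
  intro i j hij
  have hi : i ≤ 1 := by omega
  have hj : j ≤ 1 := by omega
  interval_cases i <;> interval_cases j <;> first | omega | simp [coeff_mo]

theorem eval1 (l : Fin 3 → F) (v : F × F) :
    eval ![v.1, v.2] (l 0 • mo 1 0 + l 1 • mo 0 1 + l 2 • mo 0 0) =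
      l 0 * v.1 + l 1 * v.2 + l 2 := by
  simp only [map_add, smul_eval, eval_mo]
  ring

/-- the line through two points -/
noncomputable def lam (u v : F × F) : MvPolynomial (Fin 2) F :=
  (v.2 - u.2) • mo 1 0 + (- (v.1 - u.1)) • mo 0 1 +
    (u.2 * (v.1 - u.1) - u.1 * (v.2 - u.2)) • mo 0 0

/-- the determinant of three points -/
def dt (u v w : F × F) : F := (w.1 - u.1) * (v.2 - u.2) - (w.2 - u.2) * (v.1 - u.1)

theorem lam_deg (u v : F × F) : (lam u v).totalDegree ≤ 1 := by
  unfold lam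
  refine deg_add (deg_add ?_ ?_) ?_ <;> exact deg_smul_mo _ (by norm_num)

theorem eval_lam (u v w : F × F) : eval ![w.1, w.2] (lam u v) = dt u v w := by
  simp only [lam, dt, map_add, smul_eval, eval_mo]
  ring

/-- separating quintic -/
noncomputable def sep (w : Fin 9 → F × F) : MvPolynomial (Fin 2) F :=
  lam (w 0) (w 1) * lam (w 2) (w 3) * lam (w 4) (w 5) * lam (w 6) (w 7) * lam (w 7) (w 8)

theorem sep_deg (w : Fin 9 → F × F) : (sep w).totalDegree ≤ 5 := by
  unfold sep
  have h := fun a b => lam_deg (w a) (w b)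
  have h1 := totalDegree_mul (lam (w 0) (w 1)) (lam (w 2) (w 3))
  have h2 := totalDegree_mul (lam (w 0) (w 1) * lam (w 2) (w 3)) (lam (w 4) (w 5))
  have h3 := totalDegree_mul (lam (w 0) (w 1) * lam (w 2) (w 3) * lam (w 4) (w 5))
    (lam (w 6) (w 7))
  have h4 := totalDegree_mul (lam (w 0) (w 1) * lam (w 2) (w 3) * lam (w 4) (w 5) *
    lam (w 6) (w 7)) (lam (w 7) (w 8))
  have e1 := h 0 1
  have e2 := h 2 3
  have e3 := h 4 5
  have e4 := h 6 7
  have e5 := h 7 8
  omega

theorem eval_sep_self (w : Fin 9 → F × F) (k : Fin 9) :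
    eval ![(w k).1, (w k).2] (sep w) = 0 := by
  have h1 : ∀ u v : F × F, dt u v u = 0 := fun u v => by simp [dt]
  have h2 : ∀ u v : F × F, dt u v v = 0 := fun u v => by simp [dt]; ring
  fin_cases k <;> simp [sep, eval_lam, h1, h2]

theorem eval_sep_ne (w : Fin 9 → F × F) (v : F × F)
    (h : ∀ a b, a ≠ b → dt (w a) (w b) v ≠ 0) :
    eval ![v.1, v.2] (sep w) ≠ 0 := by
  simp only [sep, map_mul, eval_lam]
  refine mul_ne_zero (mul_ne_zero (mul_ne_zero (mul_ne_zero ?_ ?_) ?_) ?_) ?_ <;>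
    exact h _ _ (by decide)

/-- indices of the coefficients of the polynomials of degree at most five -/
abbrev E5 : Type := {x : Fin 6 × Fin 6 // (x.1 : ℕ) + (x.2 : ℕ) ≤ 5}

theorem card_E5 : Fintype.card E5 = 21 := by decide

/-- the linear map to which the dimension count applies -/
noncomputable def Lm (f f' : MvPolynomial (Fin 2) F) (D : Fin 10 → MvPolynomial (Fin 2) F) :
    ((Fin 6 → F) × (Fin 6 → F) × (Fin 10 → F)) →ₗ[F] (E5 → F) where
  toFun x e := coeff (ex e.1.1 e.1.2) (P2 x.1 * f + P2 x.2.1 * f' + ∑ i, x.2.2 i • D i)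
  map_add' x y := by
    funext e
    rw [Pi.add_apply, ← coeff_add]
    congr 1
    simp only [Prod.fst_add, Prod.snd_add, P2_add, Pi.add_apply, add_smul, Finset.sum_add_distrib,
      add_mul]
    abel
  map_smul' a x := by
    funext e
    simp only [Prod.smul_fst, Prod.smul_snd, P2_smul, Pi.smul_apply, smul_eq_mul, mul_smul,
      ← Finset.smul_sum, smul_mul_assoc, ← smul_add, coeff_smul, RingHom.id_apply]

theorem exists_rel (f f' : MvPolynomial (Fin 2) F) (hf : f.totalDegree ≤ 3)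
    (hf' : f'.totalDegree ≤ 3) (w : Fin 10 → F × F) (hw : ∀ a b c, a ≠ b → a ≠ c → b ≠ c →
      dt (w a) (w b) (w c) ≠ 0) (h0 : ∀ i, eval ![(w i).1, (w i).2] f = 0)
    (h0' : ∀ i, eval ![(w i).1, (w i).2] f' = 0) :
    ∃ q q' : Fin 6 → F, ¬ (q = 0 ∧ q' = 0) ∧ P2 q * f + P2 q' * f' = 0 := by
  classical
  set D : Fin 10 → MvPolynomial (Fin 2) F := fun i => sep (fun k => w (i.succAbove k)) with hD
  have hDd : ∀ i, (D i).totalDegree ≤ 5 := fun i => sep_deg _
  have hker : LinearMap.ker (Lm f f' D) ≠ ⊥ := by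
    apply LinearMap.ker_ne_bot_of_finrank_lt
    rw [finrank_prod, finrank_prod, finrank_fintype_fun_eq_card, finrank_fintype_fun_eq_card,
      finrank_fintype_fun_eq_card, card_E5]
    simp
  obtain ⟨x, hx, hx0⟩ := Submodule.exists_mem_ne_zero_of_ne_bot hker
  rw [LinearMap.mem_ker] at hx
  set Z := P2 x.1 * f + P2 x.2.1 * f' + ∑ i, x.2.2 i • D i with hZ
  have hZ0 : Z = 0 := by
    apply eq_of_coeff (n := 5)
    · refine deg_add (deg_add ?_ ?_) ?_
      · have := totalDegree_mul (P2 x.1) f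
        have := P2_deg x.1
        omega
      · have := totalDegree_mul (P2 x.2.1) f'
        have := P2_deg x.2.1
        omega
      · refine (totalDegree_finsetSum _ _).trans ?_
        apply Finset.sup_le
        intro i _
        exact (totalDegree_smul_le _ _).trans (hDd i)
    · rw [totalDegree_zero]
      omega
    · intro i j hij
      have := congrFun hx (⟨(⟨i, by omega⟩, ⟨j, by omega⟩), hij⟩ : E5)
      rw [coeff_zero]
      exact this
  have hs : x.2.2 = 0 := by
    funext i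
    have h1 : eval ![(w i).1, (w i).2] Z = 0 := by rw [hZ0, map_zero]
    rw [hZ, map_add, map_add, map_mul, map_mul, h0, h0', mul_zero, mul_zero, zero_add, zero_add,
      map_sum, Finset.sum_eq_single i, smul_eval] at h1
    · refine (mul_eq_zero.mp h1).resolve_right ?_
      apply eval_sep_ne
      intro a b hab
      refine hw _ _ _ ?_ ?_ ?_
      · exact fun h => hab (Fin.succAbove_right_injective h)
      · exact Fin.succAbove_ne i a
      · exact Fin.succAbove_ne i b
    · intro j _ hji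
      obtain ⟨k, hk⟩ := Fin.exists_succAbove_eq (x := i) (y := j) (Ne.symm hji)
      rw [smul_eval, hD]
      have := eval_sep_self (fun k => w (j.succAbove k)) k
      simp only [hk] at this
      simp only [this, mul_zero]
    · intro h
      exact absurd (Finset.mem_univ _) h
  refine ⟨x.1, x.2.1, ?_, ?_⟩
  · rintro ⟨h1, h2⟩
    apply hx0
    exact Prod.ext h1 (Prod.ext h2 hs)
  · have h2 : Z = P2 x.1 * f + P2 x.2.1 * f' := by
      rw [hZ, hs]
      simp
    rw [← h2, hZ0]

/-- two affine functions vanishing at two distinct points are dependent -/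
theorem dep1 {g h : MvPolynomial (Fin 2) F} (hg : g.totalDegree ≤ 1) (hh : h.totalDegree ≤ 1)
    (hg0 : g ≠ 0) {u v : F × F} (huv : u ≠ v) (h1 : eval ![u.1, u.2] g = 0)
    (h2 : eval ![v.1, v.2] g = 0) (h3 : eval ![u.1, u.2] h = 0) (h4 : eval ![v.1, v.2] h = 0) :
    ∃ a b : F, b ≠ 0 ∧ a • g + b • h = 0 := by
  obtain ⟨l, rfl⟩ := rep1 hg
  obtain ⟨m, rfl⟩ := rep1 hh
  rw [eval1] at h1 h2 h3 h4
  have hl : ¬ (l 0 = 0 ∧ l 1 = 0) := by
    rintro ⟨e0, e1⟩
    rw [e0, e1] at h1
    have e2 : l 2 = 0 := by linear_combination h1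
    apply hg0
    rw [e0, e1, e2]
    simp
  have hd : l 0 * m 1 = l 1 * m 0 := by
    have k1 : l 0 * (u.1 - v.1) + l 1 * (u.2 - v.2) = 0 := by linear_combination h1 - h2
    have k2 : m 0 * (u.1 - v.1) + m 1 * (u.2 - v.2) = 0 := by linear_combination h3 - h4
    have k3 : (l 0 * m 1 - l 1 * m 0) * (u.1 - v.1) = 0 := by
      linear_combination m 1 * k1 - l 1 * k2
    have k4 : (l 0 * m 1 - l 1 * m 0) * (u.2 - v.2) = 0 := by
      linear_combination l 0 * k2 - m 0 * k1
    rcases mul_eq_zero.mp k3 with k5 | k5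
    · exact sub_eq_zero.mp k5
    · rcases mul_eq_zero.mp k4 with k6 | k6
      · exact sub_eq_zero.mp k6
      · exact absurd (Prod.ext (sub_eq_zero.mp k5) (sub_eq_zero.mp k6)) huv
  have key : ∀ x y : F, x • (l 0 • mo 1 0 + l 1 • mo 0 1 + l 2 • mo 0 0) +
      y • (m 0 • mo 1 0 + m 1 • mo 0 1 + m 2 • mo 0 0) = (x * l 0 + y * m 0) • mo 1 0 +
      (x * l 1 + y * m 1) • mo 0 1 +
      (x * l 2 + y * m 2) • (mo 0 0 : MvPolynomial (Fin 2) F) := by
    intro x y
    simp only [smul_add, add_smul, mul_smul]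
    abel
  by_cases h0 : l 0 = 0
  · have h1' : l 1 ≠ 0 := fun h => hl ⟨h0, h⟩
    refine ⟨- m 1, l 1, h1', ?_⟩
    have e0 : - m 1 * l 0 + l 1 * m 0 = 0 := by linear_combination - hd
    have e1 : - m 1 * l 1 + l 1 * m 1 = 0 := by ring
    have e2 : - m 1 * l 2 + l 1 * m 2 = 0 := by
      linear_combination -(m 1) * h1 + l 1 * h3 + u.1 * hd
    rw [key, e0, e1, e2]
    simp
  · refine ⟨- m 0, l 0, h0, ?_⟩
    have e0 : - m 0 * l 0 + l 0 * m 0 = 0 := by ring
    have e1 : - m 0 * l 1 + l 0 * m 1 = 0 := by linear_combination hd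
    have e2 : - m 0 * l 2 + l 0 * m 2 = 0 := by
      linear_combination -(m 0) * h1 + l 0 * h3 - u.2 * hd
    rw [key, e0, e1, e2]
    simp

/-- three zeros of an affine function are collinear -/
theorem dt_zero {g : MvPolynomial (Fin 2) F} (hg : g.totalDegree ≤ 1) (hg0 : g ≠ 0)
    {u v w : F × F} (h1 : eval ![u.1, u.2] g = 0)
    (h2 : eval ![v.1, v.2] g = 0) (h3 : eval ![w.1, w.2] g = 0) : dt u v w = 0 := by
  obtain ⟨l, rfl⟩ := rep1 hg
  rw [eval1] at h1 h2 h3
  have hl : ¬ (l 0 = 0 ∧ l 1 = 0) := by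
    rintro ⟨e0, e1⟩
    rw [e0, e1] at h1
    have e2 : l 2 = 0 := by linear_combination h1
    apply hg0
    rw [e0, e1, e2]
    simp
  have k1 : l 0 * (v.1 - u.1) + l 1 * (v.2 - u.2) = 0 := by linear_combination h2 - h1
  have k2 : l 0 * (w.1 - u.1) + l 1 * (w.2 - u.2) = 0 := by linear_combination h3 - h1
  have k3 : l 0 * dt u v w = 0 := by
    unfold dt
    linear_combination (v.2 - u.2) * k2 - (w.2 - u.2) * k1
  have k4 : l 1 * dt u v w = 0 := by
    unfold dt
    linear_combination (w.1 - u.1) * k1 - (v.1 - u.1) * k2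
  by_cases h0 : l 0 = 0
  · exact (mul_eq_zero.mp k4).resolve_left fun h => hl ⟨h0, h⟩
  · exact (mul_eq_zero.mp k3).resolve_left h0

end poly

section main

variable {p : ℕ} [Fact p.Prime]

theorem exists_line (u v w : ZMod p × ZMod p) (huv : u ≠ v) (h : dt u v w = 0) :
    ∃ L : Lin p, onL L u ∧ onL L v ∧ onL L w := by
  unfold dt at h
  by_cases hx : v.1 = u.1
  · refine ⟨Sum.inr u.1, rfl, hx, ?_⟩
    rw [hx, sub_self, mul_zero, sub_zero] at h
    rcases mul_eq_zero.mp h with h | h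
    · exact sub_eq_zero.mp h
    · exact absurd (Prod.ext hx.symm (sub_eq_zero.mp h).symm) huv
  · have hx' : v.1 - u.1 ≠ 0 := sub_ne_zero.mpr hx
    refine ⟨Sum.inl ((v.2 - u.2) / (v.1 - u.1), u.2 - (v.2 - u.2) / (v.1 - u.1) * u.1), ?_, ?_,
      ?_⟩
    · simp only [onL]
      ring
    · simp only [onL]
      field_simp
      ring
    · simp only [onL]
      field_simp
      linear_combination -h

/-- the cubics through a set -/
def W3 (Γ : Set (ZMod p × ZMod p)) : Submodule (ZMod p) (Fin 10 → ZMod p) where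
  carrier := {c | ∀ v ∈ Γ, T c v.1 v.2 1 = 0}
  add_mem' := by
    intro a b ha hb v hv
    rw [← eval_P3, P3_add, map_add, eval_P3, eval_P3, ha v hv, hb v hv, add_zero]
  zero_mem' := by
    intro v _
    simp [T]
  smul_mem' := by
    intro a c hc v hv
    rw [← eval_P3, P3_smul, smul_eval, eval_P3, hc v hv, mul_zero]

/-- the conics through a set -/
def W2 (Γ : Set (ZMod p × ZMod p)) : Submodule (ZMod p) (Fin 6 → ZMod p) where
  carrier := {c | ∀ v ∈ Γ, Q2 c v = 0}
  add_mem' := by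
    intro a b ha hb v hv
    rw [← eval_P2, P2_add, map_add, eval_P2, eval_P2, ha v hv, hb v hv, add_zero]
  zero_mem' := by
    intro v _
    simp [Q2]
  smul_mem' := by
    intro a c hc v hv
    rw [← eval_P2, P2_smul, smul_eval, eval_P2, hc v hv, mul_zero]

end main

end Pool.Agent.NH28.UR.Arc

namespace Pool.Agent.NH28.UR.Arc

open Pool.Agent.NH28.UR MvPolynomial Module

theorem arc (hC : S_C2) : S_ARC := by
  intro p _ hp Γ hΓ hL hw3
  classical
  have hp2 : 1 < p := by omega
  have hfin : Finite Γ := Nat.finite_of_card_ne_zero (by omega)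
  let e : Fin 10 ≃ Γ := (Finite.equivFinOfCardEq hΓ).symm
  set w : Fin 10 → ZMod p × ZMod p := fun i => (e i : ZMod p × ZMod p) with hw
  have winj : Function.Injective w := fun i j h => e.injective (Subtype.ext h)
  have wmem : ∀ i, w i ∈ Γ := fun i => (e i).2
  have wsurj : ∀ v ∈ Γ, ∃ i, w i = v := fun v hv => ⟨e.symm ⟨v, hv⟩, by simp [w]⟩
  have hcard : ∀ (Q : ZMod p × ZMod p → Prop) [DecidablePred Q],
      Nat.card {v : ZMod p × ZMod p // v ∈ Γ ∧ Q v} =
      (Finset.univ.filter (fun i => Q (w i))).card := by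
    intro Q _
    rw [← Fintype.card_subtype, ← Nat.card_eq_fintype_card]
    symm
    apply Nat.card_congr
    refine Equiv.ofBijective (fun i => ⟨w i.1, wmem _, i.2⟩) ⟨?_, ?_⟩
    · intro i j h
      have h' := congrArg Subtype.val h
      exact Subtype.ext (winj h')
    · rintro ⟨v, hv, hQ⟩
      obtain ⟨i, rfl⟩ := wsurj v hv
      exact ⟨⟨i, hQ⟩, rfl⟩
  have hdt : ∀ a b c, a ≠ b → a ≠ c → b ≠ c → dt (w a) (w b) (w c) ≠ 0 := by
    intro a b c hab hac hbc h0
    obtain ⟨L, h1, h2, h3⟩ := exists_line (w a) (w b) (w c) (fun h => hab (winj h)) h0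
    have h4 := hL L
    rw [nL, hcard (onL L)] at h4
    have h5 : ({a, b, c} : Finset (Fin 10)) ⊆ Finset.univ.filter (fun i => onL L (w i)) := by
      intro i hi
      rw [Finset.mem_insert, Finset.mem_insert, Finset.mem_singleton] at hi
      rw [Finset.mem_filter]
      refine ⟨Finset.mem_univ _, ?_⟩
      rcases hi with rfl | rfl | rfl
      · exact h1
      · exact h2
      · exact h3
    have h6 := Finset.card_le_card h5
    have h7 : ({a, b, c} : Finset (Fin 10)).card = 3 := Finset.card_eq_three.mpr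
      ⟨a, b, c, hab, hac, hbc, rfl⟩
    omega
  -- two independent cubics
  have hW : 2 ≤ finrank (ZMod p) (W3 Γ) := by
    have h1 : w3 Γ = Nat.card (W3 Γ) := rfl
    rw [h1, Module.natCard_eq_pow_finrank (K := ZMod p), Nat.card_zmod] at hw3
    exact (Nat.pow_le_pow_iff_right hp2).mp hw3
  obtain ⟨cc, hcc⟩ := exists_linearIndependent_of_le_finrank hW
  set c := (cc 0 : Fin 10 → ZMod p) with hc
  set c' := (cc 1 : Fin 10 → ZMod p) with hc'
  have hind0 : ∀ a b : ZMod p, a • c + b • c' = 0 → a = 0 ∧ b = 0 := by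
    intro a b hab
    rw [Fintype.linearIndependent_iff] at hcc
    have h1 := hcc ![a, b] (by
      rw [Fin.sum_univ_two]
      apply Subtype.ext
      exact hab)
    exact ⟨h1 0, h1 1⟩
  have hev : ∀ i, eval ![(w i).1, (w i).2] (P3 c) = 0 := fun i => by
    rw [eval_P3]
    exact (cc 0).2 _ (wmem i)
  have hev' : ∀ i, eval ![(w i).1, (w i).2] (P3 c') = 0 := fun i => by
    rw [eval_P3]
    exact (cc 1).2 _ (wmem i)
  obtain ⟨q, q', hqq, hrel⟩ := exists_rel (P3 c) (P3 c') (P3_deg c) (P3_deg c') w hdt hev hev'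
  have hf0 : P3 c ≠ 0 := fun h => by
    have := hind0 1 0 (by rw [P3_inj h]; simp)
    exact one_ne_zero this.1
  have hf0' : P3 c' ≠ 0 := fun h => by
    have := hind0 0 1 (by rw [P3_inj h]; simp)
    exact one_ne_zero this.2
  have hq0 : P2 q ≠ 0 := fun h => by
    rw [h, zero_mul, zero_add] at hrel
    have h1 := (mul_eq_zero.mp hrel).resolve_right hf0'
    exact hqq ⟨P2_inj h, P2_inj h1⟩
  have hq0' : P2 q' ≠ 0 := fun h => by
    rw [h, zero_mul, add_zero] at hrel
    have h1 := (mul_eq_zero.mp hrel).resolve_right hf0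
    exact hqq ⟨P2_inj h1, P2_inj h⟩
  obtain ⟨f₁, f₂, g, hcop, hg1, hg2⟩ :=
    UniqueFactorizationMonoid.exists_reduced_factors (P3 c) hf0 (P3 c')
  have hg0 : g ≠ 0 := fun h => hf0 (by rw [← hg1, h, zero_mul])
  have hf₁ : f₁ ≠ 0 := fun h => hf0 (by rw [← hg1, h, mul_zero])
  have hf₂ : f₂ ≠ 0 := fun h => hf0' (by rw [← hg2, h, mul_zero])
  have hrel2 : P2 q * f₁ = - P2 q' * f₂ := by
    have h1 : g * (P2 q * f₁ + P2 q' * f₂) = 0 := by
      rw [← hrel, ← hg1, ← hg2]
      ring
    have h2 := (mul_eq_zero.mp h1).resolve_left hg0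
    linear_combination h2
  have hd1 : f₁ ∣ P2 q' := by
    have h1 : f₁ ∣ P2 q' * f₂ := ⟨- P2 q, by linear_combination hrel2⟩
    exact hcop.dvd_of_dvd_mul_right h1
  have hd2 : f₂ ∣ P2 q := by
    have h1 : f₂ ∣ P2 q * f₁ := ⟨- P2 q', by linear_combination hrel2⟩
    exact hcop.symm.dvd_of_dvd_mul_right h1
  have hdeg1 : f₁.totalDegree ≤ 2 := by
    obtain ⟨k, hk⟩ := hd1
    have hk0 : k ≠ 0 := fun h => hq0' (by rw [hk, h, mul_zero])
    have h1 := totalDegree_mul_of_isDomain hf₁ hk0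
    have h2 := P2_deg q'
    rw [← hk] at h1
    omega
  have hdeg2 : f₂.totalDegree ≤ 2 := by
    obtain ⟨k, hk⟩ := hd2
    have hk0 : k ≠ 0 := fun h => hq0 (by rw [hk, h, mul_zero])
    have h1 := totalDegree_mul_of_isDomain hf₂ hk0
    have h2 := P2_deg q
    rw [← hk] at h1
    omega
  have hs1 : g.totalDegree + f₁.totalDegree ≤ 3 := by
    have h1 := totalDegree_mul_of_isDomain hg0 hf₁
    rw [hg1] at h1
    have := P3_deg c
    omega
  have hs2 : g.totalDegree + f₂.totalDegree ≤ 3 := by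
    have h1 := totalDegree_mul_of_isDomain hg0 hf₂
    rw [hg2] at h1
    have := P3_deg c'
    omega
  have hind : ∀ a b : ZMod p, a • f₁ + b • f₂ = 0 → a = 0 ∧ b = 0 := by
    intro a b hab
    apply hind0
    apply P3_inj
    rw [P3_add, P3_smul, P3_smul, ← hg1, ← hg2]
    have h1 : a • (g * f₁) + b • (g * f₂) = g * (a • f₁ + b • f₂) := by
      rw [mul_add, mul_smul_comm, mul_smul_comm]
    rw [h1, hab, mul_zero]
  have hzero : ∀ i, eval ![(w i).1, (w i).2] g ≠ 0 →
      eval ![(w i).1, (w i).2] f₁ = 0 ∧ eval ![(w i).1, (w i).2] f₂ = 0 := by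
    intro i hi
    have h1 := hev i
    have h2 := hev' i
    rw [← hg1, map_mul] at h1
    rw [← hg2, map_mul] at h2
    exact ⟨(mul_eq_zero.mp h1).resolve_left hi, (mul_eq_zero.mp h2).resolve_left hi⟩
  have hN : g.totalDegree = 0 ∨ g.totalDegree = 1 ∨ g.totalDegree = 2 ∨ 3 ≤ g.totalDegree := by
    omega
  rcases hN with hN | hN | hN | hN
  · -- no common factor: `f₁` is a conic through all the points
    obtain ⟨r, hr⟩ := rep2 hdeg1
    refine ⟨r, fun h => hf₁ ?_, ?_⟩
    · rw [← hr, h]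
      simp [P2]
    · rw [nQ, hcard (fun v => Q2 r v = 0), Finset.filter_true_of_mem]
      · rw [Finset.card_univ, Fintype.card_fin]
        norm_num
      · intro i _
        rw [← eval_P2, hr]
        refine (hzero i ?_).1
        intro h2
        rw [totalDegree_eq_zero_iff_eq_C] at hN
        rw [hN, eval_C] at h2
        rw [h2, map_zero] at hN
        exact hg0 hN
  · -- a common line
    exfalso
    set S := Finset.univ.filter (fun i => eval ![(w i).1, (w i).2] g ≠ 0) with hS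
    have hS8 : 5 ≤ S.card := by
      have h1 := Finset.card_filter_add_card_filter_not (s := (Finset.univ : Finset (Fin 10)))
        (fun i => eval ![(w i).1, (w i).2] g = 0)
      rw [Finset.card_univ, Fintype.card_fin] at h1
      have h2 : (Finset.univ.filter (fun i => eval ![(w i).1, (w i).2] g = 0)).card ≤ 2 := by
        by_contra hcon
        push Not at hcon
        obtain ⟨a, b, d, ha, hb, hd, hab, had, hbd⟩ := Finset.two_lt_card_iff.mp hcon
        rw [Finset.mem_filter] at ha hb hd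
        exact hdt a b d hab had hbd (dt_zero (by omega) hg0 ha.2 hb.2 hd.2)
      have h3 : S.card = (Finset.univ.filter
          (fun i => ¬ eval ![(w i).1, (w i).2] g = 0)).card := rfl
      omega
    obtain ⟨S5, hS5, hcS5⟩ := Finset.exists_subset_card_eq hS8
    set Δ : Set (ZMod p × ZMod p) :=
      ((S5.image w : Finset (ZMod p × ZMod p)) : Set (ZMod p × ZMod p)) with hΔ
    have hcΔ : Nat.card Δ = 5 := by
      rw [hΔ, Nat.card_coe_set_eq, Set.ncard_coe_finset, Finset.card_image_of_injective _ winj,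
        hcS5]
    have hΔΓ : ∀ v ∈ Δ, v ∈ Γ := by
      intro v hv
      rw [hΔ, Finset.mem_coe, Finset.mem_image] at hv
      obtain ⟨i, _, rfl⟩ := hv
      exact wmem i
    have h1 : w2 Δ = p := by
      refine ((hC p hp Δ).2.2.1 hcΔ).2.2 ?_
      intro L
      have h2 := hL L
      have h3 : nL L Δ ≤ nL L Γ := by
        unfold nL
        exact Nat.card_le_card_of_injective (fun v => ⟨v.1, hΔΓ _ v.2.1, v.2.2⟩)
          (fun a b h => Subtype.ext (congrArg (fun x => x.1) h))
      omega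
    have h2 : finrank (ZMod p) (W2 Δ) = 1 := by
      have h3 : w2 Δ = Nat.card (W2 Δ) := rfl
      rw [h3, Module.natCard_eq_pow_finrank (K := ZMod p), Nat.card_zmod] at h1
      exact Nat.pow_right_injective hp2 (by simpa using h1)
    obtain ⟨r, hr⟩ := rep2 hdeg1
    obtain ⟨r', hr'⟩ := rep2 hdeg2
    have hmem : ∀ v ∈ Δ, Q2 r v = 0 ∧ Q2 r' v = 0 := by
      intro v hv
      rw [hΔ, Finset.mem_coe, Finset.mem_image] at hv
      obtain ⟨i, hi, rfl⟩ := hv
      have h3 := hS5 hi
      rw [hS, Finset.mem_filter] at h3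
      rw [← eval_P2, ← eval_P2, hr, hr']
      exact hzero i h3.2
    have hr0 : (⟨r, fun v hv => (hmem v hv).1⟩ : W2 Δ) ≠ 0 := by
      intro h3
      have h4 : r = 0 := Subtype.ext_iff.mp h3
      apply hf₁
      rw [← hr, h4]
      simp [P2]
    obtain ⟨a, ha⟩ := (finrank_eq_one_iff_of_nonzero' _ hr0).mp h2
      (⟨r', fun v hv => (hmem v hv).2⟩ : W2 Δ)
    have ha' : a • r = r' := Subtype.ext_iff.mp ha
    have h5 := hind a (-1) (by rw [← hr, ← hr', ← ha', P2_smul]; simp)
    exact neg_ne_zero.mpr one_ne_zero h5.2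
  · -- a common conic
    obtain ⟨r, hr⟩ := rep2 hN.le
    refine ⟨r, fun h => hg0 ?_, ?_⟩
    · rw [← hr, h]
      simp [P2]
    · rw [nQ, hcard (fun v => Q2 r v = 0)]
      by_contra hcon
      push Not at hcon
      have h1 := Finset.card_filter_add_card_filter_not (s := (Finset.univ : Finset (Fin 10)))
        (fun i => Q2 r (w i) = 0)
      rw [Finset.card_univ, Fintype.card_fin] at h1

      have h2 : 1 < (Finset.univ.filter (fun i => ¬ Q2 r (w i) = 0)).card := by omega
      obtain ⟨a, ha, b, hb, hab⟩ := Finset.one_lt_card.mp h2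
      rw [Finset.mem_filter, ← eval_P2, hr] at ha hb
      have h3 := hzero a ha.2
      have h4 := hzero b hb.2
      obtain ⟨x, y, hy, hxy⟩ := dep1 (by omega : f₁.totalDegree ≤ 1) (by omega) hf₁
        (fun h => hab (winj h)) h3.1 h4.1 h3.2 h4.2
      exact hy (hind x y hxy).2
  · exfalso
    have h1 : f₁.totalDegree = 0 := by omega
    have h2 : f₂.totalDegree = 0 := by omega
    rw [totalDegree_eq_zero_iff_eq_C] at h1 h2
    set a := f₁.coeff 0 with ha
    set b := f₂.coeff 0 with hb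
    have h3 := hind b (-a) (by
      rw [h1, h2, smul_eq_C_mul, smul_eq_C_mul, ← C_mul, ← C_mul, ← C_add]
      have : b * a + -a * b = 0 := by ring
      rw [this, C_0])
    apply hf₁
    rw [h1, neg_eq_zero.mp h3.2, C_0]

end Pool.Agent.NH28.UR.Arc
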