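import Pool.Agent.NH28.UR.Def

set_option autoImplicit false

/-!
# Project UR: closure properties of `RatF`
-/

namespace Pool.Agent.NH28.UR

open Finset

variable {F G : ∀ p : ℕ, [Fact p.Prime] → ℚ}

theorem RatF.congr (hF : RatF F) (h : ∀ (p : ℕ) [Fact p.Prime], 5 ≤ p → G p = F p) : RatF G := by
  obtain ⟨A, B, hAB⟩ := hF
  refine ⟨A, B, fun p _ hp => ⟨(hAB p hp).1, ?_⟩⟩
  rw [h p hp, (hAB p hp).2]

theorem RatF.poly (P : Polynomial ℚ) : RatF (fun p => P.eval (p : ℚ)) :=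
  ⟨P, 1, fun p _ _ => ⟨by simp, by simp⟩⟩

theorem RatF.const (q : ℚ) : RatF (fun _ => q) :=
  ⟨Polynomial.C q, 1, fun p _ _ => ⟨by simp, by simp⟩⟩

theorem RatF.id : RatF (fun p => Nat.cast p) :=
  ⟨Polynomial.X, 1, fun p _ _ => ⟨by simp, by simp⟩⟩

theorem RatF.add (hF : RatF F) (hG : RatF G) : RatF (fun p => F p + G p) := by
  obtain ⟨A, B, hAB⟩ := hF
  obtain ⟨A', B', hAB'⟩ := hG
  refine ⟨A * B' + A' * B, B * B', fun p _ hp => ?_⟩
  obtain ⟨h1, h2⟩ := hAB p hp
  obtain ⟨h3, h4⟩ := hAB' p hp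
  refine ⟨by simp [h1, h3], ?_⟩
  beta_reduce
  rw [h2, h4, Polynomial.eval_add, Polynomial.eval_mul, Polynomial.eval_mul, Polynomial.eval_mul]
  field_simp

theorem RatF.mul (hF : RatF F) (hG : RatF G) : RatF (fun p => F p * G p) := by
  obtain ⟨A, B, hAB⟩ := hF
  obtain ⟨A', B', hAB'⟩ := hG
  refine ⟨A * A', B * B', fun p _ hp => ?_⟩
  obtain ⟨h1, h2⟩ := hAB p hp
  obtain ⟨h3, h4⟩ := hAB' p hp
  refine ⟨by simp [h1, h3], ?_⟩
  beta_reduce
  rw [h2, h4, Polynomial.eval_mul, Polynomial.eval_mul]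
  field_simp

theorem RatF.neg (hF : RatF F) : RatF (fun p => - F p) :=
  ((RatF.const (-1)).mul hF).congr fun p _ _ => by ring

theorem RatF.sub (hF : RatF F) (hG : RatF G) : RatF (fun p => F p - G p) :=
  (hF.add hG.neg).congr fun p _ _ => by ring

theorem RatF.pow (hF : RatF F) (n : ℕ) : RatF (fun p => F p ^ n) := by
  induction n with
  | zero => exact (RatF.const 1).congr fun p _ _ => by simp
  | succ n ih => exact (ih.mul hF).congr fun p _ _ => by rw [pow_succ]

/-- inverse of a `RatF` function without zeros at the primes `≥ 5` -/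
theorem RatF.inv (hF : RatF F) (h : ∀ (p : ℕ) [Fact p.Prime], 5 ≤ p → F p ≠ 0) :
    RatF (fun p => (F p)⁻¹) := by
  obtain ⟨A, B, hAB⟩ := hF
  refine ⟨B, A, fun p _ hp => ?_⟩
  obtain ⟨h1, h2⟩ := hAB p hp
  have h3 := h p hp
  have h4 : A.eval (p : ℚ) ≠ 0 := by
    intro h0
    rw [h2, h0, zero_div] at h3
    exact h3 rfl
  refine ⟨h4, ?_⟩
  beta_reduce
  rw [h2, inv_div]

theorem RatF.div (hF : RatF F) (hG : RatF G) (h : ∀ (p : ℕ) [Fact p.Prime], 5 ≤ p → G p ≠ 0) :
    RatF (fun p => F p / G p) :=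
  (hF.mul (hG.inv h)).congr fun p _ _ => by rw [div_eq_mul_inv]

theorem RatF.sum {ι : Type*} (s : Finset ι) (f : ι → ∀ p : ℕ, [Fact p.Prime] → ℚ)
    (h : ∀ i ∈ s, RatF (f i)) : RatF (fun p => ∑ i ∈ s, f i p) := by
  classical
  induction s using Finset.induction_on with
  | empty => exact (RatF.const 0).congr fun p _ _ => by simp
  | insert a s ha ih =>
    refine ((h a (Finset.mem_insert_self a s)).add
      (ih fun i hi => h i (Finset.mem_insert_of_mem hi))).congr fun p _ _ => ?_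
    rw [Finset.sum_insert ha]

theorem RatF.prod {ι : Type*} (s : Finset ι) (f : ι → ∀ p : ℕ, [Fact p.Prime] → ℚ)
    (h : ∀ i ∈ s, RatF (f i)) : RatF (fun p => ∏ i ∈ s, f i p) := by
  classical
  induction s using Finset.induction_on with
  | empty => exact (RatF.const 1).congr fun p _ _ => by simp
  | insert a s ha ih =>
    refine ((h a (Finset.mem_insert_self a s)).mul
      (ih fun i hi => h i (Finset.mem_insert_of_mem hi))).congr fun p _ _ => ?_
    rw [Finset.prod_insert ha]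

theorem RatF.constMul (q : ℚ) (hF : RatF F) : RatF (fun p => q * F p) :=
  (RatF.const q).mul hF

/-- a factor that is nonzero at all primes may be cancelled -/
theorem RatF.cancel (hG : RatF G) (h : ∀ (p : ℕ) [Fact p.Prime], 5 ≤ p → G p ≠ 0)
    (hFG : RatF (fun p => G p * F p)) : RatF F :=
  (hFG.div hG h).congr fun p _ hp => by
    have := h p hp
    field_simp

/-- a fixed polynomial evaluated at a `RatF` function -/
theorem RatF.evalPoly (Φ : Polynomial ℚ) (hF : RatF F) : RatF (fun p => Φ.eval (F p)) := by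
  refine (RatF.sum (range (Φ.natDegree + 1)) (fun i p _ => Φ.coeff i * F p ^ i)
    (fun i _ => RatF.constMul (Φ.coeff i) (hF.pow i))).congr fun p _ _ => ?_
  rw [Polynomial.eval_eq_sum_range]

theorem RatF.ff (hF : RatF F) (n : ℕ) : RatF (fun p => UR.ff (F p) n) := by
  refine RatF.prod (range n) (fun i p _ => F p - i) (fun i _ => ?_)
  exact hF.sub (RatF.const i)

theorem RatF.pPow (n : ℕ) : RatF (fun p => (p : ℚ) ^ n) := RatF.id.pow n

theorem primePow_sub_ne (p : ℕ) [Fact p.Prime] {a b : ℕ} (h : a ≠ b) :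
    (p : ℚ) ^ a - (p : ℚ) ^ b ≠ 0 := by
  have hp : 1 < p := (Fact.out : p.Prime).one_lt
  rw [sub_ne_zero]
  intro h'
  exact h (Nat.pow_right_injective hp (by exact_mod_cast h'))

theorem RatF.gauss (j b : ℕ) : RatF (fun p => UR.gauss p j b) := by
  refine RatF.prod (range b)
    (fun i p _ => ((p : ℚ) ^ j - (p : ℚ) ^ i) / ((p : ℚ) ^ b - (p : ℚ) ^ i)) (fun i hi => ?_)
  refine RatF.div ((RatF.pPow j).sub (RatF.pPow i)) ((RatF.pPow b).sub (RatF.pPow i)) ?_
  intro p _ _
  exact primePow_sub_ne p (by rw [Finset.mem_range] at hi; omega)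

end Pool.Agent.NH28.UR
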