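import Pool.Agent.NH28.UR.Stm
import Pool.Agent.NH28.UR.Rat

set_option autoImplicit false

/-!
# Project UR: assembly of part 2
-/

namespace Pool.Agent.NH28.UR.Part2

open Finset Pool.Agent.NH28.UR

/-- the four conditions: the cubic form contains the line `z = 0` -/
abbrev Con {p : ℕ} (c : Fin 10 → ZMod p) : Prop := c 0 = 0 ∧ c 1 = 0 ∧ c 3 = 0 ∧ c 6 = 0

theorem card3 {α : Type} [Finite α] (A B C D : α → Prop) (h : ∀ x, A x ↔ (B x ∨ C x) ∨ D x)
    (h1 : ∀ x, B x → ¬ C x) (h2 : ∀ x, B x → ¬ D x) (h3 : ∀ x, C x → ¬ D x) :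
    Nat.card {x // A x} = Nat.card {x // B x} + Nat.card {x // C x} + Nat.card {x // D x} := by
  classical
  have := Fintype.ofFinite α
  simp only [Nat.card_eq_fintype_card, Fintype.card_subtype]
  have e : (univ.filter fun x => A x) =
      ((univ.filter fun x => B x) ∪ (univ.filter fun x => C x)) ∪ (univ.filter fun x => D x) := by
    ext x
    simp only [Finset.mem_union, Finset.mem_filter, Finset.mem_univ, true_and]
    exact h x
  rw [e, Finset.card_union_of_disjoint, Finset.card_union_of_disjoint]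
  · rw [Finset.disjoint_left]
    intro x hx hy
    simp only [Finset.mem_filter, Finset.mem_univ, true_and] at hx hy
    exact h1 x hx hy
  · rw [Finset.disjoint_left]
    intro x hx hy
    simp only [Finset.mem_union, Finset.mem_filter, Finset.mem_univ, true_and] at hx hy
    rcases hx with hx | hx
    · exact h2 x hx hy
    · exact h3 x hx hy

theorem act_split (i p : ℕ) [Fact p.Prime] : act i p =
    Nat.card {P : Fin 10 → ZMod p × ZMod p //
      Function.Injective P ∧ (∃ L, 6 ≤ nI L P) ∧ w3 (Set.range P) = p ^ i} +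
    Nat.card {P : Fin 10 → ZMod p × ZMod p //
      Function.Injective P ∧ (∀ L, nI L P ≤ 5) ∧ (∃ L, nI L P = 5) ∧
      w3 (Set.range P) = p ^ i} +
    Nat.card {P : Fin 10 → ZMod p × ZMod p //
      Function.Injective P ∧ (∀ L, nI L P ≤ 4) ∧ w3 (Set.range P) = p ^ i} := by
  have hw : ∀ P : Fin 10 → ZMod p × ZMod p,
      Nat.card {c : Fin 10 → ZMod p // ∀ k, T c (P k).1 (P k).2 1 = 0} = w3 (Set.range P) := by
    intro P
    unfold w3
    refine Nat.card_congr (Equiv.subtypeEquivRight fun c => ?_)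
    simp
  unfold act
  refine card3 _ _ _ _ (fun P => ?_) (fun P h2 h3 => ?_) (fun P h2 h3 => ?_) (fun P h2 h3 => ?_)
  · rw [hw P]
    constructor
    · rintro ⟨h1, h2⟩
      by_cases h6 : ∃ L, 6 ≤ nI L P
      · exact Or.inl (Or.inl ⟨h1, h6, h2⟩)
      · have h6' : ∀ L, nI L P ≤ 5 := fun L => by
          by_contra h
          exact h6 ⟨L, by omega⟩
        by_cases h5 : ∃ L, nI L P = 5
        · exact Or.inl (Or.inr ⟨h1, h6', h5, h2⟩)
        · refine Or.inr ⟨h1, fun L => ?_, h2⟩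
          have := h6' L
          by_contra h
          exact h5 ⟨L, by omega⟩
    · rintro ((⟨h1, _, h2⟩ | ⟨h1, _, _, h2⟩) | ⟨h1, _, h2⟩) <;> exact ⟨h1, h2⟩
  · obtain ⟨_, ⟨L, hL⟩, _⟩ := h2
    have := h3.2.1 L
    omega
  · obtain ⟨_, ⟨L, hL⟩, _⟩ := h2
    have := h3.2.1 L
    omega
  · obtain ⟨_, _, ⟨L, hL⟩, _⟩ := h2
    have := h3.2.1 L
    omega

theorem Y_rat (hDC : S_DC) (h6 : S_CNT6) (h5 : S_CNT5) (h4 : S_CNT4)
    (hX : RatF (fun p => Nat.cast (Xct p))) : RatF (fun p => Yct p) := by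
  have h2 : ∀ i, 2 ≤ i → RatF (fun p => Nat.cast (act i p)) := by
    intro i hi
    refine RatF.congr (((h6 i).add (h5 i hi)).add (h4 i hi)) fun p hp _ => ?_
    rw [act_split]
    push_cast
    rfl
  have h0 : RatF (fun p => Nat.cast (act 0 p)) :=
    RatF.congr hX fun p hp _ => by rw [(hDC p).2.2]
  have h1 : RatF (fun p => Nat.cast (act 1 p)) := by
    have e1 : RatF (fun p => ff ((p : ℚ) ^ 2) 10) := RatF.ff (RatF.pPow 2) 10
    have e2 : RatF (fun p => ∑ i ∈ range 9, (act (i + 2) p : ℚ)) :=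
      RatF.sum _ (fun i p _ => (act (i + 2) p : ℚ)) fun i _ => h2 (i + 2) (by omega)
    refine RatF.congr ((e1.sub h0).sub e2) fun p hp _ => ?_
    have := (hDC p).2.1
    rw [Finset.sum_range_succ', Finset.sum_range_succ'] at this
    beta_reduce
    rw [this]
    ring
  have hall : ∀ i, RatF (fun p => Nat.cast (act i p)) := by
    intro i
    rcases i with _ | _ | i
    · exact h0
    · exact h1
    · exact h2 (i + 2) (by omega)
  refine RatF.congr (RatF.sum (range 11) (fun i p _ => (act i p : ℚ) * (p : ℚ) ^ i)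
    fun i _ => (hall i).mul (RatF.pPow i)) fun p hp _ => ?_
  rw [(hDC p).1]

/-- sum over the cubics containing the line at infinity of a polynomial of `Naff` with rational
coefficients depending on `p` -/
theorem con_gen (hCon : S_CON) (d : ℕ) (a : ℕ → ∀ p : ℕ, [Fact p.Prime] → ℚ)
    (ha : ∀ k, RatF (a k)) (f : ∀ p : ℕ, [Fact p.Prime] → (Fin 10 → ZMod p) → ℚ)
    (hf : ∀ (p : ℕ) [Fact p.Prime], 5 ≤ p → ∀ c : Fin 10 → ZMod p, Con c →
      f p c = ∑ k ∈ range d, a k p * (Naff c : ℚ) ^ k) :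
    RatF (fun p => ∑ c : Fin 10 → ZMod p, if Con c then f p c else 0) := by
  refine RatF.congr (RatF.sum (range d) (fun k p _ => a k p * ∑ c : Fin 10 → ZMod p,
    if Con c then (Naff c : ℚ) ^ k else 0) fun k _ => (ha k).mul (hCon k)) fun p hp h5 => ?_
  simp_rw [Finset.mul_sum]
  rw [Finset.sum_comm]
  refine Finset.sum_congr rfl fun c _ => ?_
  by_cases hc : Con c
  · rw [if_pos hc, hf p h5 c hc]
    refine Finset.sum_congr rfl fun k _ => ?_
    rw [if_pos hc]
  · rw [if_neg hc]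
    symm
    refine Finset.sum_eq_zero fun k _ => ?_
    rw [if_neg hc, mul_zero]

theorem con_naff (hCon : S_CON) (Φ : Polynomial ℚ) :
    RatF (fun p => ∑ c : Fin 10 → ZMod p, if Con c then Φ.eval (Naff c : ℚ) else 0) := by
  refine con_gen hCon (Φ.natDegree + 1) (fun k _ _ => Φ.coeff k) (fun k => RatF.const _)
    (fun p _ c => Φ.eval (Naff c : ℚ)) fun p _ _ c _ => ?_
  rw [Polynomial.eval_eq_sum_range]

theorem zP_con {p : ℕ} [Fact p.Prime] (c : Fin 10 → ZMod p) (hc : Con c) :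
    zP c = (p : ℚ) + 1 := by
  unfold zP
  have h1 : Nat.card {v : ZMod p × ZMod p // T c v.1 v.2 0 = 0} = p * p := by
    have : Nat.card {v : ZMod p × ZMod p // T c v.1 v.2 0 = 0} = Nat.card (ZMod p × ZMod p) := by
      refine Nat.card_congr (Equiv.subtypeUnivEquiv fun v => ?_)
      obtain ⟨h0, h1, h3, h6⟩ := hc
      unfold T
      rw [h0, h1, h3, h6]
      ring
    rw [this, Nat.card_prod, Nat.card_zmod]
  rw [h1]
  have hp : (1 : ℚ) < p := by exact_mod_cast (Fact.out : p.Prime).one_lt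
  have : (p : ℚ) - 1 ≠ 0 := by linarith
  push_cast
  field_simp
  ring

theorem dbl_con {p : ℕ} [Fact p.Prime] (c : Fin 10 → ZMod p) (hc : Con c) :
    Nat.card {v : ZMod p × ZMod p // Dbl c v} = 0 := by
  rw [Nat.card_eq_zero]
  left
  constructor
  rintro ⟨v, _, _, _, h⟩
  obtain ⟨h0, h1, h3, h6⟩ := hc
  apply h
  rw [h0, h1, h3, h6]
  simp

theorem con_nP (hCon : S_CON) (hAff : S_AFF) (Φ : Polynomial ℚ) :
    RatF (fun p => ∑ c : Fin 10 → ZMod p, if Con c then Φ.eval (nP c) else 0) := by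
  refine con_gen hCon (Φ.natDegree + 1)
    (fun k p _ => (Polynomial.hasseDeriv k Φ).eval ((p : ℚ) + 1))
    (fun k => RatF.evalPoly _ (RatF.id.add (RatF.const 1)))
    (fun p _ c => Φ.eval (nP c)) fun p _ h5 c hc => ?_
  have h1 : nP c = (Naff c : ℚ) + ((p : ℚ) + 1) := by
    rw [hAff p h5 c, zP_con c hc]
    ring
  rw [h1, ← Polynomial.taylor_eval, Polynomial.eval_eq_sum_range, Polynomial.natDegree_taylor]
  refine Finset.sum_congr rfl fun k _ => ?_
  rw [Polynomial.taylor_coeff]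

/-- `Σ_E Φ(p+1+s_E)` -/
noncomputable def Om (Φ : Polynomial ℚ) (p : ℕ) [Fact p.Prime] : ℚ :=
  ∑ E : Fin 4 → ZMod p, if E 0 ≠ 0 then Φ.eval ((p : ℚ) + 1 + sE E) else 0

theorem Om_add (Φ Ψ : Polynomial ℚ) (p : ℕ) [Fact p.Prime] :
    Om (Φ + Ψ) p = Om Φ p + Om Ψ p := by
  unfold Om
  rw [← Finset.sum_add_distrib]
  refine Finset.sum_congr rfl fun E _ => ?_
  split_ifs
  · rw [Polynomial.eval_add]
  · ring

theorem Om_C (q : ℚ) (Φ : Polynomial ℚ) (p : ℕ) [Fact p.Prime] :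
    Om (Polynomial.C q * Φ) p = q * Om Φ p := by
  unfold Om
  rw [Finset.mul_sum]
  refine Finset.sum_congr rfl fun E _ => ?_
  split_ifs
  · rw [Polynomial.eval_mul, Polynomial.eval_C]
  · ring

/-- smooth base point with tangent line `z = 0` -/
theorem lam (hQ : S_SUMQ) (hC : S_SUMC) (h0 : S_SUM0) (Φ : Polynomial ℚ) :
    RatF (fun p => (∑ c : Fin 10 → ZMod p,
      if c 0 = 0 ∧ c 1 = 0 ∧ c 2 ≠ 0 then Φ.eval (nP c) else 0) -
      ((p : ℚ) - 1) * (p : ℚ) ^ 2 * Om (Polynomial.X * Φ) p) := by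
  refine RatF.congr ((hQ Φ).add (h0 Φ)) fun p hp h5 => ?_
  beta_reduce
  have h1 : (∑ c : Fin 10 → ZMod p, if c 0 = 0 ∧ c 1 = 0 ∧ c 2 ≠ 0 then Φ.eval (nP c) else 0) =
      (∑ c : Fin 10 → ZMod p,
        if c 0 = 0 ∧ c 1 = 0 ∧ c 2 ≠ 0 ∧ c 3 ≠ 0 then Φ.eval (nP c) else 0) +
      (∑ c : Fin 10 → ZMod p,
        if c 0 = 0 ∧ c 1 = 0 ∧ c 2 ≠ 0 ∧ c 3 = 0 ∧ c 6 ≠ 0 then Φ.eval (nP c) else 0) +
      (∑ c : Fin 10 → ZMod p,
        if c 0 = 0 ∧ c 1 = 0 ∧ c 2 ≠ 0 ∧ c 3 = 0 ∧ c 6 = 0 then Φ.eval (nP c) else 0) := by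
    rw [← Finset.sum_add_distrib, ← Finset.sum_add_distrib]
    refine Finset.sum_congr rfl fun c _ => ?_
    by_cases a0 : c 0 = 0 <;> by_cases a1 : c 1 = 0 <;> by_cases a2 : c 2 = 0 <;>
      by_cases a3 : c 3 = 0 <;> by_cases a6 : c 6 = 0 <;> simp [a0, a1, a2, a3, a6]
  have h2 := hC p h5 (fun x => Φ.eval x)
  rw [h1, h2]
  have h3 : Om (Polynomial.X * Φ) p = (∑ E : Fin 4 → ZMod p,
      if E 0 ≠ 0 then ((p : ℚ) + sE E) * Φ.eval ((p : ℚ) + 1 + sE E) else 0) +
      ∑ E : Fin 4 → ZMod p, if E 0 ≠ 0 then Φ.eval ((p : ℚ) + 1 + sE E) else 0 := by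
    unfold Om
    rw [← Finset.sum_add_distrib]
    refine Finset.sum_congr rfl fun E _ => ?_
    split_ifs
    · rw [Polynomial.eval_mul, Polynomial.eval_X]
      ring
    · ring
  rw [h3]
  ring

/-- sum over the cubics through the base point -/
theorem uu (hQ : S_SUMQ) (hC : S_SUMC) (h0 : S_SUM0) (hS : S_SING) (h5' : S_SYM5)
    (Φ : Polynomial ℚ) :
    RatF (fun p => (∑ c : Fin 10 → ZMod p, if c 0 = 0 then Φ.eval (nP c) else 0) -
      ((p : ℚ) ^ 2 - 1) * (p : ℚ) ^ 2 * Om (Polynomial.X * Φ) p) := by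
  refine RatF.congr (((RatF.id.add (RatF.const 1)).mul (lam hQ hC h0 Φ)).add (hS Φ).1)
    fun p hp h5 => ?_
  beta_reduce
  have h1 : (∑ c : Fin 10 → ZMod p, if c 0 = 0 then Φ.eval (nP c) else 0) =
      (∑ c : Fin 10 → ZMod p,
        if c 0 = 0 ∧ ¬ (c 1 = 0 ∧ c 2 = 0) then Φ.eval (nP c) else 0) +
      (∑ c : Fin 10 → ZMod p,
        if c 0 = 0 ∧ c 1 = 0 ∧ c 2 = 0 then Φ.eval (nP c) else 0) := by
    rw [← Finset.sum_add_distrib]
    refine Finset.sum_congr rfl fun c _ => ?_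
    by_cases a0 : c 0 = 0 <;> by_cases a1 : c 1 = 0 <;> by_cases a2 : c 2 = 0 <;>
      simp [a0, a1, a2]
  have h2 := h5' p h5 (fun x => Φ.eval x)
  rw [h1, h2]
  ring

/-- sum over the cubics with a double intersection with `z = 0` at the base point -/
theorem ww (hQ : S_SUMQ) (hS : S_SING) (Φ : Polynomial ℚ) :
    RatF (fun p => (∑ c : Fin 10 → ZMod p,
      if c 0 = 0 ∧ c 1 = 0 ∧ c 3 ≠ 0 then Φ.eval (nP c) else 0) -
      ((p : ℚ) - 1) * (p : ℚ) ^ 2 * Om ((Polynomial.X - 1) * Φ) p) := by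
  refine RatF.congr ((hQ Φ).add (hS Φ).2) fun p hp h5 => ?_
  beta_reduce
  have h1 : (∑ c : Fin 10 → ZMod p,
      if c 0 = 0 ∧ c 1 = 0 ∧ c 3 ≠ 0 then Φ.eval (nP c) else 0) =
      (∑ c : Fin 10 → ZMod p,
        if c 0 = 0 ∧ c 1 = 0 ∧ c 2 ≠ 0 ∧ c 3 ≠ 0 then Φ.eval (nP c) else 0) +
      (∑ c : Fin 10 → ZMod p,
        if c 0 = 0 ∧ c 1 = 0 ∧ c 2 = 0 ∧ c 3 ≠ 0 then Φ.eval (nP c) else 0) := by
    rw [← Finset.sum_add_distrib]
    refine Finset.sum_congr rfl fun c _ => ?_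
    by_cases a0 : c 0 = 0 <;> by_cases a1 : c 1 = 0 <;> by_cases a2 : c 2 = 0 <;>
      by_cases a3 : c 3 = 0 <;> simp [a0, a1, a2, a3]
  have h3 : Om ((Polynomial.X - 1) * Φ) p = ∑ E : Fin 4 → ZMod p,
      if E 0 ≠ 0 then ((p : ℚ) + sE E) * Φ.eval ((p : ℚ) + 1 + sE E) else 0 := by
    unfold Om
    refine Finset.sum_congr rfl fun E _ => ?_
    split_ifs
    · rw [Polynomial.eval_mul, Polynomial.eval_sub, Polynomial.eval_X, Polynomial.eval_one]
      ring
    · ring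
  rw [h1, h3]
  ring

/-- `(X - a)_n` as a polynomial -/
noncomputable def ffP (a n : ℕ) : Polynomial ℚ :=
  ∏ i ∈ range n, (Polynomial.X - Polynomial.C ((a : ℚ) + i))

theorem ffP_eval (a n : ℕ) (x : ℚ) : (ffP a n).eval x = ff (x - a) n := by
  unfold ffP ff
  rw [Polynomial.eval_prod]
  refine Finset.prod_congr rfl fun i _ => ?_
  simp only [Polynomial.eval_sub, Polynomial.eval_X, Polynomial.eval_C]
  ring

/-- the expansion of `(n - z)_10` for `z ∈ {0,1,2,3}` -/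
theorem ff_expand (n z : ℚ) (hz : z = 0 ∨ z = 1 ∨ z = 2 ∨ z = 3) :
    ff (n - z) 10 = ff n 10 - 10 * z * ff (n - 1) 9 + 45 * (z * (z - 1)) * ff (n - 2) 8 -
      120 * ff z 3 * ff (n - 3) 7 := by
  rcases hz with rfl | rfl | rfl | rfl <;>
  · simp only [ff, Finset.prod_range_succ, Finset.prod_range_zero]
    push_cast
    ring

theorem ff_two (z : ℚ) : ff z 2 = z * (z - 1) := by
  simp [ff, Finset.prod_range_succ]

theorem main_id (hBin : S_BIN) (hAff : S_AFF) (h1 : S_SYM1) (h2 : S_SYM2) (h3 : S_SYM3)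
    (h4 : S_SYM4) (p : ℕ) [Fact p.Prime] (h5 : 5 ≤ p) :
    Yct p = (∑ c : Fin 10 → ZMod p, if Con c then (ffP 0 10).eval (Naff c : ℚ) else 0) -
      (∑ c : Fin 10 → ZMod p, if Con c then
        (ffP 0 10 - 10 * Polynomial.X * 0).eval (nP c) else 0) +
      10 * ((p : ℚ) + 1) * (∑ c : Fin 10 → ZMod p, if Con c then (ffP 1 9).eval (nP c) else 0) -
      ((p : ℚ) + 1) * p * (∑ c : Fin 10 → ZMod p, if Con c then
        (45 * ffP 2 8 - 120 * ffP 3 7).eval (nP c) else 0) +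
      (((p : ℚ) ^ 2 + p + 1) - 10 * ((p : ℚ) + 1)) *
        (∑ c : Fin 10 → ZMod p, if c 0 = 0 then (ffP 1 9).eval (nP c) else 0) +
      (∑ c : Fin 10 → ZMod p, if c 0 = 0 then
        ((Polynomial.X - 1) * (45 * ffP 2 8 - 120 * ffP 3 7)).eval (nP c) else 0) +
      240 * ((p : ℚ) + 1) * (∑ c : Fin 10 → ZMod p,
        if c 0 = 0 ∧ c 1 = 0 ∧ c 3 ≠ 0 then (ffP 3 7).eval (nP c) else 0) := by
  have hp1 : (1 : ℚ) < p := by exact_mod_cast (Fact.out : p.Prime).one_lt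
  have hp1' : (p : ℚ) - 1 ≠ 0 := by linarith
  have hp2 : (p : ℚ) ^ 2 + p + 1 ≠ 0 := by positivity
  -- termwise
  have key : ∀ c : Fin 10 → ZMod p, ff (Naff c) 10 =
      (if Con c then (ffP 0 10).eval (Naff c : ℚ) else 0) -
      (if Con c then (ffP 0 10 - 10 * Polynomial.X * 0).eval (nP c) else 0) +
      10 * ((p : ℚ) + 1) * (if Con c then (ffP 1 9).eval (nP c) else 0) -
      ((p : ℚ) + 1) * p * (if Con c then (45 * ffP 2 8 - 120 * ffP 3 7).eval (nP c) else 0) +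
      (nP c * (ffP 1 9).eval (nP c) - 10 * (zP c * (ffP 1 9).eval (nP c)) +
        zP c * (zP c - 1) * (45 * ffP 2 8 - 120 * ffP 3 7).eval (nP c) +
        240 / ((p : ℚ) - 1) * ((Nat.card {v : ZMod p × ZMod p // Dbl c v} : ℚ) *
          (ffP 3 7).eval (nP c))) := by
    intro c
    have e10 : ∀ x : ℚ, (ffP 0 10).eval x = x * (ffP 1 9).eval x := by
      intro x
      rw [ffP_eval, ffP_eval]
      simp only [ff, Finset.prod_range_succ, Finset.prod_range_zero]
      push_cast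
      ring
    by_cases hc : Con c
    · simp only [if_pos hc]
      rw [zP_con c hc, dbl_con c hc, ffP_eval]
      have : (ffP 0 10 - 10 * Polynomial.X * 0).eval (nP c) =
          nP c * (ffP 1 9).eval (nP c) := by
        rw [mul_zero, sub_zero, e10]
      rw [this]
      push_cast
      rw [sub_zero]
      ring
    · simp only [if_neg hc]
      obtain ⟨hz, hd⟩ := hBin p h5 c hc
      rw [hAff p h5 c, ff_expand (nP c) (zP c) hz]
      have e3 : ff (zP c) 3 = zP c * (zP c - 1) -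
          2 / ((p : ℚ) - 1) * (Nat.card {v : ZMod p × ZMod p // Dbl c v} : ℚ) := by
        rw [ff_two] at hd
        field_simp
        linarith
      rw [e3]
      have e4 : ff (nP c) 10 = nP c * (ffP 1 9).eval (nP c) := by
        rw [← e10, ffP_eval]
        push_cast
        rw [sub_zero]
      rw [e4]
      have e5 : (45 * ffP 2 8 - 120 * ffP 3 7).eval (nP c) =
          45 * ff (nP c - 2) 8 - 120 * ff (nP c - 3) 7 := by
        have a1 : (45 : Polynomial ℚ) = Polynomial.C 45 := rfl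
        have a2 : (120 : Polynomial ℚ) = Polynomial.C 120 := rfl
        rw [a1, a2, Polynomial.eval_sub, Polynomial.eval_mul, Polynomial.eval_mul,
          Polynomial.eval_C, Polynomial.eval_C, ffP_eval, ffP_eval]
        norm_num
      have e6 : (ffP 1 9).eval (nP c) = ff (nP c - 1) 9 := by
        rw [ffP_eval]
        norm_num
      have e7 : (ffP 3 7).eval (nP c) = ff (nP c - 3) 7 := by
        rw [ffP_eval]
        norm_num
      rw [e5, e6, e7]
      field_simp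
      ring
  have s1 := h1 p h5 (fun x => (ffP 1 9).eval x)
  have s2 := h2 p h5 (fun x => (ffP 1 9).eval x)
  have s3 := h3 p h5 (fun x => (45 * ffP 2 8 - 120 * ffP 3 7).eval x)
  have s3' := h1 p h5 (fun x => (x - 1) * (45 * ffP 2 8 - 120 * ffP 3 7).eval x)
  have s4 := h4 p h5 (fun x => (ffP 3 7).eval x)
  have s3'' : ∑ c : Fin 10 → ZMod p, zP c * (zP c - 1) *
      (45 * ffP 2 8 - 120 * ffP 3 7).eval (nP c) =
      ∑ c : Fin 10 → ZMod p, if c 0 = 0 then
        ((Polynomial.X - 1) * (45 * ffP 2 8 - 120 * ffP 3 7)).eval (nP c) else 0 := by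
    have t1 : ((p : ℚ) ^ 2 + p + 1) * ∑ c : Fin 10 → ZMod p, zP c * (zP c - 1) *
      (45 * ffP 2 8 - 120 * ffP 3 7).eval (nP c) = ((p : ℚ) ^ 2 + p + 1) *
      ∑ c : Fin 10 → ZMod p, if c 0 = 0 then
        ((Polynomial.X - 1) * (45 * ffP 2 8 - 120 * ffP 3 7)).eval (nP c) else 0 := by
      rw [s3]
      have t2 : ∑ c : Fin 10 → ZMod p, nP c * (nP c - 1) *
          (45 * ffP 2 8 - 120 * ffP 3 7).eval (nP c) = ∑ c : Fin 10 → ZMod p,
          nP c * ((nP c - 1) * (45 * ffP 2 8 - 120 * ffP 3 7).eval (nP c)) :=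
        Finset.sum_congr rfl fun c _ => by ring
      rw [t2, s3']
      congr 1
      refine Finset.sum_congr rfl fun c _ => ?_
      split_ifs
      · rw [Polynomial.eval_mul]
        congr 1
        simp
      · rfl
    exact mul_left_cancel₀ hp2 t1
  unfold Yct
  rw [Finset.sum_congr rfl fun c _ => key c]
  simp only [Finset.sum_add_distrib, Finset.sum_sub_distrib, ← Finset.mul_sum]
  rw [s1, s2, s3'', s4]
  field_simp
  ring

theorem R_rat (hBin : S_BIN) (hAff : S_AFF) (h1 : S_SYM1) (h2 : S_SYM2) (h3 : S_SYM3)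
    (h4 : S_SYM4) (h5' : S_SYM5) (hCon : S_CON) (hQ : S_SUMQ) (hC : S_SUMC) (h0 : S_SUM0)
    (hS : S_SING) (hOm : S_OM) (hY : RatF (fun p => Yct p)) : RatF (fun p => Rct p) := by
  have hp1 : RatF (fun p => (p : ℚ) + 1) := RatF.id.add (RatF.const 1)
  have r1 := con_naff hCon (ffP 0 10)
  have r2 := con_nP hCon hAff (ffP 0 10 - 10 * Polynomial.X * 0)
  have r3 := con_nP hCon hAff (ffP 1 9)
  have r4 := con_nP hCon hAff (45 * ffP 2 8 - 120 * ffP 3 7)
  have r5 := uu hQ hC h0 hS h5' (ffP 1 9)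
  have r6 := uu hQ hC h0 hS h5' ((Polynomial.X - 1) * (45 * ffP 2 8 - 120 * ffP 3 7))
  have r7 := ww hQ hS (ffP 3 7)
  have r8 : RatF (fun p => (((p : ℚ) ^ 2 + p + 1) - 10 * ((p : ℚ) + 1))) :=
    (((RatF.pPow 2).add RatF.id).add (RatF.const 1)).sub ((RatF.const 10).mul hp1)
  have tot : RatF (fun p => (((p : ℚ) ^ 2 - 1) * (p : ℚ) ^ 2 * (((p : ℚ) - 1) * p)) * Rct p) := by
    refine RatF.congr (((((((hY.sub r1).add r2).sub (((RatF.const 10).mul hp1).mul r3)).add
      ((hp1.mul RatF.id).mul r4)).sub (r8.mul r5)).sub r6).sub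
      (((RatF.const 240).mul hp1).mul r7)) fun p hp h5 => ?_
    beta_reduce
    rw [main_id hBin hAff h1 h2 h3 h4 p h5]
    have e : (((p : ℚ) ^ 2 - 1) * (p : ℚ) ^ 2 * (((p : ℚ) - 1) * p)) * Rct p =
        (((p : ℚ) ^ 2 + p + 1) - 10 * ((p : ℚ) + 1)) *
          (((p : ℚ) ^ 2 - 1) * (p : ℚ) ^ 2 * Om (Polynomial.X * ffP 1 9) p) +
        ((p : ℚ) ^ 2 - 1) * (p : ℚ) ^ 2 * Om (Polynomial.X *
          ((Polynomial.X - 1) * (45 * ffP 2 8 - 120 * ffP 3 7))) p +
        240 * ((p : ℚ) + 1) * (((p : ℚ) - 1) * (p : ℚ) ^ 2 *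
          Om ((Polynomial.X - 1) * ffP 3 7) p) := by
      have e1 : ((p : ℚ) - 1) * p * Rct p = ∑ E : Fin 4 → ZMod p, if E 0 ≠ 0 then
          ff (p + sE E) 9 * (((p : ℚ) ^ 2 - 9 * p + 36) * (p + 1 + sE E) - 120) else 0 := by
        rw [hOm p h5 (fun s => ff (p + s) 9 * (((p : ℚ) ^ 2 - 9 * p + 36) * (p + 1 + s) - 120))]
        rfl
      have e2 : (((p : ℚ) ^ 2 + p + 1) - 10 * ((p : ℚ) + 1)) * Om (Polynomial.X * ffP 1 9) p +
          Om (Polynomial.X * ((Polynomial.X - 1) * (45 * ffP 2 8 - 120 * ffP 3 7))) p +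
          240 * Om ((Polynomial.X - 1) * ffP 3 7) p = ∑ E : Fin 4 → ZMod p, if E 0 ≠ 0 then
          ff (p + sE E) 9 * (((p : ℚ) ^ 2 - 9 * p + 36) * (p + 1 + sE E) - 120) else 0 := by
        unfold Om
        rw [Finset.mul_sum, Finset.mul_sum, ← Finset.sum_add_distrib, ← Finset.sum_add_distrib]
        refine Finset.sum_congr rfl fun E _ => ?_
        split_ifs
        · have a1 : (45 : Polynomial ℚ) = Polynomial.C 45 := rfl
          have a2 : (120 : Polynomial ℚ) = Polynomial.C 120 := rfl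
          have a3 : (1 : Polynomial ℚ) = Polynomial.C 1 := rfl
          rw [a1, a2, a3]
          simp only [Polynomial.eval_mul, Polynomial.eval_sub, Polynomial.eval_X,
            Polynomial.eval_C, ffP_eval]
          simp only [ff, Finset.prod_range_succ, Finset.prod_range_zero]
          push_cast
          ring
        · ring
      linear_combination ((p : ℚ) ^ 2 - 1) * (p : ℚ) ^ 2 * (e1 - e2)
    rw [e]
    ring
  refine RatF.cancel ?_ ?_ tot
  · exact (((RatF.pPow 2).sub (RatF.const 1)).mul (RatF.pPow 2)).mul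
      ((RatF.id.sub (RatF.const 1)).mul RatF.id)
  · intro p hp _
    have hp1 : (1 : ℚ) < p := by exact_mod_cast hp.out.one_lt
    have a : (p : ℚ) ^ 2 - 1 ≠ 0 := by
      have : (p : ℚ) ^ 2 - 1 = (p - 1) * (p + 1) := by ring
      rw [this]
      apply mul_ne_zero <;> linarith
    have b : (p : ℚ) - 1 ≠ 0 := by linarith
    have c : (p : ℚ) ≠ 0 := by linarith
    exact mul_ne_zero (mul_ne_zero a (pow_ne_zero _ c)) (mul_ne_zero b c)

end Pool.Agent.NH28.UR.Part2
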