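import Pool.Agent.NH28.UR.Part1
import Pool.Agent.NH28.UR.Part2

set_option autoImplicit false

/-!
# Project UR: assembly
-/

namespace Pool.Agent.NH28.UR.Asm

open Finset Pool.Agent.NH28.UR

theorem main (hInterp : S_INTERP) (hBad : S_BAD) (hPhi : S_PHI) (hLiu : S_LIU) (hGm : S_GM)
    (hGd : S_GD) (hBd : S_BD) (hB0 : S_B0) (hB1 : S_B1) (hN : S_N) (hV : S_V)
    (hDC : S_DC) (h6 : S_CNT6) (h5 : S_CNT5) (h4 : S_CNT4)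
    (hBin : S_BIN) (hAff : S_AFF) (h1 : S_SYM1) (h2 : S_SYM2) (h3 : S_SYM3)
    (h4' : S_SYM4) (h5' : S_SYM5) (hCon : S_CON) (hQ : S_SUMQ) (hC : S_SUMC) (h0 : S_SUM0)
    (hS : S_SING) (hOm : S_OM) (hR : S_R) (n₀ : ℕ) :
    ∃ n, n₀ ≤ n ∧ ∃ e, 1 ≤ e ∧ ¬ RatF (fun p => Nat.cast (fct n (p ^ e))) := by
  by_contra hcon
  push Not at hcon
  have hX := Part1.X_rat hInterp hBad hPhi hLiu hGm hGd hBd hB0 hB1 hN hV n₀ hcon
  have hY := Part2.Y_rat hDC h6 h5 h4 hX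
  exact hR (Part2.R_rat hBin hAff h1 h2 h3 h4' h5' hCon hQ hC h0 hS hOm hY)

end Pool.Agent.NH28.UR.Asm
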