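import Pool.Agent.NH28.UR.Stm

set_option autoImplicit false

/-!
# Project UR: lattices containing `pℤ^n`; the order of `M/pM²`
-/

namespace Pool.Agent.NH28.UR.B0

open Pool.Agent.NH28.UR
open Finset

/-- differences of the coordinates modulo `p` -/
def ph (p j : ℕ) : (Fin 0 ⊕ Fin (j + 1) → ℤ) →+ (Fin j → ZMod p) where
  toFun x := fun i => ((x (Sum.inr i.succ) - x (Sum.inr 0) : ℤ) : ZMod p)
  map_zero' := by
    ext i
    simp
  map_add' x y := by
    ext i
    simp only [Pi.add_apply]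
    push_cast
    ring

theorem ph_apply (p j : ℕ) (x : Fin 0 ⊕ Fin (j + 1) → ℤ) (i : Fin j) :
    ph p j x i = ((x (Sum.inr i.succ) - x (Sum.inr 0) : ℤ) : ZMod p) := rfl

theorem ph_surj (p j : ℕ) : Function.Surjective (ph p j) := by
  intro y
  refine ⟨Sum.elim (fun i => i.elim0) (Fin.cons 0 fun i => (y i).cast), ?_⟩
  ext i
  rw [ph_apply]
  simp

theorem ph_one (p j : ℕ) : ph p j 1 = 0 := by
  ext i
  rw [ph_apply]
  simp

theorem ph_single (p j : ℕ) (i : Fin (j + 1)) : ph p j (Pi.single (Sum.inr i) (p : ℤ)) = 0 := by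
  ext k
  rw [ph_apply]
  simp only [Pi.single_apply]
  split_ifs <;> simp

theorem ph_smul (p j : ℕ) (x : Fin 0 ⊕ Fin (j + 1) → ℤ) : ph p j ((p : ℤ) • x) = 0 := by
  ext k
  rw [ph_apply]
  simp

/-- lattices containing `1` and all `p e_i` contain the kernel -/
theorem ker_le {p j : ℕ} {M : AddSubgroup (Fin 0 ⊕ Fin (j + 1) → ℤ)}
    (h1 : (1 : Fin 0 ⊕ Fin (j + 1) → ℤ) ∈ M)
    (h2 : ∀ i : Fin (j + 1), (Pi.single (Sum.inr i) (p : ℤ) : Fin 0 ⊕ Fin (j + 1) → ℤ) ∈ M) :
    (ph p j).ker ≤ M := by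
  intro x hx
  rw [AddMonoidHom.mem_ker] at hx
  have hd : ∀ i : Fin (j + 1), (p : ℤ) ∣ x (Sum.inr i) - x (Sum.inr 0) := by
    intro i
    refine Fin.cases ?_ (fun i => ?_) i
    · rw [sub_self]
      exact dvd_zero _
    · have h3 := congrFun hx i
      rw [ph_apply, Pi.zero_apply] at h3
      exact (ZMod.intCast_zmod_eq_zero_iff_dvd _ _).1 h3
  choose k hk using hd
  have hx' : x = x (Sum.inr 0) • (1 : Fin 0 ⊕ Fin (j + 1) → ℤ) +
      ∑ i : Fin (j + 1), k i • (Pi.single (Sum.inr i) (p : ℤ) : Fin 0 ⊕ Fin (j + 1) → ℤ) := by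
    ext a
    rcases a with a | a
    · exact a.elim0
    · rw [Pi.add_apply, Finset.sum_apply, Finset.sum_eq_single a]
      · have := hk a
        simp only [Pi.smul_apply, Pi.one_apply, smul_eq_mul, mul_one, Pi.single_eq_same]
        linarith
      · intro b _ hb
        rw [Pi.smul_apply, Pi.single_apply, if_neg, smul_zero]
        intro h
        exact hb (Sum.inr_injective h).symm
      · intro h
        exact absurd (Finset.mem_univ a) h
  rw [hx']
  exact M.add_mem (M.zsmul_mem h1 _) (M.sum_mem fun i _ => M.zsmul_mem (h2 i) _)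

theorem b0 (hG : S_GAUSS) : S_B0 := by
  intro j p s hp
  have : Fact p.Prime := ⟨hp⟩
  rw [← hG p j s]
  unfold Bct
  norm_cast
  symm
  let e : {U : Submodule (ZMod p) (Fin j → ZMod p) //
      Nat.card ((Fin j → ZMod p) ⧸ U) = p ^ s} →
      {M : AddSubgroup (Fin 0 ⊕ Fin (j + 1) → ℤ) // Adm p M ∧ M.index = p ^ s ∧
        ∀ i : Fin (j + 1), (Pi.single (Sum.inr i) (p : ℤ) : Fin 0 ⊕ Fin (j + 1) → ℤ) ∈ M} :=
    fun U => ⟨U.1.toAddSubgroup.comap (ph p j), ⟨by
        rw [AddSubgroup.mem_comap, ph_one]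
        exact AddSubgroup.zero_mem _, fun x _ y _ => by
        rw [AddSubgroup.mem_comap, ph_smul]
        exact AddSubgroup.zero_mem _⟩, by
        rw [AddSubgroup.index_comap_of_surjective _ (ph_surj p j)]
        exact U.2, fun i => by
        rw [AddSubgroup.mem_comap, ph_single]
        exact AddSubgroup.zero_mem _⟩
  refine Nat.card_congr (Equiv.ofBijective e ⟨?_, ?_⟩)
  · rintro ⟨U, hU⟩ ⟨W, hW⟩ h
    have h1 : U.toAddSubgroup.comap (ph p j) = W.toAddSubgroup.comap (ph p j) :=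
      congrArg Subtype.val h
    have h2 := AddSubgroup.comap_injective (ph_surj p j) h1
    exact Subtype.ext (Submodule.toAddSubgroup_injective h2)
  · rintro ⟨M, ⟨h1, h2⟩, h3, h4⟩
    have hk := ker_le h1 h4
    have hc : (M.map (ph p j)).comap (ph p j) = M := by
      rw [AddSubgroup.comap_map_eq]
      exact sup_eq_left.2 hk
    let U : Submodule (ZMod p) (Fin j → ZMod p) := AddSubgroup.toZModSubmodule p (M.map (ph p j))
    have hU : U.toAddSubgroup = M.map (ph p j) := rfl
    refine ⟨⟨U, ?_⟩, ?_⟩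
    · have h5 : U.toAddSubgroup.index = p ^ s := by
        rw [hU, ← h3, ← AddSubgroup.index_comap_of_surjective _ (ph_surj p j), hc]
      exact h5
    · apply Subtype.ext
      exact hc

/-! ### the order of `M/pM²` -/

/-- reduction modulo `p` -/
def rd (p r : ℕ) : (Fin r → ℤ) →+ (Fin r → ZMod p) where
  toFun x := fun i => (x i : ZMod p)
  map_zero' := by
    ext i
    simp
  map_add' x y := by
    ext i
    simp

theorem kap : S_KAP := by
  intro r p s hp hr M hM hs
  have : Fact p.Prime := ⟨hp⟩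
  have hp0 : (p : ℤ) ≠ 0 := by exact_mod_cast hp.ne_zero
  let P : (Fin r → ℤ) →+ (Fin r → ℤ) := zsmulAddGroupHom (p : ℤ)
  have hPa : ∀ x, P x = (p : ℤ) • x := fun x => rfl
  have hPi : Function.Injective P := by
    intro x y h
    rw [hPa, hPa] at h
    exact smul_right_injective _ hp0 h
  have hle1 : M.map P ≤ M2 p M := by
    rintro _ ⟨x, hx, rfl⟩
    refine AddSubgroup.subset_closure ⟨x, hx, 1, hM.1, ?_⟩
    rw [mul_one]
    rfl
  have hle2 : M2 p M ≤ M := by
    refine (AddSubgroup.closure_le M).2 ?_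
    rintro _ ⟨x, hx, y, hy, rfl⟩
    exact hM.2 x hx y hy
  have hrange : P.range.index = p ^ r := by
    have h1 : P.range = (rd p r).ker := by
      ext x
      rw [AddMonoidHom.mem_range, AddMonoidHom.mem_ker]
      constructor
      · rintro ⟨y, rfl⟩
        ext i
        rw [hPa]
        show (((p : ℤ) • y) i : ZMod p) = 0
        simp
      · intro h
        have hd : ∀ i, (p : ℤ) ∣ x i := fun i =>
          (ZMod.intCast_zmod_eq_zero_iff_dvd _ _).1 (congrFun h i)
        choose k hk using hd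
        refine ⟨k, ?_⟩
        rw [hPa]
        ext i
        rw [hk i]
        simp
    have h2 : Function.Surjective (rd p r) := by
      intro y
      refine ⟨fun i => (y i).cast, ?_⟩
      ext i
      show (((y i).cast : ℤ) : ZMod p) = y i
      simp
    rw [h1, AddSubgroup.index_ker, AddMonoidHom.range_eq_top.2 h2]
    rw [Nat.card_congr (AddSubgroup.topEquiv).toEquiv, Nat.card_eq_fintype_card,
      Fintype.card_fun, ZMod.card, Fintype.card_fin]
  have hrel : (M.map P).relIndex M = p ^ r := by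
    have h1 := AddSubgroup.relIndex_mul_index (hle1.trans hle2)
    rw [AddSubgroup.index_map_of_injective _ hPi, hrange, hs] at h1
    have h2 : 0 < p ^ s := pow_pos hp.pos s
    exact Nat.eq_of_mul_eq_mul_right h2 (by rw [h1, mul_comm])
  have hdvd : (M2 p M).relIndex M ∣ p ^ r := by
    rw [← hrel]
    exact AddSubgroup.relIndex_dvd_of_le_left M hle1
  obtain ⟨k, hk, hk'⟩ := (Nat.dvd_prime_pow hp).1 hdvd
  have hk0 : k ≠ 0 := by
    rintro rfl
    rw [pow_zero, AddSubgroup.relIndex_eq_one] at hk'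
    have h1 : ∀ x ∈ M2 p M, ∀ i, (p : ℤ) ∣ x i := by
      intro x hx
      refine AddSubgroup.closure_induction (p := fun x _ => ∀ i, (p : ℤ) ∣ x i) ?_ ?_ ?_ ?_ hx
      · rintro _ ⟨x, -, y, -, rfl⟩ i
        exact ⟨(x * y) i, rfl⟩
      · intro i
        exact dvd_zero _
      · intro x y _ _ h1 h2 i
        exact dvd_add (h1 i) (h2 i)
      · intro x _ h1 i
        exact (dvd_neg).2 (h1 i)
    have h2 := h1 1 (hk' hM.1) ⟨0, hr⟩
    rw [Pi.one_apply] at h2
    have h3 : (p : ℤ) ≤ 1 := Int.le_of_dvd one_pos h2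
    have h4 := hp.two_le
    omega
  obtain ⟨k, rfl⟩ := Nat.exists_eq_succ_of_ne_zero hk0
  exact ⟨k, hk, hk'⟩

end Pool.Agent.NH28.UR.B0
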