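import Pool.Agent.NH28.UR.Stm

set_option autoImplicit false

/-!
# Project UR: sum over projections (helper51)
-/

namespace Pool.Agent.NH28.UR.B1

open Finset Pool.Agent.NH28.UR

/-- the projection -/
def pr (r j : ℕ) : (Fin r ⊕ Fin j → ℤ) →+ (Fin r → ℤ) where
  toFun m := fun i => m (Sum.inl i)
  map_zero' := rfl
  map_add' _ _ := rfl

theorem pr_surj (r j : ℕ) : Function.Surjective (pr r j) := fun x =>
  ⟨Sum.elim x 0, rfl⟩

/-- the admissible lattices with given index and embedding dimension -/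
abbrev BT (r s p : ℕ) (b : Fin (s + 1)) (k : Fin r) : Type :=
  {M : AddSubgroup (Fin r → ℤ) // Adm p M ∧ M.index = p ^ (s - b) ∧
    (M2 p M).relIndex M = p ^ ((k : ℕ) + 1)}

/-- the lattices over a projection -/
abbrev FT (r j s p : ℕ) (b : Fin (s + 1)) (M' : AddSubgroup (Fin r → ℤ)) : Type :=
  {M : AddSubgroup (Fin r ⊕ Fin j → ℤ) // Adm p M ∧ M.index = p ^ (s - b + b) ∧
      (∀ i : Fin j, (Pi.single (Sum.inr i) (p : ℤ) : Fin r ⊕ Fin j → ℤ) ∈ M) ∧
      (∀ x : Fin r → ℤ, x ∈ M' ↔ ∃ m ∈ M, ∀ i, m (Sum.inl i) = x i)}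

/-- the lattices counted by `Bct` -/
abbrev AT (r j s p : ℕ) : Type :=
  {M : AddSubgroup (Fin r ⊕ Fin j → ℤ) // Adm p M ∧ M.index = p ^ s ∧
    ∀ i : Fin j, (Pi.single (Sum.inr i) (p : ℤ) : Fin r ⊕ Fin j → ℤ) ∈ M}

theorem fin_of (hF : S_FIN) {ι : Type} [Fintype ι] {k : ℕ} (hk : k ≠ 0)
    (P : AddSubgroup (ι → ℤ) → Prop) (hP : ∀ M, P M → M.index = k) : Finite {M // P M} := by
  have := hF ι k hk
  exact Finite.of_injective (fun M : {M // P M} => (⟨M.1, hP _ M.2⟩ :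
    {M : AddSubgroup (ι → ℤ) // M.index = k})) fun M N h => Subtype.ext (by simpa using h)

theorem map_spec {r j : ℕ} (M : AddSubgroup (Fin r ⊕ Fin j → ℤ)) (x : Fin r → ℤ) :
    x ∈ M.map (pr r j) ↔ ∃ m ∈ M, ∀ i, m (Sum.inl i) = x i := by
  rw [AddSubgroup.mem_map]
  constructor
  · rintro ⟨m, hm, rfl⟩
    exact ⟨m, hm, fun _ => rfl⟩
  · rintro ⟨m, hm, h⟩
    exact ⟨m, hm, funext h⟩

theorem b1 (hF : S_FIN) (hK : S_KAP) (hA : S_B1A) : S_B1 := by
  intro r j p s hp hr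
  have hp0 : ∀ n : ℕ, p ^ n ≠ 0 := fun n => pow_ne_zero n hp.ne_zero
  have hinj := Nat.pow_right_injective hp.two_le
  have fB : ∀ (b : Fin (s + 1)) (k : Fin r), Finite (BT r s p b k) := fun b k =>
    fin_of hF (hp0 (s - b)) _ fun M hM => hM.2.1
  have fF : ∀ (b : Fin (s + 1)) (M' : AddSubgroup (Fin r → ℤ)), Finite (FT r j s p b M') :=
    fun b M' => fin_of hF (hp0 (s - b + b)) _ fun M hM => hM.2.1
  have hbs : ∀ b : Fin (s + 1), s - (b : ℕ) + b = s := fun b => Nat.sub_add_cancel (by omega)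
  let f : (Σ (b : Fin (s + 1)) (k : Fin r) (M' : BT r s p b k), FT r j s p b M'.1) → AT r j s p :=
    fun x => ⟨x.2.2.2.1, x.2.2.2.2.1, by rw [x.2.2.2.2.2.1, hbs], x.2.2.2.2.2.2.1⟩
  have hf : Function.Bijective f := by
    constructor
    · rintro ⟨b, k, ⟨M', h1, h2, h3⟩, ⟨M, g1, g2, g3, g4⟩⟩
        ⟨b', k', ⟨N', h1', h2', h3'⟩, ⟨N, g1', g2', g3', g4'⟩⟩ h
      have e0 : M = N := congrArg Subtype.val h
      subst e0
      have e1 : M' = N' := by
        ext x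
        rw [g4, g4']
      subst e1
      have e2 : b = b' := by
        have := hinj (h2.symm.trans h2')
        ext
        omega
      subst e2
      have e3 : k = k' := by
        have := hinj (h3.symm.trans h3')
        ext
        omega
      subst e3
      rfl
    · rintro ⟨M, h1, h2, h3⟩
      have hAd : Adm p (M.map (pr r j)) := by
        refine ⟨⟨1, h1.1, rfl⟩, ?_⟩
        rintro _ ⟨x, hx, rfl⟩ _ ⟨y, hy, rfl⟩
        exact ⟨_, h1.2 x hx y hy, rfl⟩
      have hdv := AddSubgroup.index_map_dvd M (pr_surj r j)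
      rw [h2] at hdv
      obtain ⟨t, ht, hte⟩ := (Nat.dvd_prime_pow hp).mp hdv
      obtain ⟨k, hk, hke⟩ := hK r p t hp hr _ hAd hte
      refine ⟨⟨⟨s - t, by omega⟩, ⟨k, hk⟩, ⟨M.map (pr r j), hAd, ?_, hke⟩, ⟨M, h1, ?_, h3,
        map_spec M⟩⟩, rfl⟩
      · rw [hte]
        congr 1
        simp only
        omega
      · rw [h2, hbs]
  classical
  letI fiB : ∀ (b : Fin (s + 1)) (k : Fin r), Fintype (BT r s p b k) := fun b k =>
    Fintype.ofFinite _
  have hcard : Bct r j p s = ∑ b : Fin (s + 1), ∑ k : Fin r, ∑ M' : BT r s p b k,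
      Nat.card (FT r j s p b M'.1) := by
    rw [Bct, ← Nat.card_congr (Equiv.ofBijective f hf), Nat.card_sigma]
    refine sum_congr rfl fun b _ => ?_
    rw [Nat.card_sigma]
    refine sum_congr rfl fun k _ => ?_
    rw [Nat.card_sigma]
  rw [hcard, Finset.sum_range]
  push_cast
  refine sum_congr rfl fun b _ => ?_
  rw [Finset.sum_range, mul_sum]
  refine sum_congr rfl fun k _ => ?_
  have h1 : ∀ M' : BT r s p b k, ((Nat.card (FT r j s p b M'.1) : ℕ) : ℚ) =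
      gauss p j b * (p : ℚ) ^ ((b : ℕ) * k) := fun M' =>
    hA r j p (s - b) b k hp hr M'.1 M'.2.1 M'.2.2.1 M'.2.2.2
  rw [sum_congr rfl fun M' _ => h1 M', sum_const, nsmul_eq_mul, card_univ,
    ← Nat.card_eq_fintype_card]
  rw [Nct]
  ring

end Pool.Agent.NH28.UR.B1
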