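import Pool.Agent.NH28.UR.Stm

set_option autoImplicit false

/-!
# Goursat count over a fixed projection
-/

namespace Pool.Agent.NH28.UR.B1A

open Pool.Agent.NH28.UR
open Finset

/-! ## Linear maps with a prescribed value -/

lemma card_lin {p : ℕ} [Fact p.Prime] {E Q : Type} [AddCommGroup E] [Module (ZMod p) E] [Finite E]
    [AddCommGroup Q] [Module (ZMod p) Q] [Finite Q] {n b : ℕ} (hE : Nat.card E = p ^ (n + 1))
    (hQ : Nat.card Q = p ^ b) (e : E) (he : e ≠ 0) (q : Q) :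
    Nat.card {f : E →+ Q // f e = q} = p ^ (b * n) := by
  classical
  have hp := (Fact.out : p.Prime)
  have hHom : Nat.card (E →+ Q) = (p ^ b) ^ (n + 1) := by
    rw [Nat.card_congr (AddMonoidHom.toZModLinearMapEquiv p (M := E) (M₁ := Q)).toEquiv]
    have hfin : Module.Finite (ZMod p) E := Module.Finite.of_finite
    have hr : Module.finrank (ZMod p) E = n + 1 := by
      have h1 := Module.natCard_eq_pow_finrank (K := ZMod p) (V := E)
      rw [hE, Nat.card_zmod] at h1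
      exact (Nat.pow_right_injective hp.two_le h1).symm
    let bs := Module.finBasis (ZMod p) E
    rw [Nat.card_congr (bs.constr (ZMod p)).symm.toEquiv, Nat.card_fun, hQ, Nat.card_fin, hr]
  obtain ⟨g, hg⟩ : ∃ g : Module.Dual (ZMod p) E, g e = 1 :=
    Module.Projective.exists_dual_eq_one (ZMod p) he
  let sm : Q → (E →+ Q) := fun t =>
    { toFun := fun x => g x • t
      map_zero' := by rw [map_zero, zero_smul]
      map_add' := fun x y => by rw [map_add, add_smul] }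
  have hsm : ∀ t, sm t e = t := fun t => by
    change g e • t = t
    rw [hg, one_smul]
  let eq1 : {f : E →+ Q // f e = q} × Q ≃ (E →+ Q) :=
    { toFun := fun x => x.1.1 + sm x.2
      invFun := fun f => (⟨f - sm (f e - q), by
        rw [AddMonoidHom.sub_apply, hsm, sub_sub_cancel]⟩, f e - q)
      left_inv := by
        rintro ⟨⟨f, hf⟩, t⟩
        have h1 : (f + sm t) e - q = t := by
          rw [AddMonoidHom.add_apply, hsm, hf, add_sub_cancel_left]
        refine Prod.ext (Subtype.ext ?_) h1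
        change f + sm t - sm ((f + sm t) e - q) = f
        rw [h1, add_sub_cancel_right]
      right_inv := by
        intro f
        change f - sm (f e - q) + sm (f e - q) = f
        rw [sub_add_cancel] }
  have h2 := Nat.card_congr eq1
  rw [Nat.card_prod, hHom, hQ, pow_succ] at h2
  have h3 : 0 < p ^ b := pow_pos hp.pos b
  rw [pow_mul]
  exact Nat.eq_of_mul_eq_mul_right h3 h2

/-! ## The two parts of a vector -/

section parts
variable {r j p : ℕ}

/-- left part -/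
def lf (r j : ℕ) : (Fin r ⊕ Fin j → ℤ) →+ (Fin r → ℤ) where
  toFun m := fun i => m (Sum.inl i)
  map_zero' := rfl
  map_add' _ _ := rfl

/-- right part -/
def rt (r j : ℕ) : (Fin r ⊕ Fin j → ℤ) →+ (Fin j → ℤ) where
  toFun m := fun i => m (Sum.inr i)
  map_zero' := rfl
  map_add' _ _ := rfl

/-- reduction modulo `p` -/
def red (p j : ℕ) : (Fin j → ℤ) →+ (Fin j → ZMod p) where
  toFun z := fun i => (z i : ZMod p)
  map_zero' := by ext; simp
  map_add' _ _ := by ext; simp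

lemma red_surj [NeZero p] : Function.Surjective (red p j) := by
  intro u
  refine ⟨fun i => ((u i).val : ℤ), ?_⟩
  funext i
  change ((((u i).val : ℕ) : ℤ) : ZMod p) = u i
  rw [Int.cast_natCast, ZMod.natCast_zmod_val]

lemma lf_elim (x : Fin r → ℤ) (z : Fin j → ℤ) : lf r j (Sum.elim x z) = x := rfl
lemma rt_elim (x : Fin r → ℤ) (z : Fin j → ℤ) : rt r j (Sum.elim x z) = z := rfl

lemma ext_parts {m m' : Fin r ⊕ Fin j → ℤ} (h1 : lf r j m = lf r j m')
    (h2 : rt r j m = rt r j m') : m = m' := by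
  funext i
  rcases i with i | i
  · exact congrFun h1 i
  · exact congrFun h2 i

/-- a multiple of `p` in the right part -/
lemma pz_mem [NeZero p] {M : AddSubgroup (Fin r ⊕ Fin j → ℤ)}
    (hM : ∀ i : Fin j, (Pi.single (Sum.inr i) (p : ℤ) : Fin r ⊕ Fin j → ℤ) ∈ M)
    {m : Fin r ⊕ Fin j → ℤ} (h1 : lf r j m = 0) (h2 : red p j (rt r j m) = 0) : m ∈ M := by
  have h3 : ∀ i : Fin j, (p : ℤ) ∣ m (Sum.inr i) := by
    intro i
    have := congrFun h2 i
    exact (ZMod.intCast_zmod_eq_zero_iff_dvd _ _).1 this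
  choose z hz using h3
  have h4 : m = ∑ i : Fin j, z i • (Pi.single (Sum.inr i) (p : ℤ) : Fin r ⊕ Fin j → ℤ) := by
    funext k
    rw [Finset.sum_apply]
    rcases k with k | k
    · have h5 : m (Sum.inl k) = 0 := congrFun h1 k
      rw [h5]
      symm
      refine Finset.sum_eq_zero fun i _ => ?_
      simp
    · rw [Finset.sum_eq_single k]
      · simp only [Pi.smul_apply, Pi.single_eq_same, smul_eq_mul]
        rw [hz k]
        ring
      · intro b _ hb
        have h6 : (Sum.inr k : Fin r ⊕ Fin j) ≠ Sum.inr b := fun h => hb (Sum.inr.inj h).symm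
        simp [h6]
      · intro h
        exact absurd (mem_univ k) h
  rw [h4]
  exact sum_mem fun i _ => M.zsmul_mem (hM i) _

/-- the subspace of the right parts of the vectors with left part zero -/
def UU (p : ℕ) (M : AddSubgroup (Fin r ⊕ Fin j → ℤ)) : Submodule (ZMod p) (Fin j → ZMod p) :=
  AddSubgroup.toZModSubmodule p ((M ⊓ (lf r j).ker).map ((red p j).comp (rt r j)))

lemma mem_UU {M : AddSubgroup (Fin r ⊕ Fin j → ℤ)} {u : Fin j → ZMod p} :
    u ∈ UU p M ↔ ∃ m, (m ∈ M ∧ lf r j m = 0) ∧ red p j (rt r j m) = u := by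
  unfold UU
  rw [AddSubgroup.mem_toZModSubmodule, AddSubgroup.mem_map]
  rfl

/-- the class of the reduction -/
def cl (U : Submodule (ZMod p) (Fin j → ZMod p)) : (Fin j → ℤ) →+ ((Fin j → ZMod p) ⧸ U) :=
  (U.mkQ.toAddMonoidHom).comp (red p j)

lemma cl_surj [NeZero p] (U : Submodule (ZMod p) (Fin j → ZMod p)) :
    Function.Surjective (cl U) := by
  intro q
  obtain ⟨u, hu⟩ := U.mkQ_surjective q
  obtain ⟨z, hz⟩ := red_surj (p := p) u
  refine ⟨z, ?_⟩
  change U.mkQ (red p j z) = q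
  rw [hz, hu]

lemma cl_eq_zero {U : Submodule (ZMod p) (Fin j → ZMod p)} {z : Fin j → ℤ} :
    cl U z = 0 ↔ red p j z ∈ U := by
  change U.mkQ (red p j z) = 0 ↔ _
  rw [Submodule.mkQ_apply, Submodule.Quotient.mk_eq_zero]

lemma cl_mul_p {U : Submodule (ZMod p) (Fin j → ZMod p)} {z : Fin j → ℤ} :
    cl U ((p : ℤ) • z) = 0 := by
  rw [cl_eq_zero]
  have : red p j ((p : ℤ) • z) = 0 := by
    funext i
    change ((((p : ℤ) • z) i : ℤ) : ZMod p) = 0
    rw [Pi.smul_apply, smul_eq_mul, Int.cast_mul, Int.cast_natCast, ZMod.natCast_self, zero_mul]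
  rw [this]
  exact U.zero_mem

/-- the lattice attached to a homomorphism -/
def Mt (M' : AddSubgroup (Fin r → ℤ)) (U : Submodule (ZMod p) (Fin j → ZMod p))
    (θ : M' →+ ((Fin j → ZMod p) ⧸ U)) : AddSubgroup (Fin r ⊕ Fin j → ℤ) where
  carrier := {m | ∃ h : lf r j m ∈ M', θ ⟨lf r j m, h⟩ = cl U (rt r j m)}
  zero_mem' := by
    refine ⟨by rw [map_zero]; exact M'.zero_mem, ?_⟩
    have : (⟨lf r j 0, by rw [map_zero]; exact M'.zero_mem⟩ : M') = 0 := by
      apply Subtype.ext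
      exact map_zero _
    rw [this, map_zero, map_zero, map_zero]
  add_mem' := by
    rintro m m' ⟨h, h1⟩ ⟨h', h1'⟩
    refine ⟨by rw [map_add]; exact M'.add_mem h h', ?_⟩
    have : (⟨lf r j (m + m'), by rw [map_add]; exact M'.add_mem h h'⟩ : M') =
        ⟨lf r j m, h⟩ + ⟨lf r j m', h'⟩ := by
      apply Subtype.ext
      exact map_add _ _ _
    rw [this, map_add, map_add, map_add, h1, h1']
  neg_mem' := by
    rintro m ⟨h, h1⟩
    refine ⟨by rw [map_neg]; exact M'.neg_mem h, ?_⟩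
    have : (⟨lf r j (-m), by rw [map_neg]; exact M'.neg_mem h⟩ : M') =
        -⟨lf r j m, h⟩ := by
      apply Subtype.ext
      exact map_neg _ _
    rw [this, map_neg, map_neg, map_neg, h1]

lemma mem_Mt {M' : AddSubgroup (Fin r → ℤ)} {U : Submodule (ZMod p) (Fin j → ZMod p)}
    {θ : M' →+ ((Fin j → ZMod p) ⧸ U)} {m : Fin r ⊕ Fin j → ℤ} :
    m ∈ Mt M' U θ ↔ ∃ h : lf r j m ∈ M', θ ⟨lf r j m, h⟩ = cl U (rt r j m) := Iff.rfl

/-- the conditions on the lattice, without the index -/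
def P0 (p : ℕ) (M' : AddSubgroup (Fin r → ℤ)) (M : AddSubgroup (Fin r ⊕ Fin j → ℤ)) : Prop :=
  Adm p M ∧ (∀ i : Fin j, (Pi.single (Sum.inr i) (p : ℤ) : Fin r ⊕ Fin j → ℤ) ∈ M) ∧
    ∀ x : Fin r → ℤ, x ∈ M' ↔ ∃ m ∈ M, ∀ i, m (Sum.inl i) = x i

/-- the conditions on the homomorphism -/
def Th (M' : AddSubgroup (Fin r → ℤ)) (h1 : (1 : Fin r → ℤ) ∈ M')
    (U : Submodule (ZMod p) (Fin j → ZMod p)) (θ : M' →+ ((Fin j → ZMod p) ⧸ U)) : Prop :=
  θ ⟨1, h1⟩ = cl U 1 ∧ ∀ x : M', (x : Fin r → ℤ) ∈ M2 p M' → θ x = 0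

lemma Mt_P0 [NeZero p] {M' : AddSubgroup (Fin r → ℤ)} (hM' : Adm p M')
    {U : Submodule (ZMod p) (Fin j → ZMod p)} {θ : M' →+ ((Fin j → ZMod p) ⧸ U)}
    (hθ : Th M' hM'.1 U θ) : P0 p M' (Mt M' U θ) := by
  refine ⟨⟨⟨hM'.1, hθ.1⟩, ?_⟩, ?_, ?_⟩
  · rintro m ⟨h, h1⟩ n ⟨h', h1'⟩
    have h2 : lf r j ((p : ℤ) • (m * n)) = (p : ℤ) • (lf r j m * lf r j n) := rfl
    have h3 : lf r j ((p : ℤ) • (m * n)) ∈ M' := by
      rw [h2]
      exact hM'.2 _ h _ h'
    refine ⟨h3, ?_⟩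
    have h4 : rt r j ((p : ℤ) • (m * n)) = (p : ℤ) • (rt r j m * rt r j n) := rfl
    rw [h4, cl_mul_p]
    apply hθ.2
    exact AddSubgroup.subset_closure ⟨_, h, _, h', rfl⟩
  · intro i
    have h2 : lf r j (Pi.single (Sum.inr i) (p : ℤ)) = 0 := by
      funext k
      change (Pi.single (Sum.inr i) (p : ℤ) : Fin r ⊕ Fin j → ℤ) (Sum.inl k) = 0
      simp
    have h3 : lf r j (Pi.single (Sum.inr i) (p : ℤ)) ∈ M' := by
      rw [h2]
      exact M'.zero_mem
    refine ⟨h3, ?_⟩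
    have h5 : (⟨lf r j (Pi.single (Sum.inr i) (p : ℤ)), h3⟩ : M') = 0 := Subtype.ext h2
    have h4 : rt r j (Pi.single (Sum.inr i) (p : ℤ)) = (p : ℤ) • (Pi.single i 1 : Fin j → ℤ) := by
      funext k
      change (Pi.single (Sum.inr i) (p : ℤ) : Fin r ⊕ Fin j → ℤ) (Sum.inr k) = _
      by_cases hk : k = i
      · subst hk; simp
      · have h6 : (Sum.inr k : Fin r ⊕ Fin j) ≠ Sum.inr i := fun h => hk (Sum.inr.inj h)
        simp [hk]
    rw [h4, cl_mul_p, h5, map_zero]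
  · intro x
    constructor
    · intro hx
      obtain ⟨z, hz⟩ := cl_surj U (θ ⟨x, hx⟩)
      exact ⟨Sum.elim x z, ⟨hx, hz.symm⟩, fun i => rfl⟩
    · rintro ⟨m, ⟨h, _⟩, h1⟩
      have : lf r j m = x := funext h1
      rwa [this] at h

lemma Mt_UU [NeZero p] {M' : AddSubgroup (Fin r → ℤ)}
    {U : Submodule (ZMod p) (Fin j → ZMod p)} {θ : M' →+ ((Fin j → ZMod p) ⧸ U)} :
    UU p (Mt M' U θ) = U := by
  ext u
  rw [mem_UU]
  constructor
  · rintro ⟨m, ⟨⟨h, h1⟩, h2⟩, rfl⟩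
    have h3 : (⟨lf r j m, h⟩ : M') = 0 := Subtype.ext h2
    rw [h3, map_zero] at h1
    exact cl_eq_zero.1 h1.symm
  · intro hu
    obtain ⟨z, hz⟩ := red_surj (p := p) u
    refine ⟨Sum.elim 0 z, ⟨⟨M'.zero_mem, ?_⟩, rfl⟩, hz⟩
    have h3 : (⟨lf r j (Sum.elim 0 z), M'.zero_mem⟩ : M') = 0 := Subtype.ext rfl
    rw [h3, map_zero]
    symm
    rw [cl_eq_zero]
    change red p j z ∈ U
    rw [hz]
    exact hu

lemma Mt_inj [NeZero p] {M' : AddSubgroup (Fin r → ℤ)}
    {U : Submodule (ZMod p) (Fin j → ZMod p)} {θ θ' : M' →+ ((Fin j → ZMod p) ⧸ U)}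
    (h : Mt M' U θ = Mt M' U θ') : θ = θ' := by
  refine AddMonoidHom.ext fun x => ?_
  obtain ⟨z, hz⟩ := cl_surj U (θ x)
  have h1 : Sum.elim x.1 z ∈ Mt M' U θ := ⟨x.2, hz.symm⟩
  rw [h] at h1
  obtain ⟨h2, h3⟩ := h1
  exact hz.symm.trans h3.symm

lemma Mt_surj [NeZero p] {M' : AddSubgroup (Fin r → ℤ)} (hM' : Adm p M')
    {M : AddSubgroup (Fin r ⊕ Fin j → ℤ)} (hM : P0 p M' M) :
    ∃ θ : M' →+ ((Fin j → ZMod p) ⧸ UU p M), Th M' hM'.1 (UU p M) θ ∧ Mt M' (UU p M) θ = M := by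
  have hex : ∀ x : M', ∃ m ∈ M, lf r j m = x.1 := by
    intro x
    obtain ⟨m, hm, h⟩ := (hM.2.2 x.1).1 x.2
    exact ⟨m, hm, funext h⟩
  choose g hg hg' using hex
  have hwd : ∀ m ∈ M, ∀ m' ∈ M, lf r j m = lf r j m' →
      cl (UU p M) (rt r j m) = cl (UU p M) (rt r j m') := by
    intro m hm m' hm' h
    rw [← sub_eq_zero, ← map_sub, ← map_sub, cl_eq_zero, mem_UU]
    exact ⟨m - m', ⟨M.sub_mem hm hm', by rw [map_sub, h, sub_self]⟩, rfl⟩
  let θ : M' →+ ((Fin j → ZMod p) ⧸ UU p M) :=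
    { toFun := fun x => cl (UU p M) (rt r j (g x))
      map_zero' := by
        rw [hwd _ (hg 0) 0 M.zero_mem (by rw [hg', map_zero]; rfl), map_zero, map_zero]
      map_add' := fun x y => by
        rw [← map_add, ← map_add]
        refine hwd _ (hg _) _ (M.add_mem (hg x) (hg y)) ?_
        rw [hg', map_add, hg', hg']
        rfl }
  have hθ : ∀ x, θ x = cl (UU p M) (rt r j (g x)) := fun x => rfl
  refine ⟨θ, ⟨?_, ?_⟩, ?_⟩
  · rw [hθ]
    exact hwd _ (hg _) 1 hM.1.1 (by rw [hg']; rfl)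
  · intro x hx
    rw [hθ]
    have hP : ∀ y ∈ M2 p M', ∀ h : y ∈ M', θ ⟨y, h⟩ = 0 := by
      intro y hy
      unfold M2 at hy
      induction hy using AddSubgroup.closure_induction with
      | mem y hy =>
        obtain ⟨a, ha, b, hb, rfl⟩ := hy
        intro h
        rw [hθ]
        have h1 : (p : ℤ) • (g ⟨a, ha⟩ * g ⟨b, hb⟩) ∈ M := hM.1.2 _ (hg _) _ (hg _)
        have h2 : lf r j ((p : ℤ) • (g ⟨a, ha⟩ * g ⟨b, hb⟩)) = (p : ℤ) • (a * b) := by
          change (p : ℤ) • (lf r j (g ⟨a, ha⟩) * lf r j (g ⟨b, hb⟩)) = _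
          rw [hg', hg']
        rw [hwd _ (hg _) _ h1 (by rw [hg', h2])]
        have h4 : rt r j ((p : ℤ) • (g ⟨a, ha⟩ * g ⟨b, hb⟩)) =
          (p : ℤ) • (rt r j (g ⟨a, ha⟩) * rt r j (g ⟨b, hb⟩)) := rfl
        rw [h4, cl_mul_p]
      | zero =>
        intro h
        have : (⟨0, h⟩ : M') = 0 := rfl
        rw [this, map_zero]
      | add a b ha hb iha ihb =>
        intro h
        have hM2 : M2 p M' ≤ M' := by
          unfold M2
          rw [AddSubgroup.closure_le]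
          rintro _ ⟨a, ha, b, hb, rfl⟩
          exact hM'.2 a ha b hb
        have ha' : a ∈ M' := hM2 ha
        have hb' : b ∈ M' := hM2 hb
        have : (⟨a + b, h⟩ : M') = ⟨a, ha'⟩ + ⟨b, hb'⟩ := rfl
        rw [this, map_add, iha ha', ihb hb', add_zero]
      | neg a ha iha =>
        intro h
        have ha' : a ∈ M' := by
          have := M'.neg_mem h
          rwa [neg_neg] at this
        have : (⟨-a, h⟩ : M') = -⟨a, ha'⟩ := rfl
        rw [this, map_neg, iha ha', neg_zero]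
    exact hP x.1 hx x.2
  · ext m
    rw [mem_Mt]
    constructor
    · rintro ⟨h, h1⟩
      rw [hθ] at h1
      have h2 : cl (UU p M) (rt r j (m - g ⟨lf r j m, h⟩)) = 0 := by
        rw [map_sub, map_sub, h1, sub_self]
      rw [cl_eq_zero, mem_UU] at h2
      obtain ⟨n, ⟨hn, hn0⟩, hn1⟩ := h2
      have h3 : m - g ⟨lf r j m, h⟩ - n ∈ M := by
        apply pz_mem hM.2.1
        · rw [map_sub, map_sub, hg', hn0, sub_self, sub_zero]
        · rw [map_sub, map_sub, hn1, sub_self]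
      have h4 := M.add_mem (M.add_mem h3 hn) (hg ⟨lf r j m, h⟩)
      rwa [sub_add_cancel, sub_add_cancel] at h4
    · intro hm
      have h : lf r j m ∈ M' := (hM.2.2 _).2 ⟨m, hm, fun i => rfl⟩
      refine ⟨h, ?_⟩
      rw [hθ]
      exact hwd _ (hg _) _ hm (hg' _)

/-- the index -/
lemma Mt_index [NeZero p] {M' : AddSubgroup (Fin r → ℤ)}
    {U : Submodule (ZMod p) (Fin j → ZMod p)} {θ : M' →+ ((Fin j → ZMod p) ⧸ U)} :
    (Mt M' U θ).index = Nat.card ((Fin j → ZMod p) ⧸ U) * M'.index := by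
  let A : AddSubgroup (Fin r ⊕ Fin j → ℤ) := M'.comap (lf r j)
  have hA : A.index = M'.index := AddSubgroup.index_comap_of_surjective _ fun x =>
    ⟨Sum.elim x 0, rfl⟩
  have hle : Mt M' U θ ≤ A := by
    rintro m ⟨h, _⟩
    exact h
  rw [← AddSubgroup.relIndex_mul_index hle, hA]
  congr 1
  let lfA : A →+ M' :=
    { toFun := fun m => ⟨lf r j m.1, m.2⟩
      map_zero' := Subtype.ext (map_zero _)
      map_add' := fun x y => Subtype.ext (map_add _ _ _) }
  let φ : A →+ ((Fin j → ZMod p) ⧸ U) := θ.comp lfA - ((cl U).comp (rt r j)).comp A.subtype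
  have hker : (Mt M' U θ).addSubgroupOf A = φ.ker := by
    ext ⟨m, hm⟩
    rw [AddSubgroup.mem_addSubgroupOf, AddMonoidHom.mem_ker, mem_Mt]
    change _ ↔ θ ⟨lf r j m, hm⟩ - cl U (rt r j m) = 0
    rw [sub_eq_zero]
    exact ⟨fun ⟨_, h⟩ => h, fun h => ⟨hm, h⟩⟩
  have hsurj : Function.Surjective φ := by
    intro q
    obtain ⟨z, hz⟩ := cl_surj U q
    refine ⟨⟨Sum.elim 0 (-z), M'.zero_mem⟩, ?_⟩
    have h3 : lfA ⟨Sum.elim 0 (-z), M'.zero_mem⟩ = 0 := Subtype.ext rfl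
    change θ (lfA ⟨Sum.elim 0 (-z), M'.zero_mem⟩) - cl U (-z) = q
    rw [h3, map_zero, zero_sub, map_neg, neg_neg, hz]
  unfold AddSubgroup.relIndex
  rw [hker, AddSubgroup.index_ker, AddMonoidHom.range_eq_top.2 hsurj]
  exact Nat.card_congr AddSubgroup.topEquiv.toEquiv

end parts

/-- the number of homomorphisms -/
lemma card_Th {r j p : ℕ} [Fact p.Prime] (hr : 1 ≤ r) {M' : AddSubgroup (Fin r → ℤ)}
    (hM' : Adm p M') {b k : ℕ} (hk : (M2 p M').relIndex M' = p ^ (k + 1))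
    (U : Submodule (ZMod p) (Fin j → ZMod p)) (hU : Nat.card ((Fin j → ZMod p) ⧸ U) = p ^ b) :
    Nat.card {θ : M' →+ ((Fin j → ZMod p) ⧸ U) // Th M' hM'.1 U θ} = p ^ (b * k) := by
  have hp := (Fact.out : p.Prime)
  let S := (M2 p M').addSubgroupOf M'
  have hS : ∀ x : M', p • x ∈ S := by
    intro x
    rw [AddSubgroup.mem_addSubgroupOf]
    apply AddSubgroup.subset_closure
    refine ⟨x.1, x.2, 1, hM'.1, ?_⟩
    rw [mul_one, AddSubgroup.coe_nsmul, natCast_zsmul]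
  let _ : Module (ZMod p) (M' ⧸ S) := QuotientAddGroup.zmodModule hS
  have hcard : Nat.card (M' ⧸ S) = p ^ (k + 1) := hk
  have hfin : Finite (M' ⧸ S) := Nat.finite_of_card_ne_zero (by
    rw [hcard]
    exact pow_ne_zero _ hp.ne_zero)
  have hfin2 : Finite ((Fin j → ZMod p) ⧸ U) := Nat.finite_of_card_ne_zero (by
    rw [hU]
    exact pow_ne_zero _ hp.ne_zero)
  let e : M' ⧸ S := QuotientAddGroup.mk ⟨1, hM'.1⟩
  have he : e ≠ 0 := by
    intro h
    have h1 : (⟨1, hM'.1⟩ : M') ∈ S := (QuotientAddGroup.eq_zero_iff _).1 h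
    rw [AddSubgroup.mem_addSubgroupOf] at h1
    have h2 : ∀ y ∈ M2 p M', ∀ i, (p : ℤ) ∣ y i := by
      intro y hy
      unfold M2 at hy
      induction hy using AddSubgroup.closure_induction with
      | mem y hy =>
        obtain ⟨a, _, c, _, rfl⟩ := hy
        intro i
        rw [Pi.smul_apply, smul_eq_mul]
        exact dvd_mul_right _ _
      | zero => intro i; exact dvd_zero _
      | add a c _ _ iha ihb => intro i; exact dvd_add (iha i) (ihb i)
      | neg a _ iha => intro i; exact (dvd_neg).2 (iha i)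
    have h3 := h2 _ h1 ⟨0, hr⟩
    have h4 : (p : ℤ) ∣ 1 := h3
    have h5 := Int.le_of_dvd one_pos h4
    have := hp.two_le
    omega
  rw [← card_lin hcard hU e he (cl U 1)]
  refine Nat.card_congr
    { toFun := fun θ => ⟨QuotientAddGroup.lift S θ.1 (fun x hx => θ.2.2 x
        (AddSubgroup.mem_addSubgroupOf.1 hx)), θ.2.1⟩
      invFun := fun f => ⟨f.1.comp (QuotientAddGroup.mk' S), f.2, fun x hx => by
        have h1 : (QuotientAddGroup.mk' S) x = 0 :=
          (QuotientAddGroup.eq_zero_iff _).2 (AddSubgroup.mem_addSubgroupOf.2 hx)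
        rw [AddMonoidHom.comp_apply, h1, map_zero]⟩
      left_inv := fun θ => by
        apply Subtype.ext
        exact AddMonoidHom.ext fun x => rfl
      right_inv := fun f => by
        apply Subtype.ext
        refine AddMonoidHom.ext fun x => ?_
        induction x using QuotientAddGroup.induction_on with
        | H x => rfl }

theorem b1a (hG : S_GAUSS) : S_B1A := by
  classical
  intro r j p s b k hp hr M' hM' hs hk
  have : Fact p.Prime := ⟨hp⟩
  have hgauss := hG p j b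
  have hps : 0 < p ^ s := pow_pos hp.pos s
  let TU := {U : Submodule (ZMod p) (Fin j → ZMod p) // Nat.card ((Fin j → ZMod p) ⧸ U) = p ^ b}
  have hTUfin : Finite TU := Finite.of_injective (fun U : TU => (U.1 : Set (Fin j → ZMod p)))
    (fun U U' h => Subtype.ext (SetLike.coe_injective h))
  have : Fintype TU := Fintype.ofFinite TU
  let TM := {M : AddSubgroup (Fin r ⊕ Fin j → ℤ) // Adm p M ∧ M.index = p ^ (s + b) ∧
      (∀ i : Fin j, (Pi.single (Sum.inr i) (p : ℤ) : Fin r ⊕ Fin j → ℤ) ∈ M) ∧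
      (∀ x : Fin r → ℤ, x ∈ M' ↔ ∃ m ∈ M, ∀ i, m (Sum.inl i) = x i)}
  let TT : TU → Type := fun U => {θ : M' →+ ((Fin j → ZMod p) ⧸ U.1) // Th M' hM'.1 U.1 θ}
  have hTT : ∀ U, Nat.card (TT U) = p ^ (b * k) := fun U => card_Th hr hM' hk U.1 U.2
  have hTTfin : ∀ U, Finite (TT U) := fun U => Nat.finite_of_card_ne_zero (by
    rw [hTT U]
    exact pow_ne_zero _ hp.ne_zero)
  let Φ : (Σ U : TU, TT U) → TM := fun x =>
    ⟨Mt M' x.1.1 x.2.1, (Mt_P0 hM' x.2.2).1, by
      rw [Mt_index, x.1.2, hs, ← pow_add, add_comm], (Mt_P0 hM' x.2.2).2.1,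
      (Mt_P0 hM' x.2.2).2.2⟩
  have hΦ : Function.Bijective Φ := by
    constructor
    · rintro ⟨⟨U, hU⟩, ⟨θ, hθ⟩⟩ ⟨⟨U', hU'⟩, ⟨θ', hθ'⟩⟩ h
      have h1 : Mt M' U θ = Mt M' U' θ' := congrArg Subtype.val h
      have h2 : U = U' := by
        rw [← Mt_UU (M' := M') (U := U) (θ := θ), h1, Mt_UU]
      subst h2
      have h3 := Mt_inj h1
      subst h3
      rfl
    · rintro ⟨M, hM1, hM2, hM3, hM4⟩
      obtain ⟨θ, hθ, hθM⟩ := Mt_surj hM' (M := M) ⟨hM1, hM3, hM4⟩
      have hU : Nat.card ((Fin j → ZMod p) ⧸ UU p M) = p ^ b := by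
        have h1 : (Mt M' (UU p M) θ).index = p ^ (s + b) := by rw [hθM, hM2]
        rw [Mt_index, hs, pow_add, mul_comm (p ^ s)] at h1
        exact Nat.eq_of_mul_eq_mul_right hps h1
      exact ⟨⟨⟨UU p M, hU⟩, ⟨θ, hθ⟩⟩, Subtype.ext hθM⟩
  have h1 : Nat.card TM = Nat.card TU * p ^ (b * k) := by
    rw [← Nat.card_congr (Equiv.ofBijective Φ hΦ), Nat.card_sigma]
    simp only [hTT]
    rw [Finset.sum_const, smul_eq_mul, Finset.card_univ, Nat.card_eq_fintype_card]
  change (Nat.card TM : ℚ) = _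
  rw [h1]
  push_cast
  rw [← hgauss]

end Pool.Agent.NH28.UR.B1A
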