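import Pool.Agent.NH28.UR.Stm

set_option autoImplicit false

/-!
# Finitely many subgroups of given index; few bad coordinates
-/

namespace Pool.Agent.NH28.UR.Bad

open Pool.Agent.NH28.UR
open Finset

theorem fin : S_FIN := by
  intro ι _ k hk
  have : NeZero k := ⟨hk⟩
  let π : (ι → ℤ) → (ι → ZMod k) := fun x i => (x i : ZMod k)
  have key : ∀ M : {M : AddSubgroup (ι → ℤ) // M.index = k}, ∀ x : ι → ℤ,
      x ∈ M.1 ↔ π x ∈ π '' (M.1 : Set (ι → ℤ)) := by
    rintro ⟨M, hM⟩ x
    constructor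
    · intro hx
      exact ⟨x, hx, rfl⟩
    · rintro ⟨y, hy, hxy⟩
      have h1 : ∀ i, (k : ℤ) ∣ x i - y i := by
        intro i
        have h2 : ((x i : ℤ) : ZMod k) = ((y i : ℤ) : ZMod k) := (congrFun hxy i).symm
        rw [← ZMod.intCast_zmod_eq_zero_iff_dvd]
        rw [Int.cast_sub, h2, sub_self]
      choose z hz using h1
      have h3 : x = y + k • z := by
        funext i
        have := hz i
        rw [Pi.add_apply, Pi.smul_apply, nsmul_eq_mul]
        linarith
      rw [h3]
      refine M.add_mem hy ?_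
      have h4 := M.nsmul_index_mem z
      rwa [hM] at h4
  refine Finite.of_injective (fun M : {M : AddSubgroup (ι → ℤ) // M.index = k} =>
    π '' (M.1 : Set (ι → ℤ))) ?_
  intro M M' h
  apply Subtype.ext
  ext x
  have h' : π '' (M.1 : Set (ι → ℤ)) = π '' (M'.1 : Set (ι → ℤ)) := h
  rw [key M x, key M' x, h']

/-- few coordinate vectors generate the group modulo a subgroup of small index -/
lemma gens {p : ℕ} (hp : p.Prime) {ι : Type} [Fintype ι] [DecidableEq ι] :
    ∀ (s : ℕ) (L : AddSubgroup (ι → ℤ)), L.index = p ^ s →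
      ∃ G : Finset ι, G.card ≤ s ∧
        L ⊔ AddSubgroup.closure ((fun i => (Pi.single i 1 : ι → ℤ)) '' (G : Set ι)) = ⊤ := by
  intro s
  induction s using Nat.strong_induction_on with
  | _ s ih =>
    intro L hL
    by_cases htop : ∀ i, (Pi.single i 1 : ι → ℤ) ∈ L
    · refine ⟨∅, by simp, ?_⟩
      rw [eq_top_iff]
      intro x _
      refine AddSubgroup.mem_sup_left ?_
      have h1 : x = ∑ i, x i • (Pi.single i 1 : ι → ℤ) := by
        funext j
        rw [Finset.sum_apply, Finset.sum_eq_single j]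
        · simp
        · intro b _ hb
          simp [hb.symm]
        · intro h; exact absurd (mem_univ j) h
      rw [h1]
      exact sum_mem fun i _ => L.zsmul_mem (htop i) _
    · push Not at htop
      obtain ⟨i, hi⟩ := htop
      set L' := L ⊔ AddSubgroup.closure {(Pi.single i 1 : ι → ℤ)} with hL'
      have hlt : L < L' := by
        refine lt_of_le_of_ne le_sup_left ?_
        intro h
        apply hi
        rw [h]
        exact AddSubgroup.mem_sup_right (AddSubgroup.subset_closure rfl)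
      have hfin : L.FiniteIndex := ⟨by rw [hL]; exact pow_ne_zero _ hp.ne_zero⟩
      have h1 : L'.index < L.index := AddSubgroup.index_strictAnti hlt
      have h2 : L'.index ∣ p ^ s := by
        rw [← hL]
        exact AddSubgroup.index_dvd_of_le hlt.le
      obtain ⟨t, ht, ht'⟩ := (Nat.dvd_prime_pow hp).1 h2
      have h3 : t < s := by
        rw [ht', hL] at h1
        exact (Nat.pow_lt_pow_iff_right hp.one_lt).1 h1
      obtain ⟨G, hG, hG'⟩ := ih t h3 L' ht'
      refine ⟨insert i G, (Finset.card_insert_le _ _).trans (by omega), ?_⟩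
      rw [Finset.coe_insert, Set.image_insert_eq, Set.insert_eq, AddSubgroup.closure_union,
        ← sup_assoc]
      exact hG'

theorem bad : S_BAD := by
  classical
  intro p hp ι _ _ N K h1N hNK s hs
  have hNleK : N ≤ K := fun x hx => by
    have := hNK x hx 1 h1N
    rwa [mul_one] at this
  have hps : p ^ s ≠ 0 := pow_ne_zero _ hp.ne_zero
  have hKdvd : K.index ∣ p ^ s := by
    rw [← hs]
    exact AddSubgroup.index_dvd_of_le hNleK
  obtain ⟨G, hG, hG'⟩ := gens hp s N hs
  -- the subgroups `K_i`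
  let f : ι → (ι → ℤ) →+ (ι → ℤ) := fun i =>
    { toFun := fun x => x * Pi.single i 1
      map_zero' := by rw [zero_mul]
      map_add' := fun x y => by rw [add_mul] }
  have hf : ∀ i x, f i x = x i • (Pi.single i 1 : ι → ℤ) := by
    intro i x
    change x * Pi.single i 1 = _
    funext j
    by_cases hj : j = i
    · subst hj; simp
    · simp [hj]
  let Ki : ι → AddSubgroup (ι → ℤ) := fun i => K.comap (f i)
  have hKi : ∀ i x, x ∈ Ki i ↔ f i x ∈ K := fun i x => Iff.rfl
  have hKidvd : ∀ i, (Ki i).index ∣ p ^ s := by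
    intro i
    rw [AddSubgroup.index_comap]
    exact (AddSubgroup.relIndex_dvd_index_of_normal K _).trans hKdvd
  have hKipos : ∀ i, (Ki i).index ≤ p ^ s := fun i =>
    Nat.le_of_dvd (Nat.pos_of_ne_zero hps) (hKidvd i)
  have hKine : ∀ i, (Ki i).index ≠ 0 := fun i h => by
    have := hKidvd i
    rw [h, zero_dvd_iff] at this
    exact hps this
  let R : AddSubgroup (ι → ℤ) := ⨅ i, Ki i
  let W : AddSubgroup (ι → ℤ) := N ⊓ ⨅ g : G, Ki g.1
  have hWR : W ≤ R := by
    intro x hx
    obtain ⟨hxN, hxG⟩ := AddSubgroup.mem_inf.1 hx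
    rw [AddSubgroup.mem_iInf] at hxG
    refine (AddSubgroup.mem_iInf).2 fun i => ?_
    rw [hKi]
    change x * Pi.single i 1 ∈ K
    have hall : ∀ y : ι → ℤ, y ∈ N ⊔ AddSubgroup.closure
        ((fun i => (Pi.single i 1 : ι → ℤ)) '' (G : Set ι)) → x * y ∈ K := by
      intro y hy
      obtain ⟨a, ha, b, hb, rfl⟩ := AddSubgroup.mem_sup.1 hy
      rw [mul_add]
      refine K.add_mem (hNK x hxN a ha) ?_
      clear hy
      induction hb using AddSubgroup.closure_induction with
      | mem y hy =>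
        obtain ⟨g, hg, rfl⟩ := hy
        exact (hKi g x).1 (hxG ⟨g, hg⟩)
      | zero => rw [mul_zero]; exact K.zero_mem
      | add y z _ _ hy hz =>
        rw [mul_add]
        exact K.add_mem hy hz
      | neg y _ hy =>
        rw [mul_neg]
        exact K.neg_mem hy
    apply hall
    rw [hG']
    exact AddSubgroup.mem_top _
  have hWne : W.index ≠ 0 := by
    refine AddSubgroup.index_inf_ne_zero (by rw [hs]; exact hps) ?_
    exact AddSubgroup.index_iInf_ne_zero fun g => hKine g.1
  have hWle : W.index ≤ p ^ (s * s + s) := by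
    refine AddSubgroup.index_inf_le.trans ?_
    rw [hs, pow_add, mul_comm (p ^ s)]
    refine Nat.mul_le_mul_right _ ?_
    refine (AddSubgroup.index_iInf_le _).trans ?_
    calc ∏ i : G, (Ki i.1).index ≤ ∏ i : G, p ^ s := Finset.prod_le_prod' fun i _ => hKipos i.1
      _ = (p ^ s) ^ G.card := by
        rw [Finset.prod_const, Finset.card_univ, Fintype.card_coe]
      _ ≤ (p ^ s) ^ s := Nat.pow_le_pow_right (Nat.pos_of_ne_zero hps) hG
      _ = p ^ (s * s) := by rw [← pow_mul]
  have hRdvd : R.index ∣ W.index := AddSubgroup.index_dvd_of_le hWR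
  have hRne : R.index ≠ 0 := fun h => by
    rw [h, zero_dvd_iff] at hRdvd
    exact hWne hRdvd
  have hRle : R.index ≤ p ^ (s * s + s) :=
    (Nat.le_of_dvd (Nat.pos_of_ne_zero hWne) hRdvd).trans hWle
  -- lower bound for the index
  let B := {i : ι // (Pi.single i 1 : ι → ℤ) ∉ K}
  have hQfin : Finite ((ι → ℤ) ⧸ R) := AddSubgroup.index_ne_zero_iff_finite.1 hRne
  let ext : (B → Fin p) → (ι → ℤ) := fun v i =>
    if h : (Pi.single i 1 : ι → ℤ) ∉ K then ((v ⟨i, h⟩ : Fin p) : ℕ) else 0
  have hinj : Function.Injective (fun v : B → Fin p => (QuotientAddGroup.mk (ext v) :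
      (ι → ℤ) ⧸ R)) := by
    intro v w hvw
    have h1 : -ext v + ext w ∈ R := QuotientAddGroup.eq.1 hvw
    rw [AddSubgroup.mem_iInf] at h1
    funext ⟨i, hi⟩
    have h2 := (hKi i _).1 (h1 i)
    rw [hf] at h2
    have h3 : (-ext v + ext w) i = ((w ⟨i, hi⟩ : ℕ) : ℤ) - ((v ⟨i, hi⟩ : ℕ) : ℤ) := by
      simp only [Pi.add_apply, Pi.neg_apply, ext, dif_pos hi]
      ring
    rw [h3] at h2
    by_contra hne
    apply hi
    have hne' : ((v ⟨i, hi⟩ : Fin p) : ℕ) ≠ (w ⟨i, hi⟩ : ℕ) := fun h => hne (Fin.ext h)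
    have hv := (v ⟨i, hi⟩).2
    have hw := (w ⟨i, hi⟩).2
    set z : ℤ := ((w ⟨i, hi⟩ : ℕ) : ℤ) - ((v ⟨i, hi⟩ : ℕ) : ℤ) with hz
    have hcop : IsCoprime z ((p : ℤ) ^ s) := by
      apply IsCoprime.pow_right
      rw [isCoprime_comm]
      rw [Prime.coprime_iff_not_dvd (Nat.prime_iff_prime_int.1 hp)]
      intro hd
      have h4 : z ≠ 0 := by
        rw [hz]
        omega
      have h5 := Int.le_of_dvd (abs_pos.2 h4) ((dvd_abs _ _).2 hd)
      rw [hz] at h5
      rcases abs_cases ((((w ⟨i, hi⟩ : Fin p) : ℕ) : ℤ) - (((v ⟨i, hi⟩ : Fin p) : ℕ) : ℤ))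
        with h | h <;> omega
    obtain ⟨a, b, hab⟩ := hcop
    have h6 : ((p : ℤ) ^ s) • (Pi.single i 1 : ι → ℤ) ∈ K := by
      obtain ⟨t, ht⟩ := hKdvd
      have h7 := K.nsmul_index_mem (Pi.single i 1 : ι → ℤ)
      have h8 := K.nsmul_mem h7 t
      rw [← mul_smul, mul_comm, ← ht] at h8
      have h9 : ((p : ℤ) ^ s) = ((p ^ s : ℕ) : ℤ) := by push_cast; rfl
      rw [h9, natCast_zsmul]
      exact h8
    have h10 := K.add_mem (K.zsmul_mem h2 a) (K.zsmul_mem h6 b)
    rw [← mul_smul, ← mul_smul, ← add_smul, hab, one_smul] at h10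
    exact h10
  have hcard := Nat.card_le_card_of_injective _ hinj
  rw [Nat.card_fun, Nat.card_fin] at hcard
  have hfinal : p ^ Nat.card B ≤ p ^ (s * s + s) := hcard.trans hRle
  exact (Nat.pow_le_pow_iff_right hp.one_lt).1 hfinal

end Pool.Agent.NH28.UR.Bad
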