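import Pool.Agent.NH28.UR.Stm

set_option autoImplicit false

/-!
# Project UR: zeros of a binary cubic
-/

namespace Pool.Agent.NH28.UR.Bin

open Finset Pool.Agent.NH28.UR

section

variable {p : ℕ} [Fact p.Prime]

/-- the binary cubic -/
def B (a b c d : ZMod p) (v : ZMod p × ZMod p) : ZMod p :=
  a * v.1 ^ 3 + b * (v.1 ^ 2 * v.2) + c * (v.1 * v.2 ^ 2) + d * v.2 ^ 3

def G1 (a b c : ZMod p) (v : ZMod p × ZMod p) : ZMod p :=
  3 * a * v.1 ^ 2 + 2 * b * v.1 * v.2 + c * v.2 ^ 2

def G2 (b c d : ZMod p) (v : ZMod p × ZMod p) : ZMod p :=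
  b * v.1 ^ 2 + 2 * c * v.1 * v.2 + 3 * d * v.2 ^ 2

def H1 (a b : ZMod p) (v : ZMod p × ZMod p) : ZMod p := 6 * a * v.1 + 2 * b * v.2

def H2 (b c : ZMod p) (v : ZMod p × ZMod p) : ZMod p := 2 * b * v.1 + 2 * c * v.2

def H3 (c d : ZMod p) (v : ZMod p × ZMod p) : ZMod p := 2 * c * v.1 + 6 * d * v.2

/-- exactly double root -/
def DB (a b c d : ZMod p) (v : ZMod p × ZMod p) : Prop :=
  v ≠ 0 ∧ G1 a b c v = 0 ∧ G2 b c d v = 0 ∧ ¬ (H1 a b v = 0 ∧ H2 b c v = 0 ∧ H3 c d v = 0)

noncomputable def nz (a b c d : ZMod p) : ℤ := Nat.card {v : ZMod p × ZMod p // B a b c d v = 0}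

noncomputable def nd (a b c d : ZMod p) : ℤ := Nat.card {v : ZMod p × ZMod p // DB a b c d v}

/-- the claim -/
def Good (a b c d : ZMod p) : Prop := ∃ z e : ℕ, nz a b c d = ((p : ℤ) - 1) * z + 1 ∧
  nd a b c d = ((p : ℤ) - 1) * e ∧
  ((z = 0 ∧ e = 0) ∨ (z = 1 ∧ e = 0) ∨ (z = 2 ∧ e = 1) ∨ (z = 3 ∧ e = 0))

/-! ### linear substitutions -/

/-- the substitution -/
def sb (k l m n : ZMod p) (v : ZMod p × ZMod p) : ZMod p × ZMod p :=
  (k * v.1 + l * v.2, m * v.1 + n * v.2)

noncomputable def sbE (k l m n : ZMod p) (h : k * n - l * m ≠ 0) : ZMod p × ZMod p ≃ ZMod p × ZMod p where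
  toFun := sb k l m n
  invFun v := ((n * v.1 - l * v.2) / (k * n - l * m), (k * v.2 - m * v.1) / (k * n - l * m))
  left_inv := by
    rintro ⟨x, y⟩
    unfold sb
    ext
    · change (n * (k * x + l * y) - l * (m * x + n * y)) / (k * n - l * m) = x
      rw [div_eq_iff h]
      ring
    · change (k * (m * x + n * y) - m * (k * x + l * y)) / (k * n - l * m) = y
      rw [div_eq_iff h]
      ring
  right_inv := by
    rintro ⟨x, y⟩
    unfold sb
    ext
    · change k * ((n * x - l * y) / (k * n - l * m)) + l * ((k * y - m * x) / (k * n - l * m)) = x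
      rw [mul_div_assoc', mul_div_assoc', ← add_div, div_eq_iff h]
      ring
    · change m * ((n * x - l * y) / (k * n - l * m)) + n * ((k * y - m * x) / (k * n - l * m)) = y
      rw [mul_div_assoc', mul_div_assoc', ← add_div, div_eq_iff h]
      ring

variable (a b c d k l m n : ZMod p)

def ta : ZMod p := B a b c d (k, m)
def tb : ZMod p := 3 * a * k ^ 2 * l + b * (k ^ 2 * n + 2 * k * l * m) + c * (2 * k * m * n + l * m ^ 2) +
  3 * d * m ^ 2 * n
def tc : ZMod p := 3 * a * k * l ^ 2 + b * (2 * k * l * n + l ^ 2 * m) + c * (k * n ^ 2 + 2 * l * m * n) +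
  3 * d * m * n ^ 2
def td : ZMod p := B a b c d (l, n)

theorem B_sb (v : ZMod p × ZMod p) :
    B (ta a b c d k m) (tb a b c d k l m n) (tc a b c d k l m n) (td a b c d l n) v =
      B a b c d (sb k l m n v) := by
  unfold B ta tb tc td sb B
  ring

theorem G1_sb (v : ZMod p × ZMod p) :
    G1 (ta a b c d k m) (tb a b c d k l m n) (tc a b c d k l m n) v =
      k * G1 a b c (sb k l m n v) + m * G2 b c d (sb k l m n v) := by
  unfold G1 G2 ta tb tc sb B
  ring

theorem G2_sb (v : ZMod p × ZMod p) :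
    G2 (tb a b c d k l m n) (tc a b c d k l m n) (td a b c d l n) v =
      l * G1 a b c (sb k l m n v) + n * G2 b c d (sb k l m n v) := by
  unfold G1 G2 tb tc td sb B
  ring

theorem H1_sb (v : ZMod p × ZMod p) :
    H1 (ta a b c d k m) (tb a b c d k l m n) v =
      k ^ 2 * H1 a b (sb k l m n v) + 2 * k * m * H2 b c (sb k l m n v) +
        m ^ 2 * H3 c d (sb k l m n v) := by
  unfold H1 H2 H3 ta tb sb B
  ring

theorem H2_sb (v : ZMod p × ZMod p) :
    H2 (tb a b c d k l m n) (tc a b c d k l m n) v =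
      k * l * H1 a b (sb k l m n v) + (k * n + l * m) * H2 b c (sb k l m n v) +
        m * n * H3 c d (sb k l m n v) := by
  unfold H1 H2 H3 tb tc sb
  ring

theorem H3_sb (v : ZMod p × ZMod p) :
    H3 (tc a b c d k l m n) (td a b c d l n) v =
      l ^ 2 * H1 a b (sb k l m n v) + 2 * l * n * H2 b c (sb k l m n v) +
        n ^ 2 * H3 c d (sb k l m n v) := by
  unfold H1 H2 H3 tc td sb B
  ring

variable {k l m n}

theorem lin2 (h : k * n - l * m ≠ 0) (x y : ZMod p) :
    (k * x + m * y = 0 ∧ l * x + n * y = 0) ↔ (x = 0 ∧ y = 0) := by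
  constructor
  · rintro ⟨h1, h2⟩
    constructor
    · refine (mul_eq_zero.1 (?_ : (k * n - l * m) * x = 0)).resolve_left h
      linear_combination n * h1 - m * h2
    · refine (mul_eq_zero.1 (?_ : (k * n - l * m) * y = 0)).resolve_left h
      linear_combination k * h2 - l * h1
  · rintro ⟨rfl, rfl⟩
    simp

theorem lin3 (h : k * n - l * m ≠ 0) (x y z : ZMod p) :
    (k ^ 2 * x + 2 * k * m * y + m ^ 2 * z = 0 ∧ k * l * x + (k * n + l * m) * y + m * n * z = 0 ∧
      l ^ 2 * x + 2 * l * n * y + n ^ 2 * z = 0) ↔ (x = 0 ∧ y = 0 ∧ z = 0) := by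
  constructor
  · rintro ⟨h1, h2, h3⟩
    have e1 := (lin2 h (k * x + m * y) (k * y + m * z)).1
      ⟨by linear_combination h1, by linear_combination h2⟩
    have e2 := (lin2 h (l * x + n * y) (l * y + n * z)).1
      ⟨by linear_combination h2, by linear_combination h3⟩
    have e3 := (lin2 h x y).1 ⟨e1.1, e2.1⟩
    have e4 := (lin2 h y z).1 ⟨e1.2, e2.2⟩
    exact ⟨e3.1, e3.2, e4.2⟩
  · rintro ⟨rfl, rfl, rfl⟩
    simp

theorem good_sb (h : k * n - l * m ≠ 0)
    (hg : Good (ta a b c d k m) (tb a b c d k l m n) (tc a b c d k l m n) (td a b c d l n)) :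
    Good a b c d := by
  have e1 : nz (ta a b c d k m) (tb a b c d k l m n) (tc a b c d k l m n) (td a b c d l n) =
      nz a b c d := by
    unfold nz
    congr 1
    refine Nat.card_congr (Equiv.subtypeEquiv (sbE k l m n h) fun v => ?_)
    rw [B_sb]
    rfl
  have e2 : nd (ta a b c d k m) (tb a b c d k l m n) (tc a b c d k l m n) (td a b c d l n) =
      nd a b c d := by
    unfold nd
    congr 1
    refine Nat.card_congr (Equiv.subtypeEquiv (sbE k l m n h) fun v => ?_)
    unfold DB
    rw [G1_sb, G2_sb, H1_sb a b c d, H2_sb, H3_sb a b c d]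
    have h0 : v ≠ 0 ↔ sb k l m n v ≠ 0 := by
      rw [not_iff_not]
      have h1 : sbE k l m n h v = sb k l m n v := rfl
      have h2 : sbE k l m n h 0 = 0 := by
        change sb k l m n 0 = 0
        unfold sb
        simp
      constructor
      · rintro rfl
        rw [← h1, h2]
      · intro h3
        rw [← h1, ← h2] at h3
        exact (sbE k l m n h).injective h3
    rw [h0]
    refine and_congr Iff.rfl ?_
    have l2 := lin2 h (G1 a b c (sb k l m n v)) (G2 b c d (sb k l m n v))
    have l3 := lin3 h (H1 a b (sb k l m n v)) (H2 b c (sb k l m n v)) (H3 c d (sb k l m n v))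
    constructor
    · rintro ⟨x1, x2, x3⟩
      exact ⟨(l2.1 ⟨x1, x2⟩).1, (l2.1 ⟨x1, x2⟩).2, fun t => x3 (l3.2 t)⟩
    · rintro ⟨x1, x2, x3⟩
      exact ⟨(l2.2 ⟨x1, x2⟩).1, (l2.2 ⟨x1, x2⟩).2, fun t => x3 (l3.1 t)⟩
  unfold Good at hg ⊢
  rwa [e1, e2] at hg

/-! ### counting -/

theorem card_sum (P : ZMod p × ZMod p → Prop) : (Nat.card {v : ZMod p × ZMod p // P v} : ℤ) =
    ∑ x : ZMod p, (Nat.card {y : ZMod p // P (x, y)} : ℤ) := by
  have e : Nat.card {v : ZMod p × ZMod p // P v} = ∑ x : ZMod p, Nat.card {y : ZMod p // P (x, y)} := by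
    rw [← Nat.card_sigma]
    exact Nat.card_congr (Equiv.subtypeProdEquivSigmaSubtype fun x y => P (x, y))
  rw [e]
  push_cast
  rfl

theorem card_all {P : ZMod p → Prop} (h : ∀ y, P y) : (Nat.card {y : ZMod p // P y} : ℤ) = p := by
  rw [Nat.card_congr (Equiv.subtypeUnivEquiv h), Nat.card_zmod]

theorem card_none {P : ZMod p → Prop} (h : ∀ y, ¬ P y) : (Nat.card {y : ZMod p // P y} : ℤ) = 0 := by
  have : Nat.card {y : ZMod p // P y} = 0 := by
    rw [Nat.card_eq_zero]
    exact Or.inl ⟨fun y => h _ y.2⟩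
  rw [this]
  rfl

theorem card_one {P : ZMod p → Prop} (w : ZMod p) (h : ∀ y, P y ↔ y = w) :
    (Nat.card {y : ZMod p // P y} : ℤ) = 1 := by
  rw [Nat.subtype_card {w} fun y => by rw [mem_singleton, h y], card_singleton]
  rfl

theorem card_two {P : ZMod p → Prop} (w w' : ZMod p) (hw : w ≠ w') (h : ∀ y, P y ↔ y = w ∨ y = w') :
    (Nat.card {y : ZMod p // P y} : ℤ) = 2 := by
  rw [Nat.subtype_card {w, w'} fun y => by rw [mem_insert, mem_singleton, h y], card_pair hw]
  rfl

theorem card_ne {P : ZMod p → Prop} (h : ∀ y, P y ↔ y ≠ 0) :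
    (Nat.card {y : ZMod p // P y} : ℤ) = (p : ℤ) - 1 := by
  have h1 : 1 ≤ p := (Fact.out : p.Prime).one_lt.le
  rw [Nat.subtype_card (univ.erase 0) fun y => by rw [mem_erase, h y]; simp,
    card_erase_of_mem (mem_univ _), card_univ, ZMod.card]
  push_cast [h1]
  rfl

theorem sum_two (f : ZMod p → ℤ) (A C : ℤ) (h0 : f 0 = A) (h1 : ∀ x, x ≠ 0 → f x = C) :
    ∑ x : ZMod p, f x = A + ((p : ℤ) - 1) * C := by
  have h2 : ∀ x : ZMod p, f x = C + (if x = 0 then A - C else 0) := by
    intro x
    split_ifs with h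
    · rw [h, h0]
      ring
    · rw [h1 x h, add_zero]
  rw [sum_congr rfl fun x _ => h2 x, sum_add_distrib, sum_ite_eq' univ 0 fun _ => A - C,
    if_pos (mem_univ _), sum_const, card_univ, ZMod.card, nsmul_eq_mul]
  ring

/-- exactly double roots are roots -/
theorem DB.zero (h3 : (3 : ZMod p) ≠ 0) {v : ZMod p × ZMod p} (h : DB a b c d v) :
    B a b c d v = 0 := by
  obtain ⟨-, h1, h2, -⟩ := h
  refine (mul_eq_zero.1 (?_ : 3 * B a b c d v = 0)).resolve_left h3
  unfold G1 at h1
  unfold G2 at h2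
  unfold B
  linear_combination v.1 * h1 + v.2 * h2

/-- no zeros -/
theorem good0 (h3 : (3 : ZMod p) ≠ 0) (h : ∀ v, B a b c d v = 0 → v = 0) : Good a b c d := by
  refine ⟨0, 0, ?_, ?_, Or.inl ⟨rfl, rfl⟩⟩
  · unfold nz
    have e : Nat.card {v : ZMod p × ZMod p // B a b c d v = 0} = 1 := by
      rw [Nat.card_eq_one_iff_unique]
      refine ⟨⟨?_⟩, ⟨⟨0, by unfold B; simp⟩⟩⟩
      rintro ⟨v, hv⟩ ⟨w, hw⟩
      apply Subtype.ext
      change v = w
      rw [h v hv, h w hw]
    rw [e]
    simp
  · unfold nd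
    have e : Nat.card {v : ZMod p × ZMod p // DB a b c d v} = 0 := by
      rw [Nat.card_eq_zero]
      left
      exact ⟨fun v => v.2.1 (h _ (DB.zero a b c d h3 v.2))⟩
    rw [e]
    simp

/-- one zero -/
theorem good1 (h3 : (3 : ZMod p) ≠ 0)
    (h : ∀ v, B 0 b c d v = 0 → v.2 = 0) : Good 0 b c d := by
  refine ⟨1, 0, ?_, ?_, Or.inr (Or.inl ⟨rfl, rfl⟩)⟩
  · unfold nz
    rw [card_sum]
    have e : ∀ x : ZMod p, (Nat.card {y : ZMod p // B 0 b c d (x, y) = 0} : ℤ) = 1 := by
      intro x
      refine card_one 0 fun y => ⟨fun hy => h (x, y) hy, ?_⟩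
      rintro rfl
      unfold B
      simp
    rw [sum_congr rfl fun x _ => e x]
    simp
  · unfold nd
    have e : Nat.card {v : ZMod p × ZMod p // DB 0 b c d v} = 0 := by
      rw [Nat.card_eq_zero]
      left
      refine ⟨?_⟩
      rintro ⟨v, hv⟩
      have hy := h _ (DB.zero 0 b c d h3 hv)
      obtain ⟨hv0, g1, g2, hh⟩ := hv
      have hx : v.1 ≠ 0 := fun hx => hv0 (Prod.ext hx hy)
      unfold G2 at g2
      rw [hy] at g2
      have hb : b = 0 := by
        have : b * v.1 ^ 2 = 0 := by linear_combination g2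
        exact (mul_eq_zero.1 this).resolve_right (pow_ne_zero _ hx)
      have hc : c ≠ 0 := by
        rintro rfl
        apply hh
        unfold H1 H2 H3
        rw [hy, hb]
        simp
      have := h (-d, c) (by
        unfold B
        rw [hb]
        ring)
      exact hc this
    rw [e]
    simp

/-- three zeros -/
theorem good3 (h2 : (2 : ZMod p) ≠ 0) (h3 : (3 : ZMod p) ≠ 0) (hb : b ≠ 0) (hc : c ≠ 0) :
    Good 0 b c 0 := by
  have hB : ∀ x y : ZMod p, B 0 b c 0 (x, y) = x * (y * (b * x + c * y)) := by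
    intro x y
    unfold B
    ring
  refine ⟨3, 0, ?_, ?_, Or.inr (Or.inr (Or.inr ⟨rfl, rfl⟩))⟩
  · unfold nz
    rw [card_sum, sum_two _ (p : ℤ) 2]
    · push_cast
      ring
    · refine card_all fun y => ?_
      rw [hB, zero_mul]
    · intro x hx
      refine card_two 0 (-(b * x) / c) ?_ fun y => ?_
      · exact (div_ne_zero (neg_ne_zero.2 (mul_ne_zero hb hx)) hc).symm
      · rw [hB, mul_eq_zero, mul_eq_zero]
        constructor
        · rintro (h | h | h)
          · exact absurd h hx
          · exact Or.inl h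
          · right
            rw [eq_div_iff hc]
            linear_combination h
        · rintro (h | h)
          · exact Or.inr (Or.inl h)
          · right; right
            rw [h]
            field_simp
            ring
  · unfold nd
    have e : Nat.card {v : ZMod p × ZMod p // DB 0 b c 0 v} = 0 := by
      rw [Nat.card_eq_zero]
      left
      refine ⟨?_⟩
      rintro ⟨⟨x, y⟩, hv⟩
      have h0 := DB.zero 0 b c 0 h3 hv
      obtain ⟨hv0, g1, g2, hh⟩ := hv
      rw [hB] at h0
      unfold G1 at g1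
      unfold G2 at g2
      simp only at g1 g2
      rcases mul_eq_zero.1 h0 with h | h
      · subst h
        have : c * y ^ 2 = 0 := by linear_combination g1
        have hy := pow_eq_zero_iff (two_ne_zero) |>.1 ((mul_eq_zero.1 this).resolve_left hc)
        subst hy
        exact hv0 rfl
      · rcases mul_eq_zero.1 h with h | h
        · subst h
          have : b * x ^ 2 = 0 := by linear_combination g2
          have hx := pow_eq_zero_iff (two_ne_zero) |>.1 ((mul_eq_zero.1 this).resolve_left hb)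
          subst hx
          exact hv0 rfl
        · have e1 : y * (b * x) = 0 := by linear_combination g1 - y * h
          have e2 : x * (c * y) = 0 := by linear_combination g2 - x * h
          rcases mul_eq_zero.1 e1 with h5 | h5
          · subst h5
            have hx : x = 0 := by
              have : b * x = 0 := by linear_combination h
              exact (mul_eq_zero.1 this).resolve_left hb
            subst hx
            exact hv0 rfl
          · have hx := (mul_eq_zero.1 h5).resolve_left hb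
            subst hx
            have hy : y = 0 := by
              have : c * y = 0 := by linear_combination h
              exact (mul_eq_zero.1 this).resolve_left hc
            subst hy
            exact hv0 rfl
    rw [e]
    simp

/-- two zeros, the first is double -/
theorem good2 (h2 : (2 : ZMod p) ≠ 0) (hc : c ≠ 0) : Good 0 0 c 0 := by
  have hB : ∀ x y : ZMod p, B 0 0 c 0 (x, y) = x * (c * y ^ 2) := by
    intro x y
    unfold B
    ring
  refine ⟨2, 1, ?_, ?_, Or.inr (Or.inr (Or.inl ⟨rfl, rfl⟩))⟩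
  · unfold nz
    rw [card_sum, sum_two _ (p : ℤ) 1]
    · push_cast
      ring
    · refine card_all fun y => ?_
      rw [hB, zero_mul]
    · intro x hx
      refine card_one 0 fun y => ?_
      rw [hB, mul_eq_zero, mul_eq_zero]
      constructor
      · rintro (h | h | h)
        · exact absurd h hx
        · exact absurd h hc
        · exact pow_eq_zero_iff (two_ne_zero) |>.1 h
      · rintro rfl
        right; right
        ring
  · unfold nd
    rw [card_sum, sum_two _ 0 1]
    · push_cast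
      ring
    · refine card_none fun y hv => ?_
      obtain ⟨hv0, g1, g2, hh⟩ := hv
      unfold G1 at g1
      simp only at g1
      have : c * y ^ 2 = 0 := by linear_combination g1
      have hy := pow_eq_zero_iff (two_ne_zero) |>.1 ((mul_eq_zero.1 this).resolve_left hc)
      subst hy
      exact hv0 rfl
    · intro x hx
      refine card_one 0 fun y => ⟨?_, ?_⟩
      · rintro ⟨hv0, g1, g2, hh⟩
        unfold G1 at g1
        simp only at g1
        have : c * y ^ 2 = 0 := by linear_combination g1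
        exact pow_eq_zero_iff (two_ne_zero) |>.1 ((mul_eq_zero.1 this).resolve_left hc)
      · rintro rfl
        refine ⟨fun h => hx (congrArg Prod.fst h), ?_, ?_, ?_⟩
        · unfold G1
          simp
        · unfold G2
          simp
        · rintro ⟨-, -, h⟩
          unfold H3 at h
          simp only [mul_zero, add_zero] at h
          exact mul_ne_zero (mul_ne_zero h2 hc) hx h

/-- two zeros, the second is double -/
theorem good2' (h2 : (2 : ZMod p) ≠ 0) (hb : b ≠ 0) : Good 0 b 0 0 := by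
  refine good_sb 0 b 0 0 (k := 0) (l := 1) (m := 1) (n := 0) (by simp) ?_
  have e1 : ta 0 b 0 0 0 1 = 0 := by
    unfold ta B
    ring
  have e2 : tb 0 b 0 0 0 1 1 0 = 0 := by
    unfold tb
    ring
  have e3 : tc 0 b 0 0 0 1 1 0 = b := by
    unfold tc
    ring
  have e4 : td 0 b 0 0 1 0 = 0 := by
    unfold td B
    ring
  rw [e1, e2, e3, e4]
  exact good2 b h2 hb

theorem good_all (h2 : (2 : ZMod p) ≠ 0) (h3 : (3 : ZMod p) ≠ 0)
    (h : ¬ (a = 0 ∧ b = 0 ∧ c = 0 ∧ d = 0)) : Good a b c d := by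
  by_cases h0 : ∀ v, B a b c d v = 0 → v = 0
  · exact good0 a b c d h3 h0
  push Not at h0
  obtain ⟨⟨x, y⟩, hv, hv0⟩ := h0
  -- move the zero to `(1, 0)`
  obtain ⟨l, n, hdet⟩ : ∃ l n : ZMod p, x * n - l * y ≠ 0 := by
    by_cases hx : x = 0
    · refine ⟨1, 0, ?_⟩
      rw [hx]
      intro h1
      apply hv0
      rw [hx]
      have : y = 0 := by linear_combination -h1
      rw [this]
      rfl
    · exact ⟨0, 1, by simpa using hx⟩
  refine good_sb a b c d (k := x) (l := l) (m := y) (n := n) hdet ?_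
  have ea : ta a b c d x y = 0 := hv
  rw [ea]
  have hne : ¬ (tb a b c d x l y n = 0 ∧ tc a b c d x l y n = 0 ∧ td a b c d l n = 0) := by
    rintro ⟨eb, ec, ed⟩
    have hz : ∀ v, B a b c d v = 0 := by
      intro v
      have h1 := B_sb a b c d x l y n ((sbE x l y n hdet).symm v)
      rw [ea, eb, ec, ed] at h1
      have h4 : sb x l y n ((sbE x l y n hdet).symm v) = v := (sbE x l y n hdet).apply_symm_apply v
      rw [h4] at h1
      rw [← h1]
      unfold B
      ring
    have z1 := hz (1, 0)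
    have z2 := hz (0, 1)
    have z3 := hz (1, 1)
    have z4 := hz (1, -1)
    unfold B at z1 z2 z3 z4
    simp only at z1 z2 z3 z4
    have a0 : a = 0 := by linear_combination z1
    have d0 : d = 0 := by linear_combination z2
    have c0 : 2 * c = 0 := by linear_combination z3 + z4 - 2 * a0
    have c0' := (mul_eq_zero.1 c0).resolve_left h2
    have b0 : b = 0 := by linear_combination z3 - a0 - d0 - c0'
    exact h ⟨a0, b0, c0', d0⟩
  clear hv hv0 ea h
  generalize tb a b c d x l y n = b' at hne ⊢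
  generalize tc a b c d x l y n = c' at hne ⊢
  generalize td a b c d l n = d' at hne ⊢
  clear hdet
  by_cases h1 : ∀ v, B 0 b' c' d' v = 0 → v.2 = 0
  · exact good1 b' c' d' h3 h1
  push Not at h1
  obtain ⟨⟨x', y'⟩, hv, hy⟩ := h1
  refine good_sb 0 b' c' d' (k := 1) (l := x') (m := 0) (n := y') (by simpa using hy) ?_
  have e1 : ta 0 b' c' d' 1 0 = 0 := by
    unfold ta B
    ring
  have e4 : td 0 b' c' d' x' y' = 0 := hv
  have e2 : tb 0 b' c' d' 1 x' 0 y' = b' * y' := by
    unfold tb
    ring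
  have e3 : tc 0 b' c' d' 1 x' 0 y' = b' * (2 * x' * y') + c' * y' ^ 2 := by
    unfold tc
    ring
  rw [e1, e2, e3, e4]
  by_cases hb : b' = 0
  · rw [hb, zero_mul, zero_mul, zero_add]
    refine good2 _ h2 (mul_ne_zero ?_ (pow_ne_zero _ hy))
    intro hc
    apply hne
    refine ⟨hb, hc, ?_⟩
    unfold B at hv
    simp only at hv
    rw [hb, hc] at hv
    have : d' * y' ^ 3 = 0 := by linear_combination hv
    exact (mul_eq_zero.1 this).resolve_right (pow_ne_zero _ hy)
  · by_cases hc : b' * (2 * x' * y') + c' * y' ^ 2 = 0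
    · rw [hc]
      exact good2' _ h2 (mul_ne_zero hb hy)
    · exact good3 _ _ h2 h3 (mul_ne_zero hb hy) hc

end

/-- zeros of a nonzero binary cubic -/
theorem bin : S_BIN := by
  intro p _ hp c hc
  have hpp : p.Prime := Fact.out
  have h2 : (2 : ZMod p) ≠ 0 := by
    intro h
    have h' : ((2 : ℕ) : ZMod p) = 0 := by exact_mod_cast h
    rw [ZMod.natCast_eq_zero_iff] at h'
    have := Nat.le_of_dvd (by norm_num) h'
    omega
  have h3 : (3 : ZMod p) ≠ 0 := by
    intro h
    have h' : ((3 : ℕ) : ZMod p) = 0 := by exact_mod_cast h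
    rw [ZMod.natCast_eq_zero_iff] at h'
    have := Nat.le_of_dvd (by norm_num) h'
    omega
  obtain ⟨z, e, hz, he, hze⟩ := good_all (c 0) (c 1) (c 3) (c 6) h2 h3 hc
  have hp1 : ((p : ℚ) - 1) ≠ 0 := by
    have : (5 : ℚ) ≤ p := by exact_mod_cast hp
    intro h
    linarith
  have e1 : zP c = z := by
    unfold zP
    have e2 : Nat.card {v : ZMod p × ZMod p // T c v.1 v.2 0 = 0} =
        Nat.card {v : ZMod p × ZMod p // B (c 0) (c 1) (c 3) (c 6) v = 0} := by
      refine Nat.card_congr (Equiv.subtypeEquivRight fun v => ?_)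
      have : T c v.1 v.2 0 = B (c 0) (c 1) (c 3) (c 6) v := by
        unfold T B
        ring
      rw [this]
    rw [e2]
    unfold nz at hz
    have hz' : ((Nat.card {v : ZMod p × ZMod p // B (c 0) (c 1) (c 3) (c 6) v = 0} : ℕ) : ℚ) =
        ((p : ℚ) - 1) * z + 1 := by exact_mod_cast hz
    rw [hz']
    field_simp
    ring
  have e3 : (Nat.card {v : ZMod p × ZMod p // Dbl c v} : ℚ) = ((p : ℚ) - 1) * e := by
    unfold nd at he
    have e2 : Nat.card {v : ZMod p × ZMod p // Dbl c v} =
        Nat.card {v : ZMod p × ZMod p // DB (c 0) (c 1) (c 3) (c 6) v} := by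
      refine Nat.card_congr (Equiv.subtypeEquivRight fun v => ?_)
      exact Iff.rfl
    rw [e2]
    exact_mod_cast he
  rw [e3, e1]
  have hff3 : ff (z : ℚ) 3 = (z : ℚ) * (z - 1) * (z - 2) := by
    unfold ff
    rw [prod_range_succ, prod_range_succ, prod_range_one]
    push_cast
    ring
  have hff2 : ff (z : ℚ) 2 = (z : ℚ) * (z - 1) := by
    unfold ff
    rw [prod_range_succ, prod_range_one]
    push_cast
    ring
  rw [hff3, hff2]
  rcases hze with ⟨rfl, rfl⟩ | ⟨rfl, rfl⟩ | ⟨rfl, rfl⟩ | ⟨rfl, rfl⟩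
  · refine ⟨Or.inl (by norm_num), ?_⟩
    push_cast
    ring
  · refine ⟨Or.inr (Or.inl (by norm_num)), ?_⟩
    push_cast
    ring
  · refine ⟨Or.inr (Or.inr (Or.inl (by norm_num))), ?_⟩
    push_cast
    ring
  · refine ⟨Or.inr (Or.inr (Or.inr (by norm_num))), ?_⟩
    push_cast
    ring

end Pool.Agent.NH28.UR.Bin
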