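import Pool.Agent.NH28.UR.Stm

set_option autoImplicit false

/-!
# Project UR, job UR-C2: conics through at most six points (helper90)
-/

namespace Pool.Agent.NH28.UR.C2

open Finset
open Pool.Agent.NH28.UR

section field

variable {p : ℕ} [Fact p.Prime]

/-- the product of two affine functions -/
def pr (l l' : Fin 3 → ZMod p) : Fin 6 → ZMod p :=
  ![l 0 * l' 0, l 0 * l' 1 + l 1 * l' 0, l 0 * l' 2 + l 2 * l' 0, l 1 * l' 1,
    l 1 * l' 2 + l 2 * l' 1, l 2 * l' 2]

theorem Q2_pr (l l' : Fin 3 → ZMod p) (v : ZMod p × ZMod p) :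
    Q2 (pr l l') v = Q1 l v * Q1 l' v := by
  simp only [Q2, Q1, pr, Matrix.cons_val]
  ring

/-- two points lie on a line -/
theorem exists_line (u u' : ZMod p × ZMod p) : ∃ L : Lin p, onL L u ∧ onL L u' := by
  by_cases h : u.1 = u'.1
  · exact ⟨Sum.inr u.1, rfl, h.symm⟩
  · have h' : u'.1 - u.1 ≠ 0 := sub_ne_zero.2 (Ne.symm h)
    refine ⟨Sum.inl ((u'.2 - u.2) / (u'.1 - u.1), u.2 - (u'.2 - u.2) / (u'.1 - u.1) * u.1), ?_, ?_⟩
    · change u.2 = (u'.2 - u.2) / (u'.1 - u.1) * u.1 + (u.2 - (u'.2 - u.2) / (u'.1 - u.1) * u.1)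
      ring
    · change u'.2 = (u'.2 - u.2) / (u'.1 - u.1) * u'.1 +
        (u.2 - (u'.2 - u.2) / (u'.1 - u.1) * u.1)
      field_simp
      ring

theorem sep2 (u u' v : ZMod p × ZMod p) (huu : u ≠ u')
    (h : ∀ L : Lin p, onL L u → onL L u' → ¬ onL L v) :
    ∃ l : Fin 3 → ZMod p, Q1 l u = 0 ∧ Q1 l u' = 0 ∧ Q1 l v ≠ 0 := by
  refine ⟨![-(u'.2 - u.2), u'.1 - u.1, (u'.2 - u.2) * u.1 - (u'.1 - u.1) * u.2], ?_, ?_, ?_⟩
  · simp only [Q1, Matrix.cons_val]; ring
  · simp only [Q1, Matrix.cons_val]; ring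
  · simp only [Q1, Matrix.cons_val]
    intro h0
    by_cases h1 : u.1 = u'.1
    · have h2 : u'.2 - u.2 ≠ 0 := by
        intro h3
        exact huu (Prod.ext h1 (sub_eq_zero.1 h3).symm)
      have h3 : v.1 = u.1 := by
        have h4 : (u'.2 - u.2) * (v.1 - u.1) = 0 := by
          rw [← h1, sub_self] at h0
          linear_combination -h0
        exact sub_eq_zero.1 ((mul_eq_zero.1 h4).resolve_left h2)
      exact h (Sum.inr u.1) rfl h1.symm h3
    · have h' : u'.1 - u.1 ≠ 0 := sub_ne_zero.2 (Ne.symm h1)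
      refine h (Sum.inl ((u'.2 - u.2) / (u'.1 - u.1),
        u.2 - (u'.2 - u.2) / (u'.1 - u.1) * u.1)) ?_ ?_ ?_
      · change u.2 = (u'.2 - u.2) / (u'.1 - u.1) * u.1 +
          (u.2 - (u'.2 - u.2) / (u'.1 - u.1) * u.1)
        ring
      · change u'.2 = (u'.2 - u.2) / (u'.1 - u.1) * u'.1 +
          (u.2 - (u'.2 - u.2) / (u'.1 - u.1) * u.1)
        field_simp
        ring
      · change v.2 = (u'.2 - u.2) / (u'.1 - u.1) * v.1 +
          (u.2 - (u'.2 - u.2) / (u'.1 - u.1) * u.1)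
        have e : v.2 - ((u'.2 - u.2) / (u'.1 - u.1) * v.1 +
          (u.2 - (u'.2 - u.2) / (u'.1 - u.1) * u.1)) = (-(u'.2 - u.2) * v.1 +
            (u'.1 - u.1) * v.2 + ((u'.2 - u.2) * u.1 - (u'.1 - u.1) * u.2)) / (u'.1 - u.1) := by
          field_simp
          ring
        rw [h0, zero_div] at e
        exact sub_eq_zero.1 e

theorem sep1 (u v : ZMod p × ZMod p) (h : u ≠ v) :
    ∃ l : Fin 3 → ZMod p, Q1 l u = 0 ∧ Q1 l v ≠ 0 := by
  by_cases h1 : u.1 = v.1
  · refine ⟨![0, 1, -u.2], ?_, ?_⟩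
    · simp only [Q1, Matrix.cons_val]; ring
    · simp only [Q1, Matrix.cons_val]
      intro h2
      refine h (Prod.ext h1 ?_)
      linear_combination -h2
  · refine ⟨![1, 0, -u.1], ?_, ?_⟩
    · simp only [Q1, Matrix.cons_val]; ring
    · simp only [Q1, Matrix.cons_val]
      intro h2
      refine h1 ?_
      linear_combination -h2

theorem sepS (S : Finset (ZMod p × ZMod p)) (v : ZMod p × ZMod p) (hS : #S ≤ 2) (hv : v ∉ S)
    (hcol : ∀ L : Lin p, ∀ u ∈ S, ∀ u' ∈ S, u ≠ u' → onL L u → onL L u' → ¬ onL L v) :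
    ∃ l : Fin 3 → ZMod p, (∀ u ∈ S, Q1 l u = 0) ∧ Q1 l v ≠ 0 := by
  rcases Nat.lt_or_ge #S 2 with h | h
  · rcases Nat.lt_or_ge #S 1 with h0 | h0
    · refine ⟨![0, 0, 1], fun u hu => ?_, ?_⟩
      · rw [Nat.lt_one_iff, Finset.card_eq_zero] at h0
        rw [h0] at hu
        simp at hu
      · simp only [Q1, Matrix.cons_val]
        simp
    · obtain ⟨u, rfl⟩ := Finset.card_eq_one.1 (show #S = 1 by omega)
      obtain ⟨l, h1, h2⟩ := sep1 u v (fun h => hv (by rw [h]; exact Finset.mem_singleton_self _))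
      refine ⟨l, fun w hw => ?_, h2⟩
      rw [Finset.mem_singleton.1 hw]
      exact h1
  · obtain ⟨u, u', huu, rfl⟩ := Finset.card_eq_two.1 (show #S = 2 by omega)
    obtain ⟨l, h1, h2, h3⟩ := sep2 u u' v huu
      (fun L => hcol L u (by simp) u' (by simp) huu)
    refine ⟨l, fun w hw => ?_, h3⟩
    rcases Finset.mem_insert.1 hw with rfl | hw
    · exact h1
    · rw [Finset.mem_singleton.1 hw]
      exact h2

theorem sep4 (S : Finset (ZMod p × ZMod p)) (v : ZMod p × ZMod p) (hS : #S ≤ 4) (hv : v ∉ S)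
    (hcol : ∀ L : Lin p, ∀ u ∈ S, ∀ u' ∈ S, u ≠ u' → onL L u → onL L u' → ¬ onL L v) :
    ∃ q : Fin 6 → ZMod p, (∀ u ∈ S, Q2 q u = 0) ∧ Q2 q v ≠ 0 := by
  obtain ⟨S1, hS1, hc1⟩ := Finset.exists_subset_card_eq (show min #S 2 ≤ #S from min_le_left _ _)
  obtain ⟨l1, h1, h1v⟩ := sepS S1 v (by omega) (fun h => hv (hS1 h))
    (fun L u hu u' hu' => hcol L u (hS1 hu) u' (hS1 hu'))
  obtain ⟨l2, h2, h2v⟩ := sepS (S \ S1) v
    (by rw [Finset.card_sdiff_of_subset hS1]; omega) (fun h => hv (Finset.sdiff_subset h))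
    (fun L u hu u' hu' => hcol L u (Finset.sdiff_subset hu) u' (Finset.sdiff_subset hu'))
  refine ⟨pr l1 l2, fun u hu => ?_, ?_⟩
  · rw [Q2_pr]
    by_cases h : u ∈ S1
    · rw [h1 u h, zero_mul]
    · rw [h2 u (Finset.mem_sdiff.2 ⟨hu, h⟩), mul_zero]
  · rw [Q2_pr]
    exact mul_ne_zero h1v h2v

theorem nL_three {L : Lin p} {Δ : Set (ZMod p × ZMod p)} {u u' v : ZMod p × ZMod p} (hu : u ∈ Δ)
    (hu' : u' ∈ Δ) (hv : v ∈ Δ) (h1 : u ≠ u') (h2 : u ≠ v) (h3 : u' ≠ v) (hLu : onL L u)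
    (hLu' : onL L u') (hLv : onL L v) : 3 ≤ nL L Δ := by
  classical
  have hc : #({u, u', v} : Finset (ZMod p × ZMod p)) = 3 :=
    Finset.card_eq_three.2 ⟨u, u', v, h1, h2, h3, rfl⟩
  have hsub : ((({u, u', v} : Finset (ZMod p × ZMod p)) : Set (ZMod p × ZMod p))) ⊆
      {w | w ∈ Δ ∧ onL L w} := by
    intro w hw
    rw [Finset.mem_coe, Finset.mem_insert, Finset.mem_insert, Finset.mem_singleton] at hw
    rcases hw with rfl | rfl | rfl
    · exact ⟨hu, hLu⟩
    · exact ⟨hu', hLu'⟩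
    · exact ⟨hv, hLv⟩
  have h4 := Set.ncard_le_ncard hsub (Set.toFinite _)
  rw [Set.ncard_coe_finset, hc] at h4
  exact h4

/-- evaluation -/
def ev (Δ : Set (ZMod p × ZMod p)) : (Fin 6 → ZMod p) →ₗ[ZMod p] (Δ → ZMod p) where
  toFun q v := Q2 q v.1
  map_add' q q' := by
    funext v
    simp only [Q2, Pi.add_apply]
    ring
  map_smul' c q := by
    funext v
    simp only [Q2, Pi.smul_apply, smul_eq_mul, RingHom.id_apply]
    ring

theorem Q2_sum {ι : Type} (S : Finset ι) (f : ι → Fin 6 → ZMod p) (v : ZMod p × ZMod p) :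
    Q2 (∑ i ∈ S, f i) v = ∑ i ∈ S, Q2 (f i) v := by
  simp only [Q2, Finset.sum_apply, Finset.sum_mul, Finset.sum_add_distrib]

theorem gen (Δ : Set (ZMod p × ZMod p)) (hm : Nat.card Δ ≤ 5) (hL : ∀ L, nL L Δ ≤ 2) :
    w2 Δ = p ^ (6 - Nat.card Δ) := by
  classical
  have hsep : ∀ v : Δ, ∃ q : Fin 6 → ZMod p, (∀ u : Δ, u ≠ v → Q2 q u.1 = 0) ∧ Q2 q v.1 ≠ 0 := by
    intro v
    have hfin : Δ.Finite := Set.toFinite Δ
    obtain ⟨q, h1, h2⟩ := sep4 (hfin.toFinset.erase v.1) v.1 (by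
      rw [Finset.card_erase_of_mem (by rw [Set.Finite.mem_toFinset]; exact v.2)]
      have h3 : hfin.toFinset.card = Nat.card Δ := (Set.ncard_eq_toFinset_card Δ hfin).symm
      omega) (Finset.notMem_erase _ _) (by
      intro L u hu u' hu' huu h1 h2 h3
      rw [Finset.mem_erase, Set.Finite.mem_toFinset] at hu hu'
      have := nL_three hu.2 hu'.2 v.2 huu hu.1 hu'.1 h1 h2 h3
      have := hL L
      omega)
    refine ⟨q, fun u hu => h1 u.1 ?_, h2⟩
    rw [Finset.mem_erase, Set.Finite.mem_toFinset]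
    exact ⟨fun h => hu (Subtype.ext h), u.2⟩
  choose q hq1 hq2 using hsep
  have hsurj : Function.Surjective (ev Δ) := by
    intro f
    have : Fintype Δ := Fintype.ofFinite Δ
    refine ⟨∑ v, (f v / Q2 (q v) v.1) • q v, ?_⟩
    funext u
    change Q2 (∑ v, (f v / Q2 (q v) v.1) • q v) u.1 = f u
    rw [Q2_sum, Finset.sum_eq_single u]
    · have h1 : Q2 ((f u / Q2 (q u) u.1) • q u) u.1 = (f u / Q2 (q u) u.1) * Q2 (q u) u.1 := by
        simp only [Q2, Pi.smul_apply, smul_eq_mul]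
        ring
      rw [h1, div_mul_cancel₀ _ (hq2 u)]
    · intro v _ hv
      have h1 : Q2 ((f v / Q2 (q v) v.1) • q v) u.1 = (f v / Q2 (q v) v.1) * Q2 (q v) u.1 := by
        simp only [Q2, Pi.smul_apply, smul_eq_mul]
        ring
      rw [h1, hq1 v u (Ne.symm hv), mul_zero]
    · intro h
      exact absurd (Finset.mem_univ u) h
  have : Fintype Δ := Fintype.ofFinite Δ
  have h1 := LinearMap.finrank_range_add_finrank_ker (ev Δ)
  rw [LinearMap.range_eq_top.2 hsurj, finrank_top, Module.finrank_fintype_fun_eq_card,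
    Module.finrank_fintype_fun_eq_card, Fintype.card_fin, ← Nat.card_eq_fintype_card] at h1
  have h2 : w2 Δ = Nat.card (LinearMap.ker (ev Δ)) := by
    unfold w2
    refine Nat.card_congr (Equiv.subtypeEquivRight fun c => ?_)
    rw [LinearMap.mem_ker]
    constructor
    · intro h
      funext v
      exact h v.1 v.2
    · intro h v hv
      exact congrFun h ⟨v, hv⟩
  rw [h2, Module.natCard_eq_pow_finrank (K := ZMod p), Nat.card_zmod]
  congr 1
  omega

theorem card_split (L : Lin p) (Δ : Set (ZMod p × ZMod p)) :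
    nL L Δ + Nat.card (offL L Δ) = Nat.card Δ :=
  Set.ncard_inter_add_ncard_sdiff_eq_ncard Δ {v | onL L v} (Set.toFinite _)

end field

end Pool.Agent.NH28.UR.C2

namespace Pool.Agent.NH28.UR.C2

open Finset
open Pool.Agent.NH28.UR

theorem c2Thm (hR : S_RED) (hW : S_W1) : S_C2 := by
  intro p _ hp Δ
  obtain ⟨w0, w1', w1c, w1n⟩ := hW p hp
  have hred : ∀ L : Lin p, 3 ≤ nL L Δ → w2 Δ = w1 (offL L Δ) := fun L => (hR p hp L Δ).2
  have hp1 : 1 ≤ p := by omega
  -- the values by the number of points off the line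
  have off0 : ∀ L : Lin p, Nat.card (offL L Δ) = 0 → w1 (offL L Δ) = p ^ 3 := by
    intro L h
    have h1 : offL L Δ = ∅ := (Set.ncard_eq_zero (Set.toFinite _)).1 h
    rw [h1, w0]
  have off1 : ∀ L : Lin p, Nat.card (offL L Δ) = 1 → w1 (offL L Δ) = p ^ 2 := by
    intro L h
    obtain ⟨v, hv⟩ := Set.ncard_eq_one.1 (show (offL L Δ).ncard = 1 from h)
    rw [hv, w1']
  have off2 : ∀ L : Lin p, Nat.card (offL L Δ) = 2 → w1 (offL L Δ) = p := by
    intro L h
    obtain ⟨u, v, -, huv⟩ := Set.ncard_eq_two.1 (show (offL L Δ).ncard = 2 from h)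
    refine w1c _ h.ge ?_
    obtain ⟨L', h1, h2⟩ := exists_line u v
    refine ⟨L', fun w hw => ?_⟩
    rw [huv] at hw
    rcases hw with rfl | hw
    · exact h1
    · rw [Set.mem_singleton_iff.1 hw]
      exact h2
  have off3 : ∀ L : Lin p, 2 ≤ Nat.card (offL L Δ) → w1 (offL L Δ) ≤ p := by
    intro L h
    by_cases hc : ∃ L' : Lin p, ∀ v ∈ offL L Δ, onL L' v
    · exact (w1c _ h hc).le
    · rw [w1n _ hc]
      exact hp1
  have hsp := fun L => card_split L Δ
  refine ⟨?_, ?_, ?_, ?_⟩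
  · intro hm
    by_cases h : ∃ L, 3 ≤ nL L Δ
    · obtain ⟨L, hL⟩ := h
      have h1 := hsp L
      rw [hred L hL, off0 L (by omega), show 6 - Nat.card Δ = 3 by omega]
    · push Not at h
      exact gen Δ (by omega) fun L => Nat.lt_succ_iff.1 (h L)
  · intro hm
    refine ⟨?_, ?_⟩
    · rintro ⟨L, hL⟩
      have h1 := hsp L
      rw [hred L (by omega), off0 L (by omega)]
    · intro hall
      by_cases h : ∃ L, 3 ≤ nL L Δ
      · obtain ⟨L, hL⟩ := h
        have h1 := hsp L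
        have h2 := hall L
        rw [hred L hL, off1 L (by omega)]
      · push Not at h
        rw [gen Δ (by omega) fun L => Nat.lt_succ_iff.1 (h L), hm]
  · intro hm
    refine ⟨?_, ?_, ?_⟩
    · rintro ⟨L, hL⟩
      have h1 := hsp L
      rw [hred L (by omega), off0 L (by omega)]
    · rintro ⟨L, hL⟩
      have h1 := hsp L
      rw [hred L (by omega), off1 L (by omega)]
    · intro hall
      by_cases h : ∃ L, 3 ≤ nL L Δ
      · obtain ⟨L, hL⟩ := h
        have h1 := hsp L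
        have h2 := hall L
        rw [hred L hL, off2 L (by omega)]
      · push Not at h
        rw [gen Δ (by omega) fun L => Nat.lt_succ_iff.1 (h L), hm]
        exact pow_one p
  · intro hm hall
    by_cases h : ∃ L, 3 ≤ nL L Δ
    · obtain ⟨L, hL⟩ := h
      have h1 := hsp L
      have h2 := hall L
      rw [hred L hL]
      exact off3 L (by omega)
    · push Not at h
      obtain ⟨Δ', hsub, hc⟩ := Set.exists_subset_card_eq (s := Δ) (n := 5) (by
        change 5 ≤ Nat.card Δ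
        omega)
      have h3 : w2 Δ' = p := by
        rw [gen Δ' (show Nat.card Δ' ≤ 5 from hc.le) fun L => ?_,
          show Nat.card Δ' = 5 from hc]
        · exact pow_one p
        · have h4 : nL L Δ' ≤ nL L Δ :=
            Set.ncard_le_ncard (s := {v | v ∈ Δ' ∧ onL L v}) (t := {v | v ∈ Δ ∧ onL L v})
              (fun v hv => ⟨hsub hv.1, hv.2⟩) (Set.toFinite _)
          have := h L
          omega
      refine le_trans (b := w2 Δ') ?_ h3.le
      exact Set.ncard_le_ncard (s := {q : Fin 6 → ZMod p | ∀ v ∈ Δ, Q2 q v = 0})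
        (t := {q : Fin 6 → ZMod p | ∀ v ∈ Δ', Q2 q v = 0})
        (fun q hq v hv => hq v (hsub hv)) (Set.toFinite _)

end Pool.Agent.NH28.UR.C2
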