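import Pool.Agent.NH28.UR.Stm
import Pool.Agent.NH28.UR.Rat

set_option autoImplicit false

/-! # UR-CNT4 (by helper40): ten points, every line has at most four of them -/

namespace Pool.Agent.NH28.UR.Cnt4

open Pool.Agent.NH28.UR Finset

open scoped Classical

section
variable {p : ℕ} [Fact p.Prime]

/-- the indicator of a proposition -/
noncomputable def ind (a : Prop) : ℕ := if a then 1 else 0

omit [Fact p.Prime] in
lemma ind_pos {a : Prop} (h : a) : ind a = 1 := if_pos h

omit [Fact p.Prime] in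
lemma ind_neg {a : Prop} (h : ¬ a) : ind a = 0 := if_neg h

omit [Fact p.Prime] in
lemma card_sum {α : Type} [Fintype α] (R : α → Prop) :
    Nat.card {x // R x} = ∑ x, ind (R x) := by
  unfold ind
  rw [Nat.card_eq_fintype_card, Fintype.card_subtype, Finset.card_filter]

lemma card_iff {α : Type} {A B : α → Prop} (h : ∀ x, A x ↔ B x) :
    Nat.card {x // A x} = Nat.card {x // B x} := by
  have e : A = B := funext fun x => propext (h x)
  rw [e]

lemma card_range_sub {P : Fin 10 → ZMod p × ZMod p} (hP : Function.Injective P)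
    (R : ZMod p × ZMod p → Prop) :
    Nat.card {v // v ∈ Set.range P ∧ R v} = Nat.card {k // R (P k)} := by
  symm
  refine Nat.card_congr (Equiv.ofBijective (fun k : {k // R (P k)} =>
    (⟨P k.1, ⟨k.1, rfl⟩, k.2⟩ : {v // v ∈ Set.range P ∧ R v})) ⟨?_, ?_⟩)
  · intro k k' h
    exact Subtype.ext (hP (congrArg Subtype.val h))
  · rintro ⟨v, ⟨k, rfl⟩, hv⟩
    exact ⟨⟨k, hv⟩, rfl⟩

lemma nL_eq (L : Lin p) (Γ : Set (ZMod p × ZMod p)) :
    nL L Γ = ({v | v ∈ Γ ∧ onL L v} : Set (ZMod p × ZMod p)).ncard :=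
  Nat.card_coe_set_eq _

lemma nQ_eq (q : Fin 6 → ZMod p) (Γ : Set (ZMod p × ZMod p)) :
    nQ q Γ = ({v | v ∈ Γ ∧ Q2 q v = 0} : Set (ZMod p × ZMod p)).ncard :=
  Nat.card_coe_set_eq _

lemma nL_mono (L : Lin p) {Γ Γ' : Set (ZMod p × ZMod p)} (h : Γ ⊆ Γ') : nL L Γ ≤ nL L Γ' := by
  rw [nL_eq, nL_eq]
  exact Set.ncard_le_ncard (fun v hv => ⟨h hv.1, hv.2⟩) (Set.toFinite _)

lemma split_card (P : ZMod p × ZMod p → Prop) (Γ : Set (ZMod p × ZMod p)) :
    ({v | v ∈ Γ ∧ P v} : Set (ZMod p × ZMod p)).ncard +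
      ({v | v ∈ Γ ∧ ¬ P v} : Set (ZMod p × ZMod p)).ncard = Γ.ncard := by
  rw [← Set.ncard_union_eq _ (Set.toFinite _) (Set.toFinite _)]
  · congr 1
    ext v
    simp only [Set.mem_union, Set.mem_ofPred_eq]
    tauto
  · rw [Set.disjoint_left]
    rintro v ⟨_, h1⟩ ⟨_, h2⟩
    exact h2 h1

lemma nI_eq {P : Fin 10 → ZMod p × ZMod p} (hP : Function.Injective P) (L : Lin p) :
    nI L P = nL L (Set.range P) :=
  (card_range_sub hP (onL L)).symm

lemma nQ_range {P : Fin 10 → ZMod p × ZMod p} (hP : Function.Injective P)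
    (q : Fin 6 → ZMod p) :
    nQ q (Set.range P) = Nat.card {k // Q2 q (P k) = 0} :=
  card_range_sub hP (fun v => Q2 q v = 0)

lemma card_rg {P : Fin 10 → ZMod p × ZMod p} (hP : Function.Injective P) :
    Nat.card (Set.range P) = 10 := by
  rw [Nat.card_range_of_injective hP, Nat.card_eq_fintype_card, Fintype.card_fin]

lemma nQ_le {Γ : Set (ZMod p × ZMod p)} (hΓ : Nat.card Γ = 10) (q : Fin 6 → ZMod p) :
    nQ q Γ ≤ 10 := by
  rw [nQ_eq, ← hΓ, Nat.card_coe_set_eq]
  exact Set.ncard_le_ncard (fun v hv => hv.1) (Set.toFinite _)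

/-- the characterisation -/
lemma char (hR : S_RED) (hC : S_C2) (hE : S_CONE) (h5 : 5 ≤ p) {P : Fin 10 → ZMod p × ZMod p}
    (hP : Function.Injective P) {i : ℕ} (hi : 2 ≤ i) :
    ((∀ L, nI L P ≤ 4) ∧ w3 (Set.range P) = p ^ i) ↔
      ((i = 2 ∧ ∃ q, NLC q ∧ nQ q (Set.range P) = 9) ∨
        (i = 3 ∧ ∃ q, NLC q ∧ nQ q (Set.range P) = 10)) := by
  have hp1 : 1 < p := by omega
  set Γ := Set.range P with hΓd
  have hΓ : Nat.card Γ = 10 := card_rg hP
  have hpow := Nat.pow_right_injective (show 2 ≤ p by omega)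
  constructor
  · rintro ⟨hL, hw⟩
    have hL4 : ∀ L, nL L Γ ≤ 4 := fun L => by
      rw [← nI_eq hP]
      exact hL L
    have hL3 : ∀ L, nL L Γ ≤ 3 := by
      by_contra hc
      push Not at hc
      obtain ⟨L, hLc⟩ := hc
      have hL4' : nL L Γ = 4 := le_antisymm (hL4 L) hLc
      have h1 := (hR p h5 L Γ).1 hL4'.ge
      have h2 : Nat.card (offL L Γ) = 6 := by
        rw [Nat.card_coe_set_eq]
        have h3 := split_card (onL L) Γ
        rw [nL_eq] at hL4'
        rw [Nat.card_coe_set_eq] at hΓ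
        have e2 : offL L Γ = {v | v ∈ Γ ∧ ¬ onL L v} := rfl
        rw [e2]
        omega
      have h3 := (hC p h5 (offL L Γ)).2.2.2 h2
        fun L' => (nL_mono L' (fun v hv => hv.1)).trans (hL4 L')
      rw [← h1, hw] at h3
      have h4 : p ^ 2 ≤ p ^ i := Nat.pow_le_pow_right (by omega) hi
      nlinarith
    obtain ⟨hE1, hE2⟩ := hE p h5 Γ hΓ
    have h2 : p ^ 2 ≤ w3 Γ := by
      rw [hw]
      exact Nat.pow_le_pow_right (by omega) hi
    obtain ⟨q, hq, h9⟩ := hE1 hL3 h2
    obtain ⟨-, h3, h4⟩ := hE2 q hq h9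
    have h10 := nQ_le hΓ q
    have h6 : nQ q Γ = 9 ∨ nQ q Γ = 10 := by omega
    rcases h6 with h6 | h6
    · left
      have h7 := h3 h6
      rw [hw] at h7
      exact ⟨hpow h7, q, hq, h6⟩
    · right
      have h7 := h4 h6
      rw [hw] at h7
      exact ⟨hpow h7, q, hq, h6⟩
  · rintro (⟨rfl, q, hq, h9⟩ | ⟨rfl, q, hq, h10⟩)
    · obtain ⟨h1, h2, -⟩ := (hE p h5 Γ hΓ).2 q hq h9.ge
      refine ⟨fun L => ?_, h2 h9⟩
      rw [nI_eq hP]
      exact (h1 L).trans (by norm_num)
    · obtain ⟨h1, -, h2⟩ := (hE p h5 Γ hΓ).2 q hq (by omega)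
      refine ⟨fun L => ?_, h2 h10⟩
      rw [nI_eq hP]
      exact (h1 L).trans (by norm_num)

lemma Q2_smul (c : ZMod p) (q : Fin 6 → ZMod p) (v : ZMod p × ZMod p) :
    Q2 (c • q) v = c * Q2 q v := by
  unfold Q2
  simp only [Pi.smul_apply, smul_eq_mul]
  ring

lemma nlc_ne {q : Fin 6 → ZMod p} (hq : NLC q) : q ≠ 0 := by
  rintro rfl
  obtain ⟨v, -, hv⟩ := hq (Sum.inr 0)
  apply hv
  simp [Q2]

lemma smul_inj {q : Fin 6 → ZMod p} (hq : q ≠ 0) :
    Function.Injective fun c : ZMod p => c • q := by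
  intro c c' h
  exact smul_left_injective (ZMod p) hq h

/-- uniqueness up to a factor -/
lemma scal (hC : S_C2) (hE : S_CONE) (h5 : 5 ≤ p) {Γ : Set (ZMod p × ZMod p)}
    (hΓ : Nat.card Γ = 10) {q q' : Fin 6 → ZMod p} (hq : NLC q) (hq' : NLC q')
    (h9 : 9 ≤ nQ q Γ) (h9' : 9 ≤ nQ q' Γ) : ∃ c : ZMod p, c ≠ 0 ∧ c • q = q' := by
  have hL := ((hE p h5 Γ hΓ).2 q hq h9).1
  have hΓ' : Γ.ncard = 10 := by rw [← Nat.card_coe_set_eq]; exact hΓ
  have h1 := split_card (fun v => Q2 q v = 0) Γ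
  have h2 := split_card (fun v => Q2 q' v = 0) Γ
  rw [nQ_eq] at h9 h9'
  have hsub : Γ ⊆ {v | v ∈ Γ ∧ Q2 q v = 0 ∧ Q2 q' v = 0} ∪
      ({v | v ∈ Γ ∧ ¬ Q2 q v = 0} ∪ {v | v ∈ Γ ∧ ¬ Q2 q' v = 0}) := by
    intro v hv
    by_cases h : Q2 q v = 0
    · by_cases h' : Q2 q' v = 0
      · exact Or.inl ⟨hv, h, h'⟩
      · exact Or.inr (Or.inr ⟨hv, h'⟩)
    · exact Or.inr (Or.inl ⟨hv, h⟩)
  have h3 := (Set.ncard_le_ncard hsub (Set.toFinite _)).trans (Set.ncard_union_le _ _)
  have h4 := Set.ncard_union_le ({v | v ∈ Γ ∧ ¬ Q2 q v = 0} : Set (ZMod p × ZMod p))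
    {v | v ∈ Γ ∧ ¬ Q2 q' v = 0}
  obtain ⟨Δ, hΔ, hΔ5⟩ := Set.exists_subset_card_eq (show 5 ≤
    ({v | v ∈ Γ ∧ Q2 q v = 0 ∧ Q2 q' v = 0} : Set (ZMod p × ZMod p)).ncard by omega)
  have hw : w2 Δ = p := ((hC p h5 Δ).2.2.1 (by rw [Nat.card_coe_set_eq]; exact hΔ5)).2.2
    fun L => (nL_mono L (fun v hv => (hΔ hv).1)).trans (hL L)
  set f : ZMod p → {q : Fin 6 → ZMod p // ∀ v ∈ Δ, Q2 q v = 0} :=
    fun c => ⟨c • q, fun v hv => by rw [Q2_smul, (hΔ hv).2.1, mul_zero]⟩ with hf
  have hinj : Function.Injective f := by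
    intro c c' h
    exact smul_inj (nlc_ne hq) (congrArg Subtype.val h)
  have hbij : Function.Bijective f := by
    refine hinj.bijective_of_nat_card_le ?_
    have e1 : Nat.card (ZMod p) = p := by rw [Nat.card_eq_fintype_card, ZMod.card]
    rw [e1]
    exact hw.le
  obtain ⟨c, hc⟩ := hbij.2 ⟨q', fun v hv => (hΔ hv).2.2⟩
  have hc' : c • q = q' := congrArg Subtype.val hc
  refine ⟨c, ?_, hc'⟩
  rintro rfl
  rw [zero_smul] at hc'
  exact nlc_ne hq' hc'.symm

lemma nlc_smul {q : Fin 6 → ZMod p} (hq : NLC q) {c : ZMod p} (hc : c ≠ 0) : NLC (c • q) := by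
  intro L
  obtain ⟨v, h1, h2⟩ := hq L
  refine ⟨v, h1, ?_⟩
  rw [Q2_smul]
  exact mul_ne_zero hc h2

lemma nQ_smul (q : Fin 6 → ZMod p) {c : ZMod p} (hc : c ≠ 0) (Γ : Set (ZMod p × ZMod p)) :
    nQ (c • q) Γ = nQ q Γ := by
  rw [nQ_eq, nQ_eq]
  congr 1
  ext v
  simp only [Set.mem_ofPred_eq, Q2_smul, mul_eq_zero, hc, false_or]

/-- the number of the conics through the points -/
lemma card_q (hC : S_C2) (hE : S_CONE) (h5 : 5 ≤ p) {Γ : Set (ZMod p × ZMod p)}
    (hΓ : Nat.card Γ = 10) {n : ℕ} (hn : 9 ≤ n) (h : ∃ q : Fin 6 → ZMod p, NLC q ∧ nQ q Γ = n) :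
    Nat.card {q : Fin 6 → ZMod p // NLC q ∧ nQ q Γ = n} = p - 1 := by
  obtain ⟨q, hq, hqn⟩ := h
  have e1 : Nat.card (ZMod p)ˣ = p - 1 := by
    rw [Nat.card_eq_fintype_card, ZMod.card_units]
  rw [← e1]
  symm
  refine Nat.card_congr (Equiv.ofBijective (fun u : (ZMod p)ˣ =>
    (⟨(u : ZMod p) • q, nlc_smul hq u.ne_zero, by rw [nQ_smul q u.ne_zero]; exact hqn⟩ :
    {q : Fin 6 → ZMod p // NLC q ∧ nQ q Γ = n})) ⟨?_, ?_⟩)
  · intro u u' h
    exact Units.ext (smul_inj (nlc_ne hq) (congrArg Subtype.val h))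
  · rintro ⟨q', hq', hqn'⟩
    obtain ⟨c, hc, hcq⟩ := scal hC hE h5 hΓ hq hq' (by omega) (by omega)
    exact ⟨Units.mk0 c hc, Subtype.ext hcq⟩

/-- double counting -/
lemma dc (hC : S_C2) (hE : S_CONE) (h5 : 5 ≤ p) {n : ℕ} (hn : 9 ≤ n) :
    (p - 1) * Nat.card {P : Fin 10 → ZMod p × ZMod p // Function.Injective P ∧
      ∃ q : Fin 6 → ZMod p, NLC q ∧ nQ q (Set.range P) = n} =
    ∑ q : Fin 6 → ZMod p, if NLC q then Nat.card {P : Fin 10 → ZMod p × ZMod p //
      Function.Injective P ∧ nQ q (Set.range P) = n} else 0 := by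
  have h1 : ∀ q : Fin 6 → ZMod p, (if NLC q then Nat.card {P : Fin 10 → ZMod p × ZMod p //
      Function.Injective P ∧ nQ q (Set.range P) = n} else 0) =
      ∑ P : Fin 10 → ZMod p × ZMod p,
        ind (Function.Injective P ∧ (NLC q ∧ nQ q (Set.range P) = n)) := by
    intro q
    by_cases hq : NLC q
    · rw [if_pos hq, card_sum]
      refine Finset.sum_congr rfl fun P _ => ?_
      simp only [hq, true_and]
    · rw [if_neg hq]
      symm
      refine Finset.sum_eq_zero fun P _ => ?_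
      rw [ind_neg]
      exact fun h => hq h.2.1
  rw [Finset.sum_congr rfl fun q _ => h1 q, Finset.sum_comm, card_sum, Finset.mul_sum]
  refine Finset.sum_congr rfl fun P _ => ?_
  by_cases hP : Function.Injective P
  · by_cases hq : ∃ q : Fin 6 → ZMod p, NLC q ∧ nQ q (Set.range P) = n
    · rw [ind_pos ⟨hP, hq⟩, mul_one]
      have h2 := card_q hC hE h5 (card_rg hP) hn hq
      rw [card_sum] at h2
      rw [← h2]
      refine Finset.sum_congr rfl fun q _ => ?_
      simp only [hP, true_and]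
    · rw [ind_neg (fun h => hq h.2), mul_zero]
      symm
      refine Finset.sum_eq_zero fun q _ => ?_
      rw [ind_neg]
      exact fun h => hq ⟨q, h.2⟩
  · rw [ind_neg (fun h => hP h.1), mul_zero]
    symm
    refine Finset.sum_eq_zero fun q _ => ?_
    rw [ind_neg]
    exact fun h => hP h.1

lemma card_emb (k : ℕ) (q : Fin 6 → ZMod p) :
    Nat.card (Fin k ↪ {v : ZMod p × ZMod p // Q2 q v = 0}) =
      (Nat.card {v : ZMod p × ZMod p // Q2 q v = 0}).descFactorial k := by
  rw [Nat.card_eq_fintype_card, Fintype.card_embedding_eq, Fintype.card_fin,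
    Nat.card_eq_fintype_card]

lemma cnt10 (q : Fin 6 → ZMod p) :
    Nat.card {P : Fin 10 → ZMod p × ZMod p // Function.Injective P ∧ nQ q (Set.range P) = 10} =
      (Nat.card {v : ZMod p × ZMod p // Q2 q v = 0}).descFactorial 10 := by
  rw [← card_emb]
  have hall : ∀ P : Fin 10 → ZMod p × ZMod p, Function.Injective P →
      (nQ q (Set.range P) = 10 ↔ ∀ k, Q2 q (P k) = 0) := by
    intro P hP
    rw [nQ_range hP]
    constructor
    · intro h k
      have h1 : Nat.card {k // Q2 q (P k) = 0} = (univ.filter fun k => Q2 q (P k) = 0).card := by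
        rw [Nat.card_eq_fintype_card, Fintype.card_subtype]
      rw [h1] at h
      have h2 : (univ.filter fun k => Q2 q (P k) = 0) = univ := by
        apply Finset.eq_univ_of_card
        rw [h, Fintype.card_fin]
      have h3 := Finset.mem_univ k
      rw [← h2, Finset.mem_filter] at h3
      exact h3.2
    · intro h
      have h1 : Nat.card {k // Q2 q (P k) = 0} = (univ.filter fun k => Q2 q (P k) = 0).card := by
        rw [Nat.card_eq_fintype_card, Fintype.card_subtype]
      rw [h1, Finset.filter_true_of_mem (fun k _ => h k), Finset.card_univ, Fintype.card_fin]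
  symm
  refine Nat.card_congr (Equiv.ofBijective
    (fun e : Fin 10 ↪ {v : ZMod p × ZMod p // Q2 q v = 0} =>
    (⟨fun k => (e k).1, fun k k' h => e.injective (Subtype.ext h),
      (hall _ fun k k' h => e.injective (Subtype.ext h)).2 fun k => (e k).2⟩ :
    {P : Fin 10 → ZMod p × ZMod p // Function.Injective P ∧ nQ q (Set.range P) = 10})) ⟨?_, ?_⟩)
  · intro e e' h
    have h1 := congrArg Subtype.val h
    ext k
    · exact congrArg Prod.fst (congrFun h1 k)
    · exact congrArg Prod.snd (congrFun h1 k)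
  · rintro ⟨P, hP, hPn⟩
    refine ⟨⟨fun k => ⟨P k, (hall P hP).1 hPn k⟩, fun k k' h => hP (congrArg Subtype.val h)⟩, rfl⟩

lemma cnt9 (q : Fin 6 → ZMod p) :
    Nat.card {P : Fin 10 → ZMod p × ZMod p // Function.Injective P ∧ nQ q (Set.range P) = 9} =
      10 * ((Nat.card {v : ZMod p × ZMod p // Q2 q v = 0}).descFactorial 9 *
        Nat.card {v : ZMod p × ZMod p // ¬ Q2 q v = 0}) := by
  have hall : ∀ P : Fin 10 → ZMod p × ZMod p, Function.Injective P →
      (nQ q (Set.range P) = 9 ↔ (univ.filter fun k => ¬ Q2 q (P k) = 0).card = 1) := by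
    intro P hP
    rw [nQ_range hP]
    have h1 : Nat.card {k // Q2 q (P k) = 0} = (univ.filter fun k => Q2 q (P k) = 0).card := by
      rw [Nat.card_eq_fintype_card, Fintype.card_subtype]
    have h2 := Finset.card_filter_add_card_filter_not (s := (univ : Finset (Fin 10)))
      (fun k => Q2 q (P k) = 0)
    rw [Finset.card_univ, Fintype.card_fin] at h2
    rw [h1]
    omega
  -- for a fixed index
  have hk : ∀ k : Fin 10, Nat.card {P : Fin 10 → ZMod p × ZMod p // Function.Injective P ∧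
      ((¬ Q2 q (P k) = 0) ∧ ∀ j, j ≠ k → Q2 q (P j) = 0)} =
      (Nat.card {v : ZMod p × ZMod p // Q2 q v = 0}).descFactorial 9 *
        Nat.card {v : ZMod p × ZMod p // ¬ Q2 q v = 0} := by
    intro k
    rw [← card_emb, ← Nat.card_prod]
    symm
    have hI : ∀ x : (Fin 9 ↪ {v : ZMod p × ZMod p // Q2 q v = 0}) ×
        {v : ZMod p × ZMod p // ¬ Q2 q v = 0},
        Function.Injective (Fin.insertNth (α := fun _ => ZMod p × ZMod p) k x.2.1
          (fun j => (x.1 j).1)) ∧
        ((¬ Q2 q (Fin.insertNth (α := fun _ => ZMod p × ZMod p) k x.2.1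
          (fun j => (x.1 j).1) k) = 0) ∧ ∀ j, j ≠ k →
          Q2 q (Fin.insertNth (α := fun _ => ZMod p × ZMod p) k x.2.1
          (fun j => (x.1 j).1) j) = 0) := by
      intro x
      refine ⟨?_, ?_, ?_⟩
      · intro a b hab
        by_cases ha : a = k
        · by_cases hb : b = k
          · rw [ha, hb]
          · obtain ⟨b', rfl⟩ := Fin.exists_succAbove_eq hb
            rw [ha, Fin.insertNth_apply_same, Fin.insertNth_apply_succAbove] at hab
            exact absurd (hab ▸ (x.1 b').2) x.2.2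
        · obtain ⟨a', rfl⟩ := Fin.exists_succAbove_eq ha
          by_cases hb : b = k
          · rw [hb, Fin.insertNth_apply_same, Fin.insertNth_apply_succAbove] at hab
            exact absurd (hab ▸ (x.1 a').2) x.2.2
          · obtain ⟨b', rfl⟩ := Fin.exists_succAbove_eq hb
            rw [Fin.insertNth_apply_succAbove, Fin.insertNth_apply_succAbove] at hab
            rw [x.1.injective (Subtype.ext hab)]
      · rw [Fin.insertNth_apply_same]
        exact x.2.2
      · intro j hj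
        obtain ⟨j', rfl⟩ := Fin.exists_succAbove_eq hj
        rw [Fin.insertNth_apply_succAbove]
        exact (x.1 j').2
    refine Nat.card_congr (Equiv.ofBijective
      (fun x : (Fin 9 ↪ {v : ZMod p × ZMod p // Q2 q v = 0}) ×
        {v : ZMod p × ZMod p // ¬ Q2 q v = 0} =>
      (⟨Fin.insertNth (α := fun _ => ZMod p × ZMod p) k x.2.1 (fun j => (x.1 j).1), hI x⟩ :
      {P : Fin 10 → ZMod p × ZMod p // Function.Injective P ∧
        ((¬ Q2 q (P k) = 0) ∧ ∀ j, j ≠ k → Q2 q (P j) = 0)})) ⟨?_, ?_⟩)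
    · rintro ⟨e, b⟩ ⟨e', b'⟩ h
      have h1 : Fin.insertNth (α := fun _ => ZMod p × ZMod p) k b.1 (fun j => (e j).1) =
        Fin.insertNth (α := fun _ => ZMod p × ZMod p) k b'.1 (fun j => (e' j).1) :=
        congrArg Subtype.val h
      have h2 := congrFun h1 k
      rw [Fin.insertNth_apply_same, Fin.insertNth_apply_same] at h2
      have h3 : ∀ j, e j = e' j := by
        intro j
        have h4 := congrFun h1 (k.succAbove j)
        rw [Fin.insertNth_apply_succAbove, Fin.insertNth_apply_succAbove] at h4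
        exact Subtype.ext h4
      rw [Subtype.ext h2, DFunLike.ext e e' h3]
    · rintro ⟨P, hP, hPk, hPj⟩
      refine ⟨⟨⟨fun j => ⟨P (k.succAbove j), hPj _ (Fin.succAbove_ne k j)⟩, ?_⟩, ⟨P k, hPk⟩⟩, ?_⟩
      · intro j j' h
        exact Fin.succAbove_right_injective (hP (congrArg Subtype.val h))
      · apply Subtype.ext
        show Fin.insertNth (α := fun _ => ZMod p × ZMod p) k (P k)
          (fun j => P (k.succAbove j)) = P
        exact Fin.insertNth_self_removeNth k P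
  have h10 : ∑ k : Fin 10, Nat.card {P : Fin 10 → ZMod p × ZMod p // Function.Injective P ∧
      ((¬ Q2 q (P k) = 0) ∧ ∀ j, j ≠ k → Q2 q (P j) = 0)} =
      10 * ((Nat.card {v : ZMod p × ZMod p // Q2 q v = 0}).descFactorial 9 *
        Nat.card {v : ZMod p × ZMod p // ¬ Q2 q v = 0}) := by
    rw [Finset.sum_congr rfl fun k _ => hk k, Finset.sum_const, Finset.card_univ,
      Fintype.card_fin, smul_eq_mul]
  rw [← h10, card_sum]
  simp_rw [card_sum]
  rw [Finset.sum_comm]
  refine Finset.sum_congr rfl fun P _ => ?_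
  by_cases hP : Function.Injective P
  · simp only [hP, true_and]
    rw [hall P hP]
    by_cases h1 : (univ.filter fun k => ¬ Q2 q (P k) = 0).card = 1
    · rw [ind_pos h1]
      obtain ⟨k, hk1⟩ := Finset.card_eq_one.1 h1
      have hk2 : ∀ j, ¬ Q2 q (P j) = 0 ↔ j = k := by
        intro j
        have h2 : j ∈ (univ.filter fun k => ¬ Q2 q (P k) = 0) ↔ j ∈ ({k} : Finset (Fin 10)) := by
          rw [hk1]
        rw [Finset.mem_filter, Finset.mem_singleton] at h2
        exact ⟨fun h => h2.1 ⟨Finset.mem_univ _, h⟩, fun h => (h2.2 h).2⟩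
      rw [Finset.sum_eq_single k]
      · rw [ind_pos]
        refine ⟨(hk2 k).2 rfl, fun j hj => ?_⟩
        by_contra h
        exact hj ((hk2 j).1 h)
      · intro j _ hj
        rw [ind_neg]
        exact fun h => hj ((hk2 j).1 h.1)
      · exact fun h => absurd (Finset.mem_univ k) h
    · rw [ind_neg h1]
      symm
      refine Finset.sum_eq_zero fun k _ => ?_
      rw [ind_neg]
      rintro ⟨h2, h3⟩
      apply h1
      rw [Finset.card_eq_one]
      refine ⟨k, ?_⟩
      ext j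
      rw [Finset.mem_filter, Finset.mem_singleton]
      constructor
      · rintro ⟨-, h⟩
        by_contra hj
        exact h (h3 j hj)
      · rintro rfl
        exact ⟨Finset.mem_univ _, h2⟩
  · rw [ind_neg (fun h => hP h.1)]
    symm
    refine Finset.sum_eq_zero fun k _ => ?_
    rw [ind_neg]
    exact fun h => hP h.1

lemma card_compl (q : Fin 6 → ZMod p) :
    (Nat.card {v : ZMod p × ZMod p // ¬ Q2 q v = 0} : ℚ) =
      (p : ℚ) ^ 2 - (Nat.card {v : ZMod p × ZMod p // Q2 q v = 0} : ℚ) := by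
  have h1 : Nat.card {v : ZMod p × ZMod p // Q2 q v = 0} +
      Nat.card {v : ZMod p × ZMod p // ¬ Q2 q v = 0} = p ^ 2 := by
    rw [card_sum, card_sum, ← Finset.sum_add_distrib]
    have h2 : ∀ v ∈ (univ : Finset (ZMod p × ZMod p)),
        ind (Q2 q v = 0) + ind (¬ Q2 q v = 0) = 1 := by
      intro v _
      by_cases h : Q2 q v = 0
      · rw [ind_pos h, ind_neg (not_not.2 h)]
      · rw [ind_neg h, ind_pos h]
    rw [Finset.sum_congr rfl h2, Finset.sum_const, Finset.card_univ,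
      Fintype.card_prod, ZMod.card, smul_eq_mul, mul_one, pow_two]
  have h2 : ((Nat.card {v : ZMod p × ZMod p // Q2 q v = 0} +
      Nat.card {v : ZMod p × ZMod p // ¬ Q2 q v = 0} : ℕ) : ℚ) = ((p ^ 2 : ℕ) : ℚ) := by
    rw [h1]
  push_cast at h2
  linarith

end

/-- the falling factorial without the first factor -/
noncomputable def Phi (k : ℕ) : Polynomial ℚ :=
  ∏ i ∈ range k, (Polynomial.X - Polynomial.C ((i : ℚ) + 1))

lemma Phi_eval (k : ℕ) (x : ℚ) : x * (Phi k).eval x = ff x (k + 1) := by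
  unfold Phi ff
  rw [Polynomial.eval_prod, Finset.prod_range_succ']
  simp only [Polynomial.eval_sub, Polynomial.eval_X, Polynomial.eval_C, Nat.cast_zero, sub_zero,
    Nat.cast_add, Nat.cast_one]
  ring

lemma ff_desc (N k : ℕ) : ((N.descFactorial k : ℕ) : ℚ) = ff (N : ℚ) k := by
  unfold ff
  induction k with
  | zero => simp
  | succ k ih =>
    rw [Nat.descFactorial_succ, Finset.prod_range_succ, ← ih]
    rcases le_or_gt k N with h | h
    · push_cast [Nat.cast_sub h]
      ring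
    · rw [Nat.descFactorial_of_lt h]
      simp

lemma fin_of (hC : S_C2) (hE : S_CONE) {n : ℕ} (hn : 9 ≤ n)
    (h : RatF (fun p => ∑ q : Fin 6 → ZMod p, if NLC q then
      (Nat.cast (Nat.card {P : Fin 10 → ZMod p × ZMod p // Function.Injective P ∧
        nQ q (Set.range P) = n}) : ℚ) else 0)) :
    RatF (fun p => Nat.cast (Nat.card {P : Fin 10 → ZMod p × ZMod p // Function.Injective P ∧
      ∃ q : Fin 6 → ZMod p, NLC q ∧ nQ q (Set.range P) = n})) := by
  refine RatF.cancel (G := fun p => (p : ℚ) - 1) (RatF.id.sub (RatF.const 1)) ?_ ?_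
  · intro p _ hp
    have : (5 : ℚ) ≤ p := by exact_mod_cast hp
    intro h0
    linarith
  · refine h.congr fun p _ hp => ?_
    have h1 := dc hC hE hp hn (p := p)
    have h2 : ((p - 1 : ℕ) : ℚ) = (p : ℚ) - 1 := by
      rw [Nat.cast_sub (by omega)]
      simp
    rw [← h2]
    beta_reduce
    rw [← Nat.cast_mul, h1]
    push_cast
    rfl

/-- **UR-CNT4** -/
theorem cnt4 (hR : S_RED) (hC : S_C2) (hE : S_CONE) (hQ : S_CONIC) : S_CNT4 := by
  intro i hi
  have h10 : RatF (fun p => Nat.cast (Nat.card {P : Fin 10 → ZMod p × ZMod p //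
      Function.Injective P ∧ ∃ q : Fin 6 → ZMod p, NLC q ∧ nQ q (Set.range P) = 10})) := by
    refine fin_of hC hE (by norm_num) ((hQ (Phi 9)).congr fun p _ hp => ?_)
    refine Finset.sum_congr rfl fun q _ => ?_
    by_cases hq : NLC q
    · rw [if_pos hq, if_pos hq, Phi_eval, cnt10, ff_desc]
    · rw [if_neg hq, if_neg hq]
  have h9 : RatF (fun p => Nat.cast (Nat.card {P : Fin 10 → ZMod p × ZMod p //
      Function.Injective P ∧ ∃ q : Fin 6 → ZMod p, NLC q ∧ nQ q (Set.range P) = 9})) := by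
    refine fin_of hC hE le_rfl ?_
    have h1 := (RatF.pPow 2).mul (hQ (Polynomial.C 10 * Phi 8))
    have h2 := hQ (Polynomial.C 10 * Polynomial.X * Phi 8)
    refine (h1.sub h2).congr fun p _ hp => ?_
    beta_reduce
    rw [Finset.mul_sum, ← Finset.sum_sub_distrib]
    refine Finset.sum_congr rfl fun q _ => ?_
    by_cases hq : NLC q
    · rw [if_pos hq, if_pos hq, if_pos hq, cnt9]
      push_cast
      rw [card_compl, ff_desc, ← Phi_eval]
      simp only [Polynomial.eval_mul, Polynomial.eval_C, Polynomial.eval_X]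
      ring
    · rw [if_neg hq, if_neg hq, if_neg hq]
      ring
  by_cases hi2 : i = 2
  · refine h9.congr fun p _ hp => ?_
    refine congrArg Nat.cast (card_iff fun P => ?_)
    refine and_congr_right fun hP => ?_
    rw [char hR hC hE hp hP hi]
    subst hi2
    constructor
    · rintro (⟨-, h⟩ | ⟨h, -⟩)
      · exact h
      · omega
    · exact fun h => Or.inl ⟨rfl, h⟩
  · by_cases hi3 : i = 3
    · refine h10.congr fun p _ hp => ?_
      refine congrArg Nat.cast (card_iff fun P => ?_)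
      refine and_congr_right fun hP => ?_
      rw [char hR hC hE hp hP hi]
      subst hi3
      constructor
      · rintro (⟨h, -⟩ | ⟨-, h⟩)
        · omega
        · exact h
      · exact fun h => Or.inr ⟨rfl, h⟩
    · refine (RatF.const 0).congr fun p _ hp => ?_
      have : IsEmpty {P : Fin 10 → ZMod p × ZMod p // Function.Injective P ∧
          (∀ L, nI L P ≤ 4) ∧ w3 (Set.range P) = p ^ i} := by
        refine ⟨fun P => ?_⟩
        have h1 := (char hR hC hE hp P.2.1 hi).1 P.2.2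
        rcases h1 with ⟨h, -⟩ | ⟨h, -⟩
        · exact hi2 h
        · exact hi3 h
      rw [Nat.card_of_isEmpty, Nat.cast_zero]

end Pool.Agent.NH28.UR.Cnt4
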