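import Pool.Agent.NH28.UR.Stm
import Pool.Agent.NH28.UR.Rat

set_option autoImplicit false
set_option linter.unusedSectionVars false

/-!
# Project UR: configurations whose maximal line has exactly five points
-/

namespace Pool.Agent.NH28.UR.Cnt5

open Finset Pool.Agent.NH28.UR

/-! ### injective maps with prescribed pattern -/

section pat

variable {K X J : Type}

/-- injective maps with pattern `c` are families of embeddings of the fibres -/
def patEquiv (c : K → J) (g : X → J) :
    {P : K → X // Function.Injective P ∧ ∀ k, g (P k) = c k} ≃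
      (∀ j : J, {k // c k = j} ↪ {x // g x = j}) where
  toFun P j := ⟨fun k => ⟨P.1 k.1, by rw [P.2.2, k.2]⟩,
    fun _ _ h => Subtype.ext (P.2.1 (congrArg Subtype.val h))⟩
  invFun Q := ⟨fun k => (Q (c k) ⟨k, rfl⟩).1, by
    have key : ∀ (k : K) (j : J) (h : c k = j), (Q (c k) ⟨k, rfl⟩).1 = (Q j ⟨k, h⟩).1 := by
      rintro k _ rfl
      rfl
    intro a b h
    have h' : (Q (c a) ⟨a, rfl⟩).1 = (Q (c b) ⟨b, rfl⟩).1 := h
    have ha := (Q (c a) ⟨a, rfl⟩).2
    have hb := (Q (c b) ⟨b, rfl⟩).2
    have hc : c a = c b := by rw [← ha, ← hb, h']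
    rw [key a (c b) hc] at h'
    have h1 := (Q (c b)).injective (Subtype.ext h')
    exact congrArg Subtype.val h1, fun k => (Q (c k) ⟨k, rfl⟩).2⟩
  left_inv P := rfl
  right_inv Q := by
    funext j
    ext ⟨k, hk⟩
    subst hk
    rfl

theorem pat_card [Fintype K] [Fintype X] [Fintype J] (c : K → J) (g : X → J) :
    Nat.card {P : K → X // Function.Injective P ∧ ∀ k, g (P k) = c k} =
      ∏ j : J, (Nat.card {x // g x = j}).descFactorial (Nat.card {k // c k = j}) := by
  classical
  rw [Nat.card_congr (patEquiv c g), Nat.card_pi]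
  refine Finset.prod_congr rfl fun j _ => ?_
  rw [Nat.card_eq_fintype_card, Fintype.card_embedding_eq, ← Nat.card_eq_fintype_card,
    ← Nat.card_eq_fintype_card]

end pat

theorem ff_nat (n k : ℕ) : ((n.descFactorial k : ℕ) : ℚ) = ff n k := by
  induction k with
  | zero => simp [ff]
  | succ k ih =>
    unfold ff at ih ⊢
    rw [Nat.descFactorial_succ, Finset.prod_range_succ, ← ih]
    push_cast
    rcases le_or_gt k n with h | h
    · rw [Nat.cast_sub h]
      ring
    · rw [Nat.descFactorial_of_lt h]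
      simp

/-! ### lines -/

section lines

variable {p : ℕ} [Fact p.Prime]

theorem card_line (L : Lin p) : Nat.card {v : ZMod p × ZMod p // onL L v} = p := by
  have : NeZero p := ⟨(Fact.out : p.Prime).ne_zero⟩
  have e : {v : ZMod p × ZMod p // onL L v} ≃ ZMod p := by
    rcases L with ⟨m, b⟩ | b
    · exact ⟨fun v => v.1.1, fun x => ⟨(x, m * x + b), rfl⟩, by
        rintro ⟨⟨x, y⟩, h⟩
        have h' : y = m * x + b := h
        subst h'
        rfl, fun x => rfl⟩
    · exact ⟨fun v => v.1.2, fun y => ⟨(b, y), rfl⟩, by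
        rintro ⟨⟨x, y⟩, h⟩
        have h' : x = b := h
        subst h'
        rfl, fun x => rfl⟩
  rw [Nat.card_congr e, Nat.card_zmod]

theorem card_thru (v : ZMod p × ZMod p) : Nat.card {L : Lin p // onL L v} = p + 1 := by
  have : NeZero p := ⟨(Fact.out : p.Prime).ne_zero⟩
  have e : {L : Lin p // onL L v} ≃ Option (ZMod p) :=
    { toFun := fun L => match L.1 with
        | Sum.inl (m, _) => some m
        | Sum.inr _ => none
      invFun := fun o => match o with
        | some m => ⟨Sum.inl (m, v.2 - m * v.1), by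
            change v.2 = m * v.1 + (v.2 - m * v.1)
            ring⟩
        | none => ⟨Sum.inr v.1, rfl⟩
      left_inv := by
        rintro ⟨⟨m, b⟩ | b, h⟩
        · have h' : v.2 = m * v.1 + b := h
          refine Subtype.ext ?_
          change Sum.inl (m, v.2 - m * v.1) = Sum.inl (m, b)
          rw [h']
          congr 2
          ring
        · have h' : v.1 = b := h
          refine Subtype.ext ?_
          change Sum.inr v.1 = Sum.inr b
          rw [h']
      right_inv := by
        rintro (_ | m) <;> rfl }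
  rw [Nat.card_congr e, Nat.card_eq_fintype_card, Fintype.card_option, ZMod.card]

theorem line_inj {L L' : Lin p} {v w : ZMod p × ZMod p} (h1 : onL L v) (h2 : onL L w)
    (h3 : onL L' v) (h4 : onL L' w) (hvw : v ≠ w) : L = L' := by
  obtain ⟨x, y⟩ := v
  obtain ⟨x', y'⟩ := w
  rcases L with ⟨m, b⟩ | b <;> rcases L' with ⟨m', b'⟩ | b'
  · have e1 : y = m * x + b := h1
    have e2 : y' = m * x' + b := h2
    have e3 : y = m' * x + b' := h3
    have e4 : y' = m' * x' + b' := h4
    have hx : x ≠ x' := by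
      rintro rfl
      exact hvw (by rw [e1, e2])
    have e5 : (m - m') * (x - x') = 0 := by linear_combination e2 - e1 + e3 - e4
    have e6 : m = m' := by
      have := (mul_eq_zero.1 e5).resolve_right (sub_ne_zero.2 hx)
      exact sub_eq_zero.1 this
    subst e6
    have e7 : b = b' := by linear_combination e3 - e1
    rw [e7]
  · exfalso
    have e1 : y = m * x + b := h1
    have e2 : y' = m * x' + b := h2
    have e3 : x = b' := h3
    have e4 : x' = b' := h4
    apply hvw
    rw [e1, e2, e3, e4]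
  · exfalso
    have e1 : x = b := h1
    have e2 : x' = b := h2
    have e3 : y = m' * x + b' := h3
    have e4 : y' = m' * x' + b' := h4
    apply hvw
    rw [e3, e4, e1, e2]
  · have e1 : x = b := h1
    have e3 : x = b' := h3
    rw [← e1, ← e3]

/-- number of common points -/
noncomputable def kap (L L' : Lin p) : ℕ := Nat.card {v : ZMod p × ZMod p // onL L v ∧ onL L' v}

theorem kap_le {L L' : Lin p} (h : L ≠ L') : kap L L' ≤ 1 := by
  have : NeZero p := ⟨(Fact.out : p.Prime).ne_zero⟩
  unfold kap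
  have : Subsingleton {v : ZMod p × ZMod p // onL L v ∧ onL L' v} :=
    ⟨fun a b => by
      by_contra hne
      exact h (line_inj a.2.1 b.2.1 a.2.2 b.2.2 fun h' => hne (Subtype.ext h'))⟩
  exact Finite.card_le_one_iff_subsingleton.2 this

/-- the indices of the points on a line -/
noncomputable def AL (L : Lin p) (P : Fin 10 → ZMod p × ZMod p) : Finset (Fin 10) := by
  classical
  exact univ.filter fun k => onL L (P k)

theorem mem_AL {L : Lin p} {P : Fin 10 → ZMod p × ZMod p} {k : Fin 10} :
    k ∈ AL L P ↔ onL L (P k) := by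
  classical
  unfold AL
  rw [Finset.mem_filter]
  exact ⟨fun h => h.2, fun h => ⟨Finset.mem_univ _, h⟩⟩

theorem nI_eq (L : Lin p) (P : Fin 10 → ZMod p × ZMod p) : nI L P = (AL L P).card := by
  classical
  unfold nI AL
  rw [Nat.card_eq_fintype_card, Fintype.card_subtype]

theorem AL_inter {P : Fin 10 → ZMod p × ZMod p} (hP : Function.Injective P) {L L' : Lin p}
    (h : L ≠ L') : (AL L P ∩ AL L' P).card ≤ 1 := by
  classical
  refine Finset.card_le_one.2 fun a ha b hb => ?_
  by_contra hne
  rw [Finset.mem_inter, mem_AL, mem_AL] at ha hb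
  exact h (line_inj ha.1 hb.1 ha.2 hb.2 fun h' => hne (hP h'))

/-- counting points of the range -/
theorem card_range {P : Fin 10 → ZMod p × ZMod p} (hP : Function.Injective P)
    (q : ZMod p × ZMod p → Prop) (A : Finset (Fin 10)) (hA : ∀ k, k ∈ A ↔ q (P k)) :
    Nat.card {v : ZMod p × ZMod p // v ∈ Set.range P ∧ q v} = A.card := by
  classical
  have e : {v : ZMod p × ZMod p // v ∈ Set.range P ∧ q v} ≃ {k : Fin 10 // k ∈ A} :=
    (Equiv.ofBijective (fun k : {k : Fin 10 // k ∈ A} =>
      (⟨P k.1, ⟨k.1, rfl⟩, (hA k.1).1 k.2⟩ : {v : ZMod p × ZMod p // v ∈ Set.range P ∧ q v})) (by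
      constructor
      · intro a b h
        exact Subtype.ext (hP (congrArg Subtype.val h))
      · rintro ⟨v, ⟨k, rfl⟩, hq⟩
        exact ⟨⟨k, (hA k).2 hq⟩, rfl⟩)).symm
  rw [Nat.card_congr e, Nat.card_eq_fintype_card, Fintype.card_coe]

theorem nL_range {P : Fin 10 → ZMod p × ZMod p} (hP : Function.Injective P) (L : Lin p) :
    nL L (Set.range P) = (AL L P).card := by
  unfold nL
  exact card_range hP (fun v => onL L v) _ fun k => mem_AL

theorem card_off {P : Fin 10 → ZMod p × ZMod p} (hP : Function.Injective P) (L : Lin p) :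
    Nat.card (offL L (Set.range P)) = ((AL L P)ᶜ).card := by
  have := card_range hP (fun v => ¬ onL L v) (AL L P)ᶜ fun k => by
    rw [Finset.mem_compl, mem_AL]
  exact this

theorem nL_off {P : Fin 10 → ZMod p × ZMod p} (hP : Function.Injective P) (L L' : Lin p) :
    nL L' (offL L (Set.range P)) = (AL L' P \ AL L P).card := by
  have := card_range hP (fun v => ¬ onL L v ∧ onL L' v) (AL L' P \ AL L P) fun k => by
    rw [Finset.mem_sdiff, mem_AL, mem_AL]
    tauto
  rw [← this]
  unfold nL offL
  refine Nat.card_congr (Equiv.subtypeEquivRight fun v => ?_)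
  change ((v ∈ Set.range P ∧ ¬ onL L v) ∧ onL L' v) ↔ _
  tauto

end lines

/-! ### the double count -/

section dc

variable (p : ℕ) [Fact p.Prime]

/-- number of pairs (two distinct lines, injective `P`) with incidence pattern in `Q` -/
noncomputable def TT (Q : Finset (Fin 10) → Finset (Fin 10) → Prop) : ℕ := by
  classical
  exact ∑ P ∈ (univ : Finset (Fin 10 → ZMod p × ZMod p)).filter Function.Injective,
    ((univ : Finset (Lin p)).offDiag.filter fun x => Q (AL x.1 P) (AL x.2 P)).card

/-- number of pairs (line, injective `P`) with incidence pattern in `Q` -/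
noncomputable def T1 (Q : Finset (Fin 10) → Prop) : ℕ := by
  classical
  exact ∑ P ∈ (univ : Finset (Fin 10 → ZMod p × ZMod p)).filter Function.Injective,
    ((univ : Finset (Lin p)).filter fun x => Q (AL x P)).card

variable {p}

/-- pattern of an index -/
noncomputable def pc (A B : Finset (Fin 10)) (k : Fin 10) : Bool × Bool := by
  classical
  exact (decide (k ∈ A), decide (k ∈ B))

/-- pattern of a point -/
noncomputable def pg (L L' : Lin p) (v : ZMod p × ZMod p) : Bool × Bool := by
  classical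
  exact (decide (onL L v), decide (onL L' v))

theorem pg_pc (L L' : Lin p) (P : Fin 10 → ZMod p × ZMod p) (A B : Finset (Fin 10)) :
    (∀ k, pg L L' (P k) = pc A B k) ↔ AL L P = A ∧ AL L' P = B := by
  classical
  unfold pg pc
  simp only [Prod.mk.injEq, decide_eq_decide]
  rw [forall_and]
  refine and_congr ?_ ?_
  · rw [Finset.ext_iff]
    exact forall_congr' fun k => by rw [mem_AL]
  · rw [Finset.ext_iff]
    exact forall_congr' fun k => by rw [mem_AL]

/-- the number of injective `P` with given pattern, as a function of the number of common points -/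
noncomputable def FF (A B : Finset (Fin 10)) (k p : ℚ) : ℚ :=
  ff k (A ∩ B).card * ff (p - k) (A \ B).card * (ff (p - k) (B \ A).card *
    ff (p ^ 2 - 2 * p + k) ((A ∪ B)ᶜ).card)

theorem card_tt (L L' : Lin p) : Nat.card {v // pg L L' v = (true, true)} = kap L L' := by
  classical
  unfold kap
  refine Nat.card_congr (Equiv.subtypeEquivRight fun v => ?_)
  unfold pg
  simp

theorem card_sum (L L' : Lin p) :
    Nat.card {v // pg L L' v = (true, true)} + Nat.card {v // pg L L' v = (true, false)} = p ∧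
    Nat.card {v // pg L L' v = (true, true)} + Nat.card {v // pg L L' v = (false, true)} = p ∧
    Nat.card {v // pg L L' v = (true, true)} + Nat.card {v // pg L L' v = (true, false)} +
      Nat.card {v // pg L L' v = (false, true)} + Nat.card {v // pg L L' v = (false, false)} =
      p ^ 2 := by
  classical
  have h1 := card_line L
  have h2 := card_line L'
  have h3 : Fintype.card (ZMod p × ZMod p) = p ^ 2 := by
    rw [Fintype.card_prod, ZMod.card, pow_two]
  rw [Nat.card_eq_fintype_card, Fintype.card_subtype] at h1 h2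
  rw [← Finset.card_univ] at h3
  simp only [Nat.card_eq_fintype_card, Fintype.card_subtype]
  have key : ∀ (s : Finset (ZMod p × ZMod p)) (q : ZMod p × ZMod p → Prop),
      s.card = (s.filter q).card + (s.filter fun v => ¬ q v).card := fun s q => by
    rw [Finset.card_filter_add_card_filter_not]
  have e1 := key (univ.filter fun v => onL L v) (fun v => onL L' v)
  have e2 := key (univ.filter fun v => onL L' v) (fun v => onL L v)
  have e3 := key univ (fun v => onL L v)
  have e4 := key (univ.filter fun v => ¬ onL L v) (fun v => onL L' v)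
  rw [Finset.filter_filter, Finset.filter_filter] at e1 e2 e4
  have a1 : (univ : Finset (ZMod p × ZMod p)).filter (fun v => pg L L' v = (true, true)) =
      univ.filter fun v => onL L v ∧ onL L' v := by
    refine Finset.filter_congr fun v _ => ?_
    unfold pg
    simp
  have a2 : (univ : Finset (ZMod p × ZMod p)).filter (fun v => pg L L' v = (true, false)) =
      univ.filter fun v => onL L v ∧ ¬ onL L' v := by
    refine Finset.filter_congr fun v _ => ?_
    unfold pg
    simp
  have a3 : (univ : Finset (ZMod p × ZMod p)).filter (fun v => pg L L' v = (false, true)) =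
      univ.filter fun v => ¬ onL L v ∧ onL L' v := by
    refine Finset.filter_congr fun v _ => ?_
    unfold pg
    simp
  have a4 : (univ : Finset (ZMod p × ZMod p)).filter (fun v => pg L L' v = (false, false)) =
      univ.filter fun v => ¬ onL L v ∧ ¬ onL L' v := by
    refine Finset.filter_congr fun v _ => ?_
    unfold pg
    simp
  have b2 : (univ : Finset (ZMod p × ZMod p)).filter (fun v => onL L' v ∧ onL L v) =
      univ.filter fun v => onL L v ∧ onL L' v := Finset.filter_congr fun v _ => and_comm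
  have b3 : (univ : Finset (ZMod p × ZMod p)).filter (fun v => onL L' v ∧ ¬ onL L v) =
      univ.filter fun v => ¬ onL L v ∧ onL L' v := Finset.filter_congr fun v _ => and_comm
  rw [a1, a2, a3, a4]
  rw [b2, b3] at e2
  omega

theorem card_pc (A B : Finset (Fin 10)) :
    Nat.card {k // pc A B k = (true, true)} = (A ∩ B).card ∧
    Nat.card {k // pc A B k = (true, false)} = (A \ B).card ∧
    Nat.card {k // pc A B k = (false, true)} = (B \ A).card ∧
    Nat.card {k // pc A B k = (false, false)} = ((A ∪ B)ᶜ).card := by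
  classical
  simp only [Nat.card_eq_fintype_card, Fintype.card_subtype]
  refine ⟨?_, ?_, ?_, ?_⟩ <;> congr 1 <;> ext k <;>
    simp [pc, Finset.mem_inter, Finset.mem_sdiff, and_comm]

/-- the number of injective `P` with given incidences with two lines -/
theorem two_card (L L' : Lin p) (A B : Finset (Fin 10)) :
    ((Nat.card {P : Fin 10 → ZMod p × ZMod p // Function.Injective P ∧
      (AL L P = A ∧ AL L' P = B)} : ℕ) : ℚ) = FF A B (kap L L') p := by
  classical
  have e1 : Nat.card {P : Fin 10 → ZMod p × ZMod p // Function.Injective P ∧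
      (AL L P = A ∧ AL L' P = B)} = Nat.card {P : Fin 10 → ZMod p × ZMod p //
      Function.Injective P ∧ ∀ k, pg L L' (P k) = pc A B k} :=
    Nat.card_congr (Equiv.subtypeEquivRight fun P => by rw [pg_pc])
  obtain ⟨c1, c2, c3, c4⟩ := card_pc A B
  obtain ⟨s1, s2, s3⟩ := card_sum L L'
  rw [e1, pat_card, Fintype.prod_prod_type]
  simp only [Fintype.prod_bool]
  rw [c1, c2, c3, c4, card_tt]
  rw [card_tt] at s1 s2 s3
  have t1 : ((Nat.card {v // pg L L' v = (true, false)} : ℕ) : ℚ) = p - kap L L' := by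
    have : ((kap L L' : ℕ) : ℚ) + (Nat.card {v // pg L L' v = (true, false)} : ℕ) = p := by
      exact_mod_cast s1
    linear_combination this
  have t2 : ((Nat.card {v // pg L L' v = (false, true)} : ℕ) : ℚ) = p - kap L L' := by
    have : ((kap L L' : ℕ) : ℚ) + (Nat.card {v // pg L L' v = (false, true)} : ℕ) = p := by
      exact_mod_cast s2
    linear_combination this
  have t3 : ((Nat.card {v // pg L L' v = (false, false)} : ℕ) : ℚ) =
      (p : ℚ) ^ 2 - 2 * p + kap L L' := by
    have : ((kap L L' : ℕ) : ℚ) + (Nat.card {v // pg L L' v = (true, false)} : ℕ) +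
        (Nat.card {v // pg L L' v = (false, true)} : ℕ) +
        (Nat.card {v // pg L L' v = (false, false)} : ℕ) = (p : ℚ) ^ 2 := by
      exact_mod_cast s3
    rw [t1, t2] at this
    linear_combination this
  push_cast
  rw [ff_nat, ff_nat, ff_nat, ff_nat, t1, t2, t3]
  rfl

/-- the number of lines -/
theorem card_Lin : Fintype.card (Lin p) = p ^ 2 + p := by
  rw [Fintype.card_sum, Fintype.card_prod, ZMod.card, pow_two]

/-- the sum of the numbers of common points -/
theorem sum_kap : ∑ x ∈ (univ : Finset (Lin p)).offDiag, kap x.1 x.2 =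
    p ^ 2 * ((p + 1) * (p + 1) - (p + 1)) := by
  classical
  have h1 : ∀ x : Lin p × Lin p, kap x.1 x.2 =
      ∑ v : ZMod p × ZMod p, if onL x.1 v ∧ onL x.2 v then 1 else 0 := by
    intro x
    unfold kap
    rw [Nat.card_eq_fintype_card, Fintype.card_subtype, Finset.card_filter]
  simp_rw [h1]
  rw [Finset.sum_comm]
  have h2 : ∀ v : ZMod p × ZMod p, (∑ x ∈ (univ : Finset (Lin p)).offDiag,
      if onL x.1 v ∧ onL x.2 v then 1 else 0) = (p + 1) * (p + 1) - (p + 1) := by
    intro v
    rw [← Finset.card_filter]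
    have h3 : (univ : Finset (Lin p)).offDiag.filter (fun x => onL x.1 v ∧ onL x.2 v) =
        ((univ : Finset (Lin p)).filter fun L => onL L v).offDiag := by
      ext x
      simp only [Finset.mem_filter, Finset.mem_offDiag, Finset.mem_univ, true_and]
      tauto
    rw [h3, Finset.offDiag_card]
    have h4 := card_thru v
    rw [Nat.card_eq_fintype_card, Fintype.card_subtype] at h4
    rw [h4]
  rw [Finset.sum_congr rfl fun v _ => h2 v, Finset.sum_const, Finset.card_univ,
    Fintype.card_prod, ZMod.card, smul_eq_mul, pow_two]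

theorem sel {α : Type} [Fintype α] [DecidableEq α] (Q : α → Prop) [DecidablePred Q] (a : α) :
    (if Q a then 1 else 0 : ℕ) = ∑ x ∈ (univ : Finset α).filter Q, if a = x then 1 else 0 := by
  rw [Finset.sum_ite_eq]
  simp

open Classical in
/-- double counting for a general family of patterns -/
theorem TT_gen {Y α Z : Type} [Fintype Y] [Fintype α] [DecidableEq α] (S : Finset Z)
    (D : Finset Y) (Q : α → Prop) (f : Y → Z → α) :
    ∑ P ∈ S, (D.filter fun y => Q (f y P)).card =
      ∑ x ∈ (univ : Finset α).filter Q, ∑ y ∈ D, (S.filter fun P => f y P = x).card := by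
  have h3 : ∀ (P : Z) (y : Y), (if Q (f y P) then 1 else 0 : ℕ) =
      ∑ x ∈ (univ : Finset α).filter Q, if f y P = x then 1 else 0 := fun P y => sel Q (f y P)
  simp_rw [Finset.card_filter, h3]
  rw [Finset.sum_congr rfl fun P _ => Finset.sum_comm, Finset.sum_comm]
  exact Finset.sum_congr rfl fun x _ => Finset.sum_comm

open Classical in
theorem TT_eq (Q : Finset (Fin 10) → Finset (Fin 10) → Prop) :
    ((TT p Q : ℕ) : ℚ) = ∑ x ∈ (univ : Finset (Finset (Fin 10) ×
      Finset (Fin 10))).filter (fun x => Q x.1 x.2),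
      (((((p : ℚ) ^ 2 + p) * ((p : ℚ) ^ 2 + p) - ((p : ℚ) ^ 2 + p)) * FF x.1 x.2 0 p) +
        ((p : ℚ) ^ 2 * (((p : ℚ) + 1) * (p + 1) - (p + 1))) * (FF x.1 x.2 1 p -
          FF x.1 x.2 0 p)) := by
  have h1 := TT_gen ((univ : Finset (Fin 10 → ZMod p × ZMod p)).filter Function.Injective)
    (univ : Finset (Lin p)).offDiag (fun x : Finset (Fin 10) × Finset (Fin 10) => Q x.1 x.2)
    (fun y P => (AL y.1 P, AL y.2 P))
  have h2 : TT p Q = ∑ P ∈ (univ : Finset (Fin 10 → ZMod p × ZMod p)).filter Function.Injective,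
    ((univ : Finset (Lin p)).offDiag.filter fun x => Q (AL x.1 P) (AL x.2 P)).card := by
    unfold TT
    convert rfl
  rw [h2, h1]
  push_cast
  refine Finset.sum_congr rfl fun x _ => ?_
  have h4 : ∀ y ∈ (univ : Finset (Lin p)).offDiag,
      (((((univ : Finset (Fin 10 → ZMod p × ZMod p)).filter Function.Injective).filter
        fun P => (AL y.1 P, AL y.2 P) = x).card : ℕ) : ℚ) =
      FF x.1 x.2 0 p + (kap y.1 y.2 : ℕ) * (FF x.1 x.2 1 p - FF x.1 x.2 0 p) := by
    intro y hy
    have h6 : (((univ : Finset (Fin 10 → ZMod p × ZMod p)).filter Function.Injective).filter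
        fun P => (AL y.1 P, AL y.2 P) = x).card = Nat.card {P : Fin 10 → ZMod p × ZMod p //
        Function.Injective P ∧ (AL y.1 P = x.1 ∧ AL y.2 P = x.2)} := by
      rw [Nat.card_eq_fintype_card, Fintype.card_subtype]
      refine congrArg Finset.card (Finset.ext fun P => ?_)
      rw [Finset.mem_filter, Finset.mem_filter, Finset.mem_filter, Prod.ext_iff, and_assoc]
    rw [h6, two_card]
    have h5 := kap_le (Finset.mem_offDiag.1 hy).2.2
    rcases (by omega : kap y.1 y.2 = 0 ∨ kap y.1 y.2 = 1) with h | h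
    · rw [h]
      push_cast
      ring
    · rw [h]
      push_cast
      ring
  have hp := (Fact.out : p.Prime).pos
  have c1 : (((p ^ 2 + p) * (p ^ 2 + p) - (p ^ 2 + p) : ℕ) : ℚ) =
      (((p : ℚ) ^ 2 + p) * ((p : ℚ) ^ 2 + p) - ((p : ℚ) ^ 2 + p)) := by
    rw [Nat.cast_sub (Nat.le_mul_self _)]
    push_cast
    ring
  have c2 : ((p ^ 2 * ((p + 1) * (p + 1) - (p + 1)) : ℕ) : ℚ) =
      (p : ℚ) ^ 2 * (((p : ℚ) + 1) * (p + 1) - (p + 1)) := by
    rw [Nat.cast_mul, Nat.cast_sub (Nat.le_mul_self _)]
    push_cast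
    ring
  have hk := sum_kap (p := p)
  rw [Finset.sum_congr rfl h4, Finset.sum_add_distrib, Finset.sum_const, ← Finset.sum_mul,
    ← Nat.cast_sum, nsmul_eq_mul]
  have hk' : (∑ x ∈ (univ : Finset (Lin p)).offDiag, kap x.1 x.2 : ℕ) =
      p ^ 2 * ((p + 1) * (p + 1) - (p + 1)) := by
    convert hk
  rw [hk', c2, Finset.offDiag_card, Finset.card_univ, card_Lin, c1]

end dc

/-- the double counts are rational functions -/
theorem RatF_FF (A B : Finset (Fin 10)) (k : ℚ) : RatF (fun p => FF A B k p) := by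
  unfold FF
  exact (((RatF.const k).ff _).mul ((RatF.id.sub (RatF.const k)).ff _)).mul
    (((RatF.id.sub (RatF.const k)).ff _).mul
      ((((RatF.pPow 2).sub ((RatF.const 2).mul RatF.id)).add (RatF.const k)).ff _))

theorem RatF_TT (Q : Finset (Fin 10) → Finset (Fin 10) → Prop) :
    RatF (fun p _ => ((TT p Q : ℕ) : ℚ)) := by
  classical
  have h1 : RatF (fun p => (p : ℚ) ^ 2 + p) := (RatF.pPow 2).add RatF.id
  have h2 : RatF (fun p => (p : ℚ) + 1) := RatF.id.add (RatF.const 1)
  refine (RatF.sum ((univ : Finset (Finset (Fin 10) × Finset (Fin 10))).filter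
    fun x => Q x.1 x.2) (fun x p _ =>
      (((((p : ℚ) ^ 2 + p) * ((p : ℚ) ^ 2 + p) - ((p : ℚ) ^ 2 + p)) * FF x.1 x.2 0 p) +
        ((p : ℚ) ^ 2 * (((p : ℚ) + 1) * (p + 1) - (p + 1))) * (FF x.1 x.2 1 p -
          FF x.1 x.2 0 p))) fun x _ => ?_).congr fun p _ _ => ?_
  · exact ((((h1.mul h1).sub h1).mul (RatF_FF _ _ _)).add
      (((RatF.pPow 2).mul ((h2.mul h2).sub h2)).mul ((RatF_FF _ _ _).sub (RatF_FF _ _ _))))
  · exact TT_eq Q

/-! ### combinatorics of the index sets -/

section comb

variable {Λ : Type} [Fintype Λ] [DecidableEq Λ]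

/-- a third line contains few points -/
theorem third (A : Λ → Finset (Fin 10)) (hA : ∀ L L', L ≠ L' → (A L ∩ A L').card ≤ 1) {L L' M : Λ}
    (h1 : M ≠ L) (h2 : M ≠ L') : (A M).card + (A L ∪ A L').card ≤ 12 := by
  have e1 : A M ⊆ (A M ∩ A L) ∪ (A M ∩ A L') ∪ (A L ∪ A L')ᶜ := by
    intro k hk
    simp only [Finset.mem_union, Finset.mem_inter, Finset.mem_compl]
    tauto
  have e2 := Finset.card_le_card e1
  have e3 := Finset.card_union_le ((A M ∩ A L) ∪ (A M ∩ A L')) (A L ∪ A L')ᶜ
  have e4 := Finset.card_union_le (A M ∩ A L) (A M ∩ A L')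
  have e5 := Finset.card_compl (A L ∪ A L')
  have e6 := Finset.card_le_univ (A L ∪ A L')
  rw [Fintype.card_fin] at e5 e6
  have e7 := hA M L h1
  have e8 := hA M L' h2
  omega

theorem union_card (A B : Finset (Fin 10)) : (A ∪ B).card + (A ∩ B).card = A.card + B.card :=
  Finset.card_union_add_card_inter A B

theorem pair_two (A : Λ → Finset (Fin 10)) {L L' : Λ} (h : L ≠ L') (h1 : (A L).card = 5)
    (h2 : (A L').card = 5) (c : ℕ) (h3 : (A L ∩ A L').card = c)
    (h4 : ∀ M, M ≠ L → M ≠ L' → (A M).card ≤ 4) :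
    ((univ : Finset Λ).offDiag.filter fun x => (A x.1).card = 5 ∧ (A x.2).card = 5 ∧
      (A x.1 ∩ A x.2).card = c).card = 2 := by
  have e1 : ((univ : Finset Λ).offDiag.filter fun x => (A x.1).card = 5 ∧ (A x.2).card = 5 ∧
      (A x.1 ∩ A x.2).card = c) = {(L, L'), (L', L)} := by
    ext ⟨M, M'⟩
    simp only [Finset.mem_filter, Finset.mem_offDiag, Finset.mem_univ, true_and,
      Finset.mem_insert, Finset.mem_singleton, Prod.mk.injEq]
    constructor
    · rintro ⟨hne, a, b, -⟩
      have hM : M = L ∨ M = L' := by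
        by_contra hcon
        push Not at hcon
        have := h4 M hcon.1 hcon.2
        omega
      have hM' : M' = L ∨ M' = L' := by
        by_contra hcon
        push Not at hcon
        have := h4 M' hcon.1 hcon.2
        omega
      rcases hM with rfl | rfl <;> rcases hM' with rfl | rfl
      · exact absurd rfl hne
      · exact Or.inl ⟨rfl, rfl⟩
      · exact Or.inr ⟨rfl, rfl⟩
      · exact absurd rfl hne
    · rintro (⟨rfl, rfl⟩ | ⟨rfl, rfl⟩)
      · exact ⟨h, h1, h2, h3⟩
      · exact ⟨h.symm, h2, h1, by rw [Finset.inter_comm]; exact h3⟩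
  rw [e1, Finset.card_pair]
  intro h5
  exact h (Prod.mk.inj h5).1

theorem pair_one (A : Λ → Finset (Fin 10)) {L L' : Λ} (h : L ≠ L') (h1 : (A L).card = 5)
    (h2 : (A L').card = 4) (h3 : (A L ∩ A L').card = 0)
    (h4 : ∀ M, M ≠ L → M ≠ L' → (A M).card ≤ 3) :
    ((univ : Finset Λ).offDiag.filter fun x => (A x.1).card = 5 ∧ (A x.2).card = 4 ∧
      (A x.1 ∩ A x.2).card = 0).card = 1 := by
  have e1 : ((univ : Finset Λ).offDiag.filter fun x => (A x.1).card = 5 ∧ (A x.2).card = 4 ∧
      (A x.1 ∩ A x.2).card = 0) = {(L, L')} := by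
    ext ⟨M, M'⟩
    simp only [Finset.mem_filter, Finset.mem_offDiag, Finset.mem_univ, true_and,
      Finset.mem_singleton, Prod.mk.injEq]
    constructor
    · rintro ⟨hne, a, b, -⟩
      have hM : M = L := by
        by_contra hcon
        by_cases hM' : M = L'
        · rw [hM', h2] at a
          omega
        · have := h4 M hcon hM'
          omega
      have hM' : M' = L' := by
        by_contra hcon
        by_cases hM' : M' = L
        · rw [hM', h1] at b
          omega
        · have := h4 M' hM' hcon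
          omega
      exact ⟨hM, hM'⟩
    · rintro ⟨rfl, rfl⟩
      exact ⟨h, h1, h2, h3⟩
  rw [e1, Finset.card_singleton]

/-- the case of two lines with five points each -/
theorem claim3 (A : Λ → Finset (Fin 10)) (hA : ∀ L L', L ≠ L' → (A L ∩ A L').card ≤ 1)
    (w a b c : ℕ) (hab : a ≠ b) (hac : a ≠ c)
    (hw : ∀ L, (A L).card = 5 → ((∃ L', (A L' \ A L).card = 5) → w = a) ∧
      ((∃ L', (A L' \ A L).card = 4) → w = b) ∧ ((∀ L', (A L' \ A L).card ≤ 3) → w = c))
    [Decidable ((∀ L, (A L).card ≤ 5) ∧ (∃ L, (A L).card = 5) ∧ w = a)] :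
    ((univ : Finset Λ).offDiag.filter fun x => (A x.1).card = 5 ∧ (A x.2).card = 5 ∧
      (A x.1 ∩ A x.2).card = 0).card =
      if (∀ L, (A L).card ≤ 5) ∧ (∃ L, (A L).card = 5) ∧ w = a then 2 else 0 := by
  by_cases hex : ∃ L L', L ≠ L' ∧ (A L).card = 5 ∧ (A L').card = 5 ∧ (A L ∩ A L').card = 0
  · obtain ⟨L, L', h, h1, h2, h3⟩ := hex
    have hu := union_card (A L) (A L')
    have h4 : ∀ M, M ≠ L → M ≠ L' → (A M).card ≤ 4 := fun M hM hM' => by
      have := third A hA hM hM'
      omega
    rw [pair_two A h h1 h2 0 h3 h4, if_pos]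
    refine ⟨fun M => ?_, ⟨L, h1⟩, (hw L h1).1 ⟨L', ?_⟩⟩
    · by_cases hM : M = L
      · rw [hM]; omega
      · by_cases hM' : M = L'
        · rw [hM']; omega
        · have := h4 M hM hM'
          omega
    · have := Finset.card_sdiff_add_card_inter (A L') (A L)
      rw [Finset.inter_comm] at this
      omega
  · have h0 : ((univ : Finset Λ).offDiag.filter fun x => (A x.1).card = 5 ∧ (A x.2).card = 5 ∧
      (A x.1 ∩ A x.2).card = 0).card = 0 := by
      rw [Finset.card_eq_zero, Finset.filter_eq_empty_iff]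
      rintro ⟨M, M'⟩ hm ⟨a1, a2, a3⟩
      exact hex ⟨M, M', (Finset.mem_offDiag.1 hm).2.2, a1, a2, a3⟩
    rw [h0, if_neg]
    rintro ⟨hle, ⟨L, hL⟩, hwa⟩
    obtain ⟨w1, w2, w3⟩ := hw L hL
    by_cases h5 : ∃ L', (A L' \ A L).card = 5
    · obtain ⟨L', hL'⟩ := h5
      have hne : L ≠ L' := by
        rintro rfl
        simp at hL'
      have h6 := Finset.card_sdiff_add_card_inter (A L') (A L)
      rw [Finset.inter_comm] at h6
      have h7 := hle L'
      exact hex ⟨L, L', hne, hL, by omega, by omega⟩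
    · by_cases h6 : ∃ L', (A L' \ A L).card = 4
      · exact hab (hwa ▸ w2 h6)
      · refine hac (hwa ▸ w3 fun L' => ?_)
        have h7 := Finset.card_sdiff_add_card_inter (A L') (A L)
        have h8 := hle L'
        have h9 : (A L' \ A L).card ≠ 5 := fun h => h5 ⟨L', h⟩
        have h10 : (A L' \ A L).card ≠ 4 := fun h => h6 ⟨L', h⟩
        omega

/-- the case of a line with five points, and four other points on a line -/
theorem claim2 (A : Λ → Finset (Fin 10)) (hA : ∀ L L', L ≠ L' → (A L ∩ A L').card ≤ 1)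
    (w a b c : ℕ) (hab : a ≠ b) (hbc : b ≠ c)
    (hw : ∀ L, (A L).card = 5 → ((∃ L', (A L' \ A L).card = 5) → w = a) ∧
      ((∃ L', (A L' \ A L).card = 4) → w = b) ∧ ((∀ L', (A L' \ A L).card ≤ 3) → w = c))
    [Decidable ((∀ L, (A L).card ≤ 5) ∧ (∃ L, (A L).card = 5) ∧ w = b)] :
    2 * ((univ : Finset Λ).offDiag.filter fun x => (A x.1).card = 5 ∧ (A x.2).card = 4 ∧
      (A x.1 ∩ A x.2).card = 0).card +
    ((univ : Finset Λ).offDiag.filter fun x => (A x.1).card = 5 ∧ (A x.2).card = 5 ∧
      (A x.1 ∩ A x.2).card = 1).card =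
      if (∀ L, (A L).card ≤ 5) ∧ (∃ L, (A L).card = 5) ∧ w = b then 2 else 0 := by
  by_cases hex : ∃ L L', L ≠ L' ∧ (A L).card = 5 ∧ (A L').card = 4 ∧ (A L ∩ A L').card = 0
  · obtain ⟨L, L', h, h1, h2, h3⟩ := hex
    have hu := union_card (A L) (A L')
    have h4 : ∀ M, M ≠ L → M ≠ L' → (A M).card ≤ 3 := fun M hM hM' => by
      have := third A hA hM hM'
      omega
    have h0 : ((univ : Finset Λ).offDiag.filter fun x => (A x.1).card = 5 ∧ (A x.2).card = 5 ∧
      (A x.1 ∩ A x.2).card = 1).card = 0 := by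
      rw [Finset.card_eq_zero, Finset.filter_eq_empty_iff]
      rintro ⟨M, M'⟩ hm ⟨a1, a2, a3⟩
      have key : ∀ M, (A M).card = 5 → M = L := by
        intro M hM
        by_contra hcon
        by_cases hM' : M = L'
        · rw [hM', h2] at hM
          omega
        · have := h4 M hcon hM'
          omega
      exact (Finset.mem_offDiag.1 hm).2.2 ((key _ a1).trans (key _ a2).symm)
    rw [pair_one A h h1 h2 h3 h4, h0, if_pos]
    refine ⟨fun M => ?_, ⟨L, h1⟩, (hw L h1).2.1 ⟨L', ?_⟩⟩
    · by_cases hM : M = L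
      · rw [hM]; omega
      · by_cases hM' : M = L'
        · rw [hM']; omega
        · have := h4 M hM hM'
          omega
    · have := Finset.card_sdiff_add_card_inter (A L') (A L)
      rw [Finset.inter_comm] at this
      omega
  · have h0 : ((univ : Finset Λ).offDiag.filter fun x => (A x.1).card = 5 ∧ (A x.2).card = 4 ∧
      (A x.1 ∩ A x.2).card = 0).card = 0 := by
      rw [Finset.card_eq_zero, Finset.filter_eq_empty_iff]
      rintro ⟨M, M'⟩ hm ⟨a1, a2, a3⟩
      exact hex ⟨M, M', (Finset.mem_offDiag.1 hm).2.2, a1, a2, a3⟩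
    rw [h0]
    by_cases hex' : ∃ L L', L ≠ L' ∧ (A L).card = 5 ∧ (A L').card = 5 ∧ (A L ∩ A L').card = 1
    · obtain ⟨L, L', h, h1, h2, h3⟩ := hex'
      have hu := union_card (A L) (A L')
      have h4 : ∀ M, M ≠ L → M ≠ L' → (A M).card ≤ 4 := fun M hM hM' => by
        have := third A hA hM hM'
        omega
      rw [pair_two A h h1 h2 1 h3 h4, if_pos]
      refine ⟨fun M => ?_, ⟨L, h1⟩, (hw L h1).2.1 ⟨L', ?_⟩⟩
      · by_cases hM : M = L
        · rw [hM]; omega
        · by_cases hM' : M = L'
          · rw [hM']; omega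
          · have := h4 M hM hM'
            omega
      · have := Finset.card_sdiff_add_card_inter (A L') (A L)
        rw [Finset.inter_comm] at this
        omega
    · have h0' : ((univ : Finset Λ).offDiag.filter fun x => (A x.1).card = 5 ∧
        (A x.2).card = 5 ∧ (A x.1 ∩ A x.2).card = 1).card = 0 := by
        rw [Finset.card_eq_zero, Finset.filter_eq_empty_iff]
        rintro ⟨M, M'⟩ hm ⟨a1, a2, a3⟩
        exact hex' ⟨M, M', (Finset.mem_offDiag.1 hm).2.2, a1, a2, a3⟩
      rw [h0', if_neg]
      rintro ⟨hle, ⟨L, hL⟩, hwa⟩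
      obtain ⟨w1, w2, w3⟩ := hw L hL
      by_cases h5 : ∃ L', (A L' \ A L).card = 4
      · obtain ⟨L', hL'⟩ := h5
        have hne : L ≠ L' := by
          rintro rfl
          simp at hL'
        have h6 := Finset.card_sdiff_add_card_inter (A L') (A L)
        rw [Finset.inter_comm] at h6
        have h7 := hle L'
        have h8 := hA L L' hne
        rcases (by omega : (A L ∩ A L').card = 0 ∨ (A L ∩ A L').card = 1) with h9 | h9
        · exact hex ⟨L, L', hne, hL, by omega, h9⟩
        · exact hex' ⟨L, L', hne, hL, by omega, h9⟩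
      · by_cases h6 : ∃ L', (A L' \ A L).card = 5
        · exact hab (hwa ▸ w1 h6).symm
        · refine hbc (hwa ▸ w3 fun L' => ?_)
          have h7 := Finset.card_sdiff_add_card_inter (A L') (A L)
          have h8 := hle L'
          have h9 : (A L' \ A L).card ≠ 5 := fun h => h6 ⟨L', h⟩
          have h10 : (A L' \ A L).card ≠ 4 := fun h => h5 ⟨L', h⟩
          omega

end comb

/-- the number of cubics through the points -/
theorem w3_five (hR : S_RED) (hC : S_C2) {p : ℕ} [Fact p.Prime] (hp : 5 ≤ p)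
    {P : Fin 10 → ZMod p × ZMod p} (hP : Function.Injective P) :
    ∀ L, (AL L P).card = 5 → ((∃ L', (AL L' P \ AL L P).card = 5) → w3 (Set.range P) = p ^ 3) ∧
      ((∃ L', (AL L' P \ AL L P).card = 4) → w3 (Set.range P) = p ^ 2) ∧
      ((∀ L', (AL L' P \ AL L P).card ≤ 3) → w3 (Set.range P) = p) := by
  intro L hL
  have h1 := (hR p hp L (Set.range P)).1 (by rw [nL_range hP]; omega)
  have h2 : Nat.card (offL L (Set.range P)) = 5 := by
    rw [card_off hP, Finset.card_compl, Fintype.card_fin, hL]
  obtain ⟨c1, c2, c3⟩ := (hC p hp (offL L (Set.range P))).2.2.1 h2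
  simp only [nL_off hP] at c1 c2 c3
  rw [h1]
  exact ⟨c1, c2, c3⟩

theorem cnt5 (hR : S_RED) (hC : S_C2) : S_CNT5 := by
  classical
  intro i hi
  have hcard : ∀ (p : ℕ) [Fact p.Prime], Nat.card {P : Fin 10 → ZMod p × ZMod p //
      Function.Injective P ∧ (∀ L, nI L P ≤ 5) ∧ (∃ L, nI L P = 5) ∧
      w3 (Set.range P) = p ^ i} =
      ∑ P ∈ (univ : Finset (Fin 10 → ZMod p × ZMod p)).filter Function.Injective,
        if (∀ L, (AL L P).card ≤ 5) ∧ (∃ L, (AL L P).card = 5) ∧ w3 (Set.range P) = p ^ i
        then 1 else 0 := by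
    intro p _
    rw [Nat.card_eq_fintype_card, Fintype.card_subtype, ← Finset.card_filter]
    refine congrArg Finset.card (Finset.ext fun P => ?_)
    rw [Finset.mem_filter, Finset.mem_filter, Finset.mem_filter, and_assoc]
    simp only [nI_eq]
  have hinj : ∀ (p : ℕ) [Fact p.Prime] (a b : ℕ), a ≠ b → p ^ a ≠ p ^ b := by
    intro p _ a b hab h
    exact hab (Nat.pow_right_injective (Fact.out : p.Prime).two_le h)
  rcases (by omega : i = 2 ∨ i = 3 ∨ 4 ≤ i) with rfl | rfl | h4
  · refine ((RatF_TT fun X Y => X.card = 5 ∧ Y.card = 4 ∧ (X ∩ Y).card = 0).add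
      ((RatF.const (1 / 2)).mul (RatF_TT fun X Y => X.card = 5 ∧ Y.card = 5 ∧
        (X ∩ Y).card = 1))).congr fun p _ hp => ?_
    have key : 2 * TT p (fun X Y => X.card = 5 ∧ Y.card = 4 ∧ (X ∩ Y).card = 0) +
        TT p (fun X Y => X.card = 5 ∧ Y.card = 5 ∧ (X ∩ Y).card = 1) =
        2 * ∑ P ∈ (univ : Finset (Fin 10 → ZMod p × ZMod p)).filter Function.Injective,
        if (∀ L, (AL L P).card ≤ 5) ∧ (∃ L, (AL L P).card = 5) ∧ w3 (Set.range P) = p ^ 2
        then 1 else 0 := by
      unfold TT
      rw [Finset.mul_sum, Finset.mul_sum, ← Finset.sum_add_distrib]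
      refine Finset.sum_congr rfl fun P hP => ?_
      have hPi : Function.Injective P := (Finset.mem_filter.1 hP).2
      have h := claim2 (fun L => AL L P) (fun L L' h => AL_inter hPi h) (w3 (Set.range P))
        (p ^ 3) (p ^ 2) p (hinj p 3 2 (by norm_num)) (by
          have := hinj p 2 1 (by norm_num)
          rwa [pow_one] at this) (w3_five hR hC hp hPi)
      rw [mul_ite, mul_one, mul_zero]
      convert h
    have key2 : (2 : ℚ) * (TT p (fun X Y => X.card = 5 ∧ Y.card = 4 ∧ (X ∩ Y).card = 0) : ℕ) +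
        (TT p (fun X Y => X.card = 5 ∧ Y.card = 5 ∧ (X ∩ Y).card = 1) : ℕ) =
        2 * (Nat.card {P : Fin 10 → ZMod p × ZMod p //
      Function.Injective P ∧ (∀ L, nI L P ≤ 5) ∧ (∃ L, nI L P = 5) ∧
      w3 (Set.range P) = p ^ 2} : ℕ) := by
      rw [hcard]
      exact_mod_cast key
    linear_combination -(1 / 2 : ℚ) * key2
  · refine ((RatF.const (1 / 2)).mul (RatF_TT fun X Y => X.card = 5 ∧ Y.card = 5 ∧
        (X ∩ Y).card = 0)).congr fun p _ hp => ?_
    have key : TT p (fun X Y => X.card = 5 ∧ Y.card = 5 ∧ (X ∩ Y).card = 0) =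
        2 * ∑ P ∈ (univ : Finset (Fin 10 → ZMod p × ZMod p)).filter Function.Injective,
        if (∀ L, (AL L P).card ≤ 5) ∧ (∃ L, (AL L P).card = 5) ∧ w3 (Set.range P) = p ^ 3
        then 1 else 0 := by
      unfold TT
      rw [Finset.mul_sum]
      refine Finset.sum_congr rfl fun P hP => ?_
      have hPi : Function.Injective P := (Finset.mem_filter.1 hP).2
      have h := claim3 (fun L => AL L P) (fun L L' h => AL_inter hPi h) (w3 (Set.range P))
        (p ^ 3) (p ^ 2) p (hinj p 3 2 (by norm_num)) (by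
          have := hinj p 3 1 (by norm_num)
          rwa [pow_one] at this) (w3_five hR hC hp hPi)
      rw [mul_ite, mul_one, mul_zero]
      convert h
    have key2 : ((TT p (fun X Y => X.card = 5 ∧ Y.card = 5 ∧ (X ∩ Y).card = 0) : ℕ) : ℚ) =
        2 * (Nat.card {P : Fin 10 → ZMod p × ZMod p //
      Function.Injective P ∧ (∀ L, nI L P ≤ 5) ∧ (∃ L, nI L P = 5) ∧
      w3 (Set.range P) = p ^ 3} : ℕ) := by
      rw [hcard]
      exact_mod_cast key
    linear_combination -(1 / 2 : ℚ) * key2
  · refine (RatF.const 0).congr fun p _ hp => ?_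
    rw [hcard, Finset.sum_eq_zero]
    · simp
    intro P hP
    have hPi : Function.Injective P := (Finset.mem_filter.1 hP).2
    rw [if_neg]
    rintro ⟨hle, ⟨L, hL⟩, hw⟩
    obtain ⟨w1, w2, w3⟩ := w3_five hR hC hp hPi L hL
    by_cases h5 : ∃ L', (AL L' P \ AL L P).card = 5
    · rw [w1 h5] at hw
      exact hinj p 3 i (by omega) hw
    · by_cases h6 : ∃ L', (AL L' P \ AL L P).card = 4
      · rw [w2 h6] at hw
        exact hinj p 2 i (by omega) hw
      · rw [w3 fun L' => ?_] at hw
        · exact hinj p 1 i (by omega) (by rw [pow_one]; exact hw)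
        · have h7 := Finset.card_sdiff_add_card_inter (AL L' P) (AL L P)
          have h8 := hle L'
          have h9 : (AL L' P \ AL L P).card ≠ 5 := fun h => h5 ⟨L', h⟩
          have h10 : (AL L' P \ AL L P).card ≠ 4 := fun h => h6 ⟨L', h⟩
          omega

end Pool.Agent.NH28.UR.Cnt5
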