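import Pool.Agent.NH28.UR.Cnt5

set_option autoImplicit false
set_option linter.unusedSectionVars false

/-!
# Project UR: configurations with a line through at least six points
-/

namespace Pool.Agent.NH28.UR.Cnt6

open Finset Pool.Agent.NH28.UR Pool.Agent.NH28.UR.Cnt5

section dc

variable {p : ℕ} [Fact p.Prime]

/-- the number of injective `P` with given incidences with a line -/
theorem one_card (L : Lin p) (A : Finset (Fin 10)) :
    ((Nat.card {P : Fin 10 → ZMod p × ZMod p // Function.Injective P ∧ AL L P = A} : ℕ) : ℚ) =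
      ff p A.card * ff ((p : ℚ) ^ 2 - p) Aᶜ.card := by
  classical
  have e1 : Nat.card {P : Fin 10 → ZMod p × ZMod p // Function.Injective P ∧ AL L P = A} =
      Nat.card {P : Fin 10 → ZMod p × ZMod p // Function.Injective P ∧
        ∀ k, decide (onL L (P k)) = decide (k ∈ A)} :=
    Nat.card_congr (Equiv.subtypeEquivRight fun P => by
      refine and_congr Iff.rfl ?_
      rw [Finset.ext_iff]
      exact forall_congr' fun k => by rw [mem_AL, decide_eq_decide])
  rw [e1, pat_card (fun k : Fin 10 => decide (k ∈ A)) fun v : ZMod p × ZMod p => decide (onL L v)]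
  rw [Fintype.prod_bool]
  have a1 : Nat.card {k : Fin 10 // decide (k ∈ A) = true} = A.card := by
    rw [Nat.card_eq_fintype_card, Fintype.card_subtype]
    congr 1
    ext k
    simp
  have a2 : Nat.card {k : Fin 10 // decide (k ∈ A) = false} = Aᶜ.card := by
    rw [Nat.card_eq_fintype_card, Fintype.card_subtype]
    congr 1
    ext k
    simp
  have b1 : Nat.card {v : ZMod p × ZMod p // decide (onL L v) = true} = p := by
    refine (Nat.card_congr (Equiv.subtypeEquivRight fun v => ?_)).trans (card_line L)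
    simp
  have b2 : Nat.card {v : ZMod p × ZMod p // decide (onL L v) = true} +
      Nat.card {v : ZMod p × ZMod p // decide (onL L v) = false} = p ^ 2 := by
    rw [Nat.card_eq_fintype_card, Nat.card_eq_fintype_card, Fintype.card_subtype,
      Fintype.card_subtype]
    have h3 : Fintype.card (ZMod p × ZMod p) = p ^ 2 := by
      rw [Fintype.card_prod, ZMod.card, pow_two]
    rw [← h3, ← Finset.card_univ,
      ← Finset.card_filter_add_card_filter_not (s := (univ : Finset (ZMod p × ZMod p)))
        (fun v => decide (onL L v) = true)]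
    congr 2
    ext v
    simp
  have b3 : ((Nat.card {v : ZMod p × ZMod p // decide (onL L v) = false} : ℕ) : ℚ) =
      (p : ℚ) ^ 2 - p := by
    rw [b1] at b2
    have : (p : ℚ) + (Nat.card {v : ZMod p × ZMod p // decide (onL L v) = false} : ℕ) =
      (p : ℚ) ^ 2 := by exact_mod_cast b2
    linear_combination this
  rw [a1, a2, b1]
  push_cast
  rw [ff_nat, ff_nat, b3]

open Classical in
theorem T1_eq (Q : Finset (Fin 10) → Prop) :
    ((T1 p Q : ℕ) : ℚ) = ∑ A ∈ (univ : Finset (Finset (Fin 10))).filter Q,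
      ((p : ℚ) ^ 2 + p) * (ff p A.card * ff ((p : ℚ) ^ 2 - p) Aᶜ.card) := by
  have h1 := TT_gen ((univ : Finset (Fin 10 → ZMod p × ZMod p)).filter Function.Injective)
    (univ : Finset (Lin p)) Q (fun y P => AL y P)
  have h2 : T1 p Q = ∑ P ∈ (univ : Finset (Fin 10 → ZMod p × ZMod p)).filter Function.Injective,
    ((univ : Finset (Lin p)).filter fun x => Q (AL x P)).card := by
    unfold T1
    convert rfl
  rw [h2, h1]
  push_cast
  refine Finset.sum_congr rfl fun A _ => ?_
  have h4 : ∀ y ∈ (univ : Finset (Lin p)),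
      (((((univ : Finset (Fin 10 → ZMod p × ZMod p)).filter Function.Injective).filter
        fun P => AL y P = A).card : ℕ) : ℚ) =
      ff p A.card * ff ((p : ℚ) ^ 2 - p) Aᶜ.card := by
    intro y _
    rw [← one_card y A, Nat.card_eq_fintype_card, Fintype.card_subtype]
    refine congrArg (fun n : ℕ => (n : ℚ)) (congrArg Finset.card (Finset.ext fun P => ?_))
    rw [Finset.mem_filter, Finset.mem_filter, Finset.mem_filter, and_assoc]
  rw [Finset.sum_congr rfl h4, Finset.sum_const, Finset.card_univ, card_Lin, nsmul_eq_mul]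
  push_cast
  ring

end dc

theorem RatF_T1 (Q : Finset (Fin 10) → Prop) : RatF (fun p _ => ((T1 p Q : ℕ) : ℚ)) := by
  classical
  refine (RatF.sum ((univ : Finset (Finset (Fin 10))).filter Q) (fun A p _ =>
      ((p : ℚ) ^ 2 + p) * (ff p A.card * ff ((p : ℚ) ^ 2 - p) Aᶜ.card))
      fun A _ => ?_).congr fun p _ _ => ?_
  · exact ((RatF.pPow 2).add RatF.id).mul ((RatF.id.ff _).mul
      (((RatF.pPow 2).sub RatF.id).ff _))
  · exact T1_eq Q

/-! ### combinatorics of the index sets -/

section comb

variable {Λ : Type} [Fintype Λ] [DecidableEq Λ]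

theorem uniq (A : Λ → Finset (Fin 10)) (hA : ∀ L L', L ≠ L' → (A L ∩ A L').card ≤ 1) {L M : Λ}
    (h1 : 6 ≤ (A L).card) (h2 : 6 ≤ (A M).card) : M = L := by
  by_contra hne
  have h3 := hA M L hne
  have h4 := union_card (A M) (A L)
  have h5 := Finset.card_le_univ (A M ∪ A L)
  rw [Fintype.card_fin] at h5
  omega

theorem cnt_one (A : Λ → Finset (Fin 10)) (hA : ∀ L L', L ≠ L' → (A L ∩ A L').card ≤ 1) {L : Λ}
    (h1 : 6 ≤ (A L).card) (t : ℕ) (ht : 6 ≤ t) :
    ((univ : Finset Λ).filter fun M => (A M).card = t).card = if (A L).card = t then 1 else 0 := by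
  split_ifs with h
  · have : ((univ : Finset Λ).filter fun M => (A M).card = t) = {L} := by
      ext M
      simp only [Finset.mem_filter, Finset.mem_univ, true_and, Finset.mem_singleton]
      constructor
      · intro hM
        exact uniq A hA h1 (by omega)
      · rintro rfl
        exact h
    rw [this, Finset.card_singleton]
  · rw [Finset.card_eq_zero, Finset.filter_eq_empty_iff]
    intro M _ hM
    have := uniq A hA h1 (show 6 ≤ (A M).card by omega)
    rw [this] at hM
    exact h hM

theorem cnt_two (A : Λ → Finset (Fin 10)) (hA : ∀ L L', L ≠ L' → (A L ∩ A L').card ≤ 1) {L : Λ}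
    (h1 : 6 ≤ (A L).card) [Decidable ((A L).card = 6 ∧ ∃ L', (A L' \ A L).card = 4)] :
    ((univ : Finset Λ).offDiag.filter fun x => (A x.1).card = 6 ∧
      (A x.2 \ A x.1).card = 4).card =
      if (A L).card = 6 ∧ ∃ L', (A L' \ A L).card = 4 then 1 else 0 := by
  split_ifs with h
  · obtain ⟨h6, L', hL'⟩ := h
    have hcomp : (A L)ᶜ.card = 4 := by rw [Finset.card_compl, Fintype.card_fin, h6]
    have hsub : ∀ M', (A M' \ A L).card = 4 → A M' \ A L = (A L)ᶜ := by
      intro M' hM'
      refine Finset.eq_of_subset_of_card_le (fun k hk => ?_) (by omega)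
      rw [Finset.mem_compl]
      exact (Finset.mem_sdiff.1 hk).2
    have : ((univ : Finset Λ).offDiag.filter fun x => (A x.1).card = 6 ∧
      (A x.2 \ A x.1).card = 4) = {(L, L')} := by
      ext ⟨M, M'⟩
      simp only [Finset.mem_filter, Finset.mem_offDiag, Finset.mem_univ, true_and,
        Finset.mem_singleton, Prod.mk.injEq]
      constructor
      · rintro ⟨hne, a, b⟩
        have hM := uniq A hA h1 (show 6 ≤ (A M).card by omega)
        subst hM
        refine ⟨rfl, ?_⟩
        by_contra hcon
        have h2 := hA M' L' hcon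
        have h3 : (A M)ᶜ ⊆ A M' ∩ A L' := by
          intro k hk
          rw [Finset.mem_inter]
          constructor
          · rw [← hsub M' b] at hk
            exact (Finset.mem_sdiff.1 hk).1
          · rw [← hsub L' hL'] at hk
            exact (Finset.mem_sdiff.1 hk).1
        have h4 := Finset.card_le_card h3
        omega
      · rintro ⟨rfl, rfl⟩
        refine ⟨?_, h6, hL'⟩
        rintro rfl
        simp at hL'
    rw [this, Finset.card_singleton]
  · rw [Finset.card_eq_zero, Finset.filter_eq_empty_iff]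
    rintro ⟨M, M'⟩ _ ⟨a, b⟩
    have hM := uniq A hA h1 (show 6 ≤ (A M).card by simp only at a; omega)
    simp only at a b
    subst hM
    exact h ⟨a, M', b⟩

theorem claim6 (A : Λ → Finset (Fin 10)) (hA : ∀ L L', L ≠ L' → (A L ∩ A L').card ≤ 1)
    (w : ℕ) (f : ℕ → ℕ) (hf : Function.Injective f)
    (hw : ∀ L, (7 ≤ (A L).card → w = f ((A L).card - 4)) ∧
      ((A L).card = 6 → (∃ L', (A L' \ A L).card = 4) → w = f 3) ∧
      ((A L).card = 6 → (∀ L', (A L' \ A L).card ≤ 3) → w = f 2)) (i : ℕ)
    [Decidable ((∃ L, 6 ≤ (A L).card) ∧ w = f i)] :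
    (i < 2 → (if (∃ L, 6 ≤ (A L).card) ∧ w = f i then 1 else 0) = 0) ∧
    (i = 2 → (if (∃ L, 6 ≤ (A L).card) ∧ w = f i then 1 else 0) +
      ((univ : Finset Λ).offDiag.filter fun x => (A x.1).card = 6 ∧
      (A x.2 \ A x.1).card = 4).card = ((univ : Finset Λ).filter fun M => (A M).card = 6).card) ∧
    (i = 3 → (if (∃ L, 6 ≤ (A L).card) ∧ w = f i then 1 else 0) =
      ((univ : Finset Λ).offDiag.filter fun x => (A x.1).card = 6 ∧
      (A x.2 \ A x.1).card = 4).card + ((univ : Finset Λ).filter fun M => (A M).card = 7).card) ∧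
    (4 ≤ i → (if (∃ L, 6 ≤ (A L).card) ∧ w = f i then 1 else 0) =
      ((univ : Finset Λ).filter fun M => (A M).card = i + 4).card) := by
  classical
  by_cases hex : ∃ L, 6 ≤ (A L).card
  · obtain ⟨L, hL⟩ := hex
    obtain ⟨w1, w2, w3⟩ := hw L
    have hcond : ((∃ L, 6 ≤ (A L).card) ∧ w = f i) ↔ w = f i :=
      ⟨fun h => h.2, fun h => ⟨⟨L, hL⟩, h⟩⟩
    have hif : (if (∃ L, 6 ≤ (A L).card) ∧ w = f i then 1 else 0 : ℕ) =
        if w = f i then 1 else 0 := by
      by_cases h : w = f i
      · rw [if_pos h, if_pos (hcond.2 h)]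
      · rw [if_neg h, if_neg fun h' => h h'.2]
    have hval : ∀ j, w = f j → (w = f i ↔ j = i) := fun j hj => by
      rw [hj]
      exact hf.eq_iff
    rw [hif, cnt_two A hA hL, cnt_one A hA hL 6 le_rfl, cnt_one A hA hL 7 (by norm_num)]
    by_cases h7 : 7 ≤ (A L).card
    · have hv := hval _ (w1 h7)
      rw [if_neg (show ¬ ((A L).card = 6 ∧ ∃ L', (A L' \ A L).card = 4) from fun h => by omega),
        if_neg (show ¬ (A L).card = 6 by omega)]
      refine ⟨fun hi => ?_, fun hi => ?_, fun hi => ?_, fun hi => ?_⟩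
      · rw [if_neg]
        rw [hv]
        omega
      · rw [if_neg]
        rw [hv]
        omega
      · by_cases h : (A L).card = 7
        · rw [if_pos h, if_pos]
          rw [hv]
          omega
        · rw [if_neg h, if_neg]
          rw [hv]
          omega
      · rw [cnt_one A hA hL (i + 4) (by omega)]
        by_cases h : (A L).card = i + 4
        · rw [if_pos h, if_pos]
          rw [hv]
          omega
        · rw [if_neg h, if_neg]
          rw [hv]
          omega
    · have h6 : (A L).card = 6 := by omega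
      rw [if_pos h6, if_neg (show ¬ (A L).card = 7 by omega)]
      by_cases h4 : ∃ L', (A L' \ A L).card = 4
      · have hv := hval _ (w2 h6 h4)
        rw [if_pos (show (A L).card = 6 ∧ ∃ L', (A L' \ A L).card = 4 from ⟨h6, h4⟩)]
        refine ⟨fun hi => ?_, fun hi => ?_, fun hi => ?_, fun hi => ?_⟩
        · rw [if_neg]
          rw [hv]
          omega
        · rw [if_neg]
          rw [hv]
          omega
        · rw [if_pos (hv.2 hi.symm)]
        · rw [cnt_one A hA hL (i + 4) (by omega), if_neg, if_neg (by omega)]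
          rw [hv]
          omega
      · have h3 : ∀ L', (A L' \ A L).card ≤ 3 := by
          intro L'
          have a1 : A L' \ A L ⊆ (A L)ᶜ := fun k hk => by
            rw [Finset.mem_compl]
            exact (Finset.mem_sdiff.1 hk).2
          have a2 := Finset.card_le_card a1
          rw [Finset.card_compl, Fintype.card_fin] at a2
          have a3 : (A L' \ A L).card ≠ 4 := fun h => h4 ⟨L', h⟩
          omega
        have hv := hval _ (w3 h6 h3)
        rw [if_neg (show ¬ ((A L).card = 6 ∧ ∃ L', (A L' \ A L).card = 4) from fun h => h4 h.2)]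
        refine ⟨fun hi => ?_, fun hi => ?_, fun hi => ?_, fun hi => ?_⟩
        · rw [if_neg]
          rw [hv]
          omega
        · rw [if_pos (hv.2 hi.symm)]
        · rw [if_neg]
          rw [hv]
          omega
        · rw [cnt_one A hA hL (i + 4) (by omega), if_neg, if_neg (by omega)]
          rw [hv]
          omega
  · have hz : ∀ t, 6 ≤ t → ((univ : Finset Λ).filter fun M => (A M).card = t).card = 0 := by
      intro t ht
      rw [Finset.card_eq_zero, Finset.filter_eq_empty_iff]
      intro M _ hM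
      exact hex ⟨M, by omega⟩
    have hz2 : ((univ : Finset Λ).offDiag.filter fun x => (A x.1).card = 6 ∧
      (A x.2 \ A x.1).card = 4).card = 0 := by
      rw [Finset.card_eq_zero, Finset.filter_eq_empty_iff]
      rintro ⟨M, M'⟩ _ ⟨a, -⟩
      simp only at a
      exact hex ⟨M, by omega⟩
    rw [if_neg (show ¬ ((∃ L, 6 ≤ (A L).card) ∧ w = f i) from fun h => hex h.1), hz2,
      hz 6 le_rfl, hz 7 (by norm_num)]
    refine ⟨fun _ => rfl, fun _ => rfl, fun _ => rfl, fun hi => ?_⟩
    rw [hz (i + 4) (by omega)]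

end comb

/-- the number of cubics through the points -/
theorem w3_six (hR : S_RED) (hC : S_C2) {p : ℕ} [Fact p.Prime] (hp : 5 ≤ p)
    {P : Fin 10 → ZMod p × ZMod p} (hP : Function.Injective P) :
    ∀ L, (7 ≤ (AL L P).card → w3 (Set.range P) = p ^ ((AL L P).card - 4)) ∧
      ((AL L P).card = 6 → (∃ L', (AL L' P \ AL L P).card = 4) → w3 (Set.range P) = p ^ 3) ∧
      ((AL L P).card = 6 → (∀ L', (AL L' P \ AL L P).card ≤ 3) → w3 (Set.range P) = p ^ 2) := by
  intro L
  have hle : (AL L P).card ≤ 10 := by
    have := Finset.card_le_univ (AL L P)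
    rwa [Fintype.card_fin] at this
  have h2 : Nat.card (offL L (Set.range P)) = 10 - (AL L P).card := by
    rw [card_off hP, Finset.card_compl, Fintype.card_fin]
  refine ⟨fun h => ?_, fun h => ?_, fun h => ?_⟩
  · have h1 := (hR p hp L (Set.range P)).1 (by rw [nL_range hP]; omega)
    rw [h1, (hC p hp (offL L (Set.range P))).1 (by omega), h2]
    congr 1
    omega
  · have h1 := (hR p hp L (Set.range P)).1 (by rw [nL_range hP]; omega)
    obtain ⟨c1, c2⟩ := (hC p hp (offL L (Set.range P))).2.1 (by omega)
    simp only [nL_off hP] at c1 c2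
    rw [h1]
    exact c1
  · have h1 := (hR p hp L (Set.range P)).1 (by rw [nL_range hP]; omega)
    obtain ⟨c1, c2⟩ := (hC p hp (offL L (Set.range P))).2.1 (by omega)
    simp only [nL_off hP] at c1 c2
    rw [h1]
    exact c2

theorem cnt6 (hR : S_RED) (hC : S_C2) : S_CNT6 := by
  classical
  intro i
  have hcard : ∀ (p : ℕ) [Fact p.Prime], Nat.card {P : Fin 10 → ZMod p × ZMod p //
      Function.Injective P ∧ (∃ L, 6 ≤ nI L P) ∧ w3 (Set.range P) = p ^ i} =
      ∑ P ∈ (univ : Finset (Fin 10 → ZMod p × ZMod p)).filter Function.Injective,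
        if (∃ L, 6 ≤ (AL L P).card) ∧ w3 (Set.range P) = p ^ i then 1 else 0 := by
    intro p _
    rw [Nat.card_eq_fintype_card, Fintype.card_subtype, ← Finset.card_filter]
    refine congrArg Finset.card (Finset.ext fun P => ?_)
    rw [Finset.mem_filter, Finset.mem_filter, Finset.mem_filter, and_assoc]
    simp only [nI_eq]
  have hcl : ∀ (p : ℕ) [Fact p.Prime], 5 ≤ p → ∀ P : Fin 10 → ZMod p × ZMod p,
      Function.Injective P → _ := fun p _ hp P hP =>
    claim6 (fun L => AL L P) (fun L L' h => AL_inter hP h) (w3 (Set.range P)) (fun j => p ^ j)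
      (Nat.pow_right_injective (Fact.out : p.Prime).two_le) (w3_six hR hC hp hP) i
  rcases (by omega : i < 2 ∨ i = 2 ∨ i = 3 ∨ 4 ≤ i) with h | h | h | h
  · refine (RatF.const 0).congr fun p _ hp => ?_
    rw [hcard, Finset.sum_eq_zero]
    · simp
    intro P hP
    exact (hcl p hp P (Finset.mem_filter.1 hP).2).1 h
  · refine ((RatF_T1 fun X => X.card = 6).sub (RatF_TT fun X Y => X.card = 6 ∧
      (Y \ X).card = 4)).congr fun p _ hp => ?_
    have key : (∑ P ∈ (univ : Finset (Fin 10 → ZMod p × ZMod p)).filter Function.Injective,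
        if (∃ L, 6 ≤ (AL L P).card) ∧ w3 (Set.range P) = p ^ i then 1 else 0) +
        TT p (fun X Y => X.card = 6 ∧ (Y \ X).card = 4) = T1 p fun X => X.card = 6 := by
      unfold TT T1
      rw [← Finset.sum_add_distrib]
      refine Finset.sum_congr rfl fun P hP => ?_
      convert (hcl p hp P (Finset.mem_filter.1 hP).2).2.1 h
    rw [hcard]
    have key2 : (((∑ P ∈ (univ : Finset (Fin 10 → ZMod p × ZMod p)).filter Function.Injective,
        if (∃ L, 6 ≤ (AL L P).card) ∧ w3 (Set.range P) = p ^ i then 1 else 0 : ℕ) : ℕ) : ℚ) +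
        (TT p (fun X Y => X.card = 6 ∧ (Y \ X).card = 4) : ℕ) =
        (T1 p (fun X => X.card = 6) : ℕ) := by exact_mod_cast key
    linear_combination key2
  · refine ((RatF_TT fun X Y => X.card = 6 ∧ (Y \ X).card = 4).add
      (RatF_T1 fun X => X.card = 7)).congr fun p _ hp => ?_
    rw [hcard, ← Nat.cast_add]
    congr 1
    unfold TT T1
    rw [← Finset.sum_add_distrib]
    refine Finset.sum_congr rfl fun P hP => ?_
    convert (hcl p hp P (Finset.mem_filter.1 hP).2).2.2.1 h
  · refine (RatF_T1 fun X => X.card = i + 4).congr fun p _ hp => ?_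
    rw [hcard]
    congr 1
    unfold T1
    refine Finset.sum_congr rfl fun P hP => ?_
    convert (hcl p hp P (Finset.mem_filter.1 hP).2).2.2.2 h

end Pool.Agent.NH28.UR.Cnt6
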