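import Pool.Agent.NH28.UR.Stm

/-! UR-RES: the cubic resolvent of a quartic (helper68). -/

set_option autoImplicit false

namespace Pool.Agent.NH28.UR.Res

open Finset Pool.Agent.NH28.UR

variable {p : ℕ} [Fact p.Prime]

theorem cnt_sq (h2 : ringChar (ZMod p) ≠ 2) (a : ZMod p) :
    ∑ x : ZMod p, (if x ^ 2 = a then (1 : ℤ) else 0) = quadraticChar (ZMod p) a + 1 := by
  rw [← quadraticChar_card_sqrts h2 a, Finset.sum_boole]
  congr 2
  ext x
  simp

theorem cnt_quad (h2 : ringChar (ZMod p) ≠ 2) (h2' : (2 : ZMod p) ≠ 0) (A B C : ZMod p)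
    (hA : A ≠ 0) :
    ∑ y : ZMod p, (if A * y ^ 2 + B * y + C = 0 then (1 : ℤ) else 0) =
      quadraticChar (ZMod p) (B ^ 2 - 4 * A * C) + 1 := by
  rw [← cnt_sq h2]
  have h2A : 2 * A ≠ 0 := mul_ne_zero h2' hA
  refine Fintype.sum_equiv ((Equiv.mulLeft₀ (2 * A) h2A).trans (Equiv.addRight B)) _ _ fun y => ?_
  refine if_congr ?_ rfl rfl
  simp only [Equiv.trans_apply, Equiv.mulLeft₀_apply, Equiv.coe_addRight]
  constructor
  · intro h
    linear_combination 4 * A * h
  · intro h
    have h4 : 4 * A * (A * y ^ 2 + B * y + C) = 0 := by linear_combination h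
    have h4A : 4 * A ≠ 0 := by
      have : (4 : ZMod p) = 2 * 2 := by norm_num
      rw [this]
      exact mul_ne_zero (mul_ne_zero h2' h2') hA
    exact (mul_eq_zero.1 h4).resolve_left h4A

theorem res : S_RES := by
  intro p _ hp a b e α β ha hαβ
  have h2' : (2 : ZMod p) ≠ 0 := by
    intro h
    have : ((2 : ℕ) : ZMod p) = 0 := by exact_mod_cast h
    rw [ZMod.natCast_eq_zero_iff] at this
    have := Nat.le_of_dvd (by norm_num) this
    omega
  have h2 : ringChar (ZMod p) ≠ 2 := by
    rw [ZMod.ringChar_zmod_n]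
    omega
  set G : ZMod p → ZMod p := fun y => a * y ^ 2 + b * y + e with hG
  -- first count
  have c1 : ∑ y : ZMod p, ∑ v : ZMod p, (if v ^ 2 = G y ^ 2 + α * y + β then (1 : ℤ) else 0) =
      p + ∑ y : ZMod p, quadraticChar (ZMod p) (G y ^ 2 + α * y + β) := by
    rw [Finset.sum_congr rfl fun y _ => cnt_sq h2 (G y ^ 2 + α * y + β), Finset.sum_add_distrib]
    simp [ZMod.card, add_comm]
  -- the substitution
  have c2 : ∑ y : ZMod p, ∑ v : ZMod p, (if v ^ 2 = G y ^ 2 + α * y + β then (1 : ℤ) else 0) =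
      ∑ w : ZMod p, ∑ y : ZMod p, (if (2 * a * w) * y ^ 2 + (2 * b * w - α) * y +
        (w ^ 2 + 2 * e * w - β) = 0 then (1 : ℤ) else 0) := by
    conv_rhs => rw [Finset.sum_comm]
    refine Finset.sum_congr rfl fun y _ => ?_
    symm
    refine Fintype.sum_equiv (Equiv.addRight (G y)) _ _ fun w => ?_
    refine if_congr ?_ rfl rfl
    simp only [Equiv.coe_addRight, hG]
    constructor
    · intro h
      linear_combination h
    · intro h
      linear_combination h
  have c3 : ∀ w : ZMod p, ∑ y : ZMod p, (if (2 * a * w) * y ^ 2 + (2 * b * w - α) * y +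
        (w ^ 2 + 2 * e * w - β) = 0 then (1 : ℤ) else 0) =
      (1 + quadraticChar (ZMod p) (-8 * a * w ^ 3 + (4 * b ^ 2 - 16 * a * e) * w ^ 2 +
        (8 * a * β - 4 * b * α) * w + α ^ 2)) - (if w = 0 then 1 else 0) := by
    intro w
    by_cases hw : w = 0
    · subst hw
      rw [if_pos rfl]
      have e1 : (-8 * a * (0 : ZMod p) ^ 3 + (4 * b ^ 2 - 16 * a * e) * (0 : ZMod p) ^ 2 +
        (8 * a * β - 4 * b * α) * 0 + α ^ 2) = α ^ 2 := by ring
      rw [e1]
      have e2 : ∀ y : ZMod p, ((2 * a * (0 : ZMod p)) * y ^ 2 + (2 * b * 0 - α) * y +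
        ((0 : ZMod p) ^ 2 + 2 * e * 0 - β) = 0) ↔ α * y = -β := by
        intro y
        constructor
        · intro h; linear_combination -h
        · intro h; linear_combination -h
      simp only [e2]
      by_cases hα : α = 0
      · have hβ : β ≠ 0 := fun h => hαβ ⟨hα, h⟩
        subst hα
        have : ∀ y : ZMod p, ¬ ((0 : ZMod p) * y = -β) := by
          intro y h
          rw [zero_mul] at h
          exact hβ (neg_eq_zero.1 h.symm)
        rw [Finset.sum_eq_zero fun y _ => if_neg (this y)]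
        have e0 : quadraticChar (ZMod p) (0 ^ 2) = 0 := by
          rw [zero_pow two_ne_zero]
          exact MulChar.map_zero _
        rw [e0]
        norm_num
      · rw [quadraticChar_sq_one' hα]
        rw [Finset.sum_eq_single (-β / α)]
        · rw [if_pos (by field_simp)]
          norm_num
        · intro y _ hy
          rw [if_neg]
          intro h
          apply hy
          rw [eq_div_iff hα, mul_comm]
          exact h
        · intro h
          exact absurd (mem_univ _) h
    · rw [if_neg hw, sub_zero, cnt_quad h2 h2' _ _ _ (mul_ne_zero (mul_ne_zero h2' ha) hw), add_comm]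
      congr 2
      ring
  rw [c2, Finset.sum_congr rfl fun w _ => c3 w, Finset.sum_sub_distrib, Finset.sum_add_distrib] at c1
  have e3 : ∑ w : ZMod p, (if w = 0 then (1 : ℤ) else 0) = 1 := by simp
  have e4 : ∑ _w : ZMod p, (1 : ℤ) = p := by simp [ZMod.card]
  rw [e3, e4] at c1
  have e5 : sE ![-8 * a, 4 * b ^ 2 - 16 * a * e, 8 * a * β - 4 * b * α, α ^ 2] =
      ∑ w : ZMod p, quadraticChar (ZMod p) (-8 * a * w ^ 3 + (4 * b ^ 2 - 16 * a * e) * w ^ 2 +
        (8 * a * β - 4 * b * α) * w + α ^ 2) := by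
    unfold sE
    simp
  rw [e5]
  linarith

end Pool.Agent.NH28.UR.Res
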