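import Pool.Agent.NH28.UR.Stm
import Pool.Agent.NH28.UR.Res

/-! UR-CNTP: point counts of plane cubics (helper17). -/

set_option autoImplicit false

namespace Pool.Agent.NH28.UR.Cntp

open Finset Pool.Agent.NH28.UR

variable {p : ℕ} [Fact p.Prime]

open Classical in
/-- the indicator of a zero -/
noncomputable def ind (t : ZMod p) : ℚ := if t = 0 then 1 else 0

theorem card_sub {α : Type} [Fintype α] (f : α → ZMod p) :
    (Nat.card {v : α // f v = 0} : ℚ) = ∑ v : α, ind (f v) := by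
  classical
  rw [Nat.card_eq_fintype_card, Fintype.card_subtype]
  unfold ind
  rw [Finset.sum_boole]

theorem card3 (c : Fin 10 → ZMod p) :
    (Nat.card {v : ZMod p × ZMod p × ZMod p // T c v.1 v.2.1 v.2.2 = 0} : ℚ) =
      ∑ z : ZMod p, ∑ y : ZMod p, ∑ x : ZMod p, ind (T c x y z) := by
  rw [card_sub (fun v : ZMod p × ZMod p × ZMod p => T c v.1 v.2.1 v.2.2), Fintype.sum_prod_type]
  have h : ∀ x : ZMod p, (∑ w : ZMod p × ZMod p, ind (T c x w.1 w.2)) =
      ∑ z : ZMod p, ∑ y : ZMod p, ind (T c x y z) := by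
    intro x
    rw [Fintype.sum_prod_type, Finset.sum_comm]
  rw [Finset.sum_congr rfl fun x _ => h x, Finset.sum_comm]
  refine Finset.sum_congr rfl fun z _ => ?_
  rw [Finset.sum_comm]

theorem card2 (c : Fin 10 → ZMod p) (z : ZMod p) :
    (Nat.card {v : ZMod p × ZMod p // T c v.1 v.2 z = 0} : ℚ) =
      ∑ y : ZMod p, ∑ x : ZMod p, ind (T c x y z) := by
  rw [card_sub (fun v : ZMod p × ZMod p => T c v.1 v.2 z), Fintype.sum_prod_type, Finset.sum_comm]

theorem T_hom (c : Fin 10 → ZMod p) (x y z : ZMod p) (t : ZMod p) :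
    T c (t * x) (t * y) (t * z) = t ^ 3 * T c x y z := by
  unfold T
  ring

theorem slice (c : Fin 10 → ZMod p) (z : ZMod p) (hz : z ≠ 0) :
    ∑ y : ZMod p, ∑ x : ZMod p, ind (T c x y z) = ∑ y : ZMod p, ∑ x : ZMod p, ind (T c x y 1) := by
  symm
  refine Fintype.sum_equiv (Equiv.mulLeft₀ z hz) _ _ fun y => ?_
  refine Fintype.sum_equiv (Equiv.mulLeft₀ z hz) _ _ fun x => ?_
  simp only [Equiv.mulLeft₀_apply]
  have h := T_hom c x y 1 z
  rw [mul_one] at h
  rw [h]
  unfold ind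
  refine if_congr ?_ rfl rfl
  constructor
  · intro h0
    rw [h0, mul_zero]
  · intro h0
    exact (mul_eq_zero.1 h0).resolve_left (pow_ne_zero 3 hz)

theorem p_ne (hp : 5 ≤ p) : (p : ℚ) - 1 ≠ 0 := by
  have : (5 : ℚ) ≤ p := by exact_mod_cast hp
  intro h
  linarith

theorem card_ne : (#{a : ZMod p | a ≠ 0} : ℚ) = (p : ℚ) - 1 := by
  have h4 : (#{a : ZMod p | a ≠ 0}) = p - 1 := by
    rw [Finset.filter_ne', Finset.card_erase_of_mem (mem_univ _), Finset.card_univ, ZMod.card]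
  have h5 := (Fact.out : p.Prime).one_lt
  rw [h4, Nat.cast_sub (by omega), Nat.cast_one]

theorem split0 (f : ZMod p → ℚ) (s : ℚ) (h : ∀ z, z ≠ 0 → f z = s) :
    ∑ z : ZMod p, f z = f 0 + ((p : ℚ) - 1) * s := by
  rw [← Finset.add_sum_erase univ f (mem_univ 0), ← Finset.filter_ne',
    Finset.sum_congr rfl (g := fun _ => s) (fun z hz => h z (Finset.mem_filter.1 hz).2),
    Finset.sum_const, nsmul_eq_mul, card_ne]

theorem aff : S_AFF := by
  intro p _ hp c
  have h1 := card3 c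
  rw [split0 _ _ fun z hz => slice c z hz, ← card2, ← card2] at h1
  have h2 : (Naff c : ℚ) = (Nat.card {v : ZMod p × ZMod p // T c v.1 v.2 1 = 0} : ℚ) := rfl
  unfold nP zP
  rw [h1, h2]
  have := p_ne hp
  field_simp
  ring

theorem sum_ind_one (a b : ZMod p) (ha : a ≠ 0) : ∑ x : ZMod p, ind (a * x + b) = 1 := by
  rw [Finset.sum_eq_single (-b / a)]
  · unfold ind
    rw [if_pos]
    field_simp
    ring
  · intro x _ hx
    unfold ind
    rw [if_neg]
    intro h
    apply hx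
    rw [eq_div_iff ha]
    linear_combination h
  · intro h
    exact absurd (mem_univ _) h

theorem sum_ind_const (b : ZMod p) : ∑ _x : ZMod p, ind b = (p : ℚ) * ind b := by
  rw [Finset.sum_const, Finset.card_univ, ZMod.card, nsmul_eq_mul]

theorem zero_line (c : Fin 10 → ZMod p) (h0 : c 0 = 0) (h1 : c 1 = 0) :
    ∑ y : ZMod p, ∑ x : ZMod p, ind (T c x y 0) = (p : ℚ) + ((p : ℚ) - 1) *
      (if c 3 ≠ 0 then 1 else if c 6 = 0 then (p : ℚ) else 0) := by
  have hT : ∀ x y : ZMod p, T c x y 0 = y ^ 2 * (c 3 * x + c 6 * y) := by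
    intro x y
    unfold T
    rw [h0, h1]
    ring
  rw [split0 _ (if c 3 ≠ 0 then 1 else if c 6 = 0 then (p : ℚ) else 0)]
  · congr 1
    have h2 : ∀ x : ZMod p, T c x 0 0 = 0 := by
      intro x
      rw [hT]
      ring
    simp only [h2]
    rw [sum_ind_const]
    unfold ind
    rw [if_pos rfl, mul_one]
  · intro y hy
    have h2 : ∀ x : ZMod p, ind (T c x y 0) = ind (c 3 * x + c 6 * y) := by
      intro x
      rw [hT]
      unfold ind
      refine if_congr ?_ rfl rfl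
      constructor
      · intro h
        exact (mul_eq_zero.1 h).resolve_left (pow_ne_zero 2 hy)
      · intro h
        rw [h, mul_zero]
    simp only [h2]
    by_cases h3 : c 3 = 0
    · rw [if_neg (not_not.2 h3)]
      simp only [h3, zero_mul, zero_add]
      rw [sum_ind_const]
      unfold ind
      by_cases h6 : c 6 = 0
      · rw [if_pos h6, h6, zero_mul, if_pos rfl, mul_one]
      · rw [if_neg h6, if_neg (mul_ne_zero h6 hy), mul_zero]
    · rw [if_pos h3]
      exact sum_ind_one _ _ h3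

theorem affine (hp : 5 ≤ p) (c : Fin 10 → ZMod p) (h0 : c 0 = 0) (h1 : c 1 = 0) (h2 : c 2 ≠ 0) :
    ∑ y : ZMod p, ∑ x : ZMod p, ind (T c x y 1) = (p : ℚ) +
      ((∑ y : ZMod p, quadraticChar (ZMod p)
      ((c 3 * y ^ 2 + c 4 * y + c 5) ^ 2 -
        4 * c 2 * (c 6 * y ^ 3 + c 7 * y ^ 2 + c 8 * y + c 9)) : ℤ) : ℚ) := by
  have h2' : (2 : ZMod p) ≠ 0 := by
    intro h
    have : ((2 : ℕ) : ZMod p) = 0 := by exact_mod_cast h
    rw [ZMod.natCast_eq_zero_iff] at this
    have := Nat.le_of_dvd (by norm_num) this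
    omega
  have hr : ringChar (ZMod p) ≠ 2 := by
    rw [ZMod.ringChar_zmod_n]
    omega
  have h3 : ∀ y : ZMod p, ∑ x : ZMod p, ind (T c x y 1) =
      ((quadraticChar (ZMod p) ((c 3 * y ^ 2 + c 4 * y + c 5) ^ 2 -
        4 * c 2 * (c 6 * y ^ 3 + c 7 * y ^ 2 + c 8 * y + c 9)) + 1 : ℤ) : ℚ) := by
    intro y
    have h4 := Res.cnt_quad hr h2' (c 2) (c 3 * y ^ 2 + c 4 * y + c 5)
      (c 6 * y ^ 3 + c 7 * y ^ 2 + c 8 * y + c 9) h2
    rw [← h4, Int.cast_sum]
    refine Finset.sum_congr rfl fun x _ => ?_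
    unfold ind
    have h5 : T c x y 1 = c 2 * x ^ 2 + (c 3 * y ^ 2 + c 4 * y + c 5) * x +
        (c 6 * y ^ 3 + c 7 * y ^ 2 + c 8 * y + c 9) := by
      unfold T
      rw [h0, h1]
      ring
    rw [h5]
    split_ifs <;> norm_num
  rw [Finset.sum_congr rfl fun y _ => h3 y, ← Int.cast_sum, Finset.sum_add_distrib, Int.cast_add]
  simp [ZMod.card, add_comm]

theorem cnt : S_CNT := by
  intro p _ hp c h0 h1 h2
  have e1 := aff p hp c
  have e2 : (Naff c : ℚ) = ∑ y : ZMod p, ∑ x : ZMod p, ind (T c x y 1) := card2 c 1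
  have e3 : zP c = 1 + (if c 3 ≠ 0 then 1 else if c 6 = 0 then (p : ℚ) else 0) := by
    unfold zP
    rw [card2, zero_line c h0 h1]
    have := p_ne hp
    field_simp
    ring
  rw [e2, affine hp c h0 h1 h2, e3] at e1
  linear_combination -e1

end Pool.Agent.NH28.UR.Cntp
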