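import Pool.Agent.NH28.UR.Sing

set_option autoImplicit false

/-!
# UR-CON (helper26): affine conics, power sums of the numbers of points
-/

namespace Pool.Agent.NH28.UR.ConA

open Finset
open Pool.Agent.NH28.UR
open Pool.Agent.NH28.UR.Sing

section
variable {p : ℕ} [Fact p.Prime]

/-! ### Polar coordinates -/

theorem card_ne : ((univ.erase (0 : ZMod p)).card : ℚ) = (p : ℚ) - 1 := by
  have h2 := (Fact.out : p.Prime).one_lt
  rw [card_erase_of_mem (mem_univ _), card_univ, ZMod.card, Nat.cast_sub h2.le, Nat.cast_one]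

theorem sum_polar (h : ZMod p × ZMod p → ℚ) :
    ∑ w, h w = h (0, 0) + ∑ t, ∑ s ∈ univ.erase (0 : ZMod p), h (s * (pt t).1, s * (pt t).2) := by
  rw [Fintype.sum_prod_type_right, ← add_sum_erase univ _ (mem_univ (0 : ZMod p)),
    ← add_sum_erase univ _ (mem_univ (0 : ZMod p)), Fintype.sum_option]
  have h1 : ∑ y ∈ univ.erase (0 : ZMod p), h (y, 0) =
      ∑ s ∈ univ.erase (0 : ZMod p), h (s * (pt (p := p) none).1, s * (pt (p := p) none).2) := by
    refine sum_congr rfl fun y _ => ?_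
    simp [pt]
  have h2 : ∑ z ∈ univ.erase (0 : ZMod p), ∑ y, h (y, z) =
      ∑ x : ZMod p, ∑ s ∈ univ.erase (0 : ZMod p), h (s * (pt (some x)).1, s * (pt (some x)).2) := by
    rw [sum_comm (s := univ) (t := univ.erase (0 : ZMod p))]
    refine sum_congr rfl fun z hz => ?_
    have hz' := ne_of_mem_erase hz
    symm
    refine Fintype.sum_equiv (Equiv.mulLeft₀ z hz') _ _ fun s => ?_
    simp [pt]
  rw [h1, h2]
  ring

/-- linear form -/
def lv (l : Fin 2 → ZMod p) (w : ZMod p × ZMod p) : ZMod p := l 0 * w.1 + l 1 * w.2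

theorem sum_ray (Q L : ZMod p) :
    (∑ s ∈ univ.erase (0 : ZMod p), if s ^ 2 * Q + s * L = 0 then (1 : ℚ) else 0) =
      (if Q ≠ 0 ∧ L ≠ 0 then 1 else 0) + ((p : ℚ) - 1) * (if Q = 0 ∧ L = 0 then 1 else 0) := by
  have hiff : ∀ s ∈ univ.erase (0 : ZMod p), (s ^ 2 * Q + s * L = 0 ↔ s * Q + L = 0) := by
    intro s hs
    have hs' := ne_of_mem_erase hs
    constructor
    · intro h
      apply mul_left_cancel₀ hs'
      rw [mul_zero, ← h]
      ring
    · intro h
      have : s ^ 2 * Q + s * L = s * (s * Q + L) := by ring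
      rw [this, h, mul_zero]
  rw [sum_congr rfl (g := fun s => if s * Q + L = 0 then (1 : ℚ) else 0) fun s hs => by
    simp only [hiff s hs]]
  by_cases hQ : Q = 0
  · by_cases hL : L = 0
    · rw [sum_congr rfl (g := fun _ => (1 : ℚ)) fun s _ => by rw [if_pos (by rw [hQ, hL]; ring)],
        sum_const, nsmul_eq_mul, card_ne]
      simp [hQ, hL]
    · rw [sum_congr rfl (g := fun _ => (0 : ℚ)) fun s _ => by
        rw [if_neg (by rw [hQ]; simpa using hL)]]
      simp [hQ, hL]
  · by_cases hL : L = 0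
    · rw [sum_congr rfl (g := fun _ => (0 : ℚ)) fun s hs => by
        rw [if_neg (by
          rw [hL, add_zero]
          exact mul_ne_zero (ne_of_mem_erase hs) hQ)]]
      simp [hQ, hL]
    · have hm : -L / Q ∈ univ.erase (0 : ZMod p) := by
        rw [mem_erase]
        exact ⟨div_ne_zero (neg_ne_zero.2 hL) hQ, mem_univ _⟩
      rw [sum_eq_single_of_mem _ hm]
      · rw [if_pos (by field_simp; ring)]
        simp [hQ, hL]
      · intro s _ hne
        rw [if_neg]
        intro h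
        apply hne
        rw [eq_div_iff hQ]
        linear_combination h

/-! ### Number of points of a conic -/

/-- number of affine points -/
def Nq (Q : Fin 6 → ZMod p) : ℕ := (univ.filter (fun v : ZMod p × ZMod p => Q2 Q v = 0)).card

/-- conic with given parts of degree two and one, zero constant term -/
def mk6 (q : Fin 3 → ZMod p) (l : Fin 2 → ZMod p) : Fin 6 → ZMod p :=
  ![q 0, q 1, l 0, q 2, l 1, 0]

theorem Nq_mk6 (q : Fin 3 → ZMod p) (l : Fin 2 → ZMod p) : ((Nq (mk6 q l) : ℕ) : ℚ) =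
    1 + ∑ t, ((if qv q (pt t) ≠ 0 ∧ lv l (pt t) ≠ 0 then (1 : ℚ) else 0) +
      ((p : ℚ) - 1) * (if qv q (pt t) = 0 ∧ lv l (pt t) = 0 then 1 else 0)) := by
  unfold Nq
  rw [card_filter, Nat.cast_sum, sum_polar]
  congr 1
  · simp [Q2, mk6]
  · refine sum_congr rfl fun t _ => ?_
    rw [← sum_ray]
    refine sum_congr rfl fun s _ => ?_
    have e : Q2 (mk6 q l) (s * (pt t).1, s * (pt t).2) =
        s ^ 2 * qv q (pt t) + s * lv l (pt t) := by
      simp [Q2, mk6, qv, lv]
      ring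
    rw [e]
    split_ifs <;> simp

theorem exists_zero {l : Fin 2 → ZMod p} (hl : l ≠ 0) :
    ∃ a : Option (ZMod p), ∀ t, lv l (pt t) = 0 ↔ t = a := by
  by_cases h0 : l 0 = 0
  · have h1 : l 1 ≠ 0 := by
      intro h1
      apply hl
      funext i
      fin_cases i
      · exact h0
      · exact h1
    refine ⟨none, fun t => ?_⟩
    rcases t with _ | s
    · simp [lv, pt, h0]
    · simp [lv, pt, h0, h1]
  · refine ⟨some (-l 1 / l 0), fun t => ?_⟩
    rcases t with _ | s
    · simp [lv, pt, h0]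
    · simp only [lv, pt, mul_one, Option.some.injEq]
      rw [eq_div_iff h0]
      constructor
      · intro h
        linear_combination h
      · intro h
        linear_combination h

/-- zeros of `q` different from `a` -/
def Zd (a : Option (ZMod p)) (q : Fin 3 → ZMod p) : Finset (Option (ZMod p)) :=
  (univ.erase a).filter (fun t => qv q (pt t) = 0)

theorem card_P : (univ : Finset (Option (ZMod p))).card = p + 1 := by
  rw [card_univ, Fintype.card_option, ZMod.card]

theorem Nq_ne {l : Fin 2 → ZMod p} {a : Option (ZMod p)} (ha : ∀ t, lv l (pt t) = 0 ↔ t = a)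
    (q : Fin 3 → ZMod p) : ((Nq (mk6 q l) : ℕ) : ℚ) =
    1 + p - (Zd a q).card + ((p : ℚ) - 1) * (if qv q (pt a) = 0 then 1 else 0) := by
  rw [Nq_mk6, ← add_sum_erase univ _ (mem_univ a)]
  have h1 : ∑ t ∈ univ.erase a, ((if qv q (pt t) ≠ 0 ∧ lv l (pt t) ≠ 0 then (1 : ℚ) else 0) +
      ((p : ℚ) - 1) * (if qv q (pt t) = 0 ∧ lv l (pt t) = 0 then 1 else 0)) =
      (p : ℚ) - (Zd a q).card := by
    rw [sum_congr rfl (g := fun t => 1 - (if qv q (pt t) = 0 then (1 : ℚ) else 0))]
    · rw [sum_sub_distrib, sum_const, nsmul_eq_mul, card_erase_of_mem (mem_univ a), card_P]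
      unfold Zd
      rw [card_filter]
      push_cast
      simp
    · intro t ht
      have h2 : ¬ lv l (pt t) = 0 := fun h => (ne_of_mem_erase ht) ((ha t).1 h)
      by_cases h3 : qv q (pt t) = 0
      · simp [h2, h3]
      · simp [h2, h3]
  rw [h1]
  have h2 : lv l (pt a) = 0 := (ha a).2 rfl
  by_cases h3 : qv q (pt a) = 0
  · simp [h2, h3]
    ring
  · simp [h2, h3]
    ring

theorem Nq_zero (q : Fin 3 → ZMod p) : ((Nq (mk6 q 0) : ℕ) : ℚ) =
    1 + ((p : ℚ) - 1) * (Zq q).card := by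
  rw [Nq_mk6]
  have h : ∀ t : Option (ZMod p), lv (0 : Fin 2 → ZMod p) (pt t) = 0 := by
    intro t
    simp [lv]
  simp only [h, ne_eq, not_true_eq_false, and_false, if_false, zero_add, and_true]
  rw [← mul_sum]
  unfold Zq
  rw [card_filter]
  push_cast
  rfl

/-! ### Translations -/

/-- translation by `v` -/
def tr (v : ZMod p × ZMod p) (Q : Fin 6 → ZMod p) : Fin 6 → ZMod p :=
  ![Q 0, Q 1, Q 2 + 2 * Q 0 * v.1 + Q 1 * v.2, Q 3, Q 4 + Q 1 * v.1 + 2 * Q 3 * v.2, Q2 Q v]

theorem tr_val (v w : ZMod p × ZMod p) (Q : Fin 6 → ZMod p) : Q2 (tr v Q) w = Q2 Q (w + v) := by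
  simp [Q2, tr]
  ring

theorem tr_tr (v : ZMod p × ZMod p) (Q : Fin 6 → ZMod p) : tr (-v) (tr v Q) = Q := by
  funext i
  fin_cases i
  · rfl
  · rfl
  · simp [tr]
    ring
  · rfl
  · simp [tr]
    ring
  · show Q2 (tr v Q) (-v) = Q 5
    rw [tr_val]
    simp [Q2]

/-- translation as a permutation -/
def trE (v : ZMod p × ZMod p) : Equiv.Perm (Fin 6 → ZMod p) where
  toFun := tr v
  invFun := tr (-v)
  left_inv := tr_tr v
  right_inv Q := by
    have := tr_tr (-v) Q
    rwa [neg_neg] at this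

theorem Nq_tr (v : ZMod p × ZMod p) (Q : Fin 6 → ZMod p) : Nq (tr v Q) = Nq Q := by
  unfold Nq
  refine card_nbij' (fun w => w + v) (fun w => w - v) ?_ ?_ ?_ ?_
  · intro w hw
    simp only [coe_filter, mem_univ, true_and, Set.mem_ofPred_eq] at hw ⊢
    rwa [← tr_val]
  · intro w hw
    simp only [coe_filter, mem_univ, true_and, Set.mem_ofPred_eq] at hw ⊢
    rw [tr_val, sub_add_cancel]
    exact hw
  · intro w _
    simp
  · intro w _
    simp

theorem power (g : ℚ → ℚ) : ∑ Q : Fin 6 → ZMod p, (Nq Q : ℚ) * g (Nq Q) =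
    (p : ℚ) ^ 2 * ∑ Q : Fin 6 → ZMod p, if Q 5 = 0 then g (Nq Q) else 0 := by
  have h1 : ∀ Q : Fin 6 → ZMod p, (Nq Q : ℚ) * g (Nq Q) =
      ∑ v : ZMod p × ZMod p, if Q2 Q v = 0 then g (Nq Q) else 0 := by
    intro Q
    rw [← sum_filter, sum_const, nsmul_eq_mul]
    rfl
  rw [sum_congr rfl fun Q _ => h1 Q, sum_comm]
  have h2 : ∀ v : ZMod p × ZMod p, (∑ Q : Fin 6 → ZMod p, if Q2 Q v = 0 then g (Nq Q) else 0) =
      ∑ Q : Fin 6 → ZMod p, if Q 5 = 0 then g (Nq Q) else 0 := by
    intro v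
    refine Fintype.sum_equiv (trE v) _ _ fun Q => ?_
    show _ = if (tr v Q) 5 = 0 then g (Nq (tr v Q)) else 0
    rw [Nq_tr]
    rfl
  rw [sum_congr rfl fun v _ => h2 v, sum_const, card_univ, Fintype.card_prod, ZMod.card,
    nsmul_eq_mul]
  push_cast
  ring

theorem sum5 (g : (Fin 6 → ZMod p) → ℚ) : (∑ Q : Fin 6 → ZMod p, if Q 5 = 0 then g Q else 0) =
    ∑ l : Fin 2 → ZMod p, ∑ q : Fin 3 → ZMod p, g (mk6 q l) := by
  rw [← sum_filter, ← Fintype.sum_prod_type']
  refine sum_nbij' (fun Q => (![Q 2, Q 4], ![Q 0, Q 1, Q 3])) (fun u => mk6 u.2 u.1) ?_ ?_ ?_ ?_ ?_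
  · intro Q _
    exact mem_univ _
  · intro u _
    rw [mem_filter]
    exact ⟨mem_univ _, rfl⟩
  · intro Q hQ
    rw [mem_filter] at hQ
    funext i
    fin_cases i
    all_goals first | rfl | exact hQ.2.symm
  · intro u _
    refine Prod.ext ?_ ?_
    · funext i
      fin_cases i <;> rfl
    · funext i
      fin_cases i <;> rfl
  · intro Q hQ
    rw [mem_filter] at hQ
    congr 1
    funext i
    fin_cases i
    all_goals first | rfl | exact hQ.2

theorem sum10 (g : (Fin 6 → ZMod p) → ℚ) : (∑ c : Fin 10 → ZMod p,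
    if c 0 = 0 ∧ c 1 = 0 ∧ c 3 = 0 ∧ c 6 = 0 then g ![c 2, c 4, c 5, c 7, c 8, c 9] else 0) =
    ∑ Q : Fin 6 → ZMod p, g Q := by
  rw [← sum_filter]
  refine sum_nbij' (fun c => ![c 2, c 4, c 5, c 7, c 8, c 9])
    (fun Q => ![0, 0, Q 0, 0, Q 1, Q 2, 0, Q 3, Q 4, Q 5]) ?_ ?_ ?_ ?_ ?_
  · intro Q _
    exact mem_univ _
  · intro u _
    rw [mem_filter]
    exact ⟨mem_univ _, rfl, rfl, rfl, rfl⟩
  · intro c hc
    rw [mem_filter] at hc
    obtain ⟨-, h0, h1, h3, h6⟩ := hc
    funext i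
    fin_cases i
    all_goals first | rfl | exact h0.symm | exact h1.symm | exact h3.symm | exact h6.symm
  · intro u _
    funext i
    fin_cases i <;> rfl
  · intro c _
    rfl

theorem Naff_eq {c : Fin 10 → ZMod p} (h0 : c 0 = 0) (h1 : c 1 = 0) (h3 : c 3 = 0)
    (h6 : c 6 = 0) : Naff c = Nq ![c 2, c 4, c 5, c 7, c 8, c 9] := by
  unfold Naff Nq
  rw [Nat.card_eq_fintype_card, Fintype.card_subtype]
  congr 1
  ext v
  simp only [mem_filter, mem_univ, true_and]
  have : T c v.1 v.2 1 = Q2 ![c 2, c 4, c 5, c 7, c 8, c 9] v := by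
    simp [T, Q2, h0, h1, h3, h6]
  rw [this]

/-! ### Sums -/

/-- the value for a linear part `≠ 0` -/
theorem sum_ne (hp : 5 ≤ p) (g : ℚ → ℚ) {l : Fin 2 → ZMod p} (hl : l ≠ 0) :
    ∑ q : Fin 3 → ZMod p, g (Nq (mk6 q l)) =
    (g (p : ℚ) + ∑ j ∈ range (1 + 1), (((p.choose j : ℕ) : ℚ) * ((p : ℚ) ^ (2 - j) - 1)) *
      nd (fun i => g (2 * (p : ℚ) - i)) j) +
    ∑ j ∈ range (2 + 1), (((p.choose j : ℕ) : ℚ) * ((p : ℚ) ^ (3 - j) - (p : ℚ) ^ (2 - j))) *
      nd (fun i => g (1 + (p : ℚ) - i)) j := by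
  obtain ⟨a, ha⟩ := exists_zero hl
  set S : Finset (Option (ZMod p)) := univ.erase a with hS
  have hSc : S.card = p := by
    rw [hS, card_erase_of_mem (mem_univ _), card_P]
    omega
  have hZ0 : (Zd a (0 : Fin 3 → ZMod p)).card = p := by
    unfold Zd
    rw [filter_true_of_mem]
    · exact hSc
    · intro t _
      simp [qv]
  have hsing : ∀ q : Fin 3 → ZMod p, (∀ t ∈ ({a} : Finset (Option (ZMod p))), qv q (pt t) = 0) ↔
      qv q (pt a) = 0 := by
    intro q
    simp
  have m2 : ∀ j, j ≤ 2 → ∑ q ∈ univ.filter (fun q : Fin 3 → ZMod p => qv q (pt a) = 0),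
      (Zd a q).card.choose j = p.choose j * p ^ (2 - j) := by
    intro j hj
    have h := moment' (good2 hp) {a} S (by rw [disjoint_singleton_left, hS]; simp) j
      (by rw [card_singleton]; omega)
    rw [hSc, card_singleton, show 3 - (j + 1) = 2 - j by omega] at h
    simp only [hsing] at h
    exact h
  have m1 : ∀ j, j ≤ 2 → ∑ q : Fin 3 → ZMod p, (Zd a q).card.choose j =
      p.choose j * p ^ (3 - j) := by
    intro j hj
    have h := moment (good2 hp) S j (by omega)
    rw [hSc] at h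
    exact h
  have hle : ∀ q : Fin 3 → ZMod p, q ≠ 0 → (Zd a q).card ≤ (Zq q).card := by
    intro q _
    exact card_le_card (filter_subset_filter _ (subset_univ _))
  rw [← sum_filter_add_sum_filter_not univ (fun q : Fin 3 → ZMod p => qv q (pt a) = 0)]
  congr 1
  · have h0 : (0 : Fin 3 → ZMod p) ∈
        univ.filter (fun q : Fin 3 → ZMod p => qv q (pt a) = 0) := by
      rw [mem_filter]
      exact ⟨mem_univ _, by simp [qv]⟩
    rw [← add_sum_erase _ _ h0]
    congr 1
    · rw [Nq_ne ha, hZ0, if_pos (by simp [qv])]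
      congr 1
      ring
    · rw [sum_congr rfl (g := fun q => (fun i : ℕ => g (2 * (p : ℚ) - i)) (Zd a q).card)]
      · rw [sum_newton _ (fun q => (Zd a q).card) 1 ?_ (fun i : ℕ => g (2 * (p : ℚ) - i))]
        · refine sum_congr rfl fun j hj => ?_
          have hj' : j ≤ 2 := by
            have := mem_range.1 hj
            omega
          have h := m2 j hj'
          rw [← add_sum_erase _ _ h0, hZ0] at h
          have h3 : ((p.choose j : ℕ) : ℚ) +
              ((∑ q ∈ (univ.filter (fun q : Fin 3 → ZMod p => qv q (pt a) = 0)).erase 0,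
                (Zd a q).card.choose j : ℕ) : ℚ) =
              ((p.choose j : ℕ) : ℚ) * (p : ℚ) ^ (2 - j) := by
            exact_mod_cast h
          congr 1
          linear_combination h3
        · intro q hq
          rw [mem_erase, mem_filter] at hq
          have h4 : Zd a q = (Zq q).erase a := by
            unfold Zd Zq
            ext t
            simp only [mem_filter, mem_erase, mem_univ, and_true, true_and]
          have h5 : a ∈ Zq q := by
            unfold Zq
            rw [mem_filter]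
            exact ⟨mem_univ _, hq.2.2⟩
          rw [h4, card_erase_of_mem h5]
          have := Zq_le hp hq.1
          omega
      · intro q hq
        rw [mem_erase, mem_filter] at hq
        rw [Nq_ne ha, if_pos hq.2.2]
        simp only
        congr 1
        ring
  · rw [sum_congr rfl (g := fun q => (fun i : ℕ => g (1 + (p : ℚ) - i)) (Zd a q).card)]
    · rw [sum_newton _ (fun q => (Zd a q).card) 2 ?_ (fun i : ℕ => g (1 + (p : ℚ) - i))]
      · refine sum_congr rfl fun j hj => ?_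
        have hj' : j ≤ 2 := by
          have := mem_range.1 hj
          omega
        have h := sum_filter_add_sum_filter_not univ
          (fun q : Fin 3 → ZMod p => qv q (pt a) = 0) (fun q => (Zd a q).card.choose j)
        rw [m1 j hj', m2 j hj'] at h
        have h3 : ((p.choose j : ℕ) : ℚ) * (p : ℚ) ^ (2 - j) +
            ((∑ q ∈ univ.filter (fun q : Fin 3 → ZMod p => ¬ qv q (pt a) = 0),
              (Zd a q).card.choose j : ℕ) : ℚ) =
            ((p.choose j : ℕ) : ℚ) * (p : ℚ) ^ (3 - j) := by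
          exact_mod_cast h
        congr 1
        linear_combination h3
      · intro q hq
        rw [mem_filter] at hq
        have hq0 : q ≠ 0 := by
          rintro rfl
          exact hq.2 (by simp [qv])
        exact (hle q hq0).trans (Zq_le hp hq0)
    · intro q hq
      rw [mem_filter] at hq
      rw [Nq_ne ha, if_neg hq.2]
      simp only
      congr 1
      ring

/-- the value for the linear part `0` -/
theorem sum_zero (hp : 5 ≤ p) (g : ℚ → ℚ) :
    ∑ q : Fin 3 → ZMod p, g (Nq (mk6 q 0)) =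
    g (1 + ((p : ℚ) - 1) * (p + 1)) +
      ∑ j ∈ range (2 + 1), ((((p + 1).choose j : ℕ) : ℚ) * ((p : ℚ) ^ (3 - j) - 1)) *
        nd (fun i => g (1 + ((p : ℚ) - 1) * i)) j := by
  rw [← add_sum_erase univ _ (mem_univ (0 : Fin 3 → ZMod p)), ← outer1 hp]
  congr 1
  · have hZ : (Zq (0 : Fin 3 → ZMod p)).card = p + 1 := by
      unfold Zq
      rw [filter_true_of_mem, card_P]
      intro t _
      simp [qv]
    rw [Nq_zero, hZ]
    push_cast
    rfl
  · exact sum_congr rfl fun q _ => by rw [Nq_zero]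

theorem total (hp : 5 ≤ p) (g : ℚ → ℚ) :
    (∑ Q : Fin 6 → ZMod p, if Q 5 = 0 then g (Nq Q) else 0) =
    (g (1 + ((p : ℚ) - 1) * (p + 1)) +
      ∑ j ∈ range (2 + 1), ((((p + 1).choose j : ℕ) : ℚ) * ((p : ℚ) ^ (3 - j) - 1)) *
        nd (fun i => g (1 + ((p : ℚ) - 1) * i)) j) +
    ((p : ℚ) ^ 2 - 1) * ((g (p : ℚ) +
      ∑ j ∈ range (1 + 1), (((p.choose j : ℕ) : ℚ) * ((p : ℚ) ^ (2 - j) - 1)) *
        nd (fun i => g (2 * (p : ℚ) - i)) j) +
      ∑ j ∈ range (2 + 1), (((p.choose j : ℕ) : ℚ) * ((p : ℚ) ^ (3 - j) - (p : ℚ) ^ (2 - j))) *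
        nd (fun i => g (1 + (p : ℚ) - i)) j) := by
  rw [sum5 (fun Q => g (Nq Q)), ← add_sum_erase univ _ (mem_univ (0 : Fin 2 → ZMod p)),
    sum_zero hp]
  congr 1
  rw [sum_congr rfl fun l hl => sum_ne hp g (ne_of_mem_erase hl), sum_const, nsmul_eq_mul]
  congr 1
  have h2 := (Fact.out : p.Prime).one_lt
  have h3 : Fintype.card (Fin 2 → ZMod p) = p ^ 2 := by simp [ZMod.card]
  rw [card_erase_of_mem (mem_univ _), card_univ, h3, Nat.cast_sub (Nat.one_le_pow _ _ (by omega))]
  push_cast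
  rfl

end

theorem ratF_pow {F : ∀ p : ℕ, [Fact p.Prime] → ℚ} (h : RatF F) (k : ℕ) :
    RatF (fun p => (fun x : ℚ => x ^ k) (F p)) := RatF.pow h k

theorem con : S_CON := by
  intro k
  rcases Nat.eq_zero_or_pos k with rfl | hk
  · refine RatF.congr (RatF.pPow 6) fun p _ hp => ?_
    have h := sum10 (p := p) (fun _ => (1 : ℚ))
    simp only [pow_zero]
    rw [h]
    simp [ZMod.card]
  · obtain ⟨m, rfl⟩ : ∃ m, k = m + 1 := ⟨k - 1, by omega⟩
    have i0 : ∀ i : ℕ, RatF (fun p => (fun x : ℚ => x ^ m) (1 + ((p : ℚ) - 1) * i)) := fun i =>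
      RatF.pow ((RatF.const 1).add ((RatF.id.sub (RatF.const 1)).mul (RatF.const i))) m
    have i1 : ∀ i : ℕ, RatF (fun p => (fun x : ℚ => x ^ m) (2 * (p : ℚ) - i)) := fun i =>
      RatF.pow (((RatF.const 2).mul RatF.id).sub (RatF.const i)) m
    have i2 : ∀ i : ℕ, RatF (fun p => (fun x : ℚ => x ^ m) (1 + (p : ℚ) - i)) := fun i =>
      RatF.pow (((RatF.const 1).add RatF.id).sub (RatF.const i)) m
    refine RatF.congr (RatF.mul (RatF.pPow 2) (RatF.add (RatF.add
      (RatF.pow ((RatF.const 1).add ((RatF.id.sub (RatF.const 1)).mul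
        (RatF.id.add (RatF.const 1)))) m)
      (RatF.sum (range (2 + 1)) _ fun j _ =>
        RatF.mul (RatF.mul (RatF.choose 1 j) ((RatF.pPow (3 - j)).sub (RatF.const 1)))
          (RatF.nd i0 j)))
      (RatF.mul ((RatF.pPow 2).sub (RatF.const 1)) (RatF.add (RatF.add (RatF.pow RatF.id m)
        (RatF.sum (range (1 + 1)) _ fun j _ =>
          RatF.mul (RatF.mul (RatF.choose 0 j) ((RatF.pPow (2 - j)).sub (RatF.const 1)))
            (RatF.nd i1 j)))
        (RatF.sum (range (2 + 1)) _ fun j _ =>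
          RatF.mul (RatF.mul (RatF.choose 0 j) ((RatF.pPow (3 - j)).sub (RatF.pPow (2 - j))))
            (RatF.nd i2 j)))))) fun p _ hp => ?_
    have e1 : (∑ c : Fin 10 → ZMod p, if c 0 = 0 ∧ c 1 = 0 ∧ c 3 = 0 ∧ c 6 = 0
        then (Naff c : ℚ) ^ (m + 1) else 0) = ∑ Q : Fin 6 → ZMod p, (Nq Q : ℚ) * (Nq Q : ℚ) ^ m := by
      rw [← sum10]
      refine sum_congr rfl fun c _ => ?_
      by_cases h : c 0 = 0 ∧ c 1 = 0 ∧ c 3 = 0 ∧ c 6 = 0
      · rw [if_pos h, if_pos h, Naff_eq h.1 h.2.1 h.2.2.1 h.2.2.2, pow_succ']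
      · rw [if_neg h, if_neg h]
    rw [e1, power (fun x => x ^ m), total hp (fun x => x ^ m)]
    rfl

end Pool.Agent.NH28.UR.ConA
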