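import Pool.Agent.NH28.UR.Stm
import Pool.Agent.NH28.UR.Rat

set_option autoImplicit false

/-!
# Project UR: sums over conics without line component
-/

namespace Pool.Agent.NH28.UR.Conic

open Finset Pool.Agent.NH28.UR

section

variable {p : ℕ} [Fact p.Prime]

/-- number of zeros -/
noncomputable def N (q : Fin 6 → ZMod p) : ℕ := Nat.card {v : ZMod p × ZMod p // Q2 q v = 0}

open Classical in
/-- the summand -/
noncomputable def G (f : ℕ → ℚ) (q : Fin 6 → ZMod p) : ℚ := if NLC q then f (N q) else 0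

/-- affine maps -/
def ga (a b c d e f : ZMod p) (v : ZMod p × ZMod p) : ZMod p × ZMod p :=
  (a * v.1 + b * v.2 + e, c * v.1 + d * v.2 + f)

/-- substitution -/
def sb (a b c d e f : ZMod p) (q : Fin 6 → ZMod p) : Fin 6 → ZMod p :=
  ![q 0 * a ^ 2 + q 1 * (a * c) + q 3 * c ^ 2,
    2 * q 0 * (a * b) + q 1 * (a * d + b * c) + 2 * q 3 * (c * d),
    2 * q 0 * (a * e) + q 1 * (a * f + c * e) + q 2 * a + 2 * q 3 * (c * f) + q 4 * c,
    q 0 * b ^ 2 + q 1 * (b * d) + q 3 * d ^ 2,
    2 * q 0 * (b * e) + q 1 * (b * f + d * e) + q 2 * b + 2 * q 3 * (d * f) + q 4 * d,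
    q 0 * e ^ 2 + q 1 * (e * f) + q 2 * e + q 3 * f ^ 2 + q 4 * f + q 5]

theorem Q2_sb (a b c d e f : ZMod p) (q : Fin 6 → ZMod p) (v : ZMod p × ZMod p) :
    Q2 (sb a b c d e f q) v = Q2 q (ga a b c d e f v) := by
  unfold Q2 ga
  have e0 : sb a b c d e f q 0 = q 0 * a ^ 2 + q 1 * (a * c) + q 3 * c ^ 2 := rfl
  have e1 : sb a b c d e f q 1 =
    2 * q 0 * (a * b) + q 1 * (a * d + b * c) + 2 * q 3 * (c * d) := rfl
  have e2 : sb a b c d e f q 2 =
    2 * q 0 * (a * e) + q 1 * (a * f + c * e) + q 2 * a + 2 * q 3 * (c * f) + q 4 * c := rfl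
  have e3 : sb a b c d e f q 3 = q 0 * b ^ 2 + q 1 * (b * d) + q 3 * d ^ 2 := rfl
  have e4 : sb a b c d e f q 4 =
    2 * q 0 * (b * e) + q 1 * (b * f + d * e) + q 2 * b + 2 * q 3 * (d * f) + q 4 * d := rfl
  have e5 : sb a b c d e f q 5 =
    q 0 * e ^ 2 + q 1 * (e * f) + q 2 * e + q 3 * f ^ 2 + q 4 * f + q 5 := rfl
  rw [e0, e1, e2, e3, e4, e5]
  ring

theorem Q2_ext (h2 : (2 : ZMod p) ≠ 0) (q r : Fin 6 → ZMod p) (h : ∀ v, Q2 q v = Q2 r v) :
    q = r := by
  have a5 : q 5 = r 5 := by simpa [Q2] using h (0, 0)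
  have b1 : q 0 + q 2 + q 5 = r 0 + r 2 + r 5 := by simpa [Q2] using h (1, 0)
  have b2 : q 0 - q 2 + q 5 = r 0 - r 2 + r 5 := by
    simpa [Q2, sub_eq_add_neg] using h (-1, 0)
  have b3 : q 3 + q 4 + q 5 = r 3 + r 4 + r 5 := by simpa [Q2] using h (0, 1)
  have b4 : q 3 - q 4 + q 5 = r 3 - r 4 + r 5 := by
    simpa [Q2, sub_eq_add_neg] using h (0, -1)
  have b5 : q 0 + q 1 + q 2 + q 3 + q 4 + q 5 = r 0 + r 1 + r 2 + r 3 + r 4 + r 5 := by
    simpa [Q2] using h (1, 1)
  have a0 : q 0 = r 0 := by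
    have : (2 : ZMod p) * (q 0 - r 0) = 0 := by linear_combination b1 + b2 - 2 * a5
    exact sub_eq_zero.1 ((mul_eq_zero.1 this).resolve_left h2)
  have a3 : q 3 = r 3 := by
    have : (2 : ZMod p) * (q 3 - r 3) = 0 := by linear_combination b3 + b4 - 2 * a5
    exact sub_eq_zero.1 ((mul_eq_zero.1 this).resolve_left h2)
  have a2 : q 2 = r 2 := by linear_combination b1 - a0 - a5
  have a4 : q 4 = r 4 := by linear_combination b3 - a3 - a5
  have a1 : q 1 = r 1 := by linear_combination b5 - a0 - a2 - a3 - a4 - a5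
  funext i
  fin_cases i
  · exact a0
  · exact a1
  · exact a2
  · exact a3
  · exact a4
  · exact a5

theorem ga_inv {a b c d e f : ZMod p} (h : a * d - b * c = 1) (v : ZMod p × ZMod p) :
    ga a b c d e f (ga d (-b) (-c) a (-d * e + b * f) (c * e - a * f) v) = v := by
  unfold ga
  refine Prod.ext ?_ ?_
  · simp only
    linear_combination (v.1 - e) * h
  · simp only
    linear_combination (v.2 - f) * h

theorem ga_inv' {a b c d e f : ZMod p} (h : a * d - b * c = 1) (v : ZMod p × ZMod p) :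
    ga d (-b) (-c) a (-d * e + b * f) (c * e - a * f) (ga a b c d e f v) = v := by
  unfold ga
  refine Prod.ext ?_ ?_
  · simp only
    linear_combination v.1 * h
  · simp only
    linear_combination v.2 * h

/-- the substitution as a permutation -/
def pm (h2 : (2 : ZMod p) ≠ 0) (a b c d e f : ZMod p) (h : a * d - b * c = 1) :
    Equiv.Perm (Fin 6 → ZMod p) where
  toFun := sb a b c d e f
  invFun := sb d (-b) (-c) a (-d * e + b * f) (c * e - a * f)
  left_inv q := by
    refine Q2_ext h2 _ _ fun v => ?_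
    rw [Q2_sb, Q2_sb, ga_inv h]
  right_inv q := by
    refine Q2_ext h2 _ _ fun v => ?_
    rw [Q2_sb, Q2_sb, ga_inv' h]

theorem NLC_iff (q : Fin 6 → ZMod p) : NLC q ↔ ∀ v w : ZMod p × ZMod p, w ≠ 0 →
    ∃ t : ZMod p, Q2 q (v.1 + t * w.1, v.2 + t * w.2) ≠ 0 := by
  constructor
  · intro h v w hw
    by_cases h1 : w.1 = 0
    · have h2 : w.2 ≠ 0 := fun h2 => hw (Prod.ext h1 h2)
      obtain ⟨v', hv, hq⟩ := h (Sum.inr v.1)
      have hv' : v'.1 = v.1 := hv
      refine ⟨(v'.2 - v.2) / w.2, ?_⟩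
      have e : (v.1 + (v'.2 - v.2) / w.2 * w.1, v.2 + (v'.2 - v.2) / w.2 * w.2) = v' := by
        refine Prod.ext ?_ ?_
        · simp only
          rw [h1, hv']; ring
        · simp only
          field_simp
          ring
      rw [e]
      exact hq
    · obtain ⟨v', hv, hq⟩ := h (Sum.inl (w.2 / w.1, v.2 - w.2 / w.1 * v.1))
      have hv' : v'.2 = w.2 / w.1 * v'.1 + (v.2 - w.2 / w.1 * v.1) := hv
      refine ⟨(v'.1 - v.1) / w.1, ?_⟩
      have e : (v.1 + (v'.1 - v.1) / w.1 * w.1, v.2 + (v'.1 - v.1) / w.1 * w.2) = v' := by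
        refine Prod.ext ?_ ?_
        · simp only
          field_simp
          ring
        · simp only
          rw [hv']
          field_simp
          ring
      rw [e]
      exact hq
  · intro h L
    match L with
    | Sum.inl (m, b) =>
      obtain ⟨t, ht⟩ := h (0, b) (1, m) (fun h0 => one_ne_zero (Prod.ext_iff.mp h0).1)
      refine ⟨_, ?_, ht⟩
      show b + t * m = m * (0 + t * 1) + b
      ring
    | Sum.inr b =>
      obtain ⟨t, ht⟩ := h (b, 0) (0, 1) (fun h0 => one_ne_zero (Prod.ext_iff.mp h0).2)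
      refine ⟨_, ?_, ht⟩
      show b + t * 0 = b
      ring

theorem NLC_sb {a b c d e f : ZMod p} (h : a * d - b * c = 1) {q : Fin 6 → ZMod p}
    (hq : NLC q) : NLC (sb a b c d e f q) := by
  rw [NLC_iff] at hq ⊢
  intro v w hw
  have hw' : (a * w.1 + b * w.2, c * w.1 + d * w.2) ≠ (0 : ZMod p × ZMod p) := by
    intro h0
    have h1 := (Prod.ext_iff.mp h0).1
    have h2 := (Prod.ext_iff.mp h0).2
    simp only [Prod.fst_zero, Prod.snd_zero] at h1 h2
    apply hw
    refine Prod.ext ?_ ?_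
    · simp only [Prod.fst_zero]
      linear_combination d * h1 - b * h2 - w.1 * h
    · simp only [Prod.snd_zero]
      linear_combination a * h2 - c * h1 - w.2 * h
  obtain ⟨t, ht⟩ := hq (ga a b c d e f v) _ hw'
  refine ⟨t, ?_⟩
  rw [Q2_sb]
  have e1 : ga a b c d e f (v.1 + t * w.1, v.2 + t * w.2) =
      ((ga a b c d e f v).1 + t * (a * w.1 + b * w.2, c * w.1 + d * w.2).1,
        (ga a b c d e f v).2 + t * (a * w.1 + b * w.2, c * w.1 + d * w.2).2) := by
    unfold ga
    refine Prod.ext ?_ ?_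
    · simp only
      ring
    · simp only
      ring
  rw [e1]
  exact ht

theorem NLC_sb_iff (h2 : (2 : ZMod p) ≠ 0) {a b c d e f : ZMod p} (h : a * d - b * c = 1)
    (q : Fin 6 → ZMod p) : NLC (sb a b c d e f q) ↔ NLC q := by
  constructor
  · intro hq
    have h3 := NLC_sb (a := d) (b := -b) (c := -c) (d := a) (e := -d * e + b * f)
      (f := c * e - a * f) (by linear_combination h) hq
    have h4 : sb d (-b) (-c) a (-d * e + b * f) (c * e - a * f) (sb a b c d e f q) = q :=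
      (pm h2 a b c d e f h).left_inv q
    rwa [h4] at h3
  · exact NLC_sb h

theorem N_sb {a b c d e f : ZMod p} (h : a * d - b * c = 1)
    (q : Fin 6 → ZMod p) : N (sb a b c d e f q) = N q := by
  unfold N
  refine Nat.card_congr ⟨fun v => ⟨ga a b c d e f v.1, by rw [← Q2_sb]; exact v.2⟩,
    fun v => ⟨ga d (-b) (-c) a (-d * e + b * f) (c * e - a * f) v.1, by
      rw [Q2_sb, ga_inv h]; exact v.2⟩, fun v => ?_, fun v => ?_⟩
  · exact Subtype.ext (ga_inv' h v.1)
  · exact Subtype.ext (ga_inv h v.1)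

theorem G_sb (h2 : (2 : ZMod p) ≠ 0) {a b c d e f : ZMod p} (h : a * d - b * c = 1)
    (φ : ℕ → ℚ) (q : Fin 6 → ZMod p) : G φ (sb a b c d e f q) = G φ q := by
  unfold G
  rw [N_sb h]
  by_cases hq : NLC q
  · rw [if_pos hq, if_pos ((NLC_sb_iff h2 h q).mpr hq)]
  · rw [if_neg hq, if_neg (fun h' => hq ((NLC_sb_iff h2 h q).mp h'))]

/-- translation invariance -/
theorem sum_transl (h2 : (2 : ZMod p) ≠ 0) (φ : ℕ → ℚ) (v : ZMod p × ZMod p) :
    ∑ q : Fin 6 → ZMod p, (if Q2 q v = 0 then G φ q else 0) =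
      ∑ q : Fin 6 → ZMod p, if q 5 = 0 then G φ q else 0 := by
  have h : (1 : ZMod p) * 1 - 0 * 0 = 1 := by ring
  rw [← Equiv.sum_comp (pm h2 1 0 0 1 v.1 v.2 h) (fun q => if q 5 = 0 then G φ q else 0)]
  refine Finset.sum_congr rfl fun q _ => ?_
  have e1 : (pm h2 1 0 0 1 v.1 v.2 h) q = sb 1 0 0 1 v.1 v.2 q := rfl
  rw [e1, G_sb h2 h]
  have e2 : sb 1 0 0 1 v.1 v.2 q 5 = Q2 q v := by
    show q 0 * v.1 ^ 2 + q 1 * (v.1 * v.2) + q 2 * v.1 + q 3 * v.2 ^ 2 + q 4 * v.2 + q 5 = _
    rfl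
  rw [e2]

theorem sum_N (h2 : (2 : ZMod p) ≠ 0) (φ : ℕ → ℚ) :
    ∑ q : Fin 6 → ZMod p, (N q : ℚ) * G φ q =
      (p : ℚ) ^ 2 * ∑ q : Fin 6 → ZMod p, if q 5 = 0 then G φ q else 0 := by
  have e1 : ∀ q : Fin 6 → ZMod p, (N q : ℚ) * G φ q =
      ∑ v : ZMod p × ZMod p, if Q2 q v = 0 then G φ q else 0 := by
    intro q
    unfold N
    rw [Nat.card_eq_fintype_card, Fintype.card_subtype, ← Finset.sum_filter, Finset.sum_const,
      nsmul_eq_mul]
  simp only [e1]
  rw [Finset.sum_comm]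
  simp only [sum_transl h2]
  rw [Finset.sum_const, nsmul_eq_mul, Finset.card_univ, Fintype.card_prod, ZMod.card]
  push_cast
  ring

/-- the part with given linear part -/
noncomputable def Sde (φ : ℕ → ℚ) (d e : ZMod p) : ℚ :=
  ∑ q : Fin 6 → ZMod p, if q 5 = 0 ∧ q 2 = d ∧ q 4 = e then G φ q else 0

theorem Sde_eq (h2 : (2 : ZMod p) ≠ 0) (φ : ℕ → ℚ) (d e : ZMod p) (h : ¬ (d = 0 ∧ e = 0)) :
    Sde φ d e = Sde φ (0 : ZMod p) 1 := by
  obtain ⟨b, f, hbf⟩ : ∃ b f : ZMod p, d * b + e * f = 1 := by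
    by_cases hd : d = 0
    · have he : e ≠ 0 := fun he => h ⟨hd, he⟩
      exact ⟨0, e⁻¹, by rw [mul_inv_cancel₀ he]; ring⟩
    · exact ⟨d⁻¹, 0, by rw [mul_inv_cancel₀ hd]; ring⟩
  have hdet : e * f - b * (-d) = 1 := by linear_combination hbf
  unfold Sde
  rw [← Equiv.sum_comp (pm h2 e b (-d) f 0 0 hdet)
    (fun q => if q 5 = 0 ∧ q 2 = 0 ∧ q 4 = 1 then G φ q else 0)]
  refine Finset.sum_congr rfl fun q _ => ?_
  have e1 : (pm h2 e b (-d) f 0 0 hdet) q = sb e b (-d) f 0 0 q := rfl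
  rw [e1, G_sb h2 hdet]
  have e5 : sb e b (-d) f 0 0 q 5 = q 5 := by
    show q 0 * 0 ^ 2 + q 1 * (0 * 0) + q 2 * 0 + q 3 * 0 ^ 2 + q 4 * 0 + q 5 = _
    ring
  have e2 : sb e b (-d) f 0 0 q 2 = q 2 * e - q 4 * d := by
    show 2 * q 0 * (e * 0) + q 1 * (e * 0 + (-d) * 0) + q 2 * e + 2 * q 3 * ((-d) * 0) +
      q 4 * (-d) = _
    ring
  have e4 : sb e b (-d) f 0 0 q 4 = q 2 * b + q 4 * f := by
    show 2 * q 0 * (b * 0) + q 1 * (b * 0 + f * 0) + q 2 * b + 2 * q 3 * (f * 0) + q 4 * f = _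
    ring
  rw [e5, e2, e4]
  have hiff : (q 5 = 0 ∧ q 2 = d ∧ q 4 = e) ↔
      (q 5 = 0 ∧ q 2 * e - q 4 * d = 0 ∧ q 2 * b + q 4 * f = 1) := by
    constructor
    · rintro ⟨h5, h3, h4⟩
      refine ⟨h5, by rw [h3, h4]; ring, by rw [h3, h4]; exact hbf⟩
    · rintro ⟨h5, h3, h4⟩
      refine ⟨h5, ?_, ?_⟩
      · linear_combination (-q 2) * hbf + f * h3 + d * h4
      · linear_combination (-q 4) * hbf - b * h3 + e * h4
  by_cases hc : q 5 = 0 ∧ q 2 = d ∧ q 4 = e
  · rw [if_pos hc, if_pos (hiff.mp hc)]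
  · rw [if_neg hc, if_neg (fun h' => hc (hiff.mpr h'))]

theorem sum_q5 (h2 : (2 : ZMod p) ≠ 0) (φ : ℕ → ℚ) :
    (∑ q : Fin 6 → ZMod p, if q 5 = 0 then G φ q else 0) =
      Sde φ (0 : ZMod p) 0 + ((p : ℚ) ^ 2 - 1) * Sde φ (0 : ZMod p) 1 := by
  have e1 : (∑ q : Fin 6 → ZMod p, if q 5 = 0 then G φ q else 0) =
      ∑ x : ZMod p × ZMod p, Sde φ x.1 x.2 := by
    unfold Sde
    rw [Finset.sum_comm]
    refine Finset.sum_congr rfl fun q _ => ?_
    rw [Finset.sum_eq_single (q 2, q 4)]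
    · simp
    · intro x _ hx
      rw [if_neg]
      rintro ⟨_, h3, h4⟩
      exact hx (Prod.ext h3.symm h4.symm)
    · intro h; exact absurd (Finset.mem_univ _) h
  rw [e1, ← Finset.add_sum_erase _ _ (Finset.mem_univ ((0 : ZMod p), (0 : ZMod p)))]
  congr 1
  have e2 : ∀ x ∈ (Finset.univ : Finset (ZMod p × ZMod p)).erase (0, 0),
      Sde φ x.1 x.2 = Sde φ (0 : ZMod p) 1 := by
    intro x hx
    apply Sde_eq h2
    rintro ⟨h3, h4⟩
    exact (Finset.mem_erase.mp hx).1 (Prod.ext h3 h4)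
  rw [Finset.sum_congr rfl e2, Finset.sum_const, Finset.card_erase_of_mem (Finset.mem_univ _),
    Finset.card_univ, Fintype.card_prod, ZMod.card, nsmul_eq_mul]
  congr 1
  have hp : 1 ≤ p * p := Nat.mul_pos (Fact.out : p.Prime).pos (Fact.out : p.Prime).pos
  push_cast [Nat.cast_sub hp]
  ring

/-- six coordinates -/
def e6 : (ZMod p × ZMod p × ZMod p × ZMod p × ZMod p × ZMod p) ≃ (Fin 6 → ZMod p) where
  toFun x := ![x.1, x.2.1, x.2.2.1, x.2.2.2.1, x.2.2.2.2.1, x.2.2.2.2.2]
  invFun q := (q 0, q 1, q 2, q 3, q 4, q 5)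
  left_inv x := rfl
  right_inv q := by
    funext i
    fin_cases i <;> rfl

theorem Sde_abc (φ : ℕ → ℚ) (d e : ZMod p) :
    Sde φ d e = ∑ a : ZMod p, ∑ b : ZMod p, ∑ c : ZMod p, G φ ![a, b, d, c, e, 0] := by
  unfold Sde
  rw [← Equiv.sum_comp e6]
  simp only [Fintype.sum_prod_type]
  refine Finset.sum_congr rfl fun a _ => ?_
  refine Finset.sum_congr rfl fun b _ => ?_
  have e1 : ∀ x2 x3 x4 x5 : ZMod p, (if e6 (a, b, x2, x3, x4, x5) 5 = 0 ∧
      e6 (a, b, x2, x3, x4, x5) 2 = d ∧ e6 (a, b, x2, x3, x4, x5) 4 = e then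
      G φ (e6 (a, b, x2, x3, x4, x5)) else 0) =
      if x2 = d then (if x4 = e then (if x5 = 0 then G φ ![a, b, d, x3, e, 0] else 0) else 0)
        else 0 := by
    intro x2 x3 x4 x5
    have f5 : e6 (a, b, x2, x3, x4, x5) 5 = x5 := rfl
    have f2 : e6 (a, b, x2, x3, x4, x5) 2 = x2 := rfl
    have f4 : e6 (a, b, x2, x3, x4, x5) 4 = x4 := rfl
    rw [f5, f2, f4]
    by_cases h5 : x5 = 0
    · by_cases h3 : x2 = d
      · by_cases h4 : x4 = e
        · subst h5 h3 h4
          simp only [and_self, if_true]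
          rfl
        · simp [h4]
      · simp [h3]
    · simp [h5]
  simp only [e1]
  rw [Finset.sum_eq_single d]
  · refine Finset.sum_congr rfl fun c _ => ?_
    rw [Finset.sum_eq_single e]
    · simp
    · intro x _ hx; simp [hx]
    · intro h; exact absurd (Finset.mem_univ _) h
  · intro x _ hx; simp [hx]
  · intro h; exact absurd (Finset.mem_univ _) h

/-- number of roots of a quadratic polynomial -/
noncomputable def rho (a b c : ZMod p) : ℕ :=
  (Finset.univ.filter (fun u : ZMod p => a * u ^ 2 + b * u + c = 0)).card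

theorem rho_eq (hp : 5 ≤ p) (a b c : ZMod p) (ha : a ≠ 0) :
    (rho a b c : ℤ) = quadraticChar (ZMod p) (b ^ 2 - 4 * a * c) + 1 := by
  have h2 : (2 : ZMod p) ≠ 0 := by
    intro h
    have h3 : ((2 : ℕ) : ZMod p) = 0 := by exact_mod_cast h
    rw [ZMod.natCast_eq_zero_iff] at h3
    exact absurd (Nat.le_of_dvd (by norm_num) h3) (by omega)
  have hF : ringChar (ZMod p) ≠ 2 := by
    rw [ZMod.ringChar_zmod_n]; omega
  rw [← quadraticChar_card_sqrts hF]
  unfold rho
  congr 1
  refine Finset.card_bij (fun u _ => 2 * a * u + b) ?_ ?_ ?_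
  · intro u hu
    rw [Finset.mem_filter] at hu
    simp only [Set.mem_toFinset, Set.mem_setOf_eq]
    linear_combination 4 * a * hu.2
  · intro u _ u' _ h
    have h3 : 2 * a * (u - u') = 0 := by linear_combination h
    have h4 : (2 * a : ZMod p) ≠ 0 := mul_ne_zero h2 ha
    exact sub_eq_zero.mp ((mul_eq_zero.mp h3).resolve_left h4)
  · intro x hx
    simp only [Set.mem_toFinset, Set.mem_setOf_eq] at hx
    have h4 : (2 * a : ZMod p) ≠ 0 := mul_ne_zero h2 ha
    refine ⟨(x - b) / (2 * a), ?_, ?_⟩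
    · rw [Finset.mem_filter]
      refine ⟨Finset.mem_univ _, ?_⟩
      have h5 : (4 * a) * (a * ((x - b) / (2 * a)) ^ 2 + b * ((x - b) / (2 * a)) + c) = 0 := by
        field_simp
        linear_combination 4 * hx
      have h6 : (4 * a : ZMod p) ≠ 0 := by
        have : (4 * a : ZMod p) = 2 * (2 * a) := by ring
        rw [this]
        exact mul_ne_zero h2 h4
      exact (mul_eq_zero.mp h5).resolve_left h6
    · field_simp
      ring

/-- sums over the values of the quadratic character -/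
theorem sum_chi (hp : 5 ≤ p) (f : ℤ → ℚ) :
    ∑ x : ZMod p, f (quadraticChar (ZMod p) x) = f 0 + ((p : ℚ) - 1) * ((f 1 + f (-1)) / 2) := by
  have hF : ringChar (ZMod p) ≠ 2 := by
    rw [ZMod.ringChar_zmod_n]; omega
  have h1 : ∀ x : ZMod p, x ≠ 0 → f (quadraticChar (ZMod p) x) =
      (f 1 + f (-1)) / 2 + (f 1 - f (-1)) / 2 * ((quadraticChar (ZMod p) x : ℤ) : ℚ) := by
    intro x hx
    rcases quadraticChar_dichotomy hx with h | h
    · rw [h]; push_cast; ring
    · rw [h]; push_cast; ring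
  have h2 : ∑ x : ZMod p, ((quadraticChar (ZMod p) x : ℤ) : ℚ) = 0 := by
    have := quadraticChar_sum_zero hF
    exact_mod_cast this
  rw [← Finset.add_sum_erase _ _ (Finset.mem_univ (0 : ZMod p))] at h2 ⊢
  rw [quadraticChar_zero] at h2 ⊢
  congr 1
  rw [Finset.sum_congr rfl (fun x hx => h1 x (Finset.mem_erase.mp hx).1), Finset.sum_add_distrib,
    ← Finset.mul_sum, Finset.sum_const, Finset.card_erase_of_mem (Finset.mem_univ _),
    Finset.card_univ, ZMod.card, nsmul_eq_mul]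
  have h3 : ∑ x ∈ (Finset.univ : Finset (ZMod p)).erase 0,
      ((quadraticChar (ZMod p) x : ℤ) : ℚ) = 0 := by
    simpa using h2
  rw [h3]
  have hp1 : 1 ≤ p := by omega
  push_cast [Nat.cast_sub hp1]
  ring

theorem sum_abc (hp : 5 ≤ p) (f : ℤ → ℚ) :
    (∑ a : ZMod p, ∑ b : ZMod p, ∑ c : ZMod p,
      if a ≠ 0 then f (quadraticChar (ZMod p) (b ^ 2 - 4 * a * c)) else 0) =
      ((p : ℚ) - 1) * p * (f 0 + ((p : ℚ) - 1) * ((f 1 + f (-1)) / 2)) := by
  have h2 : (2 : ZMod p) ≠ 0 := by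
    intro h
    have h3 : ((2 : ℕ) : ZMod p) = 0 := by exact_mod_cast h
    rw [ZMod.natCast_eq_zero_iff] at h3
    exact absurd (Nat.le_of_dvd (by norm_num) h3) (by omega)
  have h4 : (4 : ZMod p) ≠ 0 := by
    have : (4 : ZMod p) = 2 * 2 := by norm_num
    rw [this]
    exact mul_ne_zero h2 h2
  have h1 : ∀ a b : ZMod p, a ≠ 0 →
      ∑ c : ZMod p, f (quadraticChar (ZMod p) (b ^ 2 - 4 * a * c)) =
      f 0 + ((p : ℚ) - 1) * ((f 1 + f (-1)) / 2) := by
    intro a b ha
    rw [← sum_chi hp f]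
    have h5 : (4 * a : ZMod p) ≠ 0 := mul_ne_zero h4 ha
    refine Finset.sum_nbij' (fun c => b ^ 2 - 4 * a * c) (fun x => (b ^ 2 - x) / (4 * a))
      ?_ ?_ ?_ ?_ ?_
    · intro c _; exact Finset.mem_univ _
    · intro c _; exact Finset.mem_univ _
    · intro c _
      field_simp
      ring
    · intro x _
      field_simp
      ring
    · intro c _; rfl
  have h6 : ∀ a : ZMod p, (∑ b : ZMod p, ∑ c : ZMod p,
      if a ≠ 0 then f (quadraticChar (ZMod p) (b ^ 2 - 4 * a * c)) else 0) =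
      if a ≠ 0 then (p : ℚ) * (f 0 + ((p : ℚ) - 1) * ((f 1 + f (-1)) / 2)) else 0 := by
    intro a
    by_cases ha : a = 0
    · simp [ha]
    · simp only [ne_eq, ha, not_false_eq_true, if_true, h1 a _ ha]
      rw [Finset.sum_const, Finset.card_univ, ZMod.card, nsmul_eq_mul]
  simp only [h6]
  rw [← Finset.sum_filter, Finset.sum_const, nsmul_eq_mul]
  have h7 : (Finset.univ.filter (fun a : ZMod p => a ≠ 0)).card = p - 1 := by
    rw [Finset.filter_ne', Finset.card_erase_of_mem (Finset.mem_univ _), Finset.card_univ,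
      ZMod.card]
  rw [h7]
  have hp1 : 1 ≤ p := by omega
  push_cast [Nat.cast_sub hp1]
  ring

theorem Q2_vec (a b d c e f : ZMod p) (v : ZMod p × ZMod p) :
    Q2 ![a, b, d, c, e, f] v =
      a * v.1 ^ 2 + b * (v.1 * v.2) + d * v.1 + c * v.2 ^ 2 + e * v.2 + f := rfl

theorem rho_zero_iff (a b c : ZMod p) : rho a b c = 0 ↔ ∀ u, a * u ^ 2 + b * u + c ≠ 0 := by
  unfold rho
  rw [Finset.card_eq_zero, Finset.filter_eq_empty_iff]
  simp

theorem G_hom (hp : 5 ≤ p) (φ : ℕ → ℚ) (a b c : ZMod p) :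
    G φ ![a, b, 0, c, 0, 0] = if a ≠ 0 then (if quadraticChar (ZMod p) (b ^ 2 - 4 * a * c) = -1
      then φ 1 else 0) else 0 := by
  by_cases ha : a = 0
  · rw [if_neg (by simpa using ha)]
    unfold G
    rw [if_neg]
    rw [NLC_iff]
    intro h
    obtain ⟨t, ht⟩ := h (0, 0) (1, 0) (fun h0 => one_ne_zero (Prod.ext_iff.mp h0).1)
    apply ht
    rw [Q2_vec, ha]
    ring
  · rw [if_pos ha]
    have hr := rho_eq hp a b c ha
    by_cases hχ : quadraticChar (ZMod p) (b ^ 2 - 4 * a * c) = -1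
    · rw [if_pos hχ]
      have h0 : rho a b c = 0 := by rw [hχ] at hr; omega
      rw [rho_zero_iff] at h0
      have hz : ∀ v : ZMod p × ZMod p, Q2 ![a, b, 0, c, 0, 0] v = 0 ↔ v = (0, 0) := by
        intro v
        rw [Q2_vec]
        constructor
        · intro h
          by_cases hy : v.2 = 0
          · rw [hy] at h
            have h3 : a * v.1 ^ 2 = 0 := by linear_combination h
            have h4 : v.1 = 0 := by
              have := (mul_eq_zero.mp h3).resolve_left ha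
              exact pow_eq_zero_iff (two_ne_zero) |>.mp this
            exact Prod.ext h4 hy
          · exfalso
            apply h0 (v.1 / v.2)
            field_simp
            linear_combination h
        · intro h
          rw [h]
          ring
      have hN : NLC ![a, b, 0, c, 0, 0] := by
        rw [NLC_iff]
        intro v w hw
        by_cases hv : v = (0, 0)
        · refine ⟨1, ?_⟩
          rw [ne_eq, hz, hv]
          intro h
          apply hw
          have h3 := (Prod.ext_iff.mp h).1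
          have h4 := (Prod.ext_iff.mp h).2
          refine Prod.ext ?_ ?_
          · simpa using h3
          · simpa using h4
        · refine ⟨0, ?_⟩
          rw [ne_eq, hz]
          intro h
          apply hv
          have h3 := (Prod.ext_iff.mp h).1
          have h4 := (Prod.ext_iff.mp h).2
          refine Prod.ext ?_ ?_
          · simpa using h3
          · simpa using h4
      unfold G
      rw [if_pos hN]
      congr 1
      unfold N
      rw [Nat.card_eq_one_iff_unique]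
      refine ⟨⟨fun x y => Subtype.ext ?_⟩, ⟨⟨(0, 0), (hz _).mpr rfl⟩⟩⟩
      rw [(hz _).mp x.2, (hz _).mp y.2]
    · rw [if_neg hχ]
      unfold G
      rw [if_neg]
      intro hN
      have h0 : rho a b c ≠ 0 := by
        intro h0
        apply hχ
        rw [h0] at hr
        push_cast at hr
        omega
      rw [ne_eq, rho_zero_iff] at h0
      push Not at h0
      obtain ⟨u, hu⟩ := h0
      rw [NLC_iff] at hN
      obtain ⟨t, ht⟩ := hN (0, 0) (u, 1) (fun h0 => one_ne_zero (Prod.ext_iff.mp h0).2)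
      apply ht
      rw [Q2_vec]
      simp only
      linear_combination t ^ 2 * hu

theorem NLC_y (h2 : (2 : ZMod p) ≠ 0) (a b c : ZMod p) : NLC ![a, b, 0, c, 1, 0] ↔ a ≠ 0 := by
  rw [NLC_iff]
  constructor
  · intro h ha
    obtain ⟨t, ht⟩ := h (0, 0) (1, 0) (fun h0 => one_ne_zero (Prod.ext_iff.mp h0).1)
    apply ht
    rw [Q2_vec, ha]
    ring
  · intro ha v w hw
    by_contra hcon
    push Not at hcon
    have k0 := hcon 0
    have k1 := hcon 1
    have k2 := hcon (-1)
    rw [Q2_vec] at k0 k1 k2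
    simp only at k0 k1 k2
    -- coefficients of the restriction to the line
    have c0 : a * v.1 ^ 2 + b * (v.1 * v.2) + c * v.2 ^ 2 + v.2 = 0 := by linear_combination k0
    have c2 : a * w.1 ^ 2 + b * (w.1 * w.2) + c * w.2 ^ 2 = 0 := by
      have : (2 : ZMod p) * (a * w.1 ^ 2 + b * (w.1 * w.2) + c * w.2 ^ 2) = 0 := by
        linear_combination k1 + k2 - 2 * k0
      exact (mul_eq_zero.mp this).resolve_left h2
    have c1 : 2 * a * v.1 * w.1 + b * (v.1 * w.2 + v.2 * w.1) + 2 * c * v.2 * w.2 + w.2 = 0 := by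
      linear_combination k1 - k0 - c2
    have hD : a * (v.1 * w.2 - v.2 * w.1) ^ 2 = 0 := by
      linear_combination w.2 ^ 2 * c0 + v.2 ^ 2 * c2 - w.2 * v.2 * c1
    have hD' : v.1 * w.2 - v.2 * w.1 = 0 := by
      have := (mul_eq_zero.mp hD).resolve_left ha
      exact pow_eq_zero_iff (two_ne_zero) |>.mp this
    have hw2 : w.2 ≠ 0 := by
      intro h
      rw [h] at c2
      have h3 : a * w.1 ^ 2 = 0 := by linear_combination c2
      have h4 : w.1 = 0 := by
        have := (mul_eq_zero.mp h3).resolve_left ha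
        exact pow_eq_zero_iff (two_ne_zero) |>.mp this
      exact hw (Prod.ext h4 h)
    have hv2 : v.2 = 0 := by
      have h5 : w.2 ^ 2 * v.2 = 0 := by
        linear_combination w.2 ^ 2 * c0 - v.2 ^ 2 * c2 -
          (a * (v.1 * w.2 + v.2 * w.1) + b * v.2 * w.2) * hD'
      exact (mul_eq_zero.mp h5).resolve_left (pow_ne_zero 2 hw2)
    have hv1 : v.1 = 0 := by
      have h5 : v.1 * w.2 = 0 := by rw [hv2] at hD'; linear_combination hD'
      exact (mul_eq_zero.mp h5).resolve_right hw2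
    apply hw2
    rw [hv1, hv2] at c1
    linear_combination c1

theorem N_y (a b c : ZMod p) (ha : a ≠ 0) :
    N ![a, b, 0, c, 1, 0] + rho a b c = p + 1 := by
  classical
  unfold N
  rw [Nat.card_eq_fintype_card, Fintype.card_subtype]
  set g : ZMod p → ZMod p := fun u => a * u ^ 2 + b * u + c with hg
  have e1 : Finset.univ.filter (fun v : ZMod p × ZMod p => Q2 ![a, b, 0, c, 1, 0] v = 0) =
      insert (0, 0) ((Finset.univ.filter (fun u : ZMod p => ¬ g u = 0)).image
        (fun u => (-u / g u, -1 / g u))) := by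
    ext v
    rw [Finset.mem_filter, Finset.mem_insert, Finset.mem_image, Q2_vec]
    constructor
    · rintro ⟨_, h⟩
      by_cases hy : v.2 = 0
      · left
        rw [hy] at h
        have h3 : a * v.1 ^ 2 = 0 := by linear_combination h
        have h4 : v.1 = 0 := by
          have := (mul_eq_zero.mp h3).resolve_left ha
          exact pow_eq_zero_iff (two_ne_zero) |>.mp this
        exact Prod.ext h4 hy
      · right
        have hgu : v.2 * g (v.1 / v.2) = -1 := by
          rw [hg]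
          simp only
          field_simp
          linear_combination h
        have hg0 : g (v.1 / v.2) ≠ 0 := by
          intro h0
          rw [h0, mul_zero] at hgu
          exact (neg_ne_zero.mpr one_ne_zero) hgu.symm
        refine ⟨v.1 / v.2, ?_, ?_⟩
        · rw [Finset.mem_filter]
          exact ⟨Finset.mem_univ _, hg0⟩
        · have h5 : v.2 = -1 / g (v.1 / v.2) := by
            rw [eq_div_iff hg0]; exact hgu
          refine Prod.ext ?_ ?_
          · simp only
            rw [div_eq_iff hg0]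
            have : v.1 * g (v.1 / v.2) = (v.1 / v.2) * (v.2 * g (v.1 / v.2)) := by
              field_simp
            rw [this, hgu]
            ring
          · simp only
            exact h5.symm
    · rintro (h | ⟨u, hu, h⟩)
      · refine ⟨Finset.mem_univ _, ?_⟩
        rw [h]
        ring
      · refine ⟨Finset.mem_univ _, ?_⟩
        rw [Finset.mem_filter] at hu
        have hgu := hu.2
        rw [← h]
        simp only
        have h6 : g u = a * u ^ 2 + b * u + c := rfl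
        field_simp
        rw [h6]
        ring
  rw [e1, Finset.card_insert_of_notMem, Finset.card_image_of_injOn]
  · have h7 := Finset.card_filter_add_card_filter_not (s := (Finset.univ : Finset (ZMod p)))
      (fun u => g u = 0)
    rw [Finset.card_univ, ZMod.card] at h7
    have h8 : rho a b c = (Finset.univ.filter (fun u : ZMod p => g u = 0)).card := rfl
    rw [h8]
    omega
  · intro u hu u' hu' h
    rw [Finset.mem_coe, Finset.mem_filter] at hu hu'
    have h1 := (Prod.ext_iff.mp h).1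
    have h2 := (Prod.ext_iff.mp h).2
    simp only at h1 h2
    have h3 : g u = g u' := by
      have h4 := hu.2
      have h5 := hu'.2
      field_simp at h2
      linear_combination h2
    rw [h3] at h1
    have h5 := hu'.2
    field_simp at h1
    linear_combination -h1
  · rw [Finset.mem_image]
    rintro ⟨u, hu, h⟩
    rw [Finset.mem_filter] at hu
    have h2 := (Prod.ext_iff.mp h).2
    simp only at h2
    have h4 := hu.2
    rw [div_eq_zero_iff] at h2
    rcases h2 with h2 | h2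
    · exact (neg_ne_zero.mpr one_ne_zero) h2
    · exact h4 h2

theorem G_y (hp : 5 ≤ p) (φ : ℕ → ℚ) (a b c : ZMod p) :
    G φ ![a, b, 0, c, 1, 0] = if a ≠ 0 then
      φ ((p : ℤ) - quadraticChar (ZMod p) (b ^ 2 - 4 * a * c)).toNat else 0 := by
  have h2 : (2 : ZMod p) ≠ 0 := by
    intro h
    have h3 : ((2 : ℕ) : ZMod p) = 0 := by exact_mod_cast h
    rw [ZMod.natCast_eq_zero_iff] at h3
    exact absurd (Nat.le_of_dvd (by norm_num) h3) (by omega)
  unfold G
  by_cases ha : a = 0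
  · rw [if_neg (fun h => (NLC_y h2 a b c).mp h ha), if_neg (by simpa using ha)]
  · rw [if_pos ((NLC_y h2 a b c).mpr ha), if_pos ha]
    congr 1
    have h3 := N_y a b c ha
    have h4 := rho_eq hp a b c ha
    omega

theorem Sde_00 (hp : 5 ≤ p) (φ : ℕ → ℚ) :
    Sde φ (0 : ZMod p) 0 = ((p : ℚ) - 1) * p * (((p : ℚ) - 1) * (φ 1 / 2)) := by
  rw [Sde_abc]
  simp only [G_hom hp]
  rw [sum_abc hp (fun x => if x = -1 then φ 1 else 0)]
  norm_num

theorem Sde_01 (hp : 5 ≤ p) (φ : ℕ → ℚ) :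
    Sde φ (0 : ZMod p) 1 = ((p : ℚ) - 1) * p * (φ p + ((p : ℚ) - 1) * ((φ (p - 1) + φ (p + 1)) / 2)) := by
  rw [Sde_abc]
  simp only [G_y hp]
  rw [sum_abc hp (fun x => φ ((p : ℤ) - x).toNat)]
  have e0 : ((p : ℤ) - 0).toNat = p := by simp
  have e1 : ((p : ℤ) - 1).toNat = p - 1 := by omega
  have e2 : ((p : ℤ) - (-1)).toNat = p + 1 := by omega
  simp only [e0, e1, e2]

end

theorem conic : S_CONIC := by
  intro Φ
  have hm1 : RatF (fun p => (p : ℚ) - 1) := RatF.id.sub (RatF.const 1)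
  have hp1 : RatF (fun p => (p : ℚ) + 1) := RatF.id.add (RatF.const 1)
  have h1 : RatF (fun p => (p : ℚ) ^ 2 * (((p : ℚ) - 1) * p * (((p : ℚ) - 1) *
      (Φ.eval (1 : ℚ) * (1 / 2))) + ((p : ℚ) ^ 2 - 1) * (((p : ℚ) - 1) * p * (Φ.eval (p : ℚ) +
      ((p : ℚ) - 1) * ((Φ.eval ((p : ℚ) - 1) + Φ.eval ((p : ℚ) + 1)) * (1 / 2)))))) := by
    refine (RatF.pPow 2).mul (RatF.add ?_ ?_)
    · exact (hm1.mul RatF.id).mul (hm1.mul (RatF.const _))
    · refine ((RatF.pPow 2).sub (RatF.const 1)).mul ((hm1.mul RatF.id).mul ?_)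
      refine (RatF.evalPoly Φ RatF.id).add (hm1.mul ?_)
      exact ((RatF.evalPoly Φ hm1).add (RatF.evalPoly Φ hp1)).mul (RatF.const _)
  refine h1.congr fun p _ hp => ?_
  have h2 : (2 : ZMod p) ≠ 0 := by
    intro h
    have h3 : ((2 : ℕ) : ZMod p) = 0 := by exact_mod_cast h
    rw [ZMod.natCast_eq_zero_iff] at h3
    exact absurd (Nat.le_of_dvd (by norm_num) h3) (by omega)
  have e1 : ∀ q : Fin 6 → ZMod p, (open Classical in if NLC q then
      (Nat.card {v : ZMod p × ZMod p // Q2 q v = 0} : ℚ) *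
      Φ.eval (Nat.card {v : ZMod p × ZMod p // Q2 q v = 0} : ℚ) else 0) =
      (N q : ℚ) * G (fun n => Φ.eval (n : ℚ)) q := by
    intro q
    unfold G N
    split_ifs <;> ring
  rw [Finset.sum_congr rfl (fun q _ => e1 q), sum_N h2, sum_q5 h2, Sde_00 hp, Sde_01 hp]
  have hp1 : 1 ≤ p := by omega
  push_cast [Nat.cast_sub hp1]
  ring

end Pool.Agent.NH28.UR.Conic
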