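import Pool.Agent.NH28.UR.Stm
import Pool.Agent.NH28.UR.Rat
import Pool.Agent.NH28.UR.Conic

set_option autoImplicit false

/-!
# Project UR: affine conics, power sums of point numbers
-/

namespace Pool.Agent.NH28.UR.Con

open Finset Pool.Agent.NH28.UR
open Pool.Agent.NH28.UR.Conic (N ga sb pm Q2_sb N_sb rho rho_eq sum_abc sum_chi e6 Q2_vec N_y)

section

variable {p : ℕ} [Fact p.Prime]

theorem sum_transl (h2 : (2 : ZMod p) ≠ 0) (φ : ℕ → ℚ) (v : ZMod p × ZMod p) :
    ∑ q : Fin 6 → ZMod p, (if Q2 q v = 0 then φ (N q) else 0) =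
      ∑ q : Fin 6 → ZMod p, if q 5 = 0 then φ (N q) else 0 := by
  have h : (1 : ZMod p) * 1 - 0 * 0 = 1 := by ring
  rw [← Equiv.sum_comp (pm h2 1 0 0 1 v.1 v.2 h) (fun q => if q 5 = 0 then φ (N q) else 0)]
  refine Finset.sum_congr rfl fun q _ => ?_
  have e1 : (pm h2 1 0 0 1 v.1 v.2 h) q = sb 1 0 0 1 v.1 v.2 q := rfl
  rw [e1, N_sb h]
  have e2 : sb 1 0 0 1 v.1 v.2 q 5 = Q2 q v := by
    show q 0 * v.1 ^ 2 + q 1 * (v.1 * v.2) + q 2 * v.1 + q 3 * v.2 ^ 2 + q 4 * v.2 + q 5 = _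
    rfl
  rw [e2]

theorem sum_N (h2 : (2 : ZMod p) ≠ 0) (φ : ℕ → ℚ) :
    ∑ q : Fin 6 → ZMod p, (N q : ℚ) * φ (N q) =
      (p : ℚ) ^ 2 * ∑ q : Fin 6 → ZMod p, if q 5 = 0 then φ (N q) else 0 := by
  have e1 : ∀ q : Fin 6 → ZMod p, (N q : ℚ) * φ (N q) =
      ∑ v : ZMod p × ZMod p, if Q2 q v = 0 then φ (N q) else 0 := by
    intro q
    have e2 : N q = (Finset.univ.filter (fun v : ZMod p × ZMod p => Q2 q v = 0)).card := by
      unfold N
      rw [Nat.card_eq_fintype_card, Fintype.card_subtype]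
    rw [← Finset.sum_filter, Finset.sum_const, nsmul_eq_mul, ← e2]
  simp only [e1]
  rw [Finset.sum_comm]
  simp only [sum_transl h2]
  rw [Finset.sum_const, nsmul_eq_mul, Finset.card_univ, Fintype.card_prod, ZMod.card]
  push_cast
  ring

/-- the part with given linear part -/
noncomputable def Sde (φ : ℕ → ℚ) (d e : ZMod p) : ℚ :=
  ∑ q : Fin 6 → ZMod p, if q 5 = 0 ∧ q 2 = d ∧ q 4 = e then φ (N q) else 0

theorem Sde_eq (h2 : (2 : ZMod p) ≠ 0) (φ : ℕ → ℚ) (d e : ZMod p) (h : ¬ (d = 0 ∧ e = 0)) :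
    Sde φ d e = Sde φ (0 : ZMod p) 1 := by
  obtain ⟨b, f, hbf⟩ : ∃ b f : ZMod p, d * b + e * f = 1 := by
    by_cases hd : d = 0
    · have he : e ≠ 0 := fun he => h ⟨hd, he⟩
      exact ⟨0, e⁻¹, by rw [mul_inv_cancel₀ he]; ring⟩
    · exact ⟨d⁻¹, 0, by rw [mul_inv_cancel₀ hd]; ring⟩
  have hdet : e * f - b * (-d) = 1 := by linear_combination hbf
  unfold Sde
  rw [← Equiv.sum_comp (pm h2 e b (-d) f 0 0 hdet)
    (fun q => if q 5 = 0 ∧ q 2 = 0 ∧ q 4 = 1 then φ (N q) else 0)]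
  refine Finset.sum_congr rfl fun q _ => ?_
  have e1 : (pm h2 e b (-d) f 0 0 hdet) q = sb e b (-d) f 0 0 q := rfl
  rw [e1, N_sb hdet]
  have e5 : sb e b (-d) f 0 0 q 5 = q 5 := by
    show q 0 * 0 ^ 2 + q 1 * (0 * 0) + q 2 * 0 + q 3 * 0 ^ 2 + q 4 * 0 + q 5 = _
    ring
  have e2 : sb e b (-d) f 0 0 q 2 = q 2 * e - q 4 * d := by
    show 2 * q 0 * (e * 0) + q 1 * (e * 0 + (-d) * 0) + q 2 * e + 2 * q 3 * ((-d) * 0) +
      q 4 * (-d) = _
    ring
  have e4 : sb e b (-d) f 0 0 q 4 = q 2 * b + q 4 * f := by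
    show 2 * q 0 * (b * 0) + q 1 * (b * 0 + f * 0) + q 2 * b + 2 * q 3 * (f * 0) + q 4 * f = _
    ring
  rw [e5, e2, e4]
  have hiff : (q 5 = 0 ∧ q 2 = d ∧ q 4 = e) ↔
      (q 5 = 0 ∧ q 2 * e - q 4 * d = 0 ∧ q 2 * b + q 4 * f = 1) := by
    constructor
    · rintro ⟨h5, h3, h4⟩
      refine ⟨h5, by rw [h3, h4]; ring, by rw [h3, h4]; exact hbf⟩
    · rintro ⟨h5, h3, h4⟩
      refine ⟨h5, ?_, ?_⟩
      · linear_combination (-q 2) * hbf + f * h3 + d * h4
      · linear_combination (-q 4) * hbf - b * h3 + e * h4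
  by_cases hc : q 5 = 0 ∧ q 2 = d ∧ q 4 = e
  · rw [if_pos hc, if_pos (hiff.mp hc)]
  · rw [if_neg hc, if_neg (fun h' => hc (hiff.mpr h'))]

theorem sum_q5 (h2 : (2 : ZMod p) ≠ 0) (φ : ℕ → ℚ) :
    (∑ q : Fin 6 → ZMod p, if q 5 = 0 then φ (N q) else 0) =
      Sde φ (0 : ZMod p) 0 + ((p : ℚ) ^ 2 - 1) * Sde φ (0 : ZMod p) 1 := by
  have e1 : (∑ q : Fin 6 → ZMod p, if q 5 = 0 then φ (N q) else 0) =
      ∑ x : ZMod p × ZMod p, Sde φ x.1 x.2 := by
    unfold Sde
    rw [Finset.sum_comm]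
    refine Finset.sum_congr rfl fun q _ => ?_
    rw [Finset.sum_eq_single (q 2, q 4)]
    · simp
    · intro x _ hx
      rw [if_neg]
      rintro ⟨_, h3, h4⟩
      exact hx (Prod.ext h3.symm h4.symm)
    · intro h; exact absurd (Finset.mem_univ _) h
  rw [e1, ← Finset.add_sum_erase _ _ (Finset.mem_univ ((0 : ZMod p), (0 : ZMod p)))]
  congr 1
  have e2 : ∀ x ∈ (Finset.univ : Finset (ZMod p × ZMod p)).erase (0, 0),
      Sde φ x.1 x.2 = Sde φ (0 : ZMod p) 1 := by
    intro x hx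
    apply Sde_eq h2
    rintro ⟨h3, h4⟩
    exact (Finset.mem_erase.mp hx).1 (Prod.ext h3 h4)
  rw [Finset.sum_congr rfl e2, Finset.sum_const, Finset.card_erase_of_mem (Finset.mem_univ _),
    Finset.card_univ, Fintype.card_prod, ZMod.card, nsmul_eq_mul]
  congr 1
  have hp : 1 ≤ p * p := Nat.mul_pos (Fact.out : p.Prime).pos (Fact.out : p.Prime).pos
  push_cast [Nat.cast_sub hp]
  ring

theorem Sde_abc (φ : ℕ → ℚ) (d e : ZMod p) :
    Sde φ d e = ∑ a : ZMod p, ∑ b : ZMod p, ∑ c : ZMod p, φ (N ![a, b, d, c, e, 0]) := by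
  unfold Sde
  rw [← Equiv.sum_comp e6]
  simp only [Fintype.sum_prod_type]
  refine Finset.sum_congr rfl fun a _ => ?_
  refine Finset.sum_congr rfl fun b _ => ?_
  have e1 : ∀ x2 x3 x4 x5 : ZMod p, (if e6 (a, b, x2, x3, x4, x5) 5 = 0 ∧
      e6 (a, b, x2, x3, x4, x5) 2 = d ∧ e6 (a, b, x2, x3, x4, x5) 4 = e then
      φ (N (e6 (a, b, x2, x3, x4, x5))) else 0) =
      if x2 = d then (if x4 = e then (if x5 = 0 then φ (N ![a, b, d, x3, e, 0]) else 0) else 0)
        else 0 := by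
    intro x2 x3 x4 x5
    have f5 : e6 (a, b, x2, x3, x4, x5) 5 = x5 := rfl
    have f2 : e6 (a, b, x2, x3, x4, x5) 2 = x2 := rfl
    have f4 : e6 (a, b, x2, x3, x4, x5) 4 = x4 := rfl
    rw [f5, f2, f4]
    by_cases h5 : x5 = 0
    · by_cases h3 : x2 = d
      · by_cases h4 : x4 = e
        · subst h5 h3 h4
          simp only [and_self, if_true]
          rfl
        · simp [h4]
      · simp [h3]
    · simp [h5]
  simp only [e1]
  rw [Finset.sum_eq_single d]
  · refine Finset.sum_congr rfl fun c _ => ?_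
    rw [Finset.sum_eq_single e]
    · simp
    · intro x _ hx; simp [hx]
    · intro h; exact absurd (Finset.mem_univ _) h
  · intro x _ hx; simp [hx]
  · intro h; exact absurd (Finset.mem_univ _) h

theorem N_card (q : Fin 6 → ZMod p) :
    N q = (Finset.univ.filter (fun v : ZMod p × ZMod p => Q2 q v = 0)).card := by
  unfold N
  rw [Nat.card_eq_fintype_card, Fintype.card_subtype]

theorem N_hom (a b c : ZMod p) (ha : a ≠ 0) :
    N ![a, b, 0, c, 0, 0] = 1 + rho a b c * (p - 1) := by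
  classical
  rw [N_card]
  have e1 : Finset.univ.filter (fun v : ZMod p × ZMod p => Q2 ![a, b, 0, c, 0, 0] v = 0) =
      insert (0, 0) (((Finset.univ.filter (fun u : ZMod p => a * u ^ 2 + b * u + c = 0)) ×ˢ
        (Finset.univ.erase (0 : ZMod p))).image (fun x => (x.1 * x.2, x.2))) := by
    ext v
    rw [Finset.mem_filter, Finset.mem_insert, Finset.mem_image, Q2_vec]
    constructor
    · rintro ⟨_, h⟩
      by_cases hy : v.2 = 0
      · left
        rw [hy] at h
        have h3 : a * v.1 ^ 2 = 0 := by linear_combination h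
        have h4 : v.1 = 0 := by
          have := (mul_eq_zero.mp h3).resolve_left ha
          exact pow_eq_zero_iff (two_ne_zero) |>.mp this
        exact Prod.ext h4 hy
      · right
        refine ⟨(v.1 / v.2, v.2), ?_, ?_⟩
        · rw [Finset.mem_product, Finset.mem_filter, Finset.mem_erase]
          refine ⟨⟨Finset.mem_univ _, ?_⟩, hy, Finset.mem_univ _⟩
          simp only
          field_simp
          linear_combination h
        · refine Prod.ext ?_ rfl
          simp only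
          field_simp
    · rintro (h | ⟨x, hx, h⟩)
      · refine ⟨Finset.mem_univ _, ?_⟩
        rw [h]
        ring
      · refine ⟨Finset.mem_univ _, ?_⟩
        rw [Finset.mem_product, Finset.mem_filter] at hx
        rw [← h]
        simp only
        linear_combination x.2 ^ 2 * hx.1.2
  rw [e1, Finset.card_insert_of_notMem, Finset.card_image_of_injOn, Finset.card_product,
    Finset.card_erase_of_mem (Finset.mem_univ _), Finset.card_univ, ZMod.card]
  · unfold rho
    ring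
  · intro x hx x' hx' h
    rw [Finset.mem_coe, Finset.mem_product, Finset.mem_erase] at hx hx'
    have h1 := (Prod.ext_iff.mp h).1
    have h2 := (Prod.ext_iff.mp h).2
    simp only at h1 h2
    rw [← h2] at h1
    exact Prod.ext (mul_right_cancel₀ hx.2.1 h1) h2
  · rw [Finset.mem_image]
    rintro ⟨x, hx, h⟩
    rw [Finset.mem_product, Finset.mem_erase] at hx
    exact hx.2.1 (Prod.ext_iff.mp h).2

/-- `y (b x + c y + e)` with `b ≠ 0` -/
theorem N_b (b c e : ZMod p) (hb : b ≠ 0) : N ![0, b, 0, c, e, 0] = 2 * p - 1 := by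
  classical
  rw [N_card]
  have e1 : Finset.univ.filter (fun v : ZMod p × ZMod p => Q2 ![0, b, 0, c, e, 0] v = 0) =
      (Finset.univ.image (fun x : ZMod p => (x, (0 : ZMod p)))) ∪
      ((Finset.univ.erase (0 : ZMod p)).image (fun y => (-(c * y + e) / b, y))) := by
    ext v
    rw [Finset.mem_filter, Finset.mem_union, Finset.mem_image, Finset.mem_image, Q2_vec]
    constructor
    · rintro ⟨_, h⟩
      by_cases hy : v.2 = 0
      · left
        exact ⟨v.1, Finset.mem_univ _, Prod.ext rfl hy.symm⟩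
      · right
        refine ⟨v.2, Finset.mem_erase.mpr ⟨hy, Finset.mem_univ _⟩, Prod.ext ?_ rfl⟩
        simp only
        rw [div_eq_iff hb]
        have h3 : v.2 * (b * v.1 + c * v.2 + e) = 0 := by linear_combination h
        have h4 := (mul_eq_zero.mp h3).resolve_left hy
        linear_combination -h4
    · rintro (⟨x, _, h⟩ | ⟨y, hy, h⟩)
      · refine ⟨Finset.mem_univ _, ?_⟩
        rw [← h]
        ring
      · refine ⟨Finset.mem_univ _, ?_⟩
        rw [← h]
        simp only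
        field_simp
        ring
  rw [e1, Finset.card_union_of_disjoint, Finset.card_image_of_injective,
    Finset.card_image_of_injective, Finset.card_erase_of_mem (Finset.mem_univ _),
    Finset.card_univ, ZMod.card]
  · have := (Fact.out : p.Prime).pos
    omega
  · intro y y' h
    exact (Prod.ext_iff.mp h).2
  · intro y y' h
    exact (Prod.ext_iff.mp h).1
  · rw [Finset.disjoint_left]
    intro v h1 h3
    rw [Finset.mem_image] at h1 h3
    obtain ⟨x, _, hx⟩ := h1
    obtain ⟨y, hy, hy'⟩ := h3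
    rw [Finset.mem_erase] at hy
    rw [← hx] at hy'
    exact hy.1 (Prod.ext_iff.mp hy').2

theorem N_c0 (c : ZMod p) (hc : c ≠ 0) : N ![0, 0, 0, c, 0, 0] = p := by
  classical
  rw [N_card]
  have e1 : Finset.univ.filter (fun v : ZMod p × ZMod p => Q2 ![0, 0, 0, c, 0, 0] v = 0) =
      (Finset.univ.image (fun x : ZMod p => (x, (0 : ZMod p)))) := by
    ext v
    rw [Finset.mem_filter, Finset.mem_image, Q2_vec]
    constructor
    · rintro ⟨_, h⟩
      have h3 : c * v.2 ^ 2 = 0 := by linear_combination h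
      have h4 : v.2 = 0 := by
        have := (mul_eq_zero.mp h3).resolve_left hc
        exact pow_eq_zero_iff (two_ne_zero) |>.mp this
      exact ⟨v.1, Finset.mem_univ _, Prod.ext rfl h4.symm⟩
    · rintro ⟨x, _, h⟩
      refine ⟨Finset.mem_univ _, ?_⟩
      rw [← h]
      ring
  rw [e1, Finset.card_image_of_injective, Finset.card_univ, ZMod.card]
  intro y y' h
  exact (Prod.ext_iff.mp h).1

theorem N_y0 : N ![(0 : ZMod p), 0, 0, 0, 1, 0] = p := by
  classical
  rw [N_card]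
  have e1 : Finset.univ.filter (fun v : ZMod p × ZMod p => Q2 ![0, 0, 0, 0, 1, 0] v = 0) =
      (Finset.univ.image (fun x : ZMod p => (x, (0 : ZMod p)))) := by
    ext v
    rw [Finset.mem_filter, Finset.mem_image, Q2_vec]
    constructor
    · rintro ⟨_, h⟩
      have h4 : v.2 = 0 := by linear_combination h
      exact ⟨v.1, Finset.mem_univ _, Prod.ext rfl h4.symm⟩
    · rintro ⟨x, _, h⟩
      refine ⟨Finset.mem_univ _, ?_⟩
      rw [← h]
      ring
  rw [e1, Finset.card_image_of_injective, Finset.card_univ, ZMod.card]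
  intro y y' h
  exact (Prod.ext_iff.mp h).1

theorem N_c1 (c : ZMod p) (hc : c ≠ 0) : N ![0, 0, 0, c, 1, 0] = 2 * p := by
  classical
  rw [N_card]
  have e1 : Finset.univ.filter (fun v : ZMod p × ZMod p => Q2 ![0, 0, 0, c, 1, 0] v = 0) =
      (Finset.univ.image (fun x : ZMod p => (x, (0 : ZMod p)))) ∪
      (Finset.univ.image (fun x : ZMod p => (x, -1 / c))) := by
    ext v
    rw [Finset.mem_filter, Finset.mem_union, Finset.mem_image, Finset.mem_image, Q2_vec]
    constructor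
    · rintro ⟨_, h⟩
      by_cases hy : v.2 = 0
      · left
        exact ⟨v.1, Finset.mem_univ _, Prod.ext rfl hy.symm⟩
      · right
        refine ⟨v.1, Finset.mem_univ _, Prod.ext rfl ?_⟩
        simp only
        rw [div_eq_iff hc]
        have h3 : v.2 * (c * v.2 + 1) = 0 := by linear_combination h
        have h4 := (mul_eq_zero.mp h3).resolve_left hy
        linear_combination -h4
    · rintro (⟨x, _, h⟩ | ⟨x, _, h⟩)
      · refine ⟨Finset.mem_univ _, ?_⟩
        rw [← h]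
        ring
      · refine ⟨Finset.mem_univ _, ?_⟩
        rw [← h]
        simp only
        field_simp
        ring
  rw [e1, Finset.card_union_of_disjoint, Finset.card_image_of_injective,
    Finset.card_image_of_injective, Finset.card_univ, ZMod.card]
  · ring
  · intro y y' h
    exact (Prod.ext_iff.mp h).1
  · intro y y' h
    exact (Prod.ext_iff.mp h).1
  · rw [Finset.disjoint_left]
    intro v h1 h3
    rw [Finset.mem_image] at h1 h3
    obtain ⟨x, _, hx⟩ := h1
    obtain ⟨y, _, hy'⟩ := h3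
    rw [← hx] at hy'
    have h4 := (Prod.ext_iff.mp hy').2
    simp only at h4
    rw [div_eq_zero_iff] at h4
    rcases h4 with h4 | h4
    · exact (neg_ne_zero.mpr one_ne_zero) h4
    · exact hc h4

theorem N_00 : N ![(0 : ZMod p), 0, 0, 0, 0, 0] = p ^ 2 := by
  classical
  rw [N_card]
  have e1 : Finset.univ.filter (fun v : ZMod p × ZMod p => Q2 ![0, 0, 0, 0, 0, 0] v = 0) =
      Finset.univ := by
    rw [Finset.filter_eq_self]
    intro v _
    rw [Q2_vec]
    ring
  rw [e1, Finset.card_univ, Fintype.card_prod, ZMod.card]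
  ring

/-- sums over `b`, `c` -/
theorem sum_bc (g : ZMod p → ZMod p → ℚ) (x y z : ℚ) (h1 : ∀ b c, b ≠ 0 → g b c = x)
    (h2 : ∀ c, c ≠ 0 → g 0 c = y) (h3 : g 0 0 = z) :
    ∑ b : ZMod p, ∑ c : ZMod p, g b c = ((p : ℚ) - 1) * p * x + ((p : ℚ) - 1) * y + z := by
  have hp1 : 1 ≤ p := (Fact.out : p.Prime).pos
  rw [← Finset.add_sum_erase _ _ (Finset.mem_univ (0 : ZMod p)),
    ← Finset.add_sum_erase (Finset.univ) (fun c => g 0 c) (Finset.mem_univ (0 : ZMod p)), h3]
  have e1 : ∀ b ∈ (Finset.univ : Finset (ZMod p)).erase 0, ∑ c : ZMod p, g b c = p * x := by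
    intro b hb
    rw [Finset.sum_congr rfl (fun c _ => h1 b c (Finset.mem_erase.mp hb).1), Finset.sum_const,
      Finset.card_univ, ZMod.card, nsmul_eq_mul]
  have e2 : ∀ c ∈ (Finset.univ : Finset (ZMod p)).erase 0, g 0 c = y := fun c hc =>
    h2 c (Finset.mem_erase.mp hc).1
  rw [Finset.sum_congr rfl e1, Finset.sum_congr rfl e2, Finset.sum_const, Finset.sum_const,
    Finset.card_erase_of_mem (Finset.mem_univ _), Finset.card_univ, ZMod.card, nsmul_eq_mul,
    nsmul_eq_mul]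
  push_cast [Nat.cast_sub hp1]
  ring

theorem sum_split (g : ZMod p → ZMod p → ZMod p → ℚ) :
    ∑ a : ZMod p, ∑ b : ZMod p, ∑ c : ZMod p, g a b c =
      (∑ a : ZMod p, ∑ b : ZMod p, ∑ c : ZMod p, if a ≠ 0 then g a b c else 0) +
      ∑ b : ZMod p, ∑ c : ZMod p, g 0 b c := by
  rw [← Finset.add_sum_erase _ _ (Finset.mem_univ (0 : ZMod p)),
    ← Finset.add_sum_erase (Finset.univ) (fun a => ∑ b : ZMod p, ∑ c : ZMod p,
      if a ≠ 0 then g a b c else 0) (Finset.mem_univ (0 : ZMod p))]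
  have e1 : (∑ b : ZMod p, ∑ c : ZMod p, if (0 : ZMod p) ≠ 0 then g 0 b c else 0) = 0 := by
    simp
  rw [e1, zero_add, add_comm]
  congr 1
  refine Finset.sum_congr rfl fun a ha => ?_
  have ha' := (Finset.mem_erase.mp ha).1
  simp only [ne_eq, ha', not_false_eq_true, if_true]

theorem Sde_00 (hp : 5 ≤ p) (φ : ℕ → ℚ) :
    Sde φ (0 : ZMod p) 0 = ((p : ℚ) - 1) * p * (φ p + ((p : ℚ) - 1) *
      ((φ (2 * p - 1) + φ 1) / 2)) + (((p : ℚ) - 1) * p * φ (2 * p - 1) + ((p : ℚ) - 1) * φ p +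
      φ (p ^ 2)) := by
  rw [Sde_abc, sum_split]
  congr 1
  · have e1 : ∀ a b c : ZMod p, (if a ≠ 0 then φ (N ![a, b, 0, c, 0, 0]) else 0) =
        if a ≠ 0 then (fun x : ℤ => φ (1 + (x + 1).toNat * (p - 1)))
          (quadraticChar (ZMod p) (b ^ 2 - 4 * a * c)) else 0 := by
      intro a b c
      by_cases ha : a = 0
      · simp [ha]
      · rw [if_pos ha, if_pos ha, N_hom a b c ha]
        have h4 := rho_eq hp a b c ha
        simp only
        congr 2
        rw [← h4]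
        rw [Int.toNat_natCast]
    simp only [e1]
    rw [sum_abc hp (fun x : ℤ => φ (1 + (x + 1).toNat * (p - 1)))]
    have f0 : 1 + ((0 : ℤ) + 1).toNat * (p - 1) = p := by
      have : ((0 : ℤ) + 1).toNat = 1 := rfl
      rw [this]; omega
    have f1 : 1 + ((1 : ℤ) + 1).toNat * (p - 1) = 2 * p - 1 := by
      have : ((1 : ℤ) + 1).toNat = 2 := rfl
      rw [this]; omega
    have f2 : 1 + ((-1 : ℤ) + 1).toNat * (p - 1) = 1 := by
      have : ((-1 : ℤ) + 1).toNat = 0 := rfl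
      rw [this]; omega
    simp only [f0, f1, f2]
  · refine sum_bc _ _ _ _ (fun b c hb => ?_) (fun c hc => ?_) ?_
    · rw [N_b b c 0 hb]
    · rw [N_c0 c hc]
    · rw [N_00]

theorem Sde_01 (hp : 5 ≤ p) (φ : ℕ → ℚ) :
    Sde φ (0 : ZMod p) 1 = ((p : ℚ) - 1) * p * (φ p + ((p : ℚ) - 1) *
      ((φ (p - 1) + φ (p + 1)) / 2)) + (((p : ℚ) - 1) * p * φ (2 * p - 1) +
      ((p : ℚ) - 1) * φ (2 * p) + φ p) := by
  rw [Sde_abc, sum_split]
  congr 1
  · have e1 : ∀ a b c : ZMod p, (if a ≠ 0 then φ (N ![a, b, 0, c, 1, 0]) else 0) =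
        if a ≠ 0 then (fun x : ℤ => φ ((p : ℤ) - x).toNat)
          (quadraticChar (ZMod p) (b ^ 2 - 4 * a * c)) else 0 := by
      intro a b c
      by_cases ha : a = 0
      · simp [ha]
      · rw [if_pos ha, if_pos ha]
        have h3 := N_y a b c ha
        have h4 := rho_eq hp a b c ha
        simp only
        congr 1
        omega
    simp only [e1]
    rw [sum_abc hp (fun x : ℤ => φ ((p : ℤ) - x).toNat)]
    have e0 : ((p : ℤ) - 0).toNat = p := by simp
    have e1 : ((p : ℤ) - 1).toNat = p - 1 := by omega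
    have e2 : ((p : ℤ) - (-1)).toNat = p + 1 := by omega
    simp only [e0, e1, e2]
  · refine sum_bc _ _ _ _ (fun b c hb => ?_) (fun c hc => ?_) ?_
    · rw [N_b b c 1 hb]
    · rw [N_c1 c hc]
    · rw [N_y0]

theorem Naff_eq (c : Fin 10 → ZMod p) (h : c 0 = 0 ∧ c 1 = 0 ∧ c 3 = 0 ∧ c 6 = 0) :
    Naff c = N ![c 2, c 4, c 5, c 7, c 8, c 9] := by
  unfold Naff N
  congr 1
  have : ∀ v : ZMod p × ZMod p, T c v.1 v.2 1 = Q2 ![c 2, c 4, c 5, c 7, c 8, c 9] v := by
    intro v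
    rw [Q2_vec]
    unfold T
    rw [h.1, h.2.1, h.2.2.1, h.2.2.2]
    ring
  simp only [this]

theorem sum_ten (f : ℕ → ℚ) : (∑ c : Fin 10 → ZMod p,
    if c 0 = 0 ∧ c 1 = 0 ∧ c 3 = 0 ∧ c 6 = 0 then f (Naff c) else 0) =
    ∑ q : Fin 6 → ZMod p, f (N q) := by
  rw [← Finset.sum_filter]
  refine Finset.sum_nbij' (fun c => ![c 2, c 4, c 5, c 7, c 8, c 9])
    (fun q => ![0, 0, q 0, 0, q 1, q 2, 0, q 3, q 4, q 5]) ?_ ?_ ?_ ?_ ?_
  · intro c _; exact Finset.mem_univ _
  · intro q _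
    rw [Finset.mem_filter]
    exact ⟨Finset.mem_univ _, rfl, rfl, rfl, rfl⟩
  · intro c hc
    rw [Finset.mem_filter] at hc
    obtain ⟨_, h0, h1, h3, h6⟩ := hc
    funext i
    fin_cases i
    · exact h0.symm
    · exact h1.symm
    · rfl
    · exact h3.symm
    · rfl
    · rfl
    · exact h6.symm
    · rfl
    · rfl
    · rfl
  · intro q _
    funext i
    fin_cases i <;> rfl
  · intro c hc
    rw [Finset.mem_filter] at hc
    rw [Naff_eq c hc.2]

end

theorem con : S_CON := by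
  intro k
  cases k with
  | zero =>
    refine (RatF.pPow 6).congr fun p _ hp => ?_
    rw [sum_ten (fun n => (n : ℚ) ^ 0)]
    simp
  | succ k =>
    have hm1 : RatF (fun p => (p : ℚ) - 1) := RatF.id.sub (RatF.const 1)
    have hp1 : RatF (fun p => (p : ℚ) + 1) := RatF.id.add (RatF.const 1)
    have h2m : RatF (fun p => 2 * (p : ℚ) - 1) :=
      ((RatF.const 2).mul RatF.id).sub (RatF.const 1)
    have h2p : RatF (fun p => 2 * (p : ℚ)) := (RatF.const 2).mul RatF.id
    have h0 : RatF (fun p => ((p : ℚ) - 1) * p * ((p : ℚ) ^ k + ((p : ℚ) - 1) *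
      (((2 * (p : ℚ) - 1) ^ k + 1) * (1 / 2))) + (((p : ℚ) - 1) * p * (2 * (p : ℚ) - 1) ^ k +
      ((p : ℚ) - 1) * (p : ℚ) ^ k + ((p : ℚ) ^ 2) ^ k)) := by
      refine RatF.add ?_ (RatF.add (RatF.add ?_ ?_) ?_)
      · refine (hm1.mul RatF.id).mul (RatF.add (RatF.pPow k) (hm1.mul ?_))
        exact ((h2m.pow k).add (RatF.const 1)).mul (RatF.const _)
      · exact (hm1.mul RatF.id).mul (h2m.pow k)
      · exact hm1.mul (RatF.pPow k)
      · exact (RatF.pPow 2).pow k
    have h1 : RatF (fun p => ((p : ℚ) - 1) * p * ((p : ℚ) ^ k + ((p : ℚ) - 1) *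
      ((((p : ℚ) - 1) ^ k + ((p : ℚ) + 1) ^ k) * (1 / 2))) +
      (((p : ℚ) - 1) * p * (2 * (p : ℚ) - 1) ^ k +
      ((p : ℚ) - 1) * (2 * (p : ℚ)) ^ k + (p : ℚ) ^ k)) := by
      refine RatF.add ?_ (RatF.add (RatF.add ?_ ?_) ?_)
      · refine (hm1.mul RatF.id).mul (RatF.add (RatF.pPow k) (hm1.mul ?_))
        exact ((hm1.pow k).add (hp1.pow k)).mul (RatF.const _)
      · exact (hm1.mul RatF.id).mul (h2m.pow k)
      · exact hm1.mul (h2p.pow k)
      · exact RatF.pPow k
    refine ((RatF.pPow 2).mul (h0.add (((RatF.pPow 2).sub (RatF.const 1)).mul h1))).congr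
      fun p _ hp => ?_
    have h2 : (2 : ZMod p) ≠ 0 := by
      intro h
      have h3 : ((2 : ℕ) : ZMod p) = 0 := by exact_mod_cast h
      rw [ZMod.natCast_eq_zero_iff] at h3
      exact absurd (Nat.le_of_dvd (by norm_num) h3) (by omega)
    rw [sum_ten (fun n => (n : ℚ) ^ (k + 1))]
    have e1 : ∀ q : Fin 6 → ZMod p, ((N q : ℕ) : ℚ) ^ (k + 1) =
        (N q : ℚ) * (fun n : ℕ => (n : ℚ) ^ k) (N q) := by
      intro q
      rw [pow_succ]
      ring
    rw [Finset.sum_congr rfl (fun q _ => e1 q), sum_N h2 (fun n : ℕ => (n : ℚ) ^ k),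
      sum_q5 h2 (fun n : ℕ => (n : ℚ) ^ k), Sde_00 hp, Sde_01 hp]
    have hp1 : 1 ≤ p := by omega
    have hp2 : 1 ≤ 2 * p := by omega
    push_cast [Nat.cast_sub hp1, Nat.cast_sub hp2]
    ring

end Pool.Agent.NH28.UR.Con
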