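import Pool.Agent.NH28.UR.Stm

set_option autoImplicit false

/-! # UR-CONE (by helper40): ten points, no four collinear, on two cubics -/

namespace Pool.Agent.NH28.UR.Cone

open Pool.Agent.NH28.UR

/-- the coefficients of the product of a conic and an affine function -/
def mulc {F : Type} [CommRing F] (q : Fin 6 → F) (l : Fin 3 → F) : Fin 10 → F :=
  ![q 0 * l 0, q 0 * l 1 + q 1 * l 0, q 0 * l 2 + q 2 * l 0, q 1 * l 1 + q 3 * l 0,
    q 1 * l 2 + q 2 * l 1 + q 4 * l 0, q 2 * l 2 + q 5 * l 0, q 3 * l 1,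
    q 3 * l 2 + q 4 * l 1, q 4 * l 2 + q 5 * l 1, q 5 * l 2]

lemma mulc_T {F : Type} [CommRing F] (q : Fin 6 → F) (l : Fin 3 → F) (v : F × F) :
    T (mulc q l) v.1 v.2 1 = Q2 q v * Q1 l v := by
  have e0 : mulc q l 0 = q 0 * l 0 := rfl
  have e1 : mulc q l 1 = q 0 * l 1 + q 1 * l 0 := rfl
  have e2 : mulc q l 2 = q 0 * l 2 + q 2 * l 0 := rfl
  have e3 : mulc q l 3 = q 1 * l 1 + q 3 * l 0 := rfl
  have e4 : mulc q l 4 = q 1 * l 2 + q 2 * l 1 + q 4 * l 0 := rfl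
  have e5 : mulc q l 5 = q 2 * l 2 + q 5 * l 0 := rfl
  have e6 : mulc q l 6 = q 3 * l 1 := rfl
  have e7 : mulc q l 7 = q 3 * l 2 + q 4 * l 1 := rfl
  have e8 : mulc q l 8 = q 4 * l 2 + q 5 * l 1 := rfl
  have e9 : mulc q l 9 = q 5 * l 2 := rfl
  unfold T Q2 Q1
  rw [e0, e1, e2, e3, e4, e5, e6, e7, e8, e9]
  ring

section
variable {p : ℕ} [Fact p.Prime]

lemma mulc_zero {q : Fin 6 → ZMod p} {l : Fin 3 → ZMod p} (hq : q ≠ 0) (h : mulc q l = 0) :
    l = 0 := by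
  have e0 : q 0 * l 0 = 0 := congrFun h 0
  have e1 : q 0 * l 1 + q 1 * l 0 = 0 := congrFun h 1
  have e2 : q 0 * l 2 + q 2 * l 0 = 0 := congrFun h 2
  have e3 : q 1 * l 1 + q 3 * l 0 = 0 := congrFun h 3
  have e4 : q 1 * l 2 + q 2 * l 1 + q 4 * l 0 = 0 := congrFun h 4
  have e5 : q 2 * l 2 + q 5 * l 0 = 0 := congrFun h 5
  have e6 : q 3 * l 1 = 0 := congrFun h 6
  have e7 : q 3 * l 2 + q 4 * l 1 = 0 := congrFun h 7
  have e8 : q 4 * l 2 + q 5 * l 1 = 0 := congrFun h 8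
  have e9 : q 5 * l 2 = 0 := congrFun h 9
  by_cases h0 : l 0 = 0
  · by_cases h1 : l 1 = 0
    · by_cases h2 : l 2 = 0
      · funext i
        fin_cases i
        · exact h0
        · exact h1
        · exact h2
      · exfalso
        apply hq
        have f0 : q 0 = 0 := by simpa [h0, h2] using e2
        have f1 : q 1 = 0 := by simpa [h0, h1, h2] using e4
        have f2 : q 2 = 0 := by simpa [h0, h2] using e5
        have f3 : q 3 = 0 := by simpa [h1, h2] using e7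
        have f4 : q 4 = 0 := by simpa [h1, h2] using e8
        have f5 : q 5 = 0 := by simpa [h2] using e9
        funext i
        fin_cases i
        · exact f0
        · exact f1
        · exact f2
        · exact f3
        · exact f4
        · exact f5
    · exfalso
      apply hq
      have f0 : q 0 = 0 := by simpa [h0, h1] using e1
      have f1 : q 1 = 0 := by simpa [h0, h1] using e3
      have f3 : q 3 = 0 := by simpa [h1] using e6
      have f2 : q 2 = 0 := by simpa [h0, h1, f1] using e4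
      have f4 : q 4 = 0 := by simpa [h1, f3] using e7
      have f5 : q 5 = 0 := by simpa [h1, f4] using e8
      funext i
      fin_cases i
      · exact f0
      · exact f1
      · exact f2
      · exact f3
      · exact f4
      · exact f5
  · exfalso
    apply hq
    have f0 : q 0 = 0 := by simpa [h0] using e0
    have f1 : q 1 = 0 := by simpa [h0, f0] using e1
    have f2 : q 2 = 0 := by simpa [h0, f0] using e2
    have f3 : q 3 = 0 := by simpa [h0, f1] using e3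
    have f4 : q 4 = 0 := by simpa [h0, f1, f2] using e4
    have f5 : q 5 = 0 := by simpa [h0, f2] using e5
    funext i
    fin_cases i
    · exact f0
    · exact f1
    · exact f2
    · exact f3
    · exact f4
    · exact f5

lemma mulc_inj {q : Fin 6 → ZMod p} (hq : q ≠ 0) : Function.Injective (mulc q) := by
  intro l l' h
  have h1 : mulc q (l - l') = 0 := by
    have e : ∀ i, mulc q l i = mulc q l' i := fun i => congrFun h i
    have e0 : q 0 * l 0 = q 0 * l' 0 := e 0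
    have e1 : q 0 * l 1 + q 1 * l 0 = q 0 * l' 1 + q 1 * l' 0 := e 1
    have e2 : q 0 * l 2 + q 2 * l 0 = q 0 * l' 2 + q 2 * l' 0 := e 2
    have e3 : q 1 * l 1 + q 3 * l 0 = q 1 * l' 1 + q 3 * l' 0 := e 3
    have e4 : q 1 * l 2 + q 2 * l 1 + q 4 * l 0 = q 1 * l' 2 + q 2 * l' 1 + q 4 * l' 0 := e 4
    have e5 : q 2 * l 2 + q 5 * l 0 = q 2 * l' 2 + q 5 * l' 0 := e 5
    have e6 : q 3 * l 1 = q 3 * l' 1 := e 6
    have e7 : q 3 * l 2 + q 4 * l 1 = q 3 * l' 2 + q 4 * l' 1 := e 7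
    have e8 : q 4 * l 2 + q 5 * l 1 = q 4 * l' 2 + q 5 * l' 1 := e 8
    have e9 : q 5 * l 2 = q 5 * l' 2 := e 9
    funext i
    fin_cases i
    · show q 0 * (l 0 - l' 0) = 0
      linear_combination e0
    · show q 0 * (l 1 - l' 1) + q 1 * (l 0 - l' 0) = 0
      linear_combination e1
    · show q 0 * (l 2 - l' 2) + q 2 * (l 0 - l' 0) = 0
      linear_combination e2
    · show q 1 * (l 1 - l' 1) + q 3 * (l 0 - l' 0) = 0
      linear_combination e3
    · show q 1 * (l 2 - l' 2) + q 2 * (l 1 - l' 1) + q 4 * (l 0 - l' 0) = 0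
      linear_combination e4
    · show q 2 * (l 2 - l' 2) + q 5 * (l 0 - l' 0) = 0
      linear_combination e5
    · show q 3 * (l 1 - l' 1) = 0
      linear_combination e6
    · show q 3 * (l 2 - l' 2) + q 4 * (l 1 - l' 1) = 0
      linear_combination e7
    · show q 4 * (l 2 - l' 2) + q 5 * (l 1 - l' 1) = 0
      linear_combination e8
    · show q 5 * (l 2 - l' 2) = 0
      linear_combination e9
  exact sub_eq_zero.1 (mulc_zero hq h1)

lemma nL_eq (L : Lin p) (Γ : Set (ZMod p × ZMod p)) :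
    nL L Γ = ({v | v ∈ Γ ∧ onL L v} : Set (ZMod p × ZMod p)).ncard :=
  Nat.card_coe_set_eq _

lemma nQ_eq (q : Fin 6 → ZMod p) (Γ : Set (ZMod p × ZMod p)) :
    nQ q Γ = ({v | v ∈ Γ ∧ Q2 q v = 0} : Set (ZMod p × ZMod p)).ncard :=
  Nat.card_coe_set_eq _

lemma nL_mono (L : Lin p) {Γ Γ' : Set (ZMod p × ZMod p)} (h : Γ ⊆ Γ') : nL L Γ ≤ nL L Γ' := by
  rw [nL_eq, nL_eq]
  exact Set.ncard_le_ncard (fun v hv => ⟨h hv.1, hv.2⟩) (Set.toFinite _)

lemma split_card (P : ZMod p × ZMod p → Prop) (Γ : Set (ZMod p × ZMod p)) :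
    ({v | v ∈ Γ ∧ P v} : Set (ZMod p × ZMod p)).ncard +
      ({v | v ∈ Γ ∧ ¬ P v} : Set (ZMod p × ZMod p)).ncard = Γ.ncard := by
  rw [← Set.ncard_union_eq _ (Set.toFinite _) (Set.toFinite _)]
  · congr 1
    ext v
    simp only [Set.mem_union, Set.mem_ofPred_eq]
    tauto
  · rw [Set.disjoint_left]
    rintro v ⟨_, h1⟩ ⟨_, h2⟩
    exact h2 h1

/-- KEY LEMMA -/
lemma keyK (hG : S_GEN3) (h5 : 5 ≤ p) {Γ Δ : Set (ZMod p × ZMod p)} (hΔ : Δ.ncard = 7)
    (hL : ∀ L, nL L Δ ≤ 3) (hsub : Δ ⊆ Γ) {q : Fin 6 → ZMod p} (hq : q ≠ 0)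
    (hv : ∀ v ∈ Δ, Q2 q v = 0) : w3 Γ = w1 ({v | v ∈ Γ ∧ ¬ Q2 q v = 0}) := by
  have h3 : w3 Δ = p ^ 3 := hG p h5 Δ ((Nat.card_coe_set_eq _).trans hΔ) hL
  -- all cubics vanishing on `Δ` are products
  have hall : ∀ c : Fin 10 → ZMod p, (∀ v ∈ Δ, T c v.1 v.2 1 = 0) → ∃ l, mulc q l = c := by
    set f : (Fin 3 → ZMod p) → {c : Fin 10 → ZMod p // ∀ v ∈ Δ, T c v.1 v.2 1 = 0} :=
      fun l => ⟨mulc q l, fun v hv' => by rw [mulc_T, hv v hv', zero_mul]⟩ with hf
    have hinj : Function.Injective f := by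
      intro l l' h
      exact mulc_inj hq (congrArg Subtype.val h)
    have hbij : Function.Bijective f := by
      refine hinj.bijective_of_nat_card_le ?_
      have e1 : Nat.card (Fin 3 → ZMod p) = p ^ 3 := by
        rw [Nat.card_eq_fintype_card, Fintype.card_fun, ZMod.card, Fintype.card_fin]
      rw [e1]
      exact h3.le
    intro c hc
    obtain ⟨l, hl⟩ := hbij.2 ⟨c, hc⟩
    exact ⟨l, congrArg Subtype.val hl⟩
  unfold w3 w1
  symm
  refine Nat.card_congr (Equiv.ofBijective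
    (fun l : {l : Fin 3 → ZMod p // ∀ v ∈ ({v | v ∈ Γ ∧ ¬ Q2 q v = 0} : Set (ZMod p × ZMod p)),
      Q1 l v = 0} => (⟨mulc q l.1, fun v hv' => ?_⟩ :
      {c : Fin 10 → ZMod p // ∀ v ∈ Γ, T c v.1 v.2 1 = 0})) ⟨?_, ?_⟩)
  · rw [mulc_T]
    by_cases h : Q2 q v = 0
    · rw [h, zero_mul]
    · rw [l.2 v ⟨hv', h⟩, mul_zero]
  · intro l l' h
    exact Subtype.ext (mulc_inj hq (congrArg Subtype.val h))
  · rintro ⟨c, hc⟩
    obtain ⟨l, rfl⟩ := hall c fun v hv' => hc v (hsub hv')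
    refine ⟨⟨l, fun v hv' => ?_⟩, rfl⟩
    have h1 := hc v hv'.1
    rw [mulc_T] at h1
    exact (mul_eq_zero.1 h1).resolve_left hv'.2

/-- the points of a line -/
lemma line_card (L : Lin p) : p ≤ ({v | onL L v} : Set (ZMod p × ZMod p)).ncard := by
  have h : ∃ f : ZMod p → ZMod p × ZMod p, Function.Injective f ∧ ∀ t, onL L (f t) := by
    rcases L with ⟨m, b⟩ | b
    · refine ⟨fun t => (t, m * t + b), fun t t' h => congrArg Prod.fst h, fun t => rfl⟩
    · exact ⟨fun t => (b, t), fun t t' h => congrArg Prod.snd h, fun t => rfl⟩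
  obtain ⟨f, hf, hf2⟩ := h
  calc p = Nat.card (ZMod p) := by rw [Nat.card_eq_fintype_card, ZMod.card]
    _ = (Set.range f).ncard := by
      rw [← Set.image_univ, Set.ncard_image_of_injective _ hf, Set.ncard_univ]
    _ ≤ _ := Set.ncard_le_ncard (by rintro _ ⟨t, rfl⟩; exact hf2 t) (Set.toFinite _)

/-- one more point costs at most one condition -/
lemma w3_insert (Γ : Set (ZMod p × ZMod p)) (v₀ : ZMod p × ZMod p) :
    w3 Γ ≤ w3 (insert v₀ Γ) * p := by
  classical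
  have hT : ∀ (c d : Fin 10 → ZMod p) (v : ZMod p × ZMod p),
      T (c - d) v.1 v.2 1 = T c v.1 v.2 1 - T d v.1 v.2 1 := by
    intro c d v
    unfold T
    simp only [Pi.sub_apply]
    ring
  -- representatives
  set R : ZMod p → (Fin 10 → ZMod p) := fun t =>
    if h : ∃ c : Fin 10 → ZMod p, (∀ v ∈ Γ, T c v.1 v.2 1 = 0) ∧ T c v₀.1 v₀.2 1 = t
      then h.choose else 0 with hR
  have hRs : ∀ c : Fin 10 → ZMod p, (∀ v ∈ Γ, T c v.1 v.2 1 = 0) →
      (∀ v ∈ Γ, T (R (T c v₀.1 v₀.2 1)) v.1 v.2 1 = 0) ∧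
        T (R (T c v₀.1 v₀.2 1)) v₀.1 v₀.2 1 = T c v₀.1 v₀.2 1 := by
    intro c hc
    have h : ∃ d : Fin 10 → ZMod p, (∀ v ∈ Γ, T d v.1 v.2 1 = 0) ∧
      T d v₀.1 v₀.2 1 = T c v₀.1 v₀.2 1 := ⟨c, hc, rfl⟩
    have e : R (T c v₀.1 v₀.2 1) = h.choose := by
      simp only [hR]
      rw [dif_pos h]
    rw [e]
    exact h.choose_spec
  have hp : Nat.card (ZMod p) = p := by rw [Nat.card_eq_fintype_card, ZMod.card]
  have key : w3 Γ ≤ Nat.card ({c : Fin 10 → ZMod p // ∀ v ∈ insert v₀ Γ, T c v.1 v.2 1 = 0} ×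
      ZMod p) := by
    unfold w3
    refine Nat.card_le_card_of_injective
      (fun c : {c : Fin 10 → ZMod p // ∀ v ∈ Γ, T c v.1 v.2 1 = 0} =>
        ((⟨c.1 - R (T c.1 v₀.1 v₀.2 1), fun v hv => ?_⟩ :
          {c : Fin 10 → ZMod p // ∀ v ∈ insert v₀ Γ, T c v.1 v.2 1 = 0}), T c.1 v₀.1 v₀.2 1)) ?_
    · rw [hT]
      rcases Set.mem_insert_iff.1 hv with rfl | hv
      · rw [(hRs c.1 c.2).2, sub_self]
      · rw [(hRs c.1 c.2).1 v hv, c.2 v hv, sub_self]
    · intro c d h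
      have h1 := congrArg Prod.fst h
      have h2 : T c.1 v₀.1 v₀.2 1 = T d.1 v₀.1 v₀.2 1 := congrArg Prod.snd h
      have h3 : c.1 - R (T c.1 v₀.1 v₀.2 1) = d.1 - R (T d.1 v₀.1 v₀.2 1) :=
        congrArg Subtype.val h1
      rw [h2] at h3
      exact Subtype.ext (sub_left_inj.1 h3)
  rwa [Nat.card_prod, hp] at key

/-- a set with many affine functions is small -/
lemma small_of_w1 (hW : S_W1) (h5 : 5 ≤ p) {Γ : Set (ZMod p × ZMod p)} (h : p ^ 2 ≤ w1 Γ) :
    Γ.ncard ≤ 1 := by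
  obtain ⟨-, -, h3, h4⟩ := hW p h5
  by_contra hc
  push Not at hc
  by_cases hL : ∃ L : Lin p, ∀ v ∈ Γ, onL L v
  · rw [h3 Γ (by rw [Nat.card_coe_set_eq]; exact hc) hL] at h
    nlinarith
  · rw [h4 Γ hL] at h
    nlinarith

lemma line_of_w1 (hW : S_W1) (h5 : 5 ≤ p) {Γ : Set (ZMod p × ZMod p)} (h : w1 Γ ≠ 1) :
    ∃ L : Lin p, ∀ v ∈ Γ, onL L v := by
  by_contra hL
  exact h ((hW p h5).2.2.2 Γ hL)

lemma w2_ne_one {Γ : Set (ZMod p × ZMod p)} {q : Fin 6 → ZMod p} (hq : q ≠ 0)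
    (hv : ∀ v ∈ Γ, Q2 q v = 0) : w2 Γ ≠ 1 := by
  intro h
  unfold w2 at h
  rw [Nat.card_eq_one_iff_unique] at h
  have h0 : ∀ v ∈ Γ, Q2 (0 : Fin 6 → ZMod p) v = 0 := by
    intro v _
    simp [Q2]
  have := h.1.elim (⟨q, hv⟩ : {q : Fin 6 → ZMod p // ∀ v ∈ Γ, Q2 q v = 0}) ⟨0, h0⟩
  exact hq (congrArg Subtype.val this)

lemma exists_of_w2 {Γ : Set (ZMod p × ZMod p)} (h : 1 < w2 Γ) :
    ∃ q : Fin 6 → ZMod p, q ≠ 0 ∧ ∀ v ∈ Γ, Q2 q v = 0 := by
  unfold w2 at h
  have h0 : ∀ v ∈ Γ, Q2 (0 : Fin 6 → ZMod p) v = 0 := by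
    intro v _
    simp [Q2]
  rw [Finite.one_lt_card_iff_nontrivial] at h
  obtain ⟨x, hx⟩ := exists_ne (⟨0, h0⟩ : {q : Fin 6 → ZMod p // ∀ v ∈ Γ, Q2 q v = 0})
  exact ⟨x.1, fun h => hx (Subtype.ext h), x.2⟩

/-- a conic through nine of the points contains no line -/
lemma nlc_of (hR : S_RED) (hW : S_W1) (h5 : 5 ≤ p) {Γ : Set (ZMod p × ZMod p)}
    (hL : ∀ L, nL L Γ ≤ 3) {q : Fin 6 → ZMod p} (hq : q ≠ 0) (h9 : 9 ≤ nQ q Γ) : NLC q := by
  intro L
  by_contra hc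
  push Not at hc
  set A : Set (ZMod p × ZMod p) := {v | v ∈ Γ ∧ Q2 q v = 0} with hA
  have hA9 : 9 ≤ A.ncard := by rw [nQ_eq] at h9; exact h9
  set B : Set (ZMod p × ZMod p) := A ∪ {v | onL L v} with hB
  have hB0 : ∀ v ∈ B, Q2 q v = 0 := by
    rintro v (hv | hv)
    · exact hv.2
    · exact hc v hv
  have hBL : 3 ≤ nL L B := by
    rw [nL_eq]
    have h1 := line_card L
    have h2 : ({v | onL L v} : Set (ZMod p × ZMod p)).ncard ≤
        ({v | v ∈ B ∧ onL L v} : Set (ZMod p × ZMod p)).ncard :=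
      Set.ncard_le_ncard (fun v hv => ⟨Or.inr hv, hv⟩) (Set.toFinite _)
    omega
  have h1 := (hR p h5 L B).2 hBL
  have h2 := w2_ne_one hq hB0
  rw [h1] at h2
  obtain ⟨L', hL'⟩ := line_of_w1 hW h5 h2
  have hsub : A ⊆ {v | v ∈ Γ ∧ onL L v} ∪ {v | v ∈ Γ ∧ onL L' v} := by
    intro v hv
    by_cases h : onL L v
    · exact Or.inl ⟨hv.1, h⟩
    · exact Or.inr ⟨hv.1, hL' v ⟨Or.inl hv, h⟩⟩
  have h3 : A.ncard ≤ nL L Γ + nL L' Γ := by
    rw [nL_eq, nL_eq]
    exact (Set.ncard_le_ncard hsub (Set.toFinite _)).trans (Set.ncard_union_le _ _)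
  have h4 := hL L
  have h6 := hL L'
  omega

/-- a line meets a conic without line components in at most two points -/
lemma nlc_line (hR : S_RED) (hW : S_W1) (h5 : 5 ≤ p) {q : Fin 6 → ZMod p} (hq : NLC q)
    (L : Lin p) : ({v | onL L v ∧ Q2 q v = 0} : Set (ZMod p × ZMod p)).ncard ≤ 2 := by
  by_contra hc
  push Not at hc
  set Δ : Set (ZMod p × ZMod p) := {v | onL L v ∧ Q2 q v = 0} with hΔ
  set M : Set (ZMod p × ZMod p) := {v | onL L v} with hM
  have h1 : 3 ≤ nL L Δ := by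
    rw [nL_eq]
    have e : ({v | v ∈ Δ ∧ onL L v} : Set (ZMod p × ZMod p)) = Δ := by
      ext v
      exact ⟨fun h => h.1, fun h => ⟨h, h.1⟩⟩
    rw [e]
    omega
  have h2 : 3 ≤ nL L M := h1.trans (nL_mono L fun v hv => hv.1)
  have e1 : offL L Δ = ∅ := by
    ext v
    simp only [offL, Set.mem_ofPred_eq, Set.mem_empty_iff_false, iff_false]
    rintro ⟨h, h'⟩
    exact h' h.1
  have e2 : offL L M = ∅ := by
    ext v
    simp only [offL, Set.mem_ofPred_eq, Set.mem_empty_iff_false, iff_false]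
    rintro ⟨h, h'⟩
    exact h' h
  have h3 : w2 Δ = w2 M := by
    rw [(hR p h5 L Δ).2 h1, (hR p h5 L M).2 h2, e1, e2]
  -- the two spaces coincide
  set f : {q : Fin 6 → ZMod p // ∀ v ∈ M, Q2 q v = 0} →
      {q : Fin 6 → ZMod p // ∀ v ∈ Δ, Q2 q v = 0} := fun x => ⟨x.1, fun v hv => x.2 v hv.1⟩ with hf
  have hinj : Function.Injective f := by
    intro x y h
    have h' := congrArg Subtype.val h
    exact Subtype.ext h'
  have hbij : Function.Bijective f := by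
    exact hinj.bijective_of_nat_card_le h3.le
  obtain ⟨x, hx⟩ := hbij.2 ⟨q, fun v hv => hv.2⟩
  have hx' : x.1 = q := congrArg Subtype.val hx
  obtain ⟨v, hv1, hv2⟩ := hq L
  apply hv2
  rw [← hx']
  exact x.2 v hv1

end

/-- **UR-CONE** -/
theorem cone (hR : S_RED) (hW : S_W1) (hC : S_C2) (hG : S_GEN3) (hA : S_ARC) : S_CONE := by
  intro p _ h5 Γ hΓ
  have hΓ' : Γ.ncard = 10 := by rw [← Nat.card_coe_set_eq]; exact hΓ
  have hp2 : 1 < p := (Fact.out : p.Prime).one_lt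
  refine ⟨?_, ?_⟩
  · intro hL hw
    -- a conic through seven of the points
    have h7 : ∃ (Δ : Set (ZMod p × ZMod p)) (q : Fin 6 → ZMod p), Δ.ncard = 7 ∧ Δ ⊆ Γ ∧
        q ≠ 0 ∧ ∀ v ∈ Δ, Q2 q v = 0 := by
      by_cases h3 : ∀ L, nL L Γ ≤ 2
      · obtain ⟨q, hq, h9⟩ := hA p h5 Γ hΓ h3 hw
        rw [nQ_eq] at h9
        obtain ⟨Δ, hΔ, hΔ7⟩ := Set.exists_subset_card_eq (show 7 ≤ _ from by omega : 7 ≤
          ({v | v ∈ Γ ∧ Q2 q v = 0} : Set (ZMod p × ZMod p)).ncard)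
        exact ⟨Δ, q, hΔ7, fun v hv => (hΔ hv).1, hq, fun v hv => (hΔ hv).2⟩
      · push Not at h3
        obtain ⟨L, hL3⟩ := h3
        have hL3' : nL L Γ = 3 := le_antisymm (hL L) hL3
        -- one more point on the line
        obtain ⟨v₀, hv0, hv0'⟩ : ∃ v₀, onL L v₀ ∧ v₀ ∉ Γ := by
          by_contra hc
          push Not at hc
          have h1 := line_card L
          have h2 : ({v | onL L v} : Set (ZMod p × ZMod p)).ncard ≤
              ({v | v ∈ Γ ∧ onL L v} : Set (ZMod p × ZMod p)).ncard :=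
            Set.ncard_le_ncard (fun v hv => ⟨hc v hv, hv⟩) (Set.toFinite _)
          rw [nL_eq] at hL3'
          omega
        have h4 : 4 ≤ nL L (insert v₀ Γ) := by
          rw [nL_eq]
          have e : ({v | v ∈ insert v₀ Γ ∧ onL L v} : Set (ZMod p × ZMod p)) =
              insert v₀ {v | v ∈ Γ ∧ onL L v} := by
            ext v
            simp only [Set.mem_insert_iff, Set.mem_ofPred_eq]
            constructor
            · rintro ⟨h | h, h'⟩
              · exact Or.inl h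
              · exact Or.inr ⟨h, h'⟩
            · rintro (rfl | ⟨h, h'⟩)
              · exact ⟨Or.inl rfl, hv0⟩
              · exact ⟨Or.inr h, h'⟩
          rw [e, Set.ncard_insert_of_notMem (fun h => hv0' h.1) (Set.toFinite _)]
          rw [nL_eq] at hL3'
          omega
        have h6 := (hR p h5 L (insert v₀ Γ)).1 h4
        have e1 : offL L (insert v₀ Γ) = offL L Γ := by
          ext v
          simp only [offL, Set.mem_insert_iff, Set.mem_ofPred_eq]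
          constructor
          · rintro ⟨rfl | h, h'⟩
            · exact absurd hv0 h'
            · exact ⟨h, h'⟩
          · rintro ⟨h, h'⟩
            exact ⟨Or.inr h, h'⟩
        have h7 := w3_insert Γ v₀
        have h8 : p ≤ w3 (insert v₀ Γ) := by
          have : p * p ≤ w3 (insert v₀ Γ) * p := by
            rw [← pow_two]
            exact hw.trans h7
          exact le_of_mul_le_mul_right this (by omega)
        rw [h6, e1] at h8
        obtain ⟨q, hq, hqv⟩ := exists_of_w2 (lt_of_lt_of_le hp2 h8)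
        refine ⟨offL L Γ, q, ?_, fun v hv => hv.1, hq, hqv⟩
        have h10 := split_card (onL L) Γ
        rw [nL_eq] at hL3'
        have e2 : offL L Γ = {v | v ∈ Γ ∧ ¬ onL L v} := rfl
        rw [e2]
        omega
    obtain ⟨Δ, q, hΔ, hsub, hq, hqv⟩ := h7
    have hK := keyK hG h5 hΔ (fun L => (nL_mono L hsub).trans (hL L)) hsub hq hqv
    rw [hK] at hw
    have h1 := small_of_w1 hW h5 hw
    have h2 := split_card (fun v => Q2 q v = 0) Γ
    have h9 : 9 ≤ nQ q Γ := by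
      rw [nQ_eq]
      omega
    exact ⟨q, nlc_of hR hW h5 hL hq h9, h9⟩
  · intro q hq h9
    have hq0 : q ≠ 0 := by
      rintro rfl
      obtain ⟨v, -, hv⟩ := hq (Sum.inr 0)
      apply hv
      simp [Q2]
    have h2 := split_card (fun v => Q2 q v = 0) Γ
    have h9' := h9
    rw [nQ_eq] at h9'
    have hL : ∀ L, nL L Γ ≤ 3 := by
      intro L
      have h3 := nlc_line hR hW h5 hq L
      have h4 : ({v | v ∈ Γ ∧ onL L v} : Set (ZMod p × ZMod p)) ⊆
          {v | onL L v ∧ Q2 q v = 0} ∪ {v | v ∈ Γ ∧ ¬ Q2 q v = 0} := by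
        intro v hv
        by_cases h : Q2 q v = 0
        · exact Or.inl ⟨hv.2, h⟩
        · exact Or.inr ⟨hv.1, h⟩
      have h6 := (Set.ncard_le_ncard h4 (Set.toFinite _)).trans (Set.ncard_union_le _ _)
      rw [nL_eq]
      omega
    obtain ⟨Δ, hΔ, hΔ7⟩ := Set.exists_subset_card_eq (show 7 ≤ _ from by omega : 7 ≤
      ({v | v ∈ Γ ∧ Q2 q v = 0} : Set (ZMod p × ZMod p)).ncard)
    have hsub : Δ ⊆ Γ := fun v hv => (hΔ hv).1
    have hK := keyK hG h5 hΔ7 (fun L => (nL_mono L hsub).trans (hL L)) hsub hq0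
      (fun v hv => (hΔ hv).2)
    obtain ⟨k0, k1, -, -⟩ := hW p h5
    refine ⟨hL, ?_, ?_⟩
    · intro h
      rw [nQ_eq] at h
      have h3 : ({v | v ∈ Γ ∧ ¬ Q2 q v = 0} : Set (ZMod p × ZMod p)).ncard = 1 := by omega
      obtain ⟨v, hv⟩ := Set.ncard_eq_one.1 h3
      rw [hK, hv]
      exact k1 v
    · intro h
      rw [nQ_eq] at h
      have h3 : ({v | v ∈ Γ ∧ ¬ Q2 q v = 0} : Set (ZMod p × ZMod p)).ncard = 0 := by omega
      have hv := (Set.ncard_eq_zero (Set.toFinite _)).1 h3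
      rw [hK, hv]
      exact k0

end Pool.Agent.NH28.UR.Cone
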