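import Pool.Agent.NH28.UR.Stm

set_option autoImplicit false

/-!
# Project UR: double counting of cubics and 10-tuples of points
-/

namespace Pool.Agent.NH28.UR.Dc

open Finset Pool.Agent.NH28.UR

theorem ff_nat (n k : ℕ) : ff (n : ℚ) k = (n.descFactorial k : ℚ) := by
  induction k with
  | zero => simp [ff]
  | succ k ih =>
    unfold ff at ih ⊢
    rw [prod_range_succ, ih, Nat.descFactorial_succ]
    rcases le_or_gt k n with h | h
    · rw [Nat.cast_mul, Nat.cast_sub h]
      ring
    · rw [Nat.descFactorial_eq_zero_iff_lt.2 h]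
      simp

section

variable {p : ℕ} [Fact p.Prime]

/-- the condition that the cubic passes through the points -/
def Van (c : Fin 10 → ZMod p) (P : Fin 10 → ZMod p × ZMod p) : Prop :=
  ∀ k, T c (P k).1 (P k).2 1 = 0

theorem T_eq (c : Fin 10 → ZMod p) (v : ZMod p × ZMod p) :
    T c v.1 v.2 1 = ∑ i, mon v i * c i := by
  rw [Fin.sum_univ_castSucc, Fin.sum_univ_castSucc, Fin.sum_univ_eight]
  simp [T, mon]
  ring

/-- the cubics through the points -/
def W (P : Fin 10 → ZMod p × ZMod p) : Submodule (ZMod p) (Fin 10 → ZMod p) where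
  carrier := {c | Van c P}
  add_mem' := by
    intro a b ha hb k
    have h1 := ha k
    have h2 := hb k
    rw [T_eq] at h1 h2 ⊢
    simp only [Pi.add_apply, mul_add, sum_add_distrib]
    rw [h1, h2, add_zero]
  zero_mem' := by
    intro k
    rw [T_eq]
    simp
  smul_mem' := by
    intro r a ha k
    have h1 := ha k
    rw [T_eq] at h1 ⊢
    simp only [Pi.smul_apply, smul_eq_mul]
    have : ∑ i, mon (P k) i * (r * a i) = r * ∑ i, mon (P k) i * a i := by
      rw [mul_sum]
      exact sum_congr rfl fun i _ => by ring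
    rw [this, h1, mul_zero]

/-- the number of cubics through the points -/
noncomputable def wc (P : Fin 10 → ZMod p × ZMod p) : ℕ :=
  Nat.card {c : Fin 10 → ZMod p // ∀ k, T c (P k).1 (P k).2 1 = 0}

theorem wc_pow (P : Fin 10 → ZMod p × ZMod p) : ∃ i ∈ range 11, wc P = p ^ i := by
  refine ⟨Module.finrank (ZMod p) (W P), ?_, ?_⟩
  · rw [mem_range, Nat.lt_succ_iff]
    refine (Submodule.finrank_le _).trans ?_
    rw [Module.finrank_fintype_fun_eq_card, Fintype.card_fin]
  · have h := Module.natCard_eq_pow_finrank (K := ZMod p) (V := W P)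
    rw [Nat.card_zmod] at h
    rw [← h]
    rfl

open Classical in
theorem wc_sum (P : Fin 10 → ZMod p × ZMod p) :
    (wc P : ℚ) = ∑ c : Fin 10 → ZMod p, if Van c P then 1 else 0 := by
  rw [sum_boole]
  unfold wc
  rw [Nat.card_eq_fintype_card, Fintype.card_subtype]
  simp only [Van] <;> congr

open Classical in
theorem act_eq (i : ℕ) : (act i p : ℚ) = ∑ P ∈ (univ : Finset (Fin 10 → ZMod p × ZMod p)).filter
    Function.Injective, if wc P = p ^ i then 1 else 0 := by
  rw [sum_boole, filter_filter]
  unfold act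
  rw [Nat.card_eq_fintype_card, Fintype.card_subtype]
  rfl

theorem sum_one (P : Fin 10 → ZMod p × ZMod p) (f : ℕ → ℚ) (g : ℚ)
    (hg : ∀ i, wc P = p ^ i → f i = g) :
    ∑ i ∈ range 11, (if wc P = p ^ i then (1 : ℚ) else 0) * f i = g := by
  obtain ⟨i, hi, hw⟩ := wc_pow P
  rw [sum_eq_single_of_mem i hi]
  · rw [if_pos hw, one_mul, hg i hw]
  · intro j _ hj
    rw [if_neg, zero_mul]
    intro h
    rw [hw] at h
    exact hj (Nat.pow_right_injective (Fact.out : p.Prime).two_le h).symm

open Classical in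
/-- injective tuples of points of a cubic -/
theorem card_inj (c : Fin 10 → ZMod p) : ff (Naff c) 10 =
    ∑ P ∈ (univ : Finset (Fin 10 → ZMod p × ZMod p)).filter Function.Injective,
      if Van c P then 1 else 0 := by
  rw [ff_nat]
  have h1 : (Naff c).descFactorial 10 =
      Fintype.card (Fin 10 ↪ {v : ZMod p × ZMod p // T c v.1 v.2 1 = 0}) := by
    rw [Fintype.card_embedding_eq, Fintype.card_fin]
    unfold Naff
    rw [Nat.card_eq_fintype_card]
  rw [h1, sum_boole, filter_filter]
  have h2 : Fintype.card (Fin 10 ↪ {v : ZMod p × ZMod p // T c v.1 v.2 1 = 0}) =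
      Fintype.card {P : Fin 10 → ZMod p × ZMod p // Function.Injective P ∧ Van c P} := by
    refine Fintype.card_congr ?_
    exact
      { toFun := fun f => ⟨fun k => (f k).1, fun a b h => f.injective (Subtype.ext h),
          fun k => (f k).2⟩
        invFun := fun P => ⟨fun k => ⟨P.1 k, P.2.2 k⟩, fun a b h => P.2.1 (by
          simpa using h)⟩
        left_inv := fun f => by ext <;> rfl
        right_inv := fun P => rfl }
  rw [h2, Fintype.card_subtype]

open Classical in
theorem part1 : Yct p = ∑ i ∈ range 11, (act i p : ℚ) * (p : ℚ) ^ i := by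
  unfold Yct
  simp_rw [card_inj, act_eq, sum_mul]
  rw [sum_comm, sum_comm (s := range 11)]
  refine sum_congr rfl fun P _ => ?_
  rw [← wc_sum]
  symm
  refine sum_one P (fun i => (p : ℚ) ^ i) _ fun i hi => ?_
  rw [hi]
  push_cast
  rfl

open Classical in
theorem part2 : ff ((p : ℚ) ^ 2) 10 = ∑ i ∈ range 11, (act i p : ℚ) := by
  have h0 : ff ((p : ℚ) ^ 2) 10 = ((p ^ 2).descFactorial 10 : ℕ) := by
    rw [← ff_nat]
    push_cast
    rfl
  have h1 : (p ^ 2).descFactorial 10 = Fintype.card (Fin 10 ↪ ZMod p × ZMod p) := by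
    rw [Fintype.card_embedding_eq, Fintype.card_fin, Fintype.card_prod, ZMod.card, pow_two]
  have h2 : Fintype.card (Fin 10 ↪ ZMod p × ZMod p) =
      ((univ : Finset (Fin 10 → ZMod p × ZMod p)).filter Function.Injective).card := by
    rw [← Fintype.card_subtype]
    exact Fintype.card_congr (Equiv.subtypeInjectiveEquivEmbedding _ _).symm
  rw [h0, h1, h2]
  simp_rw [act_eq]
  rw [sum_comm, card_eq_sum_ones]
  push_cast
  refine sum_congr rfl fun P _ => ?_
  have h3 := sum_one P (fun _ => 1) 1 fun _ _ => rfl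
  simp only [mul_one] at h3
  exact h3.symm

theorem wc_one_iff (P : Fin 10 → ZMod p × ZMod p) :
    wc P = 1 ↔ LinearIndependent (ZMod p) (fun i => mon (P i)) := by
  let M : Matrix (Fin 10) (Fin 10) (ZMod p) := Matrix.of fun k i => mon (P k) i
  have h1 : LinearIndependent (ZMod p) (fun i => mon (P i)) ↔ IsUnit M :=
    Matrix.linearIndependent_rows_iff_isUnit (A := M)
  rw [h1, ← Matrix.mulVec_injective_iff_isUnit]
  have hv : ∀ c : Fin 10 → ZMod p, (∀ k, T c (P k).1 (P k).2 1 = 0) ↔ M.mulVec c = 0 := by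
    intro c
    rw [funext_iff]
    refine forall_congr' fun k => ?_
    rw [T_eq]
    rfl
  have hz : ∀ k, T (0 : Fin 10 → ZMod p) (P k).1 (P k).2 1 = 0 := by
    rw [hv, Matrix.mulVec_zero]
  constructor
  · intro h a b hab
    have hab' : M.mulVec a = M.mulVec b := hab
    unfold wc at h
    rw [Nat.card_eq_one_iff_unique] at h
    have hs := h.1
    have h2 : M.mulVec (a - b) = 0 := by rw [Matrix.mulVec_sub, hab', sub_self]
    have h3 := @Subsingleton.elim _ hs ⟨a - b, (hv _).2 h2⟩ ⟨0, hz⟩
    have h4 : a - b = 0 := congrArg Subtype.val h3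
    exact sub_eq_zero.1 h4
  · intro h
    unfold wc
    rw [Nat.card_eq_one_iff_unique]
    refine ⟨⟨?_⟩, ⟨⟨0, hz⟩⟩⟩
    rintro ⟨a, ha⟩ ⟨b, hb⟩
    apply Subtype.ext
    apply h
    change M.mulVec a = M.mulVec b
    rw [(hv a).1 ha, (hv b).1 hb]

theorem part3 : act 0 p = Xct p := by
  unfold act Xct
  refine Nat.card_congr (Equiv.subtypeEquivRight fun P => ?_)
  rw [← wc_one_iff, pow_zero]
  constructor
  · exact fun h => h.2
  · intro h
    refine ⟨?_, h⟩
    intro a b hab
    have h1 := (wc_one_iff P).1 h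
    exact h1.injective (by rw [hab])

end

/-- double counting of cubics and 10-tuples of points -/
theorem dc : S_DC := fun _ _ => ⟨part1, part2, part3⟩

end Pool.Agent.NH28.UR.Dc
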