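import Mathlib

set_option autoImplicit false

/-!
# Project UR: definitions

Unital subrings of `ℤ^n`, their local pieces, admissible lattices, and plane cubics over `ZMod p`.
-/

namespace Pool.Agent.NH28.UR

open Finset

/-! ## Rational functions of primes -/

/-- `F` agrees at every prime `p ≥ 5` with one rational function over `ℚ`. -/
def RatF (F : ∀ p : ℕ, [Fact p.Prime] → ℚ) : Prop :=
  ∃ A B : Polynomial ℚ, ∀ (p : ℕ) [Fact p.Prime], 5 ≤ p →
    B.eval (p : ℚ) ≠ 0 ∧ F p = A.eval (p : ℚ) / B.eval (p : ℚ)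

/-- falling factorial of a rational number -/
def ff (x : ℚ) (n : ℕ) : ℚ := ∏ i ∈ range n, (x - i)

/-- Gaussian binomial coefficient: number of `b`-dimensional subspaces of `F_p^j` -/
def gauss (p j b : ℕ) : ℚ := ∏ i ∈ range b, ((p : ℚ) ^ j - (p : ℚ) ^ i) / ((p : ℚ) ^ b - (p : ℚ) ^ i)

/-! ## Subrings of `ℤ^n` -/

/-- number of unital subrings of `ℤ^n` of index `k` -/
noncomputable def fct (n k : ℕ) : ℕ :=
  Nat.card {Λ : Subring (Fin n → ℤ) // Λ.toAddSubgroup.index = k}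

/-- those which contain no `e_i` -/
noncomputable def phi (n k : ℕ) : ℕ :=
  Nat.card {Λ : Subring (Fin n → ℤ) // Λ.toAddSubgroup.index = k ∧
    ∀ i, (Pi.single i 1 : Fin n → ℤ) ∉ Λ}

/-- irreducible (local) unital subrings of index `p^e` -/
noncomputable def gct (n p e : ℕ) : ℕ :=
  Nat.card {Λ : Subring (Fin n → ℤ) // Λ.toAddSubgroup.index = p ^ e ∧
    ∀ x ∈ Λ, ∀ i j, (p : ℤ) ∣ x i - x j}

/-- admissible lattices: `1 ∈ M` and `p M² ⊆ M` -/
def Adm {ι : Type} (p : ℕ) (M : AddSubgroup (ι → ℤ)) : Prop :=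
  (1 : ι → ℤ) ∈ M ∧ ∀ x ∈ M, ∀ y ∈ M, (p : ℤ) • (x * y) ∈ M

/-- the subgroup `p M²` -/
def M2 {ι : Type} (p : ℕ) (M : AddSubgroup (ι → ℤ)) : AddSubgroup (ι → ℤ) :=
  AddSubgroup.closure {z | ∃ x ∈ M, ∃ y ∈ M, z = (p : ℤ) • (x * y)}

/-- number of admissible lattices of index `p^s` in `ℤ^n` -/
noncomputable def Gct (n p s : ℕ) : ℕ :=
  Nat.card {M : AddSubgroup (Fin n → ℤ) // Adm p M ∧ M.index = p ^ s}

/-- admissible lattices of index `p^s` in `ℤ^(r+j)` containing `p e_i` for the last `j` coordinates -/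
noncomputable def Bct (r j p s : ℕ) : ℕ :=
  Nat.card {M : AddSubgroup (Fin r ⊕ Fin j → ℤ) // Adm p M ∧ M.index = p ^ s ∧
    ∀ i : Fin j, (Pi.single (Sum.inr i) (p : ℤ) : Fin r ⊕ Fin j → ℤ) ∈ M}

/-- admissible lattices of index `p^s` in `ℤ^(r+j)` containing `p e_i` exactly for the last `j`
coordinates -/
noncomputable def Dct (r j p s : ℕ) : ℕ :=
  Nat.card {M : AddSubgroup (Fin r ⊕ Fin j → ℤ) // Adm p M ∧ M.index = p ^ s ∧
    (∀ i : Fin j, (Pi.single (Sum.inr i) (p : ℤ) : Fin r ⊕ Fin j → ℤ) ∈ M) ∧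
    ∀ i : Fin r, (Pi.single (Sum.inl i) (p : ℤ) : Fin r ⊕ Fin j → ℤ) ∉ M}

/-- admissible lattices of index `p^s` in `ℤ^r` with `[M : pM²] = p^k` -/
noncomputable def Nct (r s k p : ℕ) : ℕ :=
  Nat.card {M : AddSubgroup (Fin r → ℤ) // Adm p M ∧ M.index = p ^ s ∧
    (M2 p M).relIndex M = p ^ k}

/-- 3-dimensional subspaces `V ∋ 1` of `F_p^10` with `V·V·V = F_p^10` -/
noncomputable def Vct (p : ℕ) : ℕ :=
  Nat.card {V : Submodule (ZMod p) (Fin 10 → ZMod p) // (1 : Fin 10 → ZMod p) ∈ V ∧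
    Nat.card V = p ^ 3 ∧
    Submodule.span (ZMod p) {t | ∃ x ∈ V, ∃ y ∈ V, ∃ z ∈ V, t = x * y * z} = ⊤}

/-! ## Plane cubics -/

/-- the cubic monomials at an affine point, in the order
`x³, x²y, x², xy², xy, x, y³, y², y, 1` -/
def mon {F : Type} [CommRing F] (v : F × F) : Fin 10 → F :=
  ![v.1 ^ 3, v.1 ^ 2 * v.2, v.1 ^ 2, v.1 * v.2 ^ 2, v.1 * v.2, v.1, v.2 ^ 3, v.2 ^ 2, v.2, 1]

/-- the ternary cubic form with coefficients `c`, in the order
`x³, x²y, x²z, xy², xyz, xz², y³, y²z, yz², z³` -/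
def T {F : Type} [CommRing F] (c : Fin 10 → F) (x y z : F) : F :=
  c 0 * x ^ 3 + c 1 * (x ^ 2 * y) + c 2 * (x ^ 2 * z) + c 3 * (x * y ^ 2) + c 4 * (x * y * z)
    + c 5 * (x * z ^ 2) + c 6 * y ^ 3 + c 7 * (y ^ 2 * z) + c 8 * (y * z ^ 2) + c 9 * z ^ 3

/-- number of 10-tuples of points of the affine plane over `F_p` on no cubic -/
noncomputable def Xct (p : ℕ) : ℕ :=
  Nat.card {P : Fin 10 → ZMod p × ZMod p // LinearIndependent (ZMod p) (fun i => mon (P i))}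

/-- number of injective 10-tuples of points through which pass exactly `p^i` cubics
(including `0`) -/
noncomputable def act (i p : ℕ) : ℕ :=
  Nat.card {P : Fin 10 → ZMod p × ZMod p // Function.Injective P ∧
    Nat.card {c : Fin 10 → ZMod p // ∀ k, T c (P k).1 (P k).2 1 = 0} = p ^ i}

section prime
variable {p : ℕ} [Fact p.Prime]

/-- number of affine points of a cubic -/
noncomputable def Naff (c : Fin 10 → ZMod p) : ℕ :=
  Nat.card {v : ZMod p × ZMod p // T c v.1 v.2 1 = 0}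

/-- number of projective points of a ternary cubic form -/
noncomputable def nP (c : Fin 10 → ZMod p) : ℚ :=
  ((Nat.card {v : ZMod p × ZMod p × ZMod p // T c v.1 v.2.1 v.2.2 = 0} : ℚ) - 1) / ((p : ℚ) - 1)

/-- number of projective points of a ternary cubic form on the line `z = 0` -/
noncomputable def zP (c : Fin 10 → ZMod p) : ℚ :=
  ((Nat.card {v : ZMod p × ZMod p // T c v.1 v.2 0 = 0} : ℚ) - 1) / ((p : ℚ) - 1)

/-- the character sum of a polynomial of degree at most 3 -/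
def sE (E : Fin 4 → ZMod p) : ℤ :=
  ∑ w : ZMod p, quadraticChar (ZMod p) (E 0 * w ^ 3 + E 1 * w ^ 2 + E 2 * w + E 3)

/-- the character sum of `x³ + A x + B` -/
def sAB (A B : ZMod p) : ℤ :=
  ∑ x : ZMod p, quadraticChar (ZMod p) (x ^ 3 + A * x + B)

end prime

/-- `Σ_C (N_C)_{10}` over all affine cubics `C` (including `0`) -/
noncomputable def Yct (p : ℕ) [Fact p.Prime] : ℚ := ∑ c : Fin 10 → ZMod p, ff (Naff c) 10

/-- the elliptic curve sum -/
noncomputable def Rct (p : ℕ) [Fact p.Prime] : ℚ :=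
  ∑ A : ZMod p, ∑ B : ZMod p, ff (p + sAB A B) 9 *
    (((p : ℚ) ^ 2 - 9 * p + 36) * (p + 1 + sAB A B) - 120)

/-! ## Lines and conics in the affine plane -/

/-- lines of the affine plane: `y = m x + b` or `x = b` -/
abbrev Lin (p : ℕ) : Type := (ZMod p × ZMod p) ⊕ ZMod p

/-- incidence -/
def onL {p : ℕ} (L : Lin p) (v : ZMod p × ZMod p) : Prop :=
  match L with
  | Sum.inl (m, b) => v.2 = m * v.1 + b
  | Sum.inr b => v.1 = b

/-- value of a polynomial of degree at most 2 with coefficients of `x², xy, x, y², y, 1` -/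
def Q2 {F : Type} [CommRing F] (q : Fin 6 → F) (v : F × F) : F :=
  q 0 * v.1 ^ 2 + q 1 * (v.1 * v.2) + q 2 * v.1 + q 3 * v.2 ^ 2 + q 4 * v.2 + q 5

/-- value of a polynomial of degree at most 1 -/
def Q1 {F : Type} [CommRing F] (l : Fin 3 → F) (v : F × F) : F :=
  l 0 * v.1 + l 1 * v.2 + l 2

/-- number of cubics (conics, affine functions) vanishing on a set, including `0` -/
noncomputable def w3 {p : ℕ} (Γ : Set (ZMod p × ZMod p)) : ℕ :=
  Nat.card {c : Fin 10 → ZMod p // ∀ v ∈ Γ, T c v.1 v.2 1 = 0}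
noncomputable def w2 {p : ℕ} (Γ : Set (ZMod p × ZMod p)) : ℕ :=
  Nat.card {q : Fin 6 → ZMod p // ∀ v ∈ Γ, Q2 q v = 0}
noncomputable def w1 {p : ℕ} (Γ : Set (ZMod p × ZMod p)) : ℕ :=
  Nat.card {l : Fin 3 → ZMod p // ∀ v ∈ Γ, Q1 l v = 0}

/-- a conic which contains no line -/
def NLC {p : ℕ} (q : Fin 6 → ZMod p) : Prop := ∀ L : Lin p, ∃ v, onL L v ∧ Q2 q v ≠ 0

end Pool.Agent.NH28.UR
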