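import Pool.Agent.NH28.UR.Stm
import Pool.Agent.Helper46.E.Count

/-! UR-GAUSS: the number of subspaces of given codimension (helper68). -/

set_option autoImplicit false

namespace Pool.Agent.NH28.UR.Gauss

open Finset Module Pool.Agent.NH28.UR

theorem gaussThm : S_GAUSS := by
  classical
  intro p _ j b
  have hp : p.Prime := Fact.out
  have hfin : Finite (Dual (ZMod p) (Fin j → ZMod p)) := Module.finite_of_finite (ZMod p)
  have hrank : finrank (ZMod p) (Dual (ZMod p) (Fin j → ZMod p)) = j := by
    rw [Subspace.dual_finrank_eq, Module.finrank_fintype_fun_eq_card, Fintype.card_fin]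
  have h1 : Nat.card {U : Submodule (ZMod p) (Fin j → ZMod p) //
      Nat.card ((Fin j → ZMod p) ⧸ U) = p ^ b} =
      Nat.card {W : Submodule (ZMod p) (Dual (ZMod p) (Fin j → ZMod p)) //
        finrank (ZMod p) W = b} := by
    refine Nat.card_congr ((Subspace.orderIsoFiniteDimensional (K := ZMod p)
      (V := Fin j → ZMod p)).toEquiv.subtypeEquiv fun U => ?_)
    have e1 : Nat.card ((Fin j → ZMod p) ⧸ U) = p ^ finrank (ZMod p) ((Fin j → ZMod p) ⧸ U) := by
      rw [Module.natCard_eq_pow_finrank (K := ZMod p), Nat.card_zmod]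
    have e2 : finrank (ZMod p) ((Fin j → ZMod p) ⧸ U) = finrank (ZMod p) U.dualAnnihilator :=
      (Subspace.quotEquivAnnihilator U).finrank_eq
    rw [e1, e2]
    constructor
    · intro h
      exact Nat.pow_right_injective hp.two_le h
    · intro h
      have h' : finrank (ZMod p) U.dualAnnihilator = b := h
      rw [h']
  rw [h1]
  rcases le_or_gt b j with hb | hb
  · have h2 := Pool.Agent.Helper46.E.nd_mul (F := ZMod p)
      (V := Dual (ZMod p) (Fin j → ZMod p)) b (by rw [hrank]; exact hb)
    rw [hrank, ZMod.card] at h2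
    unfold Pool.Agent.Helper46.E.nd at h2
    have hcast : ∀ k : ℕ, b ≤ k → ((∏ i ∈ range b, (p ^ k - p ^ i) : ℕ) : ℚ) =
        ∏ i ∈ range b, ((p : ℚ) ^ k - (p : ℚ) ^ i) := by
      intro k hk
      rw [Nat.cast_prod]
      refine Finset.prod_congr rfl fun i hi => ?_
      have hi' := Finset.mem_range.1 hi
      rw [Nat.cast_sub (Nat.pow_le_pow_right hp.pos (by omega))]
      push_cast
      rfl
    have h3 := congrArg (fun t : ℕ => (t : ℚ)) h2
    simp only [Nat.cast_mul] at h3
    rw [hcast b le_rfl, hcast j hb] at h3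
    unfold gauss
    rw [Finset.prod_div_distrib, eq_div_iff, ← h3]
    rw [Finset.prod_ne_zero_iff]
    intro i hi
    have hi' := Finset.mem_range.1 hi
    have h4 : (p : ℚ) ^ i < (p : ℚ) ^ b := by
      apply pow_lt_pow_right₀ _ hi'
      exact_mod_cast hp.one_lt
    exact (sub_pos.2 h4).ne'
  · have h5 : IsEmpty {W : Submodule (ZMod p) (Dual (ZMod p) (Fin j → ZMod p)) //
        finrank (ZMod p) W = b} := by
      refine ⟨fun W => ?_⟩
      have h6 := Submodule.finrank_le W.1
      rw [W.2, hrank] at h6
      omega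
    rw [Nat.card_of_isEmpty, Nat.cast_zero]
    unfold gauss
    symm
    refine Finset.prod_eq_zero (Finset.mem_range.2 hb) ?_
    rw [sub_self, zero_div]

end Pool.Agent.NH28.UR.Gauss
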