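import Pool.Agent.NH28.UR.Stm

set_option autoImplicit false

/-!
# Sorting admissible lattices by the coordinates with `p e_i ∈ M`
-/

namespace Pool.Agent.NH28.UR.Gdbd

open Pool.Agent.NH28.UR
open Finset

/-- the admissible lattices of index `p ^ s` with given set of `i` with `p e_i ∈ M` -/
def TJ {ι : Type} [DecidableEq ι] (p s : ℕ) (J : ι → Prop) : Type :=
  {M : AddSubgroup (ι → ℤ) // Adm p M ∧ M.index = p ^ s ∧
    ∀ i, (Pi.single i (p : ℤ) : ι → ℤ) ∈ M ↔ J i}

/-- relabelling of functions -/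
def rl {ι ι' : Type} (σ : ι ≃ ι') : (ι' → ℤ) →+ (ι → ℤ) where
  toFun f := fun i => f (σ i)
  map_zero' := rfl
  map_add' _ _ := rfl

lemma rl_surj {ι ι' : Type} (σ : ι ≃ ι') : Function.Surjective (rl σ) := fun f =>
  ⟨fun i => f (σ.symm i), by
    funext i
    change f (σ.symm (σ i)) = f i
    rw [Equiv.symm_apply_apply]⟩

lemma tr_ok {ι ι' : Type} [DecidableEq ι] [DecidableEq ι'] (σ : ι ≃ ι') {p s : ℕ}
    {J : ι → Prop} {J' : ι' → Prop} (h : ∀ i, J' (σ i) ↔ J i) (M : TJ p s J) :
    Adm p (M.1.comap (rl σ)) ∧ (M.1.comap (rl σ)).index = p ^ s ∧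
      ∀ i, (Pi.single i (p : ℤ) : ι' → ℤ) ∈ M.1.comap (rl σ) ↔ J' i := by
  obtain ⟨M, hM1, hM2, hM3⟩ := M
  refine ⟨⟨hM1.1, fun x hx y hy => hM1.2 _ hx _ hy⟩, ?_, ?_⟩
  · change (M.comap (rl σ)).index = p ^ s
    rw [AddSubgroup.index_comap_of_surjective _ (rl_surj σ), hM2]
  · intro i'
    obtain ⟨i, rfl⟩ := σ.surjective i'
    rw [h, ← hM3 i]
    change rl σ (Pi.single (σ i) (p : ℤ)) ∈ M ↔ _
    have e : rl σ (Pi.single (σ i) (p : ℤ)) = Pi.single i (p : ℤ) := by
      funext k
      change (Pi.single (σ i) (p : ℤ) : ι' → ℤ) (σ k) = _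
      by_cases hk : k = i
      · subst hk
        rw [Pi.single_eq_same, Pi.single_eq_same]
      · rw [Pi.single_eq_of_ne hk, Pi.single_eq_of_ne (fun h => hk (σ.injective h))]
    rw [e]

lemma card_TJ {ι ι' : Type} [DecidableEq ι] [DecidableEq ι'] (σ : ι ≃ ι') {p s : ℕ}
    {J : ι → Prop} {J' : ι' → Prop} (h : ∀ i, J' (σ i) ↔ J i) :
    Nat.card (TJ p s J) = Nat.card (TJ p s J') := by
  refine Nat.card_congr
    { toFun := fun M => ⟨M.1.comap (rl σ), tr_ok σ h M⟩
      invFun := fun M => ⟨M.1.comap (rl σ.symm), tr_ok σ.symm (fun i => by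
        rw [← h, Equiv.apply_symm_apply]) M⟩
      left_inv := ?_
      right_inv := ?_ }
  · rintro ⟨M, hM⟩
    apply Subtype.ext
    ext x
    change (fun i => (fun j => x (σ.symm j)) (σ i)) ∈ M ↔ x ∈ M
    simp only [Equiv.symm_apply_apply]
  · rintro ⟨M, hM⟩
    apply Subtype.ext
    ext x
    change (fun i => (fun j => x (σ j)) (σ.symm i)) ∈ M ↔ x ∈ M
    simp only [Equiv.apply_symm_apply]

/-- the standard position -/
lemma Dct_eq (r j p s : ℕ) : Dct r j p s =
    Nat.card (TJ (ι := Fin r ⊕ Fin j) p s (fun i => ∃ k, i = Sum.inr k)) := by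
  unfold Dct TJ
  refine Nat.card_congr (Equiv.subtypeEquivRight fun M => ?_)
  refine and_congr_right fun _ => and_congr_right fun _ => ?_
  constructor
  · rintro ⟨h1, h2⟩ i
    rcases i with i | i
    · constructor
      · intro h
        exact absurd h (h2 i)
      · rintro ⟨k, hk⟩
        exact absurd hk (by simp)
    · exact ⟨fun _ => ⟨i, rfl⟩, fun _ => h1 i⟩
  · intro h
    refine ⟨fun i => (h _).2 ⟨i, rfl⟩, fun i hi => ?_⟩
    obtain ⟨k, hk⟩ := (h _).1 hi
    exact absurd hk (by simp)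

lemma card_TJ_Dct {ι : Type} [Fintype ι] [DecidableEq ι] {r j : ℕ} (p s : ℕ) (J : Finset ι)
    (hJ : J.card = j) (hι : Fintype.card ι = r + j) :
    Nat.card (TJ p s (fun i => i ∈ J)) = Dct r j p s := by
  classical
  rw [Dct_eq]
  have c2 : Fintype.card {a // ¬ a ∉ J} = j := by
    rw [← hJ, ← Fintype.card_coe]
    exact Fintype.card_congr (Equiv.subtypeEquivRight fun a => not_not)
  have c1 : Fintype.card {a // a ∉ J} = r := by
    have h1 := Fintype.card_congr (Equiv.sumCompl (fun a => a ∉ J))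
    rw [Fintype.card_sum, c2, hι] at h1
    omega
  let e1 := Fintype.equivFinOfCardEq c1
  let e2 := Fintype.equivFinOfCardEq c2
  let σ : ι ≃ Fin r ⊕ Fin j := (Equiv.sumCompl (fun a => a ∉ J)).symm.trans (Equiv.sumCongr e1 e2)
  refine card_TJ σ fun i => ?_
  by_cases hi : i ∈ J
  · have h1 : σ i = Sum.inr (e2 ⟨i, not_not.2 hi⟩) := by
      change (Equiv.sumCongr e1 e2) ((Equiv.sumCompl (fun a => a ∉ J)).symm i) = _
      have h2 : (Equiv.sumCompl (fun a => a ∉ J)).symm i = Sum.inr ⟨i, not_not.2 hi⟩ :=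
        (Equiv.symm_apply_eq _).2 rfl
      rw [h2]
      rfl
    rw [h1]
    exact ⟨fun _ => hi, fun _ => ⟨_, rfl⟩⟩
  · have h1 : σ i = Sum.inl (e1 ⟨i, hi⟩) := by
      change (Equiv.sumCongr e1 e2) ((Equiv.sumCompl (fun a => a ∉ J)).symm i) = _
      have h2 : (Equiv.sumCompl (fun a => a ∉ J)).symm i = Sum.inl ⟨i, hi⟩ :=
        (Equiv.symm_apply_eq _).2 rfl
      rw [h2]
      rfl
    rw [h1]
    constructor
    · rintro ⟨k, hk⟩
      exact absurd hk (by simp)
    · intro h
      exact absurd h hi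

theorem gd (hF : S_FIN) : S_GD := by
  classical
  intro n p s hp
  have hps : p ^ s ≠ 0 := pow_ne_zero _ hp.ne_zero
  let T := {M : AddSubgroup (Fin n → ℤ) // Adm p M ∧ M.index = p ^ s}
  have hfin : Finite T := by
    have := hF (Fin n) (p ^ s) hps
    exact Finite.of_injective (fun M : T => (⟨M.1, M.2.2⟩ :
      {M : AddSubgroup (Fin n → ℤ) // M.index = p ^ s})) fun M M' h =>
        Subtype.ext (congrArg (fun x => x.1) h)
  let f : T → Finset (Fin n) := fun M => univ.filter fun i => (Pi.single i (p : ℤ)) ∈ M.1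
  have h1 : Nat.card T = ∑ J : Finset (Fin n), Nat.card {M : T // f M = J} := by
    rw [← Nat.card_sigma]
    exact Nat.card_congr (Equiv.sigmaFiberEquiv f).symm
  have h2 : ∀ J : Finset (Fin n), Nat.card {M : T // f M = J} =
      Nat.card (TJ p s (fun i => i ∈ J)) := by
    intro J
    refine Nat.card_congr
      { toFun := fun M => ⟨M.1.1, M.1.2.1, M.1.2.2, fun i => by
          have h := congrArg (fun S => i ∈ S) M.2
          exact (by simp [f] : _ ↔ i ∈ f M.1).trans (iff_of_eq h)⟩
        invFun := fun M => ⟨⟨M.1, M.2.1, M.2.2.1⟩, by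
          ext i
          simp only [f, mem_filter, mem_univ, true_and]
          exact M.2.2.2 i⟩
        left_inv := fun M => rfl
        right_inv := fun M => rfl }
  have h3 : ∀ J : Finset (Fin n), Nat.card {M : T // f M = J} =
      Dct (n - J.card) J.card p s := by
    intro J
    rw [h2]
    refine card_TJ_Dct p s J rfl ?_
    have := card_finset_fin_le J
    rw [Fintype.card_fin]
    omega
  change Nat.card T = _
  rw [h1, sum_congr rfl fun J _ => h3 J]
  have h4 := Finset.sum_powerset_apply_card (fun j => Dct (n - j) j p s) (x := (univ : Finset (Fin n)))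
  rw [powerset_univ, card_univ, Fintype.card_fin] at h4
  rw [h4, ← sum_range_reflect]
  refine sum_congr rfl fun r hr => ?_
  rw [mem_range] at hr
  rw [show n + 1 - 1 - r = n - r by omega, show n - (n - r) = r by omega, smul_eq_mul,
    Nat.choose_symm (by omega)]

theorem bd (hF : S_FIN) : S_BD := by
  classical
  intro r j p s hp
  have hps : p ^ s ≠ 0 := pow_ne_zero _ hp.ne_zero
  let T := {M : AddSubgroup (Fin r ⊕ Fin j → ℤ) // Adm p M ∧ M.index = p ^ s ∧
    ∀ i : Fin j, (Pi.single (Sum.inr i) (p : ℤ) : Fin r ⊕ Fin j → ℤ) ∈ M}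
  have hfin : Finite T := by
    have := hF (Fin r ⊕ Fin j) (p ^ s) hps
    exact Finite.of_injective (fun M : T => (⟨M.1, M.2.2.1⟩ :
      {M : AddSubgroup (Fin r ⊕ Fin j → ℤ) // M.index = p ^ s})) fun M M' h =>
        Subtype.ext (congrArg (fun x => x.1) h)
  let f : T → Finset (Fin r) := fun M =>
    univ.filter fun i => (Pi.single (Sum.inl i) (p : ℤ)) ∈ M.1
  have h1 : Nat.card T = ∑ J : Finset (Fin r), Nat.card {M : T // f M = J} := by
    rw [← Nat.card_sigma]
    exact Nat.card_congr (Equiv.sigmaFiberEquiv f).symm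
  have h2 : ∀ J : Finset (Fin r), Nat.card {M : T // f M = J} =
      Nat.card (TJ p s (fun i => i ∈ J.disjSum (univ : Finset (Fin j)))) := by
    intro J
    refine Nat.card_congr
      { toFun := fun M => ⟨M.1.1, M.1.2.1, M.1.2.2.1, fun i => by
          rcases i with i | i
          · have h := congrArg (fun S => i ∈ S) M.2
            exact ((by simp [f] : _ ↔ i ∈ f M.1).trans (iff_of_eq h)).trans
              inl_mem_disjSum.symm
          · exact ⟨fun _ => inr_mem_disjSum.2 (mem_univ _), fun _ => M.1.2.2.2 i⟩⟩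
        invFun := fun M => ⟨⟨M.1, M.2.1, M.2.2.1, fun i => (M.2.2.2 _).2
            (inr_mem_disjSum.2 (mem_univ _))⟩, by
          ext i
          simp only [f, mem_filter, mem_univ, true_and]
          exact (M.2.2.2 _).trans inl_mem_disjSum⟩
        left_inv := fun M => rfl
        right_inv := fun M => rfl }
  have h3 : ∀ J : Finset (Fin r), Nat.card {M : T // f M = J} =
      Dct (r - J.card) (j + J.card) p s := by
    intro J
    rw [h2]
    have := card_finset_fin_le J
    refine card_TJ_Dct p s _ ?_ ?_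
    · rw [card_disjSum, card_univ, Fintype.card_fin, add_comm]
    · rw [Fintype.card_sum, Fintype.card_fin, Fintype.card_fin]
      omega
  change Nat.card T = _
  rw [h1, sum_congr rfl fun J _ => h3 J]
  have h4 := Finset.sum_powerset_apply_card (fun t => Dct (r - t) (j + t) p s)
    (x := (univ : Finset (Fin r)))
  rw [powerset_univ, card_univ, Fintype.card_fin] at h4
  rw [h4]
  refine sum_congr rfl fun t _ => ?_
  rw [smul_eq_mul]

end Pool.Agent.NH28.UR.Gdbd
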