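import Pool.Agent.NH28.UR.Trans

set_option autoImplicit false

/-!
# Project UR: seven points, no four collinear, impose independent conditions on cubics
-/

namespace Pool.Agent.NH28.UR.Gen3

open Pool.Agent.NH28.UR Pool.Agent.NH28.UR.Trans

section
variable {F : Type} [Field F]

/-- The orientation of three points. -/
def dt (A B P : F × F) : F := (P.1 - A.1) * (B.2 - A.2) - (P.2 - A.2) * (B.1 - A.1)

/-- The line through two points as a linear form. -/
def ln (A B : F × F) : Fin 3 → F := ![B.2 - A.2, -(B.1 - A.1), A.2 * (B.1 - A.1) - A.1 * (B.2 - A.2)]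

lemma ln_eval (A B P : F × F) : ln A B 0 * P.1 + ln A B 1 * P.2 + ln A B 2 * 1 = dt A B P := by
  have e0 : ln A B 0 = B.2 - A.2 := rfl
  have e1 : ln A B 1 = -(B.1 - A.1) := rfl
  have e2 : ln A B 2 = A.2 * (B.1 - A.1) - A.1 * (B.2 - A.2) := rfl
  rw [e0, e1, e2]
  unfold dt
  ring

/-- The product of three lines. -/
lemma prod_eval (A B C D E G P : F × F) :
    T (pr (ln A B) (ln C D) (ln E G)) P.1 P.2 1 = dt A B P * dt C D P * dt E G P := by
  rw [T_pr, ln_eval, ln_eval, ln_eval]

lemma dt_left (A B : F × F) : dt A B A = 0 := by unfold dt; ring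

lemma dt_right (A B : F × F) : dt A B B = 0 := by unfold dt; ring

/-- A matching of six elements which avoids a relation of valency at most one. -/
lemma matching (r : Fin 6 → Fin 6 → Prop) (hs : ∀ a b, r a b → r b a)
    (hu : ∀ a b c, a ≠ b → a ≠ c → b ≠ c → r a b → ¬ r a c) :
    ∃ a b c d e f : Fin 6, ¬ r a b ∧ ¬ r c d ∧ ¬ r e f ∧ (a ≠ b ∧ c ≠ d ∧ e ≠ f) ∧
      ∀ k, k = a ∨ k = b ∨ k = c ∨ k = d ∨ k = e ∨ k = f := by
  have four : ∀ c d e f : Fin 6, c ≠ d → c ≠ e → c ≠ f → d ≠ e → d ≠ f → e ≠ f →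
      (¬ r c d ∧ ¬ r e f) ∨ (¬ r c e ∧ ¬ r d f) := by
    intro c d e f h1 h2 h3 h4 h5 h6
    by_cases hcd : r c d
    · exact Or.inr ⟨hu c d e h1 h2 h4 hcd, hu d c f h1.symm h5 h3 (hs _ _ hcd)⟩
    · by_cases hef : r e f
      · refine Or.inr ⟨fun h => ?_, fun h => ?_⟩
        · exact hu e f c h6 h2.symm h3.symm hef (hs _ _ h)
        · exact hu f e d h6.symm h5.symm h4.symm (hs _ _ hef) (hs _ _ h)
      · exact Or.inl ⟨hcd, hef⟩
  by_cases h01 : r 0 1
  · have h02 : ¬ r 0 2 := hu 0 1 2 (by decide) (by decide) (by decide) h01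
    rcases four 1 3 4 5 (by decide) (by decide) (by decide) (by decide) (by decide) (by decide)
      with ⟨h3, h4⟩ | ⟨h3, h4⟩
    · exact ⟨0, 2, 1, 3, 4, 5, h02, h3, h4, by decide, by decide⟩
    · exact ⟨0, 2, 1, 4, 3, 5, h02, h3, h4, by decide, by decide⟩
  · rcases four 2 3 4 5 (by decide) (by decide) (by decide) (by decide) (by decide) (by decide)
      with ⟨h3, h4⟩ | ⟨h3, h4⟩
    · exact ⟨0, 1, 2, 3, 4, 5, h01, h3, h4, by decide, by decide⟩
    · exact ⟨0, 1, 2, 4, 3, 5, h01, h3, h4, by decide, by decide⟩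

end

section
variable {p : ℕ} [Fact p.Prime]

/-- The line through two distinct points. -/
lemma exists_line (U V : ZMod p × ZMod p) (h : U ≠ V) :
    ∃ L : Lin p, ∀ W, dt U V W = 0 → onL L W := by
  by_cases hx : V.1 - U.1 = 0
  · refine ⟨Sum.inr U.1, fun W hW => ?_⟩
    have hy : V.2 - U.2 ≠ 0 := by
      intro hy
      exact h (Prod.ext (sub_eq_zero.1 hx).symm (sub_eq_zero.1 hy).symm)
    unfold dt at hW
    rw [hx, mul_zero, sub_zero] at hW
    exact sub_eq_zero.1 ((mul_eq_zero.1 hW).resolve_right hy)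
  · refine ⟨Sum.inl ((V.2 - U.2) / (V.1 - U.1), U.2 - (V.2 - U.2) / (V.1 - U.1) * U.1),
      fun W hW => ?_⟩
    unfold dt at hW
    show W.2 = (V.2 - U.2) / (V.1 - U.1) * W.1 + (U.2 - (V.2 - U.2) / (V.1 - U.1) * U.1)
    field_simp
    linear_combination -hW

/-- Four distinct points of a set on a line. -/
lemma four_le (Γ : Set (ZMod p × ZMod p)) (L : Lin p) (P : Fin 4 → ZMod p × ZMod p)
    (hP : Function.Injective P) (h : ∀ i, P i ∈ Γ ∧ onL L (P i)) : 4 ≤ nL L Γ := by
  unfold nL
  have h1 := Nat.card_le_card_of_injective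
    (fun i => (⟨P i, h i⟩ : {v : ZMod p × ZMod p // v ∈ Γ ∧ onL L v}))
    (fun i j hij => hP (by simpa using congrArg Subtype.val hij))
  simpa using h1

/-- A cubic through six points which avoids the seventh. -/
lemma exists_cubic (Γ : Set (ZMod p × ZMod p)) (hL : ∀ L, nL L Γ ≤ 3)
    (P : Fin 7 → ZMod p × ZMod p) (hP : Function.Injective P) (hΓ : ∀ i, P i ∈ Γ) (i : Fin 7) :
    ∃ c : Fin 10 → ZMod p, T c (P i).1 (P i).2 1 ≠ 0 ∧ ∀ j, j ≠ i → T c (P j).1 (P j).2 1 = 0 := by
  set Q : Fin 6 → ZMod p × ZMod p := fun k => P (i.succAbove k) with hQ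
  have hQinj : Function.Injective Q := hP.comp Fin.succAbove_right_injective
  have hQi : ∀ k, Q k ≠ P i := fun k h => Fin.succAbove_ne i k (hP h)
  obtain ⟨a, b, c, d, e, f, h1, h2, h3, ⟨hab, hcd, hef⟩, hall⟩ := matching
    (fun a b => a ≠ b ∧ dt (Q a) (Q b) (P i) = 0)
    (fun a b h => ⟨h.1.symm, by
      have h2 := h.2
      unfold dt at h2 ⊢
      linear_combination -h2⟩)
    (by
      rintro a b c hab hac hbc ⟨_, h1⟩ ⟨_, h2⟩
      obtain ⟨L, hLL⟩ := exists_line (Q a) (P i) (hQi a)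
      have h4 := four_le Γ L ![Q a, Q b, Q c, P i] (by
          intro s t hst
          fin_cases s <;> fin_cases t <;> simp at hst ⊢
          · exact hab (hQinj hst)
          · exact hac (hQinj hst)
          · exact hQi a hst
          · exact hab (hQinj hst).symm
          · exact hbc (hQinj hst)
          · exact hQi b hst
          · exact hac (hQinj hst).symm
          · exact hbc (hQinj hst).symm
          · exact hQi c hst
          · exact hQi a hst.symm
          · exact hQi b hst.symm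
          · exact hQi c hst.symm) (by
          intro s
          fin_cases s
          · exact ⟨hΓ _, hLL _ (dt_left _ _)⟩
          · exact ⟨hΓ _, hLL _ (by show dt (Q a) (P i) (Q b) = 0; unfold dt at h1 ⊢; linear_combination -h1)⟩
          · exact ⟨hΓ _, hLL _ (by show dt (Q a) (P i) (Q c) = 0; unfold dt at h2 ⊢; linear_combination -h2)⟩
          · exact ⟨hΓ _, hLL _ (dt_right _ _)⟩)
      have := hL L
      omega)
  refine ⟨pr (ln (Q a) (Q b)) (ln (Q c) (Q d)) (ln (Q e) (Q f)), ?_, ?_⟩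
  · rw [prod_eval]
    exact mul_ne_zero (mul_ne_zero (fun h => h1 ⟨hab, h⟩) (fun h => h2 ⟨hcd, h⟩))
      (fun h => h3 ⟨hef, h⟩)
  · intro j hj
    obtain ⟨k, rfl⟩ := Fin.exists_succAbove_eq hj
    rw [prod_eval]
    rcases hall k with rfl | rfl | rfl | rfl | rfl | rfl
    · rw [dt_left]; ring
    · rw [dt_right]; ring
    · rw [dt_left]; ring
    · rw [dt_right]; ring
    · rw [dt_left]; ring
    · rw [dt_right]; ring

end

theorem gen3 : S_GEN3 := by
  intro p _ hp Γ hcard hL
  have hp0 : NeZero p := ⟨(Fact.out : p.Prime).ne_zero⟩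
  let eq : Γ ≃ Fin 7 := Finite.equivFinOfCardEq hcard
  set P : Fin 7 → ZMod p × ZMod p := fun i => (eq.symm i : ZMod p × ZMod p) with hPdef
  have hP : Function.Injective P := Subtype.val_injective.comp eq.symm.injective
  have hΓ : ∀ i, P i ∈ Γ := fun i => (eq.symm i).2
  have hsurjΓ : ∀ v ∈ Γ, ∃ i, P i = v := by
    intro v hv
    refine ⟨eq ⟨v, hv⟩, ?_⟩
    rw [hPdef]
    simp
  choose c hc1 hc2 using fun i => exists_cubic Γ hL P hP hΓ i
  -- the evaluation map
  let ev : (Fin 10 → ZMod p) →ₗ[ZMod p] (Fin 7 → ZMod p) :=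
    { toFun := fun c i => T c (P i).1 (P i).2 1
      map_add' := fun c d => by
        funext i
        exact T_add c d _ _ _
      map_smul' := fun a c => by
        funext i
        exact T_smul a c _ _ _ }
  have hev : ∀ (c : Fin 10 → ZMod p) i, ev c i = T c (P i).1 (P i).2 1 := fun _ _ => rfl
  have hsurj : Function.Surjective ev := by
    intro f
    refine ⟨∑ i, (f i / T (c i) (P i).1 (P i).2 1) • c i, ?_⟩
    rw [map_sum]
    funext j
    rw [Finset.sum_apply, Finset.sum_eq_single j]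
    · rw [map_smul, Pi.smul_apply, hev, smul_eq_mul, div_mul_cancel₀ _ (hc1 j)]
    · intro i _ hij
      rw [map_smul, Pi.smul_apply, hev, hc2 i j hij.symm, smul_zero]
    · intro h
      exact absurd (Finset.mem_univ j) h
  have hker : Module.finrank (ZMod p) (LinearMap.ker ev) = 3 := by
    have h1 := ev.finrank_range_add_finrank_ker
    rw [LinearMap.range_eq_top.2 hsurj, finrank_top, Module.finrank_fin_fun,
      Module.finrank_fin_fun] at h1
    omega
  have hcardker : Nat.card (LinearMap.ker ev) = p ^ 3 := by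
    rw [Module.natCard_eq_pow_finrank (K := ZMod p), hker, Nat.card_zmod]
  unfold w3
  rw [← hcardker]
  refine Nat.card_congr (Equiv.subtypeEquivRight fun c => ?_)
  rw [LinearMap.mem_ker]
  constructor
  · intro h
    funext i
    exact h _ (hΓ i)
  · intro h v hv
    obtain ⟨i, rfl⟩ := hsurjΓ v hv
    exact congrFun h i

end Pool.Agent.NH28.UR.Gen3
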