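import Pool.Agent.NH28.UR.Stm

set_option autoImplicit false

namespace Pool.Agent.NH28.UR.Gm

open Pool.Agent.NH28.UR

/-- vectors with all coordinates congruent modulo `p` -/
def H (n p : ℕ) : AddSubgroup (Fin (n + 1) → ℤ) where
  carrier := {x | ∀ i j, (p : ℤ) ∣ x i - x j}
  zero_mem' := by intro i j; simp
  add_mem' := by
    intro a b ha hb i j
    have h := dvd_add (ha i j) (hb i j)
    have e : (a + b) i - (a + b) j = (a i - a j) + (b i - b j) := by
      simp only [Pi.add_apply]; ring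
    rw [e]; exact h
  neg_mem' := by
    intro a ha i j
    have h := ha j i
    have e : (-a) i - (-a) j = a j - a i := by simp only [Pi.neg_apply]; ring
    rw [e]; exact h

lemma mem_H {n p : ℕ} {x : Fin (n + 1) → ℤ} : x ∈ H n p ↔ ∀ i j, (p : ℤ) ∣ x i - x j := Iff.rfl

/-- differences modulo `p` -/
def dif (n p : ℕ) : (Fin (n + 1) → ℤ) →+ (Fin n → ZMod p) where
  toFun x i := ((x i.succ - x 0 : ℤ) : ZMod p)
  map_zero' := by funext i; simp
  map_add' := by
    intro x y; funext i; simp only [Pi.add_apply]; push_cast; ring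

lemma H_index (n p : ℕ) (hp : 0 < p) : (H n p).index = p ^ n := by
  have : NeZero p := ⟨by omega⟩
  have h1 : H n p = (dif n p).ker := by
    ext x
    rw [AddMonoidHom.mem_ker, mem_H]
    constructor
    · intro h
      funext i
      exact (ZMod.intCast_zmod_eq_zero_iff_dvd _ _).2 (h _ _)
    · intro h
      have h2 : ∀ i, (p : ℤ) ∣ x i - x 0 := by
        intro i
        refine Fin.cases ?_ (fun k => ?_) i
        · simp
        · exact (ZMod.intCast_zmod_eq_zero_iff_dvd _ _).1 (congrFun h k)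
      intro i j
      have := dvd_sub (h2 i) (h2 j)
      have e : x i - x 0 - (x j - x 0) = x i - x j := by ring
      rw [e] at this; exact this
  have h2 : Function.Surjective (dif n p) := by
    intro y
    choose z hz using fun i => ZMod.intCast_surjective (y i)
    refine ⟨Fin.cons 0 z, ?_⟩
    funext i
    change (((Fin.cons 0 z : Fin (n + 1) → ℤ) i.succ - (Fin.cons 0 z : Fin (n + 1) → ℤ) 0 : ℤ) : ZMod p) = y i
    rw [Fin.cons_succ, Fin.cons_zero, sub_zero, hz]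
  rw [h1, AddSubgroup.index_ker, AddMonoidHom.range_eq_top.2 h2]
  rw [Nat.card_congr (AddSubgroup.topEquiv).toEquiv]
  rw [Nat.card_fun, Nat.card_eq_fintype_card, Nat.card_eq_fintype_card, ZMod.card, Fintype.card_fin]

/-- multiplication by `p` -/
def mp (n p : ℕ) : (Fin (n + 1) → ℤ) →+ (Fin (n + 1) → ℤ) where
  toFun x := (p : ℤ) • x
  map_zero' := smul_zero _
  map_add' := smul_add _

lemma mp_apply (n p : ℕ) (x : Fin (n + 1) → ℤ) : mp n p x = (p : ℤ) • x := rfl

lemma split {n p : ℕ} {x : Fin (n + 1) → ℤ} (hx : x ∈ H n p) :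
    ∃ z : Fin (n + 1) → ℤ, x = (x 0) • (1 : Fin (n + 1) → ℤ) + (p : ℤ) • z := by
  choose z hz using fun i => (mem_H.1 hx) i 0
  refine ⟨z, ?_⟩
  funext i
  have := hz i
  simp only [Pi.add_apply, Pi.smul_apply, Pi.one_apply, smul_eq_mul, mul_one]
  linarith

/-- the lattice of a subring -/
def toM {n : ℕ} (p : ℕ) (L : Subring (Fin (n + 1) → ℤ)) : AddSubgroup (Fin (n + 1) → ℤ) :=
  L.toAddSubgroup.comap (mp n p)

lemma mem_toM {n p : ℕ} {L : Subring (Fin (n + 1) → ℤ)} {x : Fin (n + 1) → ℤ} :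
    x ∈ toM p L ↔ (p : ℤ) • x ∈ L := Iff.rfl

lemma smul_mem' {n : ℕ} (L : Subring (Fin (n + 1) → ℤ)) (a : ℤ) {x : Fin (n + 1) → ℤ} (hx : x ∈ L) :
    a • x ∈ L := L.toAddSubgroup.zsmul_mem hx a

lemma toM_adm {n p : ℕ} (L : Subring (Fin (n + 1) → ℤ)) : Adm p (toM p L) := by
  refine ⟨?_, ?_⟩
  · rw [mem_toM]; exact smul_mem' L _ L.one_mem
  · intro x hx y hy
    rw [mem_toM] at *
    have := L.mul_mem hx hy
    have e : (p : ℤ) • ((p : ℤ) • (x * y)) = ((p : ℤ) • x) * ((p : ℤ) • y) := by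
      funext i
      simp only [Pi.smul_apply, Pi.mul_apply, smul_eq_mul]; ring
    rw [e]; exact this

/-- the subring of a lattice -/
def toL {n : ℕ} (p : ℕ) (M : AddSubgroup (Fin (n + 1) → ℤ)) (hM : Adm p M) :
    Subring (Fin (n + 1) → ℤ) where
  carrier := {y | ∃ a : ℤ, ∃ x ∈ M, y = a • (1 : Fin (n + 1) → ℤ) + (p : ℤ) • x}
  mul_mem' := by
    rintro _ _ ⟨a, x, hx, rfl⟩ ⟨b, y, hy, rfl⟩
    refine ⟨a * b, a • y + b • x + (p : ℤ) • (x * y),
      M.add_mem (M.add_mem (M.zsmul_mem hy a) (M.zsmul_mem hx b)) (hM.2 x hx y hy), ?_⟩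
    funext i
    simp only [Pi.smul_apply, Pi.mul_apply, Pi.add_apply, Pi.one_apply, smul_eq_mul]; ring
  one_mem' := ⟨1, 0, M.zero_mem, by simp⟩
  add_mem' := by
    rintro _ _ ⟨a, x, hx, rfl⟩ ⟨b, y, hy, rfl⟩
    refine ⟨a + b, x + y, M.add_mem hx hy, ?_⟩
    funext i
    simp only [Pi.smul_apply, Pi.add_apply, Pi.one_apply, smul_eq_mul]; ring
  zero_mem' := ⟨0, 0, M.zero_mem, by simp⟩
  neg_mem' := by
    rintro _ ⟨a, x, hx, rfl⟩
    refine ⟨-a, -x, M.neg_mem hx, ?_⟩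
    funext i
    simp only [Pi.smul_apply, Pi.add_apply, Pi.neg_apply, Pi.one_apply, smul_eq_mul]; ring

lemma mem_toL {n p : ℕ} {M : AddSubgroup (Fin (n + 1) → ℤ)} {hM : Adm p M}
    {y : Fin (n + 1) → ℤ} :
    y ∈ toL p M hM ↔ ∃ a : ℤ, ∃ x ∈ M, y = a • (1 : Fin (n + 1) → ℤ) + (p : ℤ) • x := Iff.rfl

lemma toL_irr {n p : ℕ} {M : AddSubgroup (Fin (n + 1) → ℤ)} (hM : Adm p M) :
    ∀ x ∈ toL p M hM, ∀ i j, (p : ℤ) ∣ x i - x j := by
  rintro _ ⟨a, x, _, rfl⟩ i j
  refine ⟨x i - x j, ?_⟩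
  simp only [Pi.smul_apply, Pi.add_apply, Pi.one_apply, smul_eq_mul]; ring

lemma toL_toM {n p : ℕ} (L : Subring (Fin (n + 1) → ℤ)) (hL : ∀ x ∈ L, ∀ i j, (p : ℤ) ∣ x i - x j) :
    toL p (toM p L) (toM_adm L) = L := by
  ext y
  rw [mem_toL]
  constructor
  · rintro ⟨a, x, hx, rfl⟩
    exact L.add_mem (smul_mem' L a L.one_mem) hx
  · intro hy
    obtain ⟨z, hz⟩ := split (n := n) (p := p) (x := y) (hL y hy)
    refine ⟨y 0, z, ?_, hz⟩
    rw [mem_toM]
    have e : (p : ℤ) • z = y - (y 0) • (1 : Fin (n + 1) → ℤ) := by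
      rw [eq_sub_iff_add_eq, add_comm ((p : ℤ) • z)]; exact hz.symm
    rw [e]
    exact L.sub_mem hy (smul_mem' L _ L.one_mem)

lemma toM_toL {n p : ℕ} (hp : 0 < p) (M : AddSubgroup (Fin (n + 1) → ℤ)) (hM : Adm p M) :
    toM p (toL p M hM) = M := by
  ext x
  rw [mem_toM, mem_toL]
  constructor
  · rintro ⟨a, m, hm, h⟩
    have hp' : (p : ℤ) ≠ 0 := by exact_mod_cast hp.ne'
    have h0 := congrFun h 0
    simp only [Pi.smul_apply, Pi.add_apply, Pi.one_apply, smul_eq_mul, mul_one] at h0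
    have ha : a = p * (x 0 - m 0) := by linarith
    have e : x = (x 0 - m 0) • (1 : Fin (n + 1) → ℤ) + m := by
      funext i
      have hi := congrFun h i
      simp only [Pi.smul_apply, Pi.add_apply, Pi.one_apply, smul_eq_mul, mul_one] at hi ⊢
      rw [ha] at hi
      have : (p : ℤ) * x i = p * (x 0 - m 0 + m i) := by linarith
      exact mul_left_cancel₀ hp' this
    rw [e]
    exact M.add_mem (M.zsmul_mem hM.1 _) hm
  · intro hx
    exact ⟨0, x, hx, by simp⟩

lemma index_eq {n p : ℕ} (hp : 0 < p) (L : Subring (Fin (n + 1) → ℤ))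
    (hL : ∀ x ∈ L, ∀ i j, (p : ℤ) ∣ x i - x j) :
    L.toAddSubgroup.index = (toM p L).index * p ^ n := by
  have hle : L.toAddSubgroup ≤ H n p := fun x hx => hL x hx
  have hsup : (mp n p).range ⊔ L.toAddSubgroup = H n p := by
    apply le_antisymm
    · rw [sup_le_iff]
      refine ⟨?_, hle⟩
      rintro _ ⟨x, rfl⟩
      rw [mem_H]
      intro i j
      exact ⟨x i - x j, by rw [mp_apply]; simp only [Pi.smul_apply, smul_eq_mul]; ring⟩
    · intro x hx
      obtain ⟨z, hz⟩ := split hx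
      rw [hz, add_comm ((x 0) • (1 : Fin (n + 1) → ℤ))]
      exact AddSubgroup.add_mem_sup ⟨z, rfl⟩ (smul_mem' L _ L.one_mem)
  rw [toM, AddSubgroup.index_comap, ← AddSubgroup.relIndex_sup_right, hsup, ← H_index n p hp,
    AddSubgroup.relIndex_mul_index hle]

theorem gm : S_GM := by
  intro n p s hp
  have hp0 : 0 < p := hp.pos
  unfold gct Gct
  refine Nat.card_congr
    { toFun := fun L => ⟨toM p L.1, toM_adm L.1, ?_⟩
      invFun := fun M => ⟨toL p M.1 M.2.1, ?_, toL_irr M.2.1⟩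
      left_inv := fun L => Subtype.ext (toL_toM L.1 L.2.2)
      right_inv := fun M => Subtype.ext (toM_toL hp0 M.1 M.2.1) }
  · have h := (index_eq hp0 L.1 L.2.2).symm.trans L.2.1
    have e : p ^ (n + s) = p ^ s * p ^ n := by rw [pow_add, mul_comm]
    exact Nat.eq_of_mul_eq_mul_right (pow_pos hp0 n) (h.trans e)
  · have h := index_eq hp0 (toL p M.1 M.2.1) (toL_irr M.2.1)
    have e : p ^ (n + s) = p ^ s * p ^ n := by rw [pow_add, mul_comm]
    have e2 : (toM p (toL p M.1 M.2.1)).index = p ^ s :=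
      (congrArg AddSubgroup.index (toM_toL hp0 M.1 M.2.1)).trans M.2.2
    exact h.trans ((congrArg (fun t => t * p ^ n) e2).trans e.symm)

end Pool.Agent.NH28.UR.Gm
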