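import Pool.Agent.NH28.UR.Stm
import Pool.Agent.NH28.UR.Rat

set_option autoImplicit false

/-!
# Project UR: interpolation in `n` (helper50)
-/

namespace Pool.Agent.NH28.UR.Interp

open Finset
open Pool.Agent.NH28.UR

/-- Pascal's rule in a sum with bounded support -/
theorem pascal (n N : ℕ) (x : ℕ → ℚ) (hx : x N = 0) :
    ∑ r ∈ range N, ((n + 1).choose r : ℚ) * x r =
      ∑ r ∈ range N, (n.choose r : ℚ) * (x r + x (r + 1)) := by
  rcases Nat.eq_zero_or_pos N with h | h
  · rw [h, Finset.sum_range_zero, Finset.sum_range_zero]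
  obtain ⟨M, rfl⟩ : ∃ M, N = M + 1 := ⟨N - 1, by omega⟩
  have h1 : ∑ r ∈ range (M + 1), (n.choose r : ℚ) * (x r + x (r + 1)) =
      ∑ r ∈ range (M + 1), (n.choose r : ℚ) * x r + ∑ r ∈ range M, (n.choose r : ℚ) * x (r + 1) := by
    simp_rw [mul_add]
    rw [Finset.sum_add_distrib, Finset.sum_range_succ (fun r => (n.choose r : ℚ) * x (r + 1)), hx,
      mul_zero, add_zero]
  rw [h1, Finset.sum_range_succ', Finset.sum_range_succ' (fun r => (n.choose r : ℚ) * x r)]
  have h2 : ∀ r ∈ range M, ((n + 1).choose (r + 1) : ℚ) * x (r + 1) =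
      (n.choose (r + 1) : ℚ) * x (r + 1) + (n.choose r : ℚ) * x (r + 1) := by
    intro r _
    rw [Nat.choose_succ_succ']
    push_cast
    ring
  rw [Finset.sum_congr rfl h2, Finset.sum_add_distrib, Nat.choose_zero_right,
    Nat.choose_zero_right]
  ring

theorem gen (K N n₀ : ℕ) (m : ℕ) : ∀ (D : ℕ → ℕ) (F : ℕ → ∀ p : ℕ, [Fact p.Prime] → ℚ)
    (a : ℕ → ℕ → ∀ p : ℕ, [Fact p.Prime] → ℚ),
    ∑ k ∈ range (K + 1), D k = m → (∀ k, k ≤ K → D k ≤ N) → (∀ n, n₀ ≤ n → RatF (F n)) →
    (∀ (p : ℕ) [Fact p.Prime], 5 ≤ p → ∀ k, k ≤ K → ∀ r, D k ≤ r → a k r p = 0) →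
    (∀ (p : ℕ) [Fact p.Prime], 5 ≤ p → ∀ n, n₀ ≤ n →
      F n p = ∑ k ∈ range (K + 1), ∑ r ∈ range N,
        (n.choose r : ℚ) * (p : ℚ) ^ (k * n) * a k r p) →
    ∀ k, k ≤ K → ∀ r, RatF (a k r) := by
  induction m with
  | zero =>
    intro D F a hD _ _ h0 _ k hk r
    have h1 : D k = 0 := Finset.sum_eq_zero_iff.1 hD k (Finset.mem_range.2 (by omega))
    exact (RatF.const 0).congr fun p _ hp => h0 p hp k hk r (by omega)
  | succ m ih =>
    intro D F a hD hN hF h0 hsum
    obtain ⟨c, hc, hDc⟩ : ∃ c, c ≤ K ∧ 0 < D c := by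
      by_contra hcon
      push Not at hcon
      have h1 : ∑ k ∈ range (K + 1), D k = 0 := Finset.sum_eq_zero fun k hk => by
        rw [Finset.mem_range] at hk
        have := hcon k (by omega)
        omega
      omega
    have key : ∀ k, k ≤ K → ∀ r, RatF (fun (p : ℕ) [Fact p.Prime] =>
        ((p : ℚ) ^ k - (p : ℚ) ^ c) * a k r p + (p : ℚ) ^ k * a k (r + 1) p) := by
      refine ih (Function.update D c (D c - 1))
        (fun n (p : ℕ) [Fact p.Prime] => F (n + 1) p - (p : ℚ) ^ c * F n p)
        (fun k r (p : ℕ) [Fact p.Prime] =>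
          ((p : ℚ) ^ k - (p : ℚ) ^ c) * a k r p + (p : ℚ) ^ k * a k (r + 1) p) ?_ ?_ ?_ ?_ ?_
      · have hcm : c ∈ range (K + 1) := Finset.mem_range.2 (by omega)
        rw [Finset.sum_update_of_mem hcm]
        rw [← Finset.add_sum_erase _ _ hcm] at hD
        rw [← Finset.erase_eq]
        omega
      · intro k hk
        by_cases h : k = c
        · rw [h, Function.update_self]
          have := hN c hc
          omega
        · rw [Function.update_of_ne h]
          exact hN k hk
      · intro n hn
        exact (hF (n + 1) (by omega)).sub ((RatF.pPow c).mul (hF n hn))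
      · intro p _ hp k hk r hr
        by_cases h : k = c
        · subst h
          rw [Function.update_self] at hr
          rw [sub_self, zero_mul, zero_add, h0 p hp k hk (r + 1) (by omega), mul_zero]
        · rw [Function.update_of_ne h] at hr
          rw [h0 p hp k hk r hr, h0 p hp k hk (r + 1) (by omega), mul_zero, mul_zero, add_zero]
      · intro p _ hp n hn
        rw [hsum p hp (n + 1) (by omega), hsum p hp n hn, Finset.mul_sum, ← Finset.sum_sub_distrib]
        refine Finset.sum_congr rfl fun k hk => ?_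
        rw [Finset.mem_range] at hk
        have h1 : ∑ r ∈ range N, ((n + 1).choose r : ℚ) * (p : ℚ) ^ (k * (n + 1)) * a k r p =
            (p : ℚ) ^ (k * (n + 1)) * ∑ r ∈ range N, ((n + 1).choose r : ℚ) * a k r p := by
          rw [Finset.mul_sum]
          exact Finset.sum_congr rfl fun r _ => by ring
        rw [h1, pascal n N (fun r => a k r p) (h0 p hp k (by omega) N (hN k (by omega))),
          Finset.mul_sum, Finset.mul_sum, ← Finset.sum_sub_distrib]
        refine Finset.sum_congr rfl fun r _ => ?_
        have h2 : (p : ℚ) ^ (k * (n + 1)) = (p : ℚ) ^ (k * n) * (p : ℚ) ^ k := by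
          rw [← pow_add]
          congr 1
        rw [h2]
        ring
    -- the other exponents
    have hother : ∀ k, k ≤ K → k ≠ c → ∀ j r, r + j = D k → RatF (a k r) := by
      intro k hk hkc j
      induction j with
      | zero =>
        intro r hr
        exact (RatF.const 0).congr fun p _ hp => h0 p hp k hk r (by omega)
      | succ j ihj =>
        intro r hr
        have h1 := ihj (r + 1) (by omega)
        refine (((key k hk r).sub ((RatF.pPow k).mul h1)).div ((RatF.pPow k).sub (RatF.pPow c))
          (fun p _ _ => primePow_sub_ne p hkc)).congr fun p _ _ => ?_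
        have h2 := primePow_sub_ne p hkc
        beta_reduce
        rw [add_sub_cancel_right, mul_div_cancel_left₀ _ h2]
    have hne : ∀ k, k ≤ K → k ≠ c → ∀ r, RatF (a k r) := by
      intro k hk hkc r
      rcases le_or_gt (D k) r with h | h
      · exact (RatF.const 0).congr fun p _ hp => h0 p hp k hk r h
      · exact hother k hk hkc (D k - r) r (by omega)
    have hpos : ∀ (n : ℕ) (p : ℕ) [Fact p.Prime], (p : ℚ) ^ n ≠ 0 := by
      intro n p hp
      exact pow_ne_zero _ (by exact_mod_cast hp.out.ne_zero)
    have hsucc : ∀ r, RatF (a c (r + 1)) := by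
      intro r
      refine ((key c hc r).div (RatF.pPow c) (fun p _ _ => hpos c p)).congr fun p _ _ => ?_
      have h2 := hpos c p
      beta_reduce
      rw [sub_self, zero_mul, zero_add, mul_div_cancel_left₀ _ h2]
    have hzero : RatF (a c 0) := by
      have h1 : RatF (fun (p : ℕ) [Fact p.Prime] => F n₀ p - ∑ k ∈ range (K + 1), ∑ r ∈ range N,
          (n₀.choose r : ℚ) * (p : ℚ) ^ (k * n₀) * (if k = c ∧ r = 0 then 0 else a k r p)) := by
        refine (hF n₀ le_rfl).sub (RatF.sum _ _ fun k hk => RatF.sum _ _ fun r _ => ?_)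
        rw [Finset.mem_range] at hk
        refine ((RatF.const _).mul (RatF.pPow _)).mul ?_
        by_cases h : k = c ∧ r = 0
        · exact (RatF.const 0).congr fun p _ _ => by rw [if_pos h]
        · have h2 : RatF (a k r) := by
            by_cases hkc : k = c
            · subst hkc
              obtain ⟨s, rfl⟩ : ∃ s, r = s + 1 := ⟨r - 1, by
                have : r ≠ 0 := fun h' => h ⟨rfl, h'⟩
                omega⟩
              exact hsucc s
            · exact hne k (by omega) hkc r
          exact h2.congr fun p _ _ => by rw [if_neg h]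
      refine (h1.div (RatF.pPow (c * n₀)) (fun p _ _ => hpos _ p)).congr fun p _ hp => ?_
      have h2 := hpos (c * n₀) p
      have hN1 : 0 < N := lt_of_lt_of_le hDc (hN c hc)
      have h3 : F n₀ p - ∑ k ∈ range (K + 1), ∑ r ∈ range N,
          (n₀.choose r : ℚ) * (p : ℚ) ^ (k * n₀) * (if k = c ∧ r = 0 then 0 else a k r p) =
          (p : ℚ) ^ (c * n₀) * a c 0 p := by
        rw [hsum p hp n₀ le_rfl, ← Finset.sum_sub_distrib]
        simp_rw [← Finset.sum_sub_distrib, ← mul_sub]
        rw [Finset.sum_eq_single c, Finset.sum_eq_single 0]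
        · rw [if_pos ⟨rfl, rfl⟩, Nat.choose_zero_right]
          push_cast
          ring
        · intro r _ hr
          rw [if_neg (fun h => hr h.2), sub_self, mul_zero]
        · intro h
          exact absurd (Finset.mem_range.2 hN1) h
        · intro k _ hk
          refine Finset.sum_eq_zero fun r _ => ?_
          rw [if_neg (fun h => hk h.1), sub_self, mul_zero]
        · intro h
          exact absurd (Finset.mem_range.2 (by omega)) h
      beta_reduce
      rw [h3, mul_div_cancel_left₀ _ h2]
    intro k hk r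
    by_cases hkc : k = c
    · subst hkc
      rcases r with _ | r
      · exact hzero
      · exact hsucc r
    · exact hne k hk hkc r

theorem interp : S_INTERP := by
  intro n₀ K R F a hF hsum k hk r hr
  have h1 := gen K (R + 1) n₀ _ (fun _ => R + 1) F
    (fun k r (p : ℕ) [Fact p.Prime] => if r ≤ R then a k r p else 0) rfl (fun _ _ => le_rfl) hF
    (fun p _ _ k _ r hr => if_neg (by omega)) (by
      intro p _ hp n hn
      rw [hsum p hp n hn]
      refine Finset.sum_congr rfl fun k _ => Finset.sum_congr rfl fun r hr => ?_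
      rw [Finset.mem_range] at hr
      rw [if_pos (by omega : r ≤ R)]) k hk r
  exact h1.congr fun p _ _ => (if_pos hr).symm

end Pool.Agent.NH28.UR.Interp
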