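import Mathlib
import Pool.Agent.NH28.UR.Stm

/-! Liu's recurrence. -/

set_option autoImplicit false

namespace Pool.Agent.NH28.UR.Liu

open Pool.Agent.NH28.UR Finset

/-- the indicator of a set -/
def es {ι : Type} [DecidableEq ι] (S : Finset ι) : ι → ℤ := fun i => if i ∈ S then 1 else 0

theorem es_inter {ι : Type} [DecidableEq ι] (S T : Finset ι) : es (S ∩ T) = es S * es T := by
  funext i
  simp only [es, Pi.mul_apply, mem_inter]
  by_cases h1 : i ∈ S <;> by_cases h2 : i ∈ T <;> simp [h1, h2]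

/-- pull back of functions along a map, as a ring homomorphism -/
def pb {ι κ : Type} (f : ι → κ) : (κ → ℤ) →+* (ι → ℤ) where
  toFun x := fun i => x (f i)
  map_one' := rfl
  map_mul' _ _ := rfl
  map_zero' := rfl
  map_add' _ _ := rfl

theorem pb_apply {ι κ : Type} (f : ι → κ) (x : κ → ℤ) (i : ι) : pb f x i = x (f i) := rfl

theorem pb_surj {ι κ : Type} (f : ι → κ) (hf : Function.Injective f) :
    Function.Surjective (pb f) := by
  intro y
  classical
  refine ⟨fun k => if h : ∃ i, f i = k then y h.choose else 0, ?_⟩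
  funext i
  rw [pb_apply]
  have h : ∃ j, f j = f i := ⟨i, rfl⟩
  rw [dif_pos h]
  exact congrArg y (hf h.choose_spec)

theorem index_comap {ι κ : Type} (f : (ι → ℤ) →+* (κ → ℤ)) (hf : Function.Surjective f)
    (Λ : Subring (κ → ℤ)) : (Λ.comap f).toAddSubgroup.index = Λ.toAddSubgroup.index := by
  have h : (Λ.comap f).toAddSubgroup = Λ.toAddSubgroup.comap f.toAddMonoidHom := rfl
  rw [h]
  exact AddSubgroup.index_comap_of_surjective _ hf

/-- counting subrings with a property -/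
theorem card_congr_pb {ι κ : Type} (σ : ι ≃ κ) (P : Subring (ι → ℤ) → Prop)
    (Q : Subring (κ → ℤ) → Prop) (h1 : ∀ Λ, P Λ → Q (Λ.comap (pb σ)))
    (h2 : ∀ Λ, Q Λ → P (Λ.comap (pb σ.symm))) :
    Nat.card {Λ : Subring (ι → ℤ) // P Λ} = Nat.card {Λ : Subring (κ → ℤ) // Q Λ} := by
  apply Nat.card_congr
  refine ⟨fun Λ => ⟨Λ.1.comap (pb σ), h1 _ Λ.2⟩, fun Λ => ⟨Λ.1.comap (pb σ.symm), h2 _ Λ.2⟩, ?_, ?_⟩
  · rintro ⟨Λ, hΛ⟩
    apply Subtype.ext
    ext x
    show pb σ (pb σ.symm x) ∈ Λ ↔ x ∈ Λ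
    have : pb σ (pb σ.symm x) = x := by
      funext i
      rw [pb_apply, pb_apply, Equiv.symm_apply_apply]
    rw [this]
  · rintro ⟨Λ, hΛ⟩
    apply Subtype.ext
    ext x
    show pb σ.symm (pb σ x) ∈ Λ ↔ x ∈ Λ
    have : pb σ.symm (pb σ x) = x := by
      funext i
      rw [pb_apply, pb_apply, Equiv.apply_symm_apply]
    rw [this]

/-- irreducible -/
def Irr {ι : Type} (p : ℕ) (Λ : Subring (ι → ℤ)) : Prop :=
  ∀ x ∈ Λ, ∀ i j, (p : ℤ) ∣ x i - x j

theorem irr_comap {ι κ : Type} (σ : ι ≃ κ) {p : ℕ} {Λ : Subring (ι → ℤ)} (h : Irr p Λ) :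
    Irr p (Λ.comap (pb σ)) := by
  intro x hx i j
  have := h (pb σ x) hx (σ.symm i) (σ.symm j)
  rwa [pb_apply, pb_apply, Equiv.apply_symm_apply, Equiv.apply_symm_apply] at this

theorem fct_eq {ι : Type} [Fintype ι] (k : ℕ) :
    Nat.card {Λ : Subring (ι → ℤ) // Λ.toAddSubgroup.index = k} = fct (Fintype.card ι) k := by
  unfold fct
  apply card_congr_pb (Fintype.equivFin ι)
  · intro Λ h
    rw [index_comap _ (pb_surj _ (Equiv.injective _)), h]
  · intro Λ h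
    rw [index_comap _ (pb_surj _ (Equiv.injective _)), h]

theorem gct_eq {ι : Type} [Fintype ι] (p e : ℕ) :
    Nat.card {Λ : Subring (ι → ℤ) // Λ.toAddSubgroup.index = p ^ e ∧ Irr p Λ} =
      gct (Fintype.card ι) p e := by
  unfold gct
  apply card_congr_pb (Fintype.equivFin ι)
  · rintro Λ ⟨h, h'⟩
    exact ⟨by rw [index_comap _ (pb_surj _ (Equiv.injective _)), h], irr_comap _ h'⟩
  · rintro Λ ⟨h, h'⟩
    exact ⟨by rw [index_comap _ (pb_surj _ (Equiv.injective _)), h], irr_comap _ h'⟩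

theorem finSub (hF : S_FIN) (ι : Type) [Fintype ι] (k : ℕ) (hk : k ≠ 0)
    (P : Subring (ι → ℤ) → Prop) (hP : ∀ Λ, P Λ → Λ.toAddSubgroup.index = k) :
    Finite {Λ : Subring (ι → ℤ) // P Λ} := by
  have h := hF ι k hk
  apply Finite.of_injective
    (fun Λ : {Λ : Subring (ι → ℤ) // P Λ} =>
      (⟨Λ.1.toAddSubgroup, hP _ Λ.2⟩ : {M : AddSubgroup (ι → ℤ) // M.index = k}))
  intro Λ Λ' hh
  apply Subtype.ext
  have h1 : Λ.1.toAddSubgroup = Λ'.1.toAddSubgroup := congrArg Subtype.val hh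
  exact Subring.toAddSubgroup_injective h1

section
variable {ι : Type} [Fintype ι] [DecidableEq ι] (S : Finset ι)

/-- restriction to `S` -/
abbrev r1 : (ι → ℤ) →+* ({i // i ∈ S} → ℤ) := pb Subtype.val

/-- restriction to the complement -/
abbrev r2 : (ι → ℤ) →+* ({i // i ∉ S} → ℤ) := pb Subtype.val

/-- gluing of subrings -/
def glue (Λ₁ : Subring ({i // i ∈ S} → ℤ)) (Λ₂ : Subring ({i // i ∉ S} → ℤ)) :
    Subring (ι → ℤ) := Λ₁.comap (r1 S) ⊓ Λ₂.comap (r2 S)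

theorem mem_glue {Λ₁ : Subring ({i // i ∈ S} → ℤ)} {Λ₂ : Subring ({i // i ∉ S} → ℤ)}
    {x : ι → ℤ} : x ∈ glue S Λ₁ Λ₂ ↔ r1 S x ∈ Λ₁ ∧ r2 S x ∈ Λ₂ := Iff.rfl

/-- gluing of functions -/
def gl (a : {i // i ∈ S} → ℤ) (b : {i // i ∉ S} → ℤ) : ι → ℤ := fun i =>
  if h : i ∈ S then a ⟨i, h⟩ else b ⟨i, h⟩

theorem r1_gl (a : {i // i ∈ S} → ℤ) (b : {i // i ∉ S} → ℤ) : r1 S (gl S a b) = a := by
  funext i
  rw [pb_apply]
  unfold gl
  rw [dif_pos i.2]

theorem r2_gl (a : {i // i ∈ S} → ℤ) (b : {i // i ∉ S} → ℤ) : r2 S (gl S a b) = b := by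
  funext i
  rw [pb_apply]
  unfold gl
  rw [dif_neg i.2]

theorem index_glue (Λ₁ : Subring ({i // i ∈ S} → ℤ)) (Λ₂ : Subring ({i // i ∉ S} → ℤ)) :
    (glue S Λ₁ Λ₂).toAddSubgroup.index = Λ₁.toAddSubgroup.index * Λ₂.toAddSubgroup.index := by
  rw [← AddSubgroup.index_prod]
  have h : (glue S Λ₁ Λ₂).toAddSubgroup =
      (Λ₁.toAddSubgroup.prod Λ₂.toAddSubgroup).comap
        ((r1 S).toAddMonoidHom.prod (r2 S).toAddMonoidHom) := rfl
  rw [h]
  apply AddSubgroup.index_comap_of_surjective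
  rintro ⟨a, b⟩
  refine ⟨gl S a b, ?_⟩
  exact Prod.ext (r1_gl S a b) (r2_gl S a b)

theorem es_mem_glue (Λ₁ : Subring ({i // i ∈ S} → ℤ)) (Λ₂ : Subring ({i // i ∉ S} → ℤ)) :
    es S ∈ glue S Λ₁ Λ₂ := by
  rw [mem_glue]
  constructor
  · have : r1 S (es S) = 1 := by
      funext i
      rw [pb_apply]
      simp only [es, Pi.one_apply]
      rw [if_pos i.2]
    rw [this]
    exact Λ₁.one_mem
  · have : r2 S (es S) = 0 := by
      funext i
      rw [pb_apply]
      simp only [es, Pi.zero_apply]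
      rw [if_neg i.2]
    rw [this]
    exact Λ₂.zero_mem

theorem map_r1_glue (Λ₁ : Subring ({i // i ∈ S} → ℤ)) (Λ₂ : Subring ({i // i ∉ S} → ℤ)) :
    (glue S Λ₁ Λ₂).map (r1 S) = Λ₁ := by
  ext a
  rw [Subring.mem_map]
  constructor
  · rintro ⟨x, hx, rfl⟩
    exact ((mem_glue S).1 hx).1
  · intro ha
    refine ⟨gl S a 0, ?_, r1_gl S a 0⟩
    rw [mem_glue, r1_gl, r2_gl]
    exact ⟨ha, Λ₂.zero_mem⟩

theorem map_r2_glue (Λ₁ : Subring ({i // i ∈ S} → ℤ)) (Λ₂ : Subring ({i // i ∉ S} → ℤ)) :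
    (glue S Λ₁ Λ₂).map (r2 S) = Λ₂ := by
  ext a
  rw [Subring.mem_map]
  constructor
  · rintro ⟨x, hx, rfl⟩
    exact ((mem_glue S).1 hx).2
  · intro ha
    refine ⟨gl S 0 a, ?_, r2_gl S 0 a⟩
    rw [mem_glue, r1_gl, r2_gl]
    exact ⟨Λ₁.zero_mem, ha⟩

theorem glue_map {Λ : Subring (ι → ℤ)} (h : es S ∈ Λ) :
    glue S (Λ.map (r1 S)) (Λ.map (r2 S)) = Λ := by
  ext x
  rw [mem_glue, Subring.mem_map, Subring.mem_map]
  constructor
  · rintro ⟨⟨y, hy, hxy⟩, ⟨z, hz, hxz⟩⟩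
    have hx : x = es S * y + (1 - es S) * z := by
      funext i
      simp only [Pi.add_apply, Pi.mul_apply, Pi.sub_apply, Pi.one_apply, es]
      by_cases hi : i ∈ S
      · rw [if_pos hi]
        have := congrFun hxy ⟨i, hi⟩
        rw [pb_apply, pb_apply] at this
        rw [← this]
        ring
      · rw [if_neg hi]
        have := congrFun hxz ⟨i, hi⟩
        rw [pb_apply, pb_apply] at this
        rw [← this]
        ring
    rw [hx]
    exact Λ.add_mem (Λ.mul_mem h hy) (Λ.mul_mem (Λ.sub_mem Λ.one_mem h) hz)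
  · intro hx
    exact ⟨⟨x, hx, rfl⟩, ⟨x, hx, rfl⟩⟩

/-- minimality of `S` in terms of the first component -/
theorem min_iff (hK : S_LIUK) {p : ℕ} (hp : p.Prime) (i₀ : ι) (h0 : i₀ ∈ S) (k : ℕ)
    (Λ₁ : Subring ({i // i ∈ S} → ℤ)) (Λ₂ : Subring ({i // i ∉ S} → ℤ))
    (hk : Λ₁.toAddSubgroup.index = p ^ k) :
    (∀ S' : Finset ι, i₀ ∈ S' → es S' ∈ glue S Λ₁ Λ₂ → S ⊆ S') ↔ Irr p Λ₁ := by
  have key := hK p hp {i // i ∈ S} ⟨i₀, h0⟩ Λ₁ k hk
  unfold Irr
  rw [key]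
  constructor
  · intro h T hT hTm
    have h1 : es (T.map ⟨Subtype.val, Subtype.val_injective⟩) ∈ glue S Λ₁ Λ₂ := by
      rw [mem_glue]
      constructor
      · have : r1 S (es (T.map ⟨Subtype.val, Subtype.val_injective⟩)) =
            fun i => if i ∈ T then (1 : ℤ) else 0 := by
          funext i
          rw [pb_apply]
          simp only [es]
          have h2 : (i : ι) ∈ T.map ⟨Subtype.val, Subtype.val_injective⟩ ↔ i ∈ T := by
            rw [mem_map]
            constructor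
            · rintro ⟨a, ha, hai⟩
              have : a = i := Subtype.ext hai
              rwa [this] at ha
            · intro hi
              exact ⟨i, hi, rfl⟩
          by_cases hi : i ∈ T
          · rw [if_pos hi, if_pos (h2.2 hi)]
          · rw [if_neg hi, if_neg (fun hh => hi (h2.1 hh))]
        rw [this]
        exact hTm
      · have : r2 S (es (T.map ⟨Subtype.val, Subtype.val_injective⟩)) = 0 := by
          funext i
          rw [pb_apply]
          simp only [es, Pi.zero_apply]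
          rw [if_neg]
          intro hh
          obtain ⟨a, _, hai⟩ := mem_map.1 hh
          exact i.2 (hai ▸ a.2)
        rw [this]
        exact Λ₂.zero_mem
    have h2 := h _ (mem_map.2 ⟨⟨i₀, h0⟩, hT, rfl⟩) h1
    rw [eq_univ_iff_forall]
    intro i
    obtain ⟨a, ha, hai⟩ := mem_map.1 (h2 i.2)
    have : a = i := Subtype.ext hai
    rwa [this] at ha
  · intro h S' hS' hm
    have h1 := ((mem_glue S).1 hm).1
    have h2 : r1 S (es S') = fun i => if i ∈ (univ.filter fun i : {i // i ∈ S} => (i : ι) ∈ S')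
        then (1 : ℤ) else 0 := by
      funext i
      rw [pb_apply]
      simp only [es, mem_filter, mem_univ, true_and]
    rw [h2] at h1
    have h3 := h (univ.filter fun i : {i // i ∈ S} => (i : ι) ∈ S')
      (mem_filter.2 ⟨mem_univ _, hS'⟩) h1
    intro i hi
    have h4 : (⟨i, hi⟩ : {i // i ∈ S}) ∈ univ.filter fun i : {i // i ∈ S} => (i : ι) ∈ S' := by
      rw [h3]; exact mem_univ _
    exact (mem_filter.1 h4).2

/-- the subrings with least idempotent `S` -/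
def AS (p e : ℕ) (i₀ : ι) (Λ : Subring (ι → ℤ)) : Prop :=
  Λ.toAddSubgroup.index = p ^ e ∧ es S ∈ Λ ∧ ∀ S' : Finset ι, i₀ ∈ S' → es S' ∈ Λ → S ⊆ S'

/-- the sigma type which describes `AS` -/
abbrev Sg (p e : ℕ) : Type := Σ i : Fin (e + 1),
  {Λ₁ : Subring ({i // i ∈ S} → ℤ) // Λ₁.toAddSubgroup.index = p ^ (i : ℕ) ∧ Irr p Λ₁} ×
  {Λ₂ : Subring ({i // i ∉ S} → ℤ) // Λ₂.toAddSubgroup.index = p ^ (e - i)}

theorem card_AS (hF : S_FIN) (hK : S_LIUK) {p : ℕ} (hp : p.Prime) (e : ℕ) (i₀ : ι) (h0 : i₀ ∈ S) :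
    Nat.card {Λ : Subring (ι → ℤ) // AS S p e i₀ Λ} =
      ∑ i ∈ range (e + 1), gct S.card p i * fct (Fintype.card ι - S.card) (p ^ (e - i)) := by
  have hf1 : ∀ i : ℕ, Finite {Λ₁ : Subring ({i // i ∈ S} → ℤ) //
      Λ₁.toAddSubgroup.index = p ^ i ∧ Irr p Λ₁} := fun i =>
    finSub hF _ (p ^ i) (pow_ne_zero _ hp.ne_zero) _ (fun _ h => h.1)
  have hf2 : ∀ i : ℕ, Finite {Λ₂ : Subring ({i // i ∉ S} → ℤ) //
      Λ₂.toAddSubgroup.index = p ^ i} := fun i =>
    finSub hF _ (p ^ i) (pow_ne_zero _ hp.ne_zero) _ (fun _ h => h)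
  -- the map from the sigma type
  have hmem : ∀ z : Sg S p e, AS S p e i₀ (glue S z.2.1.1 z.2.2.1) := by
    rintro ⟨i, ⟨Λ₁, h1, h1'⟩, ⟨Λ₂, h2⟩⟩
    refine ⟨?_, es_mem_glue S _ _, ?_⟩
    · show (glue S Λ₁ Λ₂).toAddSubgroup.index = p ^ e
      rw [index_glue, h1, h2, ← pow_add]
      congr 1
      have := i.2
      omega
    · exact (min_iff S hK hp i₀ h0 i Λ₁ Λ₂ h1).2 h1'
  have hbij : Function.Bijective (fun z : Sg S p e =>
      (⟨glue S z.2.1.1 z.2.2.1, hmem z⟩ : {Λ : Subring (ι → ℤ) // AS S p e i₀ Λ})) := by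
    constructor
    · rintro ⟨i, ⟨Λ₁, h1, h1'⟩, ⟨Λ₂, h2⟩⟩ ⟨j, ⟨Λ₁', h3, h3'⟩, ⟨Λ₂', h4⟩⟩ hh
      have hg : glue S Λ₁ Λ₂ = glue S Λ₁' Λ₂' := congrArg Subtype.val hh
      have e1 : Λ₁ = Λ₁' := by
        rw [← map_r1_glue S Λ₁ Λ₂, hg, map_r1_glue]
      have e2 : Λ₂ = Λ₂' := by
        rw [← map_r2_glue S Λ₁ Λ₂, hg, map_r2_glue]
      subst e1 e2
      have e3 : i = j := by
        apply Fin.ext
        apply Nat.pow_right_injective hp.two_le
        show p ^ (i : ℕ) = p ^ (j : ℕ)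
        rw [← h1, h3]
      subst e3
      rfl
    · rintro ⟨Λ, h1, h2, h3⟩
      have hg := glue_map S h2
      have hidx := index_glue S (Λ.map (r1 S)) (Λ.map (r2 S))
      rw [hg, h1] at hidx
      obtain ⟨i, hi, hii⟩ := (Nat.dvd_prime_pow hp).1 (Dvd.intro _ hidx.symm)
      have h4 : (Λ.map (r2 S)).toAddSubgroup.index = p ^ (e - i) := by
        have h5 : p ^ e = p ^ i * p ^ (e - i) := by
          rw [← pow_add]; congr 1; omega
        rw [hii, h5] at hidx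
        exact (Nat.eq_of_mul_eq_mul_left (pow_pos hp.pos i) hidx).symm
      have h6 : Irr p (Λ.map (r1 S)) := by
        rw [← min_iff S hK hp i₀ h0 i _ (Λ.map (r2 S)) hii, hg]
        exact h3
      refine ⟨⟨⟨i, by omega⟩, ⟨⟨Λ.map (r1 S), hii, h6⟩, ⟨Λ.map (r2 S), h4⟩⟩⟩, ?_⟩
      exact Subtype.ext hg
  rw [← Nat.card_congr (Equiv.ofBijective _ hbij)]
  unfold Sg
  rw [Nat.card_sigma, ← Fin.sum_univ_eq_sum_range
    (fun i => gct S.card p i * fct (Fintype.card ι - S.card) (p ^ (e - i)))]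
  apply sum_congr rfl
  intro i _
  rw [Nat.card_prod, gct_eq, fct_eq]
  have c1 : Fintype.card {i // i ∈ S} = S.card := Fintype.card_coe S
  have c2 : Fintype.card {i // i ∉ S} = Fintype.card ι - S.card := by
    rw [Fintype.card_subtype_compl, Fintype.card_coe]
  rw [c1, c2]

end

/-- every subring has a least idempotent containing `i₀` -/
theorem exists_min {ι : Type} [Fintype ι] [DecidableEq ι] (i₀ : ι) (Λ : Subring (ι → ℤ)) :
    ∃ S : Finset ι, i₀ ∈ S ∧ es S ∈ Λ ∧ ∀ S' : Finset ι, i₀ ∈ S' → es S' ∈ Λ → S ⊆ S' := by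
  classical
  have hne : ((univ : Finset (Finset ι)).filter fun S => i₀ ∈ S ∧ es S ∈ Λ).Nonempty := by
    refine ⟨univ, mem_filter.2 ⟨mem_univ _, mem_univ _, ?_⟩⟩
    have : es (univ : Finset ι) = 1 := by
      funext i
      simp [es]
    rw [this]
    exact Λ.one_mem
  obtain ⟨S, hS, hmin⟩ := exists_min_image _ Finset.card hne
  obtain ⟨_, hS1, hS2⟩ := mem_filter.1 hS
  refine ⟨S, hS1, hS2, ?_⟩
  intro S' h1 h2
  have h3 : S ∩ S' ∈ (univ : Finset (Finset ι)).filter fun S => i₀ ∈ S ∧ es S ∈ Λ := by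
    refine mem_filter.2 ⟨mem_univ _, mem_inter.2 ⟨hS1, h1⟩, ?_⟩
    rw [es_inter]
    exact Λ.mul_mem hS2 h2
  have h4 := hmin _ h3
  have h5 : S ∩ S' = S := eq_of_subset_of_card_le inter_subset_left h4
  rw [← h5]
  exact inter_subset_right

theorem card_all (hF : S_FIN) {ι : Type} [Fintype ι] [DecidableEq ι] {p : ℕ} (hp : p.Prime)
    (e : ℕ) (i₀ : ι) :
    Nat.card {Λ : Subring (ι → ℤ) // Λ.toAddSubgroup.index = p ^ e} =
      ∑ S : {S : Finset ι // i₀ ∈ S}, Nat.card {Λ : Subring (ι → ℤ) // AS S.1 p e i₀ Λ} := by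
  have hfin : ∀ S : {S : Finset ι // i₀ ∈ S}, Finite {Λ : Subring (ι → ℤ) // AS S.1 p e i₀ Λ} :=
    fun S => finSub hF _ (p ^ e) (pow_ne_zero _ hp.ne_zero) _ (fun _ h => h.1)
  rw [← Nat.card_sigma]
  apply Nat.card_congr
  symm
  apply Equiv.ofBijective (fun z : (Σ S : {S : Finset ι // i₀ ∈ S},
    {Λ : Subring (ι → ℤ) // AS S.1 p e i₀ Λ}) =>
    (⟨z.2.1, z.2.2.1⟩ : {Λ : Subring (ι → ℤ) // Λ.toAddSubgroup.index = p ^ e}))
  constructor
  · rintro ⟨⟨S, hS⟩, ⟨Λ, h1, h2, h3⟩⟩ ⟨⟨S', hS'⟩, ⟨Λ', h1', h2', h3'⟩⟩ hh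
    have e1 : Λ = Λ' := congrArg Subtype.val hh
    subst e1
    have e2 : S = S' := subset_antisymm (h3 _ hS' h2') (h3' _ hS h2)
    subst e2
    rfl
  · rintro ⟨Λ, hΛ⟩
    obtain ⟨S, h1, h2, h3⟩ := exists_min i₀ Λ
    exact ⟨⟨⟨S, h1⟩, ⟨Λ, hΛ, h2, h3⟩⟩, rfl⟩

theorem sum_sets (n : ℕ) (F : ℕ → ℕ) :
    ∑ S : {S : Finset (Fin (n + 1)) // (0 : Fin (n + 1)) ∈ S}, F S.1.card =
      ∑ m ∈ range (n + 1), n.choose m * F (m + 1) := by
  have h1 : ∑ S : {S : Finset (Fin (n + 1)) // (0 : Fin (n + 1)) ∈ S}, F S.1.card =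
      ∑ T : Finset (Fin n), F (T.card + 1) := by
    symm
    apply Fintype.sum_bijective (fun T : Finset (Fin n) =>
      (⟨insert 0 (T.map (Fin.succEmb n)), mem_insert_self _ _⟩ :
        {S : Finset (Fin (n + 1)) // (0 : Fin (n + 1)) ∈ S}))
    · constructor
      · intro T T' hh
        have h2 : insert 0 (T.map (Fin.succEmb n)) = insert 0 (T'.map (Fin.succEmb n)) :=
          congrArg Subtype.val hh
        ext i
        have h3 : ∀ T : Finset (Fin n), i ∈ T ↔ i.succ ∈ insert 0 (T.map (Fin.succEmb n)) := by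
          intro T
          rw [mem_insert, mem_map]
          constructor
          · intro hi
            exact Or.inr ⟨i, hi, rfl⟩
          · rintro (h | ⟨a, ha, hai⟩)
            · exact absurd h (Fin.succ_ne_zero i)
            · have : a = i := Fin.succ_injective n hai
              rwa [this] at ha
        rw [h3 T, h3 T', h2]
      · rintro ⟨S, hS⟩
        refine ⟨univ.filter (fun i : Fin n => i.succ ∈ S), ?_⟩
        apply Subtype.ext
        ext j
        show j ∈ insert 0 ((univ.filter (fun i : Fin n => i.succ ∈ S)).map (Fin.succEmb n)) ↔ j ∈ S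
        rw [mem_insert, mem_map]
        constructor
        · rintro (h | ⟨a, ha, hai⟩)
          · rw [h]; exact hS
          · rw [← hai]; exact (mem_filter.1 ha).2
        · intro hj
          rcases Fin.eq_zero_or_eq_succ j with h | ⟨a, ha⟩
          · exact Or.inl h
          · exact Or.inr ⟨a, mem_filter.2 ⟨mem_univ _, ha ▸ hj⟩, ha.symm⟩
    · intro T
      show F (T.card + 1) = F (insert 0 (T.map (Fin.succEmb n))).card
      rw [card_insert_of_notMem, card_map]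
      intro h
      obtain ⟨a, _, ha⟩ := mem_map.1 h
      exact Fin.succ_ne_zero a ha
  rw [h1]
  have h2 := sum_powerset_apply_card (fun m => F (m + 1)) (x := (univ : Finset (Fin n)))
  rw [powerset_univ, card_univ, Fintype.card_fin] at h2
  rw [h2]
  simp only [smul_eq_mul]

theorem liu (hF : S_FIN) (hK : S_LIUK) : S_LIU := by
  intro n p e hp
  have h1 := card_all hF hp e (0 : Fin (n + 1))
  unfold fct at *
  rw [h1]
  have h2 : ∀ S : {S : Finset (Fin (n + 1)) // (0 : Fin (n + 1)) ∈ S},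
      Nat.card {Λ : Subring (Fin (n + 1) → ℤ) // AS S.1 p e 0 Λ} =
      (fun c => ∑ i ∈ range (e + 1), gct c p i * fct (n + 1 - c) (p ^ (e - i))) S.1.card := by
    intro S
    rw [card_AS S.1 hF hK hp e 0 S.2, Fintype.card_fin]
  simp_rw [h2]
  rw [sum_sets n (fun c => ∑ i ∈ range (e + 1), gct c p i * fct (n + 1 - c) (p ^ (e - i)))]
  apply sum_congr rfl
  intro m _
  congr 1
  apply sum_congr rfl
  intro i _
  congr 2
  omega

end Pool.Agent.NH28.UR.Liu
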