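import Pool.Agent.NH28.UR.Stm

/-!
# UR-LIUK (helper15): irreducible subrings have no idempotents
-/

set_option autoImplicit false

namespace Pool.Agent.NH28.UR.Liuk

open Finset Pool.Agent.NH28.UR

theorem smul_mem {ι : Type} {Λ : Subring (ι → ℤ)} {k : ℕ} (h : Λ.toAddSubgroup.index = k)
    (w : ι → ℤ) : k • w ∈ Λ := by
  have h1 := Λ.toAddSubgroup.nsmul_index_mem w
  rw [h] at h1
  exact h1

theorem liuk : S_LIUK := by
  classical
  intro p hp ι _ _ i₀ Λ e hidx
  have hpZ : Prime (p : ℤ) := Nat.prime_iff_prime_int.1 hp
  constructor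
  · intro h S hi₀ hS
    by_contra hne
    have hex : ∃ j, j ∉ S := by
      by_contra hcon
      push Not at hcon
      exact hne (Finset.eq_univ_iff_forall.2 hcon)
    obtain ⟨j, hj⟩ := hex
    have h1 := h _ hS i₀ j
    simp only [if_pos hi₀, if_neg hj, sub_zero] at h1
    exact hpZ.not_dvd_one h1
  · intro h x hx
    have key : ∀ k, (p : ℤ) ∣ x k - x i₀ := by
      intro k
      by_contra hk
      set z : ι → ℤ := x - ((x k : ℤ) : ι → ℤ) with hz
      have hzΛ : z ∈ Λ := Λ.sub_mem hx (intCast_mem Λ (x k))
      have hzl : ∀ l, z l = x l - x k := by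
        intro l
        rw [hz, Pi.sub_apply]
        simp
      set N : ℕ := (p - 1) * p ^ e with hN
      set S : Finset ι := univ.filter fun l => ¬ (p : ℤ) ∣ z l with hS
      have hdiv : ∀ l, ∃ w : ℤ, z l ^ N - (if l ∈ S then (1 : ℤ) else 0) = p ^ e * w := by
        intro l
        by_cases hl : (p : ℤ) ∣ z l
        · have hlS : l ∉ S := by
            rw [hS, Finset.mem_filter]
            exact fun h2 => h2.2 hl
          rw [if_neg hlS, sub_zero]
          have h1 : (p : ℤ) ^ e ∣ z l ^ N := by
            have h2 : e ≤ N := by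
              have h3 : e < p ^ e := Nat.lt_pow_self hp.one_lt
              have h4 : 1 ≤ p - 1 := by have := hp.two_le; omega
              calc e ≤ 1 * p ^ e := by omega
                _ ≤ (p - 1) * p ^ e := Nat.mul_le_mul_right _ h4
            exact (pow_dvd_pow _ h2).trans (pow_dvd_pow_of_dvd hl N)
          obtain ⟨w, hw⟩ := h1
          exact ⟨w, hw⟩
        · have hlS : l ∈ S := by
            rw [hS, Finset.mem_filter]
            exact ⟨Finset.mem_univ _, hl⟩
          rw [if_pos hlS]
          have h1 : (p : ℤ) ∣ z l ^ (p - 1) - 1 := by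
            have h2 := Int.ModEq.pow_card_sub_one_eq_one hp
              (show IsCoprime (z l) (p : ℤ) from
                ((Prime.coprime_iff_not_dvd hpZ).2 hl).symm)
            exact (Int.modEq_iff_dvd.1 h2.symm)
          have h3 := dvd_sub_pow_of_dvd_sub h1 e
          rw [one_pow, ← pow_mul] at h3
          obtain ⟨w, hw⟩ := h3
          refine ⟨p * w, ?_⟩
          rw [hN, hw]
          ring
      choose w hw using hdiv
      have hSΛ : (fun i => if i ∈ S then (1 : ℤ) else 0) ∈ Λ := by
        have h1 : (fun i => if i ∈ S then (1 : ℤ) else 0) = z ^ N - (p ^ e : ℕ) • w := by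
          funext l
          rw [Pi.sub_apply, Pi.pow_apply, Pi.smul_apply, nsmul_eq_mul]
          have := hw l
          push_cast
          linarith
        rw [h1]
        exact Λ.sub_mem (Λ.pow_mem hzΛ N) (smul_mem hidx w)
      have hi₀ : i₀ ∈ S := by
        rw [hS, Finset.mem_filter]
        refine ⟨Finset.mem_univ _, fun h2 => hk ?_⟩
        rw [hzl] at h2
        rw [← neg_sub]
        exact (dvd_neg).2 h2
      have hkS : k ∉ S := by
        rw [hS, Finset.mem_filter]
        intro h2
        apply h2.2
        rw [hzl, sub_self]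
        exact dvd_zero _
      have := h S hi₀ hSΛ
      rw [this] at hkS
      exact hkS (Finset.mem_univ _)
    intro i j
    have h1 : x i - x j = (x i - x i₀) - (x j - x i₀) := by ring
    rw [h1]
    exact dvd_sub (key i) (key j)

end Pool.Agent.NH28.UR.Liuk
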