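import Pool.Agent.NH28.UR.Stm

set_option autoImplicit false

/-!
# Project UR: structure of the lattices with `[M : pM²] = p³`, index `p¹¹`, in `ℤ¹⁰` (UR-NA)
-/

namespace Pool.Agent.NH28.UR.Na

open Finset
open Pool.Agent.NH28.UR

/-! ### reduction -/

/-- reduction modulo `n` -/
def br (n : ℕ) : (Fin 10 → ℤ) →+* (Fin 10 → ZMod n) := (Int.castRingHom (ZMod n)).compLeft (Fin 10)

theorem br_def (n : ℕ) (z : Fin 10 → ℤ) : (fun i => (z i : ZMod n)) = br n z := rfl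

theorem br_surj (n : ℕ) : Function.Surjective (br n) := by
  intro t
  choose f hf using fun i => ZMod.intCast_surjective (t i)
  exact ⟨f, funext hf⟩

theorem br_zero (n : ℕ) (z : Fin 10 → ℤ) : br n z = 0 ↔ ∃ w, z = (n : ℤ) • w := by
  constructor
  · intro h
    have h1 : ∀ i, (n : ℤ) ∣ z i := fun i =>
      (CharP.intCast_eq_zero_iff (ZMod n) n (z i)).1 (congrFun h i)
    choose w hw using h1
    exact ⟨w, funext fun i => by rw [hw]; rfl⟩
  · rintro ⟨w, rfl⟩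
    funext i
    change (((n : ℤ) • w i : ℤ) : ZMod n) = 0
    rw [CharP.intCast_eq_zero_iff (ZMod n) n]
    exact ⟨w i, rfl⟩

theorem br_smul (n : ℕ) (k : ℤ) (z : Fin 10 → ℤ) : br n (k • z) = (k : ZMod n) • br n z := by
  funext i
  change ((k • z i : ℤ) : ZMod n) = (k : ZMod n) * (z i : ZMod n)
  rw [smul_eq_mul]
  push_cast
  rfl

theorem br_one (n : ℕ) : br n 1 = 1 := map_one _

theorem smul_inj {n : ℕ} (hn : n ≠ 0) {z w : Fin 10 → ℤ} (h : (n : ℤ) • z = (n : ℤ) • w) :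
    z = w := by
  funext i
  have h1 := congrFun h i
  have h2 : (n : ℤ) * z i = (n : ℤ) * w i := h1
  exact mul_left_cancel₀ (by exact_mod_cast hn) h2

/-! ### the additive span of products -/

/-- the additive span of the products of two elements -/
def P2 (M : AddSubgroup (Fin 10 → ℤ)) : AddSubgroup (Fin 10 → ℤ) :=
  AddSubgroup.closure {z | ∃ x ∈ M, ∃ y ∈ M, z = x * y}

/-- the additive span of the products of three elements -/
def P3 (M : AddSubgroup (Fin 10 → ℤ)) : AddSubgroup (Fin 10 → ℤ) :=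
  AddSubgroup.closure {z | ∃ x ∈ M, ∃ y ∈ M, ∃ w ∈ M, z = x * y * w}

theorem mul_P2 {M : AddSubgroup (Fin 10 → ℤ)} {x y : Fin 10 → ℤ} (hx : x ∈ M) (hy : y ∈ M) :
    x * y ∈ P2 M := AddSubgroup.subset_closure ⟨x, hx, y, hy, rfl⟩

theorem mul_P3 {M : AddSubgroup (Fin 10 → ℤ)} {q m : Fin 10 → ℤ} (hq : q ∈ P2 M) (hm : m ∈ M) :
    q * m ∈ P3 M := by
  have h : P2 M ≤ (P3 M).comap (AddMonoidHom.mulRight m) := by
    refine (AddSubgroup.closure_le _).2 ?_
    rintro _ ⟨x, hx, y, hy, rfl⟩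
    exact AddSubgroup.subset_closure ⟨x, hx, y, hy, m, hm, rfl⟩
  exact h hq

theorem le_P2 {M : AddSubgroup (Fin 10 → ℤ)} (h1 : (1 : Fin 10 → ℤ) ∈ M) : M ≤ P2 M := by
  intro x hx
  have := mul_P2 hx h1
  rwa [mul_one] at this

theorem P2_le_P3 {M : AddSubgroup (Fin 10 → ℤ)} (h1 : (1 : Fin 10 → ℤ) ∈ M) : P2 M ≤ P3 M := by
  intro x hx
  have := mul_P3 hx h1
  rwa [mul_one] at this

theorem adm_P2 {p : ℕ} {M : AddSubgroup (Fin 10 → ℤ)} (hM : Adm p M) {q : Fin 10 → ℤ}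
    (hq : q ∈ P2 M) : (p : ℤ) • q ∈ M := by
  have h : P2 M ≤ M.comap (DistribSMul.toAddMonoidHom (Fin 10 → ℤ) (p : ℤ)) := by
    refine (AddSubgroup.closure_le _).2 ?_
    rintro _ ⟨x, hx, y, hy, rfl⟩
    exact hM.2 x hx y hy
  exact h hq

theorem adm_P3 {p : ℕ} {M : AddSubgroup (Fin 10 → ℤ)} (hM : Adm p M) {q : Fin 10 → ℤ}
    (hq : q ∈ P3 M) : (p : ℤ) • q ∈ P2 M := by
  have h : P3 M ≤ (P2 M).comap (DistribSMul.toAddMonoidHom (Fin 10 → ℤ) (p : ℤ)) := by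
    refine (AddSubgroup.closure_le _).2 ?_
    rintro _ ⟨x, hx, y, hy, w, hw, rfl⟩
    change (p : ℤ) • (x * y * w) ∈ P2 M
    rw [← smul_mul_assoc]
    exact mul_P2 (hM.2 x hx y hy) hw
  exact h hq

theorem mem_M2 {p : ℕ} {M : AddSubgroup (Fin 10 → ℤ)} {z : Fin 10 → ℤ} :
    z ∈ M2 p M ↔ ∃ q ∈ P2 M, z = (p : ℤ) • q := by
  constructor
  · intro h
    have h1 : M2 p M ≤ (P2 M).map (DistribSMul.toAddMonoidHom (Fin 10 → ℤ) (p : ℤ)) := by
      refine (AddSubgroup.closure_le _).2 ?_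
      rintro _ ⟨x, hx, y, hy, rfl⟩
      exact ⟨x * y, mul_P2 hx hy, rfl⟩
    obtain ⟨q, hq, rfl⟩ := h1 h
    exact ⟨q, hq, rfl⟩
  · rintro ⟨q, hq, rfl⟩
    have h : P2 M ≤ (M2 p M).comap (DistribSMul.toAddMonoidHom (Fin 10 → ℤ) (p : ℤ)) := by
      refine (AddSubgroup.closure_le _).2 ?_
      rintro _ ⟨x, hx, y, hy, rfl⟩
      exact AddSubgroup.subset_closure ⟨x, hx, y, hy, rfl⟩
    exact h hq

/-! ### spans modulo `p` -/

theorem span_lift {p : ℕ} (S : Set (Fin 10 → ZMod p)) (H : AddSubgroup (Fin 10 → ℤ))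
    (h : ∀ t ∈ S, ∃ z ∈ H, br p z = t) :
    ∀ t ∈ Submodule.span (ZMod p) S, ∃ z ∈ H, br p z = t := by
  intro t ht
  induction ht using Submodule.span_induction with
  | mem x hx => exact h x hx
  | zero => exact ⟨0, H.zero_mem, map_zero _⟩
  | add x y _ _ hx hy =>
    obtain ⟨a, ha, rfl⟩ := hx
    obtain ⟨b, hb, rfl⟩ := hy
    exact ⟨a + b, H.add_mem ha hb, map_add _ _ _⟩
  | smul c x _ hx =>
    obtain ⟨a, ha, rfl⟩ := hx
    obtain ⟨k, rfl⟩ := ZMod.intCast_surjective c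
    exact ⟨k • a, H.zsmul_mem ha k, br_smul p k a⟩

theorem closure_br {p : ℕ} (T : Set (Fin 10 → ℤ)) (W : Submodule (ZMod p) (Fin 10 → ZMod p))
    (h : ∀ t ∈ T, br p t ∈ W) : ∀ z ∈ AddSubgroup.closure T, br p z ∈ W := by
  have h1 : AddSubgroup.closure T ≤ W.toAddSubgroup.comap (br p).toAddMonoidHom :=
    (AddSubgroup.closure_le _).2 h
  intro z hz
  exact h1 hz

theorem gen3' (p : ℕ) [Fact p.Prime] (Q : Type) [AddCommGroup Q] [Module (ZMod p) Q]
    [Module.Finite (ZMod p) Q] (hc : Nat.card Q = p ^ 3) (u : Q) (hu : u ≠ 0) :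
    ∃ x y : Q, ∀ q, ∃ a b c : ℤ, q = a • u + b • x + c • y := by
  have hp1 : 1 < p := (Fact.out : p.Prime).one_lt
  have hr : Module.finrank (ZMod p) Q = 3 := by
    have h1 := Module.natCard_eq_pow_finrank (K := ZMod p) (V := Q)
    rw [hc, Nat.card_zmod] at h1
    exact (Nat.pow_right_injective hp1 h1).symm
  have hq : Module.finrank (ZMod p) (Q ⧸ Submodule.span (ZMod p) {u}) = 2 := by
    have h1 := Submodule.finrank_quotient_add_finrank (Submodule.span (ZMod p) {u})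
    rw [finrank_span_singleton hu, hr] at h1
    omega
  obtain ⟨bas⟩ : Nonempty (Module.Basis (Fin 2) (ZMod p) (Q ⧸ Submodule.span (ZMod p) {u})) :=
    ⟨Module.finBasisOfFinrankEq _ _ hq⟩
  obtain ⟨x, hx⟩ := Submodule.mkQ_surjective _ (bas 0)
  obtain ⟨y, hy⟩ := Submodule.mkQ_surjective _ (bas 1)
  refine ⟨x, y, fun q => ?_⟩
  have h1 := bas.sum_repr (Submodule.mkQ _ q)
  rw [Fin.sum_univ_two, ← hx, ← hy] at h1
  obtain ⟨b, hb⟩ := ZMod.intCast_surjective (bas.repr (Submodule.mkQ _ q) 0)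
  obtain ⟨c, hc⟩ := ZMod.intCast_surjective (bas.repr (Submodule.mkQ _ q) 1)
  rw [← hb, ← hc, ← map_smul, ← map_smul, ← map_add] at h1
  have h2 : q - (((b : ℤ) : ZMod p) • x + ((c : ℤ) : ZMod p) • y) ∈
      Submodule.span (ZMod p) {u} := by
    rw [← Submodule.Quotient.mk_eq_zero]
    have h3 : Submodule.mkQ (Submodule.span (ZMod p) {u})
        (q - (((b : ℤ) : ZMod p) • x + ((c : ℤ) : ZMod p) • y)) = 0 := by
      rw [map_sub, h1, sub_self]
    exact h3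
  obtain ⟨a', ha⟩ := Submodule.mem_span_singleton.1 h2
  obtain ⟨a, rfl⟩ := ZMod.intCast_surjective a'
  refine ⟨a, b, c, ?_⟩
  rw [Int.cast_smul_eq_zsmul, Int.cast_smul_eq_zsmul, Int.cast_smul_eq_zsmul] at ha
  rw [ha]
  abel

/-- a group of order `p³` and exponent `p` is generated by a nonzero element and two others -/
theorem gen3 (p : ℕ) [Fact p.Prime] (Q : Type) [AddCommGroup Q] (hp : ∀ q : Q, p • q = 0)
    (hc : Nat.card Q = p ^ 3) (u : Q) (hu : u ≠ 0) :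
    ∃ x y : Q, ∀ q, ∃ a b c : ℤ, q = a • u + b • x + c • y := by
  have hp0 : 0 < p := (Fact.out : p.Prime).pos
  have hF : Finite Q := Nat.finite_of_card_ne_zero (by rw [hc]; positivity)
  let mo : Module (ZMod p) Q := AddCommGroup.zmodModule hp
  have fi : @Module.Finite (ZMod p) Q _ _ mo := @Module.Finite.of_finite (ZMod p) Q _ _ mo _
  exact @gen3' p _ Q _ mo fi hc u hu

/-! ### from `V` to `M` -/

theorem card_sq {p : ℕ} [Fact p.Prime] {V : Submodule (ZMod p) (Fin 10 → ZMod p)}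
    (hV : Vgood V) : Nat.card (sq V) = p ^ 6 := by
  obtain ⟨h1, hc, htop⟩ := hV
  have hu : (⟨1, h1⟩ : V) ≠ 0 := by
    intro h
    have h2 := congrArg Subtype.val h
    have h3 := congrFun h2 0
    exact one_ne_zero h3
  obtain ⟨⟨x, hx⟩, ⟨y, hy⟩, hg⟩ := gen3' p V hc ⟨1, h1⟩ hu
  have hg' : ∀ v ∈ V, ∃ a b c : ℤ, v = a • (1 : Fin 10 → ZMod p) + b • x + c • y := by
    intro v hv
    obtain ⟨a, b, c, h⟩ := hg ⟨v, hv⟩
    exact ⟨a, b, c, congrArg Subtype.val h⟩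
  -- the ten monomials
  obtain ⟨g, hgd⟩ : ∃ g : Fin 10 → (Fin 10 → ZMod p),
      g = ![1, x, y, x * x, x * y, y * y, x * x * x, x * x * y, x * y * y, y * y * y] := ⟨_, rfl⟩
  have e0 : g 0 = 1 := by rw [hgd]; rfl
  have e1 : g 1 = x := by rw [hgd]; rfl
  have e2 : g 2 = y := by rw [hgd]; rfl
  have e3 : g 3 = x * x := by rw [hgd]; rfl
  have e4 : g 4 = x * y := by rw [hgd]; rfl
  have e5 : g 5 = y * y := by rw [hgd]; rfl
  have e6 : g 6 = x * x * x := by rw [hgd]; rfl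
  have e7 : g 7 = x * x * y := by rw [hgd]; rfl
  have e8 : g 8 = x * y * y := by rw [hgd]; rfl
  have e9 : g 9 = y * y * y := by rw [hgd]; rfl
  have hG : ∀ (k : ℤ) (i : Fin 10), k • g i ∈ Submodule.span (ZMod p) (Set.range g) := by
    intro k i
    exact zsmul_mem (Submodule.subset_span (Set.mem_range_self i)) k
  have hsp : ⊤ ≤ Submodule.span (ZMod p) (Set.range g) := by
    rw [← htop]
    refine Submodule.span_le.2 ?_
    rintro _ ⟨v1, hv1, v2, hv2, v3, hv3, rfl⟩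
    obtain ⟨a1, b1, c1, r1⟩ := hg' v1 hv1
    obtain ⟨a2, b2, c2, r2⟩ := hg' v2 hv2
    obtain ⟨a3, b3, c3, r3⟩ := hg' v3 hv3
    have e : v1 * v2 * v3 = (a1 * a2 * a3) • g 0 +
        (b1 * a2 * a3 + a1 * b2 * a3 + a1 * a2 * b3) • g 1 +
        (c1 * a2 * a3 + a1 * c2 * a3 + a1 * a2 * c3) • g 2 +
        (b1 * b2 * a3 + b1 * a2 * b3 + a1 * b2 * b3) • g 3 +
        (b1 * c2 * a3 + c1 * b2 * a3 + b1 * a2 * c3 + c1 * a2 * b3 + a1 * b2 * c3 +
          a1 * c2 * b3) • g 4 +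
        (c1 * c2 * a3 + c1 * a2 * c3 + a1 * c2 * c3) • g 5 +
        (b1 * b2 * b3) • g 6 +
        (b1 * b2 * c3 + b1 * c2 * b3 + c1 * b2 * b3) • g 7 +
        (b1 * c2 * c3 + c1 * b2 * c3 + c1 * c2 * b3) • g 8 +
        (c1 * c2 * c3) • g 9 := by
      rw [r1, r2, r3, e0, e1, e2, e3, e4, e5, e6, e7, e8, e9]
      simp only [zsmul_eq_mul]
      push_cast
      ring
    rw [e]
    exact add_mem (add_mem (add_mem (add_mem (add_mem (add_mem (add_mem (add_mem (add_mem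
      (hG _ _) (hG _ _)) (hG _ _)) (hG _ _)) (hG _ _)) (hG _ _)) (hG _ _)) (hG _ _)) (hG _ _))
      (hG _ _)
  have hli : LinearIndependent (ZMod p) g :=
    linearIndependent_of_top_le_span_of_card_eq_finrank hsp (by simp)
  have hli6 : LinearIndependent (ZMod p) (g ∘ (Fin.castLE (by norm_num : 6 ≤ 10))) :=
    hli.comp _ (Fin.castLE_injective _)
  obtain ⟨g6, hg6⟩ : ∃ g6, g6 = g ∘ (Fin.castLE (by norm_num : 6 ≤ 10)) := ⟨_, rfl⟩
  rw [← hg6] at hli6
  have f0 : g6 0 = 1 := by rw [hg6]; exact e0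
  have f1 : g6 1 = x := by rw [hg6]; exact e1
  have f2 : g6 2 = y := by rw [hg6]; exact e2
  have f3 : g6 3 = x * x := by rw [hg6]; exact e3
  have f4 : g6 4 = x * y := by rw [hg6]; exact e4
  have f5 : g6 5 = y * y := by rw [hg6]; exact e5
  have hG6 : ∀ (k : ℤ) (i : Fin 6), k • g6 i ∈ Submodule.span (ZMod p) (Set.range g6) := by
    intro k i
    exact zsmul_mem (Submodule.subset_span (Set.mem_range_self i)) k
  have hsq : sq V = Submodule.span (ZMod p) (Set.range g6) := by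
    apply le_antisymm
    · refine Submodule.span_le.2 ?_
      rintro _ ⟨v1, hv1, v2, hv2, rfl⟩
      obtain ⟨a1, b1, c1, r1⟩ := hg' v1 hv1
      obtain ⟨a2, b2, c2, r2⟩ := hg' v2 hv2
      have e : v1 * v2 = (a1 * a2) • g6 0 + (b1 * a2 + a1 * b2) • g6 1 +
          (c1 * a2 + a1 * c2) • g6 2 + (b1 * b2) • g6 3 + (b1 * c2 + c1 * b2) • g6 4 +
          (c1 * c2) • g6 5 := by
        rw [r1, r2, f0, f1, f2, f3, f4, f5]
        simp only [zsmul_eq_mul]
        push_cast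
        ring
      rw [e]
      exact add_mem (add_mem (add_mem (add_mem (add_mem
        (hG6 _ _) (hG6 _ _)) (hG6 _ _)) (hG6 _ _)) (hG6 _ _)) (hG6 _ _)
    · refine Submodule.span_le.2 ?_
      rintro _ ⟨i, rfl⟩
      apply Submodule.subset_span
      fin_cases i
      · exact ⟨1, h1, 1, h1, by rw [mul_one]; exact f0⟩
      · exact ⟨x, hx, 1, h1, by rw [mul_one]; exact f1⟩
      · exact ⟨y, hy, 1, h1, by rw [mul_one]; exact f2⟩
      · exact ⟨x, hx, x, hx, f3⟩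
      · exact ⟨x, hx, y, hy, f4⟩
      · exact ⟨y, hy, y, hy, f5⟩
  have hfr : Module.finrank (ZMod p) (sq V) = 6 := by
    rw [hsq, finrank_span_eq_card hli6]
    simp
  have h2 := Module.natCard_eq_pow_finrank (K := ZMod p) (V := sq V)
  rw [h2, hfr, Nat.card_zmod]

theorem index_of_card {p : ℕ} [Fact p.Prime] (W : Submodule (ZMod p) (Fin 10 → ZMod p)) {a : ℕ}
    (h : Nat.card W = p ^ a) (ha : a ≤ 10) : W.toAddSubgroup.index = p ^ (10 - a) := by
  have hp : 0 < p := (Fact.out : p.Prime).pos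
  have h1 := AddSubgroup.card_mul_index W.toAddSubgroup
  have h2 : Nat.card (Fin 10 → ZMod p) = p ^ 10 := by
    rw [Nat.card_fun]
    simp
  have h3 : Nat.card W.toAddSubgroup = p ^ a := h
  rw [h2, h3] at h1
  have h4 : p ^ 10 = p ^ a * p ^ (10 - a) := by rw [← pow_add]; congr 1; omega
  rw [h4] at h1
  exact Nat.eq_of_mul_eq_mul_left (pow_pos hp a) h1

theorem na_mpr (p : ℕ) [Fact p.Prime] (M : AddSubgroup (Fin 10 → ℤ))
    (V : Submodule (ZMod p) (Fin 10 → ZMod p)) (hV : Vgood V) (hM : NV p V M) :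
    Adm p M ∧ M.index = p ^ 11 ∧ (M2 p M).relIndex M = p ^ 3 := by
  have hp0 : p ≠ 0 := (Fact.out : p.Prime).ne_zero
  obtain ⟨m1, m2, m3, m4⟩ := hM
  have m2' : ∀ x ∈ M, br p x ∈ V := m2
  have m3' : ∀ v ∈ V, ∃ x ∈ M, br p x = v := m3
  have m4' : ∀ z : Fin 10 → ℤ, (p : ℤ) • z ∈ M ↔ br p z ∈ sq V := m4
  -- admissible
  have adm : Adm p M := by
    refine ⟨m1, fun x hx y hy => (m4' _).2 ?_⟩
    rw [map_mul]
    exact Submodule.subset_span ⟨_, m2' x hx, _, m2' y hy, rfl⟩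
  -- `p² z ∈ M`
  have psq : ∀ z : Fin 10 → ℤ, (p : ℤ) • ((p : ℤ) • z) ∈ M := by
    intro z
    rw [m4']
    have : br p ((p : ℤ) • z) = 0 := (br_zero p _).2 ⟨z, rfl⟩
    rw [this]
    exact Submodule.zero_mem _
  -- triple products
  have l3 : ∀ z : Fin 10 → ℤ, ∃ m ∈ P3 M, br p m = br p z := by
    intro z
    refine span_lift _ (P3 M) ?_ (br p z) (by rw [hV.2.2]; exact Submodule.mem_top)
    rintro _ ⟨v1, hv1, v2, hv2, v3, hv3, rfl⟩
    obtain ⟨x1, h1, rfl⟩ := m3' v1 hv1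
    obtain ⟨x2, h2, rfl⟩ := m3' v2 hv2
    obtain ⟨x3, h3, rfl⟩ := m3' v3 hv3
    exact ⟨x1 * x2 * x3, mul_P3 (mul_P2 h1 h2) h3, by rw [map_mul, map_mul]⟩
  have dec : ∀ z m : Fin 10 → ℤ, br p m = br p z → ∃ w, z = m + (p : ℤ) • w := by
    intro z m h
    obtain ⟨w, hw⟩ := (br_zero p (z - m)).1 (by rw [map_sub, h, sub_self])
    exact ⟨w, by rw [← hw]; abel⟩
  have top3 : ∀ z : Fin 10 → ℤ, z ∈ P3 M := by
    intro z
    obtain ⟨m, hm, e1⟩ := l3 z
    obtain ⟨w, hw⟩ := dec z m e1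
    obtain ⟨m', hm', e2⟩ := l3 w
    obtain ⟨w', hw'⟩ := dec w m' e2
    rw [hw, hw', smul_add]
    exact add_mem hm (add_mem (zsmul_mem hm' _) (P2_le_P3 m1 (le_P2 m1 (psq w'))))
  have pP2 : ∀ z : Fin 10 → ℤ, (p : ℤ) • z ∈ P2 M := fun z => adm_P3 adm (top3 z)
  have memP2 : ∀ w : Fin 10 → ℤ, w ∈ P2 M ↔ br p w ∈ sq V := by
    intro w
    constructor
    · intro hw
      refine closure_br _ (sq V) ?_ w hw
      rintro _ ⟨x, hx, y, hy, rfl⟩
      rw [map_mul]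
      exact Submodule.subset_span ⟨_, m2' x hx, _, m2' y hy, rfl⟩
    · intro hw
      obtain ⟨m, hm, e⟩ := span_lift _ (P2 M) (by
        rintro _ ⟨v1, hv1, v2, hv2, rfl⟩
        obtain ⟨x1, h1, rfl⟩ := m3' v1 hv1
        obtain ⟨x2, h2, rfl⟩ := m3' v2 hv2
        exact ⟨x1 * x2, mul_P2 h1 h2, map_mul _ _ _⟩) (br p w) hw
      obtain ⟨u, hu⟩ := dec w m e
      rw [hu]
      exact add_mem hm (pP2 u)
  have hM2 : M2 p M = M ⊓ (br p).toAddMonoidHom.ker := by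
    ext z
    rw [mem_M2, AddSubgroup.mem_inf]
    constructor
    · rintro ⟨q, hq, rfl⟩
      exact ⟨(m4' q).2 ((memP2 q).1 hq), (br_zero p _).2 ⟨q, rfl⟩⟩
    · rintro ⟨h1, h2⟩
      obtain ⟨q, rfl⟩ := (br_zero p z).1 h2
      exact ⟨q, (memP2 q).2 ((m4' q).1 h1), rfl⟩
  have hmap : M.map (br p).toAddMonoidHom = V.toAddSubgroup := by
    ext v
    constructor
    · rintro ⟨x, hx, rfl⟩
      exact m2' x hx
    · intro hv
      obtain ⟨x, hx, rfl⟩ := m3' v hv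
      exact ⟨x, hx, rfl⟩
  refine ⟨adm, ?_, ?_⟩
  · -- the index
    have k1 := AddSubgroup.relIndex_mul_index (H := M) (K := M ⊔ (br p).toAddMonoidHom.ker)
      le_sup_left
    rw [AddSubgroup.relIndex_sup_left] at k1
    have k2 : (M ⊔ (br p).toAddMonoidHom.ker).index = p ^ 7 := by
      rw [← AddSubgroup.comap_map_eq, AddSubgroup.index_comap_of_surjective _ (br_surj p), hmap]
      exact index_of_card V hV.2.1 (by norm_num)
    have k3 : (br p).toAddMonoidHom.ker =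
        (DistribSMul.toAddMonoidHom (Fin 10 → ℤ) (p : ℤ)).range := by
      ext z
      constructor
      · intro h
        obtain ⟨w, rfl⟩ := (br_zero p z).1 h
        exact ⟨w, rfl⟩
      · rintro ⟨w, rfl⟩
        exact (br_zero p _).2 ⟨w, rfl⟩
    have k4 : M.comap (DistribSMul.toAddMonoidHom (Fin 10 → ℤ) (p : ℤ)) =
        (sq V).toAddSubgroup.comap (br p).toAddMonoidHom := by
      ext z
      exact m4' z
    have k5 : M.relIndex (br p).toAddMonoidHom.ker = p ^ 4 := by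
      rw [k3, ← AddSubgroup.index_comap, k4, AddSubgroup.index_comap_of_surjective _ (br_surj p)]
      exact index_of_card (sq V) (card_sq hV) (by norm_num)
    rw [k5, k2] at k1
    rw [← k1]
    ring
  · rw [hM2, AddSubgroup.inf_relIndex_left, AddSubgroup.relIndex_ker, hmap]
    exact hV.2.1

/-! ### from `M` to `V` -/

/-- linear combinations -/
def ph (p : ℕ) (x y : Fin 10 → ℤ) : ((Fin 3 → ℤ) × (Fin 3 → ℤ)) →+ (Fin 10 → ℤ) where
  toFun w := w.1 0 • (1 : Fin 10 → ℤ) + w.1 1 • x + w.1 2 • y +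
    (p : ℤ) • (w.2 0 • (x * x) + w.2 1 • (x * y) + w.2 2 • (y * y))
  map_zero' := by simp
  map_add' := by
    intro a b
    simp only [Prod.fst_add, Prod.snd_add, Pi.add_apply, add_smul, smul_add]
    abel

theorem ph_def (p : ℕ) (x y : Fin 10 → ℤ) (w : (Fin 3 → ℤ) × (Fin 3 → ℤ)) :
    ph p x y w = w.1 0 • (1 : Fin 10 → ℤ) + w.1 1 • x + w.1 2 • y +
    (p : ℤ) • (w.2 0 • (x * x) + w.2 1 • (x * y) + w.2 2 • (y * y)) := rfl

/-- reduction of the coefficients -/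
def ka (p : ℕ) : ((Fin 3 → ℤ) × (Fin 3 → ℤ)) →+ (Fin 3 → ZMod (p ^ 2)) × (Fin 3 → ZMod p) :=
  AddMonoidHom.prodMap ((Int.castAddHom (ZMod (p ^ 2))).compLeft (Fin 3))
    ((Int.castAddHom (ZMod p)).compLeft (Fin 3))

theorem compLeft_surj (n k : ℕ) :
    Function.Surjective ((Int.castAddHom (ZMod n)).compLeft (Fin k)) := by
  intro t
  choose f hf using fun i => ZMod.intCast_surjective (t i)
  exact ⟨f, funext hf⟩

theorem compLeft_zero (n k : ℕ) (u : Fin k → ℤ) :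
    (Int.castAddHom (ZMod n)).compLeft (Fin k) u = 0 ↔ ∀ i, (n : ℤ) ∣ u i := by
  constructor
  · intro h i
    exact (CharP.intCast_eq_zero_iff (ZMod n) n (u i)).1 (congrFun h i)
  · intro h
    funext i
    exact (CharP.intCast_eq_zero_iff (ZMod n) n (u i)).2 (h i)

theorem mem_ka (p : ℕ) (w : (Fin 3 → ℤ) × (Fin 3 → ℤ)) :
    w ∈ (ka p).ker ↔ (∀ i, ((p ^ 2 : ℕ) : ℤ) ∣ w.1 i) ∧ ∀ i, (p : ℤ) ∣ w.2 i := by
  rw [AddMonoidHom.mem_ker]
  unfold ka
  rw [AddMonoidHom.coe_prodMap, Prod.map_apply', Prod.mk_eq_zero, compLeft_zero, compLeft_zero]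

theorem ka_index (p : ℕ) [Fact p.Prime] : (ka p).ker.index = p ^ 9 := by
  rw [AddSubgroup.index_ker]
  have h : Function.Surjective (ka p) := by
    unfold ka
    rw [AddMonoidHom.coe_prodMap]
    exact Function.Surjective.prodMap (compLeft_surj _ _) (compLeft_surj _ _)
  rw [AddMonoidHom.range_eq_top.2 h]
  rw [AddSubgroup.card_top, Nat.card_prod, Nat.card_fun, Nat.card_fun]
  simp only [Nat.card_zmod, Nat.card_fin]
  ring

theorem core (p : ℕ) [Fact p.Prime] (M : AddSubgroup (Fin 10 → ℤ)) (x y : Fin 10 → ℤ)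
    (hi : M.index = p ^ 11)
    (h : ∀ m ∈ M, ∃ w, ∃ r : Fin 10 → ℤ, m = ph p x y w + (p : ℤ) • ((p : ℤ) • r)) :
    (∀ w r, ph p x y w + (p : ℤ) • ((p : ℤ) • r) ∈ M) ∧
    ∀ w r, ph p x y w = (p : ℤ) • ((p : ℤ) • r) → (∀ i, ((p ^ 2 : ℕ) : ℤ) ∣ w.1 i) ∧
      ∀ i, (p : ℤ) ∣ w.2 i := by
  have hp : 0 < p := (Fact.out : p.Prime).pos
  have pp : ∀ r : Fin 10 → ℤ, (p : ℤ) • ((p : ℤ) • r) = ((p ^ 2 : ℕ) : ℤ) • r := by
    intro r
    rw [smul_smul]
    congr 1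
    push_cast
    ring
  have bz : ∀ r : Fin 10 → ℤ, br (p ^ 2) ((p : ℤ) • ((p : ℤ) • r)) = 0 := by
    intro r
    exact (br_zero (p ^ 2) _).2 ⟨r, pp r⟩
  obtain ⟨φ, hφ⟩ : ∃ φ, φ = (br (p ^ 2)).toAddMonoidHom.comp (ph p x y) := ⟨_, rfl⟩
  have hφ' : ∀ w, φ w = br (p ^ 2) (ph p x y w) := by
    intro w
    rw [hφ]
    rfl
  have hML : M ≤ φ.range.comap (br (p ^ 2)).toAddMonoidHom := by
    intro m hm
    obtain ⟨w, r, e⟩ := h m hm
    refine ⟨w, ?_⟩
    rw [hφ', e]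
    change _ = br (p ^ 2) _
    rw [map_add, bz, add_zero]
  have hker : (ka p).ker ≤ φ.ker := by
    intro w hw
    obtain ⟨h1, h2⟩ := (mem_ka p w).1 hw
    rw [AddMonoidHom.mem_ker, hφ', br_zero]
    choose u hu using h1
    choose v hv using h2
    refine ⟨u 0 • (1 : Fin 10 → ℤ) + u 1 • x + u 2 • y +
      (v 0 • (x * x) + v 1 • (x * y) + v 2 • (y * y)), ?_⟩
    rw [ph_def, hu, hu, hu, hv, hv, hv, ← pp]
    simp only [smul_add, smul_smul]
    push_cast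
    simp only [pow_two, mul_assoc]
  have N1 : Nat.card φ.range ∣ p ^ 9 := by
    rw [← AddSubgroup.index_ker, ← ka_index p]
    exact AddSubgroup.index_dvd_of_le hker
  have e2 : (φ.range.comap (br (p ^ 2)).toAddMonoidHom).index = φ.range.index :=
    AddSubgroup.index_comap_of_surjective _ (br_surj (p ^ 2))
  have N2 : φ.range.index ∣ p ^ 11 := by
    rw [← e2, ← hi]
    exact AddSubgroup.index_dvd_of_le hML
  have N3 : Nat.card φ.range * φ.range.index = p ^ 20 := by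
    rw [AddSubgroup.card_mul_index, Nat.card_fun]
    simp only [Nat.card_zmod, Nat.card_fin]
    ring
  have L1 := Nat.le_of_dvd (pow_pos hp 9) N1
  have L2 := Nat.le_of_dvd (pow_pos hp 11) N2
  have c0 : 0 < p ^ 9 := pow_pos hp 9
  have c1 : 0 < p ^ 11 := pow_pos hp 11
  have c2 : p ^ 20 = p ^ 9 * p ^ 11 := by ring
  have E1 : Nat.card φ.range = p ^ 9 := by
    by_contra hne
    have h1 : Nat.card φ.range < p ^ 9 := lt_of_le_of_ne L1 hne
    have h2 : Nat.card φ.range * φ.range.index < p ^ 9 * p ^ 11 := by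
      calc Nat.card φ.range * φ.range.index ≤ Nat.card φ.range * p ^ 11 :=
            Nat.mul_le_mul_left _ L2
        _ < p ^ 9 * p ^ 11 := Nat.mul_lt_mul_of_pos_right h1 c1
    rw [N3, c2] at h2
    exact lt_irrefl _ h2
  have E2 : φ.range.index = p ^ 11 := by
    rw [E1, c2] at N3
    exact Nat.eq_of_mul_eq_mul_left c0 N3
  constructor
  · have h1 := AddSubgroup.relIndex_mul_index hML
    rw [e2, E2, hi] at h1
    have h2 : M.relIndex (φ.range.comap (br (p ^ 2)).toAddMonoidHom) = 1 :=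
      Nat.eq_of_mul_eq_mul_right c1 (by rw [h1, one_mul])
    have h3 := AddSubgroup.relIndex_eq_one.1 h2
    intro w r
    refine h3 ⟨w, ?_⟩
    rw [hφ']
    change _ = br (p ^ 2) _
    rw [map_add, bz, add_zero]
  · have h1 := AddSubgroup.relIndex_mul_index hker
    rw [AddSubgroup.index_ker φ, E1, ka_index] at h1
    have h2 : (ka p).ker.relIndex φ.ker = 1 :=
      Nat.eq_of_mul_eq_mul_right c0 (by rw [h1, one_mul])
    have h3 := AddSubgroup.relIndex_eq_one.1 h2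
    intro w r hw
    refine (mem_ka p w).1 (h3 ?_)
    rw [AddMonoidHom.mem_ker, hφ', hw, bz]

theorem na_mp (p : ℕ) [Fact p.Prime] (M : AddSubgroup (Fin 10 → ℤ)) (adm : Adm p M)
    (hi : M.index = p ^ 11) (hr : (M2 p M).relIndex M = p ^ 3) :
    ∃ V : Submodule (ZMod p) (Fin 10 → ZMod p), Vgood V ∧ NV p V M := by
  have hp : 0 < p := (Fact.out : p.Prime).pos
  have hp0 : p ≠ 0 := hp.ne'
  have m1 : (1 : Fin 10 → ℤ) ∈ M := adm.1
  -- generators
  have gen : ∃ x ∈ M, ∃ y ∈ M, ∀ m ∈ M, ∃ (u : Fin 3 → ℤ), ∃ q ∈ P2 M,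
      m = u 0 • (1 : Fin 10 → ℤ) + u 1 • x + u 2 • y + (p : ℤ) • q := by
    have hQ := gen3 p (M ⧸ (M2 p M).addSubgroupOf M) ?_ hr
      (QuotientAddGroup.mk (⟨1, m1⟩ : M)) ?_
    · obtain ⟨x', y', h⟩ := hQ
      obtain ⟨⟨x, hx⟩, rfl⟩ := QuotientAddGroup.mk_surjective x'
      obtain ⟨⟨y, hy⟩, rfl⟩ := QuotientAddGroup.mk_surjective y'
      refine ⟨x, hx, y, hy, fun m hm => ?_⟩
      obtain ⟨a, b, c, e⟩ := h (QuotientAddGroup.mk (⟨m, hm⟩ : M))
      have e' : (QuotientAddGroup.mk (a • (⟨1, m1⟩ : M) + b • (⟨x, hx⟩ : M) + c • (⟨y, hy⟩ : M)) :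
          M ⧸ (M2 p M).addSubgroupOf M) = QuotientAddGroup.mk (⟨m, hm⟩ : M) := by
        rw [e]
        rfl
      have e2 := QuotientAddGroup.eq.1 e'
      rw [AddSubgroup.mem_addSubgroupOf] at e2
      obtain ⟨q, hq, e3⟩ := mem_M2.1 e2
      refine ⟨![a, b, c], q, hq, ?_⟩
      have e4 : -(a • (1 : Fin 10 → ℤ) + b • x + c • y) + m = (p : ℤ) • q := e3
      rw [← e4]
      change m = a • (1 : Fin 10 → ℤ) + b • x + c • y +
        (-(a • (1 : Fin 10 → ℤ) + b • x + c • y) + m)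
      abel
    · intro q
      obtain ⟨⟨m, hm⟩, rfl⟩ := QuotientAddGroup.mk_surjective q
      change (QuotientAddGroup.mk (p • (⟨m, hm⟩ : M)) : M ⧸ (M2 p M).addSubgroupOf M) = 0
      rw [QuotientAddGroup.eq_zero_iff, AddSubgroup.mem_addSubgroupOf]
      refine mem_M2.2 ⟨m, le_P2 m1 hm, ?_⟩
      change p • m = (p : ℤ) • m
      rw [natCast_zsmul]
    · intro h0
      rw [QuotientAddGroup.eq_zero_iff, AddSubgroup.mem_addSubgroupOf] at h0
      obtain ⟨q, -, e⟩ := mem_M2.1 h0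
      have e1 : (1 : ℤ) = (p : ℤ) * q 0 := congrFun e 0
      have h2 : (p : ℤ) ∣ 1 := ⟨q 0, e1⟩
      have h3 : (p : ℤ) ≤ 1 := Int.le_of_dvd one_pos h2
      have h4 := (Fact.out : p.Prime).one_lt
      omega
  obtain ⟨x, hx, y, hy, hgen⟩ := gen
  have hlin : ∀ u : Fin 3 → ℤ, u 0 • (1 : Fin 10 → ℤ) + u 1 • x + u 2 • y ∈ M := fun u =>
    add_mem (add_mem (zsmul_mem m1 _) (zsmul_mem hx _)) (zsmul_mem hy _)
  have hquad : ∀ v : Fin 3 → ℤ, v 0 • (x * x) + v 1 • (x * y) + v 2 • (y * y) ∈ P2 M := fun v =>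
    add_mem (add_mem (zsmul_mem (mul_P2 hx hx) _) (zsmul_mem (mul_P2 hx hy) _))
      (zsmul_mem (mul_P2 hy hy) _)
  -- decomposition of the elements of `P2 M`
  have hP2 : ∀ q ∈ P2 M, ∃ s t : Fin 3 → ℤ, ∃ r ∈ P3 M,
      q = s 0 • (1 : Fin 10 → ℤ) + s 1 • x + s 2 • y +
        (t 0 • (x * x) + t 1 • (x * y) + t 2 • (y * y)) + (p : ℤ) • r := by
    intro q hq
    induction hq using AddSubgroup.closure_induction with
    | mem z hz =>
      obtain ⟨z1, h1, z2, h2, rfl⟩ := hz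
      obtain ⟨u, q1, hq1, e1⟩ := hgen z1 h1
      obtain ⟨v, q2, hq2, e2⟩ := hgen z2 h2
      refine ⟨![u 0 * v 0, u 0 * v 1 + u 1 * v 0, u 0 * v 2 + u 2 * v 0],
        ![u 1 * v 1, u 1 * v 2 + u 2 * v 1, u 2 * v 2],
        q2 * (u 0 • (1 : Fin 10 → ℤ) + u 1 • x + u 2 • y) + q1 * z2,
        add_mem (mul_P3 hq2 (hlin u)) (mul_P3 hq1 h2), ?_⟩
      have e3 : z1 * z2 = (u 0 • (1 : Fin 10 → ℤ) + u 1 • x + u 2 • y) *
          (v 0 • (1 : Fin 10 → ℤ) + v 1 • x + v 2 • y + (p : ℤ) • q2) + ((p : ℤ) • q1) * z2 := by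
        rw [← e2]
        nth_rewrite 1 [e1]
        rw [add_mul]
      rw [e3]
      simp only [Matrix.cons_val_zero, Matrix.cons_val_one, Matrix.cons_val, zsmul_eq_mul]
      push_cast
      ring
    | zero => exact ⟨0, 0, 0, zero_mem _, by simp⟩
    | add a b _ _ ha hb =>
      obtain ⟨s, t, r, hr, rfl⟩ := ha
      obtain ⟨s', t', r', hr', rfl⟩ := hb
      refine ⟨s + s', t + t', r + r', add_mem hr hr', ?_⟩
      simp only [Pi.add_apply, zsmul_eq_mul]
      push_cast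
      ring
    | neg a _ ha =>
      obtain ⟨s, t, r, hr, rfl⟩ := ha
      refine ⟨-s, -t, -r, neg_mem hr, ?_⟩
      simp only [Pi.neg_apply, zsmul_eq_mul]
      push_cast
      ring
  have hdec : ∀ m ∈ M, ∃ w, ∃ r ∈ P3 M, m = ph p x y w + (p : ℤ) • ((p : ℤ) • r) := by
    intro m hm
    obtain ⟨u, q, hq, e⟩ := hgen m hm
    obtain ⟨s, t, r, hr, e'⟩ := hP2 q hq
    refine ⟨(fun i => u i + (p : ℤ) * s i, t), r, hr, ?_⟩
    rw [e, e', ph_def]
    simp only [zsmul_eq_mul]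
    push_cast
    ring
  obtain ⟨hII, hI⟩ := core p M x y hi (fun m hm => by
    obtain ⟨w, r, -, e⟩ := hdec m hm
    exact ⟨w, r, e⟩)
  have psq : ∀ r : Fin 10 → ℤ, (p : ℤ) • ((p : ℤ) • r) ∈ M := by
    intro r
    have := hII 0 r
    rwa [map_zero, zero_add] at this
  -- `p ∣ u` if `p (u · (1, x, y) + ...) ∈ p² ℤ`
  have hI' : ∀ (w : (Fin 3 → ℤ) × (Fin 3 → ℤ)) (r : Fin 10 → ℤ),
      ph p x y w = (p : ℤ) • r → ∀ i, (p : ℤ) ∣ w.1 i := by
    intro w r e i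
    have e2 : ph p x y ((p : ℤ) • w) = (p : ℤ) • ((p : ℤ) • r) := by
      rw [map_zsmul, e]
    have h1 := (hI _ r e2).1 i
    have h2 : ((p ^ 2 : ℕ) : ℤ) ∣ (p : ℤ) * w.1 i := h1
    push_cast at h2
    rw [pow_two] at h2
    exact Int.dvd_of_mul_dvd_mul_left (by exact_mod_cast hp0) h2
  have hbx : ∀ r, br p ((p : ℤ) • r) = 0 := fun r => (br_zero p _).2 ⟨r, rfl⟩
  obtain ⟨V, hVd⟩ : ∃ V, V = AddSubgroup.toZModSubmodule p (M.map (br p).toAddMonoidHom) :=
    ⟨_, rfl⟩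
  have memV : ∀ v, v ∈ V ↔ ∃ m ∈ M, br p m = v := by
    intro v
    rw [hVd]
    rfl
  have brV : ∀ m ∈ M, br p m ∈ V := fun m hm => (memV _).2 ⟨m, hm, rfl⟩
  -- order of `V`
  have cardV : Nat.card V = p ^ 3 := by
    obtain ⟨f, hf⟩ : ∃ f : (Fin 3 → ℤ) →+ (Fin 10 → ZMod p), f =
        ((br p).toAddMonoidHom.comp (ph p x y)).comp (AddMonoidHom.inl _ _) := ⟨_, rfl⟩
    have hf' : ∀ u, f u = br p (ph p x y (u, 0)) := by
      intro u
      rw [hf]
      rfl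
    have e1 : M.map (br p).toAddMonoidHom = f.range := by
      ext v
      constructor
      · rintro ⟨m, hm, rfl⟩
        obtain ⟨w, r, -, e⟩ := hdec m hm
        refine ⟨w.1, ?_⟩
        rw [hf', e]
        change _ = br p _
        rw [map_add, hbx, add_zero, ph_def, ph_def, map_add, map_add _ _ ((p : ℤ) • _), hbx, hbx]
      · rintro ⟨u, rfl⟩
        have := hII (u, 0) 0
        rw [smul_zero, smul_zero, add_zero] at this
        exact ⟨_, this, (hf' u).symm⟩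
    have e2 : f.ker = ((Int.castAddHom (ZMod p)).compLeft (Fin 3)).ker := by
      ext u
      rw [AddMonoidHom.mem_ker, AddMonoidHom.mem_ker, compLeft_zero, hf']
      constructor
      · intro h
        obtain ⟨r, hr⟩ := (br_zero p _).1 h
        exact hI' (u, 0) r hr
      · intro h
        choose v hv using h
        rw [br_zero]
        refine ⟨v 0 • (1 : Fin 10 → ℤ) + v 1 • x + v 2 • y, ?_⟩
        rw [ph_def]
        change u 0 • (1 : Fin 10 → ℤ) + u 1 • x + u 2 • y +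
          (p : ℤ) • ((0 : ℤ) • (x * x) + (0 : ℤ) • (x * y) + (0 : ℤ) • (y * y)) = _
        rw [hv, hv, hv]
        simp only [zero_smul, add_zero, smul_zero, smul_add, smul_smul]
    have e3 : Nat.card V = Nat.card (M.map (br p).toAddMonoidHom) := by
      rw [hVd]
      rfl
    rw [e3, e1, ← AddSubgroup.index_ker, e2, AddSubgroup.index_ker,
      AddMonoidHom.range_eq_top.2 (compLeft_surj p 3), AddSubgroup.card_top, Nat.card_fun]
    simp only [Nat.card_zmod, Nat.card_fin]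
  -- `P3 M` is everything
  have top3 : ∀ z : Fin 10 → ℤ, z ∈ P3 M := by
    intro z
    obtain ⟨w, r, hr, e⟩ := hdec _ (psq z)
    have e1 : ph p x y w = (p : ℤ) • ((p : ℤ) • (z - r)) := by
      rw [smul_sub, smul_sub, e]
      abel
    obtain ⟨h1, h2⟩ := hI w _ e1
    choose u hu using h1
    choose v hv using h2
    have e2 : ph p x y w = (p : ℤ) • ((p : ℤ) • ((u 0 • (1 : Fin 10 → ℤ) + u 1 • x + u 2 • y) +
        (v 0 • (x * x) + v 1 • (x * y) + v 2 • (y * y)))) := by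
      rw [ph_def, hu, hu, hu, hv, hv, hv]
      simp only [zsmul_eq_mul]
      push_cast
      ring
    have e3 : z - r = (u 0 • (1 : Fin 10 → ℤ) + u 1 • x + u 2 • y) +
        (v 0 • (x * x) + v 1 • (x * y) + v 2 • (y * y)) := by
      rw [e1] at e2
      exact smul_inj hp0 (smul_inj hp0 e2)
    have e4 : z = r + ((u 0 • (1 : Fin 10 → ℤ) + u 1 • x + u 2 • y) +
        (v 0 • (x * x) + v 1 • (x * y) + v 2 • (y * y))) := by
      rw [← e3]
      abel
    rw [e4]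
    exact add_mem hr (P2_le_P3 m1 (add_mem (le_P2 m1 (hlin u)) (hquad v)))
  refine ⟨V, ⟨?_, cardV, ?_⟩, m1, brV, fun v hv => (memV v).1 hv, ?_⟩
  · exact (memV 1).2 ⟨1, m1, map_one _⟩
  · rw [eq_top_iff]
    intro t _
    obtain ⟨z, rfl⟩ := br_surj p t
    refine closure_br _ _ ?_ z (top3 z)
    rintro _ ⟨z1, h1, z2, h2, z3, h3, rfl⟩
    rw [map_mul, map_mul]
    exact Submodule.subset_span ⟨_, brV z1 h1, _, brV z2 h2, _, brV z3 h3, rfl⟩
  · intro z
    change (p : ℤ) • z ∈ M ↔ br p z ∈ sq V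
    constructor
    · intro hz
      obtain ⟨w, r, -, e⟩ := hdec _ hz
      have e1 : ph p x y w = (p : ℤ) • (z - (p : ℤ) • r) := by
        rw [smul_sub, e]
        abel
      have h1 := hI' w _ e1
      choose u hu using h1
      have e2 : ph p x y w = (p : ℤ) • ((u 0 • (1 : Fin 10 → ℤ) + u 1 • x + u 2 • y) +
          (w.2 0 • (x * x) + w.2 1 • (x * y) + w.2 2 • (y * y))) := by
        rw [ph_def, hu, hu, hu]
        simp only [zsmul_eq_mul]
        push_cast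
        ring
      have e3 := smul_inj hp0 (e1.symm.trans e2)
      have e4 : z = ((u 0 • (1 : Fin 10 → ℤ) + u 1 • x + u 2 • y) +
          (w.2 0 • (x * x) + w.2 1 • (x * y) + w.2 2 • (y * y))) + (p : ℤ) • r := by
        rw [← e3]
        abel
      rw [e4, map_add, hbx, add_zero]
      refine closure_br {z | ∃ x ∈ M, ∃ y ∈ M, z = x * y} (sq V) ?_ _
        (add_mem (le_P2 m1 (hlin u)) (hquad w.2))
      rintro _ ⟨z1, h1, z2, h2, rfl⟩
      rw [map_mul]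
      exact Submodule.subset_span ⟨_, brV z1 h1, _, brV z2 h2, rfl⟩
    · intro hz
      obtain ⟨z', hz', e⟩ := span_lift _
        (M.comap (DistribSMul.toAddMonoidHom (Fin 10 → ℤ) (p : ℤ))) (by
          rintro _ ⟨v1, hv1, v2, hv2, rfl⟩
          obtain ⟨z1, h1, rfl⟩ := (memV v1).1 hv1
          obtain ⟨z2, h2, rfl⟩ := (memV v2).1 hv2
          exact ⟨z1 * z2, adm.2 z1 h1 z2 h2, map_mul _ _ _⟩) (br p z) hz
      obtain ⟨w, hw⟩ := (br_zero p (z - z')).1 (by rw [map_sub, e, sub_self])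
      have e2 : z = z' + (p : ℤ) • w := by
        rw [← hw]
        abel
      rw [e2, smul_add]
      exact add_mem hz' (psq w)

theorem na : S_NA := by
  intro p _ M
  constructor
  · rintro ⟨h1, h2, h3⟩
    exact na_mp p M h1 h2 h3
  · rintro ⟨V, hV, hM⟩
    exact na_mpr p M V hV hM

end Pool.Agent.NH28.UR.Na
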