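import Pool.Agent.NH28.UR.Vx

/-! Project UR, job UR-NB (helper70): the number of lifts. -/

set_option autoImplicit false
set_option linter.unusedSectionVars false

namespace Pool.Agent.NH28.UR.Nb

open Finset Pool.Agent.NH28.UR Pool.Agent.NH28.UR.Vx

/-- reduction modulo `p` -/
def red (p : ℕ) (z : Fin 10 → ℤ) : W p := fun i => (z i : ZMod p)

theorem red_add (p : ℕ) (z w : Fin 10 → ℤ) : red p (z + w) = red p z + red p w := by
  funext i
  simp [red]

theorem red_neg (p : ℕ) (z : Fin 10 → ℤ) : red p (-z) = -red p z := by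
  funext i
  simp [red]

theorem red_sub (p : ℕ) (z w : Fin 10 → ℤ) : red p (z - w) = red p z - red p w := by
  funext i
  simp [red]

theorem red_smul (p : ℕ) (a : ℤ) (z : Fin 10 → ℤ) : red p (a • z) = (a : ZMod p) • red p z := by
  funext i
  simp [red]

theorem red_one (p : ℕ) : red p 1 = 1 := by
  funext i
  simp [red]

theorem red_zero (p : ℕ) : red p 0 = 0 := by
  funext i
  simp [red]

theorem red_p (p : ℕ) (z : Fin 10 → ℤ) : red p ((p : ℤ) • z) = 0 := by
  funext i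
  simp [red]

theorem red_eq_zero (p : ℕ) {z : Fin 10 → ℤ} (h : red p z = 0) : ∃ w, z = (p : ℤ) • w := by
  have h1 : ∀ i, (p : ℤ) ∣ z i := fun i => by
    rw [← ZMod.intCast_zmod_eq_zero_iff_dvd]
    exact congrFun h i
  choose w hw using h1
  exact ⟨w, funext fun i => by simpa using hw i⟩

section
variable {p : ℕ} [Fact p.Prime]

theorem red_surj : Function.Surjective (red p) := by
  intro v
  refine ⟨fun i => ((v i).val : ℤ), ?_⟩
  funext i
  simp [red]

theorem exists_xy {V : Submodule (ZMod p) (W p)} (hV : Vgood V) :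
    ∃ x y : W p, V = U3 x y ∧ LinearIndependent (ZMod p) (ee x y) := by
  obtain ⟨h1, h2, h3⟩ := hV
  have hp : p.Prime := Fact.out
  have c1 : 0 < Nat.card {x : W p // x ∈ V ∧ x ∉ U1 p} := by
    rw [card_diff (U1_le h1), h2, card_U1]
    have : p ^ 1 < p ^ 3 := Nat.pow_lt_pow_right hp.one_lt (by norm_num)
    rw [pow_one] at this
    omega
  obtain ⟨⟨x, hx, hx1⟩⟩ := (Nat.card_pos_iff.1 c1).1
  have c2 : 0 < Nat.card {y : W p // y ∈ V ∧ y ∉ U2 x} := by
    rw [card_diff (U2_le h1 hx), h2, card_U2 hx1]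
    have : p ^ 2 < p ^ 3 := Nat.pow_lt_pow_right hp.one_lt (by norm_num)
    omega
  obtain ⟨⟨y, hy, hy1⟩⟩ := (Nat.card_pos_iff.1 c2).1
  have h4 : U3 x y = V := (U3_eq_iff h1 h2 x y).2 ⟨⟨hx, hx1⟩, ⟨hy, hy1⟩⟩
  refine ⟨x, y, h4.symm, ?_⟩
  rw [li_span, ← cube_eq, h4]
  exact h3

/-- the six monomials -/
def e6 (x y : W p) : Fin 6 → W p := fun i => ee x y (![2, 4, 5, 7, 8, 9] i)

theorem sq_eq (x y : W p) : UR.sq (U3 x y) = Submodule.span (ZMod p) (Set.range (e6 x y)) := by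
  unfold UR.sq
  apply le_antisymm
  · apply Submodule.span_le.2
    rintro _ ⟨a, ha, b, hb, rfl⟩
    rw [U3_span] at ha hb
    have h1 : a * b ∈ Submodule.span (ZMod p) {1, x, y} * Submodule.span (ZMod p) {1, x, y} :=
      Submodule.mul_mem_mul ha hb
    rw [Submodule.span_mul_span] at h1
    refine Submodule.span_le.2 ?_ h1
    rintro _ ⟨s1, hs1, s2, hs2, rfl⟩
    simp only [Set.mem_insert_iff, Set.mem_singleton_iff] at hs1 hs2
    have hm : ∀ (j : Fin 6) (t : W p), e6 x y j = t → t ∈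
        (Submodule.span (ZMod p) (Set.range (e6 x y)) : Set (W p)) := by
      intro j t ht
      exact Submodule.subset_span ⟨j, ht⟩
    rcases hs1 with rfl | rfl | rfl <;> rcases hs2 with rfl | rfl | rfl <;>
      first
        | (refine hm 5 _ ?_; simp only [e6, ee, Matrix.cons_val]; ring1)
        | (refine hm 2 _ ?_; simp only [e6, ee, Matrix.cons_val]; ring1)
        | (refine hm 4 _ ?_; simp only [e6, ee, Matrix.cons_val]; ring1)
        | (refine hm 0 _ ?_; simp only [e6, ee, Matrix.cons_val]; ring1)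
        | (refine hm 1 _ ?_; simp only [e6, ee, Matrix.cons_val]; done)
        | (refine hm 1 _ ?_; simp only [e6, ee, Matrix.cons_val]; ring1)
        | (refine hm 3 _ ?_; simp only [e6, ee, Matrix.cons_val]; ring1)
  · apply Submodule.span_le.2
    rintro _ ⟨j, rfl⟩
    have h1 := one_U3 x y
    have hx := x_U3 x y
    have hy := y_U3 x y
    have hm : ∀ a ∈ U3 x y, ∀ b ∈ U3 x y, ∀ t, t = a * b →
        t ∈ (Submodule.span (ZMod p) {t | ∃ x' ∈ U3 x y, ∃ y' ∈ U3 x y, t = x' * y'} :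
          Set (W p)) :=
      fun a ha b hb t ht => Submodule.subset_span ⟨a, ha, b, hb, ht⟩
    fin_cases j
    · exact hm x hx x hx _ (by simp [e6, ee]; ring)
    · exact hm x hx y hy _ (by simp [e6, ee])
    · exact hm x hx 1 h1 _ (by simp [e6, ee])
    · exact hm y hy y hy _ (by simp [e6, ee]; ring)
    · exact hm y hy 1 h1 _ (by simp [e6, ee])
    · exact hm 1 h1 1 h1 _ (by simp [e6, ee])

theorem card_sq {x y : W p} (h : LinearIndependent (ZMod p) (ee x y)) :
    Nat.card (UR.sq (U3 x y)) = p ^ 6 := by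
  have h1 : LinearIndependent (ZMod p) (e6 x y) := by
    refine h.comp (![2, 4, 5, 7, 8, 9] : Fin 6 → Fin 10) ?_
    decide
  rw [sq_eq, Module.natCard_eq_pow_finrank (K := ZMod p), finrank_span_eq_card h1, Nat.card_zmod]
  simp

theorem card_quot {x y : W p} (h : LinearIndependent (ZMod p) (ee x y)) :
    Nat.card (W p ⧸ UR.sq (U3 x y)) = p ^ 4 := by
  have h1 := Submodule.card_eq_card_quotient_mul_card (UR.sq (U3 x y))
  rw [card_sq h] at h1
  have h2 : Nat.card (W p) = p ^ 10 := by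
    rw [Nat.card_fun]
    simp
  rw [h2] at h1
  have hp : p.Prime := Fact.out
  have h3 : 0 < p ^ 6 := pow_pos hp.pos 6
  have h4 : p ^ 6 * Nat.card (W p ⧸ UR.sq (U3 x y)) = p ^ 6 * p ^ 4 := by
    rw [← pow_add, ← h1]
  exact Nat.eq_of_mul_eq_mul_left h3 h4

theorem ind3 {x y : W p} (h : LinearIndependent (ZMod p) (ee x y)) (a b c : ZMod p)
    (h0 : a • (1 : W p) + b • x + c • y = 0) : a = 0 ∧ b = 0 ∧ c = 0 := by
  rw [Fintype.linearIndependent_iff] at h
  have h1 := h ![0, 0, 0, 0, 0, b, 0, 0, c, a] (by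
    simp only [Fin.sum_univ_succ, ee]
    simp
    rw [← h0]
    abel)
  refine ⟨?_, ?_, ?_⟩
  · simpa using h1 9
  · simpa using h1 5
  · simpa using h1 8

/-- the lattice -/
def MM (V : Submodule (ZMod p) (W p)) (m m' : Fin 10 → ℤ) : AddSubgroup (Fin 10 → ℤ) where
  carrier := {z | ∃ (a b c : ℤ) (w : Fin 10 → ℤ), red p w ∈ UR.sq V ∧
    z = a • (1 : Fin 10 → ℤ) + b • m + c • m' + (p : ℤ) • w}
  zero_mem' := ⟨0, 0, 0, 0, by rw [red_zero]; exact Submodule.zero_mem _, by simp⟩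
  add_mem' := by
    rintro _ _ ⟨a, b, c, w, hw, rfl⟩ ⟨a', b', c', w', hw', rfl⟩
    refine ⟨a + a', b + b', c + c', w + w', ?_, ?_⟩
    · rw [red_add]
      exact Submodule.add_mem _ hw hw'
    · simp only [add_smul, smul_add]
      abel
  neg_mem' := by
    rintro _ ⟨a, b, c, w, hw, rfl⟩
    refine ⟨-a, -b, -c, -w, ?_, ?_⟩
    · rw [red_neg]
      exact Submodule.neg_mem _ hw
    · simp only [neg_smul, smul_neg]
      abel

theorem V_le_sq {V : Submodule (ZMod p) (W p)} (h1 : (1 : W p) ∈ V) {v : W p} (hv : v ∈ V) :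
    v ∈ UR.sq V := Submodule.subset_span ⟨v, hv, 1, h1, (mul_one v).symm⟩

theorem MM_NV {x y : W p} (h : LinearIndependent (ZMod p) (ee x y)) (m m' : Fin 10 → ℤ)
    (hm : red p m = x) (hm' : red p m' = y) : NV p (U3 x y) (MM (U3 x y) m m') := by
  have h1 := one_U3 x y
  have hx := x_U3 x y
  have hy := y_U3 x y
  refine ⟨?_, ?_, ?_, ?_⟩
  · refine ⟨1, 0, 0, 0, ?_, ?_⟩
    · rw [red_zero]
      exact Submodule.zero_mem _
    · simp
  · rintro _ ⟨a, b, c, w, hw, rfl⟩
    show red p _ ∈ U3 x y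
    rw [red_add, red_add, red_add, red_smul, red_smul, red_smul, red_p, red_one, hm, hm', add_zero]
    exact Submodule.add_mem _ (Submodule.add_mem _ (Submodule.smul_mem _ _ h1)
      (Submodule.smul_mem _ _ hx)) (Submodule.smul_mem _ _ hy)
  · intro v hv
    obtain ⟨u, hu, c, rfl⟩ := mem_ad.1 hv
    obtain ⟨u', hu', b, rfl⟩ := mem_ad.1 hu
    obtain ⟨u'', hu'', a, rfl⟩ := mem_ad.1 hu'
    rw [Submodule.mem_bot] at hu''
    refine ⟨(a.val : ℤ) • (1 : Fin 10 → ℤ) + (b.val : ℤ) • m + (c.val : ℤ) • m' + (p : ℤ) • 0,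
      ⟨a.val, b.val, c.val, 0, ?_, rfl⟩, ?_⟩
    · rw [red_zero]
      exact Submodule.zero_mem _
    · show red p _ = _
      rw [red_add, red_add, red_add, red_smul, red_smul, red_smul, red_p, red_one, hm, hm', hu'']
      simp
  · intro z
    constructor
    · rintro ⟨a, b, c, w, hw, hz⟩
      have h2 := congrArg (red p) hz
      rw [red_p, red_add, red_add, red_add, red_smul, red_smul, red_smul, red_p, red_one, hm, hm',
        add_zero] at h2
      obtain ⟨ha, hb, hc⟩ := ind3 h _ _ _ h2.symm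
      rw [ZMod.intCast_zmod_eq_zero_iff_dvd] at ha hb hc
      obtain ⟨a', rfl⟩ := ha
      obtain ⟨b', rfl⟩ := hb
      obtain ⟨c', rfl⟩ := hc
      have hp0 : (p : ℤ) ≠ 0 := by
        have hp : p.Prime := Fact.out
        exact_mod_cast hp.ne_zero
      have h3 : z = a' • (1 : Fin 10 → ℤ) + b' • m + c' • m' + w := by
        funext i
        have h4 := congrFun hz i
        simp only [Pi.smul_apply, Pi.add_apply, Pi.one_apply, smul_eq_mul] at h4 ⊢
        apply mul_left_cancel₀ hp0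
        linear_combination h4
      show red p z ∈ _
      rw [h3, red_add, red_add, red_add, red_smul, red_smul, red_smul, red_one, hm, hm']
      exact Submodule.add_mem _ (Submodule.add_mem _ (Submodule.add_mem _
        (Submodule.smul_mem _ _ (V_le_sq h1 h1)) (Submodule.smul_mem _ _ (V_le_sq h1 hx)))
        (Submodule.smul_mem _ _ (V_le_sq h1 hy))) hw
    · intro hz
      exact ⟨0, 0, 0, z, hz, by simp⟩

theorem MM_le {V : Submodule (ZMod p) (W p)} {M : AddSubgroup (Fin 10 → ℤ)} (hM : NV p V M)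
    {m m' : Fin 10 → ℤ} (hm : m ∈ M) (hm' : m' ∈ M) : MM V m m' ≤ M := by
  rintro _ ⟨a, b, c, w, hw, rfl⟩
  exact M.add_mem (M.add_mem (M.add_mem (M.zsmul_mem hM.1 _) (M.zsmul_mem hm _))
    (M.zsmul_mem hm' _)) ((hM.2.2.2 w).2 hw)

theorem le_MM {x y : W p} {M : AddSubgroup (Fin 10 → ℤ)} (hM : NV p (U3 x y) M)
    {m m' : Fin 10 → ℤ} (hm : m ∈ M) (hm' : m' ∈ M) (hmx : red p m = x) (hmy : red p m' = y) :
    M ≤ MM (U3 x y) m m' := by
  intro z hz
  have hv : red p z ∈ U3 x y := hM.2.1 z hz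
  obtain ⟨u, hu, c, hc⟩ := mem_ad.1 hv
  obtain ⟨u', hu', b, rfl⟩ := mem_ad.1 hu
  obtain ⟨u'', hu'', a, rfl⟩ := mem_ad.1 hu'
  rw [Submodule.mem_bot] at hu''
  set z' : Fin 10 → ℤ := z - ((a.val : ℤ) • (1 : Fin 10 → ℤ) + (b.val : ℤ) • m +
    (c.val : ℤ) • m') with hz'
  have h1 : red p z' = 0 := by
    rw [hz', red_sub, red_add, red_add, red_smul, red_smul, red_smul, red_one, hmx, hmy, hc, hu'']
    simp
  obtain ⟨w, hw⟩ := red_eq_zero p h1
  have h2 : z' ∈ M := by
    rw [hz']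
    exact M.sub_mem hz (M.add_mem (M.add_mem (M.zsmul_mem hM.1 _) (M.zsmul_mem hm _))
      (M.zsmul_mem hm' _))
  rw [hw] at h2
  refine ⟨a.val, b.val, c.val, w, (hM.2.2.2 w).1 h2, ?_⟩
  rw [← hw, hz']
  abel

end

theorem nb : S_NB := by
  intro p _ V hV
  obtain ⟨x, y, rfl, hli⟩ := exists_xy hV
  obtain ⟨X, hX⟩ := red_surj x
  obtain ⟨Y, hY⟩ := red_surj y
  set Q := W p ⧸ UR.sq (U3 x y) with hQ
  have hlift : ∀ q : Q, ∃ u : Fin 10 → ℤ, (Submodule.Quotient.mk (red p u) : Q) = q := by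
    intro q
    obtain ⟨v, rfl⟩ := Submodule.Quotient.mk_surjective _ q
    obtain ⟨u, rfl⟩ := red_surj v
    exact ⟨u, rfl⟩
  choose l hl using hlift
  have hr : ∀ (z u : Fin 10 → ℤ), red p (z + (p : ℤ) • u) = red p z := by
    intro z u
    rw [red_add, red_p, add_zero]
  set g : Q × Q → {M : AddSubgroup (Fin 10 → ℤ) // NV p (U3 x y) M} := fun q =>
    ⟨MM (U3 x y) (X + (p : ℤ) • l q.1) (Y + (p : ℤ) • l q.2),
      MM_NV hli _ _ ((hr _ _).trans hX) ((hr _ _).trans hY)⟩ with hg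
  have hmem1 : ∀ m m' : Fin 10 → ℤ, m ∈ MM (U3 x y) m m' := fun m m' =>
    ⟨0, 1, 0, 0, by rw [red_zero]; exact Submodule.zero_mem _, by simp⟩
  have hmem2 : ∀ m m' : Fin 10 → ℤ, m' ∈ MM (U3 x y) m m' := fun m m' =>
    ⟨0, 0, 1, 0, by rw [red_zero]; exact Submodule.zero_mem _, by simp⟩
  have hcl : ∀ (M : AddSubgroup (Fin 10 → ℤ)), NV p (U3 x y) M → ∀ z u u' : Fin 10 → ℤ,
      z + (p : ℤ) • u ∈ M → (z + (p : ℤ) • u' ∈ M ↔
        (Submodule.Quotient.mk (red p u) : Q) = Submodule.Quotient.mk (red p u')) := by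
    intro M hM z u u' hu
    rw [Submodule.Quotient.eq, ← red_sub]
    have h1 := hM.2.2.2 (u - u')
    change _ ↔ red p (u - u') ∈ _ at h1
    rw [← h1]
    constructor
    · intro hu'
      have h2 := M.sub_mem hu hu'
      have h3 : z + (p : ℤ) • u - (z + (p : ℤ) • u') = (p : ℤ) • (u - u') := by
        rw [smul_sub]
        abel
      rwa [h3] at h2
    · intro h2
      have h3 : z + (p : ℤ) • u' = (z + (p : ℤ) • u) - (p : ℤ) • (u - u') := by
        rw [smul_sub]
        abel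
      rw [h3]
      exact M.sub_mem hu h2
  have hbij : Function.Bijective g := by
    constructor
    · intro q q' h
      have h1 : MM (U3 x y) (X + (p : ℤ) • l q.1) (Y + (p : ℤ) • l q.2) =
          MM (U3 x y) (X + (p : ℤ) • l q'.1) (Y + (p : ℤ) • l q'.2) := congrArg Subtype.val h
      have hN := (g q).2
      have a1 : X + (p : ℤ) • l q.1 ∈ (g q).1 := hmem1 _ _
      have a2 : Y + (p : ℤ) • l q.2 ∈ (g q).1 := hmem2 _ _
      have b1 : X + (p : ℤ) • l q'.1 ∈ (g q).1 := by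
        rw [h]
        exact hmem1 _ _
      have b2 : Y + (p : ℤ) • l q'.2 ∈ (g q).1 := by
        rw [h]
        exact hmem2 _ _
      have c1 := (hcl _ hN _ _ _ a1).1 b1
      have c2 := (hcl _ hN _ _ _ a2).1 b2
      rw [hl, hl] at c1 c2
      exact Prod.ext c1 c2
    · rintro ⟨M, hM⟩
      obtain ⟨m, hm, hmx⟩ := hM.2.2.1 x (x_U3 x y)
      obtain ⟨m', hm', hmy⟩ := hM.2.2.1 y (y_U3 x y)
      have hex : ∀ (Z z : Fin 10 → ℤ), red p z = red p Z → ∃ u, z = Z + (p : ℤ) • u := by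
        intro Z z h
        have h1 : red p (z - Z) = 0 := by rw [red_sub, h, sub_self]
        obtain ⟨w, hw⟩ := red_eq_zero p h1
        exact ⟨w, by rw [← hw]; abel⟩
      obtain ⟨u, hu⟩ := hex X m (hmx.trans hX.symm)
      obtain ⟨v, hv⟩ := hex Y m' (hmy.trans hY.symm)
      set qu : Q := Submodule.Quotient.mk (red p u) with hqu
      set qv : Q := Submodule.Quotient.mk (red p v) with hqv
      have e1 : X + (p : ℤ) • l qu ∈ M :=
        (hcl M hM X u (l qu) (hu ▸ hm)).2 (hl qu).symm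
      have e2 : Y + (p : ℤ) • l qv ∈ M :=
        (hcl M hM Y v (l qv) (hv ▸ hm')).2 (hl qv).symm
      refine ⟨(qu, qv), Subtype.ext (le_antisymm (MM_le hM e1 e2) ?_)⟩
      exact le_MM hM e1 e2 ((hr _ _).trans hX) ((hr _ _).trans hY)
  rw [← Nat.card_congr (Equiv.ofBijective g hbij), Nat.card_prod, hQ, card_quot hli]
  ring

theorem nThm (hA : S_NA) : S_N := by
  intro p hp
  have : Fact p.Prime := ⟨hp⟩
  have hcard := nb p
  have : Fintype {V : Submodule (ZMod p) (Fin 10 → ZMod p) // Vgood V} := Fintype.ofFinite _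
  have hfin : ∀ V : {V : Submodule (ZMod p) (Fin 10 → ZMod p) // Vgood V},
      Finite {M : AddSubgroup (Fin 10 → ℤ) // NV p V.1 M} := by
    intro V
    apply Nat.finite_of_card_ne_zero
    rw [hcard V.1 V.2]
    exact pow_ne_zero _ hp.ne_zero
  have e : {M : AddSubgroup (Fin 10 → ℤ) // Adm p M ∧ M.index = p ^ 11 ∧
      (M2 p M).relIndex M = p ^ 3} ≃
      (Σ V : {V : Submodule (ZMod p) (Fin 10 → ZMod p) // Vgood V},
        {M : AddSubgroup (Fin 10 → ℤ) // NV p V.1 M}) := by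
    symm
    refine Equiv.ofBijective (fun z => ⟨z.2.1, (hA p z.2.1).2 ⟨z.1.1, z.1.2, z.2.2⟩⟩) ⟨?_, ?_⟩
    · rintro ⟨⟨V, hV⟩, ⟨M, hM⟩⟩ ⟨⟨V', hV'⟩, ⟨M', hM'⟩⟩ h
      have h1 : M = M' := congrArg Subtype.val h
      subst h1
      have h2 : V = V' := by
        ext v
        constructor
        · intro hv
          obtain ⟨z, hz, rfl⟩ := hM.2.2.1 v hv
          exact hM'.2.1 z hz
        · intro hv
          obtain ⟨z, hz, rfl⟩ := hM'.2.2.1 v hv
          exact hM.2.1 z hz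
      subst h2
      rfl
    · rintro ⟨M, hM⟩
      obtain ⟨V, hV, hN⟩ := (hA p M).1 hM
      exact ⟨⟨⟨V, hV⟩, ⟨M, hN⟩⟩, rfl⟩
  unfold Nct
  rw [Nat.card_congr e, Nat.card_sigma, Finset.sum_congr rfl (fun V _ => hcard V.1 V.2),
    Finset.sum_const, Finset.card_univ, smul_eq_mul, mul_comm, ← Nat.card_eq_fintype_card]
  rfl

end Pool.Agent.NH28.UR.Nb
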