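import Pool.Agent.NH28.UR.Stm

/-! UR-OM and UR-SHIFT: sums over one-variable cubics (helper17). -/

set_option autoImplicit false

namespace Pool.Agent.NH28.UR.Om

open Finset Pool.Agent.NH28.UR

variable {p : ℕ} [Fact p.Prime]

/-- functions on `Fin 4` as quadruples -/
def e4 (F : Type) : (Fin 4 → F) ≃ F × F × F × F where
  toFun E := (E 0, E 1, E 2, E 3)
  invFun x := ![x.1, x.2.1, x.2.2.1, x.2.2.2]
  left_inv E := by
    funext i
    fin_cases i <;> rfl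
  right_inv x := rfl

theorem sum4 (f : (Fin 4 → ZMod p) → ℚ) :
    ∑ E : Fin 4 → ZMod p, f E =
      ∑ a : ZMod p, ∑ b : ZMod p, ∑ c : ZMod p, ∑ d : ZMod p, f ![a, b, c, d] := by
  have h1 : ∑ E : Fin 4 → ZMod p, f E = ∑ x : ZMod p × ZMod p × ZMod p × ZMod p, f ((e4 _).symm x) :=
    Fintype.sum_equiv (e4 (ZMod p)) _ _ (fun E => by rw [Equiv.symm_apply_apply])
  rw [h1, Fintype.sum_prod_type]
  refine Finset.sum_congr rfl fun a _ => ?_
  rw [Fintype.sum_prod_type]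
  refine Finset.sum_congr rfl fun b _ => ?_
  rw [Fintype.sum_prod_type]
  rfl

theorem natCast_ne (hp : 5 ≤ p) (n : ℕ) (h0 : 0 < n) (h5 : n < 5) : ((n : ℕ) : ZMod p) ≠ 0 := by
  intro h
  rw [ZMod.natCast_eq_zero_iff] at h
  have := Nat.le_of_dvd h0 h
  omega

theorem three_ne (hp : 5 ≤ p) : (3 : ZMod p) ≠ 0 := by
  have := natCast_ne (p := p) hp 3 (by norm_num) (by norm_num)
  exact_mod_cast this

theorem sE_eq (hp : 5 ≤ p) (a b c d : ZMod p) (ha : a ≠ 0) :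
    sE ![a, b, c, d] = sAB (a * c - b ^ 2 / 3) (a ^ 2 * d + (2 * b ^ 3 / 27 - a * c * b / 3)) := by
  have h3 := three_ne (p := p) hp
  have h27 : (27 : ZMod p) ≠ 0 := by
    have : (27 : ZMod p) = 3 ^ 3 := by norm_num
    rw [this]
    exact pow_ne_zero 3 h3
  unfold sE sAB
  refine Fintype.sum_equiv ((Equiv.mulLeft₀ a ha).trans (Equiv.addRight (b / 3))) _ _ fun w => ?_
  simp only [Equiv.trans_apply, Equiv.mulLeft₀_apply, Equiv.coe_addRight]
  have h1 : quadraticChar (ZMod p) (a ^ 2) = 1 := quadraticChar_sq_one' ha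
  have h2 : (a * w + b / 3) ^ 3 + (a * c - b ^ 2 / 3) * (a * w + b / 3) +
      (a ^ 2 * d + (2 * b ^ 3 / 27 - a * c * b / 3)) =
      a ^ 2 * (a * w ^ 3 + b * w ^ 2 + c * w + d) := by
    field_simp
    ring
  rw [h2, map_mul, h1, one_mul]
  rfl

theorem inner_sum (hp : 5 ≤ p) (Φ : ℚ → ℚ) (a b : ZMod p) (ha : a ≠ 0) :
    ∑ c : ZMod p, ∑ d : ZMod p, Φ (sE ![a, b, c, d]) =
      ∑ A : ZMod p, ∑ B : ZMod p, Φ (sAB A B) := by
  refine Fintype.sum_equiv ((Equiv.mulLeft₀ a ha).trans (Equiv.addRight (-(b ^ 2 / 3)))) _ _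
    fun c => ?_
  refine Fintype.sum_equiv ((Equiv.mulLeft₀ (a ^ 2) (pow_ne_zero 2 ha)).trans
    (Equiv.addRight (2 * b ^ 3 / 27 - a * c * b / 3))) _ _ fun d => ?_
  simp only [Equiv.trans_apply, Equiv.mulLeft₀_apply, Equiv.coe_addRight]
  rw [sE_eq hp a b c d ha, sub_eq_add_neg (a * c) (b ^ 2 / 3)]

theorem om : S_OM := by
  intro p _ hp Φ
  rw [sum4]
  have h1 : ∀ a : ZMod p, (∑ b : ZMod p, ∑ c : ZMod p, ∑ d : ZMod p,
      (if (![a, b, c, d] : Fin 4 → ZMod p) 0 ≠ 0 then Φ (sE ![a, b, c, d]) else 0)) =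
      if a ≠ 0 then (p : ℚ) * ∑ A : ZMod p, ∑ B : ZMod p, Φ (sAB A B) else 0 := by
    intro a
    by_cases ha : a = 0
    · subst ha
      simp
    · have h2 : ∀ b c d : ZMod p,
          (if (![a, b, c, d] : Fin 4 → ZMod p) 0 ≠ 0 then Φ (sE ![a, b, c, d]) else 0) =
            Φ (sE ![a, b, c, d]) := by
        intro b c d
        exact if_pos ha
      simp only [h2]
      rw [if_pos ha, Finset.sum_congr rfl fun b _ => inner_sum hp Φ a b ha]
      rw [Finset.sum_const, Finset.card_univ, ZMod.card, nsmul_eq_mul]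
  rw [Finset.sum_congr rfl fun a _ => h1 a, ← Finset.sum_filter, Finset.sum_const, nsmul_eq_mul]
  have h3 : (#{a : ZMod p | a ≠ 0} : ℚ) = (p : ℚ) - 1 := by
    have h4 : (#{a : ZMod p | a ≠ 0}) = p - 1 := by
      rw [Finset.filter_ne', Finset.card_erase_of_mem (mem_univ _), Finset.card_univ, ZMod.card]
    rw [h4, Nat.cast_sub (by omega), Nat.cast_one]
  rw [h3]
  ring

/-- the shifted cubic -/
def shf (t : ZMod p) (E : Fin 4 → ZMod p) : Fin 4 → ZMod p :=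
  ![E 0, E 1 + 3 * E 0 * t, E 2 + 2 * E 1 * t + 3 * E 0 * t ^ 2,
    E 3 + E 2 * t + E 1 * t ^ 2 + E 0 * t ^ 3]

/-- the shift as a permutation -/
def shE (t : ZMod p) : Equiv.Perm (Fin 4 → ZMod p) where
  toFun := shf t
  invFun := shf (-t)
  left_inv E := by
    funext i
    fin_cases i
    · rfl
    · change E 1 + 3 * E 0 * t + 3 * E 0 * (-t) = E 1
      ring
    · change E 2 + 2 * E 1 * t + 3 * E 0 * t ^ 2 + 2 * (E 1 + 3 * E 0 * t) * (-t) +
        3 * E 0 * (-t) ^ 2 = E 2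
      ring
    · change E 3 + E 2 * t + E 1 * t ^ 2 + E 0 * t ^ 3 +
        (E 2 + 2 * E 1 * t + 3 * E 0 * t ^ 2) * (-t) + (E 1 + 3 * E 0 * t) * (-t) ^ 2 +
        E 0 * (-t) ^ 3 = E 3
      ring
  right_inv E := by
    funext i
    fin_cases i
    · rfl
    · change E 1 + 3 * E 0 * (-t) + 3 * E 0 * t = E 1
      ring
    · change E 2 + 2 * E 1 * (-t) + 3 * E 0 * (-t) ^ 2 + 2 * (E 1 + 3 * E 0 * (-t)) * t +
        3 * E 0 * t ^ 2 = E 2
      ring
    · change E 3 + E 2 * (-t) + E 1 * (-t) ^ 2 + E 0 * (-t) ^ 3 +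
        (E 2 + 2 * E 1 * (-t) + 3 * E 0 * (-t) ^ 2) * t + (E 1 + 3 * E 0 * (-t)) * t ^ 2 +
        E 0 * t ^ 3 = E 3
      ring

theorem sE_shf (t : ZMod p) (E : Fin 4 → ZMod p) : sE (shf t E) = sE E := by
  unfold sE
  refine Fintype.sum_equiv (Equiv.addRight t) _ _ fun w => ?_
  simp only [Equiv.coe_addRight]
  have : shf t E 0 * w ^ 3 + shf t E 1 * w ^ 2 + shf t E 2 * w + shf t E 3 =
      E 0 * (w + t) ^ 3 + E 1 * (w + t) ^ 2 + E 2 * (w + t) + E 3 := by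
    change E 0 * w ^ 3 + (E 1 + 3 * E 0 * t) * w ^ 2 + (E 2 + 2 * E 1 * t + 3 * E 0 * t ^ 2) * w +
      (E 3 + E 2 * t + E 1 * t ^ 2 + E 0 * t ^ 3) = _
    ring
  rw [this]

theorem shift : S_SHIFT := by
  intro p _ hp Φ
  have h1 : ∀ t : ZMod p, (∑ E : Fin 4 → ZMod p, if E 0 ≠ 0 then
      (quadraticChar (ZMod p) (E 3) : ℚ) * Φ (sE E) else 0) =
      ∑ E : Fin 4 → ZMod p, if E 0 ≠ 0 then
        (quadraticChar (ZMod p) (E 0 * t ^ 3 + E 1 * t ^ 2 + E 2 * t + E 3) : ℚ) * Φ (sE E)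
        else 0 := by
    intro t
    symm
    refine Fintype.sum_equiv (shE t) _ _ fun E => ?_
    change _ = (if shf t E 0 ≠ 0 then
      (quadraticChar (ZMod p) (shf t E 3) : ℚ) * Φ (sE (shf t E)) else 0)
    rw [sE_shf]
    have h0 : shf t E 0 = E 0 := rfl
    have h3 : shf t E 3 = E 0 * t ^ 3 + E 1 * t ^ 2 + E 2 * t + E 3 := by
      change E 3 + E 2 * t + E 1 * t ^ 2 + E 0 * t ^ 3 = _
      ring
    rw [h0, h3]
  have h2 : (p : ℚ) * (∑ E : Fin 4 → ZMod p, if E 0 ≠ 0 then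
      (quadraticChar (ZMod p) (E 3) : ℚ) * Φ (sE E) else 0) =
      ∑ E : Fin 4 → ZMod p, if E 0 ≠ 0 then (sE E : ℚ) * Φ (sE E) else 0 := by
    have h3 : (p : ℚ) * (∑ E : Fin 4 → ZMod p, if E 0 ≠ 0 then
      (quadraticChar (ZMod p) (E 3) : ℚ) * Φ (sE E) else 0) =
      ∑ t : ZMod p, (∑ E : Fin 4 → ZMod p, if E 0 ≠ 0 then
        (quadraticChar (ZMod p) (E 3) : ℚ) * Φ (sE E) else 0) := by
      rw [Finset.sum_const, Finset.card_univ, ZMod.card, nsmul_eq_mul]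
    rw [h3, Finset.sum_congr rfl fun t _ => h1 t, Finset.sum_comm]
    refine Finset.sum_congr rfl fun E _ => ?_
    by_cases hE : E 0 ≠ 0
    · simp only [if_pos hE]
      rw [← Finset.sum_mul]
      congr 1
      unfold sE
      push_cast
      rfl
    · simp only [if_neg hE, Finset.sum_const_zero]
  have h4 : ∀ (s : ℚ) (f : (Fin 4 → ZMod p) → ℚ), (∑ E : Fin 4 → ZMod p, if E 0 ≠ 0 then
      (s + f E) * Φ (sE E) else 0) = s * (∑ E : Fin 4 → ZMod p, if E 0 ≠ 0 then Φ (sE E) else 0) +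
      ∑ E : Fin 4 → ZMod p, if E 0 ≠ 0 then f E * Φ (sE E) else 0 := by
    intro s f
    rw [Finset.mul_sum, ← Finset.sum_add_distrib]
    refine Finset.sum_congr rfl fun E _ => ?_
    split_ifs
    · ring
    · ring
  rw [h4, h4, mul_add, h2, one_mul]

end Pool.Agent.NH28.UR.Om
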