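import Pool.Agent.NH28.UR.Stm
import Pool.Agent.NH28.UR.Rat

set_option autoImplicit false

/-!
# Project UR: assembly of part 1
-/

namespace Pool.Agent.NH28.UR.Part1

open Finset Pool.Agent.NH28.UR

/-- `RatF` for natural number valued functions -/
def RatN (f : ℕ → ℕ) : Prop := RatF (fun p => Nat.cast (f p))

theorem RatN.congr {f g : ℕ → ℕ} (hf : RatN f) (h : ∀ p, p.Prime → 5 ≤ p → g p = f p) :
    RatN g :=
  RatF.congr hf fun p hp h5 => by rw [h p hp.out h5]

theorem RatN.add {f g : ℕ → ℕ} (hf : RatN f) (hg : RatN g) : RatN (fun p => f p + g p) :=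
  (RatF.add hf hg).congr fun p _ _ => by push_cast; rfl

theorem RatN.mul {f g : ℕ → ℕ} (hf : RatN f) (hg : RatN g) : RatN (fun p => f p * g p) :=
  (RatF.mul hf hg).congr fun p _ _ => by push_cast; rfl

theorem RatN.const (c : ℕ) : RatN (fun _ => c) := RatF.const (c : ℚ)

theorem RatN.sum {ι : Type} (s : Finset ι) (f : ι → ℕ → ℕ) (h : ∀ i ∈ s, RatN (f i)) :
    RatN (fun p => ∑ i ∈ s, f i p) :=
  (RatF.sum s (fun i p _ => (f i p : ℚ)) h).congr fun p _ _ => by push_cast; rfl

theorem RatN.of_add {f g : ℕ → ℕ} (h : RatN (fun p => f p + g p)) (hf : RatN f) : RatN g :=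
  (RatF.sub h hf).congr fun p _ _ => by push_cast; ring

theorem fct_one (n : ℕ) : fct n 1 = 1 := by
  unfold fct
  rw [Nat.card_eq_one_iff_unique]
  constructor
  · constructor
    rintro ⟨a, ha⟩ ⟨b, hb⟩
    rw [AddSubgroup.index_eq_one] at ha hb
    apply Subtype.ext
    apply SetLike.ext
    intro x
    have h1 : x ∈ a.toAddSubgroup := by rw [ha]; trivial
    have h2 : x ∈ b.toAddSubgroup := by rw [hb]; trivial
    exact ⟨fun _ => h2, fun _ => h1⟩
  · refine ⟨⟨⊤, ?_⟩⟩
    rw [AddSubgroup.index_eq_one]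
    rfl

theorem fct_zero (k : ℕ) : fct 0 k = if k = 1 then 1 else 0 := by
  split_ifs with h
  · rw [h, fct_one]
  · unfold fct
    rw [Nat.card_eq_zero]
    left
    constructor
    rintro ⟨a, ha⟩
    apply h
    rw [← ha, AddSubgroup.index_eq_one]
    rw [AddSubgroup.eq_top_iff']
    intro x
    have : x = 0 := Subsingleton.elim _ _
    rw [this]
    exact zero_mem _

theorem phi_zero (hBad : S_BAD) (r p e : ℕ) (hp : p.Prime) (h : e * e + e < r) :
    phi r (p ^ e) = 0 := by
  unfold phi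
  rw [Nat.card_eq_zero]
  left
  constructor
  rintro ⟨Λ, h1, h2⟩
  have := hBad p hp (Fin r) Λ.toAddSubgroup Λ.toAddSubgroup Λ.one_mem
    (fun x hx y hy => Λ.mul_mem hx hy) e h1
  have h3 : Nat.card {i : Fin r // (Pi.single i 1 : Fin r → ℤ) ∉ Λ.toAddSubgroup} = r := by
    have : Nat.card {i : Fin r // (Pi.single i 1 : Fin r → ℤ) ∉ Λ.toAddSubgroup} =
        Nat.card (Fin r) := by
      apply Nat.card_congr
      exact Equiv.subtypeUnivEquiv (fun i => h2 i)
    rw [this, Nat.card_fin]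
  omega

theorem D_zero (hBad : S_BAD) (r j p s : ℕ) (hp : p.Prime) (h : s * s + s < r) :
    Dct r j p s = 0 := by
  unfold Dct
  rw [Nat.card_eq_zero]
  left
  constructor
  rintro ⟨M, hA, hI, h1, h2⟩
  classical
  let K : AddSubgroup (Fin r ⊕ Fin j → ℤ) := M.comap (zsmulAddGroupHom (p : ℤ))
  have hK : ∀ x, x ∈ K ↔ (p : ℤ) • x ∈ M := fun x => Iff.rfl
  have := hBad p hp (Fin r ⊕ Fin j) M K hA.1 (fun x hx y hy => hA.2 x hx y hy) s hI
  have h3 : r ≤ Nat.card {i : Fin r ⊕ Fin j // (Pi.single i 1 : Fin r ⊕ Fin j → ℤ) ∉ K} := by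
    have h4 : Nat.card (Fin r) ≤
        Nat.card {i : Fin r ⊕ Fin j // (Pi.single i 1 : Fin r ⊕ Fin j → ℤ) ∉ K} := by
      refine Nat.card_le_card_of_injective
        (fun i : Fin r => (⟨Sum.inl i, ?_⟩ : {i : Fin r ⊕ Fin j // _})) ?_
      · rw [hK]
        have : (p : ℤ) • (Pi.single (Sum.inl i) 1 : Fin r ⊕ Fin j → ℤ) =
            Pi.single (Sum.inl i) (p : ℤ) := by
          rw [← Pi.single_smul]
          simp
        rw [this]
        exact h2 i
      · intro a b hab
        simpa using hab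
    rwa [Nat.card_fin] at h4
  omega

/-- `f_n(p^e)` is rational for every `n` and `e` -/
theorem fct_rat (hInterp : S_INTERP) (hBad : S_BAD) (hPhi : S_PHI) (n₀ : ℕ)
    (H : ∀ n, n₀ ≤ n → ∀ e, 1 ≤ e → RatN (fun p => fct n (p ^ e))) (n e : ℕ) :
    RatN (fun p => fct n (p ^ e)) := by
  have h1 : ∀ n, n₀ ≤ n → RatN (fun p => fct n (p ^ e)) := by
    intro n hn
    rcases Nat.eq_zero_or_pos e with he | he
    · subst he
      exact (RatN.const 1).congr fun p _ _ => by rw [pow_zero, fct_one]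
    · exact H n hn e he
  have h2 : ∀ n p : ℕ, p.Prime → fct n (p ^ e) =
      ∑ r ∈ range (e * e + e + 1), n.choose r * phi r (p ^ e) := by
    intro n p hp
    rw [hPhi n (p ^ e) (pow_ne_zero _ hp.ne_zero)]
    rcases le_total (n + 1) (e * e + e + 1) with hle | hle
    · rw [← Finset.sum_subset (Finset.range_mono hle)]
      intro r _ hr
      rw [Finset.mem_range, not_lt] at hr
      rw [Nat.choose_eq_zero_of_lt (by omega), zero_mul]
    · symm
      rw [← Finset.sum_subset (Finset.range_mono hle)]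
      intro r _ hr
      rw [Finset.mem_range, not_lt] at hr
      rw [phi_zero hBad r p e hp (by omega), mul_zero]
  have h3 := hInterp n₀ 0 (e * e + e) (fun n p _ => (fct n (p ^ e) : ℚ))
    (fun _ r p _ => (phi r (p ^ e) : ℚ)) (fun n hn => h1 n hn) (by
      intro p hp _ n _
      rw [h2 n p hp.out]
      push_cast
      simp)
  have h4 : ∀ r ∈ range (e * e + e + 1), RatN (fun p => phi r (p ^ e)) := by
    intro r hr
    rw [Finset.mem_range] at hr
    exact h3 0 le_rfl r (by omega)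
  refine (RatN.sum (range (e * e + e + 1)) (fun r p => n.choose r * phi r (p ^ e))
    (fun r hr => (RatN.const (n.choose r)).mul (h4 r hr))).congr fun p hp _ => ?_
  rw [h2 n p hp]

theorem gct_rat (hLiu : S_LIU) (hf : ∀ n e, RatN (fun p => fct n (p ^ e))) :
    ∀ n e, RatN (fun p => gct (n + 1) p e) := by
  intro n
  induction n using Nat.strong_induction_on with
  | _ n ih =>
    intro e
    have h1 : ∀ p : ℕ, p.Prime → fct (n + 1) (p ^ e) =
        (∑ m ∈ range n, n.choose m *
          ∑ i ∈ range (e + 1), gct (m + 1) p i * fct (n - m) (p ^ (e - i))) +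
          gct (n + 1) p e := by
      intro p hp
      rw [hLiu n p e hp, Finset.sum_range_succ, Nat.choose_self, one_mul, Nat.sub_self]
      congr 1
      rw [Finset.sum_eq_single e]
      · rw [Nat.sub_self, pow_zero, fct_one, mul_one]
      · intro i hi hie
        rw [Finset.mem_range] at hi
        rw [fct_zero, if_neg, mul_zero]
        intro h
        have : e - i ≠ 0 := by omega
        have h2 : 1 < p ^ (e - i) := Nat.one_lt_pow this hp.one_lt
        omega
      · intro h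
        exact absurd (Finset.mem_range.2 (Nat.lt_succ_self e)) h
    refine RatN.of_add ((hf (n + 1) e).congr fun p hp _ => (h1 p hp).symm) ?_
    refine RatN.sum _ _ (fun m hm => (RatN.const _).mul (RatN.sum _ _ fun i _ => ?_))
    exact (ih m (Finset.mem_range.1 hm) i).mul (hf (n - m) (e - i))

/-- `gauss p j b` as a polynomial in `p^j` -/
theorem gauss_poly (p b : ℕ) : ∃ Q : Polynomial ℚ, Q.natDegree ≤ b ∧
    ∀ j : ℕ, gauss p j b = Q.eval ((p : ℚ) ^ j) := by
  refine ⟨∏ i ∈ range b, (Polynomial.C (((p : ℚ) ^ b - (p : ℚ) ^ i)⁻¹) *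
    (Polynomial.X - Polynomial.C ((p : ℚ) ^ i))), ?_, ?_⟩
  · refine (Polynomial.natDegree_prod_le _ _).trans ?_
    refine (Finset.sum_le_sum (g := fun _ => 1) fun i _ => ?_).trans (by simp)
    refine (Polynomial.natDegree_C_mul_le _ _).trans ?_
    exact (Polynomial.natDegree_X_sub_C _).le
  · intro j
    rw [Polynomial.eval_prod]
    unfold gauss
    refine Finset.prod_congr rfl fun i _ => ?_
    simp only [Polynomial.eval_mul, Polynomial.eval_C, Polynomial.eval_sub, Polynomial.eval_X]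
    rw [div_eq_mul_inv, mul_comm]

/-- `Bct r (j+t) p s` is a polynomial in `p^j` of degree at most `s` -/
theorem B_poly (hB0 : S_B0) (hB1 : S_B1) (r t p s : ℕ) (hp : p.Prime) (hrt : 1 ≤ r + t) :
    ∃ Q : Polynomial ℚ, Q.natDegree ≤ s ∧
      ∀ j : ℕ, (Bct r (j + t) p s : ℚ) = Q.eval ((p : ℚ) ^ j) := by
  have hshift : ∀ (Q : Polynomial ℚ) (d t : ℕ), Q.natDegree ≤ d →
      ∃ Q' : Polynomial ℚ, Q'.natDegree ≤ d ∧ ∀ j : ℕ,
        Q.eval ((p : ℚ) ^ (j + t)) = Q'.eval ((p : ℚ) ^ j) := by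
    intro Q d t hQ
    refine ⟨Q.comp (Polynomial.C ((p : ℚ) ^ t) * Polynomial.X), ?_, fun j => ?_⟩
    · refine (Polynomial.natDegree_comp_le).trans ?_
      calc Q.natDegree * (Polynomial.C ((p : ℚ) ^ t) * Polynomial.X).natDegree
          ≤ Q.natDegree * 1 := by
            apply Nat.mul_le_mul_left
            exact (Polynomial.natDegree_C_mul_le _ _).trans Polynomial.natDegree_X.le
        _ ≤ d := by omega
    · rw [Polynomial.eval_comp]
      simp only [Polynomial.eval_mul, Polynomial.eval_C, Polynomial.eval_X]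
      rw [pow_add, mul_comm]
  rcases Nat.eq_zero_or_pos r with hr | hr
  · subst hr
    obtain ⟨Q, hQ, hQe⟩ := gauss_poly p s
    obtain ⟨Q', hQ', hQe'⟩ := hshift Q s (t - 1) hQ
    refine ⟨Q', hQ', fun j => ?_⟩
    have : j + t = (j + (t - 1)) + 1 := by omega
    rw [this, hB0 (j + (t - 1)) p s hp, hQe, hQe']
  · -- sum over `b`
    have hb : ∀ b : ℕ, ∃ Q : Polynomial ℚ, Q.natDegree ≤ b ∧ ∀ j : ℕ,
        gauss p (j + t) b = Q.eval ((p : ℚ) ^ j) := by
      intro b
      obtain ⟨Q, hQ, hQe⟩ := gauss_poly p b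
      obtain ⟨Q', hQ', hQe'⟩ := hshift Q b t hQ
      exact ⟨Q', hQ', fun j => by rw [hQe, hQe']⟩
    choose Q hQ hQe using hb
    refine ⟨∑ b ∈ range (s + 1), Q b * Polynomial.C (∑ k ∈ range r,
      (p : ℚ) ^ (b * k) * (Nct r (s - b) (k + 1) p : ℚ)), ?_, fun j => ?_⟩
    · refine Polynomial.natDegree_sum_le_of_forall_le _ _ fun b hb => ?_
      refine (Polynomial.natDegree_mul_C_le _ _).trans ((hQ b).trans ?_)
      rw [Finset.mem_range] at hb
      omega
    · rw [hB1 r (j + t) p s hp hr, Polynomial.eval_finsetSum]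
      refine Finset.sum_congr rfl fun b _ => ?_
      rw [Polynomial.eval_mul, Polynomial.eval_C, hQe]

/-- `Dct r (j+t) p s` is a polynomial in `p^j` of degree at most `s` -/
theorem D_poly (hB0 : S_B0) (hB1 : S_B1) (hBd : S_BD) (p s : ℕ) (hp : p.Prime) (r : ℕ) :
    ∀ t : ℕ, 1 ≤ r + t → ∃ Q : Polynomial ℚ, Q.natDegree ≤ s ∧
      ∀ j : ℕ, (Dct r (j + t) p s : ℚ) = Q.eval ((p : ℚ) ^ j) := by
  induction r using Nat.strong_induction_on with
  | _ r ih =>
    intro t hrt
    obtain ⟨Q0, hQ0, hQe0⟩ := B_poly hB0 hB1 r t p s hp hrt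
    have h1 : ∀ u : ℕ, u < r → ∃ Q : Polynomial ℚ, Q.natDegree ≤ s ∧
        ∀ j : ℕ, (Dct (r - (u + 1)) (j + (t + (u + 1))) p s : ℚ) = Q.eval ((p : ℚ) ^ j) := by
      intro u hu
      exact ih (r - (u + 1)) (by omega) (t + (u + 1)) (by omega)
    have h2 : ∀ u : ℕ, ∃ Q : Polynomial ℚ, Q.natDegree ≤ s ∧ (u < r →
        ∀ j : ℕ, (Dct (r - (u + 1)) (j + (t + (u + 1))) p s : ℚ) = Q.eval ((p : ℚ) ^ j)) := by
      intro u
      by_cases hu : u < r
      · obtain ⟨Q, hQ, hQe⟩ := h1 u hu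
        exact ⟨Q, hQ, fun _ => hQe⟩
      · exact ⟨0, by simp, fun h => absurd h hu⟩
    choose Q hQ hQe using h2
    refine ⟨Q0 - ∑ u ∈ range r, Polynomial.C (r.choose (u + 1) : ℚ) * Q u, ?_, fun j => ?_⟩
    · refine (Polynomial.natDegree_sub_le _ _).trans (max_le hQ0 ?_)
      refine Polynomial.natDegree_sum_le_of_forall_le _ _ fun u _ => ?_
      exact (Polynomial.natDegree_C_mul_le _ _).trans (hQ u)
    · rw [Polynomial.eval_sub, ← hQe0, Polynomial.eval_finsetSum, hBd r (j + t) p s hp,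
        Finset.sum_range_succ']
      have h3 : ∀ u ∈ range r, Polynomial.eval ((p : ℚ) ^ j)
          (Polynomial.C (r.choose (u + 1) : ℚ) * Q u) =
          ((r.choose (u + 1) * Dct (r - (u + 1)) (j + t + (u + 1)) p s : ℕ) : ℚ) := by
        intro u hu
        rw [Polynomial.eval_mul, Polynomial.eval_C, ← hQe u (Finset.mem_range.1 hu)]
        push_cast
        rw [add_assoc]
      rw [Finset.sum_congr rfl h3]
      push_cast
      simp

/-- all `D(r;j;s)` with `r + j ≥ 1` are rational -/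
theorem D_rat (hInterp : S_INTERP) (hBad : S_BAD) (hB0 : S_B0) (hB1 : S_B1) (hBd : S_BD)
    (hGd : S_GD) (hG : ∀ n s, RatN (fun p => Gct (n + 1) p s)) (s r j : ℕ) (hrj : 1 ≤ r + j) :
    RatN (fun p => Dct r j p s) := by
  by_cases hr : s * s + s < r
  · exact (RatN.const 0).congr fun p hp _ => D_zero hBad r j p s hp hr
  rw [not_lt] at hr
  -- choose the polynomials; for `r = 0` shift by one
  have hpoly : ∀ (r p : ℕ), ∃ Q : Polynomial ℚ, Q.natDegree ≤ s ∧ (p.Prime →
      ∀ j, 1 ≤ r + j → (Dct r j p s : ℚ) = Q.eval ((p : ℚ) ^ j)) := by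
    intro r p
    by_cases hp : p.Prime
    · rcases Nat.eq_zero_or_pos r with h0 | h0
      · subst h0
        obtain ⟨Q, hQ, hQe⟩ := D_poly hB0 hB1 hBd p s hp 0 1 (by omega)
        refine ⟨Q.comp (Polynomial.C ((p : ℚ)⁻¹) * Polynomial.X), ?_, fun _ j hj => ?_⟩
        · refine (Polynomial.natDegree_comp_le).trans ?_
          calc Q.natDegree * (Polynomial.C ((p : ℚ)⁻¹) * Polynomial.X).natDegree
              ≤ Q.natDegree * 1 := by
                apply Nat.mul_le_mul_left
                exact (Polynomial.natDegree_C_mul_le _ _).trans Polynomial.natDegree_X.le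
            _ ≤ s := by omega
        · obtain ⟨j', rfl⟩ : ∃ j', j = j' + 1 := ⟨j - 1, by omega⟩
          rw [hQe j', Polynomial.eval_comp]
          simp only [Polynomial.eval_mul, Polynomial.eval_C, Polynomial.eval_X]
          congr 1
          have : (p : ℚ) ≠ 0 := by exact_mod_cast hp.ne_zero
          field_simp
          ring
      · obtain ⟨Q, hQ, hQe⟩ := D_poly hB0 hB1 hBd p s hp r 0 (by omega)
        exact ⟨Q, hQ, fun _ j _ => by simpa using hQe j⟩
    · exact ⟨0, by simp, fun h => absurd h hp⟩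
  choose Q hQ hQe using hpoly
  have key := hInterp 1 s (s * s + s) (fun n p _ => (Gct n p s : ℚ))
    (fun k r p _ => (Q r p).coeff k * ((p : ℚ) ^ (k * r))⁻¹)
    (fun n hn => by
      obtain ⟨m, rfl⟩ : ∃ m, n = m + 1 := ⟨n - 1, by omega⟩
      exact hG m s) (by
      intro p hp _ n hn
      have hp' := hp.out
      have hp0 : (p : ℚ) ≠ 0 := by exact_mod_cast hp'.ne_zero
      have e1 : (Gct n p s : ℚ) = ∑ r ∈ range (s * s + s + 1),
          (n.choose r : ℚ) * (Dct r (n - r) p s : ℚ) := by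
        have e2 : Gct n p s = ∑ r ∈ range (s * s + s + 1), n.choose r * Dct r (n - r) p s := by
          rw [hGd n p s hp']
          rcases le_total (n + 1) (s * s + s + 1) with hle | hle
          · rw [← Finset.sum_subset (Finset.range_mono hle)]
            intro r _ hr
            rw [Finset.mem_range, not_lt] at hr
            rw [Nat.choose_eq_zero_of_lt (by omega), zero_mul]
          · symm
            rw [← Finset.sum_subset (Finset.range_mono hle)]
            intro r _ hr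
            rw [Finset.mem_range, not_lt] at hr
            rw [D_zero hBad r (n - r) p s hp' (by omega), mul_zero]
        rw [e2]
        push_cast
        rfl
      rw [e1, Finset.sum_comm]
      refine Finset.sum_congr rfl fun r _ => ?_
      by_cases hrn : r ≤ n
      · rw [hQe r p hp' (n - r) (by omega), Polynomial.eval_eq_sum_range' (Nat.lt_succ_of_le (hQ r p)),
          Finset.mul_sum]
        refine Finset.sum_congr rfl fun k _ => ?_
        have e3 : (p : ℚ) ^ (k * n) = ((p : ℚ) ^ (n - r)) ^ k * (p : ℚ) ^ (k * r) := by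
          rw [← pow_mul, ← pow_add]
          congr 1
          have : n = (n - r) + r := by omega
          conv_lhs => rw [this]
          ring
        rw [e3]
        have e4 : (p : ℚ) ^ (k * r) ≠ 0 := pow_ne_zero _ hp0
        field_simp
      · rw [Nat.choose_eq_zero_of_lt (by omega)]
        simp)
  have h5 : RatF (fun p => ∑ k ∈ range (s + 1),
      ((Q r p).coeff k * ((p : ℚ) ^ (k * r))⁻¹) * (p : ℚ) ^ (k * (r + j))) := by
    refine RatF.sum _ (fun k p _ => ((Q r p).coeff k * ((p : ℚ) ^ (k * r))⁻¹) *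
      (p : ℚ) ^ (k * (r + j))) fun k hk => ?_
    exact (key k (by rw [Finset.mem_range] at hk; omega) r hr).mul (RatF.pPow _)
  refine RatF.congr h5 fun p hp _ => ?_
  have hp' := hp.out
  have hp0 : (p : ℚ) ≠ 0 := by exact_mod_cast hp'.ne_zero
  rw [hQe r p hp' j hrj, Polynomial.eval_eq_sum_range' (Nat.lt_succ_of_le (hQ r p))]
  refine Finset.sum_congr rfl fun k _ => ?_
  have e4 : (p : ℚ) ^ (k * r) ≠ 0 := pow_ne_zero _ hp0
  rw [mul_add, pow_add, ← pow_mul, mul_comm j k]
  field_simp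

theorem B_rat (hBd : S_BD) (hD : ∀ s r j, 1 ≤ r + j → RatN (fun p => Dct r j p s))
    (s r j : ℕ) (hrj : 1 ≤ r + j) : RatN (fun p => Bct r j p s) := by
  refine (RatN.sum (range (r + 1)) (fun t p => r.choose t * Dct (r - t) (j + t) p s)
    fun t ht => (RatN.const _).mul (hD s (r - t) (j + t) ?_)).congr fun p hp _ => ?_
  · rw [Finset.mem_range] at ht
    omega
  · rw [hBd r j p s hp]

theorem gauss_zero (p j b : ℕ) (h : j < b) : gauss p j b = 0 := by
  unfold gauss
  exact Finset.prod_eq_zero (Finset.mem_range.2 h) (by rw [sub_self, zero_div])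

theorem gauss_self (p j : ℕ) (hp : p.Prime) : gauss p j j = 1 := by
  unfold gauss
  refine Finset.prod_eq_one fun i hi => div_self ?_
  haveI := Fact.mk hp
  exact primePow_sub_ne p (by rw [Finset.mem_range] at hi; omega)

theorem Nh_rat (hB1 : S_B1) (hB : ∀ s r j, 1 ≤ r + j → RatN (fun p => Bct r j p s))
    (r : ℕ) (hr : 1 ≤ r) : ∀ b s : ℕ, RatF (fun p => ∑ k ∈ range r,
      (p : ℚ) ^ (b * k) * (Nct r s (k + 1) p : ℚ)) := by
  intro b
  induction b using Nat.strong_induction_on with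
  | _ b ih =>
    intro s
    have h1 : RatF (fun p => Nat.cast (Bct r b p (s + b))) := hB (s + b) r b (by omega)
    have h2 : RatF (fun p => ∑ b' ∈ range b, gauss p b b' *
        ∑ k ∈ range r, (p : ℚ) ^ (b' * k) * (Nct r (s + b - b') (k + 1) p : ℚ)) := by
      refine RatF.sum _ (fun b' p _ => gauss p b b' *
        ∑ k ∈ range r, (p : ℚ) ^ (b' * k) * (Nct r (s + b - b') (k + 1) p : ℚ)) fun b' hb' => ?_
      exact (RatF.gauss b b').mul (ih b' (Finset.mem_range.1 hb') (s + b - b'))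
    refine RatF.congr (h1.sub h2) fun p hp _ => ?_
    beta_reduce
    rw [hB1 r b p (s + b) hp.out hr]
    have h3 : s + b + 1 = b + 1 + s := by omega
    rw [h3, Finset.sum_range_add, Finset.sum_range_succ, gauss_self p b hp.out, one_mul,
      Nat.add_sub_cancel]
    have h4 : ∑ x ∈ range s, gauss p b (b + 1 + x) *
        ∑ k ∈ range r, (p : ℚ) ^ ((b + 1 + x) * k) *
          (Nct r (s + b - (b + 1 + x)) (k + 1) p : ℚ) = 0 := by
      refine Finset.sum_eq_zero fun x _ => ?_
      rw [gauss_zero p b (b + 1 + x) (by omega), zero_mul]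
    rw [h4]
    ring

theorem N_rat (hInterp : S_INTERP) (r : ℕ) (hr : 1 ≤ r) (s : ℕ)
    (h : ∀ b : ℕ, RatF (fun p => ∑ k ∈ range r,
      (p : ℚ) ^ (b * k) * (Nct r s (k + 1) p : ℚ))) (k : ℕ) (hk : k < r) :
    RatN (fun p => Nct r s (k + 1) p) := by
  have key := hInterp 0 (r - 1) 0 (fun b p _ => ∑ k ∈ range r,
      (p : ℚ) ^ (b * k) * (Nct r s (k + 1) p : ℚ)) (fun k _ p _ => (Nct r s (k + 1) p : ℚ))
    (fun b _ => h b) (by
      intro p _ _ b _
      have : r - 1 + 1 = r := by omega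
      rw [this]
      refine Finset.sum_congr rfl fun k _ => ?_
      simp [mul_comm])
  exact key k (by omega) 0 le_rfl

theorem X_rat (hInterp : S_INTERP) (hBad : S_BAD) (hPhi : S_PHI) (hLiu : S_LIU) (hGm : S_GM)
    (hGd : S_GD) (hBd : S_BD) (hB0 : S_B0) (hB1 : S_B1) (hN : S_N) (hV : S_V) (n₀ : ℕ)
    (H : ∀ n, n₀ ≤ n → ∀ e, 1 ≤ e → RatN (fun p => fct n (p ^ e))) : RatN Xct := by
  have hf := fct_rat hInterp hBad hPhi n₀ H
  have hg := gct_rat hLiu hf
  have hG : ∀ n s, RatN (fun p => Gct (n + 1) p s) := fun n s =>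
    (hg n (n + s)).congr fun p hp _ => (hGm n p s hp).symm
  have hD := D_rat hInterp hBad hB0 hB1 hBd hGd hG
  have hB := B_rat hBd hD
  have hNh := Nh_rat hB1 hB 10 (by norm_num)
  have hN1 : RatN (fun p => Nct 10 11 3 p) :=
    N_rat hInterp 10 (by norm_num) 11 (fun b => hNh b 11) 2 (by norm_num)
  have h1 : RatF (fun p => ((p : ℚ) ^ 3 - (p : ℚ) ^ 1) * ((p : ℚ) ^ 3 - (p : ℚ) ^ 2) *
      (Nct 10 11 3 p : ℚ) / (p : ℚ) ^ 8) := by
    refine RatF.div (RatF.mul (RatF.mul ((RatF.pPow 3).sub (RatF.pPow 1))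
      ((RatF.pPow 3).sub (RatF.pPow 2))) hN1) (RatF.pPow 8) ?_
    intro p hp _
    exact pow_ne_zero _ (by exact_mod_cast hp.out.ne_zero)
  refine RatF.congr h1 fun p hp h5 => ?_
  have hp0 : (p : ℚ) ≠ 0 := by exact_mod_cast hp.out.ne_zero
  rw [hN p hp.out, ← hV p]
  have e1 : p ≤ p ^ 3 := by
    calc p = p ^ 1 := (pow_one p).symm
      _ ≤ p ^ 3 := Nat.pow_le_pow_right hp.out.pos (by norm_num)
  have e2 : p ^ 2 ≤ p ^ 3 := Nat.pow_le_pow_right hp.out.pos (by norm_num)
  rw [Nat.cast_mul, Nat.cast_mul, Nat.cast_mul, Nat.cast_sub e1, Nat.cast_sub e2]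
  push_cast
  field_simp

end Pool.Agent.NH28.UR.Part1
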