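import Pool.Agent.NH28.UR.Stm

set_option autoImplicit false

namespace Pool.Agent.NH28.UR.Phi

open Pool.Agent.NH28.UR Finset

variable {n r : ℕ}

/-- restriction along a map of index sets -/
def res (f : Fin r → Fin n) : (Fin n → ℤ) →+* (Fin r → ℤ) where
  toFun x i := x (f i)
  map_zero' := rfl
  map_one' := rfl
  map_add' _ _ := rfl
  map_mul' _ _ := rfl

lemma res_apply (f : Fin r → Fin n) (x : Fin n → ℤ) (i : Fin r) : res f x i = x (f i) := rfl

lemma res_surj (f : Fin r → Fin n) (hf : Function.Injective f) : Function.Surjective (res f) := by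
  intro y
  obtain ⟨x, hx⟩ := hf.surjective_comp_right (γ := ℤ) y
  exact ⟨x, hx⟩

lemma res_single (f : Fin r → Fin n) (hf : Function.Injective f) (j : Fin r) :
    res f (Pi.single (f j) 1) = Pi.single j 1 := by
  funext i
  rw [res_apply]
  by_cases h : i = j
  · subst h; rw [Pi.single_eq_same, Pi.single_eq_same]
  · rw [Pi.single_eq_of_ne h, Pi.single_eq_of_ne (fun h' => h (hf h'))]

lemma res_single_zero (f : Fin r → Fin n) (i : Fin n) (hi : ∀ j, f j ≠ i) :
    res f (Pi.single i 1) = 0 := by
  funext j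
  rw [res_apply, Pi.single_eq_of_ne (hi j)]; rfl

lemma mem_of_res (f : Fin r → Fin n) (L : Subring (Fin n → ℤ))
    (hL : ∀ i, (∀ j, f j ≠ i) → (Pi.single i 1 : Fin n → ℤ) ∈ L) (x : Fin n → ℤ)
    (hx : res f x = 0) : x ∈ L := by
  have e : x = ∑ i, (x i) • (Pi.single i 1 : Fin n → ℤ) := by
    funext k
    rw [Finset.sum_apply, Finset.sum_eq_single k]
    · simp
    · intro b _ hb
      simp [Pi.single_eq_of_ne (Ne.symm hb)]
    · intro h; exact absurd (mem_univ _) h
  rw [e]
  refine L.sum_mem fun i _ => ?_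
  by_cases h : ∀ j, f j ≠ i
  · exact L.toAddSubgroup.zsmul_mem (hL i h) _
  · push Not at h
    obtain ⟨j, rfl⟩ := h
    have : x (f j) = 0 := congrFun hx j
    rw [this, zero_smul]
    exact L.zero_mem

lemma comap_map (f : Fin r → Fin n) (L : Subring (Fin n → ℤ))
    (hL : ∀ i, (∀ j, f j ≠ i) → (Pi.single i 1 : Fin n → ℤ) ∈ L) :
    (L.map (res f)).comap (res f) = L := by
  ext x
  rw [Subring.mem_comap, Subring.mem_map]
  constructor
  · rintro ⟨y, hy, h⟩
    have : x - y ∈ L := mem_of_res f L hL _ (by rw [map_sub, h, sub_self])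
    have h2 := L.add_mem this hy
    rwa [sub_add_cancel] at h2
  · intro hx
    exact ⟨x, hx, rfl⟩

lemma map_comap (f : Fin r → Fin n) (hf : Function.Injective f) (L : Subring (Fin r → ℤ)) :
    (L.comap (res f)).map (res f) = L := by
  ext y
  rw [Subring.mem_map]
  constructor
  · rintro ⟨x, hx, rfl⟩; exact hx
  · intro hy
    obtain ⟨x, rfl⟩ := res_surj f hf y
    exact ⟨x, hy, rfl⟩

lemma index_comap (f : Fin r → Fin n) (hf : Function.Injective f) (L : Subring (Fin r → ℤ)) :
    (L.comap (res f)).toAddSubgroup.index = L.toAddSubgroup.index :=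
  AddSubgroup.index_comap_of_surjective (f := (res f).toAddMonoidHom) L.toAddSubgroup (res_surj f hf)

/-- the set of coordinates whose unit vector is missing -/
noncomputable def mis (L : Subring (Fin n → ℤ)) : Finset (Fin n) := by
  classical exact univ.filter fun i => (Pi.single i 1 : Fin n → ℤ) ∉ L

lemma mem_mis (L : Subring (Fin n → ℤ)) (i : Fin n) :
    i ∈ mis L ↔ (Pi.single i 1 : Fin n → ℤ) ∉ L := by
  unfold mis; simp

lemma fibre (k : ℕ) (S : Finset (Fin n)) :
    Nat.card {L : {L : Subring (Fin n → ℤ) // L.toAddSubgroup.index = k} // mis L.1 = S}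
      = phi S.card k := by
  classical
  let f : Fin S.card → Fin n := fun j => S.orderEmbOfFin rfl j
  have hf : Function.Injective f := (S.orderEmbOfFin rfl).injective
  have hfS : ∀ i, i ∉ S ↔ ∀ j, f j ≠ i := by
    intro i
    constructor
    · intro h j hj
      exact h (hj ▸ Finset.orderEmbOfFin_mem S rfl j)
    · intro h hi
      have : i ∈ Set.range (S.orderEmbOfFin rfl) := by
        rw [Finset.range_orderEmbOfFin]; exact hi
      obtain ⟨j, hj⟩ := this
      exact h j hj
  have hmis : ∀ L : Subring (Fin n → ℤ), mis L = S →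
      ∀ i, (∀ j, f j ≠ i) → (Pi.single i 1 : Fin n → ℤ) ∈ L := by
    intro L hL i hi
    have h1 : i ∉ mis L := by rw [hL]; exact (hfS i).2 hi
    rw [mem_mis, not_not] at h1
    exact h1
  unfold phi
  refine Nat.card_congr
    { toFun := fun L => ⟨L.1.1.map (res f), ?_, ?_⟩
      invFun := fun L => ⟨⟨L.1.comap (res f), (index_comap f hf L.1).trans L.2.1⟩, ?_⟩
      left_inv := fun L => Subtype.ext (Subtype.ext (comap_map f L.1.1 (hmis _ L.2)))
      right_inv := fun L => Subtype.ext (map_comap f hf L.1) }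
  · have h1 := index_comap f hf (L.1.1.map (res f))
    have h2 := comap_map f L.1.1 (hmis _ L.2)
    exact h1.symm.trans ((congrArg (fun M : Subring (Fin n → ℤ) => M.toAddSubgroup.index) h2).trans L.1.2)
  · intro i hi
    have h2 := comap_map f L.1.1 (hmis _ L.2)
    have h3 : (Pi.single (f i) 1 : Fin n → ℤ) ∈ (L.1.1.map (res f)).comap (res f) := by
      rw [Subring.mem_comap, res_single f hf]; exact hi
    rw [h2] at h3
    have h4 : f i ∈ mis L.1.1 := by
      rw [L.2]; exact Finset.orderEmbOfFin_mem S rfl i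
    exact (mem_mis _ _).1 h4 h3
  · ext i
    rw [mem_mis]
    change ((Pi.single i 1 : Fin n → ℤ) ∉ L.1.comap (res f)) ↔ i ∈ S
    rw [Subring.mem_comap]
    constructor
    · intro h
      by_contra hi
      exact h (by rw [res_single_zero f i ((hfS i).1 hi)]; exact L.1.zero_mem)
    · intro hi
      have : ∃ j, f j = i := by
        by_contra hc
        push Not at hc
        exact (hfS i).2 hc hi
      obtain ⟨j, rfl⟩ := this
      rw [res_single f hf]
      exact L.2.2 j

theorem phiThm (hF : S_FIN) : S_PHI := by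
  classical
  intro n k hk
  have hfin : Finite {L : Subring (Fin n → ℤ) // L.toAddSubgroup.index = k} := by
    have := hF (Fin n) k hk
    refine Finite.of_injective
      (fun L : {L : Subring (Fin n → ℤ) // L.toAddSubgroup.index = k} =>
        (⟨L.1.toAddSubgroup, L.2⟩ : {M : AddSubgroup (Fin n → ℤ) // M.index = k})) ?_
    intro L M h
    have h1 := congrArg Subtype.val h
    apply Subtype.ext
    exact Subring.toAddSubgroup_injective h1
  unfold fct
  rw [← Nat.card_congr (Equiv.sigmaFiberEquiv
    (fun L : {L : Subring (Fin n → ℤ) // L.toAddSubgroup.index = k} => mis L.1))]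
  rw [Nat.card_sigma]
  rw [Finset.sum_congr rfl (fun S _ => fibre k S)]
  have h := Finset.sum_powerset_apply_card (fun m => phi m k) (x := (univ : Finset (Fin n)))
  rw [Finset.powerset_univ, Finset.card_univ, Fintype.card_fin] at h
  rw [h]
  rfl

end Pool.Agent.NH28.UR.Phi
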