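import Pool.Agent.NH28.UR.Stm

set_option autoImplicit false

/-!
# UR-POLY: an integer valued rational function of polynomial growth is a polynomial
-/

namespace Pool.Agent.NH28.UR.Polyn

open Pool.Agent.NH28.UR Finset Polynomial Filter Topology

lemma int_eval (Q : ℚ[X]) : ∃ D : ℕ, D ≠ 0 ∧ ∀ p : ℕ, ∃ m : ℤ, (D : ℚ) * Q.eval (p : ℚ) = m := by
  refine ⟨∏ i ∈ range (Q.natDegree + 1), (Q.coeff i).den, ?_, fun p => ?_⟩
  · exact Finset.prod_ne_zero_iff.2 fun i _ => (Q.coeff i).den_nz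
  · rw [Polynomial.eval_eq_sum_range, Finset.mul_sum]
    refine Finset.sum_induction _ (fun x : ℚ => ∃ m : ℤ, x = m) ?_ ⟨0, by simp⟩ ?_
    · rintro a b ⟨m, rfl⟩ ⟨m', rfl⟩
      exact ⟨m + m', by push_cast; ring⟩
    · intro i hi
      obtain ⟨k, hk⟩ := Finset.dvd_prod_of_mem (fun i => (Q.coeff i).den) hi
      rw [hk]
      refine ⟨(k : ℤ) * (Q.coeff i).num * (p : ℤ) ^ i, ?_⟩
      have h1 : (Q.coeff i) * ((Q.coeff i).den : ℚ) = (Q.coeff i).num := Rat.mul_den_eq_num _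
      push_cast
      rw [← h1]
      ring

/-- a polynomial with zeros at all large primes is zero -/
lemma eq_zero_of_primes {R : ℚ[X]} {N : ℕ} (h : ∀ p : ℕ, p.Prime → N ≤ p → R.eval (p : ℚ) = 0) :
    R = 0 := by
  refine Polynomial.eq_zero_of_infinite_isRoot R ?_
  have h1 : ({p : ℕ | p.Prime} \ Set.Iio N).Infinite :=
    Nat.infinite_setOf_prime.diff (Set.finite_Iio N)
  have h2 : ((fun p : ℕ => (p : ℚ)) '' ({p : ℕ | p.Prime} \ Set.Iio N)).Infinite :=
    h1.image (fun a _ b _ e => by exact_mod_cast e)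
  refine h2.mono ?_
  rintro _ ⟨p, hp, rfl⟩
  rw [Set.mem_setOf_eq, Polynomial.IsRoot.def]
  exact h p hp.1 (by simpa using hp.2)

theorem polyn : S_POLY := by
  intro F d C hF hint hgr
  obtain ⟨A, B, hAB⟩ := hF
  have hB : B ≠ 0 := by
    intro h0
    have : Fact (Nat.Prime 5) := ⟨by norm_num⟩
    have := (hAB 5 le_rfl).1
    rw [h0] at this
    simp at this
  have hdm := EuclideanDomain.div_add_mod A B
  set Q := A / B with hQ
  set R := A % B with hR
  have hRd : R.degree < B.degree := Polynomial.degree_mod_lt A hB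
  have hval : ∀ (p : ℕ) [Fact p.Prime], 5 ≤ p → F p = Q.eval (p : ℚ) +
      R.eval (p : ℚ) / B.eval (p : ℚ) := by
    intro p _ hp
    obtain ⟨h1, h2⟩ := hAB p hp
    rw [h2, ← hdm, Polynomial.eval_add, Polynomial.eval_mul]
    field_simp
  obtain ⟨D, hD0, hD⟩ := int_eval Q
  have hDq : (0:ℚ) < D := by exact_mod_cast Nat.pos_of_ne_zero hD0
  -- the remainder vanishes
  have ht : Tendsto (fun x : ℚ => R.eval x / B.eval x) atTop (𝓝 0) :=
    Polynomial.div_tendsto_zero_of_degree_lt R B hRd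
  have ht2 : Tendsto (fun n : ℕ => (D : ℚ) * (R.eval (n : ℚ) / B.eval (n : ℚ))) atTop (𝓝 0) := by
    have := (ht.comp (tendsto_natCast_atTop_atTop (R := ℚ))).const_mul (D : ℚ)
    rw [mul_zero] at this
    exact this
  obtain ⟨N, hN⟩ := eventually_atTop.1 ((Metric.tendsto_nhds.1 ht2) 1 one_pos)
  have hR0 : R = 0 := by
    refine eq_zero_of_primes (N := max N 5) fun p hp hpN => ?_
    have : Fact p.Prime := ⟨hp⟩
    have hp5 : 5 ≤ p := (le_max_right _ _).trans hpN
    obtain ⟨m, hm⟩ := hint p hp5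
    obtain ⟨m', hm'⟩ := hD p
    have h1 := hval p hp5
    have h2 : (D : ℚ) * (R.eval (p : ℚ) / B.eval (p : ℚ)) = ((D * m - m' : ℤ) : ℚ) := by
      push_cast
      rw [← hm', ← hm, h1]
      ring
    have h3 := hN p ((le_max_left _ _).trans hpN)
    rw [dist_zero_right, h2] at h3
    have h4 : |(D * m - m' : ℤ)| < 1 := by
      have h5 : ‖((D * m - m' : ℤ) : ℚ)‖ = |((D * m - m' : ℤ) : ℝ)| := by
        rw [← Rat.norm_cast_real, Real.norm_eq_abs]
        push_cast
        rfl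
      rw [h5] at h3
      exact_mod_cast h3
    have h5 : (D * m - m' : ℤ) = 0 := Int.abs_lt_one_iff.1 h4
    rw [h5, Int.cast_zero, mul_eq_zero, div_eq_zero_iff] at h2
    rcases h2 with h2 | h2 | h2
    · exact absurd h2 hDq.ne'
    · exact h2
    · exact absurd h2 (hAB p hp5).1
  have hFQ : ∀ (p : ℕ) [Fact p.Prime], 5 ≤ p → F p = Q.eval (p : ℚ) := by
    intro p _ hp
    rw [hval p hp, hR0]
    simp
  refine ⟨Q, ?_, hFQ⟩
  by_contra hdeg
  push Not at hdeg
  have hQ0 : Q ≠ 0 := by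
    intro h0
    rw [h0, Polynomial.natDegree_zero] at hdeg
    omega
  have hXd : (X ^ d : ℚ[X]).degree < Q.degree := by
    rw [Polynomial.degree_X_pow, Polynomial.degree_eq_natDegree hQ0]
    exact_mod_cast hdeg
  have ht3 : Tendsto (fun n : ℕ => (X ^ d : ℚ[X]).eval (n : ℚ) / Q.eval (n : ℚ)) atTop (𝓝 0) :=
    (Polynomial.div_tendsto_zero_of_degree_lt (X ^ d) Q hXd).comp
      (tendsto_natCast_atTop_atTop (R := ℚ))
  have hC1 : (0:ℚ) < |C| + 1 := by positivity
  obtain ⟨N', hN'⟩ := eventually_atTop.1 ((ht3.abs).eventually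
    (gt_mem_nhds (show |(0:ℚ)| < 1 / (|C| + 1) by rw [abs_zero]; positivity)))
  apply hQ0
  refine eq_zero_of_primes (N := max N' 5) fun p hp hpN => ?_
  by_contra hne
  have : Fact p.Prime := ⟨hp⟩
  have hp5 : 5 ≤ p := (le_max_right _ _).trans hpN
  have h1 := hN' p ((le_max_left _ _).trans hpN)
  have h2 := hgr p hp5
  rw [hFQ p hp5] at h2
  have hpp : (0:ℚ) < (p:ℚ) ^ d := by
    have : (0:ℚ) < p := by exact_mod_cast hp.pos
    positivity
  have hqa : 0 < |Q.eval (p : ℚ)| := abs_pos.2 hne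
  rw [Polynomial.eval_pow, Polynomial.eval_X, abs_div, abs_of_pos hpp,
    div_lt_div_iff₀ hqa hC1] at h1
  have h3 : C * (p:ℚ) ^ d ≤ |C| * (p:ℚ) ^ d := mul_le_mul_of_nonneg_right (le_abs_self C) hpp.le
  linarith

end Pool.Agent.NH28.UR.Polyn
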