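import Pool.Agent.NH28.UR.Stm

set_option autoImplicit false

/-!
# Project UR: lines with four points split off from cubics; affine functions vanishing on a set
-/

namespace Pool.Agent.NH28.UR.Red

open Finset Pool.Agent.NH28.UR

/-- splitting off a line, abstract form -/
theorem split {F α β : Type} [Field F] [Fintype F] [DecidableEq F]
    (A : α → F × F → F) (B : β → F × F → F) (lam ξ : F × F → F) (qq : α → β) (cc : β → α)
    (P : α → Polynomial F) (d : ℕ)
    (hA : ∀ c v, A c v = lam v * B (qq c) v + (P c).eval (ξ v))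
    (hP : ∀ c, (P c).natDegree < d) (hcq : ∀ c, P c = 0 → cc (qq c) = c)
    (hqc : ∀ q, qq (cc q) = q) (hP0 : ∀ q, P (cc q) = 0)
    (hξ : ∀ v w, lam v = 0 → lam w = 0 → ξ v = ξ w → v = w)
    (Γ : Set (F × F)) (hd : d ≤ Nat.card {v : F × F // v ∈ Γ ∧ lam v = 0}) :
    Nat.card {c : α // ∀ v ∈ Γ, A c v = 0} =
      Nat.card {q : β // ∀ v, (v ∈ Γ ∧ lam v ≠ 0) → B q v = 0} := by
  have hPc : ∀ c : α, (∀ v ∈ Γ, A c v = 0) → P c = 0 := by
    intro c hc
    classical
    let s : Finset F := (univ.filter fun v : F × F => v ∈ Γ ∧ lam v = 0).image ξ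
    have hs : s.card = Nat.card {v : F × F // v ∈ Γ ∧ lam v = 0} := by
      rw [Finset.card_image_of_injOn, Nat.card_eq_fintype_card, Fintype.card_subtype]
      intro v hv w hw h
      simp only [coe_filter, mem_univ, true_and, Set.mem_ofPred_eq] at hv hw
      exact hξ v w hv.2 hw.2 h
    refine Polynomial.eq_zero_of_natDegree_lt_card_of_eval_eq_zero' (P c) s ?_
      (lt_of_lt_of_le (hP c) (hs ▸ hd))
    intro x hx
    obtain ⟨v, hv, rfl⟩ := Finset.mem_image.1 hx
    simp only [mem_filter, mem_univ, true_and] at hv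
    have h1 := hA c v
    rw [hc v hv.1, hv.2, zero_mul, zero_add] at h1
    exact h1.symm
  refine Nat.card_congr
    { toFun := fun c => ⟨qq c.1, fun v hv => ?_⟩
      invFun := fun q => ⟨cc q.1, fun v hv => ?_⟩
      left_inv := fun c => Subtype.ext (hcq c.1 (hPc c.1 c.2))
      right_inv := fun q => Subtype.ext (hqc q.1) }
  · have h1 := hA c.1 v
    rw [c.2 v hv.1, hPc c.1 c.2, Polynomial.eval_zero, add_zero] at h1
    exact (mul_eq_zero.1 h1.symm).resolve_left hv.2
  · rw [hA, hqc, hP0, Polynomial.eval_zero, add_zero]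
    by_cases h : lam v = 0
    · rw [h, zero_mul]
    · rw [q.2 v ⟨hv, h⟩, mul_zero]

open Polynomial in
theorem cubic_zero {F : Type} [Field F] {a b c d : F}
    (h : C a * X ^ 3 + C b * X ^ 2 + C c * X + C d = 0) : a = 0 ∧ b = 0 ∧ c = 0 ∧ d = 0 := by
  have h0 := congrArg (fun q : F[X] => q.coeff 0) h
  have h1 := congrArg (fun q : F[X] => q.coeff 1) h
  have h2 := congrArg (fun q : F[X] => q.coeff 2) h
  have h3 := congrArg (fun q : F[X] => q.coeff 3) h
  simp [coeff_X, coeff_C, coeff_X_pow] at h0 h1 h2 h3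
  exact ⟨h3, h2, h1, h0⟩

open Polynomial in
theorem quad_zero {F : Type} [Field F] {b c d : F}
    (h : C b * X ^ 2 + C c * X + C d = 0) : b = 0 ∧ c = 0 ∧ d = 0 := by
  have h0 := congrArg (fun q : F[X] => q.coeff 0) h
  have h1 := congrArg (fun q : F[X] => q.coeff 1) h
  have h2 := congrArg (fun q : F[X] => q.coeff 2) h
  simp [coeff_X, coeff_C, coeff_X_pow] at h0 h1 h2
  exact ⟨h2, h1, h0⟩

open Polynomial in
theorem lin_zero {F : Type} [Field F] {c d : F}
    (h : C c * X + C d = 0) : c = 0 ∧ d = 0 := by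
  have h0 := congrArg (fun q : F[X] => q.coeff 0) h
  have h1 := congrArg (fun q : F[X] => q.coeff 1) h
  simp [coeff_X, coeff_C] at h0 h1
  exact ⟨h1, h0⟩

variable {p : ℕ} [Fact p.Prime]

/-- the equation of a line -/
def lamL (L : Lin p) (v : ZMod p × ZMod p) : ZMod p :=
  match L with
  | Sum.inl (m, b) => v.2 - m * v.1 - b
  | Sum.inr b => v.1 - b

theorem lamL_iff (L : Lin p) (v : ZMod p × ZMod p) : onL L v ↔ lamL L v = 0 := by
  rcases L with ⟨m, b⟩ | b
  · change v.2 = m * v.1 + b ↔ v.2 - m * v.1 - b = 0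
    constructor
    · intro h
      rw [h]
      ring
    · intro h
      linear_combination h
  · change v.1 = b ↔ v.1 - b = 0
    exact sub_eq_zero.symm

theorem nL_eq (L : Lin p) (Γ : Set (ZMod p × ZMod p)) :
    nL L Γ = Nat.card {v : ZMod p × ZMod p // v ∈ Γ ∧ lamL L v = 0} := by
  unfold nL
  simp only [lamL_iff]

/-- the parameter on a line -/
def xiL (L : Lin p) (v : ZMod p × ZMod p) : ZMod p :=
  match L with
  | Sum.inl _ => v.1
  | Sum.inr _ => v.2

theorem xiL_inj (L : Lin p) (v w : ZMod p × ZMod p) (hv : lamL L v = 0) (hw : lamL L w = 0)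
    (h : xiL L v = xiL L w) : v = w := by
  rcases L with ⟨m, b⟩ | b
  · have h1 : v.1 = w.1 := h
    have h2 : v.2 - m * v.1 - b = 0 := hv
    have h3 : w.2 - m * w.1 - b = 0 := hw
    refine Prod.ext h1 ?_
    linear_combination h2 - h3 + m * h1
  · have h1 : v.2 = w.2 := h
    have h2 : v.1 - b = 0 := hv
    have h3 : w.1 - b = 0 := hw
    refine Prod.ext ?_ h1
    linear_combination h2 - h3

open Polynomial in
theorem red3 (L : Lin p) (Γ : Set (ZMod p × ZMod p)) (h : 4 ≤ nL L Γ) :
    w3 Γ = w2 (offL L Γ) := by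
  rw [nL_eq] at h
  have key : Nat.card {c : Fin 10 → ZMod p // ∀ v ∈ Γ, T c v.1 v.2 1 = 0} =
      Nat.card {q : Fin 6 → ZMod p // ∀ v, (v ∈ Γ ∧ lamL L v ≠ 0) → Q2 q v = 0} := by
    rcases L with ⟨m, b⟩ | b
    · refine split (fun (c : Fin 10 → ZMod p) v => T c v.1 v.2 1) Q2 (lamL (Sum.inl (m, b)))
        (xiL (Sum.inl (m, b)))
        (fun c => ![c 1 + m * (c 3 + m * c 6), c 3 + m * c 6,
          c 4 + m * (c 7 + b * c 6) + b * (c 3 + m * c 6), c 6, c 7 + b * c 6,
          c 8 + b * (c 7 + b * c 6)])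
        (fun q => ![-(m * q 0), q 0 - m * q 1, -(m * q 2) - b * q 0, q 1 - m * q 3,
          q 2 - m * q 4 - b * q 1, -(m * q 5) - b * q 2, q 3, q 4 - b * q 3, q 5 - b * q 4,
          -(b * q 5)])
        (fun c => C (c 0 + m * (c 1 + m * (c 3 + m * c 6))) * X ^ 3 +
          C (c 2 + m * (c 4 + m * (c 7 + b * c 6) + b * (c 3 + m * c 6)) +
            b * (c 1 + m * (c 3 + m * c 6))) * X ^ 2 +
          C (c 5 + m * (c 8 + b * (c 7 + b * c 6)) +
            b * (c 4 + m * (c 7 + b * c 6) + b * (c 3 + m * c 6))) * X +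
          C (c 9 + b * (c 8 + b * (c 7 + b * c 6)))) 4 ?_ ?_ ?_ ?_ ?_ (xiL_inj _) Γ h
      · intro c v
        simp [T, Q2, lamL, xiL]
        ring
      · intro c
        exact Nat.lt_succ_of_le natDegree_cubic_le
      · intro c hc
        obtain ⟨h3, h2, h1, h0⟩ := cubic_zero hc
        funext i
        fin_cases i <;> simp <;> first | ring1 | linear_combination (-h3) | linear_combination (-h2) | linear_combination (-h1) | linear_combination (-h0)
      · intro q
        funext i
        fin_cases i <;> simp <;> ring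
      · intro q
        simp
        ring_nf
    · refine split (fun (c : Fin 10 → ZMod p) v => T c v.1 v.2 1) Q2 (lamL (Sum.inr b))
        (xiL (Sum.inr b))
        (fun c => ![c 0, c 1, c 2 + b * c 0, c 3, c 4 + b * c 1, c 5 + b * (c 2 + b * c 0)])
        (fun q => ![q 0, q 1, q 2 - b * q 0, q 3, q 4 - b * q 1, q 5 - b * q 2, 0, -(b * q 3),
          -(b * q 4), -(b * q 5)])
        (fun c => C (c 6) * X ^ 3 + C (c 7 + b * c 3) * X ^ 2 +
          C (c 8 + b * (c 4 + b * c 1)) * X +
          C (c 9 + b * (c 5 + b * (c 2 + b * c 0)))) 4 ?_ ?_ ?_ ?_ ?_ (xiL_inj _) Γ h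
      · intro c v
        simp [T, Q2, lamL, xiL]
        ring
      · intro c
        exact Nat.lt_succ_of_le natDegree_cubic_le
      · intro c hc
        obtain ⟨h3, h2, h1, h0⟩ := cubic_zero hc
        funext i
        fin_cases i <;> simp <;> first | ring1 | linear_combination (-h3) | linear_combination (-h2) | linear_combination (-h1) | linear_combination (-h0)
      · intro q
        funext i
        fin_cases i <;> simp
      · intro q
        simp
  unfold w3 w2 offL
  rw [key]
  simp only [Set.mem_ofPred_eq, lamL_iff]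

open Polynomial in
theorem red2 (L : Lin p) (Γ : Set (ZMod p × ZMod p)) (h : 3 ≤ nL L Γ) :
    w2 Γ = w1 (offL L Γ) := by
  rw [nL_eq] at h
  have key : Nat.card {c : Fin 6 → ZMod p // ∀ v ∈ Γ, Q2 c v = 0} =
      Nat.card {q : Fin 3 → ZMod p // ∀ v, (v ∈ Γ ∧ lamL L v ≠ 0) → Q1 q v = 0} := by
    rcases L with ⟨m, b⟩ | b
    · refine split Q2 Q1 (lamL (Sum.inl (m, b)))
        (xiL (Sum.inl (m, b)))
        (fun c => ![c 1 + m * c 3, c 3, c 4 + b * c 3])
        (fun q => ![-(m * q 0), q 0 - m * q 1, -(m * q 2) - b * q 0, q 1, q 2 - b * q 1,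
          -(b * q 2)])
        (fun c => C (c 0 + m * (c 1 + m * c 3)) * X ^ 2 +
          C (c 2 + m * (c 4 + b * c 3) + b * (c 1 + m * c 3)) * X +
          C (c 5 + b * (c 4 + b * c 3))) 3 ?_ ?_ ?_ ?_ ?_ (xiL_inj _) Γ h
      · intro c v
        simp [Q1, Q2, lamL, xiL]
        ring
      · intro c
        exact Nat.lt_succ_of_le natDegree_quadratic_le
      · intro c hc
        obtain ⟨h2, h1, h0⟩ := quad_zero hc
        funext i
        fin_cases i <;> simp <;> first | ring1 | linear_combination (-h2) | linear_combination (-h1) | linear_combination (-h0)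
      · intro q
        funext i
        fin_cases i <;> simp
      · intro q
        simp
        ring1
    · refine split Q2 Q1 (lamL (Sum.inr b))
        (xiL (Sum.inr b))
        (fun c => ![c 0, c 1, c 2 + b * c 0])
        (fun q => ![q 0, q 1, q 2 - b * q 0, 0, -(b * q 1), -(b * q 2)])
        (fun c => C (c 3) * X ^ 2 + C (c 4 + b * c 1) * X +
          C (c 5 + b * (c 2 + b * c 0))) 3 ?_ ?_ ?_ ?_ ?_ (xiL_inj _) Γ h
      · intro c v
        simp [Q1, Q2, lamL, xiL]
        ring
      · intro c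
        exact Nat.lt_succ_of_le natDegree_quadratic_le
      · intro c hc
        obtain ⟨h2, h1, h0⟩ := quad_zero hc
        funext i
        fin_cases i <;> simp <;> first | ring1 | linear_combination (-h2) | linear_combination (-h1) | linear_combination (-h0)
      · intro q
        funext i
        fin_cases i <;> simp
      · intro q
        simp
  unfold w2 w1 offL
  rw [key]
  simp only [Set.mem_ofPred_eq, lamL_iff]

open Polynomial in
theorem red1 (L : Lin p) (Γ : Set (ZMod p × ZMod p)) (h : 2 ≤ Nat.card Γ)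
    (hL : ∀ v ∈ Γ, onL L v) : w1 Γ = p := by
  have hΓ : ∀ v, ¬ (v ∈ Γ ∧ lamL L v ≠ 0) := fun v hv => hv.2 ((lamL_iff L v).1 (hL v hv.1))
  have h' : 2 ≤ Nat.card {v : ZMod p × ZMod p // v ∈ Γ ∧ lamL L v = 0} := by
    have h1 : Nat.card {v : ZMod p × ZMod p // v ∈ Γ ∧ lamL L v = 0} = Nat.card Γ :=
      Nat.card_congr (Equiv.subtypeEquivRight fun v =>
        ⟨fun hv => hv.1, fun hv => ⟨hv, (lamL_iff L v).1 (hL v hv)⟩⟩)
    rw [h1]
    exact h
  have key : Nat.card {c : Fin 3 → ZMod p // ∀ v ∈ Γ, Q1 c v = 0} =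
      Nat.card {q : ZMod p // ∀ v, (v ∈ Γ ∧ lamL L v ≠ 0) → q = 0} := by
    rcases L with ⟨m, b⟩ | b
    · refine split Q1 (fun q _ => q) (lamL (Sum.inl (m, b)))
        (xiL (Sum.inl (m, b)))
        (fun c => c 1)
        (fun q => ![-(m * q), q, -(b * q)])
        (fun c => C (c 0 + m * c 1) * X + C (c 2 + b * c 1)) 2 ?_ ?_ ?_ ?_ ?_ (xiL_inj _) Γ h'
      · intro c v
        simp [Q1, lamL, xiL]
        ring
      · intro c
        exact Nat.lt_succ_of_le natDegree_linear_le
      · intro c hc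
        obtain ⟨h1, h0⟩ := lin_zero hc
        funext i
        fin_cases i <;> simp <;> first | ring1 | linear_combination (-h1) | linear_combination (-h0)
      · intro q
        simp
      · intro q
        simp
    · refine split Q1 (fun q _ => q) (lamL (Sum.inr b))
        (xiL (Sum.inr b))
        (fun c => c 0)
        (fun q => ![q, 0, -(b * q)])
        (fun c => C (c 1) * X + C (c 2 + b * c 0)) 2 ?_ ?_ ?_ ?_ ?_ (xiL_inj _) Γ h'
      · intro c v
        simp [Q1, lamL, xiL]
        ring
      · intro c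
        exact Nat.lt_succ_of_le natDegree_linear_le
      · intro c hc
        obtain ⟨h1, h0⟩ := lin_zero hc
        funext i
        fin_cases i <;> simp <;> first | ring1 | linear_combination (-h1) | linear_combination (-h0)
      · intro q
        simp
      · intro q
        simp
  unfold w1
  rw [key]
  have h2 : Nat.card {q : ZMod p // ∀ v, (v ∈ Γ ∧ lamL L v ≠ 0) → q = 0} = Nat.card (ZMod p) :=
    Nat.card_congr (Equiv.subtypeUnivEquiv fun q v hv => absurd hv (hΓ v))
  rw [h2, Nat.card_zmod]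

end Pool.Agent.NH28.UR.Red

namespace Pool.Agent.NH28.UR.Red

open Pool.Agent.NH28.UR

theorem red : S_RED := fun _ _ _ L Γ => ⟨red3 L Γ, red2 L Γ⟩

theorem w1Thm : S_W1 := by
  intro p _ _
  refine ⟨?_, ?_, ?_, ?_⟩
  · unfold w1
    have h1 : Nat.card {l : Fin 3 → ZMod p // ∀ v ∈ (∅ : Set (ZMod p × ZMod p)), Q1 l v = 0} =
        Nat.card (Fin 3 → ZMod p) :=
      Nat.card_congr (Equiv.subtypeUnivEquiv fun q v hv => absurd hv (Set.notMem_empty v))
    rw [h1, Nat.card_eq_fintype_card, Fintype.card_fun, ZMod.card, Fintype.card_fin]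
  · intro v
    unfold w1
    have h1 : Nat.card {l : Fin 3 → ZMod p // ∀ w ∈ ({v} : Set (ZMod p × ZMod p)), Q1 l w = 0} =
        Nat.card (ZMod p × ZMod p) := by
      refine Nat.card_congr
        { toFun := fun l => (l.1 0, l.1 1)
          invFun := fun a => ⟨![a.1, a.2, -(a.1 * v.1 + a.2 * v.2)], ?_⟩
          left_inv := ?_
          right_inv := ?_ }
      · intro w hw
        rw [Set.mem_singleton_iff.1 hw]
        simp [Q1]
      · intro l
        have h2 := l.2 v rfl
        refine Subtype.ext ?_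
        funext i
        unfold Q1 at h2
        fin_cases i <;> simp <;> linear_combination (-h2)
      · intro a
        simp
    rw [h1, Nat.card_prod, Nat.card_zmod, _root_.sq]
  · rintro Γ h ⟨L, hL⟩
    exact red1 L Γ h hL
  · intro Γ hΓ
    unfold w1
    rw [Nat.card_eq_one_iff_unique]
    refine ⟨⟨fun a b => ?_⟩, ⟨⟨0, fun v _ => by simp [Q1]⟩⟩⟩
    have key : ∀ l : {l : Fin 3 → ZMod p // ∀ v ∈ Γ, Q1 l v = 0}, l.1 = 0 := by
      rintro ⟨l, hl⟩
      unfold Q1 at hl
      by_cases h1 : l 1 = 0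
      · by_cases h0 : l 0 = 0
        · by_cases h2 : l 2 = 0
          · funext i
            fin_cases i <;> assumption
          · exfalso
            refine hΓ ⟨Sum.inr 0, fun v hv => absurd (hl v hv) ?_⟩
            rw [h0, h1]
            simpa using h2
        · exfalso
          refine hΓ ⟨Sum.inr (-(l 2) / l 0), fun v hv => ?_⟩
          have h3 := hl v hv
          change v.1 = -(l 2) / l 0
          rw [eq_div_iff h0]
          rw [h1] at h3
          linear_combination h3
      · exfalso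
        refine hΓ ⟨Sum.inl (-(l 0) / l 1, -(l 2) / l 1), fun v hv => ?_⟩
        have h3 := hl v hv
        change v.2 = -(l 0) / l 1 * v.1 + -(l 2) / l 1
        field_simp
        linear_combination h3
    exact Subtype.ext ((key a).trans (key b).symm)

end Pool.Agent.NH28.UR.Red
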