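import Pool.Agent.NH28.UR.RnumB

set_option autoImplicit false

/-!
# The elliptic curve sum is not a rational function of the prime
-/

namespace Pool.Agent.NH28.UR.Rnum

open Finset

/-- the sixteen primes -/
def qq : Fin 16 → ℤ := ![5, 7, 11, 13, 17, 19, 23, 29, 31, 37, 41, 43, 47, 53, 59, 61]

/-- the values -/
def vv : Fin 16 → ℤ := ![14515200, 26294284800, 81418325990400, 1220578145740800, 79442939126476800, 428468382458726400, 7392685682839564800, 220412903488856064000, 579847102003987776000, 7426311935039025638400, 32316193072234462003200, 63813816744278651366400, 226748145397672745280000, 1250530297813085208192000, 5717795998894943786726400, 9164870343306003252326400]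

/-- the products of the differences -/
def dd : Fin 16 → ℤ := ![-48344380548908580864, 9231961562284032000, -901516823101440000, 401701513199616000, -144618323705856000, 117672345442713600, -197640226603008000, 122051508358348800, -128549621071872000, 293827705307136000, -243149489307648000, 380640436420608000, -2888321206321152000, 39768449806761984000, -287385532868277043200, 946916285680189440000]

theorem dd_eq : ∀ i, ∏ j ∈ univ.erase i, (qq i - qq j) = dd i := by decide +kernel

theorem qq_inj : Function.Injective qq := by decide +kernel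

theorem ne_zero : ∑ i, ((vv i : ℤ) : ℚ) / ((dd i : ℤ) : ℚ) ≠ 0 := by
  simp only [Fin.sum_univ_succ, Fin.sum_univ_zero, vv, dd, Matrix.cons_val_zero,
    Matrix.cons_val_succ]
  norm_num

theorem rThm (hP : S_POLY) : S_R := by
  intro hR
  obtain ⟨P, hdeg, hP⟩ := hP (fun p => Rct p) 14 56832 hR
    (fun p _ h5 => ⟨((SS p : ℕ) : ℤ), by
      show Rct p = _
      rw [Rct_eq p h5]
      norm_num⟩)
    (fun p _ h5 => by
      show |Rct p| ≤ _
      rw [Rct_eq p h5, abs_of_nonneg (by positivity)]
      exact_mod_cast SS_le p h5)
  have hdeg' : P.degree < ((univ : Finset (Fin 16)).card : WithBot ℕ) := by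
    refine lt_of_le_of_lt Polynomial.degree_le_natDegree ?_
    rw [Finset.card_univ, Fintype.card_fin]
    exact_mod_cast lt_of_le_of_lt hdeg (by norm_num)
  have hinj : Set.InjOn (fun i : Fin 16 => ((qq i : ℤ) : ℚ)) (univ : Finset (Fin 16)) := by
    intro a _ b _ hab
    have hab' : ((qq a : ℤ) : ℚ) = ((qq b : ℤ) : ℚ) := hab
    exact qq_inj (by exact_mod_cast hab')
  have key := Lagrange.coeff_eq_sum hinj hdeg'
  rw [Finset.card_univ, Fintype.card_fin, Polynomial.coeff_eq_zero_of_natDegree_lt (by omega)] at key
  have hval : ∀ i : Fin 16, P.eval ((qq i : ℤ) : ℚ) = ((vv i : ℤ) : ℚ) := by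
    intro i
    fin_cases i
    · have : Fact (Nat.Prime 5) := ⟨by norm_num⟩
      have h := hP 5 (by norm_num)
      rw [v5] at h
      exact_mod_cast h.symm
    · have : Fact (Nat.Prime 7) := ⟨by norm_num⟩
      have h := hP 7 (by norm_num)
      rw [v7] at h
      exact_mod_cast h.symm
    · have : Fact (Nat.Prime 11) := ⟨by norm_num⟩
      have h := hP 11 (by norm_num)
      rw [v11] at h
      exact_mod_cast h.symm
    · have : Fact (Nat.Prime 13) := ⟨by norm_num⟩
      have h := hP 13 (by norm_num)
      rw [v13] at h
      exact_mod_cast h.symm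
    · have : Fact (Nat.Prime 17) := ⟨by norm_num⟩
      have h := hP 17 (by norm_num)
      rw [v17] at h
      exact_mod_cast h.symm
    · have : Fact (Nat.Prime 19) := ⟨by norm_num⟩
      have h := hP 19 (by norm_num)
      rw [v19] at h
      exact_mod_cast h.symm
    · have : Fact (Nat.Prime 23) := ⟨by norm_num⟩
      have h := hP 23 (by norm_num)
      rw [v23] at h
      exact_mod_cast h.symm
    · have : Fact (Nat.Prime 29) := ⟨by norm_num⟩
      have h := hP 29 (by norm_num)
      rw [v29] at h
      exact_mod_cast h.symm
    · have : Fact (Nat.Prime 31) := ⟨by norm_num⟩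
      have h := hP 31 (by norm_num)
      rw [v31] at h
      exact_mod_cast h.symm
    · have : Fact (Nat.Prime 37) := ⟨by norm_num⟩
      have h := hP 37 (by norm_num)
      rw [v37] at h
      exact_mod_cast h.symm
    · have : Fact (Nat.Prime 41) := ⟨by norm_num⟩
      have h := hP 41 (by norm_num)
      rw [v41] at h
      exact_mod_cast h.symm
    · have : Fact (Nat.Prime 43) := ⟨by norm_num⟩
      have h := hP 43 (by norm_num)
      rw [v43] at h
      exact_mod_cast h.symm
    · have : Fact (Nat.Prime 47) := ⟨by norm_num⟩
      have h := hP 47 (by norm_num)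
      rw [v47] at h
      exact_mod_cast h.symm
    · have : Fact (Nat.Prime 53) := ⟨by norm_num⟩
      have h := hP 53 (by norm_num)
      rw [v53] at h
      exact_mod_cast h.symm
    · have : Fact (Nat.Prime 59) := ⟨by norm_num⟩
      have h := hP 59 (by norm_num)
      rw [v59] at h
      exact_mod_cast h.symm
    · have : Fact (Nat.Prime 61) := ⟨by norm_num⟩
      have h := hP 61 (by norm_num)
      rw [v61] at h
      exact_mod_cast h.symm
  apply ne_zero
  rw [key]
  apply Finset.sum_congr rfl
  intro i _
  rw [hval i]
  congr 1
  rw [← dd_eq i]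
  push_cast
  rfl

end Pool.Agent.NH28.UR.Rnum
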