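import Pool.Agent.NH28.UR.Stm

set_option autoImplicit false

/-!
# The elliptic curve sum: a formula which the kernel evaluates quickly
-/

namespace Pool.Agent.NH28.UR.Rnum

open Finset

/-- sum of `f` over `0, ..., n - 1` -/
noncomputable def lp (f : ℕ → ℕ) (n : ℕ) : ℕ :=
  Nat.rec (motive := fun _ => ℕ) 0 (fun k ih => Nat.add ih (f k)) n

/-- `f` is true at `0, ..., n - 1` -/
noncomputable def ball (f : ℕ → Bool) (n : ℕ) : Bool :=
  Nat.rec (motive := fun _ => Bool) true (fun k ih => and ih (f k)) n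

/-- digits in base four -/
def dg (W r : ℕ) : ℕ := Nat.mod (Nat.shiftRight W (Nat.mul 2 r)) 4

/-- number of square roots of `r` modulo `p` -/
noncomputable def rts (p r : ℕ) : ℕ :=
  lp (fun y => cond (Nat.beq (Nat.mod (Nat.mul y y) p) r) 1 0) p

/-- the digits of `W` are the numbers of square roots -/
noncomputable def chk (p W : ℕ) : Bool :=
  ball (fun r => Nat.beq (dg W r) (rts p r)) p

/-- number of affine points of `y² = x³ + a x + b` -/
noncomputable def NN (p W a b : ℕ) : ℕ :=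
  lp (fun x => dg W (Nat.mod (Nat.add (Nat.mul (Nat.add (Nat.mul x x) a) x) b) p)) p

/-- the summand -/
def gg (p N : ℕ) : ℕ :=
  Nat.mul (Nat.mul (Nat.mul (Nat.mul (Nat.mul (Nat.mul (Nat.mul (Nat.mul (Nat.mul
    N (Nat.sub N 1)) (Nat.sub N 2)) (Nat.sub N 3)) (Nat.sub N 4)) (Nat.sub N 5)) (Nat.sub N 6))
    (Nat.sub N 7)) (Nat.sub N 8))
    (Nat.sub (Nat.mul (Nat.sub (Nat.add (Nat.mul p p) 36) (Nat.mul 9 p)) (Nat.add N 1)) 120)

/-- the summand, with `N` evaluated first -/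
noncomputable def hh (p N : ℕ) : ℕ :=
  Nat.rec (motive := fun _ => ℕ) 0 (fun k _ => gg p (Nat.add k 1)) N

/-- the sum -/
noncomputable def RR (p W : ℕ) : ℕ := lp (fun a => lp (fun b => hh p (NN p W a b)) p) p

theorem lp_eq (f : ℕ → ℕ) (n : ℕ) : lp f n = ∑ i ∈ range n, f i := by
  induction n with
  | zero => rfl
  | succ n ih =>
    rw [Finset.sum_range_succ, ← ih]
    rfl

theorem ball_spec (f : ℕ → Bool) (n : ℕ) (h : ball f n = true) : ∀ i < n, f i = true := by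
  induction n with
  | zero => intro i hi; omega
  | succ n ih =>
    have h' : (and (ball f n) (f n)) = true := h
    rw [Bool.and_eq_true] at h'
    intro i hi
    rcases Nat.lt_succ_iff_lt_or_eq.mp hi with h1 | h1
    · exact ih h'.1 i h1
    · rw [h1]; exact h'.2

theorem sum_zmod {M : Type} [AddCommMonoid M] (p : ℕ) [NeZero p] (f : ZMod p → M) :
    ∑ x, f x = ∑ y ∈ range p, f (y : ZMod p) := by
  refine Finset.sum_nbij' (i := fun x : ZMod p => x.val) (j := fun y : ℕ => (y : ZMod p)) ?_ ?_ ?_ ?_ ?_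
  · intro a _
    exact Finset.mem_range.mpr (ZMod.val_lt a)
  · intro a _
    exact Finset.mem_univ _
  · intro a _
    exact ZMod.natCast_zmod_val a
  · intro a ha
    exact ZMod.val_natCast_of_lt (Finset.mem_range.mp ha)
  · intro a _
    rw [ZMod.natCast_zmod_val a]

section prime
variable (p : ℕ) [Fact p.Prime]

theorem rts_eq (h5 : 5 ≤ p) (r : ℕ) (hr : r < p) :
    ((rts p r : ℕ) : ℤ) = quadraticChar (ZMod p) (r : ZMod p) + 1 := by
  have h2 : ringChar (ZMod p) ≠ 2 := by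
    rw [ZMod.ringChar_zmod_n]; omega
  rw [← quadraticChar_card_sqrts h2 (r : ZMod p)]
  rw [rts, lp_eq]
  have h3 : (({x : ZMod p | x ^ 2 = (r : ZMod p)} : Set (ZMod p)).toFinset.card : ℕ)
      = ∑ x : ZMod p, if x ^ 2 = (r : ZMod p) then 1 else 0 := by
    rw [Finset.sum_boole]
    simp only [Nat.cast_id]
    congr 1
    ext x
    simp
  rw [h3, sum_zmod p]
  congr 1
  apply Finset.sum_congr rfl
  intro y _
  have h4 : ((y : ZMod p) ^ 2 = (r : ZMod p)) ↔ Nat.mod (Nat.mul y y) p = r := by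
    have h5' : ((y : ZMod p) ^ 2 = (r : ZMod p)) ↔ (((y * y : ℕ) : ZMod p) = (r : ZMod p)) := by
      rw [pow_two, Nat.cast_mul]
    rw [h5', ZMod.natCast_eq_natCast_iff']
    show y * y % p = r % p ↔ y * y % p = r
    rw [Nat.mod_eq_of_lt hr]
  cases hb : Nat.beq (Nat.mod (Nat.mul y y) p) r with
  | true =>
    rw [if_pos (h4.mpr (Nat.eq_of_beq_eq_true hb))]
    rfl
  | false =>
    rw [if_neg (fun h' => Nat.ne_of_beq_eq_false hb (h4.mp h'))]
    rfl

/-- number of affine points -/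
noncomputable def MM (p a b : ℕ) : ℕ :=
  ∑ x ∈ range p, rts p (((x * x + a) * x + b) % p)

theorem NN_eq (W : ℕ) (h : chk p W = true) (a b : ℕ) : NN p W a b = MM p a b := by
  have hp : 0 < p := (Fact.out : p.Prime).pos
  rw [NN, lp_eq, MM]
  apply Finset.sum_congr rfl
  intro x _
  have h1 := ball_spec _ _ h (((x * x + a) * x + b) % p) (Nat.mod_lt _ hp)
  exact Nat.eq_of_beq_eq_true h1

theorem MM_eq (h5 : 5 ≤ p) (a b : ℕ) :
    ((MM p a b : ℕ) : ℤ) = p + sAB (a : ZMod p) (b : ZMod p) := by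
  have hp : 0 < p := (Fact.out : p.Prime).pos
  rw [MM, sAB, sum_zmod p, Nat.cast_sum]
  have h1 : ∀ x ∈ range p, ((rts p (((x * x + a) * x + b) % p) : ℕ) : ℤ)
      = quadraticChar (ZMod p) ((x : ZMod p) ^ 3 + (a : ZMod p) * (x : ZMod p) + (b : ZMod p)) + 1 := by
    intro x _
    rw [rts_eq p h5 _ (Nat.mod_lt _ hp), ZMod.natCast_mod]
    congr 2
    push_cast
    ring
  rw [Finset.sum_congr rfl h1, Finset.sum_add_distrib]
  simp only [Finset.sum_const, Finset.card_range, nsmul_eq_mul, mul_one]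
  ring

omit [Fact p.Prime] in
theorem q_le : 9 * p + 12 ≤ p * p + 36 := by
  have h : (9 * p + 12 : ℤ) ≤ p * p + 36 := by nlinarith [sq_nonneg (2 * (p : ℤ) - 9)]
  exact_mod_cast h

omit [Fact p.Prime] in
theorem gg_def (N : ℕ) : gg p N =
    N * (N - 1) * (N - 2) * (N - 3) * (N - 4) * (N - 5) * (N - 6) * (N - 7) * (N - 8)
      * ((p * p + 36 - 9 * p) * (N + 1) - 120) := rfl

omit [Fact p.Prime] in
theorem hh_eq (N : ℕ) :
    ((hh p N : ℕ) : ℚ) = ff (N : ℚ) 9 * (((p : ℚ) ^ 2 - 9 * p + 36) * ((N : ℚ) + 1) - 120) := by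
  have hf : ff (N : ℚ) 9 = (N : ℚ) * ((N : ℚ) - 1) * ((N : ℚ) - 2) * ((N : ℚ) - 3) * ((N : ℚ) - 4)
      * ((N : ℚ) - 5) * ((N : ℚ) - 6) * ((N : ℚ) - 7) * ((N : ℚ) - 8) := by
    rw [ff]
    simp only [Finset.prod_range_succ, Finset.prod_range_zero]
    push_cast
    ring
  rw [hf]
  by_cases h9 : N < 9
  · have h0 : hh p N = 0 := by
      cases N with
      | zero => rfl
      | succ k =>
        have hk : hh p (k + 1) = gg p (k + 1) := rfl
        rw [hk, gg_def]
        have hk8 : k < 8 := by omega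
        clear hk hf h9
        interval_cases k <;> simp
    rw [h0]
    clear h0 hf
    interval_cases N <;> norm_num
  · obtain ⟨m, rfl⟩ : ∃ m, N = m + 9 := ⟨N - 9, by omega⟩
    have h1 : hh p (m + 9) = gg p (m + 9) := rfl
    have h2 : gg p (m + 9) = (m + 9) * (m + 8) * (m + 7) * (m + 6) * (m + 5) * (m + 4) * (m + 3)
        * (m + 2) * (m + 1) * ((p * p + 36 - 9 * p) * (m + 9 + 1) - 120) := rfl
    have h3 : 9 * p + 12 ≤ p * p + 36 := q_le p
    obtain ⟨q, hq⟩ : ∃ q, p * p + 36 = 9 * p + q := ⟨p * p + 36 - 9 * p, by omega⟩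
    have h4 : 12 ≤ q := by omega
    have h5' : p * p + 36 - 9 * p = q := by omega
    have hq' : (p : ℚ) ^ 2 - 9 * p + 36 = q := by
      have : ((p * p + 36 : ℕ) : ℚ) = ((9 * p + q : ℕ) : ℚ) := by rw [hq]
      push_cast at this
      linarith
    obtain ⟨t, ht⟩ : ∃ t, q * (m + 9 + 1) = t + 120 := ⟨q * (m + 9 + 1) - 120, by
      have : 12 * 10 ≤ q * (m + 9 + 1) := Nat.mul_le_mul h4 (by omega)
      omega⟩
    have ht' : (q : ℚ) * (((m + 9 : ℕ) : ℚ) + 1) - 120 = t := by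
      have : ((q * (m + 9 + 1) : ℕ) : ℚ) = ((t + 120 : ℕ) : ℚ) := by rw [ht]
      push_cast at this ⊢
      linarith
    rw [h1, h2, h5', ht, hq', ht', Nat.add_sub_cancel]
    push_cast
    ring

/-- the sum as a natural number -/
noncomputable def SS (p : ℕ) : ℕ := ∑ a ∈ range p, ∑ b ∈ range p, hh p (MM p a b)

theorem RR_eq (W : ℕ) (h : chk p W = true) : RR p W = SS p := by
  rw [RR, lp_eq, SS]
  apply Finset.sum_congr rfl
  intro a _
  rw [lp_eq]
  apply Finset.sum_congr rfl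
  intro b _
  rw [NN_eq p W h]

theorem Rct_eq (h5 : 5 ≤ p) : Rct p = ((SS p : ℕ) : ℚ) := by
  rw [Rct, SS, sum_zmod p, Nat.cast_sum]
  apply Finset.sum_congr rfl
  intro a _
  rw [sum_zmod p, Nat.cast_sum]
  apply Finset.sum_congr rfl
  intro b _
  rw [hh_eq p]
  have h1 : ((MM p a b : ℕ) : ℚ) = p + ((sAB (a : ZMod p) (b : ZMod p) : ℤ) : ℚ) := by
    have h := MM_eq p h5 a b
    have h' : (((MM p a b : ℕ) : ℤ) : ℚ) = ((p + sAB (a : ZMod p) (b : ZMod p) : ℤ) : ℚ) := by rw [h]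
    push_cast at h'
    exact h'
  rw [h1]
  ring

theorem val (W v : ℕ) (h5 : 5 ≤ p) (hc : chk p W = true) (hR : RR p W = v) :
    Rct p = (v : ℚ) := by
  rw [Rct_eq p h5, ← RR_eq p W hc, hR]

theorem rts_le (h5 : 5 ≤ p) (r : ℕ) (hr : r < p) : rts p r ≤ 2 := by
  have h := rts_eq p h5 r hr
  have h1 : quadraticChar (ZMod p) (r : ZMod p) ≤ 1 := by
    by_cases h0 : (r : ZMod p) = 0
    · rw [h0, quadraticChar_zero]; norm_num
    · rcases quadraticChar_dichotomy h0 with h' | h' <;> (rw [h']; try norm_num)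
  have : ((rts p r : ℕ) : ℤ) ≤ 2 := by rw [h]; linarith
  exact_mod_cast this

theorem MM_le (h5 : 5 ≤ p) (a b : ℕ) : MM p a b ≤ 2 * p := by
  have hp : 0 < p := (Fact.out : p.Prime).pos
  rw [MM]
  calc ∑ x ∈ range p, rts p (((x * x + a) * x + b) % p) ≤ ∑ _x ∈ range p, 2 :=
        Finset.sum_le_sum (fun x _ => rts_le p h5 _ (Nat.mod_lt _ hp))
    _ = 2 * p := by simp [mul_comm]

omit [Fact p.Prime] in
theorem hh_le (hp : 1 ≤ p) (N : ℕ) (hN : N ≤ 2 * p) : hh p N ≤ 56832 * p ^ 12 := by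
  have h1 : hh p N ≤ gg p N := by
    cases N with
    | zero => exact Nat.zero_le _
    | succ n => exact le_refl _
  have h2 : gg p N = N * (N - 1) * (N - 2) * (N - 3) * (N - 4) * (N - 5) * (N - 6) * (N - 7) * (N - 8)
      * ((p * p + 36 - 9 * p) * (N + 1) - 120) := rfl
  have h3 : gg p N ≤ (2 * p) * (2 * p) * (2 * p) * (2 * p) * (2 * p) * (2 * p) * (2 * p) * (2 * p)
      * (2 * p) * ((p * p + 36) * (2 * p + 1)) := by
    rw [h2]
    have ha : (p * p + 36 - 9 * p) * (N + 1) - 120 ≤ (p * p + 36) * (2 * p + 1) :=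
      (Nat.sub_le _ _).trans (Nat.mul_le_mul (Nat.sub_le _ _) (by omega))
    gcongr <;> omega
  refine h1.trans (h3.trans ?_)
  have h4 : (p * p + 36) * (2 * p + 1) ≤ (37 * (p * p)) * (3 * p) := by
    apply Nat.mul_le_mul
    · nlinarith
    · omega
  calc (2 * p) * (2 * p) * (2 * p) * (2 * p) * (2 * p) * (2 * p) * (2 * p) * (2 * p)
      * (2 * p) * ((p * p + 36) * (2 * p + 1))
      ≤ (2 * p) * (2 * p) * (2 * p) * (2 * p) * (2 * p) * (2 * p) * (2 * p) * (2 * p)
      * (2 * p) * ((37 * (p * p)) * (3 * p)) := Nat.mul_le_mul_left _ h4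
    _ = 56832 * p ^ 12 := by ring

theorem SS_le (h5 : 5 ≤ p) : SS p ≤ 56832 * p ^ 14 := by
  rw [SS]
  calc ∑ a ∈ range p, ∑ b ∈ range p, hh p (MM p a b)
      ≤ ∑ _a ∈ range p, ∑ _b ∈ range p, 56832 * p ^ 12 :=
        Finset.sum_le_sum (fun a _ => Finset.sum_le_sum
          (fun b _ => hh_le p (by omega) _ (MM_le p h5 a b)))
    _ = 56832 * p ^ 14 := by
        simp only [Finset.sum_const, Finset.card_range, smul_eq_mul]
        ring

end prime

end Pool.Agent.NH28.UR.Rnum
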