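import Pool.Agent.NH28.UR.RnumA

set_option autoImplicit false

/-!
# The values of the elliptic curve sum at sixteen primes
-/

namespace Pool.Agent.NH28.UR.Rnum

set_option maxRecDepth 100000 in
theorem c5 : chk 5 521 = true := by decide +kernel

set_option maxRecDepth 100000 in
theorem r5 : RR 5 521 = 14515200 := by decide +kernel

theorem v5 [Fact (Nat.Prime 5)] : Rct 5 = 14515200 := by
  have h := val 5 521 14515200 (by norm_num) c5 r5
  rw [h]
  norm_num

set_option maxRecDepth 100000 in
theorem c7 : chk 7 553 = true := by decide +kernel

set_option maxRecDepth 100000 in
theorem r7 : RR 7 553 = 26294284800 := by decide +kernel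

theorem v7 [Fact (Nat.Prime 7)] : Rct 7 = 26294284800 := by
  have h := val 7 553 26294284800 (by norm_num) c7 r7
  rw [h]
  norm_num

set_option maxRecDepth 100000 in
theorem c11 : chk 11 526985 = true := by decide +kernel

set_option maxRecDepth 100000 in
theorem r11 : RR 11 526985 = 81418325990400 := by decide +kernel

theorem v11 [Fact (Nat.Prime 11)] : Rct 11 = 81418325990400 := by
  have h := val 11 526985 81418325990400 (by norm_num) c11 r11
  rw [h]
  norm_num

set_option maxRecDepth 100000 in
theorem c13 : chk 13 36176521 = true := by decide +kernel

set_option maxRecDepth 100000 in
theorem r13 : RR 13 36176521 = 1220578145740800 := by decide +kernel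

theorem v13 [Fact (Nat.Prime 13)] : Rct 13 = 1220578145740800 := by
  have h := val 13 36176521 1220578145740800 (by norm_num) c13 r13
  rw [h]
  norm_num

set_option maxRecDepth 100000 in
theorem c17 : chk 17 10872291881 = true := by decide +kernel

set_option maxRecDepth 100000 in
theorem r17 : RR 17 10872291881 = 79442939126476800 := by decide +kernel

theorem v17 [Fact (Nat.Prime 17)] : Rct 17 = 79442939126476800 := by
  have h := val 17 10872291881 79442939126476800 (by norm_num) c17 r17
  rw [h]
  norm_num

set_option maxRecDepth 100000 in
theorem c19 : chk 19 42958629385 = true := by decide +kernel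

set_option maxRecDepth 100000 in
theorem r19 : RR 19 42958629385 = 428468382458726400 := by decide +kernel

theorem v19 [Fact (Nat.Prime 19)] : Rct 19 = 428468382458726400 := by
  have h := val 19 42958629385 428468382458726400 (by norm_num) c19 r19
  rw [h]
  norm_num

set_option maxRecDepth 100000 in
theorem c23 : chk 23 146197324457 = true := by decide +kernel

set_option maxRecDepth 100000 in
theorem r23 : RR 23 146197324457 = 7392685682839564800 := by decide +kernel

theorem v23 [Fact (Nat.Prime 23)] : Rct 23 = 7392685682839564800 := by
  have h := val 23 146197324457 7392685682839564800 (by norm_num) c23 r23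
  rw [h]
  norm_num

set_option maxRecDepth 100000 in
theorem c29 : chk 29 147108067451382281 = true := by decide +kernel

set_option maxRecDepth 100000 in
theorem r29 : RR 29 147108067451382281 = 220412903488856064000 := by decide +kernel

theorem v29 [Fact (Nat.Prime 29)] : Rct 29 = 220412903488856064000 := by
  have h := val 29 147108067451382281 220412903488856064000 (by norm_num) c29 r29
  rw [h]
  norm_num

set_option maxRecDepth 100000 in
theorem c31 : chk 31 146369883237157417 = true := by decide +kernel

set_option maxRecDepth 100000 in
theorem r31 : RR 31 146369883237157417 = 579847102003987776000 := by decide +kernel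

theorem v31 [Fact (Nat.Prime 31)] : Rct 31 = 579847102003987776000 := by
  have h := val 31 146369883237157417 579847102003987776000 (by norm_num) c31 r31
  rw [h]
  norm_num

set_option maxRecDepth 100000 in
theorem c37 : chk 37 10185099983485776986761 = true := by decide +kernel

set_option maxRecDepth 100000 in
theorem r37 : RR 37 10185099983485776986761 = 7426311935039025638400 := by decide +kernel

theorem v37 [Fact (Nat.Prime 37)] : Rct 37 = 7426311935039025638400 := by
  have h := val 37 10185099983485776986761 7426311935039025638400 (by norm_num) c37 r37
  rw [h]
  norm_num

set_option maxRecDepth 100000 in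
theorem c41 : chk 41 3069731907081721789155881 = true := by decide +kernel

set_option maxRecDepth 100000 in
theorem r41 : RR 41 3069731907081721789155881 = 32316193072234462003200 := by decide +kernel

theorem v41 [Fact (Nat.Prime 41)] : Rct 41 = 32316193072234462003200 := by
  have h := val 41 3069731907081721789155881 32316193072234462003200 (by norm_num) c41 r41
  rw [h]
  norm_num

set_option maxRecDepth 100000 in
theorem c43 : chk 43 12252189066141660489458185 = true := by decide +kernel

set_option maxRecDepth 100000 in
theorem r43 : RR 43 12252189066141660489458185 = 63813816744278651366400 := by decide +kernel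

theorem v43 [Fact (Nat.Prime 43)] : Rct 43 = 63813816744278651366400 := by
  have h := val 43 12252189066141660489458185 63813816744278651366400 (by norm_num) c43 r43
  rw [h]
  norm_num

set_option maxRecDepth 100000 in
theorem c47 : chk 47 38733477264763048082186921 = true := by decide +kernel

set_option maxRecDepth 100000 in
theorem r47 : RR 47 38733477264763048082186921 = 226748145397672745280000 := by decide +kernel

theorem v47 [Fact (Nat.Prime 47)] : Rct 47 = 226748145397672745280000 := by
  have h := val 47 38733477264763048082186921 226748145397672745280000 (by norm_num) c47 r47
  rw [h]
  norm_num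

set_option maxRecDepth 100000 in
theorem c53 : chk 53 41248977123331406690963058893321 = true := by decide +kernel

set_option maxRecDepth 100000 in
theorem r53 : RR 53 41248977123331406690963058893321 = 1250530297813085208192000 := by decide +kernel

theorem v53 [Fact (Nat.Prime 53)] : Rct 53 = 1250530297813085208192000 := by
  have h := val 53 41248977123331406690963058893321 1250530297813085208192000 (by norm_num) c53 r53
  rw [h]
  norm_num

set_option maxRecDepth 100000 in
theorem c59 : chk 59 41711580020618408965060925053241993 = true := by decide +kernel

set_option maxRecDepth 100000 in
theorem r59 : RR 59 41711580020618408965060925053241993 = 5717795998894943786726400 := by decide +kernel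

theorem v59 [Fact (Nat.Prime 59)] : Rct 59 = 5717795998894943786726400 := by
  have h := val 59 41711580020618408965060925053241993 5717795998894943786726400 (by norm_num) c59 r59
  rw [h]
  norm_num

set_option maxRecDepth 100000 in
theorem c61 : chk 61 2876573868771580132937577463091301001 = true := by decide +kernel

set_option maxRecDepth 100000 in
theorem r61 : RR 61 2876573868771580132937577463091301001 = 9164870343306003252326400 := by decide +kernel

theorem v61 [Fact (Nat.Prime 61)] : Rct 61 = 9164870343306003252326400 := by
  have h := val 61 2876573868771580132937577463091301001 9164870343306003252326400 (by norm_num) c61 r61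
  rw [h]
  norm_num

end Pool.Agent.NH28.UR.Rnum
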