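import Pool.Agent.NH28.UR.Sing1

set_option autoImplicit false

/-!
# UR-SING (helper26): cubics singular at the base point
-/

namespace Pool.Agent.NH28.UR.Sing

open Finset
open Pool.Agent.NH28.UR

/-! ### Points of the projective line -/

section
variable {p : ℕ} [Fact p.Prime]

/-- points of the projective line -/
def pt : Option (ZMod p) → ZMod p × ZMod p
  | none => (1, 0)
  | some s => (s, 1)

/-- binary quadratic form -/
def qv (q : Fin 3 → ZMod p) (w : ZMod p × ZMod p) : ZMod p :=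
  q 0 * w.1 ^ 2 + q 1 * (w.1 * w.2) + q 2 * w.2 ^ 2

/-- binary cubic form -/
def kv (k : Fin 4 → ZMod p) (w : ZMod p × ZMod p) : ZMod p :=
  k 0 * w.1 ^ 3 + k 1 * (w.1 ^ 2 * w.2) + k 2 * (w.1 * w.2 ^ 2) + k 3 * w.2 ^ 3

theorem crs {t a : Option (ZMod p)} (h : t ≠ a) :
    (pt t).2 * (pt a).1 - (pt t).1 * (pt a).2 ≠ 0 := by
  rcases t with _ | s <;> rcases a with _ | s'
  · exact absurd rfl h
  · simp [pt]
  · simp [pt]
  · simp only [pt, one_mul, mul_one]
    intro h1
    apply h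
    rw [sub_eq_zero.1 h1]

theorem exists_sup (n : ℕ) (hn : n ≤ p) (T : Finset (Option (ZMod p))) (a : Option (ZMod p))
    (ha : a ∉ T) (hT : T.card ≤ n) : ∃ U : Finset (Option (ZMod p)), T ⊆ U ∧ a ∉ U ∧ U.card = n := by
  obtain ⟨U, h1, h2, h3⟩ := exists_subsuperset_card_eq (s := T) (t := univ.erase a) (n := n)
    (fun t ht => mem_erase.2 ⟨fun h => ha (h ▸ ht), mem_univ t⟩) hT (by
      rw [card_erase_of_mem (mem_univ a), card_univ, Fintype.card_option, ZMod.card]
      omega)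
  exact ⟨U, h1, fun h => (mem_erase.1 (h2 h)).1 rfl, h3⟩

theorem good2 (hp : 5 ≤ p) : Good (fun (t : Option (ZMod p)) (q : Fin 3 → ZMod p) => qv q (pt t)) 3
    where
  add t v w := by simp only [qv, Pi.add_apply]; ring
  smul t a v := by simp only [qv, Pi.smul_apply, smul_eq_mul]; ring
  sep T a ha hT := by
    obtain ⟨U, h1, h2, h3⟩ := exists_sup 2 (by omega) T a ha (by omega)
    obtain ⟨t1, t2, -, rfl⟩ := card_eq_two.1 h3
    obtain ⟨f, e⟩ : ∃ f : Fin 3 → ZMod p, ∀ t, qv f (pt t) =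
        ((pt t1).2 * (pt t).1 - (pt t1).1 * (pt t).2) *
        ((pt t2).2 * (pt t).1 - (pt t2).1 * (pt t).2) := by
      refine ⟨![(pt t1).2 * (pt t2).2, -((pt t1).2 * (pt t2).1 + (pt t2).2 * (pt t1).1),
        (pt t1).1 * (pt t2).1], fun t => ?_⟩
      simp [qv]
      ring
    refine ⟨f, fun t ht => ?_, ?_⟩
    · rw [e]
      have := h1 ht
      simp only [mem_insert, mem_singleton] at this
      rcases this with rfl | rfl <;> ring
    · rw [e]
      exact mul_ne_zero (crs fun h => h2 (by simp [h])) (crs fun h => h2 (by simp [h]))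
  card := by simp [ZMod.card]

theorem good3 (hp : 5 ≤ p) : Good (fun (t : Option (ZMod p)) (k : Fin 4 → ZMod p) => kv k (pt t)) 4
    where
  add t v w := by simp only [kv, Pi.add_apply]; ring
  smul t a v := by simp only [kv, Pi.smul_apply, smul_eq_mul]; ring
  sep T a ha hT := by
    obtain ⟨U, h1, h2, h3⟩ := exists_sup 3 (by omega) T a ha (by omega)
    obtain ⟨t1, t2, t3, -, -, -, rfl⟩ := card_eq_three.1 h3
    obtain ⟨f, e⟩ : ∃ f : Fin 4 → ZMod p, ∀ t, kv f (pt t) =
        ((pt t1).2 * (pt t).1 - (pt t1).1 * (pt t).2) *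
        ((pt t2).2 * (pt t).1 - (pt t2).1 * (pt t).2) *
        ((pt t3).2 * (pt t).1 - (pt t3).1 * (pt t).2) := by
      refine ⟨![(pt t1).2 * (pt t2).2 * (pt t3).2,
        -((pt t1).2 * (pt t2).2 * (pt t3).1 + (pt t1).2 * (pt t2).1 * (pt t3).2 +
          (pt t1).1 * (pt t2).2 * (pt t3).2),
        (pt t1).2 * (pt t2).1 * (pt t3).1 + (pt t1).1 * (pt t2).2 * (pt t3).1 +
          (pt t1).1 * (pt t2).1 * (pt t3).2,
        -((pt t1).1 * (pt t2).1 * (pt t3).1)], fun t => ?_⟩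
      simp [kv]
      ring
    refine ⟨f, fun t ht => ?_, ?_⟩
    · rw [e]
      have := h1 ht
      simp only [mem_insert, mem_singleton] at this
      rcases this with rfl | rfl | rfl <;> ring
    · rw [e]
      exact mul_ne_zero (mul_ne_zero (crs fun h => h2 (by simp [h]))
        (crs fun h => h2 (by simp [h]))) (crs fun h => h2 (by simp [h]))
  card := by simp [ZMod.card]

/-! ### Homogeneous functions -/

theorem sum_hom (h : ZMod p × ZMod p → ℚ)
    (hs : ∀ (l : ZMod p) (w : ZMod p × ZMod p), l ≠ 0 → h (l * w.1, l * w.2) = h w) :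
    ∑ w, h w = h (0, 0) + ((p : ℚ) - 1) * ∑ t, h (pt t) := by
  have hc : ((univ.erase (0 : ZMod p)).card : ℚ) = (p : ℚ) - 1 := by
    have h2 := (Fact.out : p.Prime).one_lt
    rw [card_erase_of_mem (mem_univ _), card_univ, ZMod.card, Nat.cast_sub h2.le, Nat.cast_one]
  rw [Fintype.sum_prod_type_right, ← add_sum_erase univ _ (mem_univ (0 : ZMod p)),
    ← add_sum_erase univ _ (mem_univ (0 : ZMod p)), Fintype.sum_option]
  have h1 : ∑ y ∈ univ.erase (0 : ZMod p), h (y, 0) = ((p : ℚ) - 1) * h (pt none) := by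
    rw [sum_congr rfl (g := fun _ => h (pt none)), sum_const, nsmul_eq_mul, hc]
    intro y hy
    have := hs y (1, 0) (ne_of_mem_erase hy)
    simp only [mul_one, mul_zero] at this
    exact this
  have h2 : ∑ z ∈ univ.erase (0 : ZMod p), ∑ y, h (y, z) =
      ((p : ℚ) - 1) * ∑ s, h (pt (some s)) := by
    rw [sum_congr rfl (g := fun _ => ∑ s, h (pt (some s))), sum_const, nsmul_eq_mul, hc]
    intro z hz
    have hz' := ne_of_mem_erase hz
    symm
    refine Fintype.sum_equiv (Equiv.mulLeft₀ z hz') _ _ fun s => ?_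
    have := hs z (s, 1) hz'
    simp only [mul_one] at this
    exact this.symm
  rw [h1, h2]
  ring

/-- the coefficients of the two forms -/
def qc (c : Fin 10 → ZMod p) : Fin 3 → ZMod p := ![c 3, c 4, c 5]
def kc (c : Fin 10 → ZMod p) : Fin 4 → ZMod p := ![c 6, c 7, c 8, c 9]

/-- the zeros of `q` -/
def Zq (q : Fin 3 → ZMod p) : Finset (Option (ZMod p)) := univ.filter (fun t => qv q (pt t) = 0)

/-- the common zeros -/
def Zk (q : Fin 3 → ZMod p) (k : Fin 4 → ZMod p) : Finset (Option (ZMod p)) :=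
  (Zq q).filter (fun t => kv k (pt t) = 0)

theorem T_eq {c : Fin 10 → ZMod p} (h0 : c 0 = 0) (h1 : c 1 = 0) (h2 : c 2 = 0) (x : ZMod p)
    (w : ZMod p × ZMod p) : T c x w.1 w.2 = x * qv (qc c) w + kv (kc c) w := by
  unfold T qv kv qc kc
  rw [h0, h1, h2]
  simp
  ring

/-- number of `x` -/
def hx (Q K : ZMod p) : ℚ := if Q ≠ 0 then 1 else if K = 0 then (p : ℚ) else 0

theorem sum_x (Q K : ZMod p) : (∑ x : ZMod p, if x * Q + K = 0 then (1 : ℚ) else 0) = hx Q K := by
  unfold hx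
  by_cases hQ : Q = 0
  · rw [if_neg (not_not.2 hQ)]
    by_cases hK : K = 0
    · rw [if_pos hK, sum_congr rfl (g := fun _ => (1 : ℚ))]
      · simp [ZMod.card]
      · intro x _
        rw [if_pos (by rw [hQ, hK]; ring)]
    · rw [if_neg hK]
      refine sum_eq_zero fun x _ => ?_
      rw [if_neg]
      rw [hQ]
      simpa using hK
  · rw [if_pos hQ, sum_eq_single (-K / Q)]
    · rw [if_pos]
      field_simp
      ring
    · intro x _ hxne
      rw [if_neg]
      intro h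
      apply hxne
      rw [eq_div_iff hQ]
      linear_combination h
    · intro h
      exact absurd (mem_univ _) h

theorem nP_eq {c : Fin 10 → ZMod p} (h0 : c 0 = 0) (h1 : c 1 = 0) (h2 : c 2 = 0) :
    nP c = (p : ℚ) + 2 - (Zq (qc c)).card + p * ((Zk (qc c) (kc c)).card : ℚ) := by
  have hp1 : (p : ℚ) - 1 ≠ 0 := by
    have h3 := (Fact.out : p.Prime).one_lt
    have : (1 : ℚ) < p := by exact_mod_cast h3
    linarith
  have e1 : (Nat.card {v : ZMod p × ZMod p × ZMod p // T c v.1 v.2.1 v.2.2 = 0} : ℚ) =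
      ∑ w : ZMod p × ZMod p, hx (qv (qc c) w) (kv (kc c) w) := by
    rw [Nat.card_eq_fintype_card, Fintype.card_subtype, card_filter, Nat.cast_sum,
      Fintype.sum_prod_type, sum_comm]
    refine sum_congr rfl fun w _ => ?_
    rw [← sum_x]
    refine sum_congr rfl fun x _ => ?_
    simp only [T_eq h0 h1 h2]
    split_ifs <;> simp
  have e2 : ∑ w : ZMod p × ZMod p, hx (qv (qc c) w) (kv (kc c) w) =
      (p : ℚ) + ((p : ℚ) - 1) * ∑ t, hx (qv (qc c) (pt t)) (kv (kc c) (pt t)) := by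
    rw [sum_hom]
    · congr 1
      simp [hx, qv, kv]
    · intro l w hl
      have a1 : qv (qc c) (l * w.1, l * w.2) = l ^ 2 * qv (qc c) w := by unfold qv; ring
      have a2 : kv (kc c) (l * w.1, l * w.2) = l ^ 3 * kv (kc c) w := by unfold kv; ring
      rw [a1, a2]
      unfold hx
      simp only [ne_eq, mul_eq_zero, pow_eq_zero_iff, hl, false_or, OfNat.ofNat_ne_zero,
        not_false_eq_true]
  have e3 : ∑ t : Option (ZMod p), hx (qv (qc c) (pt t)) (kv (kc c) (pt t)) =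
      (p : ℚ) + 1 - (Zq (qc c)).card + p * ((Zk (qc c) (kc c)).card : ℚ) := by
    have a1 : ∀ t : Option (ZMod p), hx (qv (qc c) (pt t)) (kv (kc c) (pt t)) =
        1 - (if qv (qc c) (pt t) = 0 then (1 : ℚ) else 0) +
        p * (if qv (qc c) (pt t) = 0 ∧ kv (kc c) (pt t) = 0 then (1 : ℚ) else 0) := by
      intro t
      unfold hx
      by_cases g1 : qv (qc c) (pt t) = 0
      · by_cases g2 : kv (kc c) (pt t) = 0
        · simp [g1, g2]
        · simp [g1, g2]
      · simp [g1]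
    rw [sum_congr rfl fun t _ => a1 t, sum_add_distrib, sum_sub_distrib, ← mul_sum]
    unfold Zk Zq
    rw [filter_filter, card_filter, card_filter]
    push_cast
    rw [sum_const, card_univ, Fintype.card_option, ZMod.card]
    simp
  unfold nP
  rw [e1, e2, e3]
  field_simp
  ring

/-! ### Sums over the forms -/

theorem sum_split (g : (Fin 3 → ZMod p) → (Fin 4 → ZMod p) → ℚ) :
    (∑ c : Fin 10 → ZMod p, if c 0 = 0 ∧ c 1 = 0 ∧ c 2 = 0 then g (qc c) (kc c) else 0) =
      ∑ q, ∑ k, g q k := by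
  rw [← sum_filter, ← Fintype.sum_prod_type']
  refine sum_nbij' (fun c => (qc c, kc c))
    (fun u => ![0, 0, 0, u.1 0, u.1 1, u.1 2, u.2 0, u.2 1, u.2 2, u.2 3]) ?_ ?_ ?_ ?_ ?_
  · intro c _
    exact mem_univ _
  · intro u _
    rw [mem_filter]
    exact ⟨mem_univ _, rfl, rfl, rfl⟩
  · intro c hc
    rw [mem_filter] at hc
    obtain ⟨-, h0, h1, h2⟩ := hc
    funext i
    fin_cases i
    · exact h0.symm
    · exact h1.symm
    · exact h2.symm
    all_goals rfl
  · intro u _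
    refine Prod.ext ?_ ?_
    · funext i
      fin_cases i <;> rfl
    · funext i
      fin_cases i <;> rfl
  · intro c _
    rfl

theorem Zq_le (hp : 5 ≤ p) {q : Fin 3 → ZMod p} (hq : q ≠ 0) : (Zq q).card ≤ 2 :=
  Nat.lt_succ_iff.1 (zeros_lt (good2 hp) hq)

/-- sum over `k` for a form `q` with at most two zeros -/
theorem inner (hp : 5 ≤ p) (q : Fin 3 → ZMod p) (hq : (Zq q).card ≤ 2) (Ψ : ℕ → ℚ) :
    ∑ k, Ψ (Zk q k).card = ∑ j ∈ range (2 + 1),
      ((((Zq q).card.choose j : ℕ) : ℚ) * (p : ℚ) ^ (4 - j)) * nd Ψ j := by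
  rw [sum_newton univ (fun k => (Zk q k).card) 2
    (fun k _ => (card_filter_le _ _).trans hq)]
  refine sum_congr rfl fun j hj => ?_
  have hj' : j ≤ 4 := by
    have := mem_range.1 hj
    omega
  have h := moment (good3 hp) (Zq q) j hj'
  have h' : ∑ k, ((Zk q k).card).choose j = (Zq q).card.choose j * p ^ (4 - j) := h
  rw [h']
  push_cast
  rfl

/-- sum over `k` for `q = 0` -/
theorem inner0 (hp : 5 ≤ p) (Ψ : ℕ → ℚ) :
    ∑ k : Fin 4 → ZMod p, Ψ (Zk 0 k).card = Ψ (p + 1) + ∑ j ∈ range (3 + 1),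
      ((((p + 1).choose j : ℕ) : ℚ) * ((p : ℚ) ^ (4 - j) - 1)) * nd Ψ j := by
  have hZ : Zq (0 : Fin 3 → ZMod p) = univ := by
    unfold Zq
    rw [filter_eq_self]
    intro t _
    simp [qv]
  have hk0 : (Zk (0 : Fin 3 → ZMod p) 0).card = p + 1 := by
    unfold Zk
    rw [hZ, filter_true_of_mem, card_univ, Fintype.card_option, ZMod.card]
    intro t _
    simp [kv]
  rw [← add_sum_erase univ _ (mem_univ (0 : Fin 4 → ZMod p)), hk0]
  congr 1
  rw [sum_newton (univ.erase (0 : Fin 4 → ZMod p)) (fun k => (Zk 0 k).card) 3]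
  · refine sum_congr rfl fun j hj => ?_
    have hj' : j ≤ 4 := by
      have := mem_range.1 hj
      omega
    have h := moment (good3 hp) (Zq (0 : Fin 3 → ZMod p)) j hj'
    have h' : ∑ k, ((Zk (0 : Fin 3 → ZMod p) k).card).choose j = (p + 1).choose j * p ^ (4 - j) := by
      have h2 : (Zq (0 : Fin 3 → ZMod p)).card = p + 1 := by
        rw [hZ, card_univ, Fintype.card_option, ZMod.card]
      rw [← h2]
      exact h
    rw [← add_sum_erase univ _ (mem_univ (0 : Fin 4 → ZMod p)), hk0] at h'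
    have h3 : (((p + 1).choose j : ℕ) : ℚ) +
        ((∑ k ∈ univ.erase (0 : Fin 4 → ZMod p), ((Zk (0 : Fin 3 → ZMod p) k).card).choose j : ℕ) : ℚ) =
        (((p + 1).choose j : ℕ) : ℚ) * (p : ℚ) ^ (4 - j) := by
      exact_mod_cast h'
    congr 1
    linear_combination h3
  · intro k hk
    have h := zeros_lt (good3 hp) (ne_of_mem_erase hk)
    have h2 : (Zk (0 : Fin 3 → ZMod p) k).card ≤
        (univ.filter (fun t : Option (ZMod p) => kv k (pt t) = 0)).card :=
      card_le_card (by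
        unfold Zk
        exact filter_subset_filter _ (subset_univ _))
    omega

/-- sum over the nonzero forms `q` -/
theorem outer1 (hp : 5 ≤ p) (Ψ : ℕ → ℚ) :
    ∑ q ∈ univ.erase (0 : Fin 3 → ZMod p), Ψ (Zq q).card = ∑ j ∈ range (2 + 1),
      ((((p + 1).choose j : ℕ) : ℚ) * ((p : ℚ) ^ (3 - j) - 1)) * nd Ψ j := by
  rw [sum_newton (univ.erase (0 : Fin 3 → ZMod p)) (fun q => (Zq q).card) 2
    (fun q hq => Zq_le hp (ne_of_mem_erase hq))]
  refine sum_congr rfl fun j hj => ?_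
  have hj' : j ≤ 3 := by
    have := mem_range.1 hj
    omega
  have h := moment (good2 hp) (univ : Finset (Option (ZMod p))) j hj'
  have h' : ∑ q : Fin 3 → ZMod p, ((Zq q).card).choose j = (p + 1).choose j * p ^ (3 - j) := by
    have h2 : (univ : Finset (Option (ZMod p))).card = p + 1 := by
      rw [card_univ, Fintype.card_option, ZMod.card]
    rw [← h2]
    exact h
  have hZ : (Zq (0 : Fin 3 → ZMod p)).card = p + 1 := by
    unfold Zq
    rw [filter_true_of_mem, card_univ, Fintype.card_option, ZMod.card]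
    intro t _
    simp [qv]
  rw [← add_sum_erase univ _ (mem_univ (0 : Fin 3 → ZMod p)), hZ] at h'
  have h3 : (((p + 1).choose j : ℕ) : ℚ) +
      ((∑ q ∈ univ.erase (0 : Fin 3 → ZMod p), ((Zq q).card).choose j : ℕ) : ℚ) =
      (((p + 1).choose j : ℕ) : ℚ) * (p : ℚ) ^ (3 - j) := by
    exact_mod_cast h'
  congr 1
  linear_combination h3

/-- sum over the forms `q` with `q 0 ≠ 0` -/
theorem outer2 (hp : 5 ≤ p) (Ψ : ℕ → ℚ) :
    ∑ q ∈ univ.filter (fun q : Fin 3 → ZMod p => q 0 ≠ 0), Ψ (Zq q).card =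
      ∑ j ∈ range (2 + 1),
      (((p.choose j : ℕ) : ℚ) * ((p : ℚ) ^ (3 - j) - (p : ℚ) ^ (2 - j))) * nd Ψ j := by
  have hne : ∀ q ∈ univ.filter (fun q : Fin 3 → ZMod p => q 0 ≠ 0), q ≠ 0 := by
    intro q hq h
    rw [mem_filter, h] at hq
    exact hq.2 rfl
  rw [sum_newton _ (fun q => (Zq q).card) 2 (fun q hq => Zq_le hp (hne q hq))]
  refine sum_congr rfl fun j hj => ?_
  have hj' : j ≤ 2 := by
    have := mem_range.1 hj
    omega
  set S : Finset (Option (ZMod p)) := univ.erase none with hS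
  have hSc : S.card = p := by
    rw [hS, card_erase_of_mem (mem_univ _), card_univ, Fintype.card_option, ZMod.card]
    omega
  have m1 := moment (good2 hp) S j (by omega)
  have m2 := moment' (good2 hp) {none} S (by rw [disjoint_singleton_left, hS]; simp) j
    (by rw [card_singleton]; omega)
  rw [hSc] at m1 m2
  rw [card_singleton, show 3 - (j + 1) = 2 - j by omega] at m2
  have e1 : ∀ q : Fin 3 → ZMod p, (∀ t ∈ ({none} : Finset (Option (ZMod p))), qv q (pt t) = 0) ↔
      q 0 = 0 := by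
    intro q
    simp [qv, pt]
  simp only [e1] at m2
  have e2 : ∀ q ∈ univ.filter (fun q : Fin 3 → ZMod p => ¬ q 0 = 0), ((Zq q).card).choose j =
      ((S.filter (fun t => qv q (pt t) = 0)).card).choose j := by
    intro q hq
    have h0 := (mem_filter.1 hq).2
    congr 2
    unfold Zq
    ext t
    simp only [mem_filter, mem_univ, true_and, hS, mem_erase, and_true]
    constructor
    · intro h
      refine ⟨?_, h⟩
      rintro rfl
      apply h0
      simpa [qv, pt] using h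
    · exact fun h => h.2
  have m3 := sum_filter_add_sum_filter_not univ (fun q : Fin 3 → ZMod p => q 0 = 0)
    (fun q => ((S.filter (fun t => qv q (pt t) = 0)).card).choose j)
  rw [m1, m2, ← sum_congr rfl e2] at m3
  have m4 : ((p.choose j : ℕ) : ℚ) * (p : ℚ) ^ (2 - j) +
      ((∑ q ∈ univ.filter (fun q : Fin 3 → ZMod p => ¬ q 0 = 0), ((Zq q).card).choose j : ℕ) : ℚ) =
      ((p.choose j : ℕ) : ℚ) * (p : ℚ) ^ (3 - j) := by
    exact_mod_cast m3
  congr 1
  linear_combination m4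

end

/-! ### Rational functions -/

theorem descFactorial_ff (n j : ℕ) : ((n.descFactorial j : ℕ) : ℚ) = UR.ff n j := by
  induction j with
  | zero => simp [UR.ff]
  | succ j ih =>
    rw [Nat.descFactorial_succ, Nat.cast_mul, ih]
    unfold UR.ff
    rw [prod_range_succ]
    rcases le_or_gt j n with h | h
    · rw [Nat.cast_sub h]
      ring
    · have h0 : ∏ i ∈ range j, ((n : ℚ) - i) = 0 :=
        prod_eq_zero (mem_range.2 h) (sub_self _)
      rw [h0]
      ring

theorem RatF.choose (a j : ℕ) : RatF (fun p => Nat.cast ((p + a).choose j)) := by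
  refine (RatF.div (RatF.ff (RatF.add RatF.id (RatF.const a)) j) (RatF.const (j.factorial : ℚ))
    (fun p _ _ => by exact_mod_cast j.factorial_ne_zero)).congr fun p _ _ => ?_
  have h := Nat.descFactorial_eq_factorial_mul_choose (p + a) j
  have h2 : (((p + a).descFactorial j : ℕ) : ℚ) =
      (j.factorial : ℚ) * (((p + a).choose j : ℕ) : ℚ) := by exact_mod_cast h
  rw [descFactorial_ff] at h2
  push_cast at h2
  rw [h2, mul_div_cancel_left₀]
  exact_mod_cast j.factorial_ne_zero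

/-- value as a function of the numbers of zeros -/
def fv (Φ : Polynomial ℚ) (p m i : ℕ) : ℚ := Φ.eval ((p : ℚ) + 2 - m + p * i)

/-- sum over `k` as a function of the number of zeros of `q` -/
def Wf (Φ : Polynomial ℚ) (p m : ℕ) : ℚ := ∑ j ∈ range (2 + 1),
  (((m.choose j : ℕ) : ℚ) * (p : ℚ) ^ (4 - j)) * nd (fv Φ p m) j

theorem ratF_fv (Φ : Polynomial ℚ) (m i : ℕ) : RatF (fun p => fv Φ p m i) := by
  refine RatF.evalPoly Φ ?_
  exact ((RatF.id.add (RatF.const 2)).sub (RatF.const m)).add (RatF.id.mul (RatF.const i))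

theorem ratF_Wf (Φ : Polynomial ℚ) (m : ℕ) : RatF (fun p => Wf Φ p m) := by
  refine RatF.sum _ _ fun j _ => ?_
  exact RatF.mul ((RatF.const _).mul (RatF.pPow _)) (RatF.nd (fun i => ratF_fv Φ m i) j)

/-- value for `q = 0` -/
def f0 (Φ : Polynomial ℚ) (p i : ℕ) : ℚ := Φ.eval (1 + (p : ℚ) * i)

theorem ratF_f0 (Φ : Polynomial ℚ) (i : ℕ) : RatF (fun p => f0 Φ p i) :=
  RatF.evalPoly Φ ((RatF.const 1).add (RatF.id.mul (RatF.const i)))

theorem eval_nP (Φ : Polynomial ℚ) {p : ℕ} [Fact p.Prime] {c : Fin 10 → ZMod p} (h0 : c 0 = 0)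
    (h1 : c 1 = 0) (h2 : c 2 = 0) :
    Φ.eval (nP c) = fv Φ p (Zq (qc c)).card (Zk (qc c) (kc c)).card := by
  rw [nP_eq h0 h1 h2]
  rfl

theorem inner_W (Φ : Polynomial ℚ) {p : ℕ} [Fact p.Prime] (hp : 5 ≤ p) {q : Fin 3 → ZMod p}
    (hq : q ≠ 0) : ∑ k, fv Φ p (Zq q).card (Zk q k).card = Wf Φ p (Zq q).card :=
  inner hp q (Zq_le hp hq) _

theorem first (Φ : Polynomial ℚ) (p : ℕ) [Fact p.Prime] (hp : 5 ≤ p) :
    (∑ c : Fin 10 → ZMod p, if c 0 = 0 ∧ c 1 = 0 ∧ c 2 = 0 then Φ.eval (nP c) else 0) =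
    (Φ.eval (1 + (p : ℚ) * (p + 1)) + ∑ j ∈ range (3 + 1),
      ((((p + 1).choose j : ℕ) : ℚ) * ((p : ℚ) ^ (4 - j) - 1)) * nd (f0 Φ p) j) +
    ∑ j ∈ range (2 + 1),
      ((((p + 1).choose j : ℕ) : ℚ) * ((p : ℚ) ^ (3 - j) - 1)) * nd (Wf Φ p) j := by
  have e1 : (∑ c : Fin 10 → ZMod p, if c 0 = 0 ∧ c 1 = 0 ∧ c 2 = 0 then Φ.eval (nP c) else 0) =
      ∑ q : Fin 3 → ZMod p, ∑ k : Fin 4 → ZMod p, fv Φ p (Zq q).card (Zk q k).card := by
    rw [← sum_split]
    refine sum_congr rfl fun c _ => ?_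
    by_cases h : c 0 = 0 ∧ c 1 = 0 ∧ c 2 = 0
    · rw [if_pos h, if_pos h, eval_nP Φ h.1 h.2.1 h.2.2]
    · rw [if_neg h, if_neg h]
  rw [e1, ← add_sum_erase univ _ (mem_univ (0 : Fin 3 → ZMod p)), ← outer1 hp]
  congr 1
  · have hZ : (Zq (0 : Fin 3 → ZMod p)).card = p + 1 := by
      unfold Zq
      rw [filter_true_of_mem, card_univ, Fintype.card_option, ZMod.card]
      intro t _
      simp [qv]
    have e2 : ∀ i : ℕ, fv Φ p (p + 1) i = f0 Φ p i := by
      intro i
      unfold fv f0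
      congr 1
      push_cast
      ring
    rw [hZ]
    simp only [e2]
    rw [inner0 hp]
    congr 1
    unfold f0
    push_cast
    rfl
  · exact sum_congr rfl fun q hq => inner_W Φ hp (ne_of_mem_erase hq)

theorem second (Φ : Polynomial ℚ) (p : ℕ) [Fact p.Prime] (hp : 5 ≤ p) :
    (∑ c : Fin 10 → ZMod p, if c 0 = 0 ∧ c 1 = 0 ∧ c 2 = 0 ∧ c 3 ≠ 0 then Φ.eval (nP c) else 0) =
    ∑ j ∈ range (2 + 1),
      (((p.choose j : ℕ) : ℚ) * ((p : ℚ) ^ (3 - j) - (p : ℚ) ^ (2 - j))) * nd (Wf Φ p) j := by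
  have e1 : (∑ c : Fin 10 → ZMod p,
      if c 0 = 0 ∧ c 1 = 0 ∧ c 2 = 0 ∧ c 3 ≠ 0 then Φ.eval (nP c) else 0) =
      ∑ q : Fin 3 → ZMod p, ∑ k : Fin 4 → ZMod p,
        if q 0 ≠ 0 then fv Φ p (Zq q).card (Zk q k).card else 0 := by
    rw [← sum_split]
    refine sum_congr rfl fun c _ => ?_
    have h3 : qc c 0 = c 3 := rfl
    by_cases h : c 0 = 0 ∧ c 1 = 0 ∧ c 2 = 0
    · rw [if_pos h, h3]
      by_cases h4 : c 3 = 0
      · rw [if_neg (fun h5 => h5.2.2.2 h4), if_neg (not_not.2 h4)]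
      · rw [if_pos ⟨h.1, h.2.1, h.2.2, h4⟩, if_pos h4, eval_nP Φ h.1 h.2.1 h.2.2]
    · rw [if_neg h, if_neg (fun h5 => h ⟨h5.1, h5.2.1, h5.2.2.1⟩)]
  rw [e1, ← outer2 hp, sum_filter]
  refine sum_congr rfl fun q _ => ?_
  by_cases h : q 0 = 0
  · simp [h]
  · have hq : q ≠ 0 := by
      rintro rfl
      exact h rfl
    simp only [ne_eq, h, not_false_eq_true, if_true]
    exact inner_W Φ hp hq

theorem sing : S_SING := by
  intro Φ
  constructor
  · refine RatF.congr (RatF.add (RatF.add (RatF.evalPoly Φ ((RatF.const 1).add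
      (RatF.id.mul (RatF.id.add (RatF.const 1))))) (RatF.sum (range (3 + 1)) _ fun j _ =>
        RatF.mul (RatF.mul (RatF.choose 1 j) ((RatF.pPow (4 - j)).sub (RatF.const 1)))
          (RatF.nd (fun i => ratF_f0 Φ i) j)))
      (RatF.sum (range (2 + 1)) _ fun j _ =>
        RatF.mul (RatF.mul (RatF.choose 1 j) ((RatF.pPow (3 - j)).sub (RatF.const 1)))
          (RatF.nd (fun i => ratF_Wf Φ i) j))) fun p _ hp => ?_
    exact first Φ p hp
  · refine RatF.congr (RatF.sum (range (2 + 1)) _ fun j _ =>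
        RatF.mul (RatF.mul (RatF.choose 0 j) ((RatF.pPow (3 - j)).sub (RatF.pPow (2 - j))))
          (RatF.nd (fun i => ratF_Wf Φ i) j)) fun p _ hp => ?_
    exact second Φ p hp

end Pool.Agent.NH28.UR.Sing
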