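import Pool.Agent.NH28.UR.Stm
import Pool.Agent.NH28.UR.Rat

set_option autoImplicit false

/-!
# UR-SING, part 1 (helper26): Newton interpolation, forms vanishing on points of the projective line
-/

namespace Pool.Agent.NH28.UR.Sing

open Finset
open Pool.Agent.NH28.UR

/-! ### Newton interpolation -/

/-- iterated differences at `0` -/
def nd (f : ℕ → ℚ) (j : ℕ) : ℚ :=
  ∑ i ∈ range (j + 1), (-1) ^ (j - i) * (j.choose i : ℚ) * f i

theorem nd_eq (f : ℕ → ℚ) (j : ℕ) : nd f j = (fwdDiff (1 : ℕ))^[j] f 0 := by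
  rw [fwdDiff_iter_eq_sum_shift]
  unfold nd
  refine sum_congr rfl fun i _ => ?_
  simp [zsmul_eq_mul]

theorem newton (f : ℕ → ℚ) {z n : ℕ} (h : z ≤ n) :
    f z = ∑ j ∈ range (n + 1), (z.choose j : ℚ) * nd f j := by
  have h1 := shift_eq_sum_fwdDiff_iter (1 : ℕ) f z 0
  have h2 : f z = ∑ j ∈ range (z + 1), (z.choose j : ℚ) * nd f j := by
    have h3 : (0 : ℕ) + z • 1 = z := by simp
    rw [h3] at h1
    rw [h1]
    refine sum_congr rfl fun j _ => ?_
    rw [nd_eq, nsmul_eq_mul]
  rw [h2]
  refine sum_subset (range_subset_range.2 (by omega)) fun j _ hj => ?_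
  rw [Nat.choose_eq_zero_of_lt (by simpa using hj)]
  simp

theorem sum_newton {ι : Type*} (s : Finset ι) (z : ι → ℕ) (n : ℕ) (h : ∀ i ∈ s, z i ≤ n)
    (f : ℕ → ℚ) : ∑ i ∈ s, f (z i) =
      ∑ j ∈ range (n + 1), (((∑ i ∈ s, (z i).choose j : ℕ)) : ℚ) * nd f j := by
  rw [sum_congr rfl fun i hi => newton f (h i hi), sum_comm]
  refine sum_congr rfl fun j _ => ?_
  rw [← sum_mul]
  push_cast
  rfl

theorem RatF.nd {f : ∀ p : ℕ, [Fact p.Prime] → ℕ → ℚ} (h : ∀ i, RatF (fun p => f p i)) (j : ℕ) :
    RatF (fun p => Sing.nd (f p) j) := by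
  unfold Sing.nd
  refine RatF.sum _ _ fun i _ => ?_
  exact RatF.mul (RatF.const _) (h i)

/-! ### Moments -/

section
variable {p : ℕ} [Fact p.Prime] {V P : Type} [AddCommGroup V] [Module (ZMod p) V] [Fintype V]
  [DecidableEq V] [Fintype P] [DecidableEq P] (ev : P → V → ZMod p)

/-- linear evaluations with enough vectors -/
structure Good (n : ℕ) : Prop where
  add : ∀ t v w, ev t (v + w) = ev t v + ev t w
  smul : ∀ t (a : ZMod p) v, ev t (a • v) = a * ev t v
  sep : ∀ (T : Finset P) (a : P), a ∉ T → T.card < n → ∃ e, (∀ t ∈ T, ev t e = 0) ∧ ev a e ≠ 0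
  card : Fintype.card V = p ^ n

variable {ev} {n : ℕ} (G : Good ev n)
include G

/-- vectors vanishing on a set -/
theorem card_van (T : Finset P) (hT : T.card ≤ n) :
    (univ.filter (fun v => ∀ t ∈ T, ev t v = 0)).card = p ^ (n - T.card) := by
  induction T using Finset.induction_on with
  | empty =>
    simp only [notMem_empty, false_implies, implies_true, filter_true, card_univ, card_empty,
      Nat.sub_zero]
    exact G.card
  | insert a T ha ih =>
    rw [card_insert_of_notMem ha] at hT ⊢
    obtain ⟨e, he, hae⟩ := G.sep T a ha (by omega)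
    have ih' := ih (by omega)
    have key : (univ.filter (fun v => ∀ t ∈ T, ev t v = 0)).card =
        ((univ.filter (fun v => ∀ t ∈ insert a T, ev t v = 0)) ×ˢ
          (univ : Finset (ZMod p))).card := by
      symm
      refine card_nbij' (fun u => u.1 + (u.2 * (ev a e)⁻¹) • e)
        (fun u => (u + (-(ev a u * (ev a e)⁻¹)) • e, ev a u)) ?_ ?_ ?_ ?_
      · intro u hu
        simp only [coe_product, coe_filter, mem_univ, true_and, coe_univ, Set.mem_prod,
          Set.mem_ofPred_eq, Set.mem_univ, and_true, mem_insert, forall_eq_or_imp] at hu ⊢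
        intro t ht
        rw [G.add, G.smul, he t ht, hu.2 t ht]
        ring
      · intro u hu
        simp only [coe_product, coe_filter, mem_univ, true_and, coe_univ, Set.mem_prod,
          Set.mem_ofPred_eq, Set.mem_univ, and_true, mem_insert, forall_eq_or_imp] at hu ⊢
        refine ⟨?_, fun t ht => ?_⟩
        · rw [G.add, G.smul]
          field_simp
          ring
        · rw [G.add, G.smul, he t ht, hu t ht]
          ring
      · intro u hu
        simp only [coe_product, coe_filter, mem_univ, true_and, coe_univ, Set.mem_prod,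
          Set.mem_ofPred_eq, Set.mem_univ, and_true, mem_insert, forall_eq_or_imp] at hu
        have h1 : ev a (u.1 + (u.2 * (ev a e)⁻¹) • e) = u.2 := by
          rw [G.add, G.smul, hu.1]
          field_simp
          ring
        ext1
        · simp only [h1]
          rw [add_assoc, ← add_smul, add_neg_cancel, zero_smul, add_zero]
        · exact h1
      · intro u _
        simp only
        rw [add_assoc, ← add_smul, neg_add_cancel, zero_smul, add_zero]
    rw [card_product, card_univ, ZMod.card, ih'] at key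
    have hp : 0 < p := (Fact.out : p.Prime).pos
    apply Nat.eq_of_mul_eq_mul_right hp
    rw [← key, ← pow_succ]
    congr 1
    omega

theorem moment' (A S : Finset P) (hA : Disjoint A S) (j : ℕ) (hj : j + A.card ≤ n) :
    ∑ v ∈ univ.filter (fun v : V => ∀ t ∈ A, ev t v = 0),
      ((S.filter (fun t => ev t v = 0)).card).choose j =
      S.card.choose j * p ^ (n - (j + A.card)) := by
  have h1 : ∀ v : V, ((S.filter (fun t => ev t v = 0)).card).choose j =
      ∑ T ∈ S.powersetCard j, if ∀ t ∈ T, ev t v = 0 then 1 else 0 := by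
    intro v
    rw [← card_powersetCard, ← sum_filter, sum_const, smul_eq_mul, mul_one]
    congr 1
    ext T
    simp only [mem_powersetCard, mem_filter]
    constructor
    · rintro ⟨h1, h2⟩
      exact ⟨⟨fun t ht => (mem_filter.1 (h1 ht)).1, h2⟩, fun t ht => (mem_filter.1 (h1 ht)).2⟩
    · rintro ⟨⟨h1, h2⟩, h3⟩
      exact ⟨fun t ht => mem_filter.2 ⟨h1 ht, h3 t ht⟩, h2⟩
  rw [sum_congr rfl fun v _ => h1 v, sum_comm]
  have h2 : ∀ T ∈ S.powersetCard j, ∑ v ∈ univ.filter (fun v : V => ∀ t ∈ A, ev t v = 0),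
      (if ∀ t ∈ T, ev t v = 0 then 1 else 0) = p ^ (n - (j + A.card)) := by
    intro T hT
    rw [mem_powersetCard] at hT
    have hd : Disjoint T A := (disjoint_of_subset_right hT.1 hA).symm
    have hc : (T ∪ A).card = j + A.card := by rw [card_union_of_disjoint hd, hT.2]
    rw [← hc, ← card_van G (T ∪ A) (by omega), card_filter, sum_filter]
    refine sum_congr rfl fun v _ => ?_
    by_cases h3 : ∀ t ∈ A, ev t v = 0
    · by_cases h4 : ∀ t ∈ T, ev t v = 0
      · rw [if_pos h3, if_pos h4, if_pos]
        intro t ht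
        rcases mem_union.1 ht with h | h
        · exact h4 t h
        · exact h3 t h
      · rw [if_pos h3, if_neg h4, if_neg]
        intro h
        exact h4 fun t ht => h t (mem_union_left _ ht)
    · rw [if_neg h3, if_neg]
      intro h
      exact h3 fun t ht => h t (mem_union_right _ ht)
  rw [sum_congr rfl h2, sum_const, card_powersetCard, smul_eq_mul]

theorem moment (S : Finset P) (j : ℕ) (hj : j ≤ n) :
    ∑ v : V, ((S.filter (fun t => ev t v = 0)).card).choose j = S.card.choose j * p ^ (n - j) := by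
  have h := moment' G ∅ S (disjoint_empty_left S) j (by simpa using hj)
  simpa using h

omit G in
theorem ev_zero (hadd : ∀ t v w, ev t (v + w) = ev t v + ev t w) (t : P) : ev t 0 = 0 := by
  have := hadd t 0 0
  rw [add_zero] at this
  exact left_eq_add.1 this

/-- a nonzero vector has fewer than `n` zeros -/
theorem zeros_lt {v : V} (hv : v ≠ 0) : (univ.filter (fun t => ev t v = 0)).card < n := by
  by_contra h
  push Not at h
  obtain ⟨T, hT, hTc⟩ := exists_subset_card_eq h
  have h1 := card_van G T hTc.le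
  rw [hTc, Nat.sub_self, pow_zero, card_eq_one] at h1
  obtain ⟨u, hu⟩ := h1
  have h2 : v ∈ univ.filter (fun v => ∀ t ∈ T, ev t v = 0) :=
    mem_filter.2 ⟨mem_univ _, fun t ht => (mem_filter.1 (hT ht)).2⟩
  have h3 : (0 : V) ∈ univ.filter (fun v => ∀ t ∈ T, ev t v = 0) :=
    mem_filter.2 ⟨mem_univ _, fun t _ => ev_zero G.add t⟩
  rw [hu, mem_singleton] at h2 h3
  exact hv (h2.trans h3.symm)

end

end Pool.Agent.NH28.UR.Sing
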