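import Pool.Agent.NH28.UR.Stm
import Pool.Agent.NH28.UR.Rat

/-! Project UR, job UR-SUMC + SUM0 (helper70). -/

set_option autoImplicit false
set_option linter.unusedSectionVars false

namespace Pool.Agent.NH28.UR.Sumc

open Finset Pool.Agent.NH28.UR

section
variable {p : ℕ} [Fact p.Prime]

theorem two_ne (hp : 5 ≤ p) : (2 : ZMod p) ≠ 0 := by
  intro h
  have h1 : ((2 : ℕ) : ZMod p) = 0 := by exact_mod_cast h
  rw [ZMod.natCast_eq_zero_iff] at h1
  have := Nat.le_of_dvd (by norm_num) h1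
  omega

theorem four_ne (hp : 5 ≤ p) : (4 : ZMod p) ≠ 0 := by
  have h : (4 : ZMod p) = 2 * 2 := by norm_num
  rw [h]
  exact mul_ne_zero (two_ne hp) (two_ne hp)

theorem sum_ne (a : ℚ) : (∑ m : ZMod p, if m ≠ 0 then a else 0) = ((p : ℚ) - 1) * a := by
  rw [← Finset.sum_filter, Finset.sum_const, Finset.filter_ne', Finset.card_erase_of_mem
    (Finset.mem_univ _), Finset.card_univ, ZMod.card, nsmul_eq_mul]
  have : 1 ≤ p := (Fact.out : p.Prime).one_lt.le
  push_cast [Nat.cast_sub this]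
  rfl

theorem sum_const' (a : ℚ) : (∑ _m : ZMod p, a) = (p : ℚ) * a := by
  rw [Finset.sum_const, Finset.card_univ, ZMod.card, nsmul_eq_mul]

end

theorem sumc (hCnt : S_CNT) : S_SUMC := by
  intro p _ hp Φ
  have h4 := four_ne hp
  have hR : ((p : ℚ) - 1) * (p : ℚ) ^ 2 * (∑ E : Fin 4 → ZMod p,
      if E 0 ≠ 0 then Φ ((p : ℚ) + 1 + sE E) else 0) =
      ∑ z ∈ (univ : Finset (ZMod p × ZMod p × ZMod p × (Fin 4 → ZMod p))).filter
        (fun z => z.1 ≠ 0 ∧ z.2.2.2 0 ≠ 0), Φ ((p : ℚ) + 1 + sE z.2.2.2) := by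
    rw [Finset.sum_filter, Fintype.sum_prod_type]
    have h1 : ∀ m : ZMod p, (∑ y : ZMod p × ZMod p × (Fin 4 → ZMod p),
        if m ≠ 0 ∧ y.2.2 0 ≠ 0 then Φ ((p : ℚ) + 1 + sE y.2.2) else 0) =
        if m ≠ 0 then (p : ℚ) ^ 2 * (∑ E : Fin 4 → ZMod p,
          if E 0 ≠ 0 then Φ ((p : ℚ) + 1 + sE E) else 0) else 0 := by
      intro m
      by_cases hm : m = 0
      · simp [hm]
      · simp only [Fintype.sum_prod_type]
        rw [if_pos hm, pow_two, mul_assoc, ← sum_const', ← sum_const']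
        refine Finset.sum_congr rfl fun u _ => Finset.sum_congr rfl fun v _ =>
          Finset.sum_congr rfl fun E _ => ?_
        simp only [ne_eq, hm, not_false_eq_true, true_and]
    rw [Finset.sum_congr rfl (fun m _ => h1 m), sum_ne, mul_assoc]
  rw [hR, ← Finset.sum_filter]
  refine Finset.sum_nbij'
    (fun c => (c 2, c 4, c 5, ![-4 * c 2 * c 6, c 4 ^ 2 - 4 * c 2 * c 7,
      2 * c 4 * c 5 - 4 * c 2 * c 8, c 5 ^ 2 - 4 * c 2 * c 9]))
    (fun z => ![0, 0, z.1, 0, z.2.1, z.2.2.1, -(z.2.2.2 0) / (4 * z.1),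
      (z.2.1 ^ 2 - z.2.2.2 1) / (4 * z.1), (2 * z.2.1 * z.2.2.1 - z.2.2.2 2) / (4 * z.1),
      (z.2.2.1 ^ 2 - z.2.2.2 3) / (4 * z.1)]) ?_ ?_ ?_ ?_ ?_
  · intro c hc
    rw [Finset.mem_filter] at hc ⊢
    obtain ⟨-, h0, h1, h2, h3, h6⟩ := hc
    refine ⟨Finset.mem_univ _, h2, ?_⟩
    show -4 * c 2 * c 6 ≠ 0
    exact mul_ne_zero (mul_ne_zero (neg_ne_zero.2 h4) h2) h6
  · rintro ⟨m, u, v, E⟩ hz
    rw [Finset.mem_filter] at hz ⊢
    obtain ⟨-, hm, hE⟩ := hz
    refine ⟨Finset.mem_univ _, rfl, rfl, hm, rfl, ?_⟩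
    show -(E 0) / (4 * m) ≠ 0
    exact div_ne_zero (neg_ne_zero.2 hE) (mul_ne_zero h4 hm)
  · intro c hc
    rw [Finset.mem_filter] at hc
    obtain ⟨-, h0, h1, h2, h3, h6⟩ := hc
    funext i
    have h42 : (4 * c 2 : ZMod p) ≠ 0 := mul_ne_zero h4 h2
    fin_cases i
    · exact h0.symm
    · exact h1.symm
    · rfl
    · exact h3.symm
    · rfl
    · rfl
    · show -(-4 * c 2 * c 6) / (4 * c 2) = c 6
      field_simp
    · show (c 4 ^ 2 - (c 4 ^ 2 - 4 * c 2 * c 7)) / (4 * c 2) = c 7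
      field_simp
      ring
    · show (2 * c 4 * c 5 - (2 * c 4 * c 5 - 4 * c 2 * c 8)) / (4 * c 2) = c 8
      field_simp
      ring
    · show (c 5 ^ 2 - (c 5 ^ 2 - 4 * c 2 * c 9)) / (4 * c 2) = c 9
      field_simp
      ring
  · rintro ⟨m, u, v, E⟩ hz
    rw [Finset.mem_filter] at hz
    obtain ⟨-, hm, hE⟩ := hz
    have hm' : m ≠ 0 := hm
    have h42 : (4 * m : ZMod p) ≠ 0 := mul_ne_zero h4 hm'
    have e0 : -4 * m * (-(E 0) / (4 * m)) = E 0 := by field_simp
    have e1 : u ^ 2 - 4 * m * ((u ^ 2 - E 1) / (4 * m)) = E 1 := by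
      rw [mul_div_cancel₀ _ h42]
      ring
    have e2 : 2 * u * v - 4 * m * ((2 * u * v - E 2) / (4 * m)) = E 2 := by
      rw [mul_div_cancel₀ _ h42]
      ring
    have e3 : v ^ 2 - 4 * m * ((v ^ 2 - E 3) / (4 * m)) = E 3 := by
      rw [mul_div_cancel₀ _ h42]
      ring
    refine Prod.ext rfl (Prod.ext rfl (Prod.ext rfl ?_))
    funext i
    fin_cases i
    · exact e0
    · exact e1
    · exact e2
    · exact e3
  · intro c hc
    rw [Finset.mem_filter] at hc
    obtain ⟨-, h0, h1, h2, h3, h6⟩ := hc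
    rw [hCnt p hp c h0 h1 h2, if_neg (fun h => h h3), if_neg h6, add_zero]
    congr 3
    unfold sE
    refine Finset.sum_congr rfl fun y _ => ?_
    congr 1
    simp only [Matrix.cons_val]
    rw [h3]
    ring

/-! ### quadratic polynomials -/

section
variable {p : ℕ} [Fact p.Prime]

theorem ringChar_ne (hp : 5 ≤ p) : ringChar (ZMod p) ≠ 2 := by
  rw [ZMod.ringChar_zmod_n]
  omega

theorem sum_chi (hp : 5 ≤ p) : (∑ a : ZMod p, quadraticChar (ZMod p) a) = 0 :=
  quadraticChar_sum_zero (ringChar_ne hp)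

theorem sum_chi_sq : (∑ a : ZMod p, (quadraticChar (ZMod p) a) ^ 2) = (p : ℤ) - 1 := by
  have h1 : ∀ a : ZMod p, (quadraticChar (ZMod p) a) ^ 2 = 1 - if a = 0 then 1 else 0 := by
    intro a
    by_cases h : a = 0
    · rw [h, quadraticChar_zero, if_pos rfl]
      norm_num
    · rw [quadraticChar_sq_one h, if_neg h]
      norm_num
  rw [Finset.sum_congr rfl (fun a _ => h1 a), Finset.sum_sub_distrib, Finset.sum_const,
    Finset.card_univ, ZMod.card, Finset.sum_ite_eq']
  simp

theorem sum_K (hp : 5 ≤ p) (K : ℤ → ℚ) : (∑ a : ZMod p, K (quadraticChar (ZMod p) a)) =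
    K 0 + ((p : ℚ) - 1) / 2 * (K 1 + K (-1)) := by
  have h1 : ∀ a : ZMod p, K (quadraticChar (ZMod p) a) =
      K 0 * (1 - ((quadraticChar (ZMod p) a : ℤ) : ℚ) ^ 2) +
      (K 1 + K (-1)) / 2 * ((quadraticChar (ZMod p) a : ℤ) : ℚ) ^ 2 +
      (K 1 - K (-1)) / 2 * ((quadraticChar (ZMod p) a : ℤ) : ℚ) := by
    intro a
    by_cases h : a = 0
    · rw [h, quadraticChar_zero]
      norm_num
    · rcases quadraticChar_dichotomy h with h2 | h2
      · rw [h2]
        push_cast
        ring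
      · rw [h2]
        push_cast
        ring
  have h2 : (∑ a : ZMod p, ((quadraticChar (ZMod p) a : ℤ) : ℚ)) = 0 := by
    have := sum_chi (p := p) hp
    exact_mod_cast this
  have h3 : (∑ a : ZMod p, ((quadraticChar (ZMod p) a : ℤ) : ℚ) ^ 2) = (p : ℚ) - 1 := by
    have := sum_chi_sq (p := p)
    exact_mod_cast this
  rw [Finset.sum_congr rfl (fun a _ => h1 a), Finset.sum_add_distrib, Finset.sum_add_distrib,
    ← Finset.mul_sum, ← Finset.mul_sum, ← Finset.mul_sum, h2, h3, Finset.sum_sub_distrib, h3,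
    sum_const']
  ring

/-- the character sum of `z ^ 2 - D` -/
theorem sum_sq_sub (hp : 5 ≤ p) (D : ZMod p) :
    (∑ z : ZMod p, quadraticChar (ZMod p) (z ^ 2 - D)) = if D = 0 then (p : ℤ) - 1 else -1 := by
  classical
  by_cases hD : D = 0
  · rw [if_pos hD, ← sum_chi_sq]
    refine Finset.sum_congr rfl fun z _ => ?_
    rw [hD, sub_zero, map_pow]
  · rw [if_neg hD]
    have h2 := two_ne hp
    have hcount : ∀ z : ZMod p, quadraticChar (ZMod p) (z ^ 2 - D) =
        ((Finset.univ.filter fun x : ZMod p => x ^ 2 = z ^ 2 - D).card : ℤ) - 1 := by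
      intro z
      have h3 := quadraticChar_card_sqrts (ringChar_ne hp) (z ^ 2 - D)
      rw [Set.toFinset_ofPred] at h3
      rw [h3]
      ring
    have hpairs : (∑ z : ZMod p,
        ((Finset.univ.filter fun x : ZMod p => x ^ 2 = z ^ 2 - D).card : ℤ)) = (p : ℤ) - 1 := by
      have h3 : (∑ z : ZMod p, (Finset.univ.filter fun x : ZMod p => x ^ 2 = z ^ 2 - D).card) =
          (Finset.univ.filter fun s : ZMod p => s ≠ 0).card := by
        rw [← Finset.card_sigma]
        refine Finset.card_nbij' (fun w => w.1 - w.2)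
          (fun s => ⟨(s + D / s) / 2, (D / s - s) / 2⟩) ?_ ?_ ?_ ?_
        · rintro ⟨z, x⟩ hw
          simp only [Finset.coe_sigma, Set.mem_sigma_iff, Finset.coe_filter, Finset.mem_univ,
            true_and, Set.mem_ofPred_eq, Finset.coe_univ, Set.mem_univ] at hw
          simp only [Finset.coe_filter, Finset.mem_univ, true_and, Set.mem_ofPred_eq]
          intro h
          apply hD
          have h4 : z = x := sub_eq_zero.1 h
          rw [h4] at hw
          linear_combination hw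
        · intro s hs
          simp only [Finset.coe_filter, Finset.mem_univ, true_and, Set.mem_ofPred_eq] at hs
          simp only [Finset.coe_sigma, Set.mem_sigma_iff, Finset.coe_filter, Finset.mem_univ,
            true_and, Set.mem_ofPred_eq, Finset.coe_univ, Set.mem_univ]
          have h4 := four_ne hp
          field_simp
          ring
        · rintro ⟨z, x⟩ hw
          simp only [Finset.coe_sigma, Set.mem_sigma_iff, Finset.coe_filter, Finset.mem_univ,
            true_and, Set.mem_ofPred_eq, Finset.coe_univ, Set.mem_univ] at hw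
          have h5 : z - x ≠ 0 := by
            intro h
            apply hD
            have h4 : z = x := sub_eq_zero.1 h
            rw [h4] at hw
            linear_combination hw
          have h6 : D / (z - x) = z + x := by
            rw [div_eq_iff h5]
            linear_combination hw
          have h7 : ((z - x) + (z + x)) / 2 = z := by
            rw [div_eq_iff h2]
            ring
          have h8 : ((z + x) - (z - x)) / 2 = x := by
            rw [div_eq_iff h2]
            ring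
          show (⟨((z - x) + D / (z - x)) / 2, (D / (z - x) - (z - x)) / 2⟩ :
            Σ _ : ZMod p, ZMod p) = ⟨z, x⟩
          rw [h6, h7, h8]
        · intro s hs
          show (s + D / s) / 2 - (D / s - s) / 2 = s
          rw [← sub_div, div_eq_iff h2]
          ring
      rw [← Nat.cast_sum, h3, Finset.filter_ne', Finset.card_erase_of_mem (Finset.mem_univ _),
        Finset.card_univ, ZMod.card]
      have : 1 ≤ p := (Fact.out : p.Prime).one_lt.le
      push_cast [Nat.cast_sub this]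
      rfl
    rw [Finset.sum_congr rfl (fun z _ => hcount z), Finset.sum_sub_distrib, hpairs,
      Finset.sum_const, Finset.card_univ, ZMod.card]
    simp

/-- the character sum of a quadratic polynomial -/
theorem sum_quad (hp : 5 ≤ p) (a b c : ZMod p) (ha : a ≠ 0) :
    (∑ y : ZMod p, quadraticChar (ZMod p) (a * y ^ 2 + b * y + c)) =
      quadraticChar (ZMod p) a * if b ^ 2 - 4 * a * c = 0 then (p : ℤ) - 1 else -1 := by
  have h2 := two_ne hp
  have h2a : (2 * a : ZMod p) ≠ 0 := mul_ne_zero h2 ha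
  rw [← sum_sq_sub hp, Finset.mul_sum]
  let e : ZMod p ≃ ZMod p :=
    { toFun := fun y => 2 * a * y + b
      invFun := fun z => (z - b) / (2 * a)
      left_inv := fun y => by field_simp; ring
      right_inv := fun z => by field_simp; ring }
  refine Fintype.sum_equiv e _ _ fun y => ?_
  show quadraticChar (ZMod p) (a * y ^ 2 + b * y + c) =
    quadraticChar (ZMod p) a * quadraticChar (ZMod p) ((2 * a * y + b) ^ 2 - (b ^ 2 - 4 * a * c))
  have h3 : (2 * a * y + b) ^ 2 - (b ^ 2 - 4 * a * c) =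
      2 ^ 2 * (a * (a * y ^ 2 + b * y + c)) := by ring
  rw [h3, map_mul, map_mul, map_pow, quadraticChar_sq_one h2, one_mul, ← mul_assoc, ← pow_two,
    quadraticChar_sq_one ha, one_mul]

/-- linear polynomials -/
theorem sum_lin (hp : 5 ≤ p) (b c : ZMod p) (hb : b ≠ 0) :
    (∑ y : ZMod p, quadraticChar (ZMod p) (b * y + c)) = 0 := by
  rw [← sum_chi (p := p) hp]
  let e : ZMod p ≃ ZMod p :=
    { toFun := fun y => b * y + c
      invFun := fun z => (z - c) / b
      left_inv := fun y => by field_simp; ring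
      right_inv := fun z => by field_simp; ring }
  exact Fintype.sum_equiv e _ _ fun y => rfl

end

theorem sum0 (hCnt : S_CNT) : S_SUM0 := by
  intro Φ
  have key : ∀ (p : ℕ) [Fact p.Prime], 5 ≤ p →
      (∑ c : Fin 10 → ZMod p, if c 0 = 0 ∧ c 1 = 0 ∧ c 2 ≠ 0 ∧ c 3 = 0 ∧ c 6 = 0
        then Φ.eval (nP c) else 0) =
      ((p : ℚ) - 1) * (p : ℚ) ^ 2 * (((p : ℚ) - 1) / 2 * (
        (p : ℚ) * (Φ.eval (2 * (p : ℚ) + 1 + ((p : ℚ) - 1)) +
          ((p : ℚ) - 1) * Φ.eval (2 * (p : ℚ) + 1 - 1)) +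
        (p : ℚ) * (Φ.eval (2 * (p : ℚ) + 1 - ((p : ℚ) - 1)) +
          ((p : ℚ) - 1) * Φ.eval (2 * (p : ℚ) + 1 + 1))) +
        ((p : ℚ) - 1) * ((p : ℚ) * Φ.eval (2 * (p : ℚ) + 1)) +
        (Φ.eval (2 * (p : ℚ) + 1) + ((p : ℚ) - 1) / 2 *
          (Φ.eval (2 * (p : ℚ) + 1 + (p : ℚ)) + Φ.eval (2 * (p : ℚ) + 1 - (p : ℚ))))) := by
    intro p _ hp
    have h4 := four_ne hp
    have hR : ((p : ℚ) - 1) * (p : ℚ) ^ 2 * (∑ a : ZMod p, ∑ b : ZMod p, ∑ c : ZMod p,
        Φ.eval (2 * (p : ℚ) + 1 +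
          ((∑ y : ZMod p, quadraticChar (ZMod p) (a * y ^ 2 + b * y + c) : ℤ) : ℚ))) =
        ∑ z ∈ (univ : Finset (ZMod p × ZMod p × ZMod p × ZMod p × ZMod p × ZMod p)).filter
          (fun z => z.1 ≠ 0), Φ.eval (2 * (p : ℚ) + 1 +
          ((∑ y : ZMod p, quadraticChar (ZMod p)
            (z.2.2.2.1 * y ^ 2 + z.2.2.2.2.1 * y + z.2.2.2.2.2) : ℤ) : ℚ)) := by
      rw [Finset.sum_filter]
      simp only [Fintype.sum_prod_type]
      have h1 : ∀ m : ZMod p, (∑ _u : ZMod p, ∑ _v : ZMod p, ∑ a : ZMod p, ∑ b : ZMod p,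
          ∑ c : ZMod p, if m ≠ 0 then Φ.eval (2 * (p : ℚ) + 1 +
          ((∑ y : ZMod p, quadraticChar (ZMod p) (a * y ^ 2 + b * y + c) : ℤ) : ℚ)) else 0) =
          if m ≠ 0 then (p : ℚ) ^ 2 * (∑ a : ZMod p, ∑ b : ZMod p, ∑ c : ZMod p,
            Φ.eval (2 * (p : ℚ) + 1 +
          ((∑ y : ZMod p, quadraticChar (ZMod p) (a * y ^ 2 + b * y + c) : ℤ) : ℚ))) else 0 := by
        intro m
        by_cases hm : m = 0
        · simp [hm]
        · rw [if_pos hm, pow_two, mul_assoc, ← sum_const', ← sum_const']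
          refine Finset.sum_congr rfl fun u _ => Finset.sum_congr rfl fun v _ =>
            Finset.sum_congr rfl fun a _ => Finset.sum_congr rfl fun b _ =>
            Finset.sum_congr rfl fun c _ => ?_
          rw [if_pos hm]
      rw [Finset.sum_congr rfl (fun m _ => h1 m), sum_ne, mul_assoc]
    have hL : (∑ c : Fin 10 → ZMod p, if c 0 = 0 ∧ c 1 = 0 ∧ c 2 ≠ 0 ∧ c 3 = 0 ∧ c 6 = 0
        then Φ.eval (nP c) else 0) =
        ((p : ℚ) - 1) * (p : ℚ) ^ 2 * (∑ a : ZMod p, ∑ b : ZMod p, ∑ c : ZMod p,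
        Φ.eval (2 * (p : ℚ) + 1 +
          ((∑ y : ZMod p, quadraticChar (ZMod p) (a * y ^ 2 + b * y + c) : ℤ) : ℚ))) := by
      rw [hR, ← Finset.sum_filter]
      refine Finset.sum_nbij'
        (fun c => (c 2, c 4, c 5, c 4 ^ 2 - 4 * c 2 * c 7,
          2 * c 4 * c 5 - 4 * c 2 * c 8, c 5 ^ 2 - 4 * c 2 * c 9))
        (fun z => ![0, 0, z.1, 0, z.2.1, z.2.2.1, 0,
          (z.2.1 ^ 2 - z.2.2.2.1) / (4 * z.1), (2 * z.2.1 * z.2.2.1 - z.2.2.2.2.1) / (4 * z.1),
          (z.2.2.1 ^ 2 - z.2.2.2.2.2) / (4 * z.1)]) ?_ ?_ ?_ ?_ ?_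
      · intro c hc
        rw [Finset.mem_filter] at hc ⊢
        obtain ⟨-, h0, h1, h2, h3, h6⟩ := hc
        exact ⟨Finset.mem_univ _, h2⟩
      · rintro ⟨m, u, v, E⟩ hz
        rw [Finset.mem_filter] at hz ⊢
        obtain ⟨-, hm⟩ := hz
        exact ⟨Finset.mem_univ _, rfl, rfl, hm, rfl, rfl⟩
      · intro c hc
        rw [Finset.mem_filter] at hc
        obtain ⟨-, h0, h1, h2, h3, h6⟩ := hc
        funext i
        have h42 : (4 * c 2 : ZMod p) ≠ 0 := mul_ne_zero h4 h2
        fin_cases i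
        · exact h0.symm
        · exact h1.symm
        · rfl
        · exact h3.symm
        · rfl
        · rfl
        · exact h6.symm
        · show (c 4 ^ 2 - (c 4 ^ 2 - 4 * c 2 * c 7)) / (4 * c 2) = c 7
          field_simp
          ring
        · show (2 * c 4 * c 5 - (2 * c 4 * c 5 - 4 * c 2 * c 8)) / (4 * c 2) = c 8
          field_simp
          ring
        · show (c 5 ^ 2 - (c 5 ^ 2 - 4 * c 2 * c 9)) / (4 * c 2) = c 9
          field_simp
          ring
      · rintro ⟨m, u, v, a, b, c⟩ hz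
        rw [Finset.mem_filter] at hz
        obtain ⟨-, hm⟩ := hz
        have hm' : m ≠ 0 := hm
        have h42 : (4 * m : ZMod p) ≠ 0 := mul_ne_zero h4 hm'
        have e1 : u ^ 2 - 4 * m * ((u ^ 2 - a) / (4 * m)) = a := by
          rw [mul_div_cancel₀ _ h42]
          ring
        have e2 : 2 * u * v - 4 * m * ((2 * u * v - b) / (4 * m)) = b := by
          rw [mul_div_cancel₀ _ h42]
          ring
        have e3 : v ^ 2 - 4 * m * ((v ^ 2 - c) / (4 * m)) = c := by
          rw [mul_div_cancel₀ _ h42]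
          ring
        exact Prod.ext rfl (Prod.ext rfl (Prod.ext rfl (Prod.ext e1 (Prod.ext e2 e3))))
      · intro c hc
        rw [Finset.mem_filter] at hc
        obtain ⟨-, h0, h1, h2, h3, h6⟩ := hc
        rw [hCnt p hp c h0 h1 h2, if_neg (fun h => h h3), if_pos h6]
        congr 1
        have h7 : (∑ y : ZMod p, quadraticChar (ZMod p) ((c 3 * y ^ 2 + c 4 * y + c 5) ^ 2 -
            4 * c 2 * (c 6 * y ^ 3 + c 7 * y ^ 2 + c 8 * y + c 9))) =
            ∑ y : ZMod p, quadraticChar (ZMod p) ((c 4 ^ 2 - 4 * c 2 * c 7) * y ^ 2 +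
              (2 * c 4 * c 5 - 4 * c 2 * c 8) * y + (c 5 ^ 2 - 4 * c 2 * c 9)) := by
          refine Finset.sum_congr rfl fun y _ => ?_
          congr 1
          rw [h3, h6]
          ring
        rw [h7]
        ring
    rw [hL]
    congr 1
    -- the three cases
    have hA : ∀ a : ZMod p, a ≠ 0 → (∑ b : ZMod p, ∑ c : ZMod p,
        Φ.eval (2 * (p : ℚ) + 1 +
          ((∑ y : ZMod p, quadraticChar (ZMod p) (a * y ^ 2 + b * y + c) : ℤ) : ℚ))) =
        (p : ℚ) * (Φ.eval (2 * (p : ℚ) + 1 + (quadraticChar (ZMod p) a : ℤ) * ((p : ℚ) - 1)) +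
          ((p : ℚ) - 1) * Φ.eval (2 * (p : ℚ) + 1 - (quadraticChar (ZMod p) a : ℤ))) := by
      intro a ha
      rw [← sum_const']
      refine Finset.sum_congr rfl fun b _ => ?_
      have h4a : (4 * a : ZMod p) ≠ 0 := mul_ne_zero h4 ha
      let e : ZMod p ≃ ZMod p :=
        { toFun := fun c => b ^ 2 - 4 * a * c
          invFun := fun D => (b ^ 2 - D) / (4 * a)
          left_inv := fun c => by field_simp; ring
          right_inv := fun D => by
            show b ^ 2 - 4 * a * ((b ^ 2 - D) / (4 * a)) = D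
            rw [mul_div_cancel₀ _ h4a]
            ring }
      have h5 : (∑ c : ZMod p, Φ.eval (2 * (p : ℚ) + 1 +
          ((∑ y : ZMod p, quadraticChar (ZMod p) (a * y ^ 2 + b * y + c) : ℤ) : ℚ))) =
          ∑ D : ZMod p, if D = 0 then
            Φ.eval (2 * (p : ℚ) + 1 + (quadraticChar (ZMod p) a : ℤ) * ((p : ℚ) - 1)) else
            Φ.eval (2 * (p : ℚ) + 1 - (quadraticChar (ZMod p) a : ℤ)) := by
        refine Fintype.sum_equiv e _ _ fun c => ?_
        rw [sum_quad hp a b c ha]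
        show _ = if b ^ 2 - 4 * a * c = 0 then _ else _
        by_cases hD : b ^ 2 - 4 * a * c = 0
        · rw [if_pos hD, if_pos hD]
          push_cast
          rfl
        · rw [if_neg hD, if_neg hD]
          congr 1
          push_cast
          ring
      rw [h5]
      have h6 : ∀ (α β : ℚ), (∑ D : ZMod p, if D = 0 then α else β) = α + ((p : ℚ) - 1) * β := by
        intro α β
        have h7 : ∀ D : ZMod p, (if D = 0 then α else β) = (if D = 0 then α else 0) +
            if D ≠ 0 then β else 0 := by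
          intro D
          by_cases h : D = 0
          · simp [h]
          · simp [h]
        rw [Finset.sum_congr rfl (fun D _ => h7 D), Finset.sum_add_distrib, sum_ne,
          Finset.sum_ite_eq']
        simp
      exact h6 _ _
    have hB : (∑ b : ZMod p, ∑ c : ZMod p,
        Φ.eval (2 * (p : ℚ) + 1 +
          ((∑ y : ZMod p, quadraticChar (ZMod p) (0 * y ^ 2 + b * y + c) : ℤ) : ℚ))) =
        ((p : ℚ) - 1) * ((p : ℚ) * Φ.eval (2 * (p : ℚ) + 1)) +
        (Φ.eval (2 * (p : ℚ) + 1) + ((p : ℚ) - 1) / 2 *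
          (Φ.eval (2 * (p : ℚ) + 1 + (p : ℚ)) + Φ.eval (2 * (p : ℚ) + 1 - (p : ℚ)))) := by
      have h5 : ∀ b : ZMod p, (∑ c : ZMod p, Φ.eval (2 * (p : ℚ) + 1 +
          ((∑ y : ZMod p, quadraticChar (ZMod p) (0 * y ^ 2 + b * y + c) : ℤ) : ℚ))) =
          (if b ≠ 0 then (p : ℚ) * Φ.eval (2 * (p : ℚ) + 1) else 0) +
          if b = 0 then (Φ.eval (2 * (p : ℚ) + 1) + ((p : ℚ) - 1) / 2 *
          (Φ.eval (2 * (p : ℚ) + 1 + (p : ℚ)) + Φ.eval (2 * (p : ℚ) + 1 - (p : ℚ)))) else 0 := by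
        intro b
        by_cases hb : b = 0
        · rw [if_neg (fun h => h hb), if_pos hb, zero_add]
          have h6 := sum_K hp (fun s => Φ.eval (2 * (p : ℚ) + 1 + (p : ℚ) * (s : ℚ)))
          have h7 : ∀ c : ZMod p, Φ.eval (2 * (p : ℚ) + 1 +
              ((∑ y : ZMod p, quadraticChar (ZMod p) (0 * y ^ 2 + b * y + c) : ℤ) : ℚ)) =
              Φ.eval (2 * (p : ℚ) + 1 + (p : ℚ) * ((quadraticChar (ZMod p) c : ℤ) : ℚ)) := by
            intro c
            have h8 : (∑ y : ZMod p, quadraticChar (ZMod p) (0 * y ^ 2 + b * y + c)) =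
                (p : ℤ) * quadraticChar (ZMod p) c := by
              rw [hb]
              simp only [zero_mul, zero_add]
              rw [Finset.sum_const, Finset.card_univ, ZMod.card, nsmul_eq_mul]
            rw [h8]
            push_cast
            rfl
          rw [Finset.sum_congr rfl (fun c _ => h7 c)]
          refine h6.trans ?_
          push_cast
          ring_nf
        · rw [if_pos hb, if_neg hb, add_zero, ← sum_const']
          refine Finset.sum_congr rfl fun c _ => ?_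
          have h8 : (∑ y : ZMod p, quadraticChar (ZMod p) (0 * y ^ 2 + b * y + c)) = 0 := by
            rw [← sum_lin hp b c hb]
            refine Finset.sum_congr rfl fun y _ => ?_
            rw [zero_mul, zero_add]
          rw [h8]
          simp
      rw [Finset.sum_congr rfl (fun b _ => h5 b), Finset.sum_add_distrib, sum_ne,
        Finset.sum_ite_eq']
      simp
    have hC : ∀ a : ZMod p, (∑ b : ZMod p, ∑ c : ZMod p,
        Φ.eval (2 * (p : ℚ) + 1 +
          ((∑ y : ZMod p, quadraticChar (ZMod p) (a * y ^ 2 + b * y + c) : ℤ) : ℚ))) =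
        (if quadraticChar (ZMod p) a = 0 then 0 else
        (p : ℚ) * (Φ.eval (2 * (p : ℚ) + 1 + (quadraticChar (ZMod p) a : ℤ) * ((p : ℚ) - 1)) +
          ((p : ℚ) - 1) * Φ.eval (2 * (p : ℚ) + 1 - (quadraticChar (ZMod p) a : ℤ)))) +
        if a = 0 then (((p : ℚ) - 1) * ((p : ℚ) * Φ.eval (2 * (p : ℚ) + 1)) +
        (Φ.eval (2 * (p : ℚ) + 1) + ((p : ℚ) - 1) / 2 *
          (Φ.eval (2 * (p : ℚ) + 1 + (p : ℚ)) + Φ.eval (2 * (p : ℚ) + 1 - (p : ℚ))))) else 0 := by
      intro a
      by_cases ha : a = 0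
      · rw [ha, quadraticChar_zero, if_pos rfl, if_pos rfl, zero_add]
        exact hB
      · rw [if_neg (fun h => ha (quadraticChar_eq_zero_iff.1 h)), if_neg ha, add_zero]
        exact hA a ha
    rw [Finset.sum_congr rfl (fun a _ => hC a), Finset.sum_add_distrib, Finset.sum_ite_eq',
      if_pos (Finset.mem_univ _)]
    have h9 := sum_K hp (fun s => if s = 0 then 0 else
      (p : ℚ) * (Φ.eval (2 * (p : ℚ) + 1 + (s : ℚ) * ((p : ℚ) - 1)) +
          ((p : ℚ) - 1) * Φ.eval (2 * (p : ℚ) + 1 - (s : ℚ))))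
    rw [h9]
    simp only [if_true, one_ne_zero, if_false, neg_eq_zero]
    push_cast
    ring_nf
  have h1 : RatF (fun p => 2 * (p : ℚ) + 1) :=
    (RatF.constMul 2 RatF.id).add (RatF.const 1)
  have hm1 : RatF (fun p => (p : ℚ) - 1) := RatF.id.sub (RatF.const 1)
  have hh : RatF (fun p => ((p : ℚ) - 1) / 2) :=
    (RatF.constMul (1/2) hm1).congr fun p _ _ => by ring
  refine RatF.congr ?_ (fun p _ hp => key p hp)
  refine (hm1.mul (RatF.pPow 2)).mul (((hh.mul ?_).add ?_).add ?_)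
  · refine RatF.add (RatF.id.mul (RatF.add ?_ (hm1.mul ?_)))
      (RatF.id.mul (RatF.add ?_ (hm1.mul ?_)))
    · exact RatF.evalPoly Φ (h1.add hm1)
    · exact RatF.evalPoly Φ (h1.sub (RatF.const 1))
    · exact RatF.evalPoly Φ (h1.sub hm1)
    · exact RatF.evalPoly Φ (h1.add (RatF.const 1))
  · exact hm1.mul (RatF.id.mul (RatF.evalPoly Φ h1))
  · exact (RatF.evalPoly Φ h1).add (hh.mul ((RatF.evalPoly Φ (h1.add RatF.id)).add
      (RatF.evalPoly Φ (h1.sub RatF.id))))

end Pool.Agent.NH28.UR.Sumc
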