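import Pool.Agent.NH28.UR.Stm
import Pool.Agent.NH28.UR.Rat

set_option autoImplicit false

/-!
# Project UR: the sum over cubics with a smooth base point whose tangent is not inflectional
-/

namespace Pool.Agent.NH28.UR.Sumq

open Pool.Agent.NH28.UR Finset

section

variable {p : ℕ} [Fact p.Prime]

theorem two_ne (hp : 5 ≤ p) : (2 : ZMod p) ≠ 0 := by
  intro h
  have h1 : ((2 : ℕ) : ZMod p) = 0 := by exact_mod_cast h
  have h2 := Nat.le_of_dvd (by norm_num) ((ZMod.natCast_eq_zero_iff 2 p).1 h1)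
  omega

theorem four_ne (hp : 5 ≤ p) : (4 : ZMod p) ≠ 0 := by
  have h1 : (4 : ZMod p) = 2 * 2 := by norm_num
  rw [h1]
  exact mul_ne_zero (two_ne hp) (two_ne hp)

theorem eight_ne (hp : 5 ≤ p) : (-8 : ZMod p) ≠ 0 := by
  have h1 : (-8 : ZMod p) = -(4 * 2) := by norm_num
  rw [h1]
  exact neg_ne_zero.2 (mul_ne_zero (four_ne hp) (two_ne hp))

theorem rc_ne (hp : 5 ≤ p) : ringChar (ZMod p) ≠ 2 := by
  rw [ZMod.ringChar_zmod_n]
  omega

theorem aff_sum {M : Type} [AddCommMonoid M] {u : ZMod p} (hu : u ≠ 0) (v : ZMod p)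
    (g : ZMod p → M) : ∑ x, g (u * x + v) = ∑ y, g y := by
  refine Fintype.sum_bijective (fun x => u * x + v) ?_ _ _ (fun _ => rfl)
  refine Finite.injective_iff_bijective.1 fun x y h => ?_
  exact mul_left_cancel₀ hu (add_right_cancel h)

theorem card_sq (hp : 5 ≤ p) (y : ZMod p) :
    ((univ.filter fun x : ZMod p => x ^ 2 = y).card : ℤ) = quadraticChar (ZMod p) y + 1 := by
  classical
  have h2 := quadraticChar_card_sqrts (rc_ne hp) y
  rw [← h2]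
  congr 2
  ext x
  simp

theorem sq_sum (hp : 5 ≤ p) (g : ZMod p → ℚ) :
    ∑ x : ZMod p, g (x ^ 2) = ∑ y : ZMod p, (1 + (quadraticChar (ZMod p) y : ℚ)) * g y := by
  rw [← Finset.sum_fiberwise univ (fun x : ZMod p => x ^ 2)]
  refine sum_congr rfl fun y _ => ?_
  have h1 : ∀ i ∈ univ.filter (fun x : ZMod p => x ^ 2 = y), g (i ^ 2) = g y := fun i hi => by
    rw [(mem_filter.1 hi).2]
  rw [sum_congr rfl h1, sum_const, nsmul_eq_mul]
  congr 1
  have h2 := card_sq hp y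
  have h3 : (((univ.filter fun x : ZMod p => x ^ 2 = y).card : ℤ) : ℚ) =
      ((quadraticChar (ZMod p) y + 1 : ℤ) : ℚ) := by rw [h2]
  push_cast at h3
  rw [h3, add_comm]

theorem quad_count (hp : 5 ≤ p) {a : ZMod p} (ha : a ≠ 0) (b e : ZMod p) :
    ∑ y : ZMod p, (if a * y ^ 2 + b * y + e = 0 then (1 : ℤ) else 0) =
      quadraticChar (ZMod p) (b ^ 2 - 4 * a * e) + 1 := by
  have h1 : ∀ y : ZMod p, (if a * y ^ 2 + b * y + e = 0 then (1 : ℤ) else 0) =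
      (fun x : ZMod p => if x ^ 2 = b ^ 2 - 4 * a * e then (1 : ℤ) else 0) (2 * a * y + b) := by
    intro y
    beta_reduce
    have h2 : (2 * a * y + b) ^ 2 - (b ^ 2 - 4 * a * e) = 4 * a * (a * y ^ 2 + b * y + e) := by
      ring
    have h3 : a * y ^ 2 + b * y + e = 0 ↔ (2 * a * y + b) ^ 2 = b ^ 2 - 4 * a * e := by
      rw [← sub_eq_zero (a := (2 * a * y + b) ^ 2), h2]
      constructor
      · intro h
        rw [h, mul_zero]
      · intro h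
        exact (mul_eq_zero.1 h).resolve_left (mul_ne_zero (four_ne hp) ha)
    simp only [h3]
  rw [sum_congr rfl fun y _ => h1 y, aff_sum (mul_ne_zero (two_ne hp) ha) b
    (fun x : ZMod p => if x ^ 2 = b ^ 2 - 4 * a * e then (1 : ℤ) else 0), ← card_sq hp,
    card_filter]
  push_cast
  rfl

theorem chi_sq (x : ZMod p) : quadraticChar (ZMod p) (x ^ 2) = 1 - (if x = 0 then 1 else 0) := by
  by_cases hx : x = 0
  · rw [if_pos hx, hx, sub_self]
    exact quadraticChar_eq_zero_iff.2 (by norm_num)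
  · rw [if_neg hx, sub_zero]
    exact quadraticChar_sq_one' hx

theorem sum_sq_val (hp : 5 ≤ p) {a : ZMod p} (ha : a ≠ 0) (b e : ZMod p) :
    ∑ y : ZMod p, quadraticChar (ZMod p) ((a * y ^ 2 + b * y + e) ^ 2) =
      p - 1 - quadraticChar (ZMod p) (b ^ 2 - 4 * a * e) := by
  simp only [chi_sq]
  rw [sum_sub_distrib, quad_count hp ha b e, sum_const, card_univ, ZMod.card, nsmul_eq_mul]
  ring

theorem sE_zero (hp : 5 ≤ p) {u : ZMod p} (hu : u ≠ 0) (v : ZMod p) :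
    sE ![u, v, 0, 0] = - quadraticChar (ZMod p) v := by
  unfold sE
  have h0 : ∀ w : ZMod p, quadraticChar (ZMod p) ((![u, v, 0, 0] : Fin 4 → ZMod p) 0 * w ^ 3 +
      (![u, v, 0, 0] : Fin 4 → ZMod p) 1 * w ^ 2 + (![u, v, 0, 0] : Fin 4 → ZMod p) 2 * w +
      (![u, v, 0, 0] : Fin 4 → ZMod p) 3) =
      quadraticChar (ZMod p) (u * w + v) - (if w = 0 then quadraticChar (ZMod p) v else 0) := by
    intro w
    have h1 : (![u, v, 0, 0] : Fin 4 → ZMod p) 0 * w ^ 3 +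
      (![u, v, 0, 0] : Fin 4 → ZMod p) 1 * w ^ 2 + (![u, v, 0, 0] : Fin 4 → ZMod p) 2 * w +
      (![u, v, 0, 0] : Fin 4 → ZMod p) 3 = w ^ 2 * (u * w + v) := by
      change u * w ^ 3 + v * w ^ 2 + 0 * w + 0 = _
      ring
    rw [h1, map_mul, chi_sq]
    by_cases hw : w = 0
    · rw [if_pos hw, if_pos hw, hw]
      simp
    · rw [if_neg hw, if_neg hw]
      ring
  rw [sum_congr rfl fun w _ => h0 w, sum_sub_distrib,
    aff_sum hu v fun x => quadraticChar (ZMod p) x, quadraticChar_sum_zero (rc_ne hp)]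
  simp

theorem chi_four (hp : 5 ≤ p) (a b e : ZMod p) :
    quadraticChar (ZMod p) (4 * b ^ 2 - 16 * a * e) = quadraticChar (ZMod p) (b ^ 2 - 4 * a * e) := by
  have h1 : 4 * b ^ 2 - 16 * a * e = 2 ^ 2 * (b ^ 2 - 4 * a * e) := by ring
  rw [h1, map_mul, chi_sq, if_neg (two_ne hp)]
  ring

theorem sum_chi (hp : 5 ≤ p) (h : ℚ → ℚ) :
    ∑ d : ZMod p, h (quadraticChar (ZMod p) d : ℚ) =
      h 0 + ((p : ℚ) - 1) / 2 * (h 1 + h (-1)) := by
  have h1 : ∀ d : ZMod p, h (quadraticChar (ZMod p) d : ℚ) =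
      (h 0 - (h 1 + h (-1)) / 2) * (if d = 0 then 1 else 0) + (h 1 + h (-1)) / 2 +
        (h 1 - h (-1)) / 2 * (quadraticChar (ZMod p) d : ℚ) := by
    intro d
    by_cases hd : d = 0
    · have h2 : quadraticChar (ZMod p) d = 0 := quadraticChar_eq_zero_iff.2 hd
      rw [h2, if_pos hd]
      push_cast
      ring
    · rw [if_neg hd]
      rcases quadraticChar_dichotomy hd with h2 | h2
      · rw [h2]
        push_cast
        ring
      · rw [h2]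
        push_cast
        ring
  have h3 : ∑ d : ZMod p, (quadraticChar (ZMod p) d : ℚ) = 0 := by
    have h4 := quadraticChar_sum_zero (rc_ne hp)
    have h5 : ((∑ d : ZMod p, quadraticChar (ZMod p) d : ℤ) : ℚ) = 0 := by rw [h4, Int.cast_zero]
    rw [← h5]
    push_cast
    rfl
  rw [sum_congr rfl fun d _ => h1 d, sum_add_distrib, sum_add_distrib, ← mul_sum, ← mul_sum, h3,
    sum_const, card_univ, ZMod.card, nsmul_eq_mul]
  simp only [sum_ite_eq', mem_univ, if_true]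
  ring

theorem sum_ne_const (C : ℚ) : ∑ m : ZMod p, (if m ≠ 0 then C else 0) = ((p : ℚ) - 1) * C := by
  have h1 : ∀ m : ZMod p, (if m ≠ 0 then C else 0) = C - (if m = 0 then C else 0) := by
    intro m
    by_cases hm : m = 0
    · simp [hm]
    · simp [hm]
  rw [sum_congr rfl fun m _ => h1 m, sum_sub_distrib, sum_const, card_univ, ZMod.card,
    nsmul_eq_mul]
  simp only [sum_ite_eq', mem_univ, if_true]
  ring

/-- the summand in normal form -/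
def G (f : ℚ → ℚ) (a b e α β : ZMod p) : ℚ :=
  f ((p : ℚ) + 1 + ((∑ y : ZMod p, quadraticChar (ZMod p)
    ((a * y ^ 2 + b * y + e) ^ 2 + α * y + β) : ℤ) : ℚ) + 1)

abbrev F8 (p : ℕ) : Type :=
  ZMod p × ZMod p × ZMod p × ZMod p × ZMod p × ZMod p × ZMod p × ZMod p

/-- the coefficient vectors -/
def fw (t : F8 p) : Fin 10 → ZMod p :=
  match t with
  | (m, a, x, y, b, e, α, β) => ![0, 0, m, a, x, y, a * (x - b) / (2 * m),
      (x ^ 2 + 2 * a * y - b ^ 2 - 2 * a * e) / (4 * m), (2 * x * y - 2 * b * e - α) / (4 * m),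
      (y ^ 2 - e ^ 2 - β) / (4 * m)]

/-- the inverse -/
def bw (c : Fin 10 → ZMod p) : F8 p :=
  (c 2, c 3, c 4, c 5, c 4 - 2 * c 2 * c 6 / c 3,
    (c 4 ^ 2 + 2 * c 3 * c 5 - (c 4 - 2 * c 2 * c 6 / c 3) ^ 2 - 4 * c 2 * c 7) / (2 * c 3),
    2 * c 4 * c 5 - 2 * (c 4 - 2 * c 2 * c 6 / c 3) *
      ((c 4 ^ 2 + 2 * c 3 * c 5 - (c 4 - 2 * c 2 * c 6 / c 3) ^ 2 - 4 * c 2 * c 7) / (2 * c 3)) -
      4 * c 2 * c 8,
    c 5 ^ 2 -
      ((c 4 ^ 2 + 2 * c 3 * c 5 - (c 4 - 2 * c 2 * c 6 / c 3) ^ 2 - 4 * c 2 * c 7) / (2 * c 3)) ^ 2 -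
      4 * c 2 * c 9)

theorem bw_fw (hp : 5 ≤ p) (t : F8 p) (hm : t.1 ≠ 0) (ha : t.2.1 ≠ 0) : bw (fw t) = t := by
  have h2 := two_ne (p := p) hp
  have h4 := four_ne (p := p) hp
  obtain ⟨m, a, x, y, b, e, α, β⟩ := t
  change m ≠ 0 at hm
  change a ≠ 0 at ha
  have e1 : x - 2 * m * (a * (x - b) / (2 * m)) / a = b := by
    field_simp
    ring
  have e2 : (x ^ 2 + 2 * a * y - b ^ 2 -
      4 * m * ((x ^ 2 + 2 * a * y - b ^ 2 - 2 * a * e) / (4 * m))) / (2 * a) = e := by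
    field_simp
    ring
  have e3 : 2 * x * y - 2 * b * e - 4 * m * ((2 * x * y - 2 * b * e - α) / (4 * m)) = α := by
    field_simp
    ring
  have e4 : y ^ 2 - e ^ 2 - 4 * m * ((y ^ 2 - e ^ 2 - β) / (4 * m)) = β := by
    field_simp
    ring
  change ((m, a, x, y, x - 2 * m * (a * (x - b) / (2 * m)) / a,
    (x ^ 2 + 2 * a * y - (x - 2 * m * (a * (x - b) / (2 * m)) / a) ^ 2 -
      4 * m * ((x ^ 2 + 2 * a * y - b ^ 2 - 2 * a * e) / (4 * m))) / (2 * a),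
    2 * x * y - 2 * (x - 2 * m * (a * (x - b) / (2 * m)) / a) *
      ((x ^ 2 + 2 * a * y - (x - 2 * m * (a * (x - b) / (2 * m)) / a) ^ 2 -
      4 * m * ((x ^ 2 + 2 * a * y - b ^ 2 - 2 * a * e) / (4 * m))) / (2 * a)) -
      4 * m * ((2 * x * y - 2 * b * e - α) / (4 * m)),
    y ^ 2 - ((x ^ 2 + 2 * a * y - (x - 2 * m * (a * (x - b) / (2 * m)) / a) ^ 2 -
      4 * m * ((x ^ 2 + 2 * a * y - b ^ 2 - 2 * a * e) / (4 * m))) / (2 * a)) ^ 2 -
      4 * m * ((y ^ 2 - e ^ 2 - β) / (4 * m))) : F8 p) = (m, a, x, y, b, e, α, β)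
  rw [e1, e2, e3, e4]

theorem fw_bw (hp : 5 ≤ p) (c : Fin 10 → ZMod p) (h0 : c 0 = 0) (h1 : c 1 = 0) (hm : c 2 ≠ 0)
    (ha : c 3 ≠ 0) : fw (bw c) = c := by
  have h2 := two_ne (p := p) hp
  have h4 := four_ne (p := p) hp
  obtain ⟨b, hb⟩ : ∃ b, b = c 4 - 2 * c 2 * c 6 / c 3 := ⟨_, rfl⟩
  obtain ⟨e, he⟩ : ∃ e, e = (c 4 ^ 2 + 2 * c 3 * c 5 - b ^ 2 - 4 * c 2 * c 7) / (2 * c 3) :=
    ⟨_, rfl⟩
  have e0 : bw c = (c 2, c 3, c 4, c 5, b, e, 2 * c 4 * c 5 - 2 * b * e - 4 * c 2 * c 8,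
      c 5 ^ 2 - e ^ 2 - 4 * c 2 * c 9) := by
    rw [he, hb]
    rfl
  rw [e0]
  have e6 : c 3 * (c 4 - b) / (2 * c 2) = c 6 := by
    rw [hb]
    field_simp
    ring
  have e7 : (c 4 ^ 2 + 2 * c 3 * c 5 - b ^ 2 - 2 * c 3 * e) / (4 * c 2) = c 7 := by
    have h5 : 2 * c 3 * e = c 4 ^ 2 + 2 * c 3 * c 5 - b ^ 2 - 4 * c 2 * c 7 := by
      rw [he]
      field_simp
    rw [h5]
    field_simp
    ring
  have e8 : (2 * c 4 * c 5 - 2 * b * e - (2 * c 4 * c 5 - 2 * b * e - 4 * c 2 * c 8)) /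
      (4 * c 2) = c 8 := by
    field_simp
    ring
  have e9 : (c 5 ^ 2 - e ^ 2 - (c 5 ^ 2 - e ^ 2 - 4 * c 2 * c 9)) / (4 * c 2) = c 9 := by
    field_simp
    ring
  funext i
  fin_cases i
  · exact h0.symm
  · exact h1.symm
  · rfl
  · rfl
  · rfl
  · rfl
  · exact e6
  · exact e7
  · exact e8
  · exact e9

theorem nP_fw (hp : 5 ≤ p) (hCnt : S_CNT) (f : ℚ → ℚ) (t : F8 p) (hm : t.1 ≠ 0) (ha : t.2.1 ≠ 0) :
    f (nP (fw t)) = G f t.2.1 t.2.2.2.2.1 t.2.2.2.2.2.1 t.2.2.2.2.2.2.1 t.2.2.2.2.2.2.2 := by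
  have h2 := two_ne (p := p) hp
  have h4 := four_ne (p := p) hp
  obtain ⟨m, a, x, y, b, e, α, β⟩ := t
  change m ≠ 0 at hm
  change a ≠ 0 at ha
  have h1 := hCnt p hp (fw (m, a, x, y, b, e, α, β)) rfl rfl hm
  have h3 : (fw (m, a, x, y, b, e, α, β) : Fin 10 → ZMod p) 3 ≠ 0 := ha
  rw [if_pos h3] at h1
  rw [h1]
  unfold G
  congr 3
  norm_cast
  refine sum_congr rfl fun z _ => ?_
  congr 1
  change (a * z ^ 2 + x * z + y) ^ 2 - 4 * m * (a * (x - b) / (2 * m) * z ^ 3 +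
      (x ^ 2 + 2 * a * y - b ^ 2 - 2 * a * e) / (4 * m) * z ^ 2 +
      (2 * x * y - 2 * b * e - α) / (4 * m) * z + (y ^ 2 - e ^ 2 - β) / (4 * m)) =
    (a * z ^ 2 + b * z + e) ^ 2 + α * z + β
  field_simp
  ring

theorem sumA (hp : 5 ≤ p) (hCnt : S_CNT) (f : ℚ → ℚ) :
    (∑ c : Fin 10 → ZMod p, if c 0 = 0 ∧ c 1 = 0 ∧ c 2 ≠ 0 ∧ c 3 ≠ 0 then f (nP c) else 0) =
      ((p : ℚ) - 1) * (p : ℚ) ^ 2 * ∑ a : ZMod p,
        if a ≠ 0 then ∑ b, ∑ e, ∑ α, ∑ β, G f a b e α β else 0 := by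
  rw [← sum_filter]
  have h1 : ∑ c ∈ univ.filter (fun c : Fin 10 → ZMod p =>
      c 0 = 0 ∧ c 1 = 0 ∧ c 2 ≠ 0 ∧ c 3 ≠ 0), f (nP c) =
      ∑ t ∈ univ.filter (fun t : F8 p => t.1 ≠ 0 ∧ t.2.1 ≠ 0),
        G f t.2.1 t.2.2.2.2.1 t.2.2.2.2.2.1 t.2.2.2.2.2.2.1 t.2.2.2.2.2.2.2 := by
    symm
    refine sum_bij' (fun t _ => fw t) (fun c _ => bw c) ?_ ?_ ?_ ?_ ?_
    · intro t ht
      have h2 := (mem_filter.1 ht).2
      exact mem_filter.2 ⟨mem_univ _, rfl, rfl, h2.1, h2.2⟩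
    · intro c hc
      have h2 := (mem_filter.1 hc).2
      exact mem_filter.2 ⟨mem_univ _, h2.2.2.1, h2.2.2.2⟩
    · intro t ht
      have h2 := (mem_filter.1 ht).2
      exact bw_fw hp t h2.1 h2.2
    · intro c hc
      have h2 := (mem_filter.1 hc).2
      exact fw_bw hp c h2.1 h2.2.1 h2.2.2.1 h2.2.2.2
    · intro t ht
      have h2 := (mem_filter.1 ht).2
      exact (nP_fw hp hCnt f t h2.1 h2.2).symm
  rw [h1, sum_filter]
  simp only [Fintype.sum_prod_type]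
  have h2 : ∀ m : ZMod p, (∑ a : ZMod p, ∑ x : ZMod p, ∑ y : ZMod p, ∑ b : ZMod p, ∑ e : ZMod p,
      ∑ α : ZMod p, ∑ β : ZMod p, if m ≠ 0 ∧ a ≠ 0 then G f a b e α β else 0) =
      if m ≠ 0 then (p : ℚ) ^ 2 * ∑ a : ZMod p,
        (if a ≠ 0 then ∑ b, ∑ e, ∑ α, ∑ β, G f a b e α β else 0) else 0 := by
    intro m
    by_cases hm : m = 0
    · simp [hm]
    · rw [if_pos hm, mul_sum]
      refine sum_congr rfl fun a _ => ?_
      by_cases ha : a = 0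
      · simp [ha]
      · simp only [ne_eq, hm, not_false_eq_true, ha, and_self, if_true]
        rw [sum_const, sum_const, card_univ, ZMod.card, nsmul_eq_mul, nsmul_eq_mul]
        ring
  rw [sum_congr rfl fun m _ => h2 m, sum_ne_const]
  ring

/-- the summand with the cubic resolvent -/
def H (f : ℚ → ℚ) (E : Fin 4 → ZMod p) : ℚ := f ((p : ℚ) + 1 + sE E)

theorem sumB (hp : 5 ≤ p) (hRes : S_RES) (f : ℚ → ℚ) {a : ZMod p} (ha : a ≠ 0) (b e : ZMod p) :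
    ∑ α, ∑ β, G f a b e α β =
      ∑ α, ∑ β, H f ![-8 * a, 4 * b ^ 2 - 16 * a * e, 8 * a * β - 4 * b * α, α ^ 2] +
      (f (2 * p + 1 - (quadraticChar (ZMod p) (b ^ 2 - 4 * a * e) : ℚ)) -
        f (p + 1 - (quadraticChar (ZMod p) (b ^ 2 - 4 * a * e) : ℚ))) := by
  have h1 : ∀ α β : ZMod p, G f a b e α β -
      H f ![-8 * a, 4 * b ^ 2 - 16 * a * e, 8 * a * β - 4 * b * α, α ^ 2] =
      if α = 0 then (if β = 0 then
      (f (2 * p + 1 - (quadraticChar (ZMod p) (b ^ 2 - 4 * a * e) : ℚ)) -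
        f (p + 1 - (quadraticChar (ZMod p) (b ^ 2 - 4 * a * e) : ℚ))) else 0) else 0 := by
    intro α β
    by_cases h0 : α = 0 ∧ β = 0
    · rw [if_pos h0.1, if_pos h0.2, h0.1, h0.2]
      have h2 : G f a b e 0 0 =
          f (2 * p + 1 - (quadraticChar (ZMod p) (b ^ 2 - 4 * a * e) : ℚ)) := by
        unfold G
        have h3 : (∑ y : ZMod p, quadraticChar (ZMod p) ((a * y ^ 2 + b * y + e) ^ 2 + 0 * y + 0)) =
            p - 1 - quadraticChar (ZMod p) (b ^ 2 - 4 * a * e) := by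
          rw [← sum_sq_val hp ha b e]
          refine sum_congr rfl fun y _ => ?_
          congr 1
          ring
        rw [h3]
        congr 1
        push_cast
        ring
      have h3 : H f ![-8 * a, 4 * b ^ 2 - 16 * a * e, 8 * a * 0 - 4 * b * 0, 0 ^ 2] =
          f (p + 1 - (quadraticChar (ZMod p) (b ^ 2 - 4 * a * e) : ℚ)) := by
        unfold H
        have h4 : (![-8 * a, 4 * b ^ 2 - 16 * a * e, 8 * a * 0 - 4 * b * 0, 0 ^ 2] :
            Fin 4 → ZMod p) = ![-8 * a, 4 * b ^ 2 - 16 * a * e, 0, 0] := by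
          have h5 : 8 * a * 0 - 4 * b * 0 = 0 := by ring
          have h6 : (0 : ZMod p) ^ 2 = 0 := by ring
          rw [h5, h6]
        rw [h4, sE_zero hp (mul_ne_zero (eight_ne hp) ha), chi_four hp]
        congr 1
        push_cast
        ring
      rw [h2, h3]
    · have h2 := hRes p hp a b e α β ha h0
      have h3 : G f a b e α β =
          H f ![-8 * a, 4 * b ^ 2 - 16 * a * e, 8 * a * β - 4 * b * α, α ^ 2] := by
        unfold G H
        rw [← h2]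
        congr 1
        push_cast
        ring
      rw [h3, sub_self]
      by_cases hα : α = 0
      · rw [if_pos hα, if_neg fun hβ => h0 ⟨hα, hβ⟩]
      · rw [if_neg hα]
  rw [← sub_eq_iff_eq_add', ← sum_sub_distrib]
  simp only [← sum_sub_distrib, h1]
  simp

theorem sumC (hp : 5 ≤ p) (f : ℚ → ℚ) {a : ZMod p} (ha : a ≠ 0) :
    ∑ b, ∑ e, ∑ α, ∑ β, H f ![-8 * a, 4 * b ^ 2 - 16 * a * e, 8 * a * β - 4 * b * α, α ^ 2] =
      (p : ℚ) * ∑ e2, ∑ e1, ∑ e0, (1 + (quadraticChar (ZMod p) e0 : ℚ)) *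
        H f ![-8 * a, e2, e1, e0] := by
  have h8 : (8 : ZMod p) ≠ 0 := by
    have h1 := eight_ne (p := p) hp
    intro h
    apply h1
    rw [h, neg_zero]
  have h16 : (-16 : ZMod p) * a ≠ 0 := by
    have h1 : (-16 : ZMod p) = 2 * -8 := by norm_num
    rw [h1]
    exact mul_ne_zero (mul_ne_zero (two_ne hp) (eight_ne hp)) ha
  have h1 : ∀ b : ZMod p, ∑ e, ∑ α, ∑ β,
      H f ![-8 * a, 4 * b ^ 2 - 16 * a * e, 8 * a * β - 4 * b * α, α ^ 2] =
      ∑ e2, ∑ e1, ∑ e0, (1 + (quadraticChar (ZMod p) e0 : ℚ)) * H f ![-8 * a, e2, e1, e0] := by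
    intro b
    have h2 : ∀ e α : ZMod p, ∑ β,
        H f ![-8 * a, 4 * b ^ 2 - 16 * a * e, 8 * a * β - 4 * b * α, α ^ 2] =
        ∑ e1, H f ![-8 * a, 4 * b ^ 2 - 16 * a * e, e1, α ^ 2] := by
      intro e α
      have h3 := aff_sum (mul_ne_zero h8 ha) (-(4 * b * α))
        fun e1 => H f ![-8 * a, 4 * b ^ 2 - 16 * a * e, e1, α ^ 2]
      rw [← h3]
      exact sum_congr rfl fun β _ => by rw [← sub_eq_add_neg]
    simp only [h2]
    have h3 := aff_sum h16 (4 * b ^ 2)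
      fun e2 => ∑ α, ∑ e1, H f ![-8 * a, e2, e1, α ^ 2]
    have h4 : ∑ e, ∑ α, ∑ e1, H f ![-8 * a, 4 * b ^ 2 - 16 * a * e, e1, α ^ 2] =
        ∑ x : ZMod p, ∑ α, ∑ e1, H f ![-8 * a, -16 * a * x + 4 * b ^ 2, e1, α ^ 2] := by
      refine sum_congr rfl fun e _ => ?_
      have h5 : 4 * b ^ 2 - 16 * a * e = -16 * a * e + 4 * b ^ 2 := by ring
      rw [h5]
    rw [h4, h3]
    refine sum_congr rfl fun e2 _ => ?_
    rw [sum_comm]
    refine sum_congr rfl fun e1 _ => ?_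
    exact sq_sum hp fun e0 => H f ![-8 * a, e2, e1, e0]
  rw [sum_congr rfl fun b _ => h1 b, sum_const, card_univ, ZMod.card, nsmul_eq_mul]

/-- vectors of length four as quadruples -/
def e4 (p : ℕ) : (Fin 4 → ZMod p) ≃ ZMod p × ZMod p × ZMod p × ZMod p where
  toFun E := (E 0, E 1, E 2, E 3)
  invFun t := ![t.1, t.2.1, t.2.2.1, t.2.2.2]
  left_inv E := by
    funext i
    fin_cases i <;> rfl
  right_inv t := rfl

theorem sum4 (g : (Fin 4 → ZMod p) → ℚ) :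
    ∑ E, g E = ∑ x, ∑ y, ∑ z, ∑ w, g ![x, y, z, w] := by
  rw [← Equiv.sum_comp (e4 p).symm]
  simp only [Fintype.sum_prod_type]
  rfl

theorem sumD (hp : 5 ≤ p) (hSh : S_SHIFT) (f : ℚ → ℚ) :
    (∑ a : ZMod p, if a ≠ 0 then (p : ℚ) * ∑ e2, ∑ e1, ∑ e0,
      (1 + (quadraticChar (ZMod p) e0 : ℚ)) * H f ![-8 * a, e2, e1, e0] else 0) =
      ∑ E : Fin 4 → ZMod p, if E 0 ≠ 0 then ((p : ℚ) + sE E) * f ((p : ℚ) + 1 + sE E) else 0 := by
  have h1 := hSh p hp fun x => f ((p : ℚ) + 1 + x)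
  beta_reduce at h1
  rw [← h1, sum4, mul_sum]
  have h2 := aff_sum (eight_ne (p := p) hp) 0 fun x => (p : ℚ) * ∑ y, ∑ z, ∑ w,
    (if (![x, y, z, w] : Fin 4 → ZMod p) 0 ≠ 0 then
      (1 + (quadraticChar (ZMod p) ((![x, y, z, w] : Fin 4 → ZMod p) 3) : ℚ)) *
        f ((p : ℚ) + 1 + sE ![x, y, z, w]) else 0)
  rw [← h2]
  refine sum_congr rfl fun a _ => ?_
  rw [add_zero]
  by_cases ha : a = 0
  · rw [if_neg (not_not.2 ha), ha]
    simp
  · rw [if_pos ha]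
    congr 1
    refine sum_congr rfl fun y _ => sum_congr rfl fun z _ => sum_congr rfl fun w _ => ?_
    have h3 : (![-8 * a, y, z, w] : Fin 4 → ZMod p) 0 ≠ 0 := mul_ne_zero (eight_ne hp) ha
    rw [if_pos h3]
    rfl

theorem core (hp : 5 ≤ p) (hCnt : S_CNT) (hRes : S_RES) (hSh : S_SHIFT) (f : ℚ → ℚ) :
    (∑ c : Fin 10 → ZMod p, if c 0 = 0 ∧ c 1 = 0 ∧ c 2 ≠ 0 ∧ c 3 ≠ 0 then f (nP c) else 0) -
    ((p : ℚ) - 1) * (p : ℚ) ^ 2 * (∑ E : Fin 4 → ZMod p,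
      if E 0 ≠ 0 then ((p : ℚ) + sE E) * f ((p : ℚ) + 1 + sE E) else 0) =
    ((p : ℚ) - 1) ^ 2 * (p : ℚ) ^ 3 * ((f (2 * p + 1) - f (p + 1)) +
      ((p : ℚ) - 1) / 2 * ((f (2 * p) - f p) + (f (2 * p + 2) - f (p + 2)))) := by
  have h1 : ∀ a : ZMod p, (if a ≠ 0 then ∑ b, ∑ e, ∑ α, ∑ β, G f a b e α β else 0) =
      (if a ≠ 0 then (p : ℚ) * ∑ e2, ∑ e1, ∑ e0,
        (1 + (quadraticChar (ZMod p) e0 : ℚ)) * H f ![-8 * a, e2, e1, e0] else 0) +
      (if a ≠ 0 then (p : ℚ) * ((f (2 * p + 1) - f (p + 1)) +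
      ((p : ℚ) - 1) / 2 * ((f (2 * p) - f p) + (f (2 * p + 2) - f (p + 2)))) else 0) := by
    intro a
    by_cases ha : a = 0
    · simp [ha]
    · rw [if_pos ha, if_pos ha, if_pos ha, ← sumC hp f ha]
      simp only [sumB hp hRes f ha, sum_add_distrib]
      congr 1
      have h2 : ∀ b : ZMod p, ∑ e : ZMod p,
          (f (2 * p + 1 - (quadraticChar (ZMod p) (b ^ 2 - 4 * a * e) : ℚ)) -
          f (p + 1 - (quadraticChar (ZMod p) (b ^ 2 - 4 * a * e) : ℚ))) =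
          (f (2 * p + 1) - f (p + 1)) +
          ((p : ℚ) - 1) / 2 * ((f (2 * p) - f p) + (f (2 * p + 2) - f (p + 2))) := by
        intro b
        have h3 : (-4 : ZMod p) * a ≠ 0 := by
          refine mul_ne_zero (neg_ne_zero.2 (four_ne hp)) ha
        have h4 := aff_sum h3 (b ^ 2) fun d =>
          f (2 * p + 1 - (quadraticChar (ZMod p) d : ℚ)) - f (p + 1 - (quadraticChar (ZMod p) d : ℚ))
        have h5 : ∀ e : ZMod p, b ^ 2 - 4 * a * e = -4 * a * e + b ^ 2 := fun e => by ring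
        simp only [h5]
        rw [h4]
        have h6 := sum_chi hp fun x => f (2 * p + 1 - x) - f (p + 1 - x)
        beta_reduce at h6
        rw [h6]
        have h7 : (2 : ℚ) * p + 1 - 0 = 2 * p + 1 := by ring
        have h8 : (p : ℚ) + 1 - 0 = p + 1 := by ring
        have h9 : (2 : ℚ) * p + 1 - 1 = 2 * p := by ring
        have h10 : (p : ℚ) + 1 - 1 = p := by ring
        have h11 : (2 : ℚ) * p + 1 - -1 = 2 * p + 2 := by ring
        have h12 : (p : ℚ) + 1 - -1 = p + 2 := by ring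
        rw [h7, h8, h9, h10, h11, h12]
      rw [sum_congr rfl fun b _ => h2 b, sum_const, card_univ, ZMod.card, nsmul_eq_mul]
  rw [sumA hp hCnt f, sum_congr rfl fun a _ => h1 a, sum_add_distrib, sumD hp hSh f, sum_ne_const]
  ring

end

/-- **The sum over cubics with a smooth base point whose tangent is not inflectional.** -/
theorem sumq (hCnt : S_CNT) (hRes : S_RES) (hSh : S_SHIFT) : S_SUMQ := by
  intro Φ
  have hlin : ∀ u v : ℚ, RatF (fun p => Φ.eval (u * (p : ℚ) + v)) := fun u v =>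
    RatF.evalPoly Φ ((RatF.constMul u RatF.id).add (RatF.const v))
  have h1 : RatF (fun p => ((p : ℚ) - 1) ^ 2 * (p : ℚ) ^ 3 *
      ((Φ.eval (2 * (p : ℚ) + 1) - Φ.eval (1 * (p : ℚ) + 1)) + ((p : ℚ) - 1) / 2 *
      ((Φ.eval (2 * (p : ℚ) + 0) - Φ.eval (1 * (p : ℚ) + 0)) +
        (Φ.eval (2 * (p : ℚ) + 2) - Φ.eval (1 * (p : ℚ) + 2))))) := by
    have hm : RatF (fun p => (p : ℚ) - 1) := RatF.id.sub (RatF.const 1)
    have hm2 : RatF (fun p => ((p : ℚ) - 1) / 2) :=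
      (RatF.constMul (1 / 2) hm).congr fun p _ _ => by ring
    exact ((hm.pow 2).mul (RatF.pPow 3)).mul (((hlin 2 1).sub (hlin 1 1)).add
      (hm2.mul (((hlin 2 0).sub (hlin 1 0)).add ((hlin 2 2).sub (hlin 1 2)))))
  refine h1.congr fun p _ hp => ?_
  rw [core hp hCnt hRes hSh fun x => Φ.eval x]
  simp only [one_mul, add_zero]

end Pool.Agent.NH28.UR.Sumq
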