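import Pool.Agent.NH28.UR.Stm

set_option autoImplicit false

/-!
# Project UR: sums over cubics with marked points (helper51)
-/

namespace Pool.Agent.NH28.UR.Sym12

open Finset Pool.Agent.NH28.UR

variable {p : ℕ} [Fact p.Prime]

/-- value of a cubic form at a vector -/
def Tc (c : Fin 10 → ZMod p) (v : Fin 3 → ZMod p) : ZMod p := T c (v 0) (v 1) (v 2)

theorem Tc_smul (c : Fin 10 → ZMod p) (a : ZMod p) (v : Fin 3 → ZMod p) :
    Tc c (a • v) = a ^ 3 * Tc c v := by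
  simp only [Tc, T, Pi.smul_apply, smul_eq_mul]
  ring

theorem Tc_zero (c : Fin 10 → ZMod p) : Tc c 0 = 0 := by
  simp [Tc, T]

/-- number of zeros in a finite set -/
noncomputable def NW (W : Finset (Fin 3 → ZMod p)) (c : Fin 10 → ZMod p) : Finset (Fin 3 → ZMod p) :=
  W.filter fun v => Tc c v = 0

/-- closed under scalar multiplication -/
structure Cone (W : Finset (Fin 3 → ZMod p)) : Prop where
  zero : 0 ∈ W
  smul : ∀ (a : ZMod p), ∀ v ∈ W, a • v ∈ W

theorem cone_univ : Cone (univ : Finset (Fin 3 → ZMod p)) :=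
  ⟨mem_univ _, fun _ _ _ => mem_univ _⟩

theorem cone_NW {W : Finset (Fin 3 → ZMod p)} (hW : Cone W) (c : Fin 10 → ZMod p) :
    Cone (NW W c) := by
  refine ⟨?_, fun a v hv => ?_⟩
  · rw [NW, mem_filter]
    exact ⟨hW.zero, Tc_zero c⟩
  · rw [NW, mem_filter] at hv ⊢
    exact ⟨hW.smul a v hv.1, by rw [Tc_smul, hv.2, mul_zero]⟩

/-- the plane at infinity -/
noncomputable def W2 (p : ℕ) [Fact p.Prime] : Finset (Fin 3 → ZMod p) := univ.filter fun v => v 2 = 0

theorem cone_W2 : Cone (W2 p) := by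
  refine ⟨?_, fun a v hv => ?_⟩
  · rw [W2, mem_filter]
    exact ⟨mem_univ _, rfl⟩
  · rw [W2, mem_filter] at hv ⊢
    exact ⟨mem_univ _, by rw [Pi.smul_apply, hv.2, smul_zero]⟩

/-- coordinates -/
def e3 (F : Type) : (Fin 3 → F) ≃ F × F × F where
  toFun v := (v 0, v 1, v 2)
  invFun t := ![t.1, t.2.1, t.2.2]
  left_inv v := by
    funext i
    fin_cases i <;> rfl
  right_inv t := rfl

theorem card_sub {α : Type} [Fintype α] (P : α → Prop) [DecidablePred P] :
    Nat.card {v : α // P v} = (univ.filter P).card := by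
  rw [Nat.card_eq_fintype_card, Fintype.card_subtype]

theorem nP_eq (c : Fin 10 → ZMod p) : nP c = (((NW univ c).card : ℚ) - 1) / ((p : ℚ) - 1) := by
  have h : Nat.card {v : ZMod p × ZMod p × ZMod p // T c v.1 v.2.1 v.2.2 = 0} =
      (NW univ c).card := by
    rw [NW, ← card_sub]
    exact Nat.card_congr ((e3 (ZMod p)).subtypeEquiv fun v => Iff.rfl).symm
  rw [nP, h]

theorem zP_eq (c : Fin 10 → ZMod p) : zP c = (((NW (W2 p) c).card : ℚ) - 1) / ((p : ℚ) - 1) := by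
  have h : Nat.card {v : ZMod p × ZMod p // T c v.1 v.2 0 = 0} = (NW (W2 p) c).card := by
    rw [card_sub]
    refine card_bij' (fun v _ => ![v.1, v.2, 0]) (fun v _ => (v 0, v 1)) ?_ ?_ ?_ ?_
    · intro v hv
      rw [mem_filter] at hv
      rw [NW, mem_filter, W2, mem_filter]
      exact ⟨⟨mem_univ _, rfl⟩, hv.2⟩
    · intro v hv
      rw [NW, mem_filter, W2, mem_filter] at hv
      rw [mem_filter]
      refine ⟨mem_univ _, ?_⟩
      have := hv.2
      rw [Tc, hv.1.2] at this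
      exact this
    · intro v _
      rfl
    · intro v hv
      rw [NW, mem_filter, W2, mem_filter] at hv
      funext i
      fin_cases i
      · rfl
      · rfl
      · exact hv.1.2.symm
  rw [zP, h]

theorem card_univ3 : ((univ : Finset (Fin 3 → ZMod p)).card : ℚ) = (p : ℚ) ^ 3 := by
  rw [card_univ, Fintype.card_fun, Fintype.card_fin, ZMod.card]
  push_cast
  rfl

theorem card_W2 : ((W2 p).card : ℚ) = (p : ℚ) ^ 2 := by
  have h : (W2 p).card = Fintype.card (ZMod p × ZMod p) := by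
    rw [← card_univ]
    refine (card_bij' (fun (v : ZMod p × ZMod p) _ => (![v.1, v.2, 0] : Fin 3 → ZMod p))
      (fun v _ => (v 0, v 1)) ?_ ?_ ?_ ?_).symm
    · intro v _
      rw [W2, mem_filter]
      exact ⟨mem_univ _, rfl⟩
    · intro v _
      exact mem_univ _
    · intro v _
      rfl
    · intro v hv
      rw [W2, mem_filter] at hv
      funext i
      fin_cases i
      · rfl
      · rfl
      · exact hv.2.symm
  rw [h, Fintype.card_prod, ZMod.card]
  push_cast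
  ring

/-! ### transport -/

theorem trans_inv (hT : S_TRANS) (hp : 5 ≤ p) (A : Matrix (Fin 3) (Fin 3) (ZMod p))
    (hA : IsUnit A.det) : ∃ σ : Equiv.Perm (Fin 10 → ZMod p),
      (∀ c v, Tc (σ c) v = Tc c (A.mulVec v)) ∧ ∀ c, nP (σ c) = nP c := by
  obtain ⟨σ, hσ⟩ := hT p hp A hA
  refine ⟨σ, fun c v => hσ c v, fun c => ?_⟩
  rw [nP_eq, nP_eq]
  congr 3
  have hu : IsUnit A := (Matrix.isUnit_iff_isUnit_det A).mpr hA
  obtain ⟨B, hB1, hB2⟩ : ∃ B : Matrix (Fin 3) (Fin 3) (ZMod p), A * B = 1 ∧ B * A = 1 :=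
    ⟨A⁻¹, Matrix.mul_nonsing_inv A hA, Matrix.nonsing_inv_mul A hA⟩
  refine card_bij' (fun v _ => A.mulVec v) (fun v _ => B.mulVec v) ?_ ?_ ?_ ?_
  · intro v hv
    rw [NW, mem_filter] at hv ⊢
    refine ⟨mem_univ _, ?_⟩
    rw [← hv.2]
    exact (hσ c v).symm
  · intro v hv
    rw [NW, mem_filter] at hv ⊢
    refine ⟨mem_univ _, ?_⟩
    have := hσ c (B.mulVec v)
    rw [Matrix.mulVec_mulVec, hB1, Matrix.one_mulVec] at this
    exact this.trans hv.2
  · intro v _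
    rw [Matrix.mulVec_mulVec, hB2, Matrix.one_mulVec]
  · intro v _
    rw [Matrix.mulVec_mulVec, hB1, Matrix.one_mulVec]

/-- the first vectors of the standard basis -/
def s0 (p : ℕ) : Fin 3 → ZMod p := Pi.single 0 1

/-- the first vectors of the standard basis -/
def s1 (p : ℕ) : Fin 3 → ZMod p := Pi.single 1 1

theorem Tc_s0 (c : Fin 10 → ZMod p) : Tc c (s0 p) = c 0 := by
  simp [Tc, T, s0]

theorem Tc_s1 (c : Fin 10 → ZMod p) : Tc c (s1 p) = c 6 := by
  simp [Tc, T, s1]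

theorem ext2 (v w : Fin 3 → ZMod p) (h : LinearIndependent (ZMod p) ![v, w]) :
    ∃ A : Matrix (Fin 3) (Fin 3) (ZMod p), IsUnit A.det ∧ A.mulVec (s0 p) = v ∧
      A.mulVec (s1 p) = w := by
  obtain ⟨x, hx⟩ := exists_linearIndependent_snoc_of_lt_finrank h (by
    rw [Module.finrank_fin_fun]
    norm_num)
  let B : Matrix (Fin 3) (Fin 3) (ZMod p) := Matrix.of (Fin.snoc ![v, w] x)
  have hB : IsUnit B := Matrix.linearIndependent_rows_iff_isUnit.mp hx
  refine ⟨B.transpose, ?_, ?_, ?_⟩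
  · rw [Matrix.det_transpose]
    exact (Matrix.isUnit_iff_isUnit_det B).mp hB
  · rw [s0, Matrix.mulVec_single_one]
    rfl
  · rw [s1, Matrix.mulVec_single_one]
    rfl

theorem ext1 (v : Fin 3 → ZMod p) (h : v ≠ 0) :
    ∃ A : Matrix (Fin 3) (Fin 3) (ZMod p), IsUnit A.det ∧ A.mulVec (s0 p) = v := by
  obtain ⟨w, hw⟩ := exists_linearIndependent_pair_of_one_lt_finrank (R := ZMod p) (by
    rw [Module.finrank_fin_fun]
    norm_num) h
  obtain ⟨A, h1, h2, -⟩ := ext2 v w hw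
  exact ⟨A, h1, h2⟩

/-- sum with one marked point -/
theorem one_pt (hT : S_TRANS) (hp : 5 ≤ p) (Φ : ℚ → ℚ) (v : Fin 3 → ZMod p) (hv : v ≠ 0) :
    (∑ c : Fin 10 → ZMod p, if Tc c v = 0 then Φ (nP c) else 0) =
      ∑ c : Fin 10 → ZMod p, if c 0 = 0 then Φ (nP c) else 0 := by
  obtain ⟨A, hA, hAv⟩ := ext1 v hv
  obtain ⟨σ, h1, h2⟩ := trans_inv hT hp A hA
  rw [← Equiv.sum_comp σ fun c => if c 0 = 0 then Φ (nP c) else 0]
  refine sum_congr rfl fun c _ => ?_
  rw [← Tc_s0 (σ c), h1, hAv, h2]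

/-- sum with two marked points -/
theorem two_pt (hT : S_TRANS) (hp : 5 ≤ p) (Φ : ℚ → ℚ) (v w : Fin 3 → ZMod p)
    (h : LinearIndependent (ZMod p) ![v, w]) :
    (∑ c : Fin 10 → ZMod p, if Tc c v = 0 ∧ Tc c w = 0 then Φ (nP c) else 0) =
      ∑ c : Fin 10 → ZMod p, if c 0 = 0 ∧ c 6 = 0 then Φ (nP c) else 0 := by
  obtain ⟨A, hA, hAv, hAw⟩ := ext2 v w h
  obtain ⟨σ, h1, h2⟩ := trans_inv hT hp A hA
  rw [← Equiv.sum_comp σ fun c => if c 0 = 0 ∧ c 6 = 0 then Φ (nP c) else 0]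
  refine sum_congr rfl fun c _ => ?_
  rw [← Tc_s0 (σ c), ← Tc_s1 (σ c), h1, h1, hAv, hAw, h2]

/-! ### counting -/

theorem sum1 (hT : S_TRANS) (hp : 5 ≤ p) (Φ : ℚ → ℚ) {W : Finset (Fin 3 → ZMod p)} (hW : Cone W) :
    ∑ c : Fin 10 → ZMod p, (((NW W c).card : ℚ) - 1) * Φ (nP c) =
      ((W.card : ℚ) - 1) * ∑ c : Fin 10 → ZMod p, if c 0 = 0 then Φ (nP c) else 0 := by
  have h1 : ∀ c : Fin 10 → ZMod p, (((NW W c).card : ℚ) - 1) * Φ (nP c) =
      ∑ v ∈ W.erase 0, if Tc c v = 0 then Φ (nP c) else 0 := by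
    intro c
    have h2 : (((NW W c).card : ℚ) - 1) = (((NW W c).erase 0).card : ℚ) := by
      have h0 := (cone_NW hW c).zero
      rw [card_erase_of_mem h0, Nat.cast_sub (card_pos.mpr ⟨0, h0⟩)]
      simp
    have h3 : (NW W c).erase 0 = (W.erase 0).filter fun v => Tc c v = 0 := by
      ext v
      simp only [NW, mem_erase, mem_filter]
      tauto
    rw [h2, h3, ← nsmul_eq_mul, ← sum_const, sum_filter]
  simp_rw [h1]
  rw [sum_comm]
  have h4 : ((W.card : ℚ) - 1) = ((W.erase 0).card : ℚ) := by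
    rw [card_erase_of_mem hW.zero, Nat.cast_sub (card_pos.mpr ⟨0, hW.zero⟩)]
    simp
  rw [h4, ← nsmul_eq_mul, ← sum_const]
  exact sum_congr rfl fun v hv => one_pt hT hp Φ v (ne_of_mem_erase hv)

theorem p1 (hp : 5 ≤ p) : ((p : ℚ) - 1) ≠ 0 := by
  have : (5 : ℚ) ≤ p := by exact_mod_cast hp
  linarith

theorem sym1 (hT : S_TRANS) : S_SYM1 := by
  intro p _ hp Φ
  have h := sum1 hT hp Φ (cone_univ (p := p))
  rw [card_univ3] at h
  have hp1 := p1 (p := p) hp
  simp_rw [nP_eq, div_mul_eq_mul_div, ← sum_div] at h ⊢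
  rw [h]
  field_simp
  ring

theorem sym2 (hT : S_TRANS) : S_SYM2 := by
  intro p _ hp Φ
  have h := sum1 hT hp Φ (cone_W2 (p := p))
  rw [card_W2] at h
  have hp1 := p1 (p := p) hp
  simp_rw [zP_eq, div_mul_eq_mul_div, ← sum_div]
  rw [h]
  field_simp
  ring

end Pool.Agent.NH28.UR.Sym12
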