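import Pool.Agent.NH28.UR.Sym12

set_option autoImplicit false

/-!
# Project UR: sums over cubics with two marked points (helper51)
-/

namespace Pool.Agent.NH28.UR.Sym3

open Finset Pool.Agent.NH28.UR Pool.Agent.NH28.UR.Sym12

variable {p : ℕ} [Fact p.Prime]

/-- vectors which are not multiples of a given one -/
noncomputable def off (Z : Finset (Fin 3 → ZMod p)) (v : Fin 3 → ZMod p) :
    Finset (Fin 3 → ZMod p) := Z.filter fun w => ∀ a : ZMod p, a • v ≠ w

theorem off_card {Z : Finset (Fin 3 → ZMod p)} (hZ : Cone Z) (v : Fin 3 → ZMod p) (hv : v ∈ Z)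
    (hv0 : v ≠ 0) : ((off Z v).card : ℚ) = (Z.card : ℚ) - p := by
  have h1 : off Z v = Z \ (univ.image fun a : ZMod p => a • v) := by
    ext w
    simp only [off, mem_filter, mem_sdiff, mem_image, mem_univ, true_and, not_exists]
  have h2 : (univ.image fun a : ZMod p => a • v) ⊆ Z := by
    intro w hw
    rw [mem_image] at hw
    obtain ⟨a, -, rfl⟩ := hw
    exact hZ.smul a v hv
  have h3 : (univ.image fun a : ZMod p => a • v).card = p := by
    rw [card_image_of_injective _ (smul_left_injective (ZMod p) hv0), card_univ, ZMod.card]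
  have h4 := card_le_card h2
  rw [h1, card_sdiff_of_subset h2, Nat.cast_sub h4, h3]

theorem erase_card {Z : Finset (Fin 3 → ZMod p)} (hZ : Cone Z) :
    (((Z.erase 0).card : ℕ) : ℚ) = (Z.card : ℚ) - 1 := by
  rw [card_erase_of_mem hZ.zero, Nat.cast_sub (card_pos.mpr ⟨0, hZ.zero⟩)]
  simp

theorem pairs {Z : Finset (Fin 3 → ZMod p)} (hZ : Cone Z) (x : ℚ) :
    ∑ v ∈ Z.erase 0, ∑ _w ∈ off Z v, x = ((Z.card : ℚ) - 1) * ((Z.card : ℚ) - p) * x := by
  have h1 : ∀ v ∈ Z.erase 0, ∑ _w ∈ off Z v, x = ((Z.card : ℚ) - p) * x := by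
    intro v hv
    rw [sum_const, nsmul_eq_mul, off_card hZ v (mem_of_mem_erase hv) (ne_of_mem_erase hv)]
  rw [sum_congr rfl h1, sum_const, nsmul_eq_mul, erase_card hZ]
  ring

theorem sum2 (hT : S_TRANS) (hp : 5 ≤ p) (Φ : ℚ → ℚ) {W : Finset (Fin 3 → ZMod p)} (hW : Cone W) :
    ∑ c : Fin 10 → ZMod p, (((NW W c).card : ℚ) - 1) * (((NW W c).card : ℚ) - p) * Φ (nP c) =
      ((W.card : ℚ) - 1) * ((W.card : ℚ) - p) *
        ∑ c : Fin 10 → ZMod p, if c 0 = 0 ∧ c 6 = 0 then Φ (nP c) else 0 := by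
  have h1 : ∀ c : Fin 10 → ZMod p,
      (((NW W c).card : ℚ) - 1) * (((NW W c).card : ℚ) - p) * Φ (nP c) =
      ∑ v ∈ W.erase 0, ∑ w ∈ off W v, if Tc c w = 0 ∧ Tc c v = 0 then Φ (nP c) else 0 := by
    intro c
    rw [← pairs (cone_NW hW c)]
    have h3 : (NW W c).erase 0 = (W.erase 0).filter fun v => Tc c v = 0 := by
      ext v
      simp only [NW, mem_erase, mem_filter]
      tauto
    rw [h3, sum_filter]
    refine sum_congr rfl fun v _ => ?_
    split_ifs with hv
    · have h4 : off (NW W c) v = (off W v).filter fun w => Tc c w = 0 := by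
        ext w
        simp only [off, NW, mem_filter]
        tauto
      rw [h4, sum_filter]
      refine sum_congr rfl fun w _ => ?_
      simp [hv]
    · refine (sum_eq_zero fun w _ => ?_).symm
      simp [hv]
  simp_rw [h1]
  rw [sum_comm, ← pairs hW]
  refine sum_congr rfl fun v hv => ?_
  rw [sum_comm]
  refine sum_congr rfl fun w hw => ?_
  refine two_pt hT hp Φ w v ?_
  rw [linearIndependent_fin2]
  refine ⟨?_, ?_⟩
  · exact ne_of_mem_erase hv
  · rw [off, mem_filter] at hw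
    exact hw.2

theorem sym3 (hT : S_TRANS) : S_SYM3 := by
  intro p _ hp Φ
  have h := sum2 hT hp Φ (cone_univ (p := p))
  have h' := sum2 hT hp Φ (cone_W2 (p := p))
  rw [card_univ3] at h
  rw [card_W2] at h'
  have hp1 := p1 (p := p) hp
  have e1 : ∑ c : Fin 10 → ZMod p, nP c * (nP c - 1) * Φ (nP c) =
      (∑ c : Fin 10 → ZMod p, (((NW univ c).card : ℚ) - 1) * (((NW univ c).card : ℚ) - p) *
        Φ (nP c)) / ((p : ℚ) - 1) ^ 2 := by
    rw [sum_div]
    refine sum_congr rfl fun c _ => ?_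
    have : nP c * (nP c - 1) = (((NW univ c).card : ℚ) - 1) * (((NW univ c).card : ℚ) - p) /
        ((p : ℚ) - 1) ^ 2 := by
      rw [nP_eq]
      field_simp
      ring
    rw [this]
    ring
  have e2 : ∑ c : Fin 10 → ZMod p, zP c * (zP c - 1) * Φ (nP c) =
      (∑ c : Fin 10 → ZMod p, (((NW (W2 p) c).card : ℚ) - 1) * (((NW (W2 p) c).card : ℚ) - p) *
        Φ (nP c)) / ((p : ℚ) - 1) ^ 2 := by
    rw [sum_div]
    refine sum_congr rfl fun c _ => ?_
    have : zP c * (zP c - 1) = (((NW (W2 p) c).card : ℚ) - 1) * (((NW (W2 p) c).card : ℚ) - p) /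
        ((p : ℚ) - 1) ^ 2 := by
      rw [zP_eq]
      field_simp
      ring
    rw [this]
    ring
  rw [e1, e2, h, h']
  field_simp
  ring

end Pool.Agent.NH28.UR.Sym3
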