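import Pool.Agent.NH28.UR.Stm

set_option autoImplicit false

/-!
# Project UR: double roots on the line at infinity, tangent directions (helper39)
-/

namespace Pool.Agent.NH28.UR.Sym45

open Finset
open Pool.Agent.NH28.UR

variable {p : ℕ} [Fact p.Prime]

/-- the permutation of the triples -/
noncomputable def eqA (A : Matrix (Fin 3) (Fin 3) (ZMod p)) (hA : IsUnit A.det) :
    ZMod p × ZMod p × ZMod p ≃ ZMod p × ZMod p × ZMod p where
  toFun v := (A.mulVec ![v.1, v.2.1, v.2.2] 0, A.mulVec ![v.1, v.2.1, v.2.2] 1,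
    A.mulVec ![v.1, v.2.1, v.2.2] 2)
  invFun v := (A⁻¹.mulVec ![v.1, v.2.1, v.2.2] 0, A⁻¹.mulVec ![v.1, v.2.1, v.2.2] 1,
    A⁻¹.mulVec ![v.1, v.2.1, v.2.2] 2)
  left_inv v := by
    have h : ∀ u : Fin 3 → ZMod p, ![u 0, u 1, u 2] = u := by
      intro u
      funext i
      fin_cases i <;> rfl
    simp only [h]
    rw [Matrix.mulVec_mulVec, Matrix.nonsing_inv_mul A hA, Matrix.one_mulVec]
    rfl
  right_inv v := by
    have h : ∀ u : Fin 3 → ZMod p, ![u 0, u 1, u 2] = u := by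
      intro u
      funext i
      fin_cases i <;> rfl
    simp only [h]
    rw [Matrix.mulVec_mulVec, Matrix.mul_nonsing_inv A hA, Matrix.one_mulVec]
    rfl

theorem nP_trans (A : Matrix (Fin 3) (Fin 3) (ZMod p)) (hA : IsUnit A.det)
    (c c' : Fin 10 → ZMod p) (h : ∀ v : Fin 3 → ZMod p,
      T c' (v 0) (v 1) (v 2) = T c (A.mulVec v 0) (A.mulVec v 1) (A.mulVec v 2)) :
    nP c' = nP c := by
  unfold nP
  have h1 : Nat.card {v : ZMod p × ZMod p × ZMod p // T c' v.1 v.2.1 v.2.2 = 0} =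
      Nat.card {v : ZMod p × ZMod p × ZMod p // T c v.1 v.2.1 v.2.2 = 0} := by
    apply Nat.card_congr
    refine Equiv.subtypeEquiv (eqA A hA) fun v => ?_
    have h2 := h ![v.1, v.2.1, v.2.2]
    simp only [Matrix.cons_val_zero, Matrix.cons_val_one, Matrix.cons_val] at h2
    rw [h2]
    rfl
  rw [h1]

theorem two_ne (hp : 5 ≤ p) : (2 : ZMod p) ≠ 0 := by
  intro h
  have h1 : ((2 : ℕ) : ZMod p) = 0 := by exact_mod_cast h
  rw [ZMod.natCast_eq_zero_iff] at h1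
  have := Nat.le_of_dvd (by norm_num) h1
  omega

theorem three_ne (hp : 5 ≤ p) : (3 : ZMod p) ≠ 0 := by
  intro h
  have h1 : ((3 : ℕ) : ZMod p) = 0 := by exact_mod_cast h
  rw [ZMod.natCast_eq_zero_iff] at h1
  have := Nat.le_of_dvd (by norm_num) h1
  omega

/-- the substitution of two columns -/
theorem sub4 (hT : S_TRANS) (hp : 5 ≤ p) (v1 v2 w1 w2 : ZMod p) (hD : v1 * w2 - v2 * w1 = 1) :
    ∃ σ : Equiv.Perm (Fin 10 → ZMod p), ∀ c : Fin 10 → ZMod p, nP (σ c) = nP c ∧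
      ∀ x y z : ZMod p, T (σ c) x y z = T c (v1 * x + w1 * y) (v2 * x + w2 * y) z := by
  set A : Matrix (Fin 3) (Fin 3) (ZMod p) := !![v1, w1, 0; v2, w2, 0; 0, 0, 1] with hA
  have hdet : A.det = 1 := by
    rw [hA, Matrix.det_fin_three]
    simp
    linear_combination hD
  obtain ⟨σ, hσ⟩ := hT p hp A (by rw [hdet]; exact isUnit_one)
  refine ⟨σ, fun c => ⟨nP_trans A (by rw [hdet]; exact isUnit_one) c (σ c) (hσ c), ?_⟩⟩
  intro x y z
  have h := hσ c ![x, y, z]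
  simp only [Matrix.cons_val_zero, Matrix.cons_val_one, Matrix.cons_val] at h
  rw [h, hA]
  congr 1 <;> simp [Matrix.mulVec, dotProduct, Fin.sum_univ_three]

theorem sub5 (hT : S_TRANS) (hp : 5 ≤ p) (v1 v2 w1 w2 : ZMod p) (hD : v1 * w2 - v2 * w1 = 1) :
    ∃ σ : Equiv.Perm (Fin 10 → ZMod p), ∀ c : Fin 10 → ZMod p, nP (σ c) = nP c ∧
      ∀ x y z : ZMod p, T (σ c) x y z = T c x (v1 * y + w1 * z) (v2 * y + w2 * z) := by
  set A : Matrix (Fin 3) (Fin 3) (ZMod p) := !![1, 0, 0; 0, v1, w1; 0, v2, w2] with hA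
  have hdet : A.det = 1 := by
    rw [hA, Matrix.det_fin_three]
    simp
    linear_combination hD
  obtain ⟨σ, hσ⟩ := hT p hp A (by rw [hdet]; exact isUnit_one)
  refine ⟨σ, fun c => ⟨nP_trans A (by rw [hdet]; exact isUnit_one) c (σ c) (hσ c), ?_⟩⟩
  intro x y z
  have h := hσ c ![x, y, z]
  simp only [Matrix.cons_val_zero, Matrix.cons_val_one, Matrix.cons_val] at h
  rw [h, hA]
  congr 1 <;> simp [Matrix.mulVec, dotProduct, Fin.sum_univ_three]

theorem coef4 (hp : 5 ≤ p) (c d : Fin 10 → ZMod p) (v1 v2 w1 w2 : ZMod p)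
    (h : ∀ x y z : ZMod p, T d x y z = T c (v1 * x + w1 * y) (v2 * x + w2 * y) z) :
    d 0 = c 0 * v1 ^ 3 + c 1 * v1 ^ 2 * v2 + c 3 * v1 * v2 ^ 2 + c 6 * v2 ^ 3 ∧
    d 1 = w1 * (3 * c 0 * v1 ^ 2 + 2 * c 1 * v1 * v2 + c 3 * v2 ^ 2) +
      w2 * (c 1 * v1 ^ 2 + 2 * c 3 * v1 * v2 + 3 * c 6 * v2 ^ 2) ∧
    2 * d 3 = w1 ^ 2 * (6 * c 0 * v1 + 2 * c 1 * v2) + 2 * w1 * w2 * (2 * c 1 * v1 + 2 * c 3 * v2) +
      w2 ^ 2 * (2 * c 3 * v1 + 6 * c 6 * v2) := by
  have h2 := two_ne (p := p) hp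
  have e1 := h 1 0 0
  have e2 := h 0 1 0
  have e3 := h 1 1 0
  have e4 := h 1 (-1) 0
  unfold T at e1 e2 e3 e4
  refine ⟨?_, ?_, ?_⟩
  · linear_combination e1
  · apply mul_left_cancel₀ h2
    linear_combination e3 - e4 - 2 * e2
  · linear_combination e3 + e4 - 2 * e1

theorem dbl_iff (hp : 5 ≤ p) (c d : Fin 10 → ZMod p) (v1 v2 w1 w2 : ZMod p)
    (hD : v1 * w2 - v2 * w1 = 1)
    (h : ∀ x y z : ZMod p, T d x y z = T c (v1 * x + w1 * y) (v2 * x + w2 * y) z) :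
    (d 0 = 0 ∧ d 1 = 0 ∧ d 3 ≠ 0) ↔ Dbl c (v1, v2) := by
  obtain ⟨e0, e1, e3⟩ := coef4 hp c d v1 v2 w1 w2 h
  have h2 := two_ne (p := p) hp
  have h3 := three_ne (p := p) hp
  unfold Dbl
  simp only
  constructor
  · rintro ⟨f0, f1, f3⟩
    rw [f0] at e0
    rw [f1] at e1
    refine ⟨?_, ?_, ?_, ?_⟩
    · intro hv
      rw [Prod.mk_eq_zero] at hv
      rw [hv.1, hv.2] at hD
      simp at hD
    · linear_combination (- 3 * w2) * e0 + v2 * e1 -
        (3 * c 0 * v1 ^ 2 + 2 * c 1 * v1 * v2 + c 3 * v2 ^ 2) * hD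
    · linear_combination (3 * w1) * e0 - v1 * e1 -
        (c 1 * v1 ^ 2 + 2 * c 3 * v1 * v2 + 3 * c 6 * v2 ^ 2) * hD
    · rintro ⟨g1, g2, g3⟩
      apply f3
      apply mul_left_cancel₀ h2
      rw [e3, g1, g2, g3]
      ring
  · rintro ⟨-, g1, g2, g3⟩
    refine ⟨?_, ?_, ?_⟩
    · apply mul_left_cancel₀ h3
      rw [e0]
      linear_combination v1 * g1 + v2 * g2
    · rw [e1]
      linear_combination w1 * g1 + w2 * g2
    · intro f3
      apply g3
      rw [f3] at e3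
      set P := 6 * c 0 * v1 + 2 * c 1 * v2 with hP
      set Q := 2 * c 1 * v1 + 2 * c 3 * v2 with hQ
      set R := 2 * c 3 * v1 + 6 * c 6 * v2 with hR
      have k1 : P * v1 + Q * v2 = 0 := by
        rw [hP, hQ]
        linear_combination 2 * g1
      have k2 : Q * v1 + R * v2 = 0 := by
        rw [hQ, hR]
        linear_combination 2 * g2
      have k3 : w1 ^ 2 * P + 2 * w1 * w2 * Q + w2 ^ 2 * R = 0 := by
        linear_combination - e3
      have m1 : P * w1 + Q * w2 = 0 := by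
        linear_combination (w2 * w1) * k1 + (w2 * w2) * k2 - v2 * k3 - (P * w1 + Q * w2) * hD
      have m2 : Q * w1 + R * w2 = 0 := by
        linear_combination v1 * k3 - w1 * w1 * k1 - w1 * w2 * k2 - (Q * w1 + R * w2) * hD
      refine ⟨?_, ?_, ?_⟩
      · linear_combination w2 * k1 - v2 * m1 - P * hD
      · linear_combination v1 * m1 - w1 * k1 - Q * hD
      · linear_combination v1 * m2 - w1 * k2 - R * hD

/-- a complementary vector -/
theorem exists_w (v1 v2 : ZMod p) (h : ¬ (v1 = 0 ∧ v2 = 0)) :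
    ∃ w1 w2 : ZMod p, v1 * w2 - v2 * w1 = 1 := by
  by_cases h1 : v1 = 0
  · have h2 : v2 ≠ 0 := fun h2 => h ⟨h1, h2⟩
    refine ⟨-v2⁻¹, 0, ?_⟩
    field_simp
    ring
  · refine ⟨0, v1⁻¹, ?_⟩
    field_simp
    ring

theorem card_ne (hp : 5 ≤ p) : ((univ.filter fun v : ZMod p × ZMod p => v ≠ 0).card : ℚ) =
    (p : ℚ) ^ 2 - 1 := by
  rw [Finset.filter_ne', card_erase_of_mem (mem_univ _), card_univ, Fintype.card_prod, ZMod.card]
  have : 1 ≤ p * p := Nat.one_le_iff_ne_zero.2 (by positivity)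
  push_cast [Nat.cast_sub this]
  ring

end Pool.Agent.NH28.UR.Sym45

namespace Pool.Agent.NH28.UR.Sym45

open Finset
open Pool.Agent.NH28.UR

theorem sym4 (hT : S_TRANS) : S_SYM4 := by
  classical
  intro p _ hp Φ
  have h1 : ∀ c : Fin 10 → ZMod p, (Nat.card {v : ZMod p × ZMod p // Dbl c v} : ℚ) * Φ (nP c) =
      ∑ v : ZMod p × ZMod p, if Dbl c v then Φ (nP c) else 0 := by
    intro c
    rw [← Finset.sum_filter, Finset.sum_const, nsmul_eq_mul, Nat.card_eq_fintype_card,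
      Fintype.card_subtype]
  simp only [h1]
  rw [Finset.sum_comm]
  have h2 : ∀ v : ZMod p × ZMod p, (∑ c : Fin 10 → ZMod p, if Dbl c v then Φ (nP c) else 0) =
      if v ≠ 0 then ∑ c : Fin 10 → ZMod p,
        (if c 0 = 0 ∧ c 1 = 0 ∧ c 3 ≠ 0 then Φ (nP c) else 0) else 0 := by
    rintro ⟨v1, v2⟩
    by_cases hv : (v1, v2) = (0 : ZMod p × ZMod p)
    · rw [if_neg (not_not.2 hv)]
      refine Finset.sum_eq_zero fun c _ => ?_
      rw [if_neg]
      intro h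
      exact h.1 hv
    · rw [if_pos hv]
      obtain ⟨w1, w2, hD⟩ := exists_w v1 v2 (fun h => hv (by rw [h.1, h.2]; rfl))
      obtain ⟨σ, hσ⟩ := sub4 hT hp v1 v2 w1 w2 hD
      rw [← Equiv.sum_comp σ (fun c => if c 0 = 0 ∧ c 1 = 0 ∧ c 3 ≠ 0 then Φ (nP c) else 0)]
      refine Finset.sum_congr rfl fun c _ => ?_
      rw [(hσ c).1]
      have h3 := dbl_iff hp c (σ c) v1 v2 w1 w2 hD (hσ c).2
      by_cases h4 : Dbl c (v1, v2)
      · rw [if_pos h4, if_pos (h3.2 h4)]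
      · rw [if_neg h4, if_neg (fun h => h4 (h3.1 h))]
  rw [Finset.sum_congr rfl fun v _ => h2 v, ← Finset.sum_filter, Finset.sum_const, nsmul_eq_mul,
    card_ne hp]

theorem sym5 (hT : S_TRANS) : S_SYM5 := by
  classical
  intro p _ hp Φ
  set S : ZMod p × ZMod p → ℚ := fun l => ∑ c : Fin 10 → ZMod p,
    if c 0 = 0 ∧ c 1 = l.1 ∧ c 2 = l.2 then Φ (nP c) else 0 with hS
  have h2 := two_ne (p := p) hp
  -- all values agree
  have hSl : ∀ l : ZMod p × ZMod p, l ≠ 0 → S l = S (0, 1) := by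
    rintro ⟨l1, l2⟩ hl
    obtain ⟨w1, w2, hD⟩ := exists_w l2 (-l1) (fun h => hl (by
      rw [h.1, neg_eq_zero.1 h.2]; rfl))
    obtain ⟨σ, hσ⟩ := sub5 hT hp l2 (-l1) w1 w2 hD
    simp only [hS]
    rw [← Equiv.sum_comp σ (fun c => if c 0 = 0 ∧ c 1 = 0 ∧ c 2 = 1 then Φ (nP c) else 0)]
    refine Finset.sum_congr rfl fun c _ => ?_
    rw [(hσ c).1]
    have h3 := (hσ c).2
    have a0 := h3 1 0 0
    have a1 := h3 1 1 0
    have a2 := h3 (-1) 1 0
    have a3 := h3 0 1 0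
    have b1 := h3 1 0 1
    have b2 := h3 (-1) 0 1
    have b3 := h3 0 0 1
    unfold T at a0 a1 a2 a3 b1 b2 b3
    have d0 : σ c 0 = c 0 := by linear_combination a0
    have d1 : σ c 1 = c 1 * l2 - c 2 * l1 := by
      apply mul_left_cancel₀ h2
      linear_combination a1 + a2 - 2 * a3
    have d2 : σ c 2 = c 1 * w1 + c 2 * w2 := by
      apply mul_left_cancel₀ h2
      linear_combination b1 + b2 - 2 * b3
    have h4 : (c 0 = 0 ∧ c 1 = l1 ∧ c 2 = l2) ↔ (σ c 0 = 0 ∧ σ c 1 = 0 ∧ σ c 2 = 1) := by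
      rw [d0, d1, d2]
      constructor
      · rintro ⟨g0, g1, g2⟩
        refine ⟨g0, ?_, ?_⟩
        · rw [g1, g2]; ring
        · rw [g1, g2]; linear_combination hD
      · rintro ⟨g0, g1, g2⟩
        refine ⟨g0, ?_, ?_⟩
        · linear_combination (- c 1) * hD + w2 * g1 + l1 * g2
        · linear_combination (- c 2) * hD - w1 * g1 + l2 * g2
    by_cases h5 : c 0 = 0 ∧ c 1 = l1 ∧ c 2 = l2
    · rw [if_pos h5, if_pos (h4.1 h5)]
    · rw [if_neg h5, if_neg (fun h => h5 (h4.2 h))]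
  -- left side
  have hL : (∑ c : Fin 10 → ZMod p, if c 0 = 0 ∧ ¬ (c 1 = 0 ∧ c 2 = 0) then Φ (nP c) else 0) =
      ((p : ℚ) ^ 2 - 1) * S (0, 1) := by
    have e1 : ∀ c : Fin 10 → ZMod p, (if c 0 = 0 ∧ ¬ (c 1 = 0 ∧ c 2 = 0) then Φ (nP c) else 0) =
        ∑ l ∈ univ.filter (fun l : ZMod p × ZMod p => l ≠ 0),
          if c 0 = 0 ∧ c 1 = l.1 ∧ c 2 = l.2 then Φ (nP c) else 0 := by
      intro c
      by_cases hc : c 0 = 0 ∧ ¬ (c 1 = 0 ∧ c 2 = 0)
      · rw [if_pos hc, Finset.sum_eq_single (c 1, c 2)]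
        · rw [if_pos ⟨hc.1, rfl, rfl⟩]
        · rintro ⟨l1, l2⟩ _ hl
          rw [if_neg]
          rintro ⟨-, h1, h2⟩
          exact hl (Prod.ext h1.symm h2.symm)
        · intro h
          exfalso
          apply h
          rw [mem_filter]
          refine ⟨mem_univ _, fun h0 => hc.2 ?_⟩
          rw [Prod.mk_eq_zero] at h0
          exact h0
      · rw [if_neg hc]
        symm
        refine Finset.sum_eq_zero ?_
        rintro ⟨l1, l2⟩ hl
        rw [if_neg]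
        rintro ⟨h0, h1, h2⟩
        apply hc
        refine ⟨h0, fun h3 => ?_⟩
        rw [mem_filter] at hl
        apply hl.2
        simp only at h1 h2
        rw [← h1, ← h2, h3.1, h3.2]
        rfl
    rw [Finset.sum_congr rfl fun c _ => e1 c, Finset.sum_comm]
    rw [Finset.sum_congr rfl fun l hl => (hSl l (mem_filter.1 hl).2 : _ = S (0, 1))]
    rw [Finset.sum_const, nsmul_eq_mul, card_ne hp]
  have hR : (∑ c : Fin 10 → ZMod p, if c 0 = 0 ∧ c 1 = 0 ∧ c 2 ≠ 0 then Φ (nP c) else 0) =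
      ((p : ℚ) - 1) * S (0, 1) := by
    have e1 : ∀ c : Fin 10 → ZMod p, (if c 0 = 0 ∧ c 1 = 0 ∧ c 2 ≠ 0 then Φ (nP c) else 0) =
        ∑ t ∈ univ.filter (fun t : ZMod p => t ≠ 0),
          if c 0 = 0 ∧ c 1 = ((0 : ZMod p), t).1 ∧ c 2 = ((0 : ZMod p), t).2 then Φ (nP c) else 0 := by
      intro c
      by_cases hc : c 0 = 0 ∧ c 1 = 0 ∧ c 2 ≠ 0
      · rw [if_pos hc, Finset.sum_eq_single (c 2)]
        · rw [if_pos ⟨hc.1, hc.2.1, rfl⟩]
        · intro t _ ht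
          rw [if_neg]
          rintro ⟨-, -, h2⟩
          exact ht h2.symm
        · intro h
          exfalso
          apply h
          rw [mem_filter]
          exact ⟨mem_univ _, hc.2.2⟩
      · rw [if_neg hc]
        symm
        refine Finset.sum_eq_zero fun t ht => ?_
        rw [if_neg]
        rintro ⟨h0, h1, h2⟩
        apply hc
        refine ⟨h0, h1, ?_⟩
        rw [mem_filter] at ht
        simp only at h2
        rw [h2]
        exact ht.2
    rw [Finset.sum_congr rfl fun c _ => e1 c, Finset.sum_comm]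
    have e2 : ∀ t ∈ univ.filter (fun t : ZMod p => t ≠ 0), (∑ c : Fin 10 → ZMod p,
        if c 0 = 0 ∧ c 1 = ((0 : ZMod p), t).1 ∧ c 2 = ((0 : ZMod p), t).2 then Φ (nP c) else 0) =
        S (0, 1) := by
      intro t ht
      refine hSl (0, t) fun h => ?_
      rw [Prod.mk_eq_zero] at h
      exact (mem_filter.1 ht).2 h.2
    rw [Finset.sum_congr rfl e2]
    rw [Finset.sum_const, nsmul_eq_mul, Finset.filter_ne', card_erase_of_mem (mem_univ _),
      card_univ, ZMod.card, Nat.cast_sub (by omega)]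
    push_cast
    ring
  rw [hL, hR]
  ring

end Pool.Agent.NH28.UR.Sym45
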