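import Pool.Agent.NH28.UR.Stm

set_option autoImplicit false

/-!
# Project UR: linear substitutions act on cubic forms
-/

namespace Pool.Agent.NH28.UR.Trans

open Pool.Agent.NH28.UR

section
variable {F : Type} [Field F]

/-- The coefficients of a product of three linear forms. -/
def pr (l m n : Fin 3 → F) : Fin 10 → F :=
  ![l 0 * m 0 * n 0,
    l 0 * m 0 * n 1 + l 0 * m 1 * n 0 + l 1 * m 0 * n 0,
    l 0 * m 0 * n 2 + l 0 * m 2 * n 0 + l 2 * m 0 * n 0,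
    l 0 * m 1 * n 1 + l 1 * m 0 * n 1 + l 1 * m 1 * n 0,
    l 0 * m 1 * n 2 + l 0 * m 2 * n 1 + l 1 * m 0 * n 2 + l 1 * m 2 * n 0 + l 2 * m 0 * n 1 +
      l 2 * m 1 * n 0,
    l 0 * m 2 * n 2 + l 2 * m 0 * n 2 + l 2 * m 2 * n 0,
    l 1 * m 1 * n 1,
    l 1 * m 1 * n 2 + l 1 * m 2 * n 1 + l 2 * m 1 * n 1,
    l 1 * m 2 * n 2 + l 2 * m 1 * n 2 + l 2 * m 2 * n 1,
    l 2 * m 2 * n 2]

lemma T_pr (l m n : Fin 3 → F) (x y z : F) :
    T (pr l m n) x y z = (l 0 * x + l 1 * y + l 2 * z) * (m 0 * x + m 1 * y + m 2 * z) *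
      (n 0 * x + n 1 * y + n 2 * z) := by
  have e0 : pr l m n 0 = l 0 * m 0 * n 0 := rfl
  have e1 : pr l m n 1 = l 0 * m 0 * n 1 + l 0 * m 1 * n 0 + l 1 * m 0 * n 0 := rfl
  have e2 : pr l m n 2 = l 0 * m 0 * n 2 + l 0 * m 2 * n 0 + l 2 * m 0 * n 0 := rfl
  have e3 : pr l m n 3 = l 0 * m 1 * n 1 + l 1 * m 0 * n 1 + l 1 * m 1 * n 0 := rfl
  have e4 : pr l m n 4 = l 0 * m 1 * n 2 + l 0 * m 2 * n 1 + l 1 * m 0 * n 2 + l 1 * m 2 * n 0 +
    l 2 * m 0 * n 1 + l 2 * m 1 * n 0 := rfl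
  have e5 : pr l m n 5 = l 0 * m 2 * n 2 + l 2 * m 0 * n 2 + l 2 * m 2 * n 0 := rfl
  have e6 : pr l m n 6 = l 1 * m 1 * n 1 := rfl
  have e7 : pr l m n 7 = l 1 * m 1 * n 2 + l 1 * m 2 * n 1 + l 2 * m 1 * n 1 := rfl
  have e8 : pr l m n 8 = l 1 * m 2 * n 2 + l 2 * m 1 * n 2 + l 2 * m 2 * n 1 := rfl
  have e9 : pr l m n 9 = l 2 * m 2 * n 2 := rfl
  unfold T
  rw [e0, e1, e2, e3, e4, e5, e6, e7, e8, e9]
  ring

lemma T_add (c d : Fin 10 → F) (x y z : F) : T (c + d) x y z = T c x y z + T d x y z := by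
  unfold T
  simp only [Pi.add_apply]
  ring

lemma T_smul (a : F) (c : Fin 10 → F) (x y z : F) : T (a • c) x y z = a * T c x y z := by
  unfold T
  simp only [Pi.smul_apply, smul_eq_mul]
  ring

/-- The substitution. -/
def sb (A : Matrix (Fin 3) (Fin 3) F) (c : Fin 10 → F) : Fin 10 → F :=
  c 0 • pr (A 0) (A 0) (A 0) + c 1 • pr (A 0) (A 0) (A 1) + c 2 • pr (A 0) (A 0) (A 2) +
    c 3 • pr (A 0) (A 1) (A 1) + c 4 • pr (A 0) (A 1) (A 2) + c 5 • pr (A 0) (A 2) (A 2) +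
    c 6 • pr (A 1) (A 1) (A 1) + c 7 • pr (A 1) (A 1) (A 2) + c 8 • pr (A 1) (A 2) (A 2) +
    c 9 • pr (A 2) (A 2) (A 2)

lemma T_sb (A : Matrix (Fin 3) (Fin 3) F) (c : Fin 10 → F) (v : Fin 3 → F) :
    T (sb A c) (v 0) (v 1) (v 2) = T c (A.mulVec v 0) (A.mulVec v 1) (A.mulVec v 2) := by
  have h : ∀ i, A.mulVec v i = A i 0 * v 0 + A i 1 * v 1 + A i 2 * v 2 := by
    intro i
    simp [Matrix.mulVec, dotProduct, Fin.sum_univ_three]
  unfold sb
  simp only [T_add, T_smul, T_pr]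
  rw [h 0, h 1, h 2]
  unfold T
  ring

lemma T_inj (h2 : (2 : F) ≠ 0) (d : Fin 10 → F) (h : ∀ x y z : F, T d x y z = 0) : d = 0 := by
  have a0 : d 0 = 0 := by simpa [T] using h 1 0 0
  have a6 : d 6 = 0 := by simpa [T] using h 0 1 0
  have a9 : d 9 = 0 := by simpa [T] using h 0 0 1
  have b1 : d 1 + d 3 = 0 := by simpa [T, a0, a6] using h 1 1 0
  have b2 : -d 1 + d 3 = 0 := by simpa [T, a0, a6] using h 1 (-1) 0
  have b3 : d 2 + d 5 = 0 := by simpa [T, a0, a9] using h 1 0 1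
  have b4 : -d 2 + d 5 = 0 := by simpa [T, a0, a9] using h 1 0 (-1)
  have b5 : d 7 + d 8 = 0 := by simpa [T, a6, a9] using h 0 1 1
  have b6 : -d 7 + d 8 = 0 := by simpa [T, a6, a9] using h 0 1 (-1)
  have a3 : d 3 = 0 := by
    have : (2 : F) * d 3 = 0 := by linear_combination b1 + b2
    exact (mul_eq_zero.1 this).resolve_left h2
  have a5 : d 5 = 0 := by
    have : (2 : F) * d 5 = 0 := by linear_combination b3 + b4
    exact (mul_eq_zero.1 this).resolve_left h2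
  have a8 : d 8 = 0 := by
    have : (2 : F) * d 8 = 0 := by linear_combination b5 + b6
    exact (mul_eq_zero.1 this).resolve_left h2
  have a1 : d 1 = 0 := by rwa [a3, add_zero] at b1
  have a2 : d 2 = 0 := by rwa [a5, add_zero] at b3
  have a7 : d 7 = 0 := by rwa [a8, add_zero] at b5
  have a4 : d 4 = 0 := by simpa [T, a0, a1, a2, a3, a5, a6, a7, a8, a9] using h 1 1 1
  funext i
  fin_cases i
  · exact a0
  · exact a1
  · exact a2
  · exact a3
  · exact a4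
  · exact a5
  · exact a6
  · exact a7
  · exact a8
  · exact a9

lemma T_ext (h2 : (2 : F) ≠ 0) (c d : Fin 10 → F)
    (h : ∀ v : Fin 3 → F, T c (v 0) (v 1) (v 2) = T d (v 0) (v 1) (v 2)) : c = d := by
  have h3 : c + (-1 : F) • d = 0 := by
    refine T_inj h2 _ fun x y z => ?_
    have := h ![x, y, z]
    simp only [Matrix.cons_val_zero, Matrix.cons_val_one, Matrix.cons_val] at this
    rw [T_add, T_smul, this]
    ring
  rw [neg_one_smul] at h3
  exact add_neg_eq_zero.1 h3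

end

theorem trans : S_TRANS := by
  intro p _ hp A hA
  have h2 : (2 : ZMod p) ≠ 0 := by
    intro h
    have h3 : ((2 : ℕ) : ZMod p) = 0 := by exact_mod_cast h
    rw [ZMod.natCast_eq_zero_iff] at h3
    exact absurd (Nat.le_of_dvd (by norm_num) h3) (by omega)
  refine ⟨⟨sb A, sb A⁻¹, fun c => ?_, fun c => ?_⟩, fun c v => T_sb A c v⟩
  · refine T_ext h2 _ _ fun v => ?_
    rw [T_sb, T_sb, Matrix.mulVec_mulVec, Matrix.mul_nonsing_inv A hA, Matrix.one_mulVec]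
  · refine T_ext h2 _ _ fun v => ?_
    rw [T_sb, T_sb, Matrix.mulVec_mulVec, Matrix.nonsing_inv_mul A hA, Matrix.one_mulVec]

end Pool.Agent.NH28.UR.Trans
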