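import Pool.Agent.NH28.UR.Stm

/-! Project UR, job UR-V (helper70): `Vct` and `Xct`. -/

set_option autoImplicit false
set_option linter.unusedSectionVars false

namespace Pool.Agent.NH28.UR.Vx

open Finset Pool.Agent.NH28.UR

theorem card_fib {A B : Type} [Finite A] [Finite B] (f : A → B) (k : ℕ)
    (h : ∀ b, Nat.card {a // f a = b} = k) : Nat.card A = Nat.card B * k := by
  classical
  have := Fintype.ofFinite B
  rw [Nat.card_congr (Equiv.sigmaFiberEquiv f).symm, Nat.card_sigma]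
  simp [h]

section
variable {p : ℕ} [Fact p.Prime]

/-- the space -/
abbrev W (p : ℕ) : Type := Fin 10 → ZMod p

/-- the sum of a subspace and a line -/
abbrev ad (U : Submodule (ZMod p) (W p)) (a : W p) : Submodule (ZMod p) (W p) :=
  U ⊔ Submodule.span (ZMod p) {a}

theorem mem_ad {U : Submodule (ZMod p) (W p)} {a b : W p} :
    b ∈ ad U a ↔ ∃ u ∈ U, ∃ c : ZMod p, b = u + c • a := by
  constructor
  · intro h
    obtain ⟨u, hu, v, hv, huv⟩ := Submodule.mem_sup.1 h
    obtain ⟨c, hc⟩ := Submodule.mem_span_singleton.1 hv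
    exact ⟨u, hu, c, by rw [← huv, hc]⟩
  · rintro ⟨u, hu, c, rfl⟩
    exact Submodule.add_mem_sup hu (Submodule.mem_span_singleton.2 ⟨c, rfl⟩)

theorem card_ad {U : Submodule (ZMod p) (W p)} {a : W p} (ha : a ∉ U) :
    Nat.card (ad U a) = Nat.card U * p := by
  have hb : Function.Bijective (fun x : U × ZMod p =>
      (⟨(x.1 : W p) + x.2 • a, mem_ad.2 ⟨x.1, x.1.2, x.2, rfl⟩⟩ : ad U a)) := by
    constructor
    · rintro ⟨u, c⟩ ⟨u', c'⟩ h
      have h1 : (u : W p) + c • a = u' + c' • a := congrArg Subtype.val h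
      have h2 : c = c' := by
        by_contra hne
        apply ha
        have h3 : (c - c') • a = (u' : W p) - u := by
          rw [sub_smul, sub_eq_sub_iff_add_eq_add, add_comm, h1, add_comm]
        have h4 : a = (c - c')⁻¹ • ((u' : W p) - u) := by
          rw [← h3, smul_smul, inv_mul_cancel₀ (sub_ne_zero.2 hne), one_smul]
        rw [h4]
        exact U.smul_mem _ (U.sub_mem u'.2 u.2)
      subst h2
      have h3 : (u : W p) = u' := add_right_cancel h1
      rw [Subtype.ext h3]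
    · rintro ⟨b, hb⟩
      obtain ⟨u, hu, c, hc⟩ := mem_ad.1 hb
      exact ⟨(⟨u, hu⟩, c), Subtype.ext hc.symm⟩
  rw [← Nat.card_congr (Equiv.ofBijective _ hb), Nat.card_prod, Nat.card_zmod]

theorem ad_eq {U : Submodule (ZMod p) (W p)} {a : W p} (ha : a ∈ U) : ad U a = U := by
  apply le_antisymm
  · exact sup_le le_rfl ((Submodule.span_singleton_le_iff_mem _ _).2 ha)
  · exact le_sup_left

theorem card_ad_le (U : Submodule (ZMod p) (W p)) (a : W p) :
    Nat.card (ad U a) ≤ Nat.card U * p := by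
  by_cases ha : a ∈ U
  · rw [ad_eq ha]
    exact Nat.le_mul_of_pos_right _ (Fact.out : p.Prime).pos
  · exact (card_ad ha).le

/-- `span(1)` -/
abbrev U1 (p : ℕ) [Fact p.Prime] : Submodule (ZMod p) (W p) := ad ⊥ 1
/-- `span(1, x)` -/
abbrev U2 (x : W p) : Submodule (ZMod p) (W p) := ad (U1 p) x
/-- `span(1, x, y)` -/
abbrev U3 (x y : W p) : Submodule (ZMod p) (W p) := ad (U2 x) y

theorem card_U1 : Nat.card (U1 p) = p := by
  have h1 : (1 : W p) ∉ (⊥ : Submodule (ZMod p) (W p)) := by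
    rw [Submodule.mem_bot]
    intro h
    have h2 := congrFun h 0
    simp at h2
  rw [card_ad h1]
  have h2 : Nat.card (⊥ : Submodule (ZMod p) (W p)) = 1 := Nat.card_unique
  rw [h2, one_mul]

theorem one_U1 : (1 : W p) ∈ U1 p := by
  apply (le_sup_right : _ ≤ ad ⊥ (1 : W p))
  exact Submodule.mem_span_singleton_self _

theorem one_U3 (x y : W p) : (1 : W p) ∈ U3 x y :=
  (le_sup_left : _ ≤ ad (U2 x) y) ((le_sup_left : _ ≤ ad (U1 p) x) one_U1)

theorem x_U2 (x : W p) : x ∈ U2 x :=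
  (le_sup_right : _ ≤ ad (U1 p) x) (Submodule.mem_span_singleton_self _)

theorem x_U3 (x y : W p) : x ∈ U3 x y := (le_sup_left : _ ≤ ad (U2 x) y) (x_U2 x)

theorem y_U3 (x y : W p) : y ∈ U3 x y :=
  (le_sup_right : _ ≤ ad (U2 x) y) (Submodule.mem_span_singleton_self _)

theorem card_U2 {x : W p} (hx : x ∉ U1 p) : Nat.card (U2 x) = p ^ 2 := by
  rw [card_ad hx, card_U1, pow_two]

theorem card_U3 {x y : W p} (hx : x ∉ U1 p) (hy : y ∉ U2 x) : Nat.card (U3 x y) = p ^ 3 := by
  rw [card_ad hy, card_U2 hx]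
  ring

theorem U1_le {V : Submodule (ZMod p) (W p)} (h1 : (1 : W p) ∈ V) : U1 p ≤ V :=
  sup_le bot_le ((Submodule.span_singleton_le_iff_mem _ _).2 h1)

theorem U2_le {V : Submodule (ZMod p) (W p)} (h1 : (1 : W p) ∈ V) {x : W p} (hx : x ∈ V) :
    U2 x ≤ V := sup_le (U1_le h1) ((Submodule.span_singleton_le_iff_mem _ _).2 hx)

theorem U3_le {V : Submodule (ZMod p) (W p)} (h1 : (1 : W p) ∈ V) {x y : W p} (hx : x ∈ V)
    (hy : y ∈ V) : U3 x y ≤ V :=
  sup_le (U2_le h1 hx) ((Submodule.span_singleton_le_iff_mem _ _).2 hy)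

theorem eq_of_card {U V : Submodule (ZMod p) (W p)} (h : U ≤ V) (hc : Nat.card U = Nat.card V) :
    U = V := by
  apply SetLike.coe_injective
  apply Set.eq_of_subset_of_ncard_le (h : (U : Set (W p)) ⊆ V) _ (Set.toFinite _)
  rw [← Nat.card_coe_set_eq, ← Nat.card_coe_set_eq]
  exact hc.ge

/-- bases of `V` -/
theorem U3_eq_iff {V : Submodule (ZMod p) (W p)} (h1 : (1 : W p) ∈ V) (hV : Nat.card V = p ^ 3)
    (x y : W p) : U3 x y = V ↔ (x ∈ V ∧ x ∉ U1 p) ∧ (y ∈ V ∧ y ∉ U2 x) := by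
  have hp : p.Prime := Fact.out
  constructor
  · rintro rfl
    have hx : x ∉ U1 p := by
      intro h
      have h2 : Nat.card (U3 x y) ≤ Nat.card (U2 x) * p := card_ad_le _ _
      have h3 : U2 x = U1 p := ad_eq h
      rw [hV, h3, card_U1, ← pow_two] at h2
      exact absurd h2 (not_le.2 (Nat.pow_lt_pow_right hp.one_lt (by norm_num)))
    have hy : y ∉ U2 x := by
      intro h
      have h2 : U3 x y = U2 x := ad_eq h
      rw [h2, card_U2 hx] at hV
      exact absurd hV (Nat.pow_lt_pow_right hp.one_lt (by norm_num)).ne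
    exact ⟨⟨x_U3 x y, hx⟩, ⟨y_U3 x y, hy⟩⟩
  · rintro ⟨⟨hx, hx1⟩, ⟨hy, hy1⟩⟩
    exact eq_of_card (U3_le h1 hx hy) (by rw [card_U3 hx1 hy1, hV])

theorem card_diff {U V : Submodule (ZMod p) (W p)} (h : U ≤ V) :
    Nat.card {x : W p // x ∈ V ∧ x ∉ U} = Nat.card V - Nat.card U := by
  have h1 := Set.ncard_sdiff (h : (U : Set (W p)) ⊆ V) (Set.toFinite _)
  rw [← Nat.card_coe_set_eq, ← Nat.card_coe_set_eq, ← Nat.card_coe_set_eq] at h1
  exact h1

theorem card_bases {V : Submodule (ZMod p) (W p)} (h1 : (1 : W p) ∈ V) (hV : Nat.card V = p ^ 3) :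
    Nat.card {z : W p × W p // U3 z.1 z.2 = V} = (p ^ 3 - p) * (p ^ 3 - p ^ 2) := by
  have hf := card_fib (A := {z : W p × W p // U3 z.1 z.2 = V}) (B := {x : W p // x ∈ V ∧ x ∉ U1 p})
    (fun z => ⟨z.1.1, ((U3_eq_iff h1 hV z.1.1 z.1.2).1 z.2).1⟩) (p ^ 3 - p ^ 2) (by
      rintro ⟨x, hx, hx1⟩
      have h2 : Nat.card {y : W p // y ∈ V ∧ y ∉ U2 x} = p ^ 3 - p ^ 2 := by
        rw [card_diff (U2_le h1 hx), hV, card_U2 hx1]
      rw [← h2]
      refine Nat.card_congr ?_
      refine ⟨fun z => ⟨z.1.1.2, ?_⟩, fun y => ⟨⟨(x, y.1), ?_⟩, ?_⟩, ?_, ?_⟩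
      · have h3 := ((U3_eq_iff h1 hV z.1.1.1 z.1.1.2).1 z.1.2).2
        have h4 : z.1.1.1 = x := congrArg Subtype.val z.2
        rw [h4] at h3
        exact h3
      · exact (U3_eq_iff h1 hV x y.1).2 ⟨⟨hx, hx1⟩, y.2⟩
      · rfl
      · rintro ⟨⟨⟨x', y⟩, h3⟩, h4⟩
        have h5 : x' = x := congrArg Subtype.val h4
        subst h5
        rfl
      · intro y
        rfl)
  rw [hf, card_diff (U1_le h1), hV, card_U1]

/-! ### the ten monomials -/

/-- the monomials -/
def ee (x y : W p) : Fin 10 → W p :=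
  ![x ^ 3, x ^ 2 * y, x ^ 2, x * y ^ 2, x * y, x, y ^ 3, y ^ 2, y, 1]

theorem ee_mon (P : Fin 10 → ZMod p × ZMod p) (i j : Fin 10) :
    ee (fun k => (P k).1) (fun k => (P k).2) j i = mon (P i) j := by
  fin_cases j <;> simp [ee, mon]

theorem li_iff (P : Fin 10 → ZMod p × ZMod p) :
    LinearIndependent (ZMod p) (fun i => mon (P i)) ↔
      LinearIndependent (ZMod p) (ee (fun k => (P k).1) (fun k => (P k).2)) := by
  have h1 := Matrix.linearIndependent_rows_iff_isUnit (K := ZMod p)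
    (A := Matrix.of (fun i => mon (P i)))
  have h2 := Matrix.linearIndependent_cols_iff_isUnit (K := ZMod p)
    (A := Matrix.of (fun i => mon (P i)))
  have h3 : (Matrix.of (fun i => mon (P i))).row = fun i => mon (P i) := rfl
  have h4 : (Matrix.of (fun i => mon (P i))).col = ee (fun k => (P k).1) (fun k => (P k).2) := by
    funext j i
    exact (ee_mon P i j).symm
  rw [h3] at h1
  rw [h4] at h2
  rw [h1, h2]

theorem li_span (v : Fin 10 → W p) :
    LinearIndependent (ZMod p) v ↔ Submodule.span (ZMod p) (Set.range v) = ⊤ := by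
  have hc : Fintype.card (Fin 10) = Module.finrank (ZMod p) (W p) := by simp
  constructor
  · intro h
    exact h.span_eq_top_of_card_eq_finrank' hc
  · intro h
    exact linearIndependent_of_top_le_span_of_card_eq_finrank h.ge hc

/-- the span of the triple products -/
def cube (V : Submodule (ZMod p) (W p)) : Submodule (ZMod p) (W p) :=
  Submodule.span (ZMod p) {t | ∃ x ∈ V, ∃ y ∈ V, ∃ z ∈ V, t = x * y * z}

theorem U3_span (x y : W p) : U3 x y = Submodule.span (ZMod p) {1, x, y} := by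
  unfold U3 U2 U1 ad
  rw [bot_sup_eq, ← Submodule.span_union, ← Submodule.span_union]
  congr 1
  ext z
  simp only [Set.mem_union, Set.mem_singleton_iff, Set.mem_insert_iff]
  tauto

theorem cube_eq (x y : W p) :
    cube (U3 x y) = Submodule.span (ZMod p) (Set.range (ee x y)) := by
  apply le_antisymm
  · apply Submodule.span_le.2
    rintro _ ⟨a, ha, b, hb, c, hc, rfl⟩
    rw [U3_span] at ha hb hc
    have h1 : a * b * c ∈ Submodule.span (ZMod p) {1, x, y} * Submodule.span (ZMod p) {1, x, y} *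
        Submodule.span (ZMod p) {1, x, y} :=
      Submodule.mul_mem_mul (Submodule.mul_mem_mul ha hb) hc
    rw [Submodule.span_mul_span, Submodule.span_mul_span] at h1
    refine Submodule.span_le.2 ?_ h1
    rintro _ ⟨_, ⟨s1, hs1, s2, hs2, rfl⟩, s3, hs3, rfl⟩
    simp only [Set.mem_insert_iff, Set.mem_singleton_iff] at hs1 hs2 hs3
    have hm : ∀ (j : Fin 10) (t : W p), ee x y j = t → t ∈
        (Submodule.span (ZMod p) (Set.range (ee x y)) : Set (W p)) := by
      intro j t ht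
      exact Submodule.subset_span ⟨j, ht⟩
    rcases hs1 with rfl | rfl | rfl <;> rcases hs2 with rfl | rfl | rfl <;>
      rcases hs3 with rfl | rfl | rfl <;>
      first
        | (refine hm 9 _ ?_; simp only [ee, Matrix.cons_val]; ring1)
        | (refine hm 5 _ ?_; simp only [ee, Matrix.cons_val]; ring1)
        | (refine hm 8 _ ?_; simp only [ee, Matrix.cons_val]; ring1)
        | (refine hm 2 _ ?_; simp only [ee, Matrix.cons_val]; ring1)
        | (refine hm 4 _ ?_; simp only [ee, Matrix.cons_val]; ring1)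
        | (refine hm 7 _ ?_; simp only [ee, Matrix.cons_val]; ring1)
        | (refine hm 0 _ ?_; simp only [ee, Matrix.cons_val]; ring1)
        | (refine hm 1 _ ?_; simp only [ee, Matrix.cons_val]; ring1)
        | (refine hm 3 _ ?_; simp only [ee, Matrix.cons_val]; ring1)
        | (refine hm 6 _ ?_; simp only [ee, Matrix.cons_val]; ring1)
  · apply Submodule.span_le.2
    rintro _ ⟨j, rfl⟩
    have h1 := one_U3 x y
    have hx := x_U3 x y
    have hy := y_U3 x y
    have hm : ∀ a ∈ U3 x y, ∀ b ∈ U3 x y, ∀ c ∈ U3 x y, ∀ t, t = a * b * c →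
        t ∈ (cube (U3 x y) : Set (W p)) :=
      fun a ha b hb c hc t ht => Submodule.subset_span ⟨a, ha, b, hb, c, hc, ht⟩
    fin_cases j
    · exact hm x hx x hx x hx _ (by simp [ee]; ring)
    · exact hm x hx x hx y hy _ (by simp [ee]; ring)
    · exact hm x hx x hx 1 h1 _ (by simp [ee]; ring)
    · exact hm x hx y hy y hy _ (by simp [ee]; ring)
    · exact hm x hx y hy 1 h1 _ (by simp [ee])
    · exact hm x hx 1 h1 1 h1 _ (by simp [ee])
    · exact hm y hy y hy y hy _ (by simp [ee]; ring)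
    · exact hm y hy y hy 1 h1 _ (by simp [ee]; ring)
    · exact hm y hy 1 h1 1 h1 _ (by simp [ee])
    · exact hm 1 h1 1 h1 1 h1 _ (by simp [ee])

theorem li_ne (x y : W p) (h : LinearIndependent (ZMod p) (ee x y)) : x ∉ U1 p ∧ y ∉ U2 x := by
  rw [Fintype.linearIndependent_iff] at h
  constructor
  · intro hx
    obtain ⟨u, hu, c, hc⟩ := mem_ad.1 hx
    rw [Submodule.mem_bot] at hu
    have h1 := h ![0, 0, 0, 0, 0, 1, 0, 0, 0, -c] (by
      simp only [Fin.sum_univ_succ, ee]
      simp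
      rw [hc, hu]
      simp) 5
    simp at h1
  · intro hy
    obtain ⟨u, hu, c, hc⟩ := mem_ad.1 hy
    obtain ⟨u', hu', c', hc'⟩ := mem_ad.1 hu
    rw [Submodule.mem_bot] at hu'
    have h1 := h ![0, 0, 0, 0, 0, -c, 0, 0, 1, -c'] (by
      simp only [Fin.sum_univ_succ, ee]
      simp
      rw [hc, hc', hu']
      simp) 8
    simp at h1

end

theorem vThm : S_V := by
  intro p _
  have e1 : Xct p = Nat.card {z : W p × W p // LinearIndependent (ZMod p) (ee z.1 z.2)} := by
    unfold Xct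
    refine Nat.card_congr ((Equiv.arrowProdEquivProdArrow (Fin 10) (fun _ => ZMod p)
      (fun _ => ZMod p)).subtypeEquiv fun P => ?_)
    exact li_iff P
  have hg : ∀ z : W p × W p, LinearIndependent (ZMod p) (ee z.1 z.2) → Vgood (U3 z.1 z.2) := by
    intro z hz
    obtain ⟨hx, hy⟩ := li_ne z.1 z.2 hz
    refine ⟨one_U3 _ _, card_U3 hx hy, ?_⟩
    have h1 := cube_eq z.1 z.2
    unfold cube at h1
    rw [h1]
    exact (li_span _).1 hz
  have h2 := card_fib (A := {z : W p × W p // LinearIndependent (ZMod p) (ee z.1 z.2)})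
    (B := {V : Submodule (ZMod p) (W p) // Vgood V}) (fun z => ⟨U3 z.1.1 z.1.2, hg z.1 z.2⟩)
    ((p ^ 3 - p) * (p ^ 3 - p ^ 2)) (by
      rintro ⟨V, hV1, hV2, hV3⟩
      rw [← card_bases hV1 hV2]
      refine Nat.card_congr ?_
      refine ⟨fun z => ⟨z.1.1, congrArg Subtype.val z.2⟩, fun z => ⟨⟨z.1, ?_⟩, ?_⟩, ?_, ?_⟩
      · rw [li_span, ← cube_eq, z.2]
        exact hV3
      · exact Subtype.ext z.2
      · intro z
        rfl
      · intro z
        rfl)
  rw [e1, h2, mul_comm]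
  rfl

end Pool.Agent.NH28.UR.Vx
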